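import Pool.Agent.TIP.Box2
import Pool.Agent.TIP.DefsN
import Pool.Agent.SLW.Defs
import Pool.Agent.PW.ZtM

/-!
# NPR (natural parametrisation, doc nu34/NPR_14): definitions and literals, part E (the engine)

Words start at the origin upwards; `hn` is the hexagonal norm. A block of the scale `L` of a word `u` (seen from its start):
`s1 < s2 < s3` are the successive times at which the word has made `M` steps or has moved by `2 ^ L`; the middle is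
`u[s1, s2]`, the cut window is `u[s2, s3]`. The label of `u` is the largest scale `b` with `b0 <= b <= L - k` at which the cut
window has a factor in `Zc` (0 if there is none); the next cut is any rich cut of that scale in the window.
-/

set_option autoImplicit false

namespace HexObs

namespace NPR

open Finset TS SDN TIW NTA TIP

open scoped ENNReal

/-- the critical weight of the words of the box of the scale K, up to constants -/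
noncomputable def FK (K : ℕ) : ℝ≥0∞ := ENNReal.ofReal (Ub K) * Xb K ^ 2

/-- the number of steps of a block of the scale L -/
noncomputable def ML (L : ℕ) : ℕ := ⌈PW.mZ (2 ^ L)⌉₊

/-- words with a factor in QQ -/
def Fac (QQ : Set (List Bool)) : Set (List Bool) := {t | ∃ X Q Y, t = X ++ (Q ++ Y) ∧ Q ∈ QQ}

/-! ### blocks -/

/-- the first time after c at which M steps have been made or the distance 2 ^ L is reached -/
noncomputable def stp (L M : ℕ) (u : List Bool) (c : ℕ) : ℕ :=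
  sInf {s | c < s ∧ (s = c + M ∨ (2 : ℤ) ^ L ≤ hn (vx oo up u s - vx oo up u c))}

noncomputable def s1 (L M : ℕ) (u : List Bool) : ℕ := stp L M u 0

noncomputable def s2 (L M : ℕ) (u : List Bool) : ℕ := stp L M u (s1 L M u)

noncomputable def s3 (L M : ℕ) (u : List Bool) : ℕ := stp L M u (s2 L M u)

/-- the middle of the block -/
noncomputable def mid (L M : ℕ) (u : List Bool) : List Bool := (u.take (s2 L M u)).drop (s1 L M u)

/-- the cut window of the block -/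
noncomputable def win (L M : ℕ) (u : List Bool) : List Bool := (u.take (s3 L M u)).drop (s2 L M u)

/-- the possible middles: M steps or the distance 2 ^ L, not before -/
def Mid (L M : ℕ) : Set (List Bool) :=
  {Q | 1 ≤ Q.length ∧ Q.length ≤ M ∧ (∀ i, i < Q.length → hn (vx oo up Q i) < 2 ^ L) ∧
    (Q.length = M ∨ 2 ^ L ≤ hn (vx oo up Q Q.length))}

/-- rich cuts j of the scale b, the whole local bridge inside [x, y] -/
def RC (η : ℝ) (C b : ℕ) (u : List Bool) (x y j : ℕ) : Prop :=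
  ∃ X Z1 M N Z3 Y : List Bool, u = X ++ (Z1 ++ (M ++ (N ++ (Z3 ++ Y)))) ∧ x ≤ X.length ∧ j = (X ++ (Z1 ++ M)).length ∧
    (X ++ (Z1 ++ (M ++ (N ++ Z3)))).length ≤ y ∧ Z1 ∈ BU ∧ M ∈ BU ∧ N ∈ BU ∧ Z3 ∈ BU ∧
    2 ^ (b + 1) ≤ hgt Z1 ∧ 2 ^ (b + 1) ≤ hgt Z3 ∧ hgt (M ++ N) ≤ 2 ^ b ∧
    η * Ub b ≤ (nc M : ℝ) ∧ η * Ub b ≤ (nc N : ℝ) ∧ In (C * 2 ^ b) (Z1 ++ (M ++ (N ++ Z3)))

/-- the label: the best scale in the cut window, 0 if there is none -/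
noncomputable def lbl (κ : ℝ) (C b0 k L : ℕ) (u : List Bool) : ℕ :=
  sSup {b | b0 ≤ b ∧ b + k ≤ L ∧ win L (ML L) u ∉ Nz κ C b}

open Classical in
/-- the possible next cuts -/
noncomputable def nx (κ : ℝ) (C b0 k L : ℕ) (u : List Bool) : Finset ℕ :=
  (range (u.length + 1)).filter fun j => if lbl κ C b0 k L u = 0 then j = s3 L (ML L) u
    else RC (κ / 4) C (lbl κ C b0 k L u) u (s2 L (ML L) u) (s3 L (ML L) u) j

/-- the multiplicity of a cut with the label b -/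
noncomputable def uw (κ : ℝ) (b : ℕ) : ℝ := if b = 0 then 1 else κ / 4 * Ub b

/-- the weight of a tip with the label b -/
noncomputable def xw (b : ℕ) : ℝ≥0∞ := if b = 0 then 1 else Xb b

/-- a chain of J blocks from the start of u, at least g of them with a middle outside QQ -/
def Ch (κ : ℝ) (C b0 k L : ℕ) (QQ : Set (List Bool)) : ℕ → ℕ → List Bool → Prop
  | 0, g, _ => g = 0
  | J + 1, g, u => ∃ j ∈ nx κ C b0 k L u, Ch κ C b0 k L QQ J g (u.drop j) ∨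
      (mid L (ML L) u ∉ QQ ∧ ∃ g', g = g' + 1 ∧ Ch κ C b0 k L QQ J g' (u.drop j))

/-! ### pieces -/

/-- good starts with the label b -/
def GS (η : ℝ) (D b : ℕ) : Set (List Bool) :=
  {S | if b = 0 then S = [] else ∃ N Z3, S = N ++ Z3 ∧ N ∈ BU ∧ Z3 ∈ BU ∧ hgt N ≤ 2 ^ b ∧ 2 ^ (b + 1) ≤ hgt Z3 ∧
    η * Ub b ≤ (nc N : ℝ) ∧ In (D * 2 ^ b) S}

/-- good ends with the label b -/
def GE (η : ℝ) (D b : ℕ) : Set (List Bool) :=
  {T | if b = 0 then T = [] else ∃ Z1 M, T = Z1 ++ M ∧ Z1 ∈ BU ∧ M ∈ BU ∧ hgt M ≤ 2 ^ b ∧ 2 ^ (b + 1) ≤ hgt Z1 ∧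
    η * Ub b ≤ (nc M : ℝ) ∧ In (D * 2 ^ b) T}

/-- big words of the scale L -/
def Big (L : ℕ) : Set (List Bool) := {Q | ¬ In (2 ^ (L - 4)) Q ∨ PW.mZ (2 ^ L) / 4 ≤ (Q.length : ℝ)}

/-- flags with the label b: big words without a factor in Zc of the scale b + 1 (of the scale b0, if b = 0) -/
def Flg (κ : ℝ) (C b0 L b : ℕ) : Set (List Bool) := Nz κ C (max (b + 1) b0) ∩ Big L

/-- pieces -/
def PC (η : ℝ) (D K b b' : ℕ) : Set (List Bool) :=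
  {p | p ∈ WL K ∧ ∃ S ∈ GS η D b, ∃ R, ∃ T ∈ GE η D b', p = S ++ (R ++ T)}

/-- pieces with a middle part in QQ -/
def PCQ (η : ℝ) (D K b b' : ℕ) (QQ : Set (List Bool)) : Set (List Bool) :=
  {p | p ∈ WL K ∧ ∃ S ∈ GS η D b, ∃ R, ∃ Q ∈ QQ, ∃ R', ∃ T ∈ GE η D b', p = S ++ (R ++ (Q ++ (R' ++ T)))}

/-- pieces with a flag at the end -/
def PFE (η κ : ℝ) (C D b0 L K b b' : ℕ) : Set (List Bool) :=
  {p | p ∈ WL K ∧ ∃ S ∈ GS η D b, ∃ R, ∃ Q ∈ Flg κ C b0 L b', p = S ++ (R ++ Q) ∧ ∃ R', ∃ T ∈ GE η D b', Q = R' ++ T}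

/-- pieces with a flag at the start -/
def PFS (η κ : ℝ) (C D b0 L K b b' : ℕ) : Set (List Bool) :=
  {p | p ∈ WL K ∧ ∃ T ∈ GE η D b', ∃ R, ∃ Q ∈ Flg κ C b0 L b, p = Q ++ (R ++ T) ∧ ∃ S ∈ GS η D b, ∃ R', Q = S ++ R'}

/-- the suffix words behind a cut with the label b, f: flagged -/
def StB (η κ : ℝ) (C D b0 L b : ℕ) (f : Bool) : Set (List Bool) :=
  {u | ∃ S ∈ GS η D b, S <+: u.take (s1 L (ML L) u) ∧
    (f = true → ∃ Q ∈ Flg κ C b0 L b, S <+: Q ∧ Q <+: u.take (s1 L (ML L) u))}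

/-! ### literals of the rows E -/

/-- **E1**: one block. k : depth of the labels, the label of the cut is lbl u, the structures are local with D = 4 C -/
def StepG (κ : ℝ) (C : ℕ) : Prop := ∃ k0 b00 : ℕ, 1 ≤ k0 ∧ 1 ≤ b00 ∧ ∀ k b0 L : ℕ, k0 ≤ k → b00 ≤ b0 → b0 + k ≤ L →
  ∀ u : List Bool, u ∈ SA → 3 * ML L < u.length →
    uw κ (lbl κ C b0 k L u) ≤ ((nx κ C b0 k L u).card : ℝ) ∧ lbl κ C b0 k L u + k ≤ L ∧
    (lbl κ C b0 k L u = 0 ∨ b0 ≤ lbl κ C b0 k L u) ∧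
    ∀ j ∈ nx κ C b0 k L u, 1 ≤ j ∧ s2 L (ML L) u ≤ j ∧ j ≤ s3 L (ML L) u ∧ s3 L (ML L) u ≤ 3 * ML L ∧
      ∃ f' f'' : Bool, (f' = false ∧ f'' = false ∧ lbl κ C b0 k L u + k = L ∨ f' = !f'' ∧ lbl κ C b0 k L u + k < L) ∧
        u.drop j ∈ StB (κ / 4) κ C (4 * C) b0 L (lbl κ C b0 k L u) f'' ∧
        (∀ (b : ℕ) (f : Bool), u ∈ StB (κ / 4) κ C (4 * C) b0 L b f →
          u.take j ∈ PC (κ / 4) (4 * C) (L + 4) b (lbl κ C b0 k L u) ∧
          (f = true → u.take j ∈ PFS (κ / 4) κ C (4 * C) b0 L (L + 4) b (lbl κ C b0 k L u)) ∧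
          (f' = true → u.take j ∈ PFE (κ / 4) κ C (4 * C) b0 L (L + 4) b (lbl κ C b0 k L u)) ∧
          ∀ QQ, mid L (ML L) u ∈ QQ → u.take j ∈ PCQ (κ / 4) (4 * C) (L + 4) b (lbl κ C b0 k L u) QQ) ∧
        ∀ (K : ℕ) (A : List Bool), A ++ u ∈ WL K → A ++ u.take j ∈ PC (κ / 4) (4 * C) K 0 (lbl κ C b0 k L u) ∧
          (f' = true → A ++ u.take j ∈ PFE (κ / 4) κ C (4 * C) b0 L K 0 (lbl κ C b0 k L u))

/-- **E2**: two-ended masses -/
def PlainM : Prop := ∀ (η : ℝ) (D : ℕ), 0 < η → ∃ C0 : ℝ, 0 < C0 ∧ ∀ K b b' : ℕ, b ≤ K → b' ≤ K →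
  gf (PC η D K b b') * (xw b * xw b') ≤ ENNReal.ofReal C0 * FK K

/-- **E3**: two-ended masses with a rare middle part -/
def TwoE : Prop := ∀ (η : ℝ) (D : ℕ), 0 < η → ∃ C0 c : ℝ, 0 < C0 ∧ 0 < c ∧ ∀ (K : ℕ) (QQ : Set (List Bool)) (δ : ℝ),
  0 < δ → δ ≤ 1 → gf {t | t ∈ WL (K + 12) ∧ t ∈ Fac QQ} ≤ ENNReal.ofReal δ * FK K → ∀ b b' : ℕ, b ≤ K → b' ≤ K →
  gf (PCQ η D K b b' QQ) * (xw b * xw b') ≤ ENNReal.ofReal (C0 * δ ^ c) * FK K

/-- **E4**: two-ended masses with a flag at the end -/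
def FlagE (κ : ℝ) (C : ℕ) : Prop := ∀ (η : ℝ) (D q : ℕ), 0 < η → ∃ (B : ℝ) (b0 : ℕ), 1 ≤ B ∧ 1 ≤ b0 ∧
  ∀ b1, b0 ≤ b1 → ∃ A1 : ℝ, 1 ≤ A1 ∧ ∀ K L b b' : ℕ, L ≤ K → b1 ≤ L → b ≤ L → b' ≤ L → (b' = 0 ∨ b1 ≤ b') →
  gf (PFE η κ C D b1 L K b b') * (xw b * xw b') ≤ ENNReal.ofReal (A1 * B ^ (K - L) / (2 : ℝ) ^ (q * (L - b'))) * FK K

/-- **E4'**: two-ended masses with a flag at the start -/
def FlagS (κ : ℝ) (C : ℕ) : Prop := ∀ (η : ℝ) (D q : ℕ), 0 < η → ∃ (B : ℝ) (b0 : ℕ), 1 ≤ B ∧ 1 ≤ b0 ∧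
  ∀ b1, b0 ≤ b1 → ∃ A1 : ℝ, 1 ≤ A1 ∧ ∀ K L b b' : ℕ, L ≤ K → b1 ≤ L → b ≤ L → b' ≤ L → (b = 0 ∨ b1 ≤ b) →
  gf (PFS η κ C D b1 L K b b') * (xw b * xw b') ≤ ENNReal.ofReal (A1 * B ^ (K - L) / (2 : ℝ) ^ (q * (L - b))) * FK K

/-- **E6**, the engine: if the middles in QQ are rare, then off a small mass there is a chain of J blocks behind s with at
least J / 2 middles outside QQ; the parameters κ C b0 k of the chains are fixed -/
def ET (κ : ℝ) (C b0 k : ℕ) : Prop := ∃ (δ B : ℝ) (L0 : ℕ), 0 < δ ∧ 1 ≤ B ∧ ∀ (L : ℕ) (QQ : Set (List Bool)), L0 ≤ L →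
  gf {t | t ∈ WL (L + 16) ∧ t ∈ Fac QQ} ≤ ENNReal.ofReal δ * FK L → ∀ K J s : ℕ, L + 16 ≤ K →
  gf {t | t ∈ WL K ∧ s + 3 * ML L * (J + 1) < t.length ∧ ¬ ∃ g, J ≤ 2 * g ∧ Ch κ C b0 k L QQ J g (t.drop s)} ≤
    ENNReal.ofReal (B ^ (K - L) / 4 ^ J) * FK K

end NPR

end HexObs
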