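import Pool.Agent.NPR.Defs2
import Pool.Agent.EN.FactsZ
import Pool.Agent.EN.ExtM
import Pool.Agent.PW.BoxLen
import Pool.Agent.TPC.AN
import Pool.Agent.TPC.XUp
import Pool.Agent.TPC.XLow
import Pool.Agent.SDN.MainA
import Pool.Agent.NT.MassD

/-!
# NPR, row U1 (helper47): large displacements in a short time are rare

* `FK_rat` : the weights `FK` of two scales;
* `short_mass` : the mass of the words with at most `x` letters;
* `long_mass` : the mass of the words of a box with many letters;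
* `scale_modu` : the modulus of continuity, one scale of the number of letters;
* **`fastN : FastN`**.
-/

set_option autoImplicit false

namespace HexObs

namespace NPR

namespace Fast

open Finset TS SDN TIW NTA TIP NTW

open scoped ENNReal

/-! ### The weights of the scales -/

lemma FK_gK (K : ℕ) : FK K = ENNReal.ofReal (4 ^ K) * PW.BL.gK K := by
  unfold FK PW.BL.gK
  rw [← mul_assoc, ← ENNReal.ofReal_mul (by positivity)]
  congr 2
  field_simp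

theorem FK_up : ∃ C : ℝ, 0 < C ∧ ∀ K : ℕ, FK K ≤ ENNReal.ofReal (C * 2 ^ (43 / 24 * (K : ℝ))) := by
  obtain ⟨C, hC, h⟩ := PW.BL.gK_up TPC.xUp
  refine ⟨C, hC, fun K => ?_⟩
  rw [FK_gK]
  refine (mul_le_mul' le_rfl (h K)).trans (le_of_eq ?_)
  rw [← ENNReal.ofReal_mul (by positivity), PW.BL.four_pow]
  congr 1
  have e : (2 : ℝ) ^ (2 * (K : ℝ)) * 2 ^ (-(5 / 24) * (K : ℝ)) = 2 ^ (43 / 24 * (K : ℝ)) := by
    rw [← Real.rpow_add (by norm_num)]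
    congr 1
    ring
  linear_combination C * e

theorem FK_low : ∃ c : ℝ, 0 < c ∧ ∀ K : ℕ, ENNReal.ofReal (c * 2 ^ (43 / 24 * (K : ℝ))) ≤ FK K := by
  obtain ⟨c, hc, h⟩ := PW.BL.gK_low TPC.xLow
  refine ⟨c, hc, fun K => ?_⟩
  rw [FK_gK]
  refine (le_of_eq ?_).trans (mul_le_mul' le_rfl (h K))
  rw [← ENNReal.ofReal_mul (by positivity), PW.BL.four_pow]
  congr 1
  have e : (2 : ℝ) ^ (2 * (K : ℝ)) * 2 ^ (-(5 / 24) * (K : ℝ)) = 2 ^ (43 / 24 * (K : ℝ)) := by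
    rw [← Real.rpow_add (by norm_num)]
    congr 1
    ring
  linear_combination -c * e

/-- a bound by a power, in units of the weight of a scale -/
theorem le_FK : ∃ D : ℝ, 0 < D ∧ ∀ (x y : ℝ) (L : ℕ), 0 ≤ x →
    ENNReal.ofReal (x * 2 ^ (43 / 24 * y)) ≤ ENNReal.ofReal (D * x * 2 ^ (43 / 24 * (y - L))) * FK L := by
  obtain ⟨c, hc, h⟩ := FK_low
  refine ⟨1 / c, by positivity, fun x y L hx => ?_⟩
  refine (le_of_eq ?_).trans (mul_le_mul' le_rfl (h L))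
  rw [← ENNReal.ofReal_mul (by positivity)]
  congr 1
  have e : (2 : ℝ) ^ (43 / 24 * (y - L)) * 2 ^ (43 / 24 * (L : ℝ)) = 2 ^ (43 / 24 * y) := by
    rw [← Real.rpow_add (by norm_num)]
    congr 1
    ring
  rw [← e]
  field_simp

/-- the weights of two scales -/
theorem FK_rat : ∃ D : ℝ, 0 < D ∧ ∀ K L : ℕ, FK K ≤ ENNReal.ofReal (D * 2 ^ (43 / 24 * ((K : ℝ) - L))) * FK L := by
  obtain ⟨C, hC, h⟩ := FK_up
  obtain ⟨D, hD, h2⟩ := le_FK
  exact ⟨D * C, by positivity, fun K L => (h K).trans (h2 C K L hC.le)⟩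

/-! ### Short words -/

theorem gfN_up : ∃ C : ℝ, 0 < C ∧ ∀ n : ℕ, gf (SawN n) ≤ ENNReal.ofReal (C * (1 + (n : ℝ)) ^ (11 / 32 : ℝ)) := by
  obtain ⟨c, C, hc, hC, h⟩ := TPC.an_const TPC.xUp TPC.xLow
  have hx := xc_pos
  have hmu : muB = 1 / xc := le_antisymm muB_le le_muB
  have h0 : 0 ≤ (cS 0 : ℝ) := Nat.cast_nonneg _
  refine ⟨2 / 3 * C + cS 0, by positivity, fun n => ?_⟩
  rw [PHWDict.gf_SawN]
  refine ENNReal.ofReal_le_ofReal ?_
  rcases Nat.eq_zero_or_pos n with hn | hn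
  · rw [hn, pow_zero, mul_one, Nat.cast_zero, add_zero, Real.one_rpow, mul_one]
    linarith [(by positivity : (0 : ℝ) < 2 / 3 * C)]
  have h1 : (2 : ℝ) * aB n = 3 * cS n := by exact_mod_cast aB_eq hn
  have h2 : (cS n : ℝ) = 2 / 3 * aB n := by linarith
  have h3 : muB ^ n * xc ^ n = 1 := by
    rw [hmu, ← mul_pow, one_div, inv_mul_cancel₀ hx.ne', one_pow]
  have h4 : (cS n : ℝ) * xc ^ n ≤ 2 / 3 * C * (n : ℝ) ^ (11 / 32 : ℝ) := by
    rw [h2]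
    calc 2 / 3 * (aB n : ℝ) * xc ^ n ≤ 2 / 3 * (C * (muB ^ n * (n : ℝ) ^ ((11 : ℝ) / 32))) * xc ^ n := by
          have := (h n hn).2
          gcongr
      _ = 2 / 3 * C * (n : ℝ) ^ (11 / 32 : ℝ) * (muB ^ n * xc ^ n) := by ring
      _ = _ := by rw [h3, mul_one]
  have h5 : (n : ℝ) ^ (11 / 32 : ℝ) ≤ (1 + (n : ℝ)) ^ (11 / 32 : ℝ) :=
    Real.rpow_le_rpow (Nat.cast_nonneg _) (by linarith) (by norm_num)
  have h6 : (0 : ℝ) ≤ (n : ℝ) ^ (11 / 32 : ℝ) := by positivity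
  nlinarith [mul_le_mul_of_nonneg_left h5 (by positivity : (0 : ℝ) ≤ 2 / 3 * C), mul_nonneg h0 (h6.trans h5)]

/-- **the mass of the words with at most x letters** -/
theorem short_mass : ∃ C : ℝ, 0 < C ∧ ∀ x : ℝ, 1 ≤ x →
    gf {t | t ∈ SA ∧ (t.length : ℝ) ≤ x} ≤ ENNReal.ofReal (C * x ^ (43 / 32 : ℝ)) := by
  obtain ⟨C, hC, h⟩ := gfN_up
  refine ⟨4 * C, by positivity, fun x hx => ?_⟩
  have hx0 : 0 < x := by linarith
  rw [NTF.gf_lengths, tsum_eq_sum (s := range (⌊x⌋₊ + 1))]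
  · have h1 : ∀ n ∈ range (⌊x⌋₊ + 1), gf {t | t ∈ {t | t ∈ SA ∧ (t.length : ℝ) ≤ x} ∧ t.length = n} ≤
        ENNReal.ofReal (C * (2 * x) ^ (11 / 32 : ℝ)) := by
      intro n hn
      rw [mem_range] at hn
      have h2 : (n : ℝ) ≤ x := (Nat.cast_le.2 (by omega : n ≤ ⌊x⌋₊)).trans (Nat.floor_le hx0.le)
      refine (gf_mono (fun t ht => (⟨ht.2, ht.1.1⟩ : t ∈ SawN n))).trans ((h n).trans (ENNReal.ofReal_le_ofReal ?_))
      have h3 : (1 + (n : ℝ)) ^ (11 / 32 : ℝ) ≤ (2 * x) ^ (11 / 32 : ℝ) :=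
        Real.rpow_le_rpow (by positivity) (by linarith) (by norm_num)
      gcongr
    refine (sum_le_sum h1).trans ?_
    rw [sum_const, card_range, nsmul_eq_mul, ← ENNReal.ofReal_natCast, ← ENNReal.ofReal_mul (Nat.cast_nonneg _)]
    refine ENNReal.ofReal_le_ofReal ?_
    have h2 : ((⌊x⌋₊ + 1 : ℕ) : ℝ) ≤ 2 * x := by
      push_cast
      have := Nat.floor_le hx0.le
      linarith
    have h3 : (2 * x) ^ (11 / 32 : ℝ) ≤ 2 * x ^ (11 / 32 : ℝ) := by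
      rw [Real.mul_rpow (by norm_num) hx0.le]
      have : (2 : ℝ) ^ (11 / 32 : ℝ) ≤ 2 ^ (1 : ℝ) := Real.rpow_le_rpow_of_exponent_le (by norm_num) (by norm_num)
      rw [Real.rpow_one] at this
      gcongr
    have h4 : x ^ (43 / 32 : ℝ) = x * x ^ (11 / 32 : ℝ) := by
      rw [show (43 / 32 : ℝ) = 1 + 11 / 32 by norm_num, Real.rpow_add hx0, Real.rpow_one]
    calc ((⌊x⌋₊ + 1 : ℕ) : ℝ) * (C * (2 * x) ^ (11 / 32 : ℝ)) ≤ (2 * x) * (C * (2 * x ^ (11 / 32 : ℝ))) := by gcongr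
      _ = 4 * C * x ^ (43 / 32 : ℝ) := by
          rw [h4]
          ring
  · intro n hn
    rw [mem_range, not_lt] at hn
    have h1 : {t | t ∈ {t | t ∈ SA ∧ (t.length : ℝ) ≤ x} ∧ t.length = n} = ∅ := by
      rw [Set.eq_empty_iff_forall_notMem]
      rintro t ⟨⟨_, h2⟩, h3⟩
      rw [h3] at h2
      have := Nat.le_floor h2
      omega
    rw [h1, NTF.gf_emp]

/-- the words much shorter than the scale -/
theorem short_scale : ∀ ε : ℝ, 0 < ε → ∃ a : ℕ, ∀ L : ℕ, a ≤ L →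
    gf {t | t ∈ SA ∧ (t.length : ℝ) ≤ PW.mZ (2 ^ (L - a))} ≤ ENNReal.ofReal ε * FK L := by
  intro ε hε
  obtain ⟨C, hC, h⟩ := short_mass
  obtain ⟨M, hM, hmu⟩ := VF.mUp VF.sharpZ
  obtain ⟨D, hD, hF⟩ := le_FK
  obtain ⟨B, hB⟩ : ∃ B : ℝ, B = C * (1 + M) ^ (43 / 32 : ℝ) := ⟨_, rfl⟩
  have hB0 : 0 < B := by rw [hB]; positivity
  obtain ⟨a, ha⟩ := exists_pow_lt_of_lt_one (show 0 < ε / (D * B) by positivity) (show (1 / 2 : ℝ) < 1 by norm_num)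
  refine ⟨a, fun L hL => ?_⟩
  have hp : (0 : ℝ) < 2 ^ (4 / 3 * ((L - a : ℕ) : ℝ)) := by positivity
  have hp1 : (1 : ℝ) ≤ 2 ^ (4 / 3 * ((L - a : ℕ) : ℝ)) := Real.one_le_rpow (by norm_num) (by positivity)
  obtain ⟨x, hx⟩ : ∃ x : ℝ, x = (1 + M) * 2 ^ (4 / 3 * ((L - a : ℕ) : ℝ)) := ⟨_, rfl⟩
  have hx1 : 1 ≤ x := by
    rw [hx]
    nlinarith
  have h1 : PW.mZ (2 ^ (L - a)) ≤ x := by
    rw [hx]
    refine (hmu (L - a)).trans ?_
    nlinarith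
  refine (gf_mono (fun t ht => ⟨ht.1, ht.2.trans h1⟩ : _ ⊆ {t | t ∈ SA ∧ (t.length : ℝ) ≤ x})).trans ((h x hx1).trans ?_)
  have h2 : C * x ^ (43 / 32 : ℝ) = B * 2 ^ (43 / 24 * ((L - a : ℕ) : ℝ)) := by
    rw [hx, hB, Real.mul_rpow (by positivity) hp.le, ← Real.rpow_mul (by norm_num)]
    rw [show 4 / 3 * ((L - a : ℕ) : ℝ) * (43 / 32) = 43 / 24 * ((L - a : ℕ) : ℝ) by ring]
    ring
  rw [h2]
  refine (hF B _ L hB0.le).trans (mul_le_mul' (ENNReal.ofReal_le_ofReal ?_) le_rfl)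
  have h3 : (2 : ℝ) ^ (43 / 24 * (((L - a : ℕ) : ℝ) - L)) ≤ (1 / 2) ^ a := by
    have e : (((L - a : ℕ) : ℝ) - L) = -(a : ℝ) := by
      rw [Nat.cast_sub hL]
      ring
    rw [e, one_div, inv_pow, ← Real.rpow_natCast, ← Real.rpow_neg (by norm_num)]
    refine Real.rpow_le_rpow_of_exponent_le (by norm_num) ?_
    have : (0 : ℝ) ≤ a := Nat.cast_nonneg _
    linarith
  rw [lt_div_iff₀ (by positivity)] at ha
  calc D * B * 2 ^ (43 / 24 * (((L - a : ℕ) : ℝ) - L)) ≤ D * B * (1 / 2) ^ a := by gcongr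
    _ ≤ ε := by linarith

/-! ### Long words -/

/-- the words of the box much longer than the scale -/
theorem long_mass (i : ℕ) : ∀ ε : ℝ, 0 < ε → ∃ a : ℕ, ∀ L : ℕ,
    gf {t | t ∈ WL (L + i) ∧ PW.mZ (2 ^ (L + a)) ≤ (t.length : ℝ)} ≤ ENNReal.ofReal ε * FK L := by
  intro ε hε
  obtain ⟨C, _, h⟩ := NTA.ti_M
  obtain ⟨A, hA, h⟩ := h 1
  obtain ⟨D, hD, hF⟩ := FK_rat
  obtain ⟨B, hB⟩ : ∃ B : ℝ, B = A * (D * 2 ^ (43 / 24 * (i : ℝ))) := ⟨_, rfl⟩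
  have hA0 : 0 < A := by linarith
  have hB0 : 0 < B := by rw [hB]; positivity
  obtain ⟨j, hj⟩ := exists_pow_lt_of_lt_one (show 0 < ε / B by positivity) (show (1 / 2 : ℝ) < 1 by norm_num)
  refine ⟨i + j, fun L => ?_⟩
  have h1 := mlow_M.low (L + i) j
  have h2 : (2 : ℝ) ^ j * PW.mZ (2 ^ (L + i)) ≤ PW.mZ (2 ^ (L + (i + j))) := by
    rw [← add_assoc]
    refine le_trans ?_ h1
    have h3 : (2 : ℝ) ^ j ≤ 2 ^ (5 / 4 * (j : ℝ)) := by
      rw [← Real.rpow_natCast]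
      refine Real.rpow_le_rpow_of_exponent_le (by norm_num) ?_
      have : (0 : ℝ) ≤ j := Nat.cast_nonneg _
      linarith
    exact mul_le_mul_of_nonneg_right h3 (mlow_M.pos (L + i)).le
  have h3 := h (L + i) (L + i) (2 ^ j) le_rfl (one_le_pow₀ (by norm_num))
  refine (gf_mono fun t ht => ?_).trans (h3.trans ?_)
  · refine ⟨ht.1, 0, t.length, bx_all ht.1, ?_⟩
    rw [Nat.cast_zero, sub_zero]
    exact h2.trans ht.2
  · have h4 := hF (L + i) L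
    refine (mul_le_mul' le_rfl h4).trans ?_
    rw [← mul_assoc, ← ENNReal.ofReal_mul (by positivity), Nat.sub_self, pow_zero, pow_one, mul_one]
    refine mul_le_mul' (ENNReal.ofReal_le_ofReal ?_) le_rfl
    rw [lt_div_iff₀ hB0, one_div, inv_pow] at hj
    have e : ((L + i : ℕ) : ℝ) - L = i := by
      push_cast
      ring
    rw [e]
    calc A / 2 ^ j * (D * 2 ^ (43 / 24 * (i : ℝ))) = (2 ^ j)⁻¹ * B := by
          rw [hB]
          ring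
      _ ≤ ε := hj.le

/-! ### The modulus -/

/-- a displacement of at least x in at most y letters -/
def Bd (x y : ℝ) : Set (List Bool) := {t | ∃ (dir : Bool) (i j : ℕ), i ≤ j ∧ j ≤ t.length ∧ (j : ℝ) - i ≤ y ∧
  x ≤ |((lvl dir (vx oo up t j) - lvl dir (vx oo up t i) : ℤ) : ℝ)|}

/-- **the modulus, one scale of the number of letters** -/
theorem scale_modu : ∃ C : ℝ, 0 < C ∧ ∀ r e : ℝ, 0 < r → 0 < e → ∃ (ρ : ℝ) (k0 : ℕ), 0 < ρ ∧ ∀ k, k0 ≤ k →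
    gf {t | t ∈ SA ∧ PW.mZ (2 ^ k) ≤ (t.length : ℝ) ∧ (t.length : ℝ) < PW.mZ (2 ^ (k + 1)) ∧
      t ∈ Bd (r * 2 ^ k) (ρ * PW.mZ (2 ^ k))} ≤ ENNReal.ofReal (C * e) * FK k := by
  obtain ⟨Cu, hCu, hup⟩ := mup_M
  have hCu0 : 0 < Cu := by linarith
  have hm0 : 0 < PW.mZ (2 ^ 0) := mlow_M.pos 0
  refine ⟨Cu + 1 / PW.mZ (2 ^ 0), by positivity, fun r e hr he => ?_⟩
  obtain ⟨ρ, k0, hρ, h⟩ := EN.factsX_M.modu r e hr he
  refine ⟨ρ, k0, hρ, fun k hk => ?_⟩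
  have hmk : 0 < PW.mZ (2 ^ k) := mlow_M.pos k
  have hm0k : PW.mZ (2 ^ 0) ≤ PW.mZ (2 ^ k) := by
    have h1 := mlow_M.low 0 k
    rw [zero_add] at h1
    refine le_trans ?_ h1
    have h2 : (1 : ℝ) ≤ 2 ^ (5 / 4 * (k : ℝ)) := Real.one_le_rpow (by norm_num) (by positivity)
    calc PW.mZ (2 ^ 0) = 1 * PW.mZ (2 ^ 0) := (one_mul _).symm
      _ ≤ _ := mul_le_mul_of_nonneg_right h2 hm0.le
  rw [NTF.gf_lengths, tsum_eq_sum (s := range ⌈PW.mZ (2 ^ (k + 1))⌉₊)]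
  · have h1 : ∀ n ∈ range ⌈PW.mZ (2 ^ (k + 1))⌉₊, gf {t | t ∈ {t | t ∈ SA ∧ PW.mZ (2 ^ k) ≤ (t.length : ℝ) ∧
        (t.length : ℝ) < PW.mZ (2 ^ (k + 1)) ∧ t ∈ Bd (r * 2 ^ k) (ρ * PW.mZ (2 ^ k))} ∧ t.length = n} ≤
        ENNReal.ofReal e * nuX (fun k => PW.mZ (2 ^ k)) k := by
      intro n hn
      by_cases h2 : PW.mZ (2 ^ k) ≤ (n : ℝ) ∧ (n : ℝ) < PW.mZ (2 ^ (k + 1))
      · refine (gf_mono ?_).trans (h k n hk h2.1 h2.2)
        rintro t ⟨⟨h3, h4, h5, dir, i, j, h6, h7, h8, h9⟩, h10⟩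
        exact ⟨⟨h10, h3⟩, dir, i, j, h6, by omega, h8, h9⟩
      · have h3 : {t | t ∈ {t | t ∈ SA ∧ PW.mZ (2 ^ k) ≤ (t.length : ℝ) ∧
            (t.length : ℝ) < PW.mZ (2 ^ (k + 1)) ∧ t ∈ Bd (r * 2 ^ k) (ρ * PW.mZ (2 ^ k))} ∧ t.length = n} = ∅ := by
          rw [Set.eq_empty_iff_forall_notMem]
          rintro t ⟨⟨_, h4, h5, _⟩, h6⟩
          rw [h6] at h4 h5
          exact h2 ⟨h4, h5⟩
        rw [h3, NTF.gf_emp]
        exact zero_le
    refine (sum_le_sum h1).trans ?_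
    rw [sum_const, card_range, nsmul_eq_mul]
    unfold nuX FK
    rw [← mul_assoc, ← mul_assoc, ← mul_assoc, ← ENNReal.ofReal_natCast, ← ENNReal.ofReal_mul (Nat.cast_nonneg _),
      ← ENNReal.ofReal_mul (by positivity), ← ENNReal.ofReal_mul (by positivity)]
    refine mul_le_mul' (ENNReal.ofReal_le_ofReal ?_) le_rfl
    have hU : 0 < Ub k := Num2Aux.UU_pos _
    have h2 : ((⌈PW.mZ (2 ^ (k + 1))⌉₊ : ℕ) : ℝ) ≤ (Cu + 1 / PW.mZ (2 ^ 0)) * PW.mZ (2 ^ k) := by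
      have h3 := Nat.ceil_lt_add_one (mlow_M.pos (k + 1)).le
      have h4 := hup k
      have h5 : 1 ≤ 1 / PW.mZ (2 ^ 0) * PW.mZ (2 ^ k) := by
        rw [one_div, ← div_eq_inv_mul, one_le_div hm0]
        exact hm0k
      have h6 : ((⌈PW.mZ (2 ^ (k + 1))⌉₊ : ℕ) : ℝ) < PW.mZ (2 ^ (k + 1)) + 1 := h3
      have h7 : PW.mZ (2 ^ (k + 1)) ≤ Cu * PW.mZ (2 ^ k) := h4
      nlinarith
    calc ((⌈PW.mZ (2 ^ (k + 1))⌉₊ : ℕ) : ℝ) * e * (Ub k / PW.mZ (2 ^ k)) ≤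
        (Cu + 1 / PW.mZ (2 ^ 0)) * PW.mZ (2 ^ k) * e * (Ub k / PW.mZ (2 ^ k)) := by gcongr
      _ = (Cu + 1 / PW.mZ (2 ^ 0)) * e * Ub k := by field_simp
  · intro n hn
    rw [mem_range, not_lt] at hn
    have h1 : {t | t ∈ {t | t ∈ SA ∧ PW.mZ (2 ^ k) ≤ (t.length : ℝ) ∧
        (t.length : ℝ) < PW.mZ (2 ^ (k + 1)) ∧ t ∈ Bd (r * 2 ^ k) (ρ * PW.mZ (2 ^ k))} ∧ t.length = n} = ∅ := by
      rw [Set.eq_empty_iff_forall_notMem]
      rintro t ⟨⟨_, _, h5, _⟩, h6⟩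
      rw [h6] at h5
      have h7 : PW.mZ (2 ^ (k + 1)) ≤ (n : ℝ) := (Nat.le_ceil _).trans (by exact_mod_cast hn)
      linarith
    rw [h1, NTF.gf_emp]

/-- the norm against the levels -/
lemma hn_lvl {v : Pt} {x : ℤ} (h : x ≤ hn v) : ∃ dir : Bool, x ≤ 2 * |lvl dir v| := by
  obtain ⟨a, b⟩ := v
  by_contra hcon
  push Not at hcon
  have h1 := hcon false
  have h2 := hcon true
  simp only [lvl, hd, ip, up, Bool.false_eq_true, if_false, if_true] at h1 h2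
  simp only [hn, ip, up, rotL, rotR] at h
  have h3 := abs_lt.1 (show |2 * (2 * (a * 0 + b * 1) + a * 1 + b * 0)| < x by rw [abs_mul]; exact h1)
  have h4 := abs_lt.1 (show |2 * (2 * (a * -1 + b * 0) + a * 0 + b * -1)| < x by rw [abs_mul]; exact h2)
  rcases le_max_iff.1 h with h5 | h5
  · rcases le_abs.1 h5 with h6 | h6 <;> omega
  · rcases le_max_iff.1 h5 with h6 | h6 <;> rcases le_abs.1 h6 with h7 | h7 <;> omega

lemma m_mono (k j : ℕ) : PW.mZ (2 ^ k) ≤ PW.mZ (2 ^ (k + j)) := by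
  have h1 := mlow_M.low k j
  have h2 : (1 : ℝ) ≤ 2 ^ (5 / 4 * (j : ℝ)) := Real.one_le_rpow (by norm_num) (by positivity)
  calc PW.mZ (2 ^ k) = 1 * PW.mZ (2 ^ k) := (one_mul _).symm
    _ ≤ 2 ^ (5 / 4 * (j : ℝ)) * PW.mZ (2 ^ k) := mul_le_mul_of_nonneg_right h2 (mlow_M.pos k).le
    _ ≤ _ := h1

lemma m_iter {C : ℝ} (hC : 1 ≤ C) (h : ∀ k, PW.mZ (2 ^ (k + 1)) ≤ C * PW.mZ (2 ^ k)) (k a : ℕ) :
    PW.mZ (2 ^ (k + a)) ≤ C ^ a * PW.mZ (2 ^ k) := by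
  induction a with
  | zero => rw [add_zero, pow_zero, one_mul]
  | succ a ih =>
    rw [← add_assoc]
    refine (h (k + a)).trans ?_
    rw [pow_succ, mul_comm (C ^ a) C, mul_assoc]
    exact mul_le_mul_of_nonneg_left ih (by linarith)

/-- the displacement of a factor -/
lemma fac_disp (X Q Y : List Bool) : hn (vx oo up (X ++ (Q ++ Y)) (X.length + Q.length) -
    vx oo up (X ++ (Q ++ Y)) X.length) = hn (vx oo up Q Q.length) := by
  rw [vx_app, vx_append (le_refl Q.length |>.trans (Nat.le_succ _)), vx_append (Nat.le_succ _)]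
  have e : en X + mulE (rt X) (vx oo up Q Q.length) - vx oo up X X.length = mulE (rt X) (vx oo up Q Q.length) := by
    unfold TIW.en
    abel
  rw [e, hn_mulE (nrm_rt X)]

end Fast

open Finset TS SDN TIW NTA TIP NTW Fast

open scoped ENNReal

/-- **row U1**: a large displacement in a short time is rare -/
theorem fastN : FastN := by
  intro δ hδ
  obtain ⟨a0, hlong⟩ := long_mass 16 (δ / 3) (by positivity)
  obtain ⟨a1, hshort⟩ := short_scale (δ / 3) (by positivity)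
  obtain ⟨C, hC, hmod⟩ := scale_modu
  obtain ⟨D, hD, hF⟩ := FK_rat
  obtain ⟨N, hN⟩ : ∃ N : ℕ, N = a0 + a1 + 1 := ⟨_, rfl⟩
  have hN0 : (0 : ℝ) < N := by
    rw [hN]
    positivity
  obtain ⟨E, hE⟩ : ∃ E : ℝ, E = C * (D * 2 ^ (43 / 24 * (a0 : ℝ))) := ⟨_, rfl⟩
  have hE0 : 0 < E := by rw [hE]; positivity
  obtain ⟨e, he⟩ : ∃ e : ℝ, e = δ / 3 / (N * E) := ⟨_, rfl⟩
  have he0 : 0 < e := by rw [he]; positivity
  obtain ⟨ρ, k0, hρ, hmod⟩ := hmod ((1 / 2) ^ (a0 + 2)) e (by positivity) he0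
  obtain ⟨Cu, hCu, hup⟩ := mup_M
  have hup' : ∀ k, PW.mZ (2 ^ (k + 1)) ≤ Cu * PW.mZ (2 ^ k) := hup
  have hCu0 : 0 < Cu := by linarith
  refine ⟨max 1 (Cu ^ a1 / ρ), k0 + a1, le_max_left _ _, fun L hL => ?_⟩
  have hlam0 : 0 < max 1 (Cu ^ a1 / ρ) := lt_of_lt_of_le one_pos (le_max_left _ _)
  obtain ⟨S, hS⟩ : ∃ S : ℕ → Set (List Bool), S = fun i => {t | t ∈ SA ∧ PW.mZ (2 ^ (L - a1 + i)) ≤ (t.length : ℝ) ∧
      (t.length : ℝ) < PW.mZ (2 ^ (L - a1 + i + 1)) ∧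
      t ∈ Bd ((1 / 2) ^ (a0 + 2) * 2 ^ (L - a1 + i)) (ρ * PW.mZ (2 ^ (L - a1 + i)))} := ⟨_, rfl⟩
  have hsplit : {t | t ∈ WL (L + 16) ∧ t ∈ Fac {Q | (Q.length : ℝ) ≤ PW.mZ (2 ^ L) / max 1 (Cu ^ a1 / ρ) ∧
      2 ^ L ≤ hn (vx oo up Q Q.length)}} ⊆ {t | t ∈ WL (L + 16) ∧ PW.mZ (2 ^ (L + a0)) ≤ (t.length : ℝ)} ∪
      ({t | t ∈ SA ∧ (t.length : ℝ) ≤ PW.mZ (2 ^ (L - a1))} ∪ ⋃ i ∈ range N, S i) := by
    rintro t ⟨h1, X, Q, Y, h2, h3, h4⟩
    rcases le_or_gt (PW.mZ (2 ^ (L + a0))) (t.length : ℝ) with h5 | h5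
    · exact Or.inl ⟨h1, h5⟩
    right
    rcases le_or_gt (t.length : ℝ) (PW.mZ (2 ^ (L - a1))) with h6 | h6
    · exact Or.inl ⟨h1.1, h6⟩
    right
    -- the scale of the number of letters
    have hex : ∃ j, (t.length : ℝ) < PW.mZ (2 ^ (L - a1 + j)) := ⟨a0 + a1, by
      rw [show L - a1 + (a0 + a1) = L + a0 by omega]
      exact h5⟩
    obtain ⟨j, hj1, hj2⟩ : ∃ j, (t.length : ℝ) < PW.mZ (2 ^ (L - a1 + j)) ∧
        ∀ i, i < j → ¬ (t.length : ℝ) < PW.mZ (2 ^ (L - a1 + i)) := by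
      classical
      exact ⟨Nat.find hex, Nat.find_spec hex, fun i hi => Nat.find_min hex hi⟩
    have hj3 : j ≤ a0 + a1 := by
      by_contra hcon
      refine hj2 (a0 + a1) (by omega) ?_
      rw [show L - a1 + (a0 + a1) = L + a0 by omega]
      exact h5
    obtain ⟨i, rfl⟩ : ∃ i, j = i + 1 := by
      rcases j with _ | i
      · rw [add_zero] at hj1
        linarith
      · exact ⟨i, rfl⟩
    have hi := hj2 i (by omega)
    rw [not_lt] at hi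
    rw [Set.mem_iUnion₂]
    refine ⟨i, mem_range.2 (by omega), ?_⟩
    rw [hS]
    refine ⟨h1.1, hi, hj1, ?_⟩
    have h7 : (2 : ℤ) ^ L ≤ hn (vx oo up t (X.length + Q.length) - vx oo up t X.length) := by
      rw [h2, fac_disp]
      exact h4
    obtain ⟨dir, h8⟩ := hn_lvl h7
    refine ⟨dir, X.length, X.length + Q.length, by omega, ?_, ?_, ?_⟩
    · rw [h2]
      simp only [List.length_append]
      omega
    · push_cast
      rw [add_sub_cancel_left]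
      refine h3.trans ?_
      rw [div_le_iff₀ hlam0]
      have h9 : PW.mZ (2 ^ L) ≤ Cu ^ a1 * PW.mZ (2 ^ (L - a1)) := by
        have := m_iter hCu hup' (L - a1) a1
        rwa [show L - a1 + a1 = L by omega] at this
      have h10 := m_mono (L - a1) i
      have h11 : Cu ^ a1 / ρ ≤ max 1 (Cu ^ a1 / ρ) := le_max_right _ _
      calc PW.mZ (2 ^ L) ≤ Cu ^ a1 * PW.mZ (2 ^ (L - a1)) := h9
        _ ≤ Cu ^ a1 * PW.mZ (2 ^ (L - a1 + i)) := mul_le_mul_of_nonneg_left h10 (by positivity)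
        _ = ρ * PW.mZ (2 ^ (L - a1 + i)) * (Cu ^ a1 / ρ) := by field_simp
        _ ≤ ρ * PW.mZ (2 ^ (L - a1 + i)) * max 1 (Cu ^ a1 / ρ) :=
            mul_le_mul_of_nonneg_left h11 (mul_pos hρ (mlow_M.pos _)).le
    · have e : lvl dir (vx oo up t (X.length + Q.length)) - lvl dir (vx oo up t X.length) =
          lvl dir (vx oo up t (X.length + Q.length) - vx oo up t X.length) := (NTF.lvl_sub dir _ _).symm
      rw [e]
      have h9 : (2 : ℝ) ^ L ≤ 2 * |((lvl dir (vx oo up t (X.length + Q.length) - vx oo up t X.length) : ℤ) : ℝ)| := by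
        rw [← Int.cast_abs]
        exact_mod_cast h8
      have h10 : ((1 / 2 : ℝ)) ^ (a0 + 2) * 2 ^ (L - a1 + i) ≤ 2 ^ L / 2 := by
        have h11 : (2 : ℝ) ^ (L - a1 + i) ≤ 2 ^ (L + a0) := pow_le_pow_right₀ (by norm_num) (by omega)
        calc ((1 / 2 : ℝ)) ^ (a0 + 2) * 2 ^ (L - a1 + i) ≤ (1 / 2) ^ (a0 + 2) * 2 ^ (L + a0) := by gcongr
          _ = 2 ^ L / 4 := by
              rw [pow_add, pow_add, one_div, inv_pow, inv_pow]
              field_simp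
              norm_num
          _ ≤ _ := by
              have : (0 : ℝ) < 2 ^ L := by positivity
              linarith
      linarith
  refine (gf_mono hsplit).trans ((gf_union_le _ _).trans ?_)
  have h3 : gf (⋃ i ∈ range N, S i) ≤ ENNReal.ofReal (δ / 3) * FK L := by
    refine (SDN.MainA.gf_bU _ _).trans ?_
    have h4 : ∀ i ∈ range N, gf (S i) ≤ ENNReal.ofReal (E * e) * FK L := by
      intro i hi
      rw [mem_range] at hi
      have h5 := hmod (L - a1 + i) (by omega)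
      have h6 := hF (L - a1 + i) L
      rw [hS]
      refine h5.trans ((mul_le_mul' le_rfl h6).trans ?_)
      rw [← mul_assoc, ← ENNReal.ofReal_mul (by positivity)]
      refine mul_le_mul' (ENNReal.ofReal_le_ofReal ?_) le_rfl
      have h7 : (((L - a1 + i : ℕ) : ℝ) - L) ≤ a0 := by
        have h8 : ((L - a1 + i : ℕ) : ℝ) ≤ ((L + a0 : ℕ) : ℝ) := by exact_mod_cast (by omega : L - a1 + i ≤ L + a0)
        push_cast at h8 ⊢
        linarith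
      have h8 : (2 : ℝ) ^ (43 / 24 * (((L - a1 + i : ℕ) : ℝ) - L)) ≤ 2 ^ (43 / 24 * (a0 : ℝ)) :=
        Real.rpow_le_rpow_of_exponent_le (by norm_num) (by linarith)
      calc C * e * (D * 2 ^ (43 / 24 * (((L - a1 + i : ℕ) : ℝ) - L))) ≤ C * e * (D * 2 ^ (43 / 24 * (a0 : ℝ))) := by
            gcongr
        _ = E * e := by
            rw [hE]
            ring
    refine (sum_le_sum h4).trans ?_
    rw [sum_const, card_range, nsmul_eq_mul, ← mul_assoc, ← ENNReal.ofReal_natCast, ← ENNReal.ofReal_mul (Nat.cast_nonneg _)]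
    refine mul_le_mul' (ENNReal.ofReal_le_ofReal (le_of_eq ?_)) le_rfl
    rw [he]
    field_simp
  calc gf {t | t ∈ WL (L + 16) ∧ PW.mZ (2 ^ (L + a0)) ≤ (t.length : ℝ)} +
        gf ({t | t ∈ SA ∧ (t.length : ℝ) ≤ PW.mZ (2 ^ (L - a1))} ∪ ⋃ i ∈ range N, S i)
      ≤ ENNReal.ofReal (δ / 3) * FK L + (ENNReal.ofReal (δ / 3) * FK L + ENNReal.ofReal (δ / 3) * FK L) :=
        add_le_add (hlong L) ((gf_union_le _ _).trans (add_le_add (hshort L (by omega)) h3))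
    _ = ENNReal.ofReal δ * FK L := by
        rw [← add_mul, ← add_mul, ← ENNReal.ofReal_add (by positivity) (by positivity),
          ← ENNReal.ofReal_add (by positivity) (by positivity)]
        congr 2
        ring

end NPR

end HexObs
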