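import Pool.Agent.NPR.Defs
import Pool.Agent.TIP.ClsB
import Pool.Agent.TIP.RevM
import Pool.Agent.TIP.TipXJ
import Pool.Agent.TIP.Ne
import Pool.Agent.TIW.Hpm

/-!
# NPR, row E2 (helper69): two-ended masses

* **`end_SV`** : the tip lemma at the end for the words of a box that start in ANY class `VV`; behind this start some vertex
  lies at least `2 ^ (b + 1)` rows below the tip; `end_mem` : pieces that end with a good end;
* `DW D` : self-avoiding words of diameter at most `D` (in the hexagonal norm), stable under reversal; `gf_rev1`, `gf_rev2` :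
  reversal of classes without the first letter; with another last letter;
* **`start_plain`**, **`start_GS`** : the mass of the words with a good start; **`plainM`** : `PlainM`.
-/

set_option autoImplicit false

namespace HexObs

namespace NPR

open Finset TS SDN NTW NTA HexObs.SIM TIP TIW

open scoped ENNReal

/-! ### 1. The end -/

/-- words of the box K that start in VV; behind this start some vertex lies at least 2 ^ (be + 1) rows below the tip -/
def SV (VV : Set (List Bool)) (K be : ℕ) : Set (List Bool) :=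
  {w | w ∈ WL K ∧ ∃ (V R : List Bool) (i : ℕ), w = V ++ R ∧ V ∈ VV ∧ V.length ≤ i ∧ i ≤ w.length ∧
    lv (TIP.fr w (vx oo up w i)) ≤ -(3 * 2 ^ (be + 1))}

lemma pre_eq {A Z V R : List Bool} (h : A ++ Z = V ++ R) (hl : V.length ≤ A.length) :
    ∃ W, A = V ++ W ∧ R = W ++ Z := by
  rcases List.append_eq_append_iff.1 h with ⟨W, h4, h5⟩ | ⟨W, h4, h5⟩
  · have h6 : W = [] := by
      rw [← List.length_eq_zero_iff]
      have := congrArg List.length h4
      rw [List.length_append] at this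
      omega
    subst h6
    exact ⟨[], by rw [List.append_nil] at h4; rw [List.append_nil, h4], by rw [List.nil_append] at h5 ⊢; exact h5.symm⟩
  · exact ⟨W, h4, h5⟩

/-- **removal of a low bridge** -/
lemma SV_pre {VV : Set (List Bool)} {K b : ℕ} {A Z : List Bool} (h : A ++ Z ∈ SV VV K (b + 1)) (hZ : Z ∈ BU)
    (hh : hgt Z ≤ 2 ^ (b + 1)) : A ∈ SV VV K b := by
  obtain ⟨⟨hsa, hbox⟩, V, R, i, he, hV, hVi, hi, hlv⟩ := h
  have hhz : (hgt Z : ℤ) ≤ 2 ^ (b + 1) := by exact_mod_cast hh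
  have h0 : (0 : ℤ) ≤ hgt Z := by positivity
  have hpow : (2 : ℤ) ^ (b + 1 + 1) = 2 * 2 ^ (b + 1) := by rw [pow_succ]; ring
  have hp1 : (1 : ℤ) ≤ 2 ^ (b + 1) := one_le_pow₀ (by norm_num)
  have gZ := mem_Brd.1 (TIP.BU_hgt hZ)
  have hiA : i ≤ A.length := by
    by_contra hcon
    obtain ⟨j, rfl⟩ : ∃ j, i = A.length + j := ⟨i - A.length, by omega⟩
    rw [List.length_append] at hi
    rw [lv_fr_app A Z hZ, fr_front, lv_vx, hpow] at hlv
    have h1 := gZ.1 j (by omega) (by omega)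
    omega
  obtain ⟨W, hA, -⟩ := pre_eq he (hVi.trans hiA)
  refine ⟨⟨?_, fun i hi dir => ?_⟩, V, W, i, hA, hV, hVi, hiA, ?_⟩
  · have := SA_take hsa A.length
    rwa [List.take_left'] at this
    rfl
  · have := hbox i (by rw [List.length_append]; omega) dir
    rwa [vx_append (by omega)] at this
  · rw [lv_fr_app A Z hZ, vx_append (by omega), hpow] at hlv
    omega

lemma ens_SV {VV : Set (List Bool)} {K : ℕ} {M : ℝ≥0∞} (hM : gf {w | w ∈ WL (K + 3) ∧ ∃ V ∈ VV, ∃ R, w = V ++ R} ≤ M) :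
    EnsF (SV VV K) M K := by
  refine ⟨fun b w hw => hw.1.1, fun b A Z _ h1 h2 h3 => SV_pre h1 h2 h3, fun b _ => ?_, fun b R _ hR => ?_⟩
  · refine (gf_mono ?_).trans hM
    rintro w ⟨h1, V, R, i, he, hV, -⟩
    exact ⟨⟨h1.1, fun i hi dir => (h1.2 i hi dir).trans (pow_le_pow_right₀ (by norm_num) (by omega))⟩, V, hV, R, he⟩
  · refine (gf_mono ?_).trans hM
    rintro t ⟨ht, L, ⟨h1, V, R', i, he', hV, -⟩, e, he, rfl⟩
    exact ⟨EnsW.glue_WL hR h1 he ht, V, hV, R' ++ e, by rw [he', List.append_assoc]⟩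

/-- **the tip lemma at the end, any class of starts** -/
theorem end_SV {η : ℝ} (hη : 0 < η) : ∃ C : ℝ, 0 < C ∧ ∀ (VV : Set (List Bool)) (K b' : ℕ) (M : ℝ≥0∞), b' ≤ K →
    gf {w | w ∈ WL (K + 3) ∧ ∃ V ∈ VV, ∃ R, w = V ++ R} ≤ M →
    gf (SV VV K b' ∩ GT b' η) * Xb b' ≤ ENNReal.ofReal C * M := by
  obtain ⟨C, hC, h⟩ := tipF η hη
  exact ⟨C, hC, fun VV K b' M hb hM => h _ _ K (ens_SV hM) b' hb⟩

/-! ### 2. Good ends and good starts -/

lemma GE_BU {η : ℝ} {D b : ℕ} (hb : b ≠ 0) {T : List Bool} (hT : T ∈ GE η D b) : T ∈ BU ∧ 2 ^ (b + 1) ≤ hgt T ∧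
    ∀ X, X ++ T ∈ GT b η := by
  have hT' : if b = 0 then T = [] else ∃ Z1 M, T = Z1 ++ M ∧ Z1 ∈ BU ∧ M ∈ BU ∧ hgt M ≤ 2 ^ b ∧ 2 ^ (b + 1) ≤ hgt Z1 ∧
    η * Ub b ≤ (nc M : ℝ) ∧ In (D * 2 ^ b) T := hT
  rw [if_neg hb] at hT'
  obtain ⟨Z1, M, rfl, h1, h2, h3, h4, h5, -⟩ := hT'
  refine ⟨BU_app h1 h2, ?_, fun X => ne_A h1 h4 h2 h3 h5⟩
  rw [hgt_app h1 h2]
  omega

/-- the piece ends at a good end -/
lemma end_mem {VV : Set (List Bool)} {η : ℝ} {D K b : ℕ} (hb : b ≠ 0) {V R T : List Bool} (hV : V ∈ VV) (hT : T ∈ GE η D b)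
    (hp : V ++ (R ++ T) ∈ WL K) : V ++ (R ++ T) ∈ SV VV K b ∩ GT b η := by
  obtain ⟨h1, h2, h3⟩ := GE_BU hb hT
  have e1 : V ++ (R ++ T) = (V ++ R) ++ T := by rw [List.append_assoc]
  refine ⟨⟨hp, V, R ++ T, (V ++ R).length, rfl, hV, by rw [List.length_append]; omega, ?_, ?_⟩, ?_⟩
  · simp only [List.length_append]
    omega
  · rw [e1, lv_fr_app (V ++ R) T h1, vx_append (by omega)]
    have h4 : TIP.fr (V ++ R) (vx oo up (V ++ R) (V ++ R).length) = 0 := by
      unfold TIP.fr tipv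
      rw [sub_self]
      unfold mulE
      ext <;> simp
    rw [h4]
    have h5 : lv (0 : Pt) = 0 := by
      rw [lv_ip]
      unfold ip
      simp
    rw [h5]
    have h6 : (2 : ℤ) ^ (b + 1) ≤ hgt T := by exact_mod_cast h2
    omega
  · rw [e1]
    exact h3 _

lemma cs_left {b : ℕ} (X L : List Bool) : (cs b L).card ≤ (cs b (X ++ L)).card := by
  refine card_le_card_of_injOn (fun j => X.length + j) (fun j hj => ?_) (fun i _ j _ h => Nat.add_left_cancel h)
  obtain ⟨h1, h2, h3, A, B, h4, h5, h6⟩ := mem_cs.1 hj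
  have e1 : (X ++ L).drop (X.length + j) = L.drop j := by
    rw [List.drop_append, List.drop_of_length_le (by omega), List.nil_append]
    congr 1
    omega
  have e2 : (X ++ L).take (X.length + j) = X ++ L.take j := by
    rw [List.take_append, List.take_of_length_le (by omega)]
    congr 2
    omega
  refine mem_cs.2 ⟨by
    show X.length + j ≤ _
    rw [List.length_append]
    omega, ?_, ?_, X ++ A, B, ?_, h5, h6⟩
  · show (X ++ L).drop (X.length + j) ∈ BU
    rwa [e1]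
  · show hgt ((X ++ L).drop (X.length + j)) ≤ _
    rwa [e1]
  · show (X ++ L).take (X.length + j) = _
    rw [e2, h4, List.append_assoc]

lemma GT_left {b : ℕ} {η : ℝ} {X L : List Bool} (h : L ∈ GT b η) : X ++ L ∈ GT b η := by
  have h1 : η * Ub b ≤ ((cs b L).card : ℝ) := h
  have h2 : ((cs b L).card : ℝ) ≤ ((cs b (X ++ L)).card : ℝ) := by exact_mod_cast cs_left X L
  exact h1.trans h2

lemma GS_spl {η : ℝ} {D b : ℕ} (hb : b ≠ 0) {S : List Bool} (hS : S ∈ GS η D b) : ∃ N Z3, S = N ++ Z3 ∧ N ∈ BU ∧ Z3 ∈ BU ∧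
    hgt N ≤ 2 ^ b ∧ 2 ^ (b + 1) ≤ hgt Z3 ∧ η * Ub b ≤ (nc N : ℝ) := by
  have hS' : if b = 0 then S = [] else ∃ N Z3, S = N ++ Z3 ∧ N ∈ BU ∧ Z3 ∈ BU ∧ hgt N ≤ 2 ^ b ∧ 2 ^ (b + 1) ≤ hgt Z3 ∧
    η * Ub b ≤ (nc N : ℝ) ∧ In (D * 2 ^ b) S := hS
  rw [if_neg hb] at hS'
  obtain ⟨N, Z3, h1, h2, h3, h4, h5, h6, -⟩ := hS'
  exact ⟨N, Z3, h1, h2, h3, h4, h5, h6⟩

lemma GS_rev {η : ℝ} {D b : ℕ} (hb : b ≠ 0) {S : List Bool} (hS : S ∈ GS η D b) (Y : List Bool) : rev (S ++ Y) ∈ GT b η := by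
  obtain ⟨N, Z3, rfl, h1, h2, h3, h4, h5⟩ := GS_spl hb hS
  rw [List.append_assoc]
  exact ne_B h1 h3 h2 h4 h5

/-! ### 3. Diameters -/

/-- self-avoiding words of diameter at most D -/
def DW (D : ℤ) : Set (List Bool) :=
  {t | t ∈ SA ∧ ∀ i j, i ≤ t.length → j ≤ t.length → hn (vx oo up t i - vx oo up t j) ≤ D}

lemma WL_DW {K : ℕ} {t : List Bool} (h : t ∈ WL K) : t ∈ DW (12 * 2 ^ K + 8) := by
  refine ⟨h.1, fun i j hi hj => ?_⟩
  have h1 := hn_WL h hi
  have h2 := hn_WL h hj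
  have h3 := hn_sub (vx oo up t i) (vx oo up t j)
  linarith

lemma DW_mono {D D' : ℤ} (h : D ≤ D') {t : List Bool} (ht : t ∈ DW D) : t ∈ DW D' :=
  ⟨ht.1, fun i j hi hj => (ht.2 i j hi hj).trans h⟩

lemma row_le_hn {v : Pt} {D N : ℤ} (h : hn v ≤ D) (hD : D ≤ 3 * N) (dir : Bool) : |row dir v| ≤ N := by
  have h1 : |lvl dir v| ≤ D := by
    refine le_trans ?_ h
    have h2 : |ip v up| ≤ hn v := le_max_left _ _
    cases dir with
    | false =>
      rw [TIP.lvl_false]
      exact h2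
    | true =>
      rw [TIP.lvl_true, abs_neg]
      exact (le_max_right _ _).trans (le_max_right _ _)
  unfold row
  generalize lvl dir v = x at h1 ⊢
  rw [abs_le] at h1 ⊢
  omega

lemma DW_WL {K : ℕ} {D : ℤ} (hD : D ≤ 3 * 2 ^ K) {t : List Bool} (ht : t ∈ DW D) : t ∈ WL K := by
  refine ⟨ht.1, fun i hi dir => ?_⟩
  have h1 := ht.2 i 0 hi (Nat.zero_le _)
  have h2 : vx oo up t i - vx oo up t 0 = vx oo up t i := by
    show vx oo up t i - oo = _
    rw [oo_zero, sub_zero]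
  rw [h2] at h1
  exact row_le_hn h1 hD dir

lemma DW_In {D : ℕ} {t : List Bool} (ht : t ∈ DW D) : In D t := by
  intro i hi
  have h1 := ht.2 i 0 hi (Nat.zero_le _)
  have h2 : vx oo up t i - vx oo up t 0 = vx oo up t i := by
    show vx oo up t i - oo = _
    rw [oo_zero, sub_zero]
  rw [h2] at h1
  have a1 : |ip (vx oo up t i) up| ≤ D := (le_max_left _ _).trans h1
  have a2 : |ip (vx oo up t i) (rotL up)| ≤ D := ((le_max_left _ _).trans (le_max_right _ _)).trans h1
  generalize vx oo up t i = v at a1 a2 ⊢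
  obtain ⟨x, y⟩ := v
  simp only [ip, rotL, up] at a1 a2
  rw [abs_le] at a1 a2
  show |x - 0| ≤ (D : ℤ) ∧ |y - 0| ≤ (D : ℤ)
  rw [abs_le, abs_le]
  refine ⟨⟨?_, ?_⟩, ?_, ?_⟩ <;> linarith [a1.1, a1.2, a2.1, a2.2]

/-- the reversed word without its first letter -/
lemma DW_rev {D : ℤ} {t : List Bool} (ht : t ∈ DW D) : (rev t).drop 1 ∈ DW D := by
  obtain ⟨c, hc, hf⟩ := RevM.rev_frame1 t
  refine ⟨RevM.rev_SA ht.1, fun i j hi hj => ?_⟩
  rw [List.length_drop, rev_length] at hi hj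
  have h1 := hf i (by omega)
  have h2 := hf j (by omega)
  have h3 := ht.2 (t.length - i) (t.length - j) (by omega) (by omega)
  rw [h1, h2, add_sub_add_left_eq_sub, ← mulE_sub, hn_mulE (mem_dirs.1 hc)] at h3
  exact h3

/-- the reversed word without its first letter, with another last letter -/
lemma DW_rev' {D : ℤ} {t : List Bool} (ht : t ∈ DW D) (h0 : t ≠ []) (x : Bool) : (rev t).drop 1 ++ [x] ∈ DW D := by
  obtain ⟨c, hc, hf⟩ := RevM.rev_frame1 t
  have hlen : 1 ≤ t.length := List.length_pos_iff.2 h0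
  have hl : ((rev t).drop 1).length = t.length - 1 := by rw [List.length_drop, rev_length]
  have hv : ∀ i, i ≤ t.length → vx oo up ((rev t).drop 1 ++ [x]) i = vx oo up ((rev t).drop 1) i :=
    fun i hi => vx_append (by omega)
  have hl' : ((rev t).drop 1 ++ [x]).length = t.length := by
    rw [List.length_append, hl, List.length_singleton]
    omega
  refine ⟨⟨fun _ _ _ => Set.mem_univ _, fun i k hik hk heq => ?_⟩, fun i j hi hj => ?_⟩
  · rw [hl'] at hk
    refine ht.1.inj (t.length - k) (t.length - i) (by omega) (by omega) ?_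
    rw [hf k hk, hf i (by omega), ← hv k hk, ← hv i (by omega), heq]
  · rw [hl'] at hi hj
    have h3 := ht.2 (t.length - i) (t.length - j) (by omega) (by omega)
    rw [hf i hi, hf j hj, add_sub_add_left_eq_sub, ← mulE_sub, hn_mulE (mem_dirs.1 hc), ← hv i hi, ← hv j hj] at h3
    exact h3

/-- a short end -/
lemma DW_glue {D : ℤ} {b K : ℕ} {L x : List Bool} (hD : 12 * 2 ^ K + 8 ≤ D) (hb : b ≤ K) (hL : L ∈ DW D)
    (hx : BX ((2 ^ b : ℕ) : ℤ) x) (h : L ++ x ∈ SA) : L ++ x ∈ DW (D + 6 * 2 ^ K + 4) := by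
  have hbK : (2 : ℤ) ^ b ≤ 2 ^ K := pow_le_pow_right₀ (by norm_num) hb
  have hxn : ∀ i, i ≤ x.length → hn (vx oo up x i) ≤ 6 * 2 ^ K + 4 := by
    intro i hi
    have key : ∀ dir, |lvl dir (vx oo up x i)| ≤ 3 * 2 ^ K + 2 := by
      intro dir
      have h1 := hx i hi dir
      unfold row at h1
      generalize lvl dir (vx oo up x i) = z at h1 ⊢
      push_cast at h1
      generalize (2 : ℤ) ^ K = N at hbK ⊢
      generalize (2 : ℤ) ^ b = N' at hbK h1
      rw [abs_le] at h1 ⊢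
      omega
    have h2 := hn_of_lvl (key false) (key true)
    linarith
  have hin : ∀ i, L.length ≤ i → i ≤ (L ++ x).length → ∃ k, k ≤ x.length ∧ i = L.length + k := by
    intro i h1 h2
    rw [List.length_append] at h2
    exact ⟨i - L.length, by omega, by omega⟩
  have hpos : (0 : ℤ) < 2 ^ K := by positivity
  have hmix : ∀ i k, i ≤ L.length → k ≤ x.length →
      hn (vx oo up (L ++ x) i - vx oo up (L ++ x) (L.length + k)) ≤ D + 6 * 2 ^ K + 4 := by
    intro i k hi hk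
    rw [vx_append (by omega), vx_general]
    have h1 := hL.2 i L.length hi le_rfl
    have h2 := hn_tri (vx oo up L i) (vx oo up L L.length)
      (vx oo up L L.length + mulE (rotTo up (dx up L L.length)) (vx oo up x k))
    have h3 : hn (vx oo up L L.length - (vx oo up L L.length + mulE (rotTo up (dx up L L.length)) (vx oo up x k))) =
        hn (vx oo up x k) := by
      rw [sub_add_cancel_left, hn_neg, hn_mulE (nrm_rotTo upd (dx_mem up_dirs L L.length))]
    have h4 := hxn k hk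
    rw [h3] at h2
    linarith
  refine ⟨h, fun i j hi hj => ?_⟩
  rcases le_total i L.length with h1 | h1
  · rcases le_total j L.length with h2 | h2
    · rw [vx_append (by omega), vx_append (by omega)]
      have := hL.2 i j h1 h2
      linarith
    · obtain ⟨k, hk, rfl⟩ := hin j h2 hj
      exact hmix i k h1 hk
  · obtain ⟨k, hk, rfl⟩ := hin i h1 hi
    rcases le_total j L.length with h2 | h2
    · rw [hn_sub_comm]
      exact hmix j k h2 hk
    · obtain ⟨k', hk', rfl⟩ := hin j h2 hj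
      rw [vx_general, vx_general, add_sub_add_left_eq_sub, ← mulE_sub, hn_mulE (nrm_rotTo upd (dx_mem up_dirs L L.length))]
      have h3 := hn_sub (vx oo up x k) (vx oo up x k')
      have h4 := hxn k hk
      have h5 := hxn k' hk'
      linarith

/-! ### 4. Reversal of classes -/

lemma pair_short {A B : Set (List Bool)} (c : ℝ≥0∞) (f : List Bool → List Bool) (hf : ∀ w ∈ A, f w ∈ B)
    (hi : ∀ s ∈ A, ∀ t ∈ A, f s = f t → (rev s).take 1 = (rev t).take 1 → s = t)
    (hw : ∀ w ∈ A, wE w ≤ c * (wE (f w) * wE ((rev w).take 1))) : gf A ≤ c * (3 * gf B) := by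
  have k2 : gf A ≤ c * (gf B * gf {t : List Bool | t.length ≤ 1}) := by
    refine gf_le_pair c f (fun Y => (rev Y).take 1) hf ?_ hi hw
    intro Y _
    show ((rev Y).take 1).length ≤ 1
    rw [List.length_take]
    omega
  refine k2.trans (mul_le_mul_right ?_ _)
  rw [mul_comm]
  exact mul_le_mul_left RevM.gf_short _

/-- reversal without the first letter -/
lemma gf_rev1 {A B : Set (List Bool)} (h : ∀ w ∈ A, (rev w).drop 1 ∈ B) : gf A ≤ 3 * gf B := by
  have h0 := pair_short 1 (fun w => (rev w).drop 1) h ?_ ?_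
  · rwa [one_mul] at h0
  · intro s _ t _ h1 h2
    have h3 : rev s = rev t := by
      rw [← List.take_append_drop 1 (rev s), ← List.take_append_drop 1 (rev t)]
      exact congrArg₂ (· ++ ·) h2 h1
    rw [← rev_rev s, h3, rev_rev]
  · intro w _
    rw [one_mul, mul_comm, ← wE_append, List.take_append_drop, wE_rev]

/-- reversal without the first letter, with another last letter -/
lemma gf_rev2 {A B : Set (List Bool)} (h : ∀ w ∈ A, w ≠ [] ∧ ∃ x, (rev w).drop 1 ++ [x] ∈ B) :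
    gf A ≤ ENNReal.ofReal (3 / xc) * gf B := by
  classical
  have hxc := xc_pos
  obtain ⟨x, hx⟩ : ∃ x : List Bool → Bool, ∀ w ∈ A, (rev w).drop 1 ++ [x w] ∈ B := by
    refine ⟨fun w => if hw : w ∈ A then (h w hw).2.choose else true, fun w hw => ?_⟩
    simp only [dif_pos hw]
    exact (h w hw).2.choose_spec
  have h0 := pair_short (ENNReal.ofReal (1 / xc)) (fun w => (rev w).drop 1 ++ [x w]) hx ?_ ?_
  · refine h0.trans (le_of_eq ?_)
    rw [← mul_assoc, show (3 : ℝ≥0∞) = ENNReal.ofReal 3 by simp, ← ENNReal.ofReal_mul (by positivity)]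
    congr 2
    ring
  · intro s _ t _ h1 h2
    have h1' : (rev s).drop 1 = (rev t).drop 1 := by
      have := congrArg List.dropLast h1
      rwa [List.dropLast_concat, List.dropLast_concat] at this
    have h3 : rev s = rev t := by
      rw [← List.take_append_drop 1 (rev s), ← List.take_append_drop 1 (rev t)]
      exact congrArg₂ (· ++ ·) h2 h1'
    rw [← rev_rev s, h3, rev_rev]
  · intro w hw
    have hw0 : 1 ≤ w.length := List.length_pos_iff.2 (h w hw).1
    have e1 : ((rev w).drop 1 ++ [x w]).length = w.length := by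
      rw [List.length_append, List.length_drop, rev_length, List.length_singleton]
      omega
    have e2 : ((rev w).take 1).length = 1 := by
      rw [List.length_take, rev_length]
      omega
    unfold wE
    rw [e1, e2, pow_one, ← ENNReal.ofReal_mul (by positivity), ← ENNReal.ofReal_mul (by positivity)]
    refine ENNReal.ofReal_le_ofReal (le_of_eq ?_)
    field_simp

/-! ### 5. The reference mass -/

lemma TE_up : ∃ C : ℝ, 1 ≤ C ∧ ∀ K i : ℕ, FK (K + i) ≤ ENNReal.ofReal (C ^ i) * FK K := EnsW.ref_up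

lemma TE_mono {K K' : ℕ} (h : K ≤ K') : FK K ≤ FK K' :=
  mul_le_mul' (ENNReal.ofReal_le_ofReal (Ub_mono h)) (pow_le_pow_left' (Xb_mono h) 2)

lemma tip_FK {η : ℝ} (hη : 0 < η) : ∃ C : ℝ, 0 < C ∧ ∀ K b : ℕ, b ≤ K → gf (WL K ∩ GT b η) * Xb b ≤ ENNReal.ofReal C * FK K := by
  obtain ⟨C, hC, h⟩ := tip_WL η hη
  refine ⟨C, hC, fun K b hb => (h K b hb).trans (le_of_eq ?_)⟩
  rw [ENNReal.ofReal_mul hC.le, mul_assoc]
  rfl

/-- **words with a good start** -/
theorem start_plain {η : ℝ} (hη : 0 < η) : ∃ C : ℝ, 0 < C ∧ ∀ K b : ℕ, b ≤ K →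
    gf {w | w ∈ WL K ∧ rev w ∈ GT b η} * Xb b ≤ ENNReal.ofReal C * FK K := by
  obtain ⟨C, hC, h⟩ := tip_FK hη
  obtain ⟨B, hB, hup⟩ := TE_up
  refine ⟨4 * (C * B ^ 7), by positivity, fun K b hb => ?_⟩
  have hD : 4 * (12 * 2 ^ K + 8) + 3 ≤ 2 ^ (K + 7) := by
    have e : (2 : ℕ) ^ (K + 7) = 128 * 2 ^ K := by rw [pow_add]; ring
    have : 1 ≤ 2 ^ K := Nat.one_le_two_pow
    omega
  have h1 := rev_le (b := b) (D := 12 * 2 ^ K + 8) (K := K + 7) (η := η) (Q := Set.univ) (Q' := Set.univ) hD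
    (fun _ _ _ _ => Set.mem_univ _) (fun _ _ _ => Set.mem_univ _)
  have h1' : gf {L | L ∈ WL (K + 7) ∧ L ∈ GT b η ∧ L ∈ (Set.univ : Set (List Bool))} ≤ gf (WL (K + 7) ∩ GT b η) :=
    gf_mono fun L hL => ⟨hL.1, hL.2.1⟩
  have h2 : gf {w | w ∈ WL K ∧ rev w ∈ GT b η} ≤ 4 * gf (WL (K + 7) ∩ GT b η) := by
    refine (gf_mono ?_).trans (h1.trans (mul_le_mul_right h1' _))
    rintro w ⟨a1, a2⟩
    refine ⟨a1.1, a2, DW_In ?_, Set.mem_univ _⟩
    push_cast
    exact WL_DW a1
  calc gf {w | w ∈ WL K ∧ rev w ∈ GT b η} * Xb b ≤ 4 * gf (WL (K + 7) ∩ GT b η) * Xb b := mul_le_mul_left h2 _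
    _ = 4 * (gf (WL (K + 7) ∩ GT b η) * Xb b) := by ring
    _ ≤ 4 * (ENNReal.ofReal C * (ENNReal.ofReal (B ^ 7) * FK K)) :=
        mul_le_mul_right ((h (K + 7) b (by omega)).trans (mul_le_mul_right (hup K 7) _)) _
    _ = _ := by
        rw [← mul_assoc, ← mul_assoc, show (4 : ℝ≥0∞) = ENNReal.ofReal 4 by simp, ← ENNReal.ofReal_mul (by norm_num),
          ← ENNReal.ofReal_mul (by positivity)]
        congr 2
        ring

/-- words with a good start of the label b -/
theorem start_GS {η : ℝ} (D : ℕ) (hη : 0 < η) : ∃ C : ℝ, 0 < C ∧ ∀ K b : ℕ, b ≤ K →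
    gf {w | w ∈ WL K ∧ ∃ S ∈ GS η D b, ∃ R, w = S ++ R} * xw b ≤ ENNReal.ofReal C * FK K := by
  obtain ⟨C, hC, h⟩ := start_plain hη
  obtain ⟨C1, hC1, h1⟩ := tot_WL
  refine ⟨C + C1, by linarith, fun K b hb => ?_⟩
  by_cases hb0 : b = 0
  · have e : xw b = 1 := by
      unfold xw
      rw [if_pos hb0]
    rw [e, mul_one]
    refine (gf_mono fun w hw => hw.1).trans ((h1 K).trans ?_)
    exact mul_le_mul_left (ENNReal.ofReal_le_ofReal (by linarith)) _
  · have e : xw b = Xb b := by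
      unfold xw
      rw [if_neg hb0]
    rw [e]
    refine (mul_le_mul_left (gf_mono ?_) _).trans ((h K b hb).trans (mul_le_mul_left (ENNReal.ofReal_le_ofReal (by linarith)) _))
    rintro w ⟨hw, S, hS, R, rfl⟩
    exact ⟨hw, GS_rev hb0 hS R⟩

/-- **E2** -/
theorem plainM : PlainM := by
  intro η D hη
  obtain ⟨C, hC, h⟩ := start_GS D hη
  obtain ⟨C2, hC2, h2⟩ := end_SV hη
  obtain ⟨B, hB, hup⟩ := TE_up
  have hB3 : 1 ≤ B ^ 3 := one_le_pow₀ hB
  refine ⟨(C2 + 1) * (C * B ^ 3), by positivity, fun K b b' hb hb' => ?_⟩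
  obtain ⟨M, hM⟩ : ∃ M : ℝ≥0∞, M = gf {w | w ∈ WL (K + 3) ∧ ∃ S ∈ GS η D b, ∃ R, w = S ++ R} := ⟨_, rfl⟩
  have hMx : M * xw b ≤ ENNReal.ofReal (C * B ^ 3) * FK K := by
    rw [hM, ENNReal.ofReal_mul hC.le, mul_assoc]
    exact (h (K + 3) b (by omega)).trans (mul_le_mul_right (hup K 3) _)
  have key : gf (PC η D K b b') * xw b' ≤ ENNReal.ofReal (C2 + 1) * M := by
    by_cases hb0 : b' = 0
    · have e : xw b' = 1 := by
        unfold xw
        rw [if_pos hb0]
      rw [e, mul_one]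
      calc gf (PC η D K b b') ≤ 1 * M := by
            rw [one_mul, hM]
            refine gf_mono ?_
            rintro p ⟨hp, S, hS, R, T, -, rfl⟩
            exact ⟨⟨hp.1, fun i hi dir => (hp.2 i hi dir).trans (pow_le_pow_right₀ (by norm_num) (by omega))⟩, S, hS,
              R ++ T, rfl⟩
        _ ≤ ENNReal.ofReal (C2 + 1) * M := by
            refine mul_le_mul_left ?_ _
            rw [← ENNReal.ofReal_one]
            exact ENNReal.ofReal_le_ofReal (by linarith)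
    · have e : xw b' = Xb b' := by
        unfold xw
        rw [if_neg hb0]
      rw [e]
      have h3 := h2 (GS η D b) K b' M hb' hM.symm.le
      refine (mul_le_mul_left (gf_mono ?_) _).trans (h3.trans (mul_le_mul_left (ENNReal.ofReal_le_ofReal (by linarith)) _))
      rintro p ⟨hp, S, hS, R, T, hT, rfl⟩
      exact end_mem hb0 hS hT hp
  calc gf (PC η D K b b') * (xw b * xw b') = gf (PC η D K b b') * xw b' * xw b := by ring
    _ ≤ ENNReal.ofReal (C2 + 1) * M * xw b := mul_le_mul_left key _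
    _ = ENNReal.ofReal (C2 + 1) * (M * xw b) := by ring
    _ ≤ ENNReal.ofReal (C2 + 1) * (ENNReal.ofReal (C * B ^ 3) * FK K) := mul_le_mul_right hMx _
    _ = _ := by rw [← mul_assoc, ← ENNReal.ofReal_mul (by linarith)]

end NPR

end HexObs
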