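import Pool.Agent.NPR.Defs
import Pool.Agent.TIP.YBadG
import Pool.Agent.TIP.Ne

/-!
NPR, row E4 (helper42), geometry: big words without a small piece, reversal, the bridges that are removed at a good tip.
-/

set_option autoImplicit false

namespace HexObs

namespace NPR

open Finset TS SDN NTW NTA SIM TIP TIP.YB

open scoped ENNReal

/-- big words of the scale L, level i -/
def Bg (L i : ℕ) : Set (List Bool) :=
  {Q | ¬ In (2 ^ (L - 4 - 2 * i)) Q ∨ PW.mZ (2 ^ L) / 4 ^ (i + 1) ≤ (Q.length : ℝ)}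

/-- words with a big factor of the level i in Nz -/
def FB (κ : ℝ) (C s L i : ℕ) : Set (List Bool) := Fac (Nz κ C s ∩ Bg L i)

/-- words that reach the row 2 ^ b -/
def Hi (b : ℕ) : Set (List Bool) := {S | ∃ i, i ≤ S.length ∧ 3 * 2 ^ b < lev S i}

/-- the scale is large -/
def Lg (L : ℕ) : Prop := 20 ≤ L ∧ 4 ^ 8 ≤ PW.mZ (2 ^ L)

lemma Bg_zero (L : ℕ) : Bg L 0 = Big L := by
  unfold Bg Big
  simp

lemma mZ_pos' (L : ℕ) : 0 < PW.mZ (2 ^ L) := PW.mZ_pos Nat.one_le_two_pow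

lemma Bg_succ {L i : ℕ} : Bg L i ⊆ Bg L (i + 1) := by
  rintro Q (h | h)
  · left
    intro h1
    exact h (In_mono (Nat.pow_le_pow_right (by norm_num) (by omega)) h1)
  · right
    refine le_trans ?_ h
    have h1 := mZ_pos' L
    rw [pow_succ (4 : ℝ) (i + 1)]
    rw [div_le_div_iff₀ (by positivity) (by positivity)]
    have h2 : (0 : ℝ) < 4 ^ (i + 1) := by positivity
    nlinarith [mul_pos h1 h2]

lemma In_take {D : ℕ} {U V : List Bool} (h : In D (U ++ V)) : In D U := by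
  intro i hi
  have := h i (by rw [List.length_append]; omega)
  rwa [vx_append (by omega)] at this

/-- the box of a joined word -/
lemma In_app {D1 D2 : ℕ} {U V : List Bool} (h1 : In D1 U) (h2 : In D2 V) : In (D1 + 2 * D2) (U ++ V) := by
  rw [In_iff]
  intro i hi
  rcases Nat.lt_or_ge U.length i with h | h
  · obtain ⟨j, rfl⟩ : ∃ j, i = U.length + j := ⟨i - U.length, by omega⟩
    rw [List.length_append] at hi
    rw [vx_general]
    obtain ⟨a1, a2⟩ := RevM.In_coord h1 (i := U.length) le_rfl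
    obtain ⟨b1, b2⟩ := RevM.In_coord h2 (i := j) (by omega)
    obtain ⟨c1, c2⟩ := mul_coord (frame_dir (dx_mem up_dirs U U.length)).1 b1 b2
    rw [Prod.fst_add, Prod.snd_add]
    rw [abs_le] at *
    rw [abs_le]
    push_cast
    refine ⟨⟨?_, ?_⟩, ?_, ?_⟩ <;> omega
  · rw [vx_append (by omega)]
    obtain ⟨a1, a2⟩ := RevM.In_coord h1 h
    push_cast
    constructor <;> omega

/-- the first part is removed -/
lemma Bg_cutL {L i D : ℕ} {U V : List Bool} (hL : 4 + 2 * (i + 1) ≤ L) (hU : In D U) (hD : 2 * D ≤ 2 ^ (L - 4 - 2 * i))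
    (hl : (U.length : ℝ) ≤ PW.mZ (2 ^ L) / 4 ^ (i + 2)) (h : U ++ V ∈ Bg L i) : V ∈ Bg L (i + 1) := by
  rcases h with h | h
  · left
    intro hV
    apply h
    refine In_mono ?_ (In_app hU hV)
    have e : 2 ^ (L - 4 - 2 * i) = 4 * 2 ^ (L - 4 - 2 * (i + 1)) := by
      rw [show L - 4 - 2 * i = L - 4 - 2 * (i + 1) + 2 by omega, pow_add]
      ring
    omega
  · right
    have h1 := mZ_pos' L
    rw [List.length_append, Nat.cast_add] at h
    have e1 : PW.mZ (2 ^ L) / 4 ^ (i + 1) = 4 * (PW.mZ (2 ^ L) / 4 ^ (i + 2)) := by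
      rw [pow_succ (4 : ℝ) (i + 1)]
      field_simp
    have h3 : 0 < PW.mZ (2 ^ L) / 4 ^ (i + 2) := by positivity
    show PW.mZ (2 ^ L) / 4 ^ (i + 2) ≤ (V.length : ℝ)
    linarith

/-- the last part is removed -/
lemma Bg_cutR {L i D : ℕ} {U V : List Bool} (hL : 4 + 2 * (i + 1) ≤ L) (hV : In D V) (hD : 4 * D ≤ 2 ^ (L - 4 - 2 * i))
    (hl : (V.length : ℝ) ≤ PW.mZ (2 ^ L) / 4 ^ (i + 2)) (h : U ++ V ∈ Bg L i) : U ∈ Bg L (i + 1) := by
  rcases h with h | h
  · left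
    intro hU
    apply h
    refine In_mono ?_ (In_app hU hV)
    have e : 2 ^ (L - 4 - 2 * i) = 4 * 2 ^ (L - 4 - 2 * (i + 1)) := by
      rw [show L - 4 - 2 * i = L - 4 - 2 * (i + 1) + 2 by omega, pow_add]
      ring
    omega
  · right
    have h1 := mZ_pos' L
    rw [List.length_append, Nat.cast_add] at h
    have e1 : PW.mZ (2 ^ L) / 4 ^ (i + 1) = 4 * (PW.mZ (2 ^ L) / 4 ^ (i + 2)) := by
      rw [pow_succ (4 : ℝ) (i + 1)]
      field_simp
    have h3 : 0 < PW.mZ (2 ^ L) / 4 ^ (i + 2) := by positivity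
    show PW.mZ (2 ^ L) / 4 ^ (i + 2) ≤ (U.length : ℝ)
    linarith

/-- a part V of T, the whole of T is local: R ++ (T' ++ V) without V -/
lemma Bg_cutT {L i D : ℕ} {R T' V : List Bool} (hL : 4 + 2 * (i + 1) ≤ L) (hT : In D (T' ++ V))
    (hD : 4 * D ≤ 2 ^ (L - 4 - 2 * i)) (hl : (V.length : ℝ) ≤ PW.mZ (2 ^ L) / 4 ^ (i + 2))
    (h : R ++ (T' ++ V) ∈ Bg L i) : R ++ T' ∈ Bg L (i + 1) := by
  rcases h with h | h
  · left
    intro hU
    apply h
    refine In_mono ?_ (In_app (In_take hU) hT)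
    have e : 2 ^ (L - 4 - 2 * i) = 4 * 2 ^ (L - 4 - 2 * (i + 1)) := by
      rw [show L - 4 - 2 * i = L - 4 - 2 * (i + 1) + 2 by omega, pow_add]
      ring
    omega
  · right
    have h1 := mZ_pos' L
    rw [← List.append_assoc, List.length_append, Nat.cast_add] at h
    have e1 : PW.mZ (2 ^ L) / 4 ^ (i + 1) = 4 * (PW.mZ (2 ^ L) / 4 ^ (i + 2)) := by
      rw [pow_succ (4 : ℝ) (i + 1)]
      field_simp
    have h3 : 0 < PW.mZ (2 ^ L) / 4 ^ (i + 2) := by positivity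
    show PW.mZ (2 ^ L) / 4 ^ (i + 2) ≤ ((R ++ T').length : ℝ)
    linarith

lemma In_one (x : Bool) : In 1 [x] := by
  rw [In_iff]
  intro i hi
  have hi' : i ≤ 1 := by simpa using hi
  interval_cases i
  · show |oo.1| ≤ _ ∧ |oo.2| ≤ _
    decide
  · show |(oo + up).1| ≤ _ ∧ |(oo + up).2| ≤ _
    decide

lemma Lg.le {L i : ℕ} (h : Lg L) (hi : i ≤ 4) : 4 + 2 * (i + 1) ≤ L ∧ 4 * 1 ≤ 2 ^ (L - 4 - 2 * i) ∧
    (1 : ℝ) ≤ PW.mZ (2 ^ L) / 4 ^ (i + 2) := by
  obtain ⟨h1, h2⟩ := h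
  refine ⟨by omega, ?_, ?_⟩
  · calc 4 * 1 = 2 ^ 2 := by norm_num
      _ ≤ 2 ^ (L - 4 - 2 * i) := Nat.pow_le_pow_right (by norm_num) (by omega)
  · rw [le_div_iff₀ (by positivity), one_mul]
    refine le_trans ?_ h2
    exact pow_le_pow_right₀ (by norm_num) (by omega)

lemma nil_nBg {L i : ℕ} (h : Lg L) (hi : i ≤ 4) : ([] : List Bool) ∉ Bg L i := by
  rintro (h1 | h1)
  · exact h1 (In_nil _)
  · have h2 := (h.le hi).2.2
    have h3 := mZ_pos' L
    have e1 : PW.mZ (2 ^ L) / 4 ^ (i + 1) = 4 * (PW.mZ (2 ^ L) / 4 ^ (i + 2)) := by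
      rw [pow_succ (4 : ℝ) (i + 1)]
      field_simp
    rw [List.length_nil, Nat.cast_zero, e1] at h1
    linarith

lemma Bg_tail {L i : ℕ} (hL : Lg L) (hi : i ≤ 4) {x : Bool} {Q : List Bool} (h : x :: Q ∈ Bg L i) : Q ∈ Bg L (i + 1) := by
  obtain ⟨h1, h2, h3⟩ := hL.le hi
  exact Bg_cutL (U := [x]) h1 (In_one x) (by omega) (by simpa using h3) h

lemma Bg_init {L i : ℕ} (hL : Lg L) (hi : i ≤ 4) {x : Bool} {Q : List Bool} (h : Q ++ [x] ∈ Bg L i) : Q ∈ Bg L (i + 1) := by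
  obtain ⟨h1, h2, h3⟩ := hL.le hi
  exact Bg_cutR (V := [x]) h1 (In_one x) (by omega) (by simpa using h3) h

/-! ### words with a big factor -/

variable {κ : ℝ} {C s L i : ℕ}

lemma FB_succ : FB κ C s L i ⊆ FB κ C s L (i + 1) := by
  rintro t ⟨X, Q, Y, h, h1, h2⟩
  exact ⟨X, Q, Y, h, h1, Bg_succ h2⟩

lemma FB_left (e : List Bool) {t : List Bool} (h : t ∈ FB κ C s L i) : e ++ t ∈ FB κ C s L i := by
  obtain ⟨X, Q, Y, rfl, h2⟩ := h
  exact ⟨e ++ X, Q, Y, by simp only [List.append_assoc], h2⟩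

lemma FB_right (e : List Bool) {t : List Bool} (h : t ∈ FB κ C s L i) : t ++ e ∈ FB κ C s L i := by
  obtain ⟨X, Q, Y, rfl, h2⟩ := h
  exact ⟨X, Q, Y ++ e, by simp only [List.append_assoc], h2⟩

lemma FB_self {Q : List Bool} (h1 : Q ∈ Nz κ C s) (h2 : Q ∈ Bg L i) : Q ∈ FB κ C s L i :=
  ⟨[], Q, [], by simp, h1, h2⟩

lemma FB_ne (hL : Lg L) (hi : i ≤ 4) {t : List Bool} (h : t ∈ FB κ C s L i) : t ≠ [] := by
  rintro rfl
  obtain ⟨X, Q, Y, h1, -, h3⟩ := h
  obtain ⟨-, h4⟩ := List.append_eq_nil_iff.1 h1.symm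
  obtain ⟨h5, -⟩ := List.append_eq_nil_iff.1 h4
  rw [h5] at h3
  exact nil_nBg hL hi h3

lemma FB_tail (hL : Lg L) (hi : i ≤ 4) {t : List Bool} (h : t ∈ FB κ C s L i) : t.drop 1 ∈ FB κ C s L (i + 1) := by
  obtain ⟨X, Q, Y, rfl, h2, h3⟩ := h
  cases X with
  | cons x X => exact ⟨X, Q, Y, rfl, h2, Bg_succ h3⟩
  | nil =>
    cases Q with
    | nil => exact absurd h3 (nil_nBg hL hi)
    | cons x Q => exact ⟨[], Q, Y, rfl, Nz_suf (X := [x]) h2, Bg_tail hL hi h3⟩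

lemma FB_init (hL : Lg L) (hi : i ≤ 4) {t : List Bool} (h : t ∈ FB κ C s L i) : t.dropLast ∈ FB κ C s L (i + 1) := by
  obtain ⟨X, Q, Y, rfl, h2, h3⟩ := h
  by_cases hY : Y = []
  · subst hY
    rw [List.append_nil]
    have hQ : Q ≠ [] := by
      rintro rfl
      exact nil_nBg hL hi h3
    rw [List.dropLast_append_of_ne_nil hQ]
    have e := List.dropLast_append_getLast hQ
    refine ⟨X, Q.dropLast, [], by rw [List.append_nil], ?_, ?_⟩
    · exact Nz_pre (Y := [Q.getLast hQ]) (by rwa [e])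
    · exact Bg_init hL hi (x := Q.getLast hQ) (by rwa [e])
  · rw [List.dropLast_append_of_ne_nil (by simp [hY]), List.dropLast_append_of_ne_nil hY]
    exact ⟨X, Q, Y.dropLast, rfl, h2, Bg_succ h3⟩

/-- reversal of the words of a box with a big factor -/
lemma rev_FB {K : ℕ} (hL : Lg L) (hi : i ≤ 4) :
    gf {t | t ∈ WL K ∧ rev t ∈ FB κ C s L i} ≤ 3 * gf {t | t ∈ WL (K + 6) ∧ t ∈ FB κ C s L (i + 1)} := by
  have h1 : gf {t | t ∈ WL K ∧ rev t ∈ FB κ C s L i} ≤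
      1 * (gf {t | t ∈ WL (K + 6) ∧ t ∈ FB κ C s L (i + 1)} * gf {t : List Bool | t.length ≤ 1}) := by
    refine gf_le_pair 1 (fun t => (rev t).drop 1) (fun t => (rev t).take 1) ?_ ?_ ?_ ?_
    · rintro t ⟨h2, h3⟩
      refine ⟨RevM.box1 (D := 2 ^ (K + 3)) ?_ h2.1 ?_, FB_tail hL hi h3⟩
      · intro i hi
        exact WL_bd h2 hi
      · have e1 : (2 : ℕ) ^ (K + 6) = 8 * 2 ^ (K + 3) := by rw [pow_add, pow_add]; ring
        have : 1 ≤ 2 ^ (K + 3) := Nat.one_le_two_pow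
        omega
    · intro t _
      show ((rev t).take 1).length ≤ 1
      rw [List.length_take]
      omega
    · intro s _ t _ h2 h3
      have h4 : rev s = rev t := by
        rw [← List.take_append_drop 1 (rev s), ← List.take_append_drop 1 (rev t)]
        exact congrArg₂ (· ++ ·) h3 h2
      rw [← rev_rev s, h4, rev_rev]
    · intro t _
      rw [one_mul, mul_comm, ← wE_append, List.take_append_drop, wE_rev]
  refine h1.trans ?_
  rw [one_mul, mul_comm]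
  exact mul_le_mul' RevM.gf_short le_rfl

/-! ### the structures at the ends -/

lemma Hi_bridge {b : ℕ} {S : List Bool} (hS : S ∈ BU) (h : 2 ^ (b + 1) ≤ hgt S) : S ∈ Hi b := by
  refine ⟨S.length, le_rfl, ?_⟩
  rw [lev_end (TIP.BU_hgt hS)]
  have h1 : (2 : ℤ) ^ (b + 1) ≤ hgt S := by exact_mod_cast h
  have h2 : (1 : ℤ) ≤ 2 ^ b := one_le_pow₀ (by norm_num)
  rw [pow_succ] at h1
  omega

/-- without the last letter, for b ≥ 1 -/
lemma Hi_init {b : ℕ} (hb : 1 ≤ b) {S : List Bool} (hS : S ∈ BU) (h : 2 ^ (b + 1) ≤ hgt S) : S.dropLast ∈ Hi b := by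
  have h0 := lev_end (TIP.BU_hgt hS)
  have h1 : (2 : ℤ) ^ (b + 1) ≤ hgt S := by exact_mod_cast h
  have h2 : (2 : ℤ) ≤ 2 ^ b := by
    calc (2 : ℤ) = 2 ^ 1 := by norm_num
      _ ≤ 2 ^ b := pow_le_pow_right₀ (by norm_num) hb
  rw [pow_succ] at h1
  have hne : S ≠ [] := by
    rintro rfl
    rw [hgt_nil] at h1
    have : ((0 : ℕ) : ℤ) = 0 := rfl
    omega
  have hpos : 0 < S.length := List.length_pos_iff.2 hne
  have hlen : S.dropLast.length = S.length - 1 := List.length_dropLast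
  refine ⟨S.length - 1, by omega, ?_⟩
  have e1 : lev S (S.length - 1) = lev S.dropLast (S.length - 1) := by
    refine (congrArg (fun t => lev t (S.length - 1)) (List.dropLast_append_getLast hne).symm).trans ?_
    exact lev_append (by rw [hlen]; omega)
  rw [← e1]
  have h3 := vx_close S (S.length - 1)
  rw [show S.length - 1 + 1 = S.length by omega] at h3
  have e2 : ∀ i, lev S i = (vx oo up S i).1 + 2 * (vx oo up S i).2 := by
    intro i
    unfold lev
    simp only [ip, up]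
    ring
  rw [e2] at h0 ⊢
  obtain ⟨h4, h5⟩ := h3
  rw [abs_le] at h4 h5
  omega

/-- **a low bridge at the start lies in the structure** -/
lemma pre_struct {b : ℕ} {Z Y S X : List Bool} (hZ : Z ∈ BU) (hz : hgt Z ≤ 2 ^ b) (hS : S ∈ Hi b)
    (h : Z ++ Y = S ++ X) : ∃ S', S = Z ++ S' ∧ Y = S' ++ X := by
  rcases List.append_eq_append_iff.1 h with ⟨W, h1, h2⟩ | ⟨W, h1, h2⟩
  · exact ⟨W, h1, h2⟩
  · exfalso
    obtain ⟨i, hi, hlev⟩ := hS
    have h3 : lev Z i = lev S i := by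
      rw [h1]
      exact lev_append (by omega)
    have hiZ : i ≤ Z.length := by
      rw [h1, List.length_append]
      omega
    have h4 := mem_Brd.1 (TIP.BU_hgt hZ)
    have h5 : (hgt Z : ℤ) ≤ 2 ^ b := by exact_mod_cast hz
    rcases Nat.eq_zero_or_pos i with h6 | h6
    · subst h6
      rw [lev_zero] at hlev
      have : (0 : ℤ) < 2 ^ b := by positivity
      omega
    · have := (h4.1 i h6 hiZ).2
      omega

/-- a low bridge at the end lies in the structure -/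
lemma suf_struct {b : ℕ} {A Z X T : List Bool} (hZ : Z ∈ BU) (hz : hgt Z ≤ 2 ^ b) (hT : rev T ∈ Hi b)
    (h : A ++ Z = X ++ T) : ∃ T', T = T' ++ Z ∧ A = X ++ T' := by
  have h1 : rev Z ++ rev A = rev T ++ rev X := by rw [← rev_append, ← rev_append, h]
  obtain ⟨S', h2, h3⟩ := pre_struct (BU_rev hZ) (by rwa [hgt_eq (Brd_rev (TIP.BU_hgt hZ))]) hT h1
  refine ⟨rev S', ?_, ?_⟩
  · rw [← rev_rev T, h2, rev_append, rev_rev]
  · rw [← rev_rev A, h3, rev_append, rev_rev]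

end NPR

end HexObs
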