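import Pool.Agent.NPR.Atyp

/-!
# NPR (natural parametrisation, doc nu34/NPR_14), row L1, first part (helper28): products of m irreducible pieces

Ir m has the mass one; the words of Ir m of height at most 2 ^ k (`Hm m k`): submultiplicative masses, at most 1 / 2 for
m >= 2 Ub k, so that few low bridges have many pieces.
-/

set_option autoImplicit false

namespace HexObs

namespace NPR

open Finset TS SDN TIW NTA TIP

open scoped ENNReal

lemma nilBU : ([] : List Bool) ∈ BU := ⟨0, nil_mem_Brd⟩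

lemma hgtA {s t : List Bool} (hs : s ∈ BU) (ht : t ∈ BU) : hgt (s ++ t) = hgt s + hgt t := TIP.hgt_app hs ht

lemma Ir_cat : ∀ {a b : ℕ} {V X : List Bool}, V ∈ Ir a → X ∈ Ir b → V ++ X ∈ Ir (a + b)
  | 0, b, V, X, h1, h2 => by
    have e : V = [] := h1
    rw [e, List.nil_append, Nat.zero_add]
    exact h2
  | a + 1, b, V, X, h1, h2 => by
    obtain ⟨P, hP, W, hW, rfl⟩ := h1
    rw [show a + 1 + b = (a + b) + 1 by omega, List.append_assoc]
    exact ⟨P, hP, W ++ X, Ir_cat hW h2, rfl⟩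

lemma Ir_nil {m : ℕ} (h : ([] : List Bool) ∈ Ir m) : m = 0 := by
  cases m with
  | zero => rfl
  | succ m =>
    obtain ⟨P, ⟨r, hr⟩, W, -, he⟩ := h
    have h1 : P = [] := (List.append_eq_nil_iff.1 he.symm).1
    exact absurd h1 hr.2.1

lemma Ir_lt {m d : ℕ} {V : List Bool} (h : V ∈ Ir m) (h' : V ∈ Ir (m + d)) : d = 0 := by
  obtain ⟨V1, h1, V2, h2, he⟩ := Ir_add h'
  have h3 : V = V1 := Ir_pf h h1 nilBU (Ir_BU h2) (by rw [List.append_nil]; exact he)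
  have h4 : V2 = [] := by
    rw [← h3] at he
    have := congrArg List.length he
    rw [List.length_append] at this
    exact List.length_eq_zero_iff.1 (by omega)
  rw [h4] at h2
  exact Ir_nil h2

lemma Ir_uniq (i j : ℕ) (V : List Bool) (hi : V ∈ Ir i) (hj : V ∈ Ir j) : i = j := by
  rcases le_total i j with h | h
  · obtain ⟨d, rfl⟩ := Nat.exists_eq_add_of_le h
    have := Ir_lt hi hj
    omega
  · obtain ⟨d, rfl⟩ := Nat.exists_eq_add_of_le h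
    have := Ir_lt hj hi
    omega

/-- m pieces, height at most 2 ^ k -/
def Hm (m k : ℕ) : Set (List Bool) := {V | V ∈ Ir m ∧ hgt V ≤ 2 ^ k}

/-- bridges of height at most 2 ^ k -/
def Bk (k : ℕ) : Set (List Bool) := {V | V ∈ BU ∧ hgt V ≤ 2 ^ k}

lemma gf_Bk (k : ℕ) : gf (Bk k) ≤ ENNReal.ofReal (Ub k) := gf_lowBU (2 ^ k)

lemma gf_Hm (m k : ℕ) : gf (Hm m k) ≤ 1 := (gf_mono fun _ h => h.1).trans (gf_Ir m)

lemma Hm_add (a b k : ℕ) : gf (Hm (a + b) k) ≤ gf (Hm a k) * gf (Hm b k) := by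
  refine gf_le_mul fun V hV => ?_
  obtain ⟨V1, h1, V2, h2, he⟩ := Ir_add hV.1
  have h3 : hgt V = hgt V1 + hgt V2 := by rw [he, hgtA (Ir_BU h1) (Ir_BU h2)]
  have h4 := hV.2
  exact ⟨V1, ⟨h1, by omega⟩, V2, ⟨h2, by omega⟩, he⟩

lemma Hm_anti {m n : ℕ} (h : m ≤ n) (k : ℕ) : gf (Hm n k) ≤ gf (Hm m k) := by
  obtain ⟨d, rfl⟩ := Nat.exists_eq_add_of_le h
  refine (Hm_add m d k).trans ?_
  calc gf (Hm m k) * gf (Hm d k) ≤ gf (Hm m k) * 1 := mul_le_mul' le_rfl (gf_Hm d k)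
    _ = _ := mul_one _

lemma Hm_half {n k : ℕ} (hn : 2 * Ub k ≤ n) : gf (Hm n k) ≤ ENNReal.ofReal (1 / 2) := by
  classical
  have hU : 0 < Ub k := Num2Aux.UU_pos _
  have hn0 : (0 : ℝ) < n := by linarith
  have hn1 : n ≠ 0 := by rintro rfl; simp at hn0
  have h1 : (n : ℝ≥0∞) * gf (Hm n k) ≤ (n : ℝ≥0∞) * ENNReal.ofReal (1 / 2) := by
    calc (n : ℝ≥0∞) * gf (Hm n k) = ∑ _m ∈ range n, gf (Hm n k) := by rw [sum_const, card_range, nsmul_eq_mul]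
      _ ≤ ∑ m ∈ range n, gf (Hm m k) := sum_le_sum fun m hm => Hm_anti (mem_range.1 hm).le k
      _ ≤ gf (⋃ m ∈ range n, Hm m k) := BAR.gf_bi_eq (range n) (fun m => Hm m k) fun i j w hi hj => Ir_uniq i j w hi.1 hj.1
      _ ≤ gf (Bk k) := gf_mono fun V hV => by
        rw [Set.mem_iUnion₂] at hV
        obtain ⟨m, -, hV⟩ := hV
        exact ⟨Ir_BU hV.1, hV.2⟩
      _ ≤ ENNReal.ofReal (Ub k) := gf_Bk k
      _ ≤ ENNReal.ofReal (n * (1 / 2)) := ENNReal.ofReal_le_ofReal (by linarith)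
      _ = (n : ℝ≥0∞) * ENNReal.ofReal (1 / 2) := by rw [ENNReal.ofReal_mul hn0.le, ENNReal.ofReal_natCast]
  exact (ENNReal.mul_le_mul_iff_right (by exact_mod_cast hn1) (ENNReal.natCast_ne_top n)).1 h1

lemma Hm_pow {n k : ℕ} (hn : 2 * Ub k ≤ n) : ∀ j : ℕ, gf (Hm (j * n) k) ≤ ENNReal.ofReal (1 / 2) ^ j
  | 0 => by rw [pow_zero]; exact gf_Hm _ k
  | j + 1 => by
    rw [show (j + 1) * n = j * n + n by ring, pow_succ]
    exact (Hm_add _ _ k).trans (mul_le_mul' (Hm_pow hn j) (Hm_half hn))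

/-- many pieces -/
lemma Hm_tail (N k : ℕ) : gf {V | V ∈ Bk k ∧ ∃ m, N ≤ m ∧ V ∈ Ir m} ≤ gf (Hm N k) * ENNReal.ofReal (Ub k) := by
  refine (gf_le_mul (R := Bk k) fun V hV => ?_).trans (mul_le_mul' le_rfl (gf_Bk k))
  obtain ⟨⟨h1, h2⟩, m, hm, hV⟩ := hV
  obtain ⟨d, rfl⟩ := Nat.exists_eq_add_of_le hm
  obtain ⟨V1, h3, V2, h4, he⟩ := Ir_add hV
  have h5 : hgt V = hgt V1 + hgt V2 := by rw [he, hgtA (Ir_BU h3) (Ir_BU h4)]
  exact ⟨V1, ⟨h3, by omega⟩, V2, ⟨Ir_BU h4, by omega⟩, he⟩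

end NPR

end HexObs
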