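import Pool.Agent.NPR.Defs2
import Pool.Agent.TIP.DCnt
import Pool.Agent.TIP.RevM
import Pool.Agent.TIP.Ne
import Pool.Agent.TIP.NgC
import Pool.Agent.SLW.LzB

/-!
# NPR, row L3 (helper41): words with a rich local bridge contain a typical leaf

* `nc_Ir` : a product of `m` irreducible bridges has `m + 1` cuts;
* `rich_leaves` : a rich bridge has many leaves of `n` irreducible pieces between two good tips;
* **`denL`** : factors that are not in `Nz` and have no typical leaf are rare (from `AtypM`).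
-/

set_option autoImplicit false

namespace HexObs

namespace NPR

open Finset TS SDN TIW NTA TIP

open scoped ENNReal

/-! ### 1. Cuts and irreducible pieces -/

open Classical in
lemma nc_IU {P : List Bool} (h : P ∈ IU) : nc P = 2 := by
  obtain ⟨r, hr⟩ := h
  have h0 : 0 < P.length := List.length_pos_iff.2 hr.2.1
  have hP : P ∈ BU := ⟨r, hr.1⟩
  have e : (range (P.length + 1)).filter (fun j => P.take j ∈ BU ∧ P.drop j ∈ BU) = {0, P.length} := by
    ext j
    rw [mem_filter, mem_range, mem_insert, mem_singleton]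
    constructor
    · rintro ⟨h1, ⟨r1, h2⟩, ⟨r2, h3⟩⟩
      have h4 := hr.2.2 r1 r2 (P.take j) (P.drop j) h2 h3 (List.take_append_drop j P).symm
      rcases h4 with h4 | h4
      · left
        have := congrArg List.length h4
        rw [List.length_take, List.length_nil] at this
        omega
      · right
        have := congrArg List.length h4
        rw [List.length_drop, List.length_nil] at this
        omega
    · rintro (rfl | rfl)
      · refine ⟨by omega, ?_, ?_⟩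
        · rw [List.take_zero]
          exact nil_BU
        · rwa [List.drop_zero]
      · refine ⟨by omega, ?_, ?_⟩
        · rwa [List.take_length]
        · rw [List.drop_length]
          exact nil_BU
  unfold nc
  rw [e]
  exact card_pair (by omega)

open Classical in
lemma nc_nil : nc [] = 1 := by
  unfold nc
  rw [show (range (([] : List Bool).length + 1)).filter (fun j => ([] : List Bool).take j ∈ BU ∧ ([] : List Bool).drop j ∈ BU) =
    {0} from ?_, card_singleton]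
  ext j
  rw [mem_filter, mem_range, mem_singleton]
  constructor
  · rintro ⟨h1, -⟩
    simpa using h1
  · rintro rfl
    exact ⟨by simp, by simpa using nil_BU, by simpa using nil_BU⟩

/-- **products of irreducible bridges** -/
lemma nc_Ir : ∀ {m : ℕ} {V : List Bool}, V ∈ Ir m → nc V = m + 1
  | 0, V, h => by
    have : V = [] := h
    rw [this, nc_nil]
  | m + 1, V, h => by
    obtain ⟨P, hP, W, hW, rfl⟩ := h
    have h1 := nc_app (TIP.IU_BU hP) (Ir_BU hW)
    rw [nc_IU hP, nc_Ir hW] at h1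
    omega

lemma ir_front {N : List Bool} (hN : N ∈ BU) {n : ℕ} (hn : n + 1 ≤ nc N) :
    ∃ V N', V ∈ Ir n ∧ N' ∈ BU ∧ N = V ++ N' ∧ nc N' + n = nc N := by
  obtain ⟨y, hy⟩ := hN
  obtain ⟨k, hk⟩ := exists_Ir y N hy
  have h1 := nc_Ir hk
  obtain ⟨V, hV, X, hX, he⟩ := Ir_split (m := n) hk (by omega)
  refine ⟨V, X, hV, hX, he, ?_⟩
  have h2 := nc_app (Ir_BU hV) hX
  rw [← he, nc_Ir hV] at h2
  omega

/-! ### 2. The leaves of a rich bridge -/

/-- **leaves between two good tips** -/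
theorem rich_leaves {κ : ℝ} {C b n : ℕ} {t X Z Y : List Bool} (hκ : 0 < κ) (ht : t = X ++ (Z ++ Y)) (hZ : Z ∈ Zc κ C b)
    (hn : (n : ℝ) ≤ κ / 4 * Ub b) : ∃ S : Finset ℕ, κ / 4 * Ub b ≤ (S.card : ℝ) ∧ ∀ q ∈ S, ∃ A V B Z' Z'' : List Bool,
      t = A ++ (V ++ B) ∧ A.length = q ∧ V ∈ Ir n ∧ A ∈ GT b (κ / 4) ∧ rev B ∈ GT b (κ / 4) ∧ Z = Z' ++ (V ++ Z'') := by
  classical
  obtain ⟨Z1, Z2, Z3, e, z1, z2, z3, g1, g3, g2, hc, -⟩ := hZ
  have hU := Ub_pos b
  obtain ⟨a, ha⟩ : ∃ a, a = ⌈κ / 4 * Ub b⌉₊ := ⟨_, rfl⟩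
  have ha1 : κ / 4 * Ub b ≤ (a : ℝ) := by
    rw [ha]
    exact Nat.le_ceil _
  have ha2 : (a : ℝ) < κ / 4 * Ub b + 1 := by
    rw [ha]
    exact Nat.ceil_lt_add_one (by positivity)
  have ha0 : 1 ≤ a := by
    rw [ha, Nat.one_le_ceil_iff]
    positivity
  obtain ⟨m, hm⟩ : ∃ m, m = nc Z2 := ⟨_, rfl⟩
  rw [← hm] at hc
  have hma : 2 * a + n ≤ m + 2 := by
    have : (2 * a + n : ℝ) < m + 2 := by
      have : 0 < κ * Ub b := by positivity
      linarith
    exact_mod_cast this.le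
  have key : ∀ i : ℕ, i < m + 2 - (2 * a + n) → ∃ q : ℕ, (∃ M N, Z2 = M ++ N ∧ nc M = a + i ∧ q = (X ++ (Z1 ++ M)).length) ∧
      ∃ A V B Z' Z'' : List Bool,
      t = A ++ (V ++ B) ∧ A.length = q ∧ V ∈ Ir n ∧ A ∈ GT b (κ / 4) ∧ rev B ∈ GT b (κ / 4) ∧ Z = Z' ++ (V ++ Z'') := by
    intro i hi
    obtain ⟨M, N, hM, hN, e2, c1, c2⟩ := nc_split z2 (i := a + i) (by omega) (by omega)
    obtain ⟨V, N', hV, hN', e3, c3⟩ := ir_front hN (n := n) (by omega)
    refine ⟨_, ⟨M, N, e2, c1, rfl⟩, X ++ (Z1 ++ M), V, N' ++ (Z3 ++ Y), Z1 ++ M, N' ++ Z3, ?_, rfl, hV, ?_, ?_, ?_⟩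
    · rw [ht, e, e2, e3]
      simp only [List.append_assoc]
    · refine ne_A z1 g1 hM ?_ ?_
      · have := hgt_app hM hN
        rw [← e2] at this
        omega
      · rw [c1]
        push_cast
        have : (0 : ℝ) ≤ i := Nat.cast_nonneg i
        linarith
    · refine ne_B hN' ?_ z3 g3 ?_
      · have h1 := hgt_app hM hN
        have h2 := hgt_app (Ir_BU hV) hN'
        rw [← e2] at h1
        rw [← e3] at h2
        omega
      · have h3 : a ≤ nc N' := by omega
        have h4 : (a : ℝ) ≤ (nc N' : ℝ) := by exact_mod_cast h3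
        linarith
    · rw [e, e2, e3]
      simp only [List.append_assoc]
  choose! f hf hg using key
  refine ⟨(range (m + 2 - (2 * a + n))).image f, ?_, fun q hq => ?_⟩
  · have hinj : Set.InjOn f (↑(range (m + 2 - (2 * a + n))) : Set ℕ) := by
      intro i hi i' hi' hii
      rw [mem_coe, mem_range] at hi hi'
      obtain ⟨M, N, e2, c1, c2⟩ := hf i hi
      obtain ⟨M', N', e2', c1', c2'⟩ := hf i' hi'
      rw [hii, c2'] at c2
      have hl : M.length = M'.length := by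
        simp only [List.length_append] at c2
        omega
      have hMM : M = M' := (List.append_inj (e2.symm.trans e2') hl).1
      rw [hMM] at c1
      omega
    rw [card_image_of_injOn hinj, card_range, Nat.cast_sub hma]
    push_cast
    linarith
  · rw [mem_image] at hq
    obtain ⟨i, hi, rfl⟩ := hq
    exact hg i (mem_range.1 hi)

/-! ### 3. The mass -/

/-- **L3**: factors that are not in `Nz` and have no typical leaf -/
def DenL (κ : ℝ) (C : ℕ) : Prop := ∀ (k' : ℕ) (δ ε Lam : ℝ), 0 < δ → 0 < ε → 0 < Lam →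
  ∃ (R L0 : ℕ) (θ τ : ℝ), 1 ≤ R ∧ k' ≤ L0 ∧ 0 < θ ∧ 0 < τ ∧ τ ≤ 1 ∧ ∀ L, L0 ≤ L → ∀ φ : List Bool → ℝ, (∀ g, 0 ≤ φ g) →
    ∃ ms : ℝ, 0 ≤ ms ∧ gf {t | t ∈ WL (L + 16) ∧ t ∈ Fac ({Q | Q ∉ Nz κ C (L - k')} \
      TLf R (PW.mZ (2 ^ L)) (τ * PW.mZ (2 ^ L)) Lam θ ε ms φ)} ≤ ENNReal.ofReal δ * FK L

lemma take_WL' {K : ℕ} {t : List Bool} (ht : t ∈ WL K) (q : ℕ) : t.take q ∈ WL K := by
  refine ⟨SA_take ht.1 q, fun i hi dir => ?_⟩
  rw [List.length_take] at hi
  have h1 : vx oo up (t.take q) i = vx oo up t i := by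
    conv_rhs => rw [← List.take_append_drop q t]
    refine (vx_append ?_).symm
    rw [List.length_take]
    omega
  rw [h1]
  exact ht.2 i (by omega) dir

theorem denL {κ : ℝ} {C : ℕ} (hκ : 0 < κ) (hA : AtypM) : DenL κ C := by
  intro k' δ ε Lam hδ hε hLam
  obtain ⟨C1, hC1, h1⟩ := tip_WL (κ / 4) (by positivity)
  obtain ⟨C2, hC2, h2⟩ := ymassG (κ / 4) (k' + 22) (by positivity)
  obtain ⟨D, hD, h3⟩ := EnsW.ref_up
  obtain ⟨p, hp⟩ : ∃ p : ℝ, p = δ * (κ / 4) / (C1 * C2 * D ^ 16) := ⟨_, rfl⟩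
  have hD0 : 0 < D := by linarith
  have hp0 : 0 < p := by
    rw [hp]
    positivity
  obtain ⟨R, L0, θ, τ, hR, hk, hθ, hτ, hτ1, hA⟩ := hA (κ / 4) k' ε Lam p (by positivity) hε hLam hp0
  refine ⟨R, L0, θ, τ, hR, hk, hθ, hτ, hτ1, fun L hL φ hφ => ?_⟩
  obtain ⟨Ng, hNg, hNc, hA⟩ := hA L hL
  obtain ⟨ms, hms, hA⟩ := hA φ hφ
  refine ⟨ms, hms, ?_⟩
  obtain ⟨b, hb⟩ : ∃ b, b = L - k' := ⟨_, rfl⟩
  rw [← hb] at hNc ⊢
  have hbL : b + (k' + 22) = L + 22 := by omega
  have hU := Ub_pos b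
  set At : Set (List Bool) := {V | V ∈ Ir (R * Ng) ∧ ¬ ∃ gs : List (List Bool), gs.length = R ∧ V = gs.flatten ∧
        Typ (PW.mZ (2 ^ L)) (τ * PW.mZ (2 ^ L)) Lam θ ε ms φ gs} with hAt
  set YB : Set (List Bool) := {Y | Y ∈ SA ∧ rev Y ∈ GT b (κ / 4) ∧ In (2 ^ (b + (k' + 22))) Y} with hYB
  set G : Set (List Bool) := {t | t ∈ WL (L + 16) ∧ t ∈ Fac ({Q | Q ∉ Nz κ C b} \
      TLf R (PW.mZ (2 ^ L)) (τ * PW.mZ (2 ^ L)) Lam θ ε ms φ)} with hG
  have hM : gf {u | ∃ V ∈ At, ∃ B ∈ YB, u = V ++ B} ≤ ENNReal.ofReal p * (ENNReal.ofReal (C2 * Ub b) * Xb b) :=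
    (gf_le_mul fun t ht => ht).trans (mul_le_mul' hA (h2 b))
  have hdc := dc (G := G) (X := WL (L + 16) ∩ GT b (κ / 4)) (Y := fun _ => {u | ∃ V ∈ At, ∃ B ∈ YB, u = V ++ B})
    (M := ENNReal.ofReal p * (ENNReal.ofReal (C2 * Ub b) * Xb b)) (c := ENNReal.ofReal (κ / 4 * Ub b))
    (fun _ _ => hM) (by
      rintro t ⟨htW, X, Q, Y, ht, hQN, hQT⟩
      have h5 : ¬ ∀ X Z Y, Q = X ++ (Z ++ Y) → Y ≠ [] → Z ∉ Zc κ C b := hQN
      push Not at h5
      obtain ⟨X1, Z, Y1, hQ, -, hZ⟩ := h5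
      obtain ⟨S, hS, hSq⟩ := rich_leaves (t := t) (X := X ++ X1) (Y := Y1 ++ Y) hκ (by
        rw [ht, hQ]
        simp only [List.append_assoc]) hZ hNc
      refine ⟨S, ?_, fun q hq => ?_⟩
      · rw [← ENNReal.ofReal_natCast]
        exact ENNReal.ofReal_le_ofReal hS
      · obtain ⟨A, V, B, Z', Z'', e1, e2, hV, hA1, hB1, e3⟩ := hSq q hq
        have hql : q ≤ t.length := by
          rw [e1, ← e2, List.length_append]
          omega
        have et : t.take q = A := by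
          rw [e1, ← e2, List.take_left']
          rfl
        have ed : t.drop q = V ++ B := by
          rw [e1, ← e2, List.drop_left']
          rfl
        refine ⟨hql, ⟨take_WL' htW q, by rw [et]; exact hA1⟩, ?_⟩
        rw [ed]
        refine ⟨V, ⟨hV, ?_⟩, B, ?_, rfl⟩
        · rintro ⟨gs, hgs, hV2, hT⟩
          refine hQT ⟨X1 ++ Z', gs, Z'' ++ Y1, ?_, hgs, hT⟩
          rw [hQ, e3, hV2]
          simp only [List.append_assoc]
        · have eB : t.drop (q + V.length) = B := by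
            rw [← List.drop_drop, ed, List.drop_left']
            rfl
          have hBW : B ∈ WL (L + 16 + 3) := by
            rw [← eB]
            refine NgC.drop_box htW ?_
            have := congrArg List.length ed
            rw [List.length_drop, List.length_append] at this
            omega
          refine ⟨hBW.1, hB1, ?_⟩
          have h6 := SLW.in_WL hBW
          rw [hbL]
          exact h6)
  have hX0 : Xb b ≠ 0 := Xb_ne_zero b
  have hXt : Xb b ≠ ⊤ := Xb_ne_top b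
  have hT := h1 (L + 16) b (by omega)
  have hF : ENNReal.ofReal (Ub (L + 16)) * Xb (L + 16) ^ 2 ≤ ENNReal.ofReal (D ^ 16) * FK L := h3 L 16
  have h6 : ENNReal.ofReal (κ / 4 * Ub b) * gf G ≤ ENNReal.ofReal (κ / 4 * Ub b) * (ENNReal.ofReal δ * FK L) := by
    calc _ ≤ _ := hdc
      _ = (gf (WL (L + 16) ∩ GT b (κ / 4)) * Xb b) * (ENNReal.ofReal p * ENNReal.ofReal (C2 * Ub b)) := by ring
      _ ≤ (ENNReal.ofReal (C1 * Ub (L + 16)) * Xb (L + 16) ^ 2) * (ENNReal.ofReal p * ENNReal.ofReal (C2 * Ub b)) :=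
          mul_le_mul' hT le_rfl
      _ = (ENNReal.ofReal (Ub (L + 16)) * Xb (L + 16) ^ 2) *
          (ENNReal.ofReal C1 * (ENNReal.ofReal p * ENNReal.ofReal (C2 * Ub b))) := by
          rw [ENNReal.ofReal_mul hC1.le]
          ring
      _ ≤ (ENNReal.ofReal (D ^ 16) * FK L) * (ENNReal.ofReal C1 * (ENNReal.ofReal p * ENNReal.ofReal (C2 * Ub b))) :=
          mul_le_mul' hF le_rfl
      _ = ENNReal.ofReal (D ^ 16 * (C1 * (p * (C2 * Ub b)))) * FK L := by
          rw [ENNReal.ofReal_mul (p := D ^ 16) (by positivity), ENNReal.ofReal_mul (p := C1) (by positivity),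
            ENNReal.ofReal_mul (p := p) (by positivity)]
          ring
      _ = ENNReal.ofReal (κ / 4 * Ub b * δ) * FK L := by
          congr 2
          rw [hp]
          field_simp
      _ = _ := by
          rw [ENNReal.ofReal_mul (by positivity)]
          ring
  refine (ENNReal.mul_le_mul_iff_right ?_ ENNReal.ofReal_ne_top).1 h6
  rw [Ne, ENNReal.ofReal_eq_zero, not_le]
  positivity

end NPR

end HexObs
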