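import Pool.Agent.NPR.Defs2
import Pool.Agent.TIP.GeoZ
import Pool.Agent.TIW.Nice
import Pool.Agent.NTA.XDbl

/-!
# NPR, row L4: middles without a factor in `Zc` of the scale `L - k'` are rare (helper44)

From `TimeF` (E0) and `RegZ`: a middle in a small box has many letters; a large middle without a factor in `Zc` is a long
factor in `Nz`.
-/

set_option autoImplicit false

namespace HexObs

namespace NPR

open Finset TS SDN TIW NTA TIP

open scoped ENNReal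

/-- **L4** -/
def NoZ (κ : ℝ) (C : ℕ) : Prop := ∀ (δ : ℝ) (k1 : ℕ), 0 < δ → ∃ k' L0 : ℕ, k1 ≤ k' ∧ k' ≤ L0 ∧ ∀ L, L0 ≤ L →
  gf {t | t ∈ WL (L + 16) ∧ t ∈ Fac (Mid L (ML L) ∩ Nz κ C (L - k'))} ≤ ENNReal.ofReal δ * FK L

/-- the reference mass of the larger boxes -/
lemma FK_addZ : ∃ C : ℝ, 1 ≤ C ∧ ∀ L j : ℕ, FK (L + j) ≤ ENNReal.ofReal (C ^ j) * FK L := by
  obtain ⟨CX, hCX, hX⟩ := XDbl.pow xDbl
  refine ⟨2 * CX ^ 2, by nlinarith [one_le_pow₀ hCX (n := 2)], fun L j => ?_⟩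
  have hU : Ub (L + j) ≤ 2 ^ j * Ub L := NTW.Sc.Ub_shift L j
  have h0 : (0 : ℝ) ≤ CX ^ j := by positivity
  calc FK (L + j) = ENNReal.ofReal (Ub (L + j)) * Xb (L + j) ^ 2 := rfl
    _ ≤ ENNReal.ofReal (2 ^ j * Ub L) * (ENNReal.ofReal (CX ^ j) * Xb L) ^ 2 :=
        mul_le_mul' (ENNReal.ofReal_le_ofReal hU) (pow_le_pow_left' (hX L j) 2)
    _ = ENNReal.ofReal ((2 * CX ^ 2) ^ j) * FK L := by
        unfold FK
        rw [mul_pow, ← ENNReal.ofReal_pow h0, ENNReal.ofReal_mul (by positivity), mul_pow, ENNReal.ofReal_mul (by positivity),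
          ← pow_mul, ← pow_mul, mul_comm 2 j]
        ring

/-- a doubly exponentially small factor beats a power -/
lemma exp_beats {C' c ε : ℝ} (hC : 1 ≤ C') (hc : 0 < c) (hε : 0 < ε) (v k1 : ℕ) : ∃ k' : ℕ, k1 ≤ k' ∧ v ≤ k' ∧
    C' ^ (k' + 16) * (2 : ℝ) ^ (-(c * (2 ^ (k' - v) : ℕ))) ≤ ε := by
  obtain ⟨a, ha⟩ := pow_unbounded_of_one_lt (2 * C') (one_lt_two (α := ℝ))
  have ht := tendsto_pow_const_div_const_pow_of_one_lt 1 (one_lt_two (α := ℝ))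
  have hs := tendsto_pow_atTop_nhds_zero_of_lt_one (by norm_num : (0 : ℝ) ≤ 1 / 2) (by norm_num : (1 / 2 : ℝ) < 1)
  have hpos : 0 < c / (17 * (a + 1) * 2 ^ v) := by positivity
  have e1 := (ht.eventually_lt_const hpos).and (hs.eventually_lt_const hε)
  obtain ⟨n0, hn0⟩ := (e1.and (Filter.eventually_ge_atTop (k1 + v + 1))).exists
  obtain ⟨⟨h1, h2⟩, h3⟩ := hn0
  refine ⟨n0, by omega, by omega, ?_⟩
  have hn1 : (1 : ℝ) ≤ n0 := by exact_mod_cast (show 1 ≤ n0 by omega)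
  rw [pow_one, div_lt_div_iff₀ (by positivity) (by positivity)] at h1
  have h4 : ((2 ^ (n0 - v) : ℕ) : ℝ) * 2 ^ v = 2 ^ n0 := by
    push_cast
    rw [← pow_add]
    congr 1
    omega
  have h5 : (a : ℝ) * (n0 + 16) ≤ c * (2 ^ (n0 - v) : ℕ) := by
    have h2v : (0 : ℝ) < 2 ^ v := by positivity
    have h6 : (a : ℝ) * (n0 + 16) * 2 ^ v ≤ c * (2 ^ (n0 - v) : ℕ) * 2 ^ v := by
      rw [mul_assoc c, h4]
      have h7 : (a : ℝ) * (n0 + 16) ≤ 17 * (a + 1) * n0 := by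
        have ha0 : (0 : ℝ) ≤ a := Nat.cast_nonneg a
        nlinarith
      calc (a : ℝ) * (n0 + 16) * 2 ^ v ≤ 17 * (a + 1) * n0 * 2 ^ v := by gcongr
        _ = n0 * (17 * (a + 1) * 2 ^ v) := by ring
        _ ≤ c * 2 ^ n0 := h1.le
    exact le_of_mul_le_mul_right h6 h2v
  have h8 : (2 : ℝ) ^ (-(c * (2 ^ (n0 - v) : ℕ))) ≤ (2 : ℝ) ^ (-((a : ℝ) * (n0 + 16))) :=
    Real.rpow_le_rpow_of_exponent_le (by norm_num) (by linarith)
  have h9 : (2 : ℝ) ^ (-((a : ℝ) * (n0 + 16))) = ((2 ^ a) ^ (n0 + 16))⁻¹ := by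
    rw [Real.rpow_neg (by norm_num), ← pow_mul, ← Real.rpow_natCast 2 (a * (n0 + 16))]
    push_cast
    rfl
  have hC0 : (0 : ℝ) ≤ C' ^ (n0 + 16) := by positivity
  calc C' ^ (n0 + 16) * (2 : ℝ) ^ (-(c * (2 ^ (n0 - v) : ℕ)))
      ≤ C' ^ (n0 + 16) * ((2 ^ a) ^ (n0 + 16))⁻¹ := by
        rw [← h9]
        exact mul_le_mul_of_nonneg_left h8 hC0
    _ = (C' / 2 ^ a) ^ (n0 + 16) := by rw [div_pow, div_eq_mul_inv]
    _ ≤ (1 / 2) ^ (n0 + 16) := by
        refine pow_le_pow_left₀ (by positivity) ?_ _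
        rw [div_le_div_iff₀ (by positivity) (by norm_num)]
        linarith
    _ ≤ (1 / 2) ^ n0 := pow_le_pow_of_le_one (by norm_num) (by norm_num) (by omega)
    _ ≤ ε := h2.le

/-- **L4**: middles without a factor in `Zc` of the scale `L - k'` are rare -/
theorem noZ {κ : ℝ} {C : ℕ} (hT : TimeF) (hR : RegZ κ C) : NoZ κ C := by
  intro δ k1 hδ
  obtain ⟨CF, hCF, hF⟩ := FK_addZ
  obtain ⟨A, B, hA, hB, hTF⟩ := hT 1
  obtain ⟨C', c, b0, J0, n0, hC', hc, hRZ⟩ := hR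
  have hCF16 : (0 : ℝ) < CF ^ 16 := by positivity
  -- the depth of the small boxes
  obtain ⟨v, hv2, hv⟩ : ∃ v : ℕ, 2 ≤ v ∧ A * B ^ 16 / (2 : ℝ) ^ (1 * v) * CF ^ 16 ≤ δ / 2 := by
    obtain ⟨w, hw⟩ := pow_unbounded_of_one_lt (A * B ^ 16 * CF ^ 16 / (δ / 2)) (one_lt_two (α := ℝ))
    refine ⟨w + 2, by omega, ?_⟩
    rw [div_lt_iff₀ (by positivity)] at hw
    rw [one_mul, div_mul_eq_mul_div, div_le_iff₀ (by positivity)]
    have h1 : (2 : ℝ) ^ w ≤ 2 ^ (w + 2) := pow_le_pow_right₀ (by norm_num) (by omega)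
    nlinarith
  obtain ⟨k', hk1, hk2, hk3⟩ := exp_beats (ε := δ / 2 / CF ^ 16) hC' hc (by positivity) v (k1 + J0 + v + n0)
  refine ⟨k', k' + b0 + v, by omega, by omega, fun L hL => ?_⟩
  have hb : L - k' + (k' + 16) = L + 16 := by omega
  have hn : n0 ≤ 2 ^ (k' - v) := by
    have h1 : n0 < 2 ^ n0 := Nat.lt_two_pow_self
    have h2 : (2 : ℕ) ^ n0 ≤ 2 ^ (k' - v) := Nat.pow_le_pow_right (by norm_num) (by omega)
    omega
  have r1 := hRZ (L - k') (k' + 16) (2 ^ (k' - v)) (by omega) (by omega) hn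
  rw [hb] at r1
  have r2 := hTF (L + 16) L v (by omega) (by omega)
  rw [show L + 16 - L = 16 by omega] at r2
  have hsub : {t | t ∈ WL (L + 16) ∧ t ∈ Fac (Mid L (ML L) ∩ Nz κ C (L - k'))} ⊆
      {t | t ∈ WL (L + 16) ∧ t ∈ Fac {Q | In (2 ^ (L - v)) Q ∧ PW.mZ (2 ^ L) / 8 ≤ (Q.length : ℝ)}} ∪
        {t | t ∈ WL (L + 16) ∧ t ∈ Lz κ C (L - k') (2 ^ (k' - v))} := by
    rintro t ⟨ht, X, Q, Y, rfl, hQ1, hQ2⟩
    by_cases hI : In (2 ^ (L - v)) Q
    · left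
      refine ⟨ht, X, Q, Y, rfl, hI, ?_⟩
      obtain ⟨q1, q2, q3, q4⟩ := hQ1
      have hpos : 0 < PW.mZ (2 ^ L) := PW.mZ_pos Nat.one_le_two_pow
      rcases q4 with q4 | q4
      · rw [q4]
        have : PW.mZ (2 ^ L) ≤ (ML L : ℝ) := Nat.le_ceil _
        linarith
      · exfalso
        have h1 := hn_le_Bl (hI Q.length le_rfl)
        have h2 : (4 : ℤ) * 2 ^ (L - v) ≤ 2 ^ L := by
          have h3 : (2 : ℤ) ^ L = 2 ^ (L - v) * 2 ^ v := by
            rw [← pow_add]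
            congr 1
            omega
          have h4 : (4 : ℤ) ≤ 2 ^ v := by
            calc (4 : ℤ) = 2 ^ 2 := by norm_num
              _ ≤ 2 ^ v := pow_le_pow_right₀ (by norm_num) hv2
          rw [h3, mul_comm]
          exact mul_le_mul_of_nonneg_left h4 (by positivity)
        have h5 : (0 : ℤ) < 2 ^ (L - v) := by positivity
        push_cast at h1
        linarith
    · right
      refine ⟨ht, X, Q, Y, rfl, hQ2, ?_⟩
      have h1 : 2 ^ (k' - v) * 2 ^ (L - k') = 2 ^ (L - v) := by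
        rw [← pow_add]
        congr 1
        omega
      rwa [h1]
  refine (gf_mono hsub).trans ((gf_union_le _ _).trans ?_)
  have hFL := hF L 16
  have s1 : ENNReal.ofReal (A * B ^ 16 / (2 : ℝ) ^ (1 * v)) * FK (L + 16) ≤ ENNReal.ofReal (δ / 2) * FK L := by
    refine (mul_le_mul_right hFL _).trans ?_
    rw [← mul_assoc, ← ENNReal.ofReal_mul (by positivity)]
    exact mul_le_mul' (ENNReal.ofReal_le_ofReal hv) le_rfl
  have s2 : ENNReal.ofReal (C' ^ (k' + 16) * (2 : ℝ) ^ (-(c * (2 ^ (k' - v) : ℕ))) * Ub (L + 16)) * Xb (L + 16) ^ 2 ≤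
      ENNReal.ofReal (δ / 2) * FK L := by
    rw [ENNReal.ofReal_mul (by positivity), mul_assoc]
    show _ * FK (L + 16) ≤ _
    refine (mul_le_mul_right hFL _).trans ?_
    rw [← mul_assoc, ← ENNReal.ofReal_mul (by positivity)]
    refine mul_le_mul' (ENNReal.ofReal_le_ofReal ?_) le_rfl
    rw [le_div_iff₀ hCF16] at hk3
    exact hk3
  calc _ ≤ ENNReal.ofReal (δ / 2) * FK L + ENNReal.ofReal (δ / 2) * FK L := add_le_add (r2.trans s1) (r1.trans s2)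
    _ = ENNReal.ofReal δ * FK L := by
        rw [← add_mul, ← ENNReal.ofReal_add (by positivity) (by positivity)]
        congr 2
        ring

end NPR

end HexObs
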