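import Pool.Agent.TIP.TipXJ

/-!
NPR, rows E3 / E4: one step of the tip lemma for classes of words P with a general class P0 of the remaining words (tipxg
with the words of a box replaced by P0).
-/

set_option autoImplicit false

namespace HexObs

namespace NPR

open Finset TS SDN NTW NTA SIM TIP

open scoped ENNReal

/-- **tipx for a general class of the remaining words** -/
theorem tipxH (η : ℝ) (hη : 0 < η) : ∃ (C : ℝ) (e0 : ℕ), 1 ≤ C ∧ ∀ (P P' P0 Wd : Set (List Bool)) (b e : ℕ) (w M' Mt : ℝ≥0∞),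
    P ⊆ SA → P' ⊆ SA → e0 ≤ e → e + 2 ≤ b →
    (∀ A Z, A ++ Z ∈ P → Z ∈ BU → hgt Z ≤ 2 ^ b → A ∈ P0) →
    (∀ A Z1 Z2, A ++ (Z1 ++ Z2) ∈ P → Z1 ∈ BU → Z2 ∈ BU → hgt (Z1 ++ Z2) ≤ 2 ^ b → Z1 ++ Z2 ∉ Wd → A ++ Z1 ∈ P') →
    gf {Z | Z ∈ BU ∧ hgt Z ≤ 2 ^ b ∧ Z ∈ Wd} ≤ w →
    gf {t | t ∈ SA ∧ ∃ L ∈ P', ∃ x, BX ((2 ^ e : ℕ) : ℤ) x ∧ t = L ++ x} ≤ M' →
    gf (P0 ∩ GT (b - 1) (η / 8)) * Xb (b - 1) ≤ Mt →
    gf (P ∩ GT b η) * Xb b ≤ ENNReal.ofReal (C / Ub b) * (ENNReal.ofReal (Ub e) + w) * Mt + ENNReal.ofReal (C ^ (b - e)) * M' := by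
  obtain ⟨CU, κ0, r0, hCU, hκ0, hUA⟩ := uah6
  obtain ⟨C0, s, hC0, hM3⟩ := m3c
  obtain ⟨CX, hCX, hX⟩ := Xb_pow
  obtain ⟨Y1, hY1⟩ : ∃ Y1 : ℝ, Y1 = 4 / η * CX * (CU + 1) := ⟨_, rfl⟩
  obtain ⟨Y2, hY2⟩ : ∃ Y2 : ℝ, Y2 = 1 / κ0 * CX ^ (s + 1) * C0 := ⟨_, rfl⟩
  have hY1p : 0 ≤ Y1 := by rw [hY1]; positivity
  have hY2p : 0 ≤ Y2 := by rw [hY2]; positivity
  have hq : 0 ≤ (Y2 + 1) * (2 * CX) := by positivity
  refine ⟨Y1 + (Y2 + 1) * (2 * CX) + 1, r0 + s + 1, by linarith,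
    fun P P' P0 Wd b e w M' Mt hP hP' he0 heb hpre0 hpre hw hM' hMt => ?_⟩
  obtain ⟨C, hC⟩ : ∃ C : ℝ, C = Y1 + (Y2 + 1) * (2 * CX) + 1 := ⟨_, rfl⟩
  rw [← hC]
  obtain ⟨b', rfl⟩ : ∃ b', b = b' + 1 := ⟨b - 1, by omega⟩
  rw [Nat.add_sub_cancel] at hMt
  obtain ⟨k, hk⟩ : ∃ k, e = k + (s + 1) := ⟨e - (s + 1), by omega⟩
  have hUe : (0 : ℝ) < Ub e := Ub_pos e
  have hUe' : (0 : ℝ) < UU (2 ^ e) := hUe
  have hUb : (0 : ℝ) < Ub (b' + 1) := Ub_pos (b' + 1)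
  have hr0 : r0 ≤ 2 ^ e := by
    have h1 : r0 < 2 ^ r0 := Nat.lt_two_pow_self
    have h2 : (2 : ℕ) ^ r0 ≤ 2 ^ e := Nat.pow_le_pow_right (by norm_num) (by omega)
    omega
  have hst := step3g (Far6 (2 ^ e)) (P := P) (P' := P') (P0 := P0) (Wd := Wd) (b := b') (η := η) (κ := κ0 * UU (2 ^ e))
    (E := ENNReal.ofReal (CU * UU (2 ^ e))) (w := w) hP hpre0
    hpre hη (by positivity) (fun A => hUA (2 ^ e) hr0 (2 ^ (b' + 1)) A) hw
  have hgl := hM3 P' M' hP' (b' + 1) k (2 ^ e) (by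
      rw [hk, show k + (s + 1) = k + s + 1 by ring, pow_succ]
      have : 1 ≤ 2 ^ (k + s) := Nat.one_le_two_pow
      omega) (by
      have h1 : (4 : ℕ) * 2 ^ e = 2 ^ (e + 2) := by ring
      rw [h1]
      exact Nat.pow_le_pow_right (by norm_num) (by omega)) (by
      refine (gf_mono ?_).trans hM'
      rintro t ⟨h1, L, hL, x, hx, rfl⟩
      refine ⟨h1, L, hL, x, fun i hi dir => (hx i hi dir).trans ?_, rfl⟩
      have h2 : (2 : ℕ) ^ (k + s) ≤ 2 ^ e := Nat.pow_le_pow_right (by norm_num) (by omega)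
      exact_mod_cast h2)
  have hXb1 : Xb (b' + 1) ≤ ENNReal.ofReal CX * Xb b' := by
    have := hX b' 1
    rwa [pow_one] at this
  have hXb2 : Xb (b' + 1) ≤ ENNReal.ofReal (CX ^ (b' + 1 - e + (s + 1))) * Xb k := by
    have := hX k (b' + 1 - e + (s + 1))
    rwa [show k + (b' + 1 - e + (s + 1)) = b' + 1 by omega] at this
  -- the numbers
  have n1 : 4 / (η * Ub (b' + 1)) * CX * (CU + 1) ≤ C / Ub (b' + 1) := by
    have e1 : 4 / (η * Ub (b' + 1)) * CX * (CU + 1) = Y1 / Ub (b' + 1) := by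
      rw [hY1]
      field_simp
    rw [e1]
    gcongr
    rw [hC]
    linarith
  have n2 : Ub (b' + 1) / (κ0 * UU (2 ^ e)) * (CX ^ (b' + 1 - e + (s + 1)) * C0) ≤ C ^ (b' + 1 - e) := by
    obtain ⟨n, hn⟩ : ∃ n, b' + 1 = e + n := ⟨b' + 1 - e, by omega⟩
    have hn1 : 1 ≤ n := by omega
    have hsub : b' + 1 - e = n := by omega
    rw [hsub]
    have h1 : Ub (b' + 1) ≤ 2 ^ n * Ub e := by
      rw [hn]
      exact Ub_steps e n
    have h2 : Ub (b' + 1) / (κ0 * UU (2 ^ e)) ≤ 2 ^ n / κ0 := by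
      show Ub (b' + 1) / (κ0 * Ub e) ≤ _
      rw [div_le_div_iff₀ (by positivity) hκ0]
      nlinarith
    have h3 : 2 ^ n / κ0 * (CX ^ (n + (s + 1)) * C0) = Y2 * (2 * CX) ^ n := by
      rw [hY2, mul_pow, pow_add (a := CX)]
      ring
    have h4 : Y2 * (2 * CX) ^ n ≤ ((Y2 + 1) * (2 * CX)) ^ n := by
      rw [mul_pow (Y2 + 1)]
      have h5 : Y2 ≤ (Y2 + 1) ^ n := by
        calc Y2 ≤ (Y2 + 1) ^ 1 := by linarith
          _ ≤ (Y2 + 1) ^ n := pow_le_pow_right₀ (by linarith) hn1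
      exact mul_le_mul_of_nonneg_right h5 (by positivity)
    have h5 : ((Y2 + 1) * (2 * CX)) ^ n ≤ C ^ n := pow_le_pow_left₀ hq (by rw [hC]; linarith) _
    calc Ub (b' + 1) / (κ0 * UU (2 ^ e)) * (CX ^ (n + (s + 1)) * C0) ≤ 2 ^ n / κ0 * (CX ^ (n + (s + 1)) * C0) :=
          mul_le_mul_of_nonneg_right h2 (by positivity)
      _ ≤ _ := by
          rw [h3]
          linarith
  -- the exceptional part
  have hE : ENNReal.ofReal (CU * UU (2 ^ e)) + w ≤ ENNReal.ofReal (CU + 1) * (ENNReal.ofReal (Ub e) + w) := by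
    rw [mul_add]
    refine add_le_add ?_ ?_
    · rw [← ENNReal.ofReal_mul (by linarith)]
      refine ENNReal.ofReal_le_ofReal ?_
      show CU * Ub e ≤ (CU + 1) * Ub e
      nlinarith
    · calc w = 1 * w := (one_mul w).symm
        _ ≤ ENNReal.ofReal (CU + 1) * w := by
            refine mul_le_mul' ?_ le_rfl
            rw [← ENNReal.ofReal_one]
            exact ENNReal.ofReal_le_ofReal (by linarith)
  calc gf (P ∩ GT (b' + 1) η) * Xb (b' + 1)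
      ≤ (ENNReal.ofReal (4 / (η * Ub (b' + 1))) * (gf (P0 ∩ GT b' (η / 8)) * (ENNReal.ofReal (CU * UU (2 ^ e)) + w)) +
        ENNReal.ofReal (Ub (b' + 1) / (κ0 * UU (2 ^ e))) * gf (FT (Far6 (2 ^ e)) P' (b' + 1))) * Xb (b' + 1) :=
        mul_le_mul_left hst _
    _ = ENNReal.ofReal (4 / (η * Ub (b' + 1))) * (gf (P0 ∩ GT b' (η / 8)) * (ENNReal.ofReal (CU * UU (2 ^ e)) + w)) *
          Xb (b' + 1) +
        ENNReal.ofReal (Ub (b' + 1) / (κ0 * UU (2 ^ e))) * gf (FT (Far6 (2 ^ e)) P' (b' + 1)) * Xb (b' + 1) := add_mul _ _ _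
    _ ≤ ENNReal.ofReal (C / Ub (b' + 1)) * (ENNReal.ofReal (Ub e) + w) * Mt +
        ENNReal.ofReal (C ^ (b' + 1 - e)) * M' := by
        refine add_le_add ?_ ?_
        · calc ENNReal.ofReal (4 / (η * Ub (b' + 1))) *
                (gf (P0 ∩ GT b' (η / 8)) * (ENNReal.ofReal (CU * UU (2 ^ e)) + w)) * Xb (b' + 1)
              ≤ ENNReal.ofReal (4 / (η * Ub (b' + 1))) *
                (gf (P0 ∩ GT b' (η / 8)) * (ENNReal.ofReal (CU + 1) * (ENNReal.ofReal (Ub e) + w))) *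
                (ENNReal.ofReal CX * Xb b') := by gcongr
            _ = ENNReal.ofReal (4 / (η * Ub (b' + 1))) * ENNReal.ofReal CX * ENNReal.ofReal (CU + 1) *
                (ENNReal.ofReal (Ub e) + w) * (gf (P0 ∩ GT b' (η / 8)) * Xb b') := by ring
            _ ≤ ENNReal.ofReal (4 / (η * Ub (b' + 1))) * ENNReal.ofReal CX * ENNReal.ofReal (CU + 1) *
                (ENNReal.ofReal (Ub e) + w) * Mt := mul_le_mul_right hMt _
            _ = ENNReal.ofReal (4 / (η * Ub (b' + 1)) * CX * (CU + 1)) * (ENNReal.ofReal (Ub e) + w) * Mt := by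
                rw [ENNReal.ofReal_mul (show 0 ≤ 4 / (η * Ub (b' + 1)) * CX by positivity),
                  ENNReal.ofReal_mul (show 0 ≤ 4 / (η * Ub (b' + 1)) by positivity)]
            _ ≤ _ := mul_le_mul_left (mul_le_mul_left (ENNReal.ofReal_le_ofReal n1) _) _
        · calc ENNReal.ofReal (Ub (b' + 1) / (κ0 * UU (2 ^ e))) * gf (FT (Far6 (2 ^ e)) P' (b' + 1)) * Xb (b' + 1)
              ≤ ENNReal.ofReal (Ub (b' + 1) / (κ0 * UU (2 ^ e))) * gf (FT (Far6 (2 ^ e)) P' (b' + 1)) *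
                (ENNReal.ofReal (CX ^ (b' + 1 - e + (s + 1))) * Xb k) := mul_le_mul_right hXb2 _
            _ = ENNReal.ofReal (Ub (b' + 1) / (κ0 * UU (2 ^ e))) * ENNReal.ofReal (CX ^ (b' + 1 - e + (s + 1))) *
                (gf (FT (Far6 (2 ^ e)) P' (b' + 1)) * Xb k) := by ring
            _ ≤ ENNReal.ofReal (Ub (b' + 1) / (κ0 * UU (2 ^ e))) * ENNReal.ofReal (CX ^ (b' + 1 - e + (s + 1))) *
                (ENNReal.ofReal C0 * M') := mul_le_mul_right hgl _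
            _ = ENNReal.ofReal (Ub (b' + 1) / (κ0 * UU (2 ^ e)) * (CX ^ (b' + 1 - e + (s + 1)) * C0)) * M' := by
                rw [ENNReal.ofReal_mul (by positivity), ENNReal.ofReal_mul (show 0 ≤ CX ^ (b' + 1 - e + (s + 1)) by positivity)]
                ring
            _ ≤ _ := mul_le_mul_left (ENNReal.ofReal_le_ofReal n2) _

/-- **tipxH with a gap of j scales** -/
theorem tipxHJ (η : ℝ) (hη : 0 < η) : ∃ (C lam : ℝ) (j0 : ℕ), 1 ≤ C ∧ 1 < lam ∧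
    ∀ (b j : ℕ) (P P' P0 Wd : Set (List Bool)) (w : ℝ) (M' Mt : ℝ≥0∞), 1 ≤ j → j + j0 ≤ b → P ⊆ SA → P' ⊆ SA →
    (∀ A Z, A ++ Z ∈ P → Z ∈ BU → hgt Z ≤ 2 ^ b → A ∈ P0) →
    (∀ A Z1 Z2, A ++ (Z1 ++ Z2) ∈ P → Z1 ∈ BU → Z2 ∈ BU → hgt (Z1 ++ Z2) ≤ 2 ^ b → Z1 ++ Z2 ∉ Wd → A ++ Z1 ∈ P') →
    0 ≤ w → gf {Z | Z ∈ BU ∧ hgt Z ≤ 2 ^ b ∧ Z ∈ Wd} ≤ ENNReal.ofReal (w * Ub b) →
    gf {t | t ∈ SA ∧ ∃ L ∈ P', ∃ x, BX ((2 ^ b : ℕ) : ℤ) x ∧ t = L ++ x} ≤ M' →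
    gf (P0 ∩ GT (b - 1) (η / 8)) * Xb (b - 1) ≤ Mt →
    gf (P ∩ GT b η) * Xb b ≤ ENNReal.ofReal (C * ((lam ^ j)⁻¹ + w)) * Mt + ENNReal.ofReal (C ^ j) * M' := by
  obtain ⟨C, e0, hC, h⟩ := tipxH η hη
  obtain ⟨lam, hlam⟩ : ∃ lam : ℝ, lam = (2 : ℝ) ^ kap0 := ⟨_, rfl⟩
  have hlam1 : 1 < lam := by
    rw [hlam]
    exact Real.one_lt_rpow (by norm_num) kap0_pos
  have hC3 : C ≤ C ^ 3 := le_self_pow₀ hC (by norm_num)
  refine ⟨2 * C ^ 3, lam, e0 + 2, by linarith, hlam1, fun b j P P' P0 Wd w M' Mt hj hjb hP hP' h0 h1 hw hW hM' hMt => ?_⟩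
  obtain ⟨e, he⟩ : ∃ e, b = e + (j + 2) := ⟨b - (j + 2), by omega⟩
  have hUb : (0 : ℝ) < Ub b := Ub_pos b
  have hUe : (0 : ℝ) < Ub e := Ub_pos e
  have hl0 : (0 : ℝ) < lam ^ j := by positivity
  have key := h P P' P0 Wd b e (ENNReal.ofReal (w * Ub b)) M' Mt hP hP' (by omega) (by omega) h0 h1 hW
    ((gf_mono (by
      rintro t ⟨a1, L, hL, x, hx, rfl⟩
      refine ⟨a1, L, hL, x, fun i hi dir => (hx i hi dir).trans ?_, rfl⟩
      have h2 : (2 : ℕ) ^ e ≤ 2 ^ b := Nat.pow_le_pow_right (by norm_num) (by omega)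
      exact_mod_cast h2)).trans hM') hMt
  refine key.trans (add_le_add ?_ ?_)
  · rw [← ENNReal.ofReal_add hUe.le (by positivity), ← ENNReal.ofReal_mul (by positivity)]
    refine mul_le_mul_left (ENNReal.ofReal_le_ofReal ?_) _
    have hrat := GB.Ub_ratio_down (show e ≤ b by omega)
    have h2 : (2 : ℝ) ^ (-(kap0 * ((b : ℝ) - e))) ≤ (lam ^ j)⁻¹ := by
      rw [hlam, ← Real.rpow_natCast, ← Real.rpow_mul (by norm_num), ← Real.rpow_neg (by norm_num)]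
      refine Real.rpow_le_rpow_of_exponent_le (by norm_num) ?_
      have : (b : ℝ) = e + (j + 2) := by rw [he]; push_cast; ring
      have := kap0_pos
      nlinarith
    have h3 : Ub e / Ub b ≤ 2 * (lam ^ j)⁻¹ := by linarith
    have e1 : C / Ub b * (Ub e + w * Ub b) = C * (Ub e / Ub b + w) := by
      field_simp
    rw [e1]
    have h4 : 0 < (lam ^ j)⁻¹ := by positivity
    calc C * (Ub e / Ub b + w) ≤ C * (2 * (lam ^ j)⁻¹ + w) := by gcongr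
      _ ≤ C ^ 3 * (2 * (lam ^ j)⁻¹ + 2 * w) := by
          refine mul_le_mul hC3 (by linarith) (by positivity) (by positivity)
      _ = _ := by ring
  · refine mul_le_mul_left (ENNReal.ofReal_le_ofReal ?_) _
    rw [show b - e = j + 2 by omega]
    have h5 : C ^ (j + 2) ≤ (C ^ 3) ^ j := by
      rw [← pow_mul]
      exact pow_le_pow_right₀ hC (by omega)
    exact h5.trans (pow_le_pow_left₀ (by positivity) (by linarith) _)

end NPR

end HexObs
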