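import Pool.Agent.NPR.TwoEnd

/-!
# NPR, row E3 (helper69): two-ended masses with a rare middle part

* **`start_small`** : a class with a small mass, with a good tip;
* **`start_mid`** : words that start with a good start and have a factor in a rare class behind it;
* **`twoE`** : `TwoE`.
-/

set_option autoImplicit false

namespace HexObs

namespace NPR

open Finset TS SDN NTW NTA HexObs.SIM TIP TIW

open scoped ENNReal

/-! ### 6. Classes with a small mass -/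

lemma Xb_growth : ∃ C : ℝ, 1 ≤ C ∧ ∀ b : ℕ, Xb b ≤ ENNReal.ofReal (C ^ (b + 1)) := by
  obtain ⟨D, hD, hx⟩ := Xb_pow
  obtain ⟨X0, hX0, hX0'⟩ : ∃ X0 : ℝ, 0 ≤ X0 ∧ Xb 0 = ENNReal.ofReal X0 :=
    ⟨(Xb 0).toReal, ENNReal.toReal_nonneg, (ENNReal.ofReal_toReal (Xb_ne_top 0)).symm⟩
  refine ⟨D + X0, by linarith, fun b => ?_⟩
  have h1 := hx 0 b
  rw [zero_add, hX0', ← ENNReal.ofReal_mul (by positivity)] at h1
  refine h1.trans (ENNReal.ofReal_le_ofReal ?_)
  rw [pow_succ]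
  have h2 : D ^ b ≤ (D + X0) ^ b := pow_le_pow_left₀ (by linarith) (by linarith) _
  exact mul_le_mul h2 (by linarith) hX0 (by positivity)

/-- the choice of the number of scales -/
lemma pick {B lam δ : ℝ} (hB : 1 ≤ B) (hlam : 1 < lam) (hδ : 0 < δ) (hδ1 : δ ≤ 1) :
    ∃ j : ℕ, B ^ j * δ ≤ (lam ^ j)⁻¹ ∧ (lam ^ j)⁻¹ ≤ lam * δ ^ (Real.log lam / Real.log (B * lam)) := by
  obtain ⟨Y, hYe⟩ : ∃ Y : ℝ, Y = B * lam := ⟨_, rfl⟩
  have hY : 1 < Y := by rw [hYe]; nlinarith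
  have hY0 : 0 < Y := by linarith
  have hlY : 0 < Real.log Y := Real.log_pos hY
  have hll : 0 < Real.log lam := Real.log_pos hlam
  have hl0 : 0 < lam := by linarith
  have h1 : 1 ≤ 1 / δ := by rw [le_div_iff₀ hδ]; linarith
  obtain ⟨j, hj1, hj2⟩ := exists_nat_pow_near h1 hY
  have hl : 0 < lam ^ j := by positivity
  rw [← hYe]
  obtain ⟨c, hc⟩ : ∃ c : ℝ, c = Real.log lam / Real.log Y := ⟨_, rfl⟩
  have hc0 : 0 < c := by rw [hc]; positivity
  rw [← hc]
  refine ⟨j, ?_, ?_⟩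
  · rw [hYe, mul_pow, le_div_iff₀ hδ] at hj1
    rw [← one_div, le_div_iff₀ hl]
    linarith [mul_right_comm (B ^ j) δ (lam ^ j)]
  · have hYc : Y ^ c = lam := by
      rw [Real.rpow_def_of_pos hY0, hc, mul_div_cancel₀ _ hlY.ne', Real.exp_log hl0]
    have e : (Y ^ (j + 1) : ℝ) ^ c = lam ^ (j + 1) := by
      rw [← Real.rpow_natCast Y, ← Real.rpow_mul hY0.le, mul_comm, Real.rpow_mul hY0.le, hYc, Real.rpow_natCast]
    have h2 : (lam ^ (j + 1))⁻¹ ≤ δ ^ c := by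
      rw [← e, ← Real.inv_rpow (by positivity)]
      refine Real.rpow_le_rpow (by positivity) ?_ hc0.le
      rw [div_lt_iff₀ hδ] at hj2
      rw [inv_le_iff_one_le_mul₀ (by positivity)]
      linarith
    calc (lam ^ j)⁻¹ = lam * (lam ^ (j + 1))⁻¹ := by
          rw [pow_succ]
          field_simp
      _ ≤ lam * δ ^ c := mul_le_mul_of_nonneg_left h2 hl0.le

/-- **a class with a small mass, with a good tip** -/
theorem start_small {η : ℝ} (hη : 0 < η) {Q : ℝ} (hQ : 1 ≤ Q) : ∃ C c : ℝ, 0 < C ∧ 0 < c ∧ c ≤ 1 ∧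
    ∀ (K b : ℕ) (P P' : Set (List Bool)) (δ : ℝ), b ≤ K → 0 < δ → δ ≤ 1 → P ⊆ WL K →
    (∀ A Z1 Z2, A ++ (Z1 ++ Z2) ∈ P → Z1 ∈ BU → Z2 ∈ BU → hgt (Z1 ++ Z2) ≤ 2 ^ b → A ++ Z1 ∈ P') →
    gf P ≤ ENNReal.ofReal (Q * δ) * FK K →
    gf {t | t ∈ SA ∧ ∃ L ∈ P', ∃ x, BX ((2 ^ b : ℕ) : ℤ) x ∧ t = L ++ x} ≤ ENNReal.ofReal (Q * δ) * FK K →
    gf (P ∩ GT b η) * Xb b ≤ ENNReal.ofReal (C * δ ^ c) * FK K := by
  obtain ⟨Ct, hCt, ht⟩ := tip_FK hη
  obtain ⟨C1, lam, j0, hC1, hlam, hx⟩ := tipxJ η hη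
  obtain ⟨CX, hCX, hX⟩ := Xb_growth
  have hB : 1 ≤ C1 * CX := by nlinarith
  have hl0 : 0 < lam := by linarith
  have hY : 1 < C1 * CX * lam := by nlinarith
  have hlY : 0 < Real.log (C1 * CX * lam) := Real.log_pos hY
  have hll : 0 < Real.log lam := Real.log_pos hlam
  refine ⟨(Ct + C1 + Q + Q * CX ^ (j0 + 1)) * lam, Real.log lam / Real.log (C1 * CX * lam), by positivity, by positivity, ?_,
    fun K b P P' δ hb hδ hδ1 hP hrem hm hM => ?_⟩
  · rw [div_le_one hlY]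
    refine Real.log_le_log hl0 ?_
    nlinarith
  obtain ⟨j, hj1, hj2⟩ := pick hB hlam hδ hδ1
  obtain ⟨e, he⟩ : ∃ e : ℝ, e = δ ^ (Real.log lam / Real.log (C1 * CX * lam)) := ⟨_, rfl⟩
  rw [← he] at hj2 ⊢
  have he0 : 0 ≤ e := by rw [he]; positivity
  have hj3 : 0 < (lam ^ j)⁻¹ := by positivity
  have hfin : ∀ q : ℝ, q ≤ (Ct + C1 + Q + Q * CX ^ (j0 + 1)) * (lam ^ j)⁻¹ →
      ENNReal.ofReal q * FK K ≤ ENNReal.ofReal ((Ct + C1 + Q + Q * CX ^ (j0 + 1)) * lam * e) * FK K := by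
    intro q hq
    refine mul_le_mul_left (ENNReal.ofReal_le_ofReal ?_) _
    have h1 : (Ct + C1 + Q + Q * CX ^ (j0 + 1)) * (lam ^ j)⁻¹ ≤ (Ct + C1 + Q + Q * CX ^ (j0 + 1)) * (lam * e) :=
      mul_le_mul_of_nonneg_left hj2 (by positivity)
    linarith
  have hQX : 0 < Q * CX ^ (j0 + 1) := by positivity
  have hCCX : ∀ i : ℕ, C1 ^ i ≤ (C1 * CX) ^ i := fun i => pow_le_pow_left₀ (by linarith) (by nlinarith) _
  have hCXX : ∀ i : ℕ, CX ^ i ≤ (C1 * CX) ^ i := fun i => pow_le_pow_left₀ (by linarith) (by nlinarith) _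
  rcases Nat.eq_zero_or_pos j with hj0 | hj0
  · subst hj0
    refine (mul_le_mul_left (gf_mono (Set.inter_subset_inter_left _ hP)) _).trans ((ht K b hb).trans (hfin _ ?_))
    rw [pow_zero, inv_one, mul_one]
    linarith
  · rcases Nat.lt_or_ge b (j + j0) with hbj | hbj
    · calc gf (P ∩ GT b η) * Xb b ≤ (ENNReal.ofReal (Q * δ) * FK K) * ENNReal.ofReal (CX ^ (b + 1)) :=
            mul_le_mul' ((gf_mono Set.inter_subset_left).trans hm) (hX b)
        _ = ENNReal.ofReal (Q * δ * CX ^ (b + 1)) * FK K := by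
            rw [ENNReal.ofReal_mul (by positivity : 0 ≤ Q * δ)]
            ring
        _ ≤ _ := hfin _ ?_
      have h1 : CX ^ (b + 1) ≤ CX ^ (j0 + 1) * CX ^ j := by
        rw [← pow_add]
        exact pow_le_pow_right₀ hCX (by omega)
      have h2 := hCXX j
      have h3 : Q * δ * CX ^ (b + 1) ≤ Q * CX ^ (j0 + 1) * ((C1 * CX) ^ j * δ) := by
        calc Q * δ * CX ^ (b + 1) ≤ Q * δ * (CX ^ (j0 + 1) * (C1 * CX) ^ j) := by
              refine mul_le_mul_of_nonneg_left (h1.trans (mul_le_mul_of_nonneg_left h2 (by positivity))) (by positivity)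
          _ = _ := by ring
      have h4 : Q * CX ^ (j0 + 1) * ((C1 * CX) ^ j * δ) ≤ Q * CX ^ (j0 + 1) * (lam ^ j)⁻¹ :=
        mul_le_mul_of_nonneg_left hj1 hQX.le
      have h5 : 0 ≤ (Ct + C1 + Q) * (lam ^ j)⁻¹ := by positivity
      nlinarith
    · have h1 := hx b j K P P' ∅ 0 _ hj0 hbj hb hP (fun A Z1 Z2 a1 a2 a3 a4 _ => hrem A Z1 Z2 a1 a2 a3 a4) le_rfl (by
        have e0 : {Z : List Bool | Z ∈ BU ∧ hgt Z ≤ 2 ^ b ∧ Z ∈ (∅ : Set (List Bool))} = ∅ := by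
          ext Z
          exact ⟨fun h => h.2.2, fun h => h.elim⟩
        rw [e0]
        unfold gf
        rw [tsum_empty]
        exact zero_le) hM
      refine h1.trans ?_
      have e1 : ENNReal.ofReal (C1 * ((lam ^ j)⁻¹ + 0) * Ub K) * Xb K ^ 2 = ENNReal.ofReal (C1 * (lam ^ j)⁻¹) * FK K := by
        rw [add_zero, ENNReal.ofReal_mul (by positivity), mul_assoc]
        rfl
      rw [e1, ← mul_assoc, ← ENNReal.ofReal_mul (by positivity), ← add_mul, ← ENNReal.ofReal_add (by positivity) (by positivity)]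
      refine hfin _ ?_
      have h2 : C1 ^ j * (Q * δ) ≤ Q * (lam ^ j)⁻¹ := by
        calc C1 ^ j * (Q * δ) ≤ (C1 * CX) ^ j * (Q * δ) := mul_le_mul_of_nonneg_right (hCCX j) (by positivity)
          _ = Q * ((C1 * CX) ^ j * δ) := by ring
          _ ≤ _ := mul_le_mul_of_nonneg_left hj1 (by linarith)
      have h5 : 0 ≤ (Ct + Q * CX ^ (j0 + 1)) * (lam ^ j)⁻¹ := by positivity
      nlinarith

/-! ### 7. Words with a good start and a factor in a rare class behind it -/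

lemma rev_ne {Y : List Bool} (hY : Y ≠ []) : rev Y ≠ [] := by
  intro h
  apply hY
  rw [← rev_rev Y, h]
  rfl

lemma drop_one_app {A B : List Bool} (hA : A ≠ []) : (A ++ B).drop 1 = A.drop 1 ++ B := by
  cases A with
  | nil => exact absurd rfl hA
  | cons a A => rfl

lemma DW_pre {D : ℤ} {A Z : List Bool} (h : A ++ Z ∈ DW D) : A ∈ DW D := by
  refine ⟨?_, fun i j hi hj => ?_⟩
  · have := SA_take h.1 A.length
    rwa [List.take_left'] at this
    rfl
  · have := h.2 i j (by rw [List.length_append]; omega) (by rw [List.length_append]; omega)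
    rwa [vx_append (by omega), vx_append (by omega)] at this

/-- a reversed word that is self-avoiding -/
lemma DW_revB {D : ℤ} {t : List Bool} (ht : t ∈ DW D) (hr : rev t ∈ SA) : rev t ∈ DW (D + 2) := by
  obtain ⟨c, hc, hf⟩ := RevM.rev_frame t
  have hd0 : ∀ d ∈ dirs, hn d = 2 := by decide
  have hd : hn (dx up t t.length) = 2 := hd0 _ (dx_mem up_dirs t t.length)
  have e : vx oo up t (t.length + 1) = vx oo up t t.length + dx up t t.length := rfl
  have hD : 0 ≤ D := (hn_nonneg _).trans (ht.2 0 0 (Nat.zero_le _) (Nat.zero_le _))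
  have key : ∀ i, i ≤ t.length → hn (vx oo up t i - vx oo up t (t.length + 1)) ≤ D + 2 := by
    intro i hi
    have h1 := ht.2 i t.length hi le_rfl
    have h2 := hn_tri (vx oo up t i) (vx oo up t t.length) (vx oo up t (t.length + 1))
    have h3 : hn (vx oo up t t.length - vx oo up t (t.length + 1)) = 2 := by
      rw [e, sub_add_cancel_left, hn_neg, hd]
    linarith
  refine ⟨hr, fun i j hi hj => ?_⟩
  rw [rev_length] at hi hj
  have h1 := hf i (by omega)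
  have h2 := hf j (by omega)
  have h3 : hn (vx oo up t (t.length + 1 - i) - vx oo up t (t.length + 1 - j)) ≤ D + 2 := by
    rcases Nat.eq_zero_or_pos i with h0 | h0
    · rw [h0, Nat.sub_zero, hn_sub_comm]
      rcases Nat.eq_zero_or_pos j with h0' | h0'
      · rw [h0', Nat.sub_zero, sub_self]
        have : hn (0 : Pt) = 0 := by decide
        rw [this]
        linarith
      · exact key _ (by omega)
    · rcases Nat.eq_zero_or_pos j with h0' | h0'
      · rw [h0', Nat.sub_zero]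
        exact key _ (by omega)
      · have := ht.2 (t.length + 1 - i) (t.length + 1 - j) (by omega) (by omega)
        linarith
  rw [h1, h2, add_sub_add_left_eq_sub, ← mulE_sub, hn_mulE (mem_dirs.1 hc)] at h3
  exact h3

/-- the tip frame at the end of a low bridge -/
lemma lv_low {A Z : List Bool} (hZ : Z ∈ BU) {i : ℕ} (h1 : A.length ≤ i) (h2 : i ≤ (A ++ Z).length) :
    -(3 * (hgt Z : ℤ)) ≤ lv (TIP.fr (A ++ Z) (vx oo up (A ++ Z) i)) := by
  obtain ⟨k, rfl⟩ : ∃ k, i = A.length + k := ⟨i - A.length, by omega⟩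
  rw [List.length_append] at h2
  have gZ := mem_Brd.1 (TIP.BU_hgt hZ)
  rw [lv_fr_app A Z hZ, fr_front, lv_vx]
  rcases Nat.eq_zero_or_pos k with h0 | h0
  · rw [h0, lev_zero]
    omega
  · have := gZ.1 k h0 (by omega)
    omega

/-- the reversed words with the rare factor and the good start at the tip -/
def PQ (η : ℝ) (D b : ℕ) (QQ : Set (List Bool)) (D0 : ℤ) : Set (List Bool) :=
  {L | L ∈ DW D0 ∧ ∃ S ∈ GS η D b, ∃ Y ∈ Fac QQ, Y ≠ [] ∧ L = (rev Y).drop 1 ++ rev S}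

/-- without the start -/
def PR (QQ : Set (List Bool)) (D0 : ℤ) : Set (List Bool) :=
  {L | L ∈ DW D0 ∧ ∃ Y ∈ Fac QQ, Y ≠ [] ∧ ∃ W : List Bool, W ≠ [] ∧ L = (rev Y).drop 1 ++ W}

lemma rev_BU' {η : ℝ} {D b : ℕ} (hb : b ≠ 0) {S : List Bool} (hS : S ∈ GS η D b) : rev S ∈ BU ∧ 2 ^ (b + 1) ≤ hgt (rev S) := by
  obtain ⟨N, Z3, rfl, h1, h2, h3, h4, h5⟩ := GS_spl hb hS
  rw [TD.rev_append']
  refine ⟨BU_app (BU_rev h2) (BU_rev h1), ?_⟩
  rw [hgt_app (BU_rev h2) (BU_rev h1), hgt_eq (Brd_rev (TIP.BU_hgt h2))]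
  omega

/-- the removal of a low bridge leaves the rare factor -/
lemma PQ_rem {η : ℝ} {D b : ℕ} {QQ : Set (List Bool)} {D0 : ℤ} (hb : b ≠ 0) {A Z1 Z2 : List Bool}
    (h : A ++ (Z1 ++ Z2) ∈ PQ η D b QQ D0) (h1 : Z1 ∈ BU) (h2 : Z2 ∈ BU) (hh : hgt (Z1 ++ Z2) ≤ 2 ^ b) :
    A ++ Z1 ∈ PR QQ D0 := by
  obtain ⟨hD, S, hS, Y, hY, hY0, he⟩ := h
  obtain ⟨hB, hBh⟩ := rev_BU' hb hS
  have hZ : Z1 ++ Z2 ∈ BU := BU_app h1 h2
  obtain ⟨U, hU⟩ : ∃ U, U = (rev Y).drop 1 := ⟨_, rfl⟩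
  rw [← hU] at he
  have hlt : U.length < A.length := by
    by_contra hcon
    push Not at hcon
    have a1 := lv_low (A := A) hZ (i := U.length) hcon (by rw [he, List.length_append]; omega)
    rw [he, lv_fr_app U (rev S) hB, vx_append (by omega)] at a1
    have h4 : TIP.fr U (vx oo up U U.length) = 0 := by
      unfold TIP.fr tipv
      rw [sub_self]
      unfold mulE
      ext <;> simp
    have h5 : lv (0 : Pt) = 0 := by
      rw [lv_ip]
      unfold ip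
      simp
    rw [h4, h5] at a1
    have h6 : (hgt (Z1 ++ Z2) : ℤ) ≤ 2 ^ b := by exact_mod_cast hh
    have h7 : (2 : ℤ) ^ (b + 1) ≤ hgt (rev S) := by exact_mod_cast hBh
    have h8 : (2 : ℤ) ^ (b + 1) = 2 * 2 ^ b := by rw [pow_succ]; ring
    have h9 : (1 : ℤ) ≤ 2 ^ b := one_le_pow₀ (by norm_num)
    omega
  obtain ⟨W, hW, -⟩ := pre_eq he hlt.le
  have hW0 : W ≠ [] := by
    rintro rfl
    rw [hW, List.append_nil] at hlt
    exact lt_irrefl _ hlt
  refine ⟨?_, Y, hY, hY0, W ++ Z1, by simp [hW0], ?_⟩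
  · rw [← List.append_assoc] at hD
    exact DW_pre hD
  · rw [← hU, hW, List.append_assoc]

/-- the words that are left, back -/
lemma PR_back {QQ : Set (List Bool)} {D1 : ℤ} {t Y W : List Bool} (ht : t ∈ DW D1) (hY : Y ∈ Fac QQ) (hY0 : Y ≠ [])
    (hW : W ≠ []) (he : t = (rev Y).drop 1 ++ W) : t ≠ [] ∧ ∃ x, (rev t).drop 1 ++ [x] ∈ DW D1 ∩ Fac QQ := by
  have ht0 : t ≠ [] := by
    rw [he]
    simp [hW]
  refine ⟨ht0, ?_⟩
  obtain ⟨Y0, x, rfl⟩ : ∃ Y0 x, Y = Y0 ++ [x] := ⟨Y.dropLast, Y.getLast hY0, (List.dropLast_append_getLast hY0).symm⟩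
  have e1 : (rev (Y0 ++ [x])).drop 1 = rev Y0 := by
    rw [TD.rev_append']
    rfl
  rw [e1] at he
  refine ⟨x, DW_rev' ht ht0 x, ?_⟩
  have e2 : (rev t).drop 1 ++ [x] = (rev W).drop 1 ++ (Y0 ++ [x]) := by
    rw [he, TD.rev_append', rev_rev, drop_one_app (rev_ne hW), List.append_assoc]
  rw [e2]
  obtain ⟨X, Q, R, h1, h2⟩ := hY
  exact ⟨(rev W).drop 1 ++ X, Q, R, by rw [h1, List.append_assoc], h2⟩

/-- **words with a good start and a factor in a rare class behind it** -/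
theorem start_mid {η : ℝ} (D : ℕ) (hη : 0 < η) : ∃ C c : ℝ, 0 < C ∧ 0 < c ∧ c ≤ 1 ∧
    ∀ (K b : ℕ) (QQ : Set (List Bool)) (δ : ℝ), b ≤ K → 0 < δ → δ ≤ 1 →
    gf {t | t ∈ WL (K + 4) ∧ t ∈ Fac QQ} ≤ ENNReal.ofReal δ * FK K →
    gf {w | w ∈ WL K ∧ ∃ S ∈ GS η D b, ∃ Y ∈ Fac QQ, w = S ++ Y} * xw b ≤ ENNReal.ofReal (C * δ ^ c) * FK K := by
  have hxc := xc_pos
  have hxc1 := B2b_xc_le_one
  have hQ : 1 ≤ 3 / xc := by rw [le_div_iff₀ hxc]; linarith
  obtain ⟨C, c, hC, hc, hc1, h⟩ := start_small hη hQ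
  obtain ⟨B, hB, hup⟩ := TE_up
  refine ⟨1 + 4 * (C * B ^ 3), c, by positivity, hc, hc1, fun K b QQ δ hb hδ hδ1 hN => ?_⟩
  have hδc : δ ≤ δ ^ c := by
    have := Real.rpow_le_rpow_of_exponent_ge hδ hδ1 hc1
    rwa [Real.rpow_one] at this
  have hδc0 : 0 < δ ^ c := Real.rpow_pos_of_pos hδ _
  have hK1 : (1 : ℤ) ≤ 2 ^ K := one_le_pow₀ (by norm_num)
  have hK3 : (2 : ℤ) ^ (K + 3) = 8 * 2 ^ K := by rw [pow_add]; ring
  have hK4 : (2 : ℤ) ^ (K + 4) = 16 * 2 ^ K := by rw [pow_add]; ring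
  -- the final step
  have hfin : ∀ A : Set (List Bool), ∀ P P' : Set (List Bool), P ⊆ WL (K + 3) →
      (∀ A Z1 Z2, A ++ (Z1 ++ Z2) ∈ P → Z1 ∈ BU → Z2 ∈ BU → hgt (Z1 ++ Z2) ≤ 2 ^ b → A ++ Z1 ∈ P') →
      gf P ≤ ENNReal.ofReal (3 / xc * δ) * FK K →
      gf {t | t ∈ SA ∧ ∃ L ∈ P', ∃ x, BX ((2 ^ b : ℕ) : ℤ) x ∧ t = L ++ x} ≤ ENNReal.ofReal (3 / xc * δ) * FK K →
      gf A ≤ 4 * gf (P ∩ GT b η) → gf A * Xb b ≤ ENNReal.ofReal ((1 + 4 * (C * B ^ 3)) * δ ^ c) * FK K := by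
    intro A P P' hP hrem hm hM hA
    have h1 := h (K + 3) b P P' δ (by omega) hδ hδ1 hP hrem (hm.trans (mul_le_mul_right (TE_mono (by omega)) _))
      (hM.trans (mul_le_mul_right (TE_mono (by omega)) _))
    calc gf A * Xb b ≤ 4 * gf (P ∩ GT b η) * Xb b := mul_le_mul_left hA _
      _ = 4 * (gf (P ∩ GT b η) * Xb b) := by ring
      _ ≤ 4 * (ENNReal.ofReal (C * δ ^ c) * (ENNReal.ofReal (B ^ 3) * FK K)) :=
          mul_le_mul_right (h1.trans (mul_le_mul_right (hup K 3) _)) _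
      _ = ENNReal.ofReal (4 * (C * B ^ 3) * δ ^ c) * FK K := by
          rw [← mul_assoc, ← mul_assoc, show (4 : ℝ≥0∞) = ENNReal.ofReal 4 by simp, ← ENNReal.ofReal_mul (by norm_num),
            ← ENNReal.ofReal_mul (by positivity)]
          congr 2
          ring
      _ ≤ _ := mul_le_mul_left (ENNReal.ofReal_le_ofReal (by nlinarith)) _
  by_cases hb0 : b = 0
  · have e : xw b = 1 := by
      unfold xw
      rw [if_pos hb0]
    rw [e, mul_one]
    refine (gf_mono ?_).trans (hN.trans (mul_le_mul_left (ENNReal.ofReal_le_ofReal ?_) _))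
    · rintro w ⟨hw, S, hS, Y, ⟨X, Q, R, rfl, hQ⟩, rfl⟩
      refine ⟨⟨hw.1, fun i hi dir => (hw.2 i hi dir).trans (pow_le_pow_right₀ (by norm_num) (by omega))⟩, S ++ X, Q, R, ?_, hQ⟩
      rw [List.append_assoc]
    · have : 0 ≤ 4 * (C * B ^ 3) * δ ^ c := by positivity
      linarith
  · have e : xw b = Xb b := by
      unfold xw
      rw [if_neg hb0]
    rw [e]
    obtain ⟨D0, hD0⟩ : ∃ D0 : ℤ, D0 = 12 * 2 ^ K + 8 := ⟨_, rfl⟩
    by_cases hnil : ([] : List Bool) ∈ QQ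
    · -- every word has a factor in QQ
      have hall : ∀ t : List Bool, t ∈ Fac QQ := fun t => ⟨[], [], t, rfl, hnil⟩
      have hNW : gf (WL (K + 4)) ≤ ENNReal.ofReal δ * FK K := by
        refine (gf_mono ?_).trans hN
        intro t ht
        exact ⟨ht, hall t⟩
      have hNQ : ENNReal.ofReal δ * FK K ≤ ENNReal.ofReal (3 / xc * δ) * FK K :=
        mul_le_mul_left (ENNReal.ofReal_le_ofReal (by nlinarith)) _
      refine hfin _ (DW (D0 + 2)) (DW (D0 + 2)) (fun t ht => DW_WL (by rw [hD0, hK3]; linarith) ht)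
        (fun A Z1 Z2 a1 _ _ _ => by
          rw [← List.append_assoc] at a1
          exact DW_pre a1)
        ((gf_mono fun t ht => DW_WL (by rw [hD0, hK4]; linarith) ht).trans (hNW.trans hNQ)) ((gf_mono ?_).trans (hNW.trans hNQ)) ?_
      · rintro t ⟨a1, L, hL, x, hx, rfl⟩
        refine DW_WL ?_ (DW_glue (D := D0 + 2) (b := b) (K := K) (by rw [hD0]; linarith) hb hL hx a1)
        rw [hD0, hK4]
        linarith
      · have hcov : {w | w ∈ WL K ∧ ∃ S ∈ GS η D b, ∃ Y ∈ Fac QQ, w = S ++ Y} ⊆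
            {w | rev w ∈ DW (D0 + 2) ∩ GT b η} ∪ {w | w ∈ WL K ∧ rev w ∈ GT b η ∧ rev w ∉ BU} := by
          rintro w ⟨hw, S, hS, Y, -, rfl⟩
          by_cases hB : rev (S ++ Y) ∈ BU
          · exact Or.inl ⟨DW_revB (hD0 ▸ WL_DW hw) (RevM.BU_SA hB), GS_rev hb0 hS Y⟩
          · exact Or.inr ⟨hw, GS_rev hb0 hS Y, hB⟩
        have k1 : gf {w | rev w ∈ DW (D0 + 2) ∩ GT b η} = gf (DW (D0 + 2) ∩ GT b η) := TD.gf_rev_eq _
        have k2 : gf {w | w ∈ WL K ∧ rev w ∈ GT b η ∧ rev w ∉ BU} ≤ 3 * gf (DW (D0 + 2) ∩ GT b η) := by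
          refine gf_rev1 ?_
          rintro w ⟨a1, a2, a3⟩
          refine ⟨DW_mono (by linarith) (DW_rev (hD0 ▸ WL_DW a1)), ?_⟩
          have a4 : η * Ub b ≤ ((cs b (rev w)).card : ℝ) := a2
          have a5 : ((cs b (rev w)).card : ℝ) ≤ ((cs b ((rev w).drop 1)).card : ℝ) := by exact_mod_cast RevM.cs_drop a3
          exact a4.trans a5
        refine (gf_mono hcov).trans ((gf_union_le _ _).trans ?_)
        rw [k1]
        refine (add_le_add_right k2 _).trans (le_of_eq ?_)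
        ring
    · -- no empty word in QQ
      have hne : ∀ Y : List Bool, Y ∈ Fac QQ → Y ≠ [] := by
        rintro Y ⟨X, Q, R, h1, h2⟩ rfl
        have h3 := List.append_eq_nil_iff.1 h1.symm
        have h4 := List.append_eq_nil_iff.1 h3.2
        rw [h4.1] at h2
        exact hnil h2
      have hglue : gf {t | t ∈ SA ∧ ∃ L ∈ PR QQ D0, ∃ x, BX ((2 ^ b : ℕ) : ℤ) x ∧ t = L ++ x} ≤
          ENNReal.ofReal (3 / xc * δ) * FK K := by
        have h1 : gf {t | t ∈ SA ∧ ∃ L ∈ PR QQ D0, ∃ x, BX ((2 ^ b : ℕ) : ℤ) x ∧ t = L ++ x} ≤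
            ENNReal.ofReal (3 / xc) * gf {t | t ∈ WL (K + 4) ∧ t ∈ Fac QQ} := by
          refine gf_rev2 ?_
          rintro t ⟨a1, L, ⟨hL, Y, hY, hY0, W, hW, rfl⟩, x, hx, rfl⟩
          have a2 := DW_glue (D := D0) (b := b) (K := K) (by rw [hD0]) hb hL hx a1
          obtain ⟨a3, y, a4, a5⟩ := PR_back a2 hY hY0 (W := W ++ x) (by simp [hW]) (by rw [List.append_assoc])
          refine ⟨a3, y, DW_WL ?_ a4, a5⟩
          rw [hD0, hK4]
          linarith
        refine h1.trans ((mul_le_mul_right hN _).trans (le_of_eq ?_))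
        rw [← mul_assoc, ← ENNReal.ofReal_mul (by positivity)]
      refine hfin _ (PQ η D b QQ D0) (PR QQ D0) (fun t ht => DW_WL (by rw [hD0, hK3]; linarith) ht.1)
        (fun A Z1 Z2 a1 a2 a3 a4 => PQ_rem hb0 a1 a2 a3 a4) ((gf_mono ?_).trans hglue) hglue ?_
      · rintro L ⟨hL, S, hS, Y, hY, hY0, rfl⟩
        have hS0 : rev S ≠ [] := by
          intro h0
          have h1 := (rev_BU' hb0 hS).2
          have h2 : hgt (rev S) = 0 := by
            rw [h0]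
            exact hgt_nil
          have h3 : 1 ≤ 2 ^ (b + 1) := Nat.one_le_two_pow
          omega
        refine ⟨hL.1, _, ⟨hL, Y, hY, hY0, rev S, hS0, rfl⟩, [], fun i hi dir => ?_, by rw [List.append_nil]⟩
        have hi0 : i = 0 := by
          rw [List.length_nil] at hi
          omega
        rw [hi0]
        have h4 : row dir (vx oo up [] 0) = 0 := by
          show row dir oo = 0
          cases dir <;> decide
        rw [h4, abs_zero]
        positivity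
      · refine (gf_rev1 (B := PQ η D b QQ D0 ∩ GT b η) ?_).trans (mul_le_mul_left (by norm_num) _)
        rintro w ⟨hw, S, hS, Y, hY, rfl⟩
        have e1 : (rev (S ++ Y)).drop 1 = (rev Y).drop 1 ++ rev S := by
          rw [TD.rev_append', drop_one_app (rev_ne (hne Y hY))]
        refine ⟨⟨DW_rev (hD0 ▸ WL_DW hw), S, hS, Y, hY, hne Y hY, e1⟩, ?_⟩
        rw [e1]
        refine GT_left ?_
        have := GS_rev hb0 hS []
        rwa [List.append_nil] at this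

/-- **E3** -/
theorem twoE : TwoE := by
  intro η D hη
  obtain ⟨C, c, hC, hc, hc1, h⟩ := start_mid D hη
  obtain ⟨C2, hC2, h2⟩ := end_SV hη
  obtain ⟨B, hB, hup⟩ := TE_up
  have hB3 : 1 ≤ B ^ 3 := one_le_pow₀ hB
  refine ⟨(C2 + 1) * (C * B ^ 3), c, by positivity, hc, fun K QQ δ hδ hδ1 hN b b' hb hb' => ?_⟩
  obtain ⟨M, hM⟩ : ∃ M : ℝ≥0∞, M = gf {w | w ∈ WL (K + 3) ∧ ∃ S ∈ GS η D b, ∃ Y ∈ Fac QQ, w = S ++ Y} := ⟨_, rfl⟩
  have hMx : M * xw b ≤ ENNReal.ofReal (C * B ^ 3 * δ ^ c) * FK K := by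
    have h3 := h (K + 3) b QQ δ (by omega) hδ hδ1 ((gf_mono ?_).trans (hN.trans (mul_le_mul_right (TE_mono (by omega)) _)))
    · rw [hM]
      refine h3.trans ((mul_le_mul_right (hup K 3) _).trans (le_of_eq ?_))
      rw [← mul_assoc, ← ENNReal.ofReal_mul (by positivity)]
      congr 2
      ring
    · rintro t ⟨ht, hf⟩
      exact ⟨⟨ht.1, fun i hi dir => (ht.2 i hi dir).trans (pow_le_pow_right₀ (by norm_num) (by omega))⟩, hf⟩
  have hδc0 : 0 < δ ^ c := Real.rpow_pos_of_pos hδ _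
  have key : gf (PCQ η D K b b' QQ) * xw b' ≤ ENNReal.ofReal (C2 + 1) * M := by
    by_cases hb0 : b' = 0
    · have e : xw b' = 1 := by
        unfold xw
        rw [if_pos hb0]
      rw [e, mul_one]
      calc gf (PCQ η D K b b' QQ) ≤ 1 * M := by
            rw [one_mul, hM]
            refine gf_mono ?_
            rintro p ⟨hp, S, hS, R, Q, hQ, R', T, -, rfl⟩
            exact ⟨⟨hp.1, fun i hi dir => (hp.2 i hi dir).trans (pow_le_pow_right₀ (by norm_num) (by omega))⟩, S, hS,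
              R ++ (Q ++ (R' ++ T)), ⟨R, Q, R' ++ T, rfl, hQ⟩, rfl⟩
        _ ≤ ENNReal.ofReal (C2 + 1) * M := by
            refine mul_le_mul_left ?_ _
            rw [← ENNReal.ofReal_one]
            exact ENNReal.ofReal_le_ofReal (by linarith)
    · have e : xw b' = Xb b' := by
        unfold xw
        rw [if_neg hb0]
      rw [e]
      obtain ⟨VV, hVV⟩ : ∃ VV : Set (List Bool), VV = {V | ∃ S ∈ GS η D b, ∃ R : List Bool, ∃ Q ∈ QQ, V = S ++ (R ++ Q)} := ⟨_, rfl⟩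
      have h3 := h2 VV K b' M hb' (by
        rw [hM]
        refine gf_mono ?_
        rintro w ⟨hw, V, hV, R', rfl⟩
        rw [hVV] at hV
        obtain ⟨S, hS, R, Q, hQ, rfl⟩ := hV
        exact ⟨hw, S, hS, R ++ (Q ++ R'), ⟨R, Q, R', rfl, hQ⟩, by simp only [List.append_assoc]⟩)
      refine (mul_le_mul_left (gf_mono ?_) _).trans (h3.trans (mul_le_mul_left (ENNReal.ofReal_le_ofReal (by linarith)) _))
      rintro p ⟨hp, S, hS, R, Q, hQ, R', T, hT, rfl⟩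
      have e1 : S ++ (R ++ (Q ++ (R' ++ T))) = (S ++ (R ++ Q)) ++ (R' ++ T) := by simp only [List.append_assoc]
      rw [e1] at hp ⊢
      exact end_mem hb0 (hVV ▸ ⟨S, hS, R, Q, hQ, rfl⟩) hT hp
  calc gf (PCQ η D K b b' QQ) * (xw b * xw b') = gf (PCQ η D K b b' QQ) * xw b' * xw b := by ring
    _ ≤ ENNReal.ofReal (C2 + 1) * M * xw b := mul_le_mul_left key _
    _ = ENNReal.ofReal (C2 + 1) * (M * xw b) := by ring
    _ ≤ ENNReal.ofReal (C2 + 1) * (ENNReal.ofReal (C * B ^ 3 * δ ^ c) * FK K) := mul_le_mul_right hMx _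
    _ = _ := by
        rw [← mul_assoc, ← ENNReal.ofReal_mul (by linarith)]
        congr 2
        ring

end NPR

end HexObs
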