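import Pool.Agent.NPR.Clk

/-!
# NPR, row K9 (helper69): if the laws converge, then the size is regularly varying, I: the analysis

* `Vr ρ γ` : mean number of pieces of the diameters in `[ρ, 2 ρ]` of the curve;
* `RegSt` : the law of large numbers for the clock with one constant for two numbers of steps;
* `RegSt.reg` : if `RegSt` and the laws converge, then `size (b k) / size (a k) → λ ^ (3 / 4)` as `b k / a k → λ`.
-/

set_option autoImplicit false

open Set Filter Topology MeasureTheory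
open scoped ENNReal

namespace Pool.Agent.NPR

open Pool.Agent.NTS.Res

namespace Reg

/-- mean number of pieces of the curve -/
noncomputable def Vr (ρ : ℝ) (γ : C(unitInterval, ℂ)) : ℝ := vb ρ γ 1 / ρ

lemma Vr_int {ρ : ℝ} (hρ : 0 < ρ) (γ : C(unitInterval, ℂ)) :
    Vr ρ γ = ∫ x in (1 : ℝ)..2, (pcs (ρ * x) γ 0 1 : ℝ) := by
  unfold Vr vb
  rw [intervalIntegral.integral_comp_mul_left (fun s => (pcs s γ 0 1 : ℝ)) hρ.ne', smul_eq_mul, mul_one,
    mul_comm ρ 2, div_eq_inv_mul]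

lemma Vr_anti {ρ ρ' : ℝ} (hρ : 0 < ρ) (h : ρ ≤ ρ') (γ : C(unitInterval, ℂ)) : Vr ρ' γ ≤ Vr ρ γ := by
  have hρ' : 0 < ρ' := hρ.trans_le h
  have hint : ∀ {σ : ℝ}, 0 < σ → IntervalIntegrable (fun x => (pcs (σ * x) γ 0 1 : ℝ)) volume 1 2 := by
    intro σ hσ
    have h1 := (pcs_int γ 1 hσ (show σ ≤ σ * 2 by linarith)).comp_mul_left (c := σ)
    rwa [div_self hσ.ne', mul_div_cancel_left₀ _ hσ.ne'] at h1
  rw [Vr_int hρ, Vr_int hρ']
  refine intervalIntegral.integral_mono_on (by norm_num) (hint hρ') (hint hρ) fun x hx => ?_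
  have hx0 : 0 < x := by linarith [hx.1]
  exact_mod_cast pcs_anti (by positivity) (mul_le_mul_of_nonneg_right h hx0.le) γ (a := 0) (b := 1) (1 : unitInterval).2.1

lemma Vr_cont {ρ : ℝ} (hρ : 0 < ρ) : Continuous (Vr ρ) := (vb_cont hρ 1).div_const ρ

lemma pcs_dist {s : ℝ} (hs : 0 < s) (γ : C(unitInterval, ℂ)) {a b : unitInterval} (hab : a ≤ b) :
    dist (γ a) (γ b) ≤ s * pcs s γ a b := by
  obtain ⟨-, u, hu, h0, hk, h⟩ := pcs_spec hs γ hab
  have h1 : ∀ i, i ≤ pcs s γ a b → dist (γ (u 0)) (γ (u i)) ≤ s * i := by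
    intro i
    induction i with
    | zero => intro _; simp
    | succ i ih =>
      intro hi
      have h2 := ih (by omega)
      have h3 := h i (by omega) (u i) ⟨le_rfl, hu (Nat.le_succ i)⟩ (u (i + 1)) ⟨hu (Nat.le_succ i), le_rfl⟩
      have h4 := dist_triangle (γ (u 0)) (γ (u i)) (γ (u (i + 1)))
      push_cast
      linarith
  have h2 := h1 _ le_rfl
  rwa [h0, hk] at h2

lemma Vr_low {ρ : ℝ} (hρ : 0 < ρ) (γ : C(unitInterval, ℂ)) : dist (γ 0) (γ 1) / (2 * ρ) ≤ Vr ρ γ := by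
  unfold Vr
  rw [div_le_div_iff₀ (by positivity) hρ]
  have h1 : ∫ _s in ρ..2 * ρ, dist (γ 0) (γ 1) / (2 * ρ) ≤ vb ρ γ 1 := by
    refine intervalIntegral.integral_mono_on (by linarith) (by simp) (pcs_int γ 1 hρ (by linarith)) fun s hs => ?_
    have hs0 : 0 < s := hρ.trans_le hs.1
    rw [div_le_iff₀ (by positivity)]
    refine (pcs_dist hs0 γ (a := 0) (b := 1) (1 : unitInterval).2.1).trans ?_
    rw [mul_comm]
    exact mul_le_mul_of_nonneg_left hs.2 (Nat.cast_nonneg _)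
  rw [intervalIntegral.integral_const, smul_eq_mul] at h1
  have h2 : (2 * ρ - ρ) * (dist (γ 0) (γ 1) / (2 * ρ)) = dist (γ 0) (γ 1) / 2 := by
    field_simp
    ring
  rw [h2] at h1
  nlinarith

/-! ### the median -/

/-- a median of the mean number of pieces -/
noncomputable def md (ν : Measure C(unitInterval, ℂ)) (ρ : ℝ) : ℝ := sInf {t : ℝ | 1 / 2 ≤ ν.real {γ | Vr ρ γ ≤ t}}

section

variable {ν : Measure C(unitInterval, ℂ)}

lemma md_bdd {ρ : ℝ} (hρ : 0 < ρ) : BddBelow {t : ℝ | 1 / 2 ≤ ν.real {γ | Vr ρ γ ≤ t}} := by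
  refine ⟨0, fun t ht => ?_⟩
  by_contra hc
  have e : {γ | Vr ρ γ ≤ t} = ∅ := by
    ext γ
    simp only [mem_ofPred_eq, mem_empty_iff_false, iff_false, not_le]
    have h1 : 0 < Vr ρ γ := div_pos (vb_pos hρ γ 1) hρ
    linarith
  have ht' : 1 / 2 ≤ ν.real {γ | Vr ρ γ ≤ t} := ht
  rw [e, measureReal_empty] at ht'
  norm_num at ht'

variable [IsProbabilityMeasure ν]

lemma gt_real {ρ : ℝ} (hρ : 0 < ρ) (t : ℝ) : ν.real {γ | Vr ρ γ ≤ t} = 1 - ν.real {γ | t < Vr ρ γ} := by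
  have h1 : MeasurableSet {γ | t < Vr ρ γ} := (isOpen_lt continuous_const (Vr_cont hρ)).measurableSet
  have h2 := probReal_compl_eq_one_sub (μ := ν) h1
  rw [← h2]
  congr 1
  ext γ
  simp

lemma md_ne {ρ : ℝ} : {t : ℝ | 1 / 2 ≤ ν.real {γ | Vr ρ γ ≤ t}}.Nonempty := by
  have hmono : Monotone fun k : ℕ => {γ : C(unitInterval, ℂ) | Vr ρ γ ≤ k} := by
    intro a b hab γ hγ
    have h1 : (a : ℝ) ≤ b := by exact_mod_cast hab
    exact le_trans hγ h1
  have h1 := tendsto_measure_iUnion_atTop (μ := ν) hmono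
  have e : (⋃ k : ℕ, {γ : C(unitInterval, ℂ) | Vr ρ γ ≤ k}) = univ := by
    ext γ
    simp only [mem_iUnion, mem_univ, iff_true]
    exact exists_nat_ge (Vr ρ γ)
  rw [e, measure_univ] at h1
  have h2 : Tendsto (fun k : ℕ => ν.real {γ | Vr ρ γ ≤ k}) atTop (𝓝 1) := (ENNReal.tendsto_toReal ENNReal.one_ne_top).comp h1
  obtain ⟨k, hk⟩ := (h2.eventually (lt_mem_nhds (show (1 / 2 : ℝ) < 1 by norm_num))).exists
  exact ⟨k, hk.le⟩

/-- upper bounds of the median -/
lemma md_le {ρ t : ℝ} (hρ : 0 < ρ) (h : ν.real {γ | t < Vr ρ γ} ≤ 1 / 2) : md ν ρ ≤ t := by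
  refine csInf_le (md_bdd hρ) ?_
  show 1 / 2 ≤ ν.real {γ | Vr ρ γ ≤ t}
  rw [gt_real hρ]
  linarith

/-- lower bounds of the median -/
lemma le_md {ρ t : ℝ} (h : ν.real {γ | Vr ρ γ < t} < 1 / 2) : t ≤ md ν ρ := by
  refine le_csInf md_ne fun s hs => ?_
  by_contra hc
  rw [not_le] at hc
  have hs' : 1 / 2 ≤ ν.real {γ | Vr ρ γ ≤ s} := hs
  have h1 : ν.real {γ | Vr ρ γ ≤ s} ≤ ν.real {γ | Vr ρ γ < t} :=
    measureReal_mono fun γ hγ => lt_of_le_of_lt hγ hc
  linarith

lemma md_pos {ρ : ℝ} (hρ : 0 < ρ) : 1 ≤ md ν ρ := by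
  refine le_md ?_
  have e : {γ | Vr ρ γ < 1} = ∅ := by
    ext γ
    simp only [mem_ofPred_eq, mem_empty_iff_false, iff_false, not_lt]
    unfold Vr
    rw [le_div_iff₀ hρ, one_mul]
    exact vb_ge hρ γ 1
  rw [e, measureReal_empty]
  norm_num

end

/-! ### convergence -/

lemma open_freq {φ : ℕ → ℕ} (hφ : Tendsto φ atTop atTop) {ν : Measure C(unitInterval, ℂ)} (hν : IsProbabilityMeasure ν)
    (hl : LawTo (fun n => n) ν) {U : Set C(unitInterval, ℂ)} (hU : IsOpen U) {ε : ℝ}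
    (h : ∃ᶠ k in atTop, (law (φ k)).real U ≤ ε) : ν.real U ≤ ε := by
  have hl2 := ((NTSF.lawTo_iff ⟨ν, hν⟩).1 hl).comp hφ
  have h1 := ProbabilityMeasure.le_liminf_measure_open_of_tendsto hl2 hU
  have h0 : 0 ≤ ε := by
    obtain ⟨k, hk⟩ := h.exists
    exact measureReal_nonneg.trans hk
  have h2 : ν U ≤ ENNReal.ofReal ε := by
    refine h1.trans (liminf_le_of_frequently_le' ?_)
    refine h.mono fun k hk => ?_
    have : IsProbabilityMeasure (law (φ k)) := NTSF.law_prob _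
    show law (φ k) U ≤ ENNReal.ofReal ε
    rw [← ENNReal.ofReal_toReal (measure_ne_top (law (φ k)) U)]
    exact ENNReal.ofReal_le_ofReal hk
  exact ENNReal.toReal_le_of_le_ofReal h0 h2

/-- **the law of large numbers for the clock, one constant for two numbers of steps** -/
def RegSt : Prop := ∀ ε D : ℝ, 0 < ε → ∃ ρ0 : ℝ, 0 < ρ0 ∧ ∀ ρ : ℝ, 0 < ρ → ρ ≤ ρ0 → ∃ n0 : ℕ, ∀ n n' : ℕ, n0 ≤ n →
  n ≤ n' → (n' : ℝ) ≤ D * n → ∃ a : ℝ, 0 < a ∧ (law n).real {γ | ε * n < |a * Vr ρ γ - n|} ≤ ε ∧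
    (law n').real {γ | ε * n' < |a * Vr (ρ * size n / size n') γ - n'|} ≤ ε

/-- limit points of the pairs (ratio of the numbers of steps, ratio of the sizes) -/
structure LP (l σ : ℝ) (a b : ℕ → ℕ) : Prop where
  inf : Tendsto a atTop atTop
  le : ∀ k, a k ≤ b k
  len : Tendsto (fun k => (b k : ℝ) / a k) atTop (𝓝 l)
  siz : Tendsto (fun k => size (b k) / size (a k)) atTop (𝓝 σ)

section

variable {ν : Measure C(unitInterval, ℂ)} {l σ : ℝ} {a b : ℕ → ℕ}

lemma LP.inf' (h : LP l σ a b) : Tendsto b atTop atTop := tendsto_atTop_mono h.le h.inf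

lemma one_le_l (h : LP l σ a b) : 1 ≤ l := by
  refine ge_of_tendsto h.len ?_
  filter_upwards [h.inf.eventually_ge_atTop 1] with k hk
  rw [le_div_iff₀ (by exact_mod_cast hk), one_mul]
  exact_mod_cast h.le k

/-- the data of one scale -/
lemma data (hR : RegSt) (h : LP l σ a b) {e : ℝ} (he : 0 < e) : ∃ ρ0 : ℝ, 0 < ρ0 ∧ ∀ ρ : ℝ, 0 < ρ → ρ ≤ ρ0 →
    ∀ᶠ k in atTop, 1 ≤ a k ∧ ∃ c : ℝ, 0 < c ∧ (law (a k)).real {γ | e * a k < |c * Vr ρ γ - a k|} ≤ e ∧
      (law (b k)).real {γ | e * b k < |c * Vr (ρ * size (a k) / size (b k)) γ - b k|} ≤ e := by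
  obtain ⟨ρ0, h0, h1⟩ := hR e (l + 1) he
  refine ⟨ρ0, h0, fun ρ hρ hρ0 => ?_⟩
  obtain ⟨n0, h2⟩ := h1 ρ hρ hρ0
  filter_upwards [h.inf.eventually_ge_atTop n0, h.inf.eventually_ge_atTop 1,
    h.len.eventually (gt_mem_nhds (show l < l + 1 by linarith))] with k h3 h4 h5
  have h6 : (0 : ℝ) < a k := by exact_mod_cast h4
  rw [div_lt_iff₀ h6] at h5
  exact ⟨h4, h2 (a k) (b k) h3 (h.le k) h5.le⟩

/-- **upper half** -/
lemma upK (hν : IsProbabilityMeasure ν) (hl : LawTo (fun n => n) ν) (hR : RegSt) (h : LP l σ a b) (hσ : 0 < σ) {e : ℝ}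
    (he : 0 < e) (he1 : e < 1 / 2) : ∃ ρ0 : ℝ, 0 < ρ0 ∧ ∀ ρ : ℝ, 0 < ρ → ρ ≤ ρ0 → ∀ τ : ℝ, 1 < τ →
      md ν (ρ * τ / σ) ≤ (1 + e) / (1 - e) * l * md ν ρ := by
  obtain ⟨ρ0, h0, h1⟩ := data hR h he
  refine ⟨ρ0, h0, fun ρ hρ hρ0 τ hτ => ?_⟩
  have hl1 := one_le_l h
  by_contra hcon
  rw [not_le] at hcon
  have hm := md_pos (ν := ν) hρ
  have hK : 0 < (1 + e) / (1 - e) * l := by
    have : 0 < 1 - e := by linarith
    positivity
  -- the two thresholds
  obtain ⟨t2, ht2, ht2'⟩ := exists_between hcon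
  obtain ⟨t1, ht1, ht1'⟩ : ∃ t1, md ν ρ < t1 ∧ (1 + e) / (1 - e) * l * t1 < t2 := by
    obtain ⟨t1, h3, h4⟩ := exists_between (show md ν ρ < t2 / ((1 + e) / (1 - e) * l) by
      rw [lt_div_iff₀ hK, mul_comm]
      exact ht2)
    refine ⟨t1, h3, ?_⟩
    rw [lt_div_iff₀ hK] at h4
    linarith
  have hlim : Tendsto (fun k => (1 + e) / (1 - e) * ((b k : ℝ) / a k) * t1) atTop
      (𝓝 ((1 + e) / (1 - e) * l * t1)) := (h.len.const_mul _).mul_const _
  have hev1 := hlim.eventually (gt_mem_nhds ht1')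
  have hsz : ∀ᶠ k in atTop, size (b k) / size (a k) > σ / τ :=
    h.siz.eventually (lt_mem_nhds (show σ / τ < σ from div_lt_self hσ hτ))
  have hall := ((h1 ρ hρ hρ0).and (hev1.and hsz)).frequently
  have htau : 0 < τ := by linarith
  have hcase : ∃ᶠ k in atTop, ((law (a k)).real {γ | Vr ρ γ < t1} ≤ e ∨
      (law (b k)).real {γ | t2 < Vr (ρ * τ / σ) γ} ≤ e) := by
    refine hall.mono ?_
    rintro k ⟨⟨h3, c, hc, h4, h5⟩, h6, h7⟩
    have ha0 : (0 : ℝ) < a k := by exact_mod_cast h3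
    have hb0 : (0 : ℝ) < b k := by
      have := h.le k
      have h8 : 1 ≤ b k := by omega
      exact_mod_cast h8
    have hsa : 0 < size (a k) := NTSF.size_pos h3
    have : IsProbabilityMeasure (law (a k)) := NTSF.law_prob _
    have : IsProbabilityMeasure (law (b k)) := NTSF.law_prob _
    have hsb : 0 < size (b k) := NTSF.size_pos (by have := h.le k; omega)
    by_cases hA : t1 < (1 - e) * (a k / c)
    · left
      refine le_trans (measureReal_mono fun γ hγ => ?_) h4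
      have h8 : Vr ρ γ < (1 - e) * (a k / c) := lt_trans hγ hA
      have h9 : c * Vr ρ γ < (1 - e) * a k := by
        have := mul_lt_mul_of_pos_left h8 hc
        have e1 : c * ((1 - e) * (a k / c)) = (1 - e) * a k := by field_simp
        rwa [e1] at this
      show e * a k < |c * Vr ρ γ - a k|
      rw [lt_abs]
      right
      linarith
    · right
      rw [not_lt] at hA
      refine le_trans (measureReal_mono fun γ hγ => ?_) h5
      have hγ' : t2 < Vr (ρ * τ / σ) γ := hγ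
      have h8 : ρ * size (a k) / size (b k) ≤ ρ * τ / σ := by
        have h7' : σ / τ < size (b k) / size (a k) := h7
        rw [div_lt_div_iff₀ htau hsa] at h7'
        rw [div_le_div_iff₀ hsb hσ]
        nlinarith
      have h9 := Vr_anti (by positivity) h8 γ
      have h10 : t2 < Vr (ρ * size (a k) / size (b k)) γ := lt_of_lt_of_le hγ' h9
      -- t2 > (1 + e) b / c
      have h11 : (1 + e) * (b k / c) < t2 := by
        refine lt_of_le_of_lt ?_ h6
        have h12 : (a k : ℝ) / c ≤ t1 / (1 - e) := by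
          rw [le_div_iff₀ (by linarith)]
          linarith
        have e1 : (1 + e) * (b k / c) = (1 + e) * (b k / a k) * (a k / c) := by field_simp
        have e2 : (1 + e) / (1 - e) * (b k / a k) * t1 = (1 + e) * (b k / a k) * (t1 / (1 - e)) := by ring
        rw [e1, e2]
        exact mul_le_mul_of_nonneg_left h12 (by positivity)
      have h12 : (1 + e) * b k < c * Vr (ρ * size (a k) / size (b k)) γ := by
        have := mul_lt_mul_of_pos_left (h11.trans h10) hc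
        have e1 : c * ((1 + e) * (b k / c)) = (1 + e) * b k := by field_simp
        rwa [e1] at this
      show e * b k < |c * Vr (ρ * size (a k) / size (b k)) γ - b k|
      rw [lt_abs]
      left
      linarith
  rw [frequently_or_distrib] at hcase
  have hρ2 : 0 < ρ * τ / σ := by positivity
  rcases hcase with hA | hB
  · have h3 := open_freq h.inf hν hl (isOpen_lt (Vr_cont hρ) continuous_const) hA
    have h4 := le_md (ν := ν) (ρ := ρ) (lt_of_le_of_lt h3 he1)
    linarith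
  · have h3 := open_freq h.inf' hν hl (isOpen_lt continuous_const (Vr_cont hρ2)) hB
    have h4 := md_le (ν := ν) hρ2 (h3.trans he1.le)
    linarith

/-- **lower half** -/
lemma loK (hν : IsProbabilityMeasure ν) (hl : LawTo (fun n => n) ν) (hR : RegSt) (h : LP l σ a b) (hσ : 0 < σ) {e : ℝ}
    (he : 0 < e) (he1 : e < 1 / 2) : ∃ ρ0 : ℝ, 0 < ρ0 ∧ ∀ ρ : ℝ, 0 < ρ → ρ ≤ ρ0 → ∀ τ : ℝ, 1 < τ →
      (1 - e) / (1 + e) * l * md ν ρ ≤ md ν (ρ / (σ * τ)) := by
  obtain ⟨ρ0, h0, h1⟩ := data hR h he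
  refine ⟨ρ0, h0, fun ρ hρ hρ0 τ hτ => ?_⟩
  have hl1 := one_le_l h
  by_contra hcon
  rw [not_le] at hcon
  have hm := md_pos (ν := ν) hρ
  have he2 : 0 < 1 - e := by linarith
  have hK : 0 < (1 - e) / (1 + e) * l := by positivity
  -- the two thresholds
  obtain ⟨t2, ht2, ht2'⟩ := exists_between hcon
  obtain ⟨t1, ht1, ht1'⟩ : ∃ t1, t1 < md ν ρ ∧ t2 < (1 - e) / (1 + e) * l * t1 := by
    obtain ⟨t1, h3, h4⟩ := exists_between (show t2 / ((1 - e) / (1 + e) * l) < md ν ρ by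
      rw [div_lt_iff₀ hK, mul_comm]
      exact ht2')
    refine ⟨t1, h4, ?_⟩
    rw [div_lt_iff₀ hK] at h3
    linarith
  have hlim : Tendsto (fun k => (1 - e) / (1 + e) * ((b k : ℝ) / a k) * t1) atTop
      (𝓝 ((1 - e) / (1 + e) * l * t1)) := (h.len.const_mul _).mul_const _
  have hev1 := hlim.eventually (lt_mem_nhds ht1')
  have hsz : ∀ᶠ k in atTop, size (b k) / size (a k) < σ * τ :=
    h.siz.eventually (gt_mem_nhds (show σ < σ * τ by nlinarith))
  have hall := ((h1 ρ hρ hρ0).and (hev1.and hsz)).frequently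
  have htau : 0 < τ := by linarith
  have hcase : ∃ᶠ k in atTop, ((law (a k)).real {γ | t1 < Vr ρ γ} ≤ e ∨
      (law (b k)).real {γ | Vr (ρ / (σ * τ)) γ < t2} ≤ e) := by
    refine hall.mono ?_
    rintro k ⟨⟨h3, c, hc, h4, h5⟩, h6, h7⟩
    have ha0 : (0 : ℝ) < a k := by exact_mod_cast h3
    have hb0 : (0 : ℝ) < b k := by
      have := h.le k
      have h8 : 1 ≤ b k := by omega
      exact_mod_cast h8
    have hsa : 0 < size (a k) := NTSF.size_pos h3
    have : IsProbabilityMeasure (law (a k)) := NTSF.law_prob _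
    have : IsProbabilityMeasure (law (b k)) := NTSF.law_prob _
    have hsb : 0 < size (b k) := NTSF.size_pos (by have := h.le k; omega)
    by_cases hA : (1 + e) * (a k / c) < t1
    · left
      refine le_trans (measureReal_mono fun γ hγ => ?_) h4
      have h8 : (1 + e) * (a k / c) < Vr ρ γ := lt_trans hA hγ
      have h9 : (1 + e) * a k < c * Vr ρ γ := by
        have := mul_lt_mul_of_pos_left h8 hc
        have e1 : c * ((1 + e) * (a k / c)) = (1 + e) * a k := by field_simp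
        rwa [e1] at this
      show e * a k < |c * Vr ρ γ - a k|
      rw [lt_abs]
      left
      linarith
    · right
      rw [not_lt] at hA
      refine le_trans (measureReal_mono fun γ hγ => ?_) h5
      have hγ' : Vr (ρ / (σ * τ)) γ < t2 := hγ
      have h8 : ρ / (σ * τ) ≤ ρ * size (a k) / size (b k) := by
        have h7' : size (b k) / size (a k) < σ * τ := h7
        rw [div_lt_iff₀ hsa] at h7'
        rw [div_le_div_iff₀ (by positivity) hsb]
        nlinarith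
      have h9 := Vr_anti (by positivity) h8 γ
      have h10 : Vr (ρ * size (a k) / size (b k)) γ < t2 := lt_of_le_of_lt h9 hγ'
      have h11 : t2 < (1 - e) * (b k / c) := by
        refine lt_of_lt_of_le h6 ?_
        have h12 : t1 / (1 + e) ≤ (a k : ℝ) / c := by
          rw [div_le_iff₀ (by linarith)]
          linarith
        have e1 : (1 - e) * (b k / c) = (1 - e) * (b k / a k) * (a k / c) := by field_simp
        have e2 : (1 - e) / (1 + e) * (b k / a k) * t1 = (1 - e) * (b k / a k) * (t1 / (1 + e)) := by ring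
        rw [e1, e2]
        exact mul_le_mul_of_nonneg_left h12 (by positivity)
      have h12 : c * Vr (ρ * size (a k) / size (b k)) γ < (1 - e) * b k := by
        have := mul_lt_mul_of_pos_left (h10.trans h11) hc
        have e1 : c * ((1 - e) * (b k / c)) = (1 - e) * b k := by field_simp
        rwa [e1] at this
      show e * b k < |c * Vr (ρ * size (a k) / size (b k)) γ - b k|
      rw [lt_abs]
      right
      linarith
  rw [frequently_or_distrib] at hcase
  have hρ2 : 0 < ρ / (σ * τ) := by positivity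
  rcases hcase with hA | hB
  · have h3 := open_freq h.inf hν hl (isOpen_lt continuous_const (Vr_cont hρ)) hA
    have h4 := md_le (ν := ν) hρ (h3.trans he1.le)
    linarith
  · have h3 := open_freq h.inf' hν hl (isOpen_lt (Vr_cont hρ2) continuous_const) hB
    have h4 := le_md (ν := ν) (ρ := ρ / (σ * τ)) (lt_of_le_of_lt h3 he1)
    linarith

/-! ### uniqueness -/

lemma md_low [IsProbabilityMeasure ν] {η : ℝ} (hη : ν.real {γ | dist (γ 0) (γ 1) < η} < 1 / 2) {ρ : ℝ} (hρ : 0 < ρ) :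
    η / (2 * ρ) ≤ md ν ρ := by
  refine le_md (lt_of_le_of_lt (measureReal_mono fun γ hγ => ?_) hη)
  have h1 : Vr ρ γ < η / (2 * ρ) := hγ
  have h2 := (Vr_low hρ γ).trans_lt h1
  rw [div_lt_div_iff_of_pos_right (by positivity)] at h2
  exact h2

lemma no_lt (hν : IsProbabilityMeasure ν) (hl : LawTo (fun n => n) ν) (hR : RegSt) {η : ℝ} (hη0 : 0 < η)
    (hη : ν.real {γ | dist (γ 0) (γ 1) < η} < 1 / 2) {σ1 σ2 : ℝ} {a' b' : ℕ → ℕ} (h1 : LP l σ1 a b) (h2 : LP l σ2 a' b')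
    (hσ1 : 0 < σ1) (h12 : σ1 < σ2) : False := by
  have hσ2 : 0 < σ2 := hσ1.trans h12
  obtain ⟨x, hx⟩ : ∃ x, x = min 1 ((σ2 / σ1 - 1) / 4) := ⟨_, rfl⟩
  have hq : 1 < σ2 / σ1 := (one_lt_div hσ1).2 h12
  have hx0 : 0 < x := by
    rw [hx]
    exact lt_min one_pos (by linarith)
  have hx1 : x ≤ 1 := by
    rw [hx]
    exact min_le_left _ _
  have hx2 : x ≤ (σ2 / σ1 - 1) / 4 := by
    rw [hx]
    exact min_le_right _ _
  obtain ⟨τ, hτ⟩ : ∃ τ, τ = 1 + x := ⟨_, rfl⟩
  have hτ1 : 1 < τ := by linarith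
  have hτ0 : 0 < τ := by linarith
  have hτ2 : τ ^ 2 < σ2 / σ1 := by
    rw [hτ]
    nlinarith
  obtain ⟨t, ht⟩ : ∃ t, t = τ ^ 2 * σ1 / σ2 := ⟨_, rfl⟩
  have ht0 : 0 < t := by
    rw [ht]
    positivity
  have ht1 : t < 1 := by
    rw [ht, div_lt_one hσ2]
    rwa [lt_div_iff₀ hσ1] at hτ2
  -- the error
  obtain ⟨e, he0, he1, he2⟩ : ∃ e : ℝ, 0 < e ∧ e < 1 / 2 ∧ ((1 + e) / (1 - e)) ^ 2 * t < 1 := by
    have hc : ContinuousAt (fun e : ℝ => ((1 + e) / (1 - e)) ^ 2 * t) 0 := by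
      refine ((ContinuousAt.div (by fun_prop) (by fun_prop) (by norm_num)).pow 2).mul continuousAt_const
    have hc2 : Tendsto (fun e : ℝ => ((1 + e) / (1 - e)) ^ 2 * t) (𝓝[>] 0) (𝓝 t) := by
      have := hc.tendsto.mono_left (nhdsWithin_le_nhds (s := Ioi (0 : ℝ)))
      simpa using this
    have h3 := hc2.eventually (gt_mem_nhds ht1)
    have h4 : ∀ᶠ e : ℝ in 𝓝[>] 0, e < 1 / 2 := nhdsWithin_le_nhds (gt_mem_nhds (by norm_num))
    obtain ⟨e, h5, h6, h7⟩ := (h3.and (h4.and self_mem_nhdsWithin)).exists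
    exact ⟨e, h7, h6, h5⟩
  obtain ⟨K, hK⟩ : ∃ K, K = ((1 + e) / (1 - e)) ^ 2 := ⟨_, rfl⟩
  have he3 : 0 < 1 - e := by linarith
  have hK0 : 0 < K := by
    rw [hK]
    positivity
  rw [← hK] at he2
  obtain ⟨r1, hr1, hA⟩ := upK hν hl hR h2 hσ2 he0 he1
  obtain ⟨r2, hr2, hB⟩ := loK hν hl hR h1 hσ1 he0 he1
  have key : ∀ y : ℝ, 0 < y → y ≤ min r1 r2 / (σ1 * τ) → md ν (t * y) ≤ K * md ν y := by
    intro y hy hy2
    rw [le_div_iff₀ (by positivity)] at hy2
    have hρ0 : 0 < y * (σ1 * τ) := by positivity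
    have e1 := hA _ hρ0 (hy2.trans (min_le_left _ _)) τ hτ1
    have e2 := hB _ hρ0 (hy2.trans (min_le_right _ _)) τ hτ1
    have e3 : y * (σ1 * τ) * τ / σ2 = t * y := by
      rw [ht]
      ring
    have e4 : y * (σ1 * τ) / (σ1 * τ) = y := mul_div_cancel_right₀ _ (by positivity)
    rw [e3] at e1
    rw [e4] at e2
    refine e1.trans ?_
    have e5 : (1 + e) / (1 - e) * l * md ν (y * (σ1 * τ)) =
        K * ((1 - e) / (1 + e) * l * md ν (y * (σ1 * τ))) := by
      rw [hK]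
      field_simp
    rw [e5]
    exact mul_le_mul_of_nonneg_left e2 hK0.le
  obtain ⟨y0, hy0⟩ : ∃ y0, y0 = min r1 r2 / (σ1 * τ) := ⟨_, rfl⟩
  have hy00 : 0 < y0 := by
    rw [hy0]
    exact div_pos (lt_min hr1 hr2) (by positivity)
  have hit : ∀ j : ℕ, md ν (t ^ j * y0) ≤ K ^ j * md ν y0 := by
    intro j
    induction j with
    | zero => simp
    | succ j ih =>
      have hp : t ^ j ≤ 1 := pow_le_one₀ ht0.le ht1.le
      have e1 := key (t ^ j * y0) (by positivity) (by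
        rw [← hy0]
        exact mul_le_of_le_one_left hy00.le hp)
      rw [← mul_assoc, ← pow_succ'] at e1
      refine e1.trans ?_
      rw [pow_succ', mul_assoc]
      exact mul_le_mul_of_nonneg_left ih hK0.le
  have hlow : ∀ j : ℕ, η / (2 * y0) ≤ (K * t) ^ j * md ν y0 := by
    intro j
    have e1 := md_low hη (ρ := t ^ j * y0) (by positivity)
    have e2 := e1.trans (hit j)
    have e3 : η / (2 * (t ^ j * y0)) = η / (2 * y0) / t ^ j := by
      field_simp
    rw [e3, div_le_iff₀ (by positivity)] at e2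
    rw [mul_pow]
    linarith
  have hlim : Tendsto (fun j : ℕ => (K * t) ^ j * md ν y0) atTop (𝓝 (0 * md ν y0)) :=
    (tendsto_pow_atTop_nhds_zero_of_lt_one (by positivity) he2).mul_const _
  have h5 := ge_of_tendsto' hlim hlow
  rw [zero_mul] at h5
  have h6 : 0 < η / (2 * y0) := by positivity
  linarith

end

/-! ### the limit of the ratios -/

/-- the bounds of the size -/
def SzB (c C : ℝ) : Prop := ∀ n : ℕ, 1 ≤ n → c * (n : ℝ) ^ (3 / 4 : ℝ) ≤ size n ∧ size n ≤ C * (n : ℝ) ^ (3 / 4 : ℝ)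

lemma ratio_bd {c C : ℝ} (hc : 0 < c) (hS : SzB c C) {n m : ℕ} (hn : 1 ≤ n) (hm : 1 ≤ m) :
    c / C * ((m : ℝ) / n) ^ (3 / 4 : ℝ) ≤ size m / size n ∧ size m / size n ≤ C / c * ((m : ℝ) / n) ^ (3 / 4 : ℝ) := by
  have hn0 : (0 : ℝ) < n := by exact_mod_cast hn
  have hm0 : (0 : ℝ) < m := by exact_mod_cast hm
  have h1 := hS n hn
  have h2 := hS m hm
  have h3 := NTSF.size_pos hn
  have h5 : 0 < (n : ℝ) ^ (3 / 4 : ℝ) := by positivity
  have h6 : 0 < (m : ℝ) ^ (3 / 4 : ℝ) := by positivity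
  have hC : 0 < C := by
    by_contra hcon
    have : C * (n : ℝ) ^ (3 / 4 : ℝ) ≤ 0 := mul_nonpos_of_nonpos_of_nonneg (not_lt.1 hcon) h5.le
    linarith [h1.2]
  rw [Real.div_rpow hm0.le hn0.le]
  constructor
  · calc c / C * ((m : ℝ) ^ (3 / 4 : ℝ) / (n : ℝ) ^ (3 / 4 : ℝ)) =
          (c * (m : ℝ) ^ (3 / 4 : ℝ)) / (C * (n : ℝ) ^ (3 / 4 : ℝ)) := by ring
      _ ≤ size m / size n := div_le_div₀ (h2.1.trans' (by positivity)) h2.1 h3 h1.2
  · calc size m / size n ≤ (C * (m : ℝ) ^ (3 / 4 : ℝ)) / (c * (n : ℝ) ^ (3 / 4 : ℝ)) :=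
          div_le_div₀ (by positivity) h2.2 (by positivity) h1.1
      _ = _ := by ring

section

variable {ν : Measure C(unitInterval, ℂ)} {l c C : ℝ}

/-- subsequences with a limit point -/
lemma sub_lp (hc : 0 < c) (hS : SzB c C) {a b : ℕ → ℕ} (ha : Tendsto a atTop atTop) (hab : ∀ k, a k ≤ b k)
    (hlen : Tendsto (fun k => (b k : ℝ) / a k) atTop (𝓝 l)) : ∃ (σ : ℝ) (φ : ℕ → ℕ), StrictMono φ ∧ 0 < σ ∧
      LP l σ (fun k => a (φ k)) (fun k => b (φ k)) := by
  have hC : 0 < C := by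
    have h1 := (hS 1 le_rfl).2
    have h2 := NTSF.size_pos (n := 1) le_rfl
    rw [Nat.cast_one, Real.one_rpow, mul_one] at h1
    linarith
  have hev : ∀ᶠ k in atTop, size (b k) / size (a k) ∈ Icc (c / C) (C / c * (l + 1) ^ (3 / 4 : ℝ)) := by
    filter_upwards [ha.eventually_ge_atTop 1, hlen.eventually (gt_mem_nhds (show l < l + 1 by linarith))] with k h1 h2
    have ha0 : (0 : ℝ) < a k := by exact_mod_cast h1
    have h3 := ratio_bd hc hS h1 (h1.trans (hab k))
    have h4 : (1 : ℝ) ≤ (b k : ℝ) / a k := by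
      rw [le_div_iff₀ ha0, one_mul]
      exact_mod_cast hab k
    constructor
    · refine le_trans ?_ h3.1
      have h5 : (1 : ℝ) ≤ ((b k : ℝ) / a k) ^ (3 / 4 : ℝ) := Real.one_le_rpow h4 (by norm_num)
      have h6 : 0 < c / C := by positivity
      nlinarith
    · refine h3.2.trans ?_
      have h5 : ((b k : ℝ) / a k) ^ (3 / 4 : ℝ) ≤ (l + 1) ^ (3 / 4 : ℝ) :=
        Real.rpow_le_rpow (by positivity) h2.le (by norm_num)
      exact mul_le_mul_of_nonneg_left h5 (by positivity)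
  obtain ⟨σ, hσ, φ, hφ, hlim⟩ := isCompact_Icc.tendsto_subseq' hev.frequently
  exact ⟨σ, φ, hφ, lt_of_lt_of_le (by positivity) hσ.1,
    ⟨ha.comp hφ.tendsto_atTop, fun k => hab _, hlen.comp hφ.tendsto_atTop, hlim⟩⟩

lemma exists_sg (hν : IsProbabilityMeasure ν) (hl : LawTo (fun n => n) ν) (hR : RegSt) {η : ℝ} (hη0 : 0 < η)
    (hη : ν.real {γ | dist (γ 0) (γ 1) < η} < 1 / 2) (hc : 0 < c) (hS : SzB c C) (hl1 : 1 ≤ l) :
    ∃ σ : ℝ, 0 < σ ∧ ∀ a b : ℕ → ℕ, Tendsto a atTop atTop → (∀ k, a k ≤ b k) →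
      Tendsto (fun k => (b k : ℝ) / a k) atTop (𝓝 l) → Tendsto (fun k => size (b k) / size (a k)) atTop (𝓝 σ) := by
  have h0 : Tendsto (fun k : ℕ => (⌈l * k⌉₊ : ℝ) / k) atTop (𝓝 l) := tendsto_nat_ceil_mul_div_atTop (by linarith)|>.comp
    tendsto_natCast_atTop_atTop
  obtain ⟨σ, φ, hφ, hσ, hLP⟩ := sub_lp hc hS (a := fun k => k) (b := fun k => ⌈l * k⌉₊) tendsto_id
    (fun k => by
      have h1 : (k : ℝ) ≤ l * k := by
        have : (0 : ℝ) ≤ k := Nat.cast_nonneg _
        nlinarith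
      exact_mod_cast h1.trans (Nat.le_ceil _)) h0
  refine ⟨σ, hσ, fun a b ha hab hlen => ?_⟩
  refine tendsto_of_subseq_tendsto fun ns hns => ?_
  obtain ⟨σ', ψ, hψ, hσ', hLP'⟩ := sub_lp hc hS (ha.comp hns) (fun k => hab (ns k)) (hlen.comp hns)
  refine ⟨ψ, ?_⟩
  have e : σ' = σ := by
    rcases lt_trichotomy σ' σ with h | h | h
    · exact (no_lt hν hl hR hη0 hη hLP' hLP hσ' h).elim
    · exact h
    · exact (no_lt hν hl hR hη0 hη hLP hLP' hσ h).elim
  rw [← e]
  exact hLP'.siz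

/-- **the ratio of the sizes, ratio of the numbers of steps at least one** -/
theorem reg (hν : IsProbabilityMeasure ν) (hl : LawTo (fun n => n) ν) (hR : RegSt) {η : ℝ} (hη0 : 0 < η)
    (hη : ν.real {γ | dist (γ 0) (γ 1) < η} < 1 / 2) (hc : 0 < c) (hS : SzB c C) (hl1 : 1 ≤ l) {a b : ℕ → ℕ}
    (ha : Tendsto a atTop atTop) (hab : ∀ k, a k ≤ b k) (hlen : Tendsto (fun k => (b k : ℝ) / a k) atTop (𝓝 l)) :
    Tendsto (fun k => size (b k) / size (a k)) atTop (𝓝 (l ^ (3 / 4 : ℝ))) := by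
  obtain ⟨σ, hσ, hsg⟩ := exists_sg hν hl hR hη0 hη hc hS hl1
  have hC : 0 < C := by
    have h1 := (hS 1 le_rfl).2
    have h2 := NTSF.size_pos (n := 1) le_rfl
    rw [Nat.cast_one, Real.one_rpow, mul_one] at h1
    linarith
  obtain ⟨T, hT⟩ : ∃ T : ℕ → ℕ, T = fun k : ℕ => ⌈l * k⌉₊ := ⟨_, rfl⟩
  have hT1 : ∀ k, k ≤ T k := fun k => by
    have h1 : (k : ℝ) ≤ l * k := by
      have : (0 : ℝ) ≤ k := Nat.cast_nonneg _
      nlinarith
    have h2 : (k : ℝ) ≤ (⌈l * k⌉₊ : ℕ) := h1.trans (Nat.le_ceil _)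
    rw [hT]
    exact_mod_cast h2
  have hTk : ∀ j k, k ≤ T^[j] k := by
    intro j
    induction j with
    | zero => exact fun k => le_rfl
    | succ j ih =>
      intro k
      rw [Function.iterate_succ_apply']
      exact (ih k).trans (hT1 _)
  have hTinf : ∀ j, Tendsto (fun k => T^[j] k) atTop atTop := fun j => tendsto_atTop_mono (hTk j) tendsto_id
  have hT2 : Tendsto (fun k : ℕ => (T k : ℝ) / k) atTop (𝓝 l) := by
    rw [hT]
    exact (tendsto_nat_ceil_mul_div_atTop (by linarith)).comp tendsto_natCast_atTop_atTop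
  have hit : ∀ j : ℕ, Tendsto (fun k : ℕ => ((T^[j] k : ℕ) : ℝ) / k) atTop (𝓝 (l ^ j)) ∧
      Tendsto (fun k : ℕ => size (T^[j] k) / size k) atTop (𝓝 (σ ^ j)) := by
    intro j
    induction j with
    | zero =>
      constructor
      · refine tendsto_const_nhds.congr' ?_
        filter_upwards [eventually_ge_atTop 1] with k hk
        have : (0 : ℝ) < k := by exact_mod_cast hk
        simp [this.ne']
      · refine tendsto_const_nhds.congr' ?_
        filter_upwards [eventually_ge_atTop 1] with k hk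
        have := NTSF.size_pos hk
        simp [this.ne']
    | succ j ih =>
      constructor
      · have h1 := (hT2.comp (hTinf j)).mul ih.1
        rw [← pow_succ'] at h1
        refine h1.congr' ?_
        filter_upwards [eventually_ge_atTop 1] with k hk
        have hk2 : 1 ≤ T^[j] k := hk.trans (hTk j k)
        have h2 : (0 : ℝ) < (T^[j] k : ℕ) := by exact_mod_cast hk2
        show ((T (T^[j] k) : ℕ) : ℝ) / (T^[j] k : ℕ) * (((T^[j] k : ℕ) : ℝ) / k) = _
        rw [Function.iterate_succ_apply', div_mul_div_cancel₀ h2.ne']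
      · have h3 := hsg (fun k => T^[j] k) (fun k => T (T^[j] k)) (hTinf j) (fun k => hT1 _) (hT2.comp (hTinf j))
        have h1 := h3.mul ih.2
        rw [← pow_succ'] at h1
        refine h1.congr' ?_
        filter_upwards [eventually_ge_atTop 1] with k hk
        have h2 := NTSF.size_pos (hk.trans (hTk j k))
        show size (T (T^[j] k)) / size (T^[j] k) * (size (T^[j] k) / size k) = _
        rw [Function.iterate_succ_apply', div_mul_div_cancel₀ h2.ne']
  obtain ⟨L, hL⟩ : ∃ L, L = l ^ (3 / 4 : ℝ) := ⟨_, rfl⟩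
  have hl0 : 0 < l := by linarith
  have hL0 : 0 < L := by
    rw [hL]
    positivity
  have hLj : ∀ j : ℕ, (l ^ j) ^ (3 / 4 : ℝ) = L ^ j := by
    intro j
    rw [hL, ← Real.rpow_natCast l j, ← Real.rpow_mul hl0.le, mul_comm, Real.rpow_mul hl0.le, Real.rpow_natCast]
  have hbd : ∀ j : ℕ, c / C * L ^ j ≤ σ ^ j ∧ σ ^ j ≤ C / c * L ^ j := by
    intro j
    obtain ⟨h1, h2⟩ := hit j
    have h3 : Tendsto (fun k : ℕ => (((T^[j] k : ℕ) : ℝ) / k) ^ (3 / 4 : ℝ)) atTop (𝓝 (L ^ j)) := by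
      rw [← hLj j]
      exact h1.rpow_const (Or.inr (by norm_num))
    constructor
    · refine le_of_tendsto_of_tendsto (h3.const_mul _) h2 ?_
      filter_upwards [eventually_ge_atTop 1] with k hk
      exact (ratio_bd hc hS hk (hk.trans (hTk j k))).1
    · refine le_of_tendsto_of_tendsto h2 (h3.const_mul _) ?_
      filter_upwards [eventually_ge_atTop 1] with k hk
      exact (ratio_bd hc hS hk (hk.trans (hTk j k))).2
  have e : σ = L := by
    rcases lt_trichotomy σ L with h | h | h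
    · exfalso
      have h1 : Tendsto (fun j : ℕ => (σ / L) ^ j) atTop (𝓝 0) :=
        tendsto_pow_atTop_nhds_zero_of_lt_one (by positivity) ((div_lt_one hL0).2 h)
      have h2 : c / C ≤ 0 := by
        refine ge_of_tendsto' h1 fun j => ?_
        rw [div_pow, le_div_iff₀ (by positivity)]
        exact (hbd j).1
      have h3 : 0 < c / C := by positivity
      linarith
    · exact h
    · exfalso
      have h1 : Tendsto (fun j : ℕ => (L / σ) ^ j) atTop (𝓝 0) :=
        tendsto_pow_atTop_nhds_zero_of_lt_one (by positivity) ((div_lt_one hσ).2 h)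
      have h2 : c / C ≤ 0 := by
        refine ge_of_tendsto' h1 fun j => ?_
        rw [div_pow, le_div_iff₀ (by positivity), div_mul_eq_mul_div, div_le_iff₀ hC]
        have h4 := (hbd j).2
        rw [div_mul_eq_mul_div, le_div_iff₀ hc] at h4
        linarith
      have h3 : 0 < c / C := by positivity
      linarith
  rw [← hL, ← e]
  exact hsg a b ha hab hlen

/-- **the size is regularly varying** -/
theorem reg_floor (hν : IsProbabilityMeasure ν) (hl : LawTo (fun n => n) ν) (hR : RegSt) {η : ℝ} (hη0 : 0 < η)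
    (hη : ν.real {γ | dist (γ 0) (γ 1) < η} < 1 / 2) (hc : 0 < c) (hS : SzB c C) {x : ℝ} (hx : 0 < x) :
    Tendsto (fun n : ℕ => size ⌊x * n⌋₊ / size n) atTop (𝓝 (x ^ (3 / 4 : ℝ))) := by
  have hfl : Tendsto (fun n : ℕ => (⌊x * n⌋₊ : ℝ) / n) atTop (𝓝 x) :=
    (tendsto_nat_floor_mul_div_atTop hx.le).comp tendsto_natCast_atTop_atTop
  rcases le_total 1 x with h1 | h1
  · refine reg hν hl hR hη0 hη hc hS h1 tendsto_id (fun k => ?_) hfl
    refine Nat.le_floor ?_
    have : (0 : ℝ) ≤ k := Nat.cast_nonneg _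
    show ((k : ℕ) : ℝ) ≤ x * k
    nlinarith
  · have ht : Tendsto (fun n : ℕ => ⌊x * n⌋₊) atTop atTop := by
      refine tendsto_nat_floor_atTop.comp ?_
      exact tendsto_natCast_atTop_atTop.const_mul_atTop hx
    have h2 : Tendsto (fun n : ℕ => (n : ℝ) / (⌊x * n⌋₊ : ℕ)) atTop (𝓝 x⁻¹) := by
      refine (hfl.inv₀ hx.ne').congr fun n => ?_
      rw [inv_div]
    have h3 := reg hν hl hR hη0 hη hc hS (l := x⁻¹) ((one_le_inv₀ hx).2 h1) ht (b := fun n => n) (fun n => by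
      refine Nat.floor_le_of_le ?_
      have : (0 : ℝ) ≤ n := Nat.cast_nonneg _
      nlinarith) h2
    have h4 := h3.inv₀ (by positivity)
    rw [Real.inv_rpow hx.le, inv_inv] at h4
    refine h4.congr fun n => ?_
    rw [inv_div]

end

end Reg

end Pool.Agent.NPR
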