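import Pool.Agent.NPR.Defs

/-!
# NPR (helper10): numbers: the ratios of mZ (2 ^ l) and of ML l; the union bound

* `mz_one`, `mz_low`, `exists_mz_up`, `ML_ge`, `ML_le2`, `ML_mono`, `gf_range_le`.
-/

set_option autoImplicit false

namespace HexObs

namespace NPR

open Finset TS SDN TIW NTA TIP

open scoped ENNReal

lemma mz_one (l : ℕ) : 1 ≤ PW.mZ (2 ^ l) := by
  refine le_trans ?_ (PW.le_mZ (2 ^ l))
  refine Real.one_le_rpow ?_ (by norm_num)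
  exact_mod_cast Nat.one_le_two_pow

lemma mz_pos (l : ℕ) : 0 < PW.mZ (2 ^ l) := lt_of_lt_of_le one_pos (mz_one l)

lemma mz_mono {l l' : ℕ} (h : l ≤ l') : PW.mZ (2 ^ l) ≤ PW.mZ (2 ^ l') := PW.mZ_mono (Nat.pow_le_pow_right (by norm_num) h)

/-- lower bound of the ratio -/
lemma mz_low (l j : ℕ) : (2 : ℝ) ^ j * PW.mZ (2 ^ l) ≤ PW.mZ (2 ^ (l + j)) := by
  have h := PW.mZ_slope (b := 2 ^ j) (N := 2 ^ l) Nat.one_le_two_pow
  rw [← pow_add, add_comm j l] at h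
  refine le_trans (mul_le_mul_of_nonneg_right ?_ (mz_pos l).le) h
  have h1 : (1 : ℝ) ≤ ((2 ^ j : ℕ) : ℝ) := by exact_mod_cast Nat.one_le_two_pow
  calc (2 : ℝ) ^ j = ((2 ^ j : ℕ) : ℝ) ^ (1 : ℝ) := by
        rw [Real.rpow_one]
        push_cast
        rfl
    _ ≤ _ := Real.rpow_le_rpow_of_exponent_le h1 (by norm_num)

/-- upper bound of the ratio -/
lemma exists_mz_up : ∃ C : ℝ, 1 ≤ C ∧ ∀ l j : ℕ, PW.mZ (2 ^ (l + j)) ≤ C * 4 ^ j * PW.mZ (2 ^ l) := by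
  obtain ⟨a, C, ha, hC, h⟩ := PW.mZ_growth_32
  refine ⟨C, hC, fun l j => ?_⟩
  refine (h (2 ^ l) (2 ^ (l + j)) Nat.one_le_two_pow (Nat.pow_le_pow_right (by norm_num) (by omega))).trans ?_
  have h2 : (((2 ^ (l + j) : ℕ) : ℝ) / ((2 ^ l : ℕ) : ℝ)) = 2 ^ j := by
    push_cast
    rw [pow_add]
    field_simp
  have h3 : (((2 ^ (l + j) : ℕ) : ℝ) / ((2 ^ l : ℕ) : ℝ)) ^ a ≤ 4 ^ j := by
    rw [h2]
    have h4 : (1 : ℝ) ≤ 2 ^ j := one_le_pow₀ (by norm_num)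
    calc ((2 : ℝ) ^ j) ^ a ≤ ((2 : ℝ) ^ j) ^ (2 : ℝ) := Real.rpow_le_rpow_of_exponent_le h4 (by linarith)
      _ = 4 ^ j := by
        rw [Real.rpow_two, ← pow_mul, mul_comm, pow_mul]
        norm_num
  exact mul_le_mul_of_nonneg_right (mul_le_mul_of_nonneg_left h3 (by linarith)) (mz_pos l).le

lemma ML_ge (l : ℕ) : PW.mZ (2 ^ l) ≤ (ML l : ℝ) := Nat.le_ceil _

lemma ML_le2 (l : ℕ) : (ML l : ℝ) ≤ 2 * PW.mZ (2 ^ l) := by
  have h1 := (Nat.ceil_lt_add_one (mz_pos l).le).le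
  have h2 := mz_one l
  show ((⌈PW.mZ (2 ^ l)⌉₊ : ℕ) : ℝ) ≤ _
  linarith

lemma ML_mono {l l' : ℕ} (h : l ≤ l') : ML l ≤ ML l' := Nat.ceil_le_ceil (mz_mono h)

/-- the union bound -/
lemma gf_range_le (n : ℕ) (E : ℕ → Set (List Bool)) : gf {t | ∃ i, i < n ∧ t ∈ E i} ≤ ∑ i ∈ range n, gf (E i) := by
  induction n with
  | zero =>
    have e : {t : List Bool | ∃ i, i < 0 ∧ t ∈ E i} = ∅ := by
      ext t
      simp
    rw [e]
    unfold gf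
    simp
  | succ n ih =>
    have e : {t | ∃ i, i < n + 1 ∧ t ∈ E i} ⊆ {t | ∃ i, i < n ∧ t ∈ E i} ∪ E n := by
      rintro t ⟨i, h1, h2⟩
      rcases Nat.lt_or_ge i n with h | h
      · exact Or.inl ⟨i, h, h2⟩
      · right
        have : i = n := by omega
        rwa [← this]
    rw [sum_range_succ]
    exact (gf_mono e).trans ((gf_union_le _ _).trans (add_le_add ih le_rfl))

lemma gf_range_le' (n : ℕ) (E : ℕ → Set (List Bool)) {c : ℝ≥0∞} (h : ∀ i, i < n → gf (E i) ≤ c) :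
    gf {t | ∃ i, i < n ∧ t ∈ E i} ≤ n * c := by
  refine (gf_range_le n E).trans ((sum_le_sum fun i hi => h i (mem_range.1 hi)).trans ?_)
  rw [sum_const, card_range, nsmul_eq_mul]

end NPR

end HexObs
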