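import Pool.Agent.NPR.DefX
import Pool.Agent.NPR.Scl
import Pool.Agent.SLW.SlowFin
import Pool.Agent.IW.PS
import Pool.Agent.MC.Rev

/-!
# NPR, row X1: exactly n letters (helper29)

* `GP P ρ t`: some beginning of `t` outside of the ball of radius `ρ` about the end of `t` is in `P`; `FP P R`: the mean over
  `R ≤ ρ < 2 R`; `FP_osc`: it hardly sees a small end;
* `far_end`, `box_n`: the first three quarters of the walk are far away from its end; the walk is in its box;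
* **`x1 : MainW → X1N`** (from `slowF`).
-/

set_option autoImplicit false

namespace HexObs

namespace NPR

open Finset TS SDN TIW NTA TIP

open scoped ENNReal

open Classical in
/-- some beginning outside of the ball of radius ρ about the end is in P -/
noncomputable def GP (P : Set (List Bool)) (ρ : ℕ) (t : List Bool) : ℝ :=
  if ∃ j, j ≤ t.length ∧ t.take j ∈ P ∧ ∀ i, i ≤ j → (ρ : ℤ) ≤ hn (vx oo up t i - TIW.en t) then 1 else 0

/-- the mean over R ≤ ρ < 2 R -/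
noncomputable def FP (P : Set (List Bool)) (R : ℕ) (t : List Bool) : ℝ := (∑ i ∈ range R, GP P (R + i) t) / R

variable {P : Set (List Bool)}

lemma GP_nonneg (ρ : ℕ) (t : List Bool) : 0 ≤ GP P ρ t := by
  unfold GP
  split_ifs <;> norm_num

lemma GP_le_one (ρ : ℕ) (t : List Bool) : GP P ρ t ≤ 1 := by
  unfold GP
  split_ifs <;> norm_num

/-- comparison of two values -/
lemma GP_imp {ρ ρ' : ℕ} {t t' : List Bool}
    (h : (∃ j, j ≤ t.length ∧ t.take j ∈ P ∧ ∀ i, i ≤ j → (ρ : ℤ) ≤ hn (vx oo up t i - TIW.en t)) →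
      ∃ j, j ≤ t'.length ∧ t'.take j ∈ P ∧ ∀ i, i ≤ j → (ρ' : ℤ) ≤ hn (vx oo up t' i - TIW.en t')) :
    GP P ρ t ≤ GP P ρ' t' := by
  unfold GP
  by_cases h1 : ∃ j, j ≤ t.length ∧ t.take j ∈ P ∧ ∀ i, i ≤ j → (ρ : ℤ) ≤ hn (vx oo up t i - TIW.en t)
  · rw [if_pos h1, if_pos (h h1)]
  · rw [if_neg h1]
    split_ifs <;> norm_num

lemma GP_anti {ρ ρ' : ℕ} (h : ρ ≤ ρ') (t : List Bool) : GP P ρ' t ≤ GP P ρ t := by
  refine GP_imp ?_
  rintro ⟨j, h1, h2, h3⟩
  have h4 : (ρ : ℤ) ≤ ρ' := by exact_mod_cast h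
  exact ⟨j, h1, h2, fun i hi => h4.trans (h3 i hi)⟩

/-- the end is near the end of the larger word -/
lemma en_near {A Y : List Bool} {ρ1 : ℕ} (hY : ∀ i, i ≤ Y.length → hn (vx oo up Y i) < ρ1) (v : Pt) :
    hn (v - TIW.en A) ≤ hn (v - TIW.en (A ++ Y)) + (ρ1 - 1) ∧ hn (v - TIW.en (A ++ Y)) ≤ hn (v - TIW.en A) + (ρ1 - 1) := by
  have h1 := hY Y.length le_rfl
  have h2 : TIW.en (A ++ Y) = vx oo up (A ++ Y) (A.length + Y.length) := by
    unfold TIW.en
    rw [List.length_append]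
  have h3 : hn (TIW.en A - TIW.en (A ++ Y)) = hn (vx oo up Y Y.length) := by
    rw [h2, TIW.vx_app, sub_add_cancel_left, hn_neg, hn_mulE (nrm_rt A)]
  have e1 := hn_sub (v - TIW.en (A ++ Y)) (TIW.en A - TIW.en (A ++ Y))
  rw [sub_sub_sub_cancel_right, h3] at e1
  have e2 := hn_add (v - TIW.en A) (TIW.en A - TIW.en (A ++ Y))
  rw [sub_add_sub_cancel, h3] at e2
  constructor <;> linarith

lemma GP_lo {A Y : List Bool} {ρ1 : ℕ} (ρ : ℕ) (hY : ∀ i, i ≤ Y.length → hn (vx oo up Y i) < ρ1) :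
    GP P (ρ + ρ1) A ≤ GP P ρ (A ++ Y) := by
  refine GP_imp ?_
  rintro ⟨j, h1, h2, h3⟩
  refine ⟨j, by rw [List.length_append]; omega, by rwa [List.take_append_of_le_length h1], fun i hi => ?_⟩
  rw [vx_append (by omega)]
  have h4 := h3 i hi
  have h5 := (en_near (A := A) hY (vx oo up A i)).1
  push_cast at h4
  linarith

lemma GP_hi {A Y : List Bool} {ρ1 : ℕ} {ρ : ℕ} (hρ : ρ1 ≤ ρ) (hY : ∀ i, i ≤ Y.length → hn (vx oo up Y i) < ρ1) :
    GP P ρ (A ++ Y) ≤ GP P (ρ - ρ1) A := by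
  refine GP_imp ?_
  rintro ⟨j, h1, h2, h3⟩
  have h8 : (ρ1 : ℤ) ≤ ρ := by exact_mod_cast hρ
  have hj : j ≤ A.length := by
    by_contra hc
    have h6 := h3 A.length (by omega)
    rw [vx_append (by omega)] at h6
    have h7 := (en_near (A := A) hY (TIW.en A)).2
    rw [sub_self] at h7
    have h9 : hn 0 = 0 := by decide
    rw [h9] at h7
    have h10 : hn (vx oo up A A.length - TIW.en (A ++ Y)) = hn (TIW.en A - TIW.en (A ++ Y)) := rfl
    rw [h10] at h6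
    linarith
  rw [List.take_append_of_le_length hj] at h2
  refine ⟨j, hj, h2, fun i hi => ?_⟩
  have h4 := h3 i hi
  rw [vx_append (by omega)] at h4
  have h5 := (en_near (A := A) hY (vx oo up A i)).2
  rw [Nat.cast_sub hρ]
  linarith

/-- shift of a sum of numbers in the unit interval -/
lemma sum_shift {f : ℕ → ℝ} (h0 : ∀ i, 0 ≤ f i) (h1 : ∀ i, f i ≤ 1) (N a b : ℕ) :
    ∑ i ∈ range N, f (a + i) ≤ ∑ i ∈ range N, f (a + b + i) + b := by
  induction b with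
  | zero => simp
  | succ b ih =>
    refine ih.trans ?_
    have h2 : ∑ i ∈ range N, f (a + b + i) + f (a + b + N) = ∑ i ∈ range N, f (a + (b + 1) + i) + f (a + b) := by
      rw [← sum_range_succ, sum_range_succ']
      congr 1
      refine sum_congr rfl fun i _ => ?_
      congr 1
      omega
    have h3 := h0 (a + b + N)
    have h4 := h1 (a + b)
    push_cast
    linarith

lemma FP_nonneg (R : ℕ) (t : List Bool) : 0 ≤ FP P R t :=
  div_nonneg (sum_nonneg fun i _ => GP_nonneg _ _) (Nat.cast_nonneg _)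

lemma FP_le_one (R : ℕ) (t : List Bool) : FP P R t ≤ 1 := by
  unfold FP
  refine div_le_one_of_le₀ ?_ (Nat.cast_nonneg _)
  calc ∑ i ∈ range R, GP P (R + i) t ≤ ∑ _i ∈ range R, (1 : ℝ) := sum_le_sum fun i _ => GP_le_one _ _
    _ = R := by rw [sum_const, card_range, nsmul_eq_mul, mul_one]

/-- **the functional hardly sees a small end** -/
theorem FP_osc {A Y : List Bool} {ρ1 R : ℕ} (hR : ρ1 ≤ R) (hR0 : 1 ≤ R)
    (hY : ∀ i, i ≤ Y.length → hn (vx oo up Y i) < ρ1) : |FP P R (A ++ Y) - FP P R A| ≤ (ρ1 : ℝ) / R := by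
  have hRr : (0 : ℝ) < R := by exact_mod_cast hR0
  obtain ⟨f, hf⟩ : ∃ f : ℕ → ℝ, f = fun ρ => GP P ρ A := ⟨_, rfl⟩
  have f0 : ∀ i, 0 ≤ f i := fun i => by rw [hf]; exact GP_nonneg _ _
  have f1 : ∀ i, f i ≤ 1 := fun i => by rw [hf]; exact GP_le_one _ _
  have h1 : ∑ i ∈ range R, GP P (R + i) (A ++ Y) ≤ ∑ i ∈ range R, f (R + i) + ρ1 := by
    calc ∑ i ∈ range R, GP P (R + i) (A ++ Y) ≤ ∑ i ∈ range R, f (R - ρ1 + i) := by
          refine sum_le_sum fun i _ => ?_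
          rw [hf]
          have h2 := GP_hi (P := P) (A := A) (ρ := R + i) (by omega : ρ1 ≤ R + i) hY
          rwa [show R + i - ρ1 = R - ρ1 + i by omega] at h2
      _ ≤ ∑ i ∈ range R, f (R - ρ1 + ρ1 + i) + ρ1 := sum_shift f0 f1 _ _ _
      _ = _ := by rw [Nat.sub_add_cancel hR]
  have h2 : ∑ i ∈ range R, f (R + i) ≤ ∑ i ∈ range R, GP P (R + i) (A ++ Y) + ρ1 := by
    calc ∑ i ∈ range R, f (R + i) ≤ ∑ i ∈ range R, f (R + ρ1 + i) + ρ1 := sum_shift f0 f1 _ _ _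
      _ ≤ _ := by
          refine add_le_add ?_ le_rfl
          refine sum_le_sum fun i _ => ?_
          rw [hf]
          have h2 := GP_lo (P := P) (A := A) (R + i) hY
          rwa [show R + i + ρ1 = R + ρ1 + i by omega] at h2
  have h3 : FP P R A = (∑ i ∈ range R, f (R + i)) / R := by rw [hf]; rfl
  rw [h3]
  unfold FP
  rw [← sub_div, abs_div, abs_of_pos hRr]
  refine div_le_div_of_nonneg_right ?_ hRr.le
  rw [abs_le]
  constructor <;> linarith

/-- the value of the largest radius is a lower bound -/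
lemma GP_le_FP {R : ℕ} (hR : 1 ≤ R) (t : List Bool) : GP P (2 * R) t ≤ FP P R t := by
  have hRr : (0 : ℝ) < R := by exact_mod_cast hR
  unfold FP
  rw [le_div_iff₀ hRr]
  calc GP P (2 * R) t * R = ∑ _i ∈ range R, GP P (2 * R) t := by
        rw [sum_const, card_range, nsmul_eq_mul, mul_comm]
    _ ≤ _ := by
        refine sum_le_sum fun i hi => GP_anti ?_ _
        have := mem_range.1 hi
        omega

/-- bad beginnings make bad words -/
lemma FP_le_ind (hP : ∀ A E : List Bool, A ∈ P → A ++ E ∈ P) [∀ t, Decidable (t ∈ P)] (R : ℕ) (t : List Bool) :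
    FP P R t ≤ if t ∈ P then 1 else 0 := by
  by_cases h : t ∈ P
  · rw [if_pos h]
    exact FP_le_one _ _
  · rw [if_neg h]
    have h1 : ∀ ρ, GP P ρ t = 0 := by
      intro ρ
      unfold GP
      refine if_neg ?_
      rintro ⟨j, -, h2, -⟩
      refine h ?_
      have := hP (t.take j) (t.drop j) h2
      rwa [List.take_append_drop] at this
    unfold FP
    rw [sum_eq_zero fun i _ => h1 _, zero_div]

/-! ### the walk is far from its end, in its box -/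

/-- probability on the words with n letters -/
lemma Pn_mono {n : ℕ} {S T : Set (List Bool)} (h : ∀ t ∈ SawN n, t ∈ S → t ∈ T) : TOG.Pn n S ≤ TOG.Pn n T := by
  unfold TOG.Pn
  refine div_le_div_of_nonneg_right ?_ (Nat.cast_nonneg _)
  have hf : ∀ C : Set (List Bool), {t | t ∈ SawN n ∧ t ∈ C}.Finite := fun C =>
    (List.finite_length_eq Bool n).subset fun t ht => ht.1.1
  exact_mod_cast Set.ncard_le_ncard (fun t ht => ⟨ht.1, h t ht.1 ht.2⟩ :
    {t | t ∈ SawN n ∧ t ∈ S} ⊆ {t | t ∈ SawN n ∧ t ∈ T}) (hf _)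

/-- **the walk is in its box** -/
theorem box_n {ε : ℝ} (hε : 0 < ε) : ∃ C k0 : ℕ, ∀ k n : ℕ, k0 ≤ k → TIP.Sc k n → TOG.Pn n {t | t ∉ WL (k + C)} ≤ ε := by
  obtain ⟨c, C, k0, d, A, LB, -, -, h⟩ := TIP.strU ε hε
  refine ⟨C, k0, fun k n hk hsc => ?_⟩
  obtain ⟨B, hB, hstr⟩ := h k n hk hsc
  refine (Pn_mono fun t ht hWt => ?_).trans hB
  by_contra htB
  exact hWt (hstr t ht htB).1

lemma JJ_hn' (p : Pt) : ‖NTF.JJ p‖ ≤ hn p := by
  have h1 := NTF.JJ_norm p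
  have h2 := nrm_le_hn p
  have h3 := hn_nonneg p
  have h4 : ((nrm p : ℤ) : ℝ) ≤ (hn p : ℝ) ^ 2 := by exact_mod_cast h2
  have h5 : ‖NTF.JJ p‖ ^ 2 ≤ (hn p : ℝ) ^ 2 := by
    rw [h1]
    exact h4
  exact (sq_le_sq₀ (norm_nonneg _) (by exact_mod_cast h3)).1 h5

/-- the number of letters is large -/
lemma le_Sc {k n : ℕ} (h : TIP.Sc k n) : k ≤ n := by
  have h1 := mz_low 0 k
  rw [zero_add] at h1
  have h2 := mz_one 0
  have h3 : (k : ℝ) ≤ 2 ^ k := by exact_mod_cast Nat.lt_two_pow_self.le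
  have h4 : (k : ℝ) ≤ n := by
    calc (k : ℝ) ≤ 2 ^ k := h3
      _ = 2 ^ k * 1 := (mul_one _).symm
      _ ≤ 2 ^ k * PW.mZ (2 ^ 0) := by gcongr
      _ ≤ PW.mZ (2 ^ k) := h1
      _ ≤ n := h.1
  exact_mod_cast h4

open Pool.Agent.IW (rvw rvw_app rvw_mem rvw_rvw split_last Pn_rvw) in
/-- **the first three quarters are far from the end** -/
theorem far_end {ε : ℝ} (hε : 0 < ε) : ∃ c k0 : ℕ, ∀ k n : ℕ, k0 ≤ k → TIP.Sc k n →
    TOG.Pn n {t | ∃ i, 4 * i ≤ 3 * n ∧ hn (vx oo up t i - TIW.en t) < 2 ^ (k - c)} ≤ ε := by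
  obtain ⟨c1, hc1, n0, hps⟩ := TIP.NQ.ps (θ := 1 / 4) (e := ε) (by norm_num) hε
  obtain ⟨a, A, ha, hA, hpow⟩ := TIP.NQ.scale_pow
  obtain ⟨c, hc⟩ := exists_pow_lt_of_lt_one (show 0 < c1 * a by positivity) (show (1 / 2 : ℝ) < 1 by norm_num)
  refine ⟨c, max (n0 + 1) c, fun k n hk hsc => ?_⟩
  have hkn := le_Sc hsc
  have hk0 : n0 + 1 ≤ k := (le_max_left _ _).trans hk
  have hkc : c ≤ k := (le_max_right _ _).trans hk
  have hn0 : 0 < n := by omega
  have hnum : (2 : ℝ) ^ (k - c) ≤ c1 * (n : ℝ) ^ (3 / 4 : ℝ) := by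
    have h1 := (hpow k n hsc.1 hsc.2).1
    have h2 : (2 : ℝ) ^ (k - c) = (1 / 2) ^ c * 2 ^ k := by
      have : (2 : ℝ) ^ k = 2 ^ c * 2 ^ (k - c) := by
        rw [← pow_add]
        congr 1
        omega
      rw [this, ← mul_assoc, ← mul_pow]
      norm_num
    rw [h2]
    calc (1 / 2 : ℝ) ^ c * 2 ^ k ≤ c1 * a * 2 ^ k := mul_le_mul_of_nonneg_right hc.le (by positivity)
      _ = c1 * (a * 2 ^ k) := by ring
      _ ≤ _ := mul_le_mul_of_nonneg_left h1 hc1.le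
  have h3 := hps n (by omega)
  rw [← Pn_rvw hn0] at h3
  refine (Pn_mono fun t ht hbad => ?_).trans h3
  obtain ⟨i, hi, hi2⟩ := hbad
  obtain ⟨s, b, rfl, hs⟩ := split_last hn0 ht.1
  show ∃ j : ℕ, (1 / 4 : ℝ) * n ≤ j ∧ j ≤ n ∧ ‖NTF.JJ (vx oo up (rvw (s ++ [b])) j)‖ ≤ c1 * (n : ℝ) ^ (3 / 4 : ℝ)
  refine ⟨n - i, ?_, by omega, ?_⟩
  · have h4 : n ≤ 4 * (n - i) := by omega
    have h5 : (n : ℝ) ≤ 4 * ((n - i : ℕ) : ℝ) := by exact_mod_cast h4
    linarith
  · have h4 : hn (vx oo up (rvw (s ++ [b])) (n - i)) = hn (vx oo up (s ++ [b]) i - TIW.en (s ++ [b])) := by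
      rw [rvw_app, vx_append (by rw [rev_length]; omega), MCP.rev_hn s (by omega), MCP.en_snoc, vx_append (by omega)]
      congr 3
      omega
    refine (JJ_hn' _).trans ?_
    rw [h4]
    have h5 : ((hn (vx oo up (s ++ [b]) i - TIW.en (s ++ [b])) : ℤ) : ℝ) < ((2 ^ (k - c) : ℤ) : ℝ) := by exact_mod_cast hi2
    push_cast at h5
    exact h5.le.trans hnum

/-! ### the transfer -/

lemma aS_pos (n : ℕ) : (0 : ℝ) < (cS n : ℝ) * xc ^ n := by
  have h1 : (0 : ℝ) < xc ^ n := pow_pos xc_pos n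
  have h3 : (0 : ℝ) < cS n := by exact_mod_cast TOG.cS_pos n
  positivity

open Classical in
lemma Pn_card (n : ℕ) (S : Set (List Bool)) : TOG.Pn n S = (((sawF n).filter fun t => t ∈ S).card : ℝ) / cS n := by
  unfold TOG.Pn
  congr 2
  rw [← Set.ncard_coe_finset]
  congr 1
  ext t
  rw [Finset.coe_filter]
  simp only [Set.mem_setOf_eq, mem_sawF]

open Classical in
/-- the weight of an event -/
lemma sum_ind (n : ℕ) (S : Set (List Bool)) :
    xc ^ n * ∑ t ∈ sawF n, (if t ∈ S then (1 : ℝ) else 0) = (cS n : ℝ) * xc ^ n * TOG.Pn n S := by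
  have h3 : (0 : ℝ) < cS n := by exact_mod_cast TOG.cS_pos n
  rw [Pn_card, ← Finset.sum_filter, sum_const, nsmul_eq_mul, mul_one]
  field_simp

/-- **the transfer**: from a small critical mass in the box to the words with n letters, bad beginnings -/
theorem pre_of {ε : ℝ} (hε : 0 < ε) : ∃ (q k0 : ℕ) (e0 : ℝ), 0 < e0 ∧ ∀ k n : ℕ, k0 ≤ k → TIP.Sc k n →
    ∀ P : Set (List Bool), (∀ A E : List Bool, A ∈ P → A ++ E ∈ P) →
      gf {t | t ∈ WL (k + q) ∧ t.length ≤ ML (k + q + 2) ∧ t ∈ P} ≤ ENNReal.ofReal e0 * FK (k + q) →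
      TOG.Pn n {t | ∃ j, 4 * j ≤ 3 * n ∧ t.take j ∈ P} ≤ ε := by
  classical
  obtain ⟨τ, hτ, hS⟩ := SLW.slowF (ε / 8) (by positivity)
  obtain ⟨s, hs⟩ := exists_pow_lt_of_lt_one hτ (show (1 / 2 : ℝ) < 1 by norm_num)
  obtain ⟨c, k1, hfar⟩ := far_end (ε := ε / 8) (by positivity)
  obtain ⟨c2, k2, hS⟩ := hS (c + 1 + s)
  obtain ⟨CA, hCA, hmon, hreg⟩ := SLW.aReg
  obtain ⟨Cb, k3, hbox⟩ := box_n (ε := ε / (8 * CA)) (by positivity)
  obtain ⟨cl, κ, k4, hcl, -, hbig⟩ := EN.factsX_M.big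
  obtain ⟨Dx, hDx, hX⟩ := NTA.Xb_pow
  have hDx0 : 0 < Dx := by linarith
  -- the constants
  obtain ⟨q, hq⟩ : ∃ q : ℕ, q = Cb + 1 := ⟨_, rfl⟩
  obtain ⟨CF, hCF⟩ : ∃ CF : ℝ, CF = 2 ^ q * Dx ^ (2 * q) / cl := ⟨_, rfl⟩
  have hCF0 : 0 < CF := by rw [hCF]; positivity
  obtain ⟨e0, he0⟩ : ∃ e0 : ℝ, e0 = ε / (8 * CF * 2 ^ (c2 + 2)) := ⟨_, rfl⟩
  have he00 : 0 < e0 := by rw [he0]; positivity
  obtain ⟨Z0, hZ0⟩ : ∃ Z0 : ℕ, Z0 = 2 ^ (c2 + 2) := ⟨_, rfl⟩
  refine ⟨q, k1 + k2 + k3 + k4 + (c + 1 + s) + Z0, e0, he00, fun k n hk hsc P hpre hM => ?_⟩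
  have hkn := le_Sc hsc
  have h1n : 2 ^ (c2 + 2) ≤ n := by rw [← hZ0]; omega
  have h1n' : 1 ≤ n := Nat.one_le_two_pow.trans h1n
  have hnr : (0 : ℝ) < n := by exact_mod_cast h1n'
  obtain ⟨a, ha⟩ : ∃ a : ℕ → ℝ, a = fun m => (cS m : ℝ) * xc ^ m := ⟨_, rfl⟩
  have ha0 : ∀ m, 0 < a m := fun m => by rw [ha]; exact aS_pos m
  -- the functional
  obtain ⟨R, hR⟩ : ∃ R : ℕ, R = 2 ^ (k - (c + 1)) := ⟨_, rfl⟩
  have hR1 : 1 ≤ R := by rw [hR]; exact Nat.one_le_two_pow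
  have hRc : 2 * R = 2 ^ (k - c) := by
    rw [hR, ← pow_succ']
    congr 1
    omega
  obtain ⟨F, hF⟩ : ∃ F : List Bool → ℝ, F = FP P R := ⟨_, rfl⟩
  have hF0 : ∀ t, 0 ≤ F t := fun t => by rw [hF]; exact FP_nonneg _ _
  have hF1 : ∀ t, F t ≤ 1 := fun t => by rw [hF]; exact FP_le_one _ _
  have hosc : ∀ A Y, A ++ Y ∈ SA → (∀ i, i ≤ Y.length → hn (vx oo up Y i) < 2 ^ (k - (c + 1 + s))) →
      |F (A ++ Y) - F A| ≤ τ := by
    intro A Y _ hY
    rw [hF]
    have h1 : (2 ^ (k - (c + 1 + s)) : ℕ) ≤ R := by rw [hR]; exact Nat.pow_le_pow_right (by norm_num) (by omega)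
    have h2 := FP_osc (P := P) (A := A) (Y := Y) h1 hR1 (by push_cast; exact hY)
    refine h2.trans (le_trans (le_of_eq ?_) hs.le)
    have h3 : (R : ℝ) = 2 ^ (k - (c + 1 + s)) * 2 ^ s := by
      rw [hR, ← pow_add]
      push_cast
      congr 1
      omega
    rw [h3]
    push_cast
    rw [one_div, inv_pow]
    field_simp
  obtain ⟨S, hSd⟩ : ∃ S : ℕ → ℝ, S = fun m => xc ^ m * ∑ t ∈ sawF m, F t := ⟨_, rfl⟩
  have hslow : ∀ i : ℕ, i * 2 ^ (c2 + 1) ≤ n → S n ≤ S (n + 2 * i) + ε / 8 * a n := by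
    intro i hi
    have h1 := hS k n (2 * i) (by omega) hsc (even_two_mul i) (by
      calc 2 * i * 2 ^ c2 = i * 2 ^ (c2 + 1) := by rw [pow_succ]; ring
        _ ≤ n := hi) F (fun t => abs_le.2 ⟨by linarith [hF0 t], hF1 t⟩) hosc
    have h2 := (abs_le.1 h1).1
    rw [hSd, ha]
    simp only
    linarith
  -- the part outside of the box
  have hout : ∀ i : ℕ, 2 * i ≤ n → TOG.Pn (n + 2 * i) {t | t ∉ WL (k + q)} ≤ ε / (8 * CA) := by
    intro i hi
    have hm2 : ((n + 2 * i : ℕ) : ℝ) ≤ 2 * n := by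
      have : n + 2 * i ≤ 2 * n := by omega
      exact_mod_cast this
    have hmn : (n : ℝ) ≤ ((n + 2 * i : ℕ) : ℝ) := by exact_mod_cast Nat.le_add_right _ _
    rcases lt_or_ge (((n + 2 * i : ℕ) : ℝ)) (PW.mZ (2 ^ (k + 1))) with h1 | h1
    · exact (Pn_mono (S := {t | t ∉ WL (k + q)}) (T := {t | t ∉ WL (k + Cb)})
        fun t _ ht hWt => ht (SDN.WL_mono (by omega) hWt)).trans (hbox k (n + 2 * i) (by omega) ⟨hsc.1.trans hmn, h1⟩)
    · refine (Pn_mono (S := {t | t ∉ WL (k + q)}) (T := {t | t ∉ WL (k + 1 + Cb)})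
        fun t _ ht hWt => ht (SDN.WL_mono (by omega) hWt)).trans (hbox (k + 1) (n + 2 * i) (by omega) ⟨h1, ?_⟩)
      have h2 := mz_low (k + 1) 1
      have h3 := hsc.2
      rw [pow_one] at h2
      calc ((n + 2 * i : ℕ) : ℝ) ≤ 2 * n := hm2
        _ < 2 * PW.mZ (2 ^ (k + 1)) := by linarith
        _ ≤ _ := h2
  have hra : ∀ i : ℕ, 2 * i ≤ n → a (n + 2 * i) ≤ CA * a n := by
    intro i hi
    rw [ha]
    exact hreg (n + 2 * i) n (by omega) (by omega) h1n'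
  -- the part in the box
  obtain ⟨g, hg⟩ : ∃ g : ℕ → ℝ, g = fun m => ∑ t ∈ (sawF m).filter (fun t => t ∈ WL (k + q) ∧ t ∈ P), xc ^ m := ⟨_, rfl⟩
  have hSle : ∀ i : ℕ, 2 * i ≤ n → S (n + 2 * i) ≤ g (n + 2 * i) + ε / 8 * a n := by
    intro i hi
    have h1 : S (n + 2 * i) ≤ g (n + 2 * i) + a (n + 2 * i) * TOG.Pn (n + 2 * i) {t | t ∉ WL (k + q)} := by
      rw [hSd, hg, ha]
      simp only
      rw [← sum_ind, Finset.sum_filter, Finset.mul_sum, Finset.mul_sum, ← Finset.sum_add_distrib]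
      refine sum_le_sum fun t _ => ?_
      have hx : (0 : ℝ) ≤ xc ^ (n + 2 * i) := (pow_pos xc_pos _).le
      have h2 := FP_le_ind hpre R t
      rw [← hF] at h2
      by_cases hW : t ∈ WL (k + q)
      · rw [if_neg (show ¬ t ∈ {t | t ∉ WL (k + q)} from fun h => h hW), mul_zero, add_zero]
        by_cases hP : t ∈ P
        · rw [if_pos ⟨hW, hP⟩]
          calc xc ^ (n + 2 * i) * F t ≤ xc ^ (n + 2 * i) * 1 := mul_le_mul_of_nonneg_left (hF1 t) hx
            _ = _ := mul_one _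
        · rw [if_neg hP] at h2
          rw [if_neg (fun h => hP h.2)]
          have h3 : F t = 0 := le_antisymm h2 (hF0 t)
          rw [h3, mul_zero]
      · rw [if_pos (show t ∈ {t | t ∉ WL (k + q)} from hW), if_neg (fun h => hW h.1), zero_add]
        exact mul_le_mul_of_nonneg_left (hF1 t) hx
    refine h1.trans (add_le_add le_rfl ?_)
    have h2 := hout i hi
    have h3 := hra i hi
    calc a (n + 2 * i) * TOG.Pn (n + 2 * i) {t | t ∉ WL (k + q)} ≤ (CA * a n) * (ε / (8 * CA)) := by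
          have h4 : 0 ≤ a n := (ha0 n).le
          have h5 : 0 ≤ a (n + 2 * i) := (ha0 _).le
          have h6 : 0 ≤ ε / (8 * CA) := by positivity
          calc _ ≤ a (n + 2 * i) * (ε / (8 * CA)) := mul_le_mul_of_nonneg_left h2 h5
            _ ≤ _ := mul_le_mul_of_nonneg_right h3 h6
      _ = ε / 8 * a n := by field_simp
  -- the number of terms
  obtain ⟨N1, hN1⟩ : ∃ N1 : ℕ, N1 = n / 2 ^ (c2 + 1) := ⟨_, rfl⟩
  have hN1a : N1 * 2 ^ (c2 + 1) ≤ n := by rw [hN1]; exact Nat.div_mul_le_self _ _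
  have hN1b : n < (N1 + 1) * 2 ^ (c2 + 1) := by
    rw [hN1, add_mul, one_mul]
    have h1 := Nat.div_add_mod n (2 ^ (c2 + 1))
    have h2 := Nat.mod_lt n (show 0 < 2 ^ (c2 + 1) by positivity)
    rw [mul_comm] at h1
    omega
  have hN11 : 2 ≤ N1 := by
    rw [hN1, Nat.le_div_iff_mul_le (by positivity)]
    calc 2 * 2 ^ (c2 + 1) = 2 ^ (c2 + 2) := by rw [pow_succ 2 (c2 + 1)]; ring
      _ ≤ n := h1n
  have hN1c : n ≤ N1 * 2 ^ (c2 + 2) := by
    have h1 : (N1 + 1) * 2 ^ (c2 + 1) ≤ N1 * 2 ^ (c2 + 2) := by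
      rw [show N1 * 2 ^ (c2 + 2) = (2 * N1) * 2 ^ (c2 + 1) by rw [pow_succ 2 (c2 + 1)]; ring]
      exact Nat.mul_le_mul_right _ (by omega)
    omega
  have hi2 : ∀ i ∈ range N1, i * 2 ^ (c2 + 1) ≤ n ∧ 2 * i ≤ n := by
    intro i hi
    have h1 := mem_range.1 hi
    have h2 : i * 2 ^ (c2 + 1) ≤ N1 * 2 ^ (c2 + 1) := Nat.mul_le_mul_right _ h1.le
    have h3 : 2 ≤ 2 ^ (c2 + 1) := by
      calc 2 = 2 ^ 1 := rfl
        _ ≤ 2 ^ (c2 + 1) := Nat.pow_le_pow_right (by norm_num) (by omega)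
    have h4 : i * 2 ≤ i * 2 ^ (c2 + 1) := Nat.mul_le_mul_left _ h3
    omega
  -- the mass in the box
  have hbox2 : ∑ i ∈ range N1, g (n + 2 * i) ≤ e0 * (CF * n * a n) := by
    obtain ⟨T, hT⟩ : ∃ T : Finset (List Bool), T = (range N1).biUnion fun i =>
      (sawF (n + 2 * i)).filter (fun t => t ∈ WL (k + q) ∧ t ∈ P) := ⟨_, rfl⟩
    have h1 : ∑ t ∈ T, xc ^ t.length = ∑ i ∈ range N1, g (n + 2 * i) := by
      rw [hT, Finset.sum_biUnion]
      · refine sum_congr rfl fun i _ => ?_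
        rw [hg]
        refine sum_congr rfl fun t ht => ?_
        rw [(mem_sawF.1 (mem_filter.1 ht).1).1]
      · intro i _ j _ hij
        rw [Function.onFun, Finset.disjoint_left]
        intro t ht1 ht2
        have e1 := (mem_sawF.1 (mem_filter.1 ht1).1).1
        have e2 := (mem_sawF.1 (mem_filter.1 ht2).1).1
        exact hij (by omega)
    have h2 : gf (T : Set (List Bool)) ≤ gf {t | t ∈ WL (k + q) ∧ t.length ≤ ML (k + q + 2) ∧ t ∈ P} := by
      refine gf_mono fun t ht => ?_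
      rw [hT, Finset.mem_coe, Finset.mem_biUnion] at ht
      obtain ⟨i, hi, ht⟩ := ht
      obtain ⟨ht1, ht2, ht3⟩ := mem_filter.1 ht
      refine ⟨ht2, ?_, ht3⟩
      rw [(mem_sawF.1 ht1).1]
      have h3 := (hi2 i hi).2
      have h4 : (n : ℝ) + n ≤ PW.mZ (2 ^ (k + 2)) := by
        have h5 := mz_low (k + 1) 1
        have h6 := hsc.2
        rw [pow_one] at h5
        have h7 : k + 1 + 1 = k + 2 := rfl
        rw [h7] at h5
        linarith
      have h5 : PW.mZ (2 ^ (k + 2)) ≤ ML (k + q + 2) := (mz_mono (by omega)).trans (ML_ge _)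
      have h6 : ((n + 2 * i : ℕ) : ℝ) ≤ (ML (k + q + 2) : ℝ) := by
        have h7 : ((n + 2 * i : ℕ) : ℝ) ≤ (n : ℝ) + n := by
          have : n + 2 * i ≤ n + n := by omega
          exact_mod_cast this
        linarith
      exact_mod_cast h6
    have h3 : FK (k + q) ≤ ENNReal.ofReal (CF * n * a n) := by
      have hm := mz_pos k
      have hUk := TS.Ub_pos k
      have e1 : ENNReal.ofReal cl * (ENNReal.ofReal (Ub k / PW.mZ (2 ^ k)) * Xb k ^ 2) ≤ ENNReal.ofReal (a n) := by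
        have h5 : gf (SawN n) = ENNReal.ofReal (a n) := by rw [ha]; exact TOG.gf_ncard subset_rfl
        rw [← h5]
        exact (hbig k n (by omega) hsc.1 hsc.2).trans (gf_mono fun t ht => ht.1)
      have e2 : FK (k + q) ≤ ENNReal.ofReal (2 ^ q * Ub k) * (ENNReal.ofReal (Dx ^ q) * Xb k) ^ 2 := by
        unfold FK
        exact mul_le_mul' (ENNReal.ofReal_le_ofReal (SDN.Ub_add k q)) (pow_le_pow_left' (hX k q) 2)
      refine e2.trans ?_
      have e3 : ENNReal.ofReal (2 ^ q * Ub k) * (ENNReal.ofReal (Dx ^ q) * Xb k) ^ 2 =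
          ENNReal.ofReal (2 ^ q * Dx ^ (2 * q) * PW.mZ (2 ^ k) / cl) *
            (ENNReal.ofReal cl * (ENNReal.ofReal (Ub k / PW.mZ (2 ^ k)) * Xb k ^ 2)) := by
        rw [mul_pow, ← ENNReal.ofReal_pow (by positivity)]
        rw [show ENNReal.ofReal (2 ^ q * Dx ^ (2 * q) * PW.mZ (2 ^ k) / cl) *
            (ENNReal.ofReal cl * (ENNReal.ofReal (Ub k / PW.mZ (2 ^ k)) * Xb k ^ 2)) =
            (ENNReal.ofReal (2 ^ q * Dx ^ (2 * q) * PW.mZ (2 ^ k) / cl) * ENNReal.ofReal cl *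
              ENNReal.ofReal (Ub k / PW.mZ (2 ^ k))) * Xb k ^ 2 by ring]
        rw [← mul_assoc]
        congr 1
        rw [← ENNReal.ofReal_mul (by positivity), ← ENNReal.ofReal_mul (by positivity),
          ← ENNReal.ofReal_mul (by positivity)]
        congr 1
        field_simp
        rw [← pow_mul, mul_comm q 2]
      rw [e3]
      refine (mul_le_mul' le_rfl e1).trans ?_
      rw [← ENNReal.ofReal_mul (by positivity)]
      refine ENNReal.ofReal_le_ofReal ?_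
      rw [hCF]
      have h4 := hsc.1
      have h5 := (ha0 n).le
      calc 2 ^ q * Dx ^ (2 * q) * PW.mZ (2 ^ k) / cl * a n ≤ 2 ^ q * Dx ^ (2 * q) * n / cl * a n := by gcongr
        _ = 2 ^ q * Dx ^ (2 * q) / cl * n * a n := by ring
    have h4 : ENNReal.ofReal (∑ i ∈ range N1, g (n + 2 * i)) ≤ ENNReal.ofReal (e0 * (CF * n * a n)) := by
      rw [← h1, ← gf_finset]
      refine (h2.trans hM).trans ?_
      rw [ENNReal.ofReal_mul he00.le]
      exact mul_le_mul' le_rfl h3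
    have h5 : 0 ≤ e0 * (CF * n * a n) := by
      have := (ha0 n).le
      positivity
    exact (ENNReal.ofReal_le_ofReal_iff h5).1 h4
  -- the mean of the functional
  have hmean : S n ≤ 3 * ε / 8 * a n := by
    have h1 : (N1 : ℝ) * S n ≤ ∑ i ∈ range N1, g (n + 2 * i) + N1 * (ε / 4 * a n) := by
      calc (N1 : ℝ) * S n = ∑ _i ∈ range N1, S n := by rw [sum_const, card_range, nsmul_eq_mul]
        _ ≤ ∑ i ∈ range N1, (g (n + 2 * i) + ε / 4 * a n) := by
            refine sum_le_sum fun i hi => ?_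
            have h2 := hslow i (hi2 i hi).1
            have h3 := hSle i (hi2 i hi).2
            linarith
        _ = _ := by rw [sum_add_distrib, sum_const, card_range, nsmul_eq_mul]
    have h2 : e0 * (CF * n * a n) ≤ N1 * (ε / 8 * a n) := by
      have h3 : (n : ℝ) ≤ N1 * 2 ^ (c2 + 2) := by exact_mod_cast hN1c
      have h4 := (ha0 n).le
      calc e0 * (CF * n * a n) ≤ e0 * (CF * (N1 * 2 ^ (c2 + 2)) * a n) := by gcongr
        _ = N1 * (ε / 8 * a n) := by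
            rw [he0]
            field_simp
    have h5 : (0 : ℝ) < N1 := by
      have : 0 < N1 := by omega
      exact_mod_cast this
    have h6 : (N1 : ℝ) * S n ≤ N1 * (3 * ε / 8 * a n) := by
      have h7 := h1.trans (add_le_add (hbox2.trans h2) le_rfl)
      calc (N1 : ℝ) * S n ≤ N1 * (ε / 8 * a n) + N1 * (ε / 4 * a n) := h7
        _ = _ := by ring
    exact le_of_mul_le_mul_left h6 h5
  -- the end
  have hG : TOG.Pn n {t | GP P (2 * R) t = 1} ≤ 3 * ε / 8 := by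
    have h1 : a n * TOG.Pn n {t | GP P (2 * R) t = 1} ≤ S n := by
      rw [ha, hSd]
      simp only
      rw [← sum_ind]
      refine mul_le_mul_of_nonneg_left (sum_le_sum fun t _ => ?_) (pow_pos xc_pos n).le
      by_cases h2 : t ∈ {t | GP P (2 * R) t = 1}
      · rw [if_pos h2, hF]
        have h3 : GP P (2 * R) t = 1 := h2
        have h4 := GP_le_FP (P := P) hR1 t
        linarith
      · rw [if_neg h2]
        exact hF0 t
    have h2 := h1.trans hmean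
    rw [mul_comm] at h2
    exact le_of_mul_le_mul_right h2 (ha0 n)
  have hfin : TOG.Pn n {t | ∃ j, 4 * j ≤ 3 * n ∧ t.take j ∈ P} ≤
      TOG.Pn n {t | ∃ i, 4 * i ≤ 3 * n ∧ hn (vx oo up t i - TIW.en t) < 2 ^ (k - c)} +
        TOG.Pn n {t | GP P (2 * R) t = 1} := by
    refine (Pn_mono (T := {t | ∃ i, 4 * i ≤ 3 * n ∧ hn (vx oo up t i - TIW.en t) < 2 ^ (k - c)} ∪
      {t | GP P (2 * R) t = 1}) fun t ht hbad => ?_).trans (pn_union h1n' _ _)
    by_cases h1 : ∃ i, 4 * i ≤ 3 * n ∧ hn (vx oo up t i - TIW.en t) < 2 ^ (k - c)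
    · exact Or.inl h1
    refine Or.inr ?_
    push Not at h1
    obtain ⟨j, hj, hj2⟩ := hbad
    show GP P (2 * R) t = 1
    unfold GP
    refine if_pos ⟨j, by rw [ht.1]; omega, hj2, fun i hi => ?_⟩
    have h2 := h1 i (by omega)
    rw [hRc]
    push_cast
    exact h2
  have h8 := hfar k n (by omega) hsc
  linarith

/-- **row X1** -/
theorem x1 (hW : MainW) : X1N := by
  intro ε hε
  obtain ⟨q, k0, e0, he0, htr⟩ := pre_of hε
  obtain ⟨C4, hC4, hup⟩ := exists_mz_up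
  have hC40 : 0 < C4 := by linarith
  obtain ⟨εW, hεW⟩ : ∃ εW : ℝ, εW = min e0 (ε / (C4 * 4 ^ q)) := ⟨_, rfl⟩
  have hεW0 : 0 < εW := by rw [hεW]; exact lt_min he0 (by positivity)
  have hεW1 : εW ≤ e0 := by rw [hεW]; exact min_le_left _ _
  have hεW2 : εW ≤ ε / (C4 * 4 ^ q) := by rw [hεW]; exact min_le_right _ _
  obtain ⟨d, hW⟩ := hW εW hεW0
  refine ⟨d, ⌈PW.mZ (2 ^ k0)⌉₊, fun r V hr hV k n hn hsc hrk => ?_⟩
  have hk : k0 ≤ k := by
    by_contra hcon
    have h1 : PW.mZ (2 ^ (k + 1)) ≤ PW.mZ (2 ^ k0) := mz_mono (by omega)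
    have h2 : PW.mZ (2 ^ k0) ≤ n := (Nat.le_ceil _).trans (by exact_mod_cast hn)
    have h3 := hsc.2
    linarith
  obtain ⟨ka, hka, hM⟩ := hW r V hr hV (k + q) (hrk.trans (Nat.pow_le_pow_right (by norm_num) (by omega)))
  refine ⟨ka, hka, ?_⟩
  obtain ⟨P, hP⟩ : ∃ P : Set (List Bool), P = {t | ¬ ∀ x y : ℕ, x ≤ y → y ≤ t.length →
    |ka * V (wd t x y) - ((y : ℝ) - x)| ≤ εW * PW.mZ (2 ^ (k + q))} := ⟨_, rfl⟩
  have hpre : ∀ A E : List Bool, A ∈ P → A ++ E ∈ P := by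
    intro A E hA
    rw [hP] at hA ⊢
    intro hcon
    refine hA fun x y hxy hy => ?_
    have h1 := hcon x y hxy (by rw [List.length_append]; omega)
    have h2 : wd (A ++ E) x y = wd A x y := by
      unfold wd
      rw [List.take_append_of_le_length hy]
    rwa [h2] at h1
  have h1 : gf {t | t ∈ WL (k + q) ∧ t.length ≤ ML (k + q + 2) ∧ t ∈ P} ≤ ENNReal.ofReal e0 * FK (k + q) := by
    rw [hP]
    exact hM.trans (mul_le_mul' (ENNReal.ofReal_le_ofReal hεW1) le_rfl)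
  have hnum : εW * PW.mZ (2 ^ (k + q)) ≤ ε * n := by
    have h2 := hup k q
    have h3 := hsc.1
    calc εW * PW.mZ (2 ^ (k + q)) ≤ ε / (C4 * 4 ^ q) * (C4 * 4 ^ q * PW.mZ (2 ^ k)) := by
          have := mz_pos (k + q)
          gcongr
      _ = ε * PW.mZ (2 ^ k) := by field_simp
      _ ≤ ε * n := by gcongr
  refine (Pn_mono fun t ht hbad => ?_).trans (htr k n hk hsc P hpre h1)
  have hbad : ¬ ∀ x y : ℕ, x ≤ y → 4 * y ≤ 3 * n → |ka * V (wd t x y) - ((y : ℝ) - x)| ≤ ε * n := hbad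
  push Not at hbad
  obtain ⟨x, y, hxy, hy, hgt⟩ := hbad
  refine ⟨y, hy, ?_⟩
  rw [hP]
  intro hcon
  have hyl : y ≤ t.length := by rw [ht.1]; omega
  have h2 := hcon x y hxy (by rw [List.length_take]; omega)
  have h3 : wd (t.take y) x y = wd t x y := by
    unfold wd
    rw [List.take_take, min_self]
  rw [h3] at h2
  linarith

end NPR

end HexObs
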