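import Pool.Agent.NPR.Defs2
import Pool.Agent.EN.ExtM
import Pool.Agent.NTA.XDbl
import Pool.Agent.TIW.Osc

/-!
# NPR, row E0 (helper58): factors of small extent with many letters are rare

* `Slo l x` : words of extent at most `6 * 2 ^ l` with at least `x` letters;
* **`extK`** : words of the box of the scale `K` with a factor of extent `2 ^ (L - v)` and at least `m_L / 8` letters;
* **`timeF : TimeF`** (row E0), **`slowN : SlowN`** (row U2); `FK_upE` : the critical weight is doubling.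
-/

set_option autoImplicit false

namespace HexObs

namespace NPR

open Finset TS SDN TIW NTA TIP

open scoped ENNReal

/-- words of extent at most 6 * 2 ^ l with at least x letters -/
def Slo (l : ℕ) (x : ℝ) : Set (List Bool) := {Q | (∀ i, i ≤ Q.length → hn (vx oo up Q i) ≤ 6 * 2 ^ l) ∧ x ≤ (Q.length : ℝ)}

lemma lvl_hn (dir : Bool) (p : Pt) : |lvl dir p| ≤ hn p := by
  unfold lvl
  exact OscA.ip_abs p (by cases dir <;> decide)

lemma lvl_sb (dir : Bool) (p q : Pt) : lvl dir p - lvl dir q = lvl dir (p - q) := by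
  unfold lvl ip
  simp only [Prod.fst_sub, Prod.snd_sub]
  ring

/-- a factor of small extent is an infix in a small box -/
lemma bx_fac {l : ℕ} {X Q Y : List Bool} (h : ∀ i, i ≤ Q.length → hn (vx oo up Q i) ≤ 6 * 2 ^ l) :
    Bx (l + 2) (X ++ (Q ++ Y)) X.length (X.length + Q.length) := by
  refine ⟨by omega, by rw [List.length_append, List.length_append]; omega, fun dir i j hi hi' hj hj' => ?_⟩
  obtain ⟨i, rfl⟩ := Nat.exists_eq_add_of_le hi
  obtain ⟨j, rfl⟩ := Nat.exists_eq_add_of_le hj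
  rw [vx_app, vx_app, vx_append (by omega), vx_append (by omega), lvl_sb, add_sub_add_left_eq_sub, ← mulE_sub]
  refine (le_abs_self _).trans ((lvl_hn dir _).trans ?_)
  rw [hn_mulE (nrm_rt X), sub_eq_add_neg]
  have h1 := hn_add (vx oo up Q i) (-vx oo up Q j)
  rw [hn_neg] at h1
  have h2 := h i (by omega)
  have h3 := h j (by omega)
  have h4 : (3 : ℤ) * 2 ^ (l + 2) = 12 * 2 ^ l := by ring
  have h5 : (0 : ℤ) < 2 ^ l := by positivity
  rw [h4]
  linarith

lemma FK_upE : ∃ C : ℝ, 1 ≤ C ∧ ∀ L j : ℕ, FK (L + j) ≤ ENNReal.ofReal (C ^ j) * FK L := by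
  obtain ⟨C, hC, hX⟩ := XDbl.pow xDbl
  refine ⟨2 * C ^ 2, by nlinarith [one_le_pow₀ hC (n := 2)], fun L j => ?_⟩
  have hU : ∀ j : ℕ, Ub (L + j) ≤ 2 ^ j * Ub L := by
    intro j
    induction j with
    | zero => simp
    | succ j ih =>
      have h1 := DL.Ub_succ' (L + j)
      calc Ub (L + (j + 1)) ≤ 2 * Ub (L + j) := h1
        _ ≤ 2 * (2 ^ j * Ub L) := by linarith
        _ = 2 ^ (j + 1) * Ub L := by ring
  have hC0 : (0 : ℝ) ≤ C := by linarith
  unfold FK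
  calc ENNReal.ofReal (Ub (L + j)) * Xb (L + j) ^ 2
      ≤ ENNReal.ofReal (2 ^ j * Ub L) * (ENNReal.ofReal (C ^ j) * Xb L) ^ 2 :=
        mul_le_mul' (ENNReal.ofReal_le_ofReal (hU j)) (pow_le_pow_left' (hX L j) 2)
    _ = ENNReal.ofReal ((2 * C ^ 2) ^ j) * (ENNReal.ofReal (Ub L) * Xb L ^ 2) := by
        rw [mul_pow (2 : ℝ) (C ^ 2), ENNReal.ofReal_mul (by positivity), mul_pow, ← ENNReal.ofReal_pow (by positivity),
          ENNReal.ofReal_mul (by positivity)]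
        have e : (C ^ j) ^ 2 = (C ^ 2) ^ j := by ring
        rw [e]
        ring

/-- **E0: factors of small extent with many letters are rare** -/
theorem extK : ∃ B : ℝ, 1 ≤ B ∧ ∀ q : ℕ, ∃ A : ℝ, 1 ≤ A ∧ ∀ K L v : ℕ, L ≤ K → v ≤ L →
    gf {t | t ∈ WL K ∧ t ∈ Fac (Slo (L - v) (PW.mZ (2 ^ L) / 8))} ≤ ENNReal.ofReal (A * B ^ (K - L) / 2 ^ (q * v)) * FK K := by
  obtain ⟨C, hC, h⟩ := ti_M
  obtain ⟨T, hT, hT2⟩ := ens_WL.tot
  obtain ⟨c, hc⟩ := pow_unbounded_of_one_lt C (one_lt_two : (1 : ℝ) < 2)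
  refine ⟨C, hC, fun q => ?_⟩
  obtain ⟨A, hA, h⟩ := h (q + c)
  have hA0 : (0 : ℝ) < A := by linarith
  refine ⟨A * 8 ^ (q + c) + T * 2 ^ (q * 2), ?_, fun K L v hLK hv => ?_⟩
  · have h1 : (1 : ℝ) ≤ 8 ^ (q + c) := one_le_pow₀ (by norm_num)
    have h2 : (0 : ℝ) ≤ T * 2 ^ (q * 2) := by positivity
    nlinarith
  have hpl := mlow_M.pos (L - v)
  have hpL := mlow_M.pos L
  have h2 : (2 : ℝ) ^ v * PW.mZ (2 ^ (L - v)) ≤ PW.mZ (2 ^ L) := by
    have h3 := MLow.two mlow_M (L - v) v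
    rwa [Nat.sub_add_cancel hv] at h3
  have hCK : (1 : ℝ) ≤ C ^ (K - L) := one_le_pow₀ hC
  rcases le_or_gt (8 * PW.mZ (2 ^ (L - v))) (PW.mZ (2 ^ L)) with hl | hl
  · -- many letters
    have hlam : 1 ≤ PW.mZ (2 ^ L) / (8 * PW.mZ (2 ^ (L - v))) := by
      rw [le_div_iff₀ (by positivity)]
      linarith
    have h4 : (2 : ℝ) ^ v / 8 ≤ PW.mZ (2 ^ L) / (8 * PW.mZ (2 ^ (L - v))) := by
      rw [div_le_div_iff₀ (by norm_num) (by positivity)]
      linarith
    have h5 := h K (L - v) _ (by omega) hlam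
    refine (gf_mono ?_).trans (h5.trans (mul_le_mul_left (ENNReal.ofReal_le_ofReal ?_) _))
    · rintro t ⟨ht, X, Q, Y, rfl, hQ1, hQ2⟩
      refine ⟨ht, X.length, X.length + Q.length, bx_fac hQ1, ?_⟩
      push_cast
      have e : PW.mZ (2 ^ L) / (8 * PW.mZ (2 ^ (L - v))) * PW.mZ (2 ^ (L - v)) = PW.mZ (2 ^ L) / 8 := by
        field_simp
      rw [e]
      linarith
    · have h6 : ((2 : ℝ) ^ v / 8) ^ (q + c) ≤ (PW.mZ (2 ^ L) / (8 * PW.mZ (2 ^ (L - v)))) ^ (q + c) :=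
        pow_le_pow_left₀ (by positivity) h4 _
      have h7 : A / (PW.mZ (2 ^ L) / (8 * PW.mZ (2 ^ (L - v)))) ^ (q + c) ≤ A * 8 ^ (q + c) / 2 ^ (v * (q + c)) := by
        calc A / (PW.mZ (2 ^ L) / (8 * PW.mZ (2 ^ (L - v)))) ^ (q + c) ≤ A / ((2 : ℝ) ^ v / 8) ^ (q + c) :=
              div_le_div_of_nonneg_left hA0.le (by positivity) h6
          _ = A * 8 ^ (q + c) / 2 ^ (v * (q + c)) := by
              rw [div_pow, ← pow_mul, div_div_eq_mul_div]
      have e1 : K - (L - v) = (K - L) + v := by omega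
      rw [e1, pow_add C]
      have h8 : C ^ v ≤ 2 ^ (v * c) := by
        rw [mul_comm, pow_mul]
        exact pow_le_pow_left₀ (by linarith) hc.le v
      calc A / (PW.mZ (2 ^ L) / (8 * PW.mZ (2 ^ (L - v)))) ^ (q + c) * (C ^ (K - L) * C ^ v)
          ≤ A * 8 ^ (q + c) / 2 ^ (v * (q + c)) * (C ^ (K - L) * 2 ^ (v * c)) := by
            refine mul_le_mul h7 (mul_le_mul_of_nonneg_left h8 (by positivity)) (by positivity) (by positivity)
        _ = A * 8 ^ (q + c) * C ^ (K - L) / 2 ^ (q * v) := by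
            have e2 : (2 : ℝ) ^ (v * (q + c)) = 2 ^ (q * v) * 2 ^ (v * c) := by
              rw [← pow_add]
              congr 1
              ring
            rw [e2]
            field_simp
        _ ≤ (A * 8 ^ (q + c) + T * 2 ^ (q * 2)) * C ^ (K - L) / 2 ^ (q * v) := by
            refine div_le_div_of_nonneg_right ?_ (by positivity)
            refine mul_le_mul_of_nonneg_right ?_ (by positivity)
            have : (0 : ℝ) ≤ T * 2 ^ (q * 2) := by positivity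
            linarith
  · -- v ≤ 2
    have hv1 : v ≤ 2 := by
      by_contra hv2
      push Not at hv2
      have h3 : (8 : ℝ) ≤ 2 ^ v := by
        calc (8 : ℝ) = 2 ^ 3 := by norm_num
          _ ≤ 2 ^ v := pow_le_pow_right₀ (by norm_num) hv2
      nlinarith
    refine (gf_mono (fun t ht => ht.1)).trans ((hT2 K).trans (mul_le_mul_left (ENNReal.ofReal_le_ofReal ?_) _))
    rw [le_div_iff₀ (by positivity)]
    have h3 : (2 : ℝ) ^ (q * v) ≤ 2 ^ (q * 2) := pow_le_pow_right₀ (by norm_num) (by nlinarith)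
    calc T * 2 ^ (q * v) ≤ T * 2 ^ (q * 2) := mul_le_mul_of_nonneg_left h3 (by linarith)
      _ ≤ A * 8 ^ (q + c) + T * 2 ^ (q * 2) := by
          have : (0 : ℝ) ≤ A * 8 ^ (q + c) := by positivity
          linarith
      _ ≤ (A * 8 ^ (q + c) + T * 2 ^ (q * 2)) * C ^ (K - L) := le_mul_of_one_le_right (by positivity) hCK

lemma hn_Bl {z : Pt} {D : ℕ} (h : z ∈ SIM.Bl oo D) : hn z ≤ 3 * D := by
  obtain ⟨a, b⟩ := z
  obtain ⟨h1, h2⟩ := h
  have e1 : (a, b).1 - (oo : Pt).1 = a := sub_zero a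
  have e2 : (a, b).2 - (oo : Pt).2 = b := sub_zero b
  rw [e1] at h1
  rw [e2] at h2
  rw [abs_le] at h1 h2
  unfold hn ip up rotL rotR
  simp only
  refine max_le (abs_le.2 ⟨?_, ?_⟩) (max_le (abs_le.2 ⟨?_, ?_⟩) (abs_le.2 ⟨?_, ?_⟩)) <;> linarith [h1.1, h1.2, h2.1, h2.2]

/-- **row E0** -/
theorem timeF : TimeF := by
  intro q
  obtain ⟨B, hB, h⟩ := extK
  obtain ⟨A, hA, h⟩ := h q
  refine ⟨A, B, hA, hB, fun K L v hLK hv => (gf_mono ?_).trans (h K L v hLK hv)⟩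
  rintro t ⟨ht, X, Q, Y, rfl, hQ1, hQ2⟩
  refine ⟨ht, X, Q, Y, rfl, fun i hi => ?_, hQ2⟩
  have h1 := hn_Bl (hQ1 i hi)
  push_cast at h1
  have h5 : (0 : ℤ) < 2 ^ (L - v) := by positivity
  linarith

/-- **row U2** -/
theorem slowN : SlowN := by
  intro δ hδ
  obtain ⟨B, hB, h⟩ := extK
  obtain ⟨A, hA, h⟩ := h 1
  obtain ⟨C, hC, hF⟩ := FK_upE
  have hA0 : (0 : ℝ) < A := by linarith
  have hB0 : (0 : ℝ) < B := by linarith
  have hC0 : (0 : ℝ) < C := by linarith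
  obtain ⟨v, hv⟩ := pow_unbounded_of_one_lt (A * B ^ 16 * C ^ 16 / δ) (one_lt_two : (1 : ℝ) < 2)
  refine ⟨v, v, fun L hL => ?_⟩
  refine (gf_mono ?_).trans ((h (L + 16) L v (by omega) hL).trans ((mul_le_mul_right (hF L 16) _).trans ?_))
  · rintro t ⟨ht, X, Q, Y, rfl, hQ1, hQ2⟩
    refine ⟨ht, X, Q, Y, rfl, fun i hi => ?_, ?_⟩
    · have h1 := hQ2 i hi
      have h5 : (0 : ℤ) < 2 ^ (L - v) := by positivity
      linarith
    · rw [hQ1]
      have h1 : PW.mZ (2 ^ L) ≤ (ML L : ℝ) := Nat.le_ceil _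
      have h2 := mlow_M.pos L
      linarith
  · rw [← mul_assoc, ← ENNReal.ofReal_mul (by positivity), Nat.add_sub_cancel_left, one_mul]
    refine mul_le_mul_left (ENNReal.ofReal_le_ofReal ?_) _
    rw [div_lt_iff₀ hδ] at hv
    rw [div_mul_eq_mul_div, div_le_iff₀ (by positivity)]
    linarith

end NPR

end HexObs
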