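import Pool.Agent.NPR.FlagO
import Pool.Agent.NPR.ExtT
import Pool.Agent.NTA.TbM
import Pool.Agent.NPR.TwoEnd

/-!
NPR, row E4 (helper42): two-ended masses with a flag at the end.
-/

set_option autoImplicit false

namespace HexObs

namespace NPR

open Finset TS SDN NTW NTA SIM TIW TIP TIP.YB

open scoped ENNReal

theorem extK' : ExtK := by
  obtain ⟨B, hB, h⟩ := extK
  refine ⟨B, hB, fun q => ?_⟩
  obtain ⟨A, hA, h⟩ := h q
  refine ⟨A, hA, fun K L v hLK hv => (gf_mono ?_).trans (h K L v hLK hv)⟩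
  rintro t ⟨h1, X, Q, Y, h2, h3, h4⟩
  refine ⟨h1, X, Q, Y, h2, fun i hi => (h3 i hi).le.trans ?_, le_trans ?_ h4⟩
  · have : (0 : ℤ) < 2 ^ (L - v) := by positivity
    linarith
  have := mZ_pos' L
  linarith

/-- large scales -/
lemma exists_Lg : ∃ L0 : ℕ, ∀ L, L0 ≤ L → Lg L := by
  obtain ⟨l0, h⟩ := mpow_M (1 / 3) (by norm_num)
  refine ⟨l0 + 20, fun L hL => ⟨by omega, ?_⟩⟩
  have h1 := h L (by omega)
  refine le_trans ?_ h1
  have e1 : (4 : ℝ) ^ 8 = (2 : ℝ) ^ ((16 : ℕ) : ℝ) := by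
    rw [Real.rpow_natCast]
    norm_num
  rw [e1]
  refine Real.rpow_le_rpow_of_exponent_le (by norm_num) ?_
  have h2 : (20 : ℝ) ≤ L := by
    have : 20 ≤ L := by omega
    exact_mod_cast this
  push_cast
  linarith

/-- low bridges with many letters -/
lemma long_free (q : ℕ) : ∃ A : ℝ, 1 ≤ A ∧ ∀ b L : ℕ, b + 4 ≤ L →
    gf {Z | Z ∈ BU ∧ hgt Z ≤ 2 ^ b ∧ Z ∈ {Z : List Bool | PW.mZ (2 ^ L) / 4 ^ 4 < (Z.length : ℝ)}} ≤
      ENNReal.ofReal (A / 2 ^ (q * (L - b)) * Ub b) := by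
  obtain ⟨A, hA, h⟩ := tb_M q
  have hU0 : ∀ b, 0 < Ub b := Ub_pos
  refine ⟨A * 256 ^ q + 2 ^ (8 * q), ?_, fun b L hbL => ?_⟩
  · have h1 : (1 : ℝ) ≤ 2 ^ (8 * q) := one_le_pow₀ (by norm_num)
    have h2 : 0 ≤ A * 256 ^ q := by positivity
    linarith
  have pq : (0 : ℝ) < 2 ^ (q * (L - b)) := by positivity
  have hmb := mZ_pos' b
  have hgrow : (2 : ℝ) ^ (L - b) * PW.mZ (2 ^ b) ≤ PW.mZ (2 ^ L) := by
    have h1 := mlow_M.low b (L - b)
    rw [show b + (L - b) = L by omega] at h1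
    refine le_trans (mul_le_mul_of_nonneg_right ?_ hmb.le) h1
    rw [← Real.rpow_natCast]
    refine Real.rpow_le_rpow_of_exponent_le (by norm_num) ?_
    have : (0 : ℝ) ≤ ((L - b : ℕ) : ℝ) := Nat.cast_nonneg _
    linarith
  have e4 : (4 : ℝ) ^ 4 = 256 := by norm_num
  rcases Nat.lt_or_ge (L - b) 8 with h8 | h8
  · refine (gf_mono (Q := {V | V ∈ BU ∧ hgt V ≤ 2 ^ b}) fun Z hZ => ⟨hZ.1, hZ.2.1⟩).trans
      ((gf_low _).trans (ENNReal.ofReal_le_ofReal ?_))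
    have h1 : UU (2 ^ b) = Ub b := rfl
    rw [h1]
    refine le_mul_of_one_le_left (hU0 b).le ?_
    rw [le_div_iff₀ pq, one_mul]
    have h2 : (2 : ℝ) ^ (q * (L - b)) ≤ 2 ^ (8 * q) := pow_le_pow_right₀ (by norm_num) (by
      rw [mul_comm]
      exact Nat.mul_le_mul_right _ h8.le)
    have h3 : 0 ≤ A * 256 ^ q := by positivity
    linarith
  · have hsub : {Z | Z ∈ BU ∧ hgt Z ≤ 2 ^ b ∧ Z ∈ {Z : List Bool | PW.mZ (2 ^ L) / 4 ^ 4 < (Z.length : ℝ)}} ⊆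
        ⋃ h ∈ Finset.range (2 ^ b + 1), {Z | Z ∈ Brd h ∧ 2 ^ (L - b) / 256 * PW.mZ (2 ^ b) ≤ (Z.length : ℝ)} := by
      rintro Z ⟨h1, h2, h3⟩
      rw [Set.mem_iUnion₂]
      refine ⟨hgt Z, mem_range.2 (by omega), TIP.BU_hgt h1, ?_⟩
      have h4 : PW.mZ (2 ^ L) / 4 ^ 4 < (Z.length : ℝ) := h3
      rw [e4] at h4
      refine le_trans ?_ h4.le
      rw [div_mul_eq_mul_div]
      gcongr
    refine (gf_mono hsub).trans ((BAR.gf_bi_le _ _).trans ?_)
    have h1 := h b (2 ^ (L - b) / 256) (by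
      rw [le_div_iff₀ (by norm_num), one_mul]
      calc (256 : ℝ) = 2 ^ 8 := by norm_num
        _ ≤ 2 ^ (L - b) := pow_le_pow_right₀ (by norm_num) h8)
    refine le_trans h1 (ENNReal.ofReal_le_ofReal (mul_le_mul_of_nonneg_right ?_ (hU0 b).le))
    rw [div_pow, div_div_eq_mul_div, ← pow_mul, mul_comm (L - b) q]
    rw [div_le_div_iff_of_pos_right pq]
    have h3 : (0 : ℝ) ≤ 2 ^ (8 * q) := by positivity
    linarith

lemma GE_hi {η : ℝ} {D b : ℕ} (hb : 1 ≤ b) {T : List Bool} (h : T ∈ GE η D b) : T ∈ BU ∧ 2 ^ (b + 1) ≤ hgt T ∧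
    (∀ X, X ++ T ∈ GT b η) ∧ In (D * 2 ^ b) T := by
  have h' : ∃ Z1 M, T = Z1 ++ M ∧ Z1 ∈ BU ∧ M ∈ BU ∧ hgt M ≤ 2 ^ b ∧ 2 ^ (b + 1) ≤ hgt Z1 ∧
      η * Ub b ≤ (nc M : ℝ) ∧ In (D * 2 ^ b) T := by
    have h1 : (if b = 0 then T = [] else _) := h
    rwa [if_neg (by omega)] at h1
  obtain ⟨Z1, M, rfl, h1, h2, h3, h4, h5, h6⟩ := h'
  refine ⟨BU_app h1 h2, ?_, fun X => ne_A h1 h4 h2 h3 h5, h6⟩
  rw [hgt_app h1 h2]
  omega

lemma GE_zero {η : ℝ} {D : ℕ} {T : List Bool} (h : T ∈ GE η D 0) : T = [] := by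
  simpa [GE] using h

lemma Fl_xw_zero : xw 0 = 1 := by
  unfold xw
  rw [if_pos rfl]

lemma Fl_xw_pos {b : ℕ} (hb : 1 ≤ b) : xw b = Xb b := by
  unfold xw
  rw [if_neg (by omega)]

lemma Fl_xw_ne_zero (b : ℕ) : xw b ≠ 0 := by
  rcases Nat.eq_zero_or_pos b with h | h
  · rw [h, Fl_xw_zero]
    exact one_ne_zero
  · rw [Fl_xw_pos h]
    exact Xb_ne_zero b

lemma Fl_xw_ne_top (b : ℕ) : xw b ≠ ⊤ := by
  rcases Nat.eq_zero_or_pos b with h | h
  · rw [h, Fl_xw_zero]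
    exact ENNReal.one_ne_top
  · rw [Fl_xw_pos h]
    exact Xb_ne_top b

/-- a bridge at the end of high enough a word is removed -/
lemma sv_of {VV : Set (List Bool)} {K b : ℕ} {A V X T T' Z : List Bool} (hb : 1 ≤ b) (hA : A ∈ WL K) (hV : V ∈ VV)
    (hT : T ∈ BU) (hTh : 2 ^ (b + 1) ≤ hgt T) (hZ : Z ∈ BU) (hz : hgt Z ≤ 2 ^ b) (h1 : T = T' ++ Z)
    (h2 : A = (V ++ X) ++ T') : A ∈ SV VV K (b - 1) := by
  refine ⟨hA, V, X ++ T', (V ++ X).length, by rw [h2, List.append_assoc], hV, by rw [List.length_append]; omega,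
    by rw [h2, List.length_append (as := V ++ X)]; omega, ?_⟩
  have e0 : A ++ Z = (V ++ X) ++ T := by rw [h2, h1, List.append_assoc]
  have e1 : vx oo up A (V ++ X).length = vx oo up (V ++ X) (V ++ X).length := by
    rw [h2]
    exact vx_append (by omega)
  have e2 := lv_fr_app A Z hZ (tipv (V ++ X))
  have e3 := lv_fr_app (V ++ X) T hT (tipv (V ++ X))
  rw [e0] at e2
  have e4 : lv (TIP.fr (V ++ X) (tipv (V ++ X))) = 0 := by
    unfold TIP.fr
    rw [sub_self]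
    generalize rotTo (tipd (V ++ X)) up = c
    obtain ⟨x, y⟩ := c
    simp [mulE, lv]
  rw [e4] at e3
  rw [e1]
  show lv (TIP.fr A (tipv (V ++ X))) ≤ _
  have h5 : (2 : ℤ) ^ (b + 1) ≤ hgt T := by exact_mod_cast hTh
  have h6 : (hgt Z : ℤ) ≤ 2 ^ b := by exact_mod_cast hz
  rw [show b - 1 + 1 = b by omega]
  rw [pow_succ] at h5
  omega

/-- **E4, a flag at the end** -/
theorem flagE_of {κ : ℝ} {C : ℕ} (hR : RegZ κ C) : FlagE κ C := by
  intro η D q hη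
  obtain ⟨B, s0, hB, hone⟩ := oneE hR extK' η D hη
  obtain ⟨q', A1, hA1, hstep⟩ := stepQ η hη q
  obtain ⟨A2, hA2, hone0⟩ := hone q
  obtain ⟨A3, hA3, hone1⟩ := hone q'
  obtain ⟨C0, hC0, hplain⟩ := plainM η D hη
  obtain ⟨C4, hC4, hend⟩ := end_SV (η := η / 8) (by positivity)
  obtain ⟨Cf, hCf, hfk⟩ := Fl_up
  obtain ⟨A5, hA5, hfree⟩ := long_free q
  obtain ⟨L0, hL0⟩ := exists_Lg
  have hB0 : 0 < B := by linarith
  have hCf0 : 0 < Cf := by linarith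
  obtain ⟨a, ha⟩ : ∃ a : ℝ, a = A3 * B ^ 3 * Cf ^ 3 + C4 * C0 * Cf ^ 3 + A5 := ⟨_, rfl⟩
  have z1 : 1 ≤ A3 * B ^ 3 * Cf ^ 3 :=
    one_le_mul_of_one_le_of_one_le (one_le_mul_of_one_le_of_one_le hA3 (one_le_pow₀ hB)) (one_le_pow₀ hCf)
  have z2 : 0 ≤ C4 * C0 * Cf ^ 3 := by positivity
  have ha1 : 1 ≤ a := by linarith
  obtain ⟨cD, hcD⟩ : ∃ cD : ℕ, cD = D + 12 := ⟨_, rfl⟩
  refine ⟨B, s0 + L0 + 1, hB, by omega, fun b1 hb1 => ?_⟩
  have z3 : 0 ≤ A1 * a ^ 2 * 2 ^ q := by positivity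
  have z4 : 0 ≤ C0 * 2 ^ (q * cD) := by positivity
  have z5 : 1 ≤ A2 * 2 ^ (q * b1) := one_le_mul_of_one_le_of_one_le hA2 (one_le_pow₀ (by norm_num))
  refine ⟨A2 * 2 ^ (q * b1) + A1 * a ^ 2 * 2 ^ q + C0 * 2 ^ (q * cD), by linarith, fun K L b b' hLK hbL hb hb' hor => ?_⟩
  obtain ⟨Af, hAf⟩ : ∃ Af : ℝ, Af = A2 * 2 ^ (q * b1) + A1 * a ^ 2 * 2 ^ q + C0 * 2 ^ (q * cD) := ⟨_, rfl⟩
  rw [← hAf]
  have hL : Lg L := hL0 L (by omega)
  have pB : (1 : ℝ) ≤ B ^ (K - L) := one_le_pow₀ hB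
  rcases Nat.eq_zero_or_pos b' with h0 | h0
  · -- no structure at the end
    subst h0
    rw [Fl_xw_zero, mul_one]
    have h1 := hone0 K L b1 b hLK (by omega) hL hb
    refine (mul_le_mul' (gf_mono ?_) le_rfl).trans (h1.trans (mul_le_mul_left (ENNReal.ofReal_le_ofReal ?_) _))
    · rintro p ⟨g1, S, hS1, R, Q, hQ, rfl, -⟩
      refine ⟨g1, S, hS1, R ++ Q, rfl, FB_left _ (FB_succ ?_)⟩
      have g2 : max (0 + 1) b1 = b1 := by omega
      refine FB_self ?_ (by rw [Bg_zero]; exact hQ.2)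
      rw [← g2]
      exact hQ.1
    · rw [Nat.sub_zero, div_le_div_iff₀ (by positivity) (by positivity)]
      have e1 : (2 : ℝ) ^ (q * L) = 2 ^ (q * (L - b1)) * 2 ^ (q * b1) := by
        rw [← pow_add, ← mul_add]
        congr 2
        omega
      rw [e1]
      have h2 : 0 ≤ (2 : ℝ) ^ (q * (L - b1)) * B ^ (K - L) := by positivity
      calc A2 * B ^ (K - L) * (2 ^ (q * (L - b1)) * 2 ^ (q * b1))
          = A2 * 2 ^ (q * b1) * (2 ^ (q * (L - b1)) * B ^ (K - L)) := by ring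
        _ ≤ Af * (2 ^ (q * (L - b1)) * B ^ (K - L)) := mul_le_mul_of_nonneg_right (by linarith) h2
        _ = _ := by ring
  have hb1' : b1 ≤ b' := by omega
  rcases Nat.lt_or_ge (L - b') cD with hc | hc
  · -- few scales
    refine (mul_le_mul' (gf_mono ?_) le_rfl).trans
      ((hplain K b b' (by omega) (by omega)).trans (mul_le_mul_left (ENNReal.ofReal_le_ofReal ?_) _))
    · rintro p ⟨g1, S, hS1, R, Q, hQ, rfl, R', T, hT, rfl⟩
      exact ⟨g1, S, hS1, R ++ R', T, hT, by simp only [List.append_assoc]⟩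
    · rw [le_div_iff₀ (by positivity)]
      calc C0 * 2 ^ (q * (L - b')) ≤ C0 * 2 ^ (q * cD) := by
            gcongr
            · norm_num
        _ ≤ Af := by linarith
        _ ≤ Af * B ^ (K - L) := le_mul_of_one_le_right (by linarith) pB
  -- the main case
  obtain ⟨s, hs⟩ : ∃ s, s = max (b' + 1) b1 := ⟨_, rfl⟩
  have hs' : s = b' + 1 := by omega
  obtain ⟨n, hn⟩ : ∃ n, n = L - s := ⟨_, rfl⟩
  have hx0 := Fl_xw_ne_zero b
  have hxt := Fl_xw_ne_top b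
  obtain ⟨M0, hM0⟩ : ∃ M0 : ℝ≥0∞, M0 = ENNReal.ofReal (B ^ (K - L)) * FK K / xw b := ⟨_, rfl⟩
  have hM : ∀ (x : ℝ≥0∞) (y : ℝ), x * xw b ≤ ENNReal.ofReal y * (ENNReal.ofReal (B ^ (K - L)) * FK K) →
      x ≤ ENNReal.ofReal y * M0 := by
    intro x y hxy
    rw [hM0, ← mul_div_assoc, ENNReal.le_div_iff_mul_le (Or.inl hx0) (Or.inl hxt)]
    exact hxy
  obtain ⟨P, hPd⟩ : ∃ P : Set (List Bool), P = PFE η κ C D b1 L K b b' := ⟨_, rfl⟩
  have hPmem : ∀ p ∈ P, p ∈ WL K ∧ ∃ S ∈ GS η D b, ∃ R R' T, p = S ++ (R ++ (R' ++ T)) ∧ T ∈ GE η D b' ∧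
      R' ++ T ∈ Nz κ C s ∧ R' ++ T ∈ Bg L 0 := by
    intro p hp
    rw [hPd] at hp
    obtain ⟨g1, S, hS1, R, Q, hQ, rfl, R', T, hT, rfl⟩ := hp
    refine ⟨g1, S, hS1, R, R', T, rfl, hT, ?_, ?_⟩
    · rw [hs]
      exact hQ.1
    · rw [Bg_zero]
      exact hQ.2
  have hTh : ∀ T ∈ GE η D b', rev T ∈ Hi b' := by
    intro T hT
    obtain ⟨g1, g2, -, -⟩ := GE_hi h0 hT
    refine Hi_bridge (BU_rev g1) ?_
    rwa [hgt_eq (Brd_rev (TIP.BU_hgt g1))]
  -- the masses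
  have hmass : ∀ K3, K3 ≤ K + 3 → gf (OE η κ C D s L K3 b) ≤ ENNReal.ofReal (a / 2 ^ (q' * n)) * M0 := by
    intro K3 hK3
    refine hM _ _ ?_
    refine (mul_le_mul' (gf_mono (Q := OE η κ C D s L (K + 3) b) ?_) le_rfl).trans
      ((hone1 (K + 3) L s b (by omega) (by omega) hL hb).trans ?_)
    · rintro p ⟨g1, g2⟩
      exact ⟨WL_up hK3 g1, g2⟩
    · rw [← hn]
      refine (mul_le_mul' le_rfl (hfk K 3)).trans ?_
      rw [← mul_assoc, ← mul_assoc, ← ENNReal.ofReal_mul (by positivity), ← ENNReal.ofReal_mul (by positivity)]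
      refine mul_le_mul_left (ENNReal.ofReal_le_ofReal ?_) _
      have e1 : B ^ (K + 3 - L) = B ^ 3 * B ^ (K - L) := by
        rw [← pow_add]
        congr 1
        omega
      rw [e1]
      have p2 : (0 : ℝ) < 2 ^ (q' * n) := by positivity
      calc A3 * (B ^ 3 * B ^ (K - L)) / 2 ^ (q' * n) * Cf ^ 3
          = A3 * B ^ 3 * Cf ^ 3 / 2 ^ (q' * n) * B ^ (K - L) := by ring
        _ ≤ a / 2 ^ (q' * n) * B ^ (K - L) := by
            refine mul_le_mul_of_nonneg_right ?_ (by positivity)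
            rw [div_le_div_iff_of_pos_right p2]
            linarith
  have h3 := hstep b' n P (OE η κ C D s L K b) (SV (GS η D b) K (b' - 1))
    {Z : List Bool | PW.mZ (2 ^ L) / 4 ^ 4 < (Z.length : ℝ)} a M0 ha1
    (fun p hp => (hPmem p hp).1.1) (fun p hp => hp.1.1)
    (by
      intro A Z hA hZ hz
      obtain ⟨g1, S, hS1, R, R', T, g2, g3, -, -⟩ := hPmem _ hA
      obtain ⟨k1, k2, -, -⟩ := GE_hi h0 g3
      have g4 : A ++ Z = (S ++ (R ++ R')) ++ T := by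
        rw [g2]
        simp only [List.append_assoc]
      obtain ⟨T', g5, g6⟩ := suf_struct hZ hz (hTh T g3) g4
      exact sv_of h0 (WL_pre g1) hS1 k1 k2 hZ hz g5 g6)
    (by
      intro A Z1 Z2 hA hZ1 hZ2 hz hWd
      obtain ⟨g1, S, hS1, R, R', T, g2, g3, g7, g8⟩ := hPmem _ hA
      obtain ⟨-, -, -, k4⟩ := GE_hi h0 g3
      have g4 : A ++ (Z1 ++ Z2) = (S ++ (R ++ R')) ++ T := by
        rw [g2]
        simp only [List.append_assoc]
      obtain ⟨T', g5, g6⟩ := suf_struct (BU_app hZ1 hZ2) hz (hTh T g3) g4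
      refine ⟨WL_pre (Z := Z2) (by rw [List.append_assoc]; exact g1), S, hS1, R ++ (R' ++ (T' ++ Z1)), ?_, ?_⟩
      · rw [g6]
        simp only [List.append_assoc]
      · refine FB_left _ (FB_self ?_ ?_)
        · refine Nz_pre (Y := Z2) ?_
          rw [g5] at g7
          simpa only [List.append_assoc] using g7
        · obtain ⟨j1, j2, -⟩ := hL.le (i := 0) (by norm_num)
          refine Bg_cutT (i := 0) (D := D * 2 ^ b') (V := Z2) j1 ?_ ?_ ?_ ?_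
          · rw [g5] at k4
            simpa only [List.append_assoc] using k4
          · have e1 : D < 2 ^ D := Nat.lt_two_pow_self
            calc 4 * (D * 2 ^ b') ≤ 4 * (2 ^ D * 2 ^ b') := by gcongr
              _ = 2 ^ (D + b' + 2) := by ring
              _ ≤ 2 ^ (L - 4 - 2 * 0) := Nat.pow_le_pow_right (by norm_num) (by omega)
          · have e1 : ((Z1 ++ Z2).length : ℝ) ≤ PW.mZ (2 ^ L) / 4 ^ 4 := not_lt.1 hWd
            rw [List.length_append, Nat.cast_add] at e1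
            have e2 : (0 : ℝ) ≤ (Z1.length : ℝ) := Nat.cast_nonneg _
            have e3 := mZ_pos' L
            have e4 : PW.mZ (2 ^ L) / 4 ^ 4 ≤ PW.mZ (2 ^ L) / 4 ^ (0 + 2) :=
              div_le_div_of_nonneg_left e3.le (by positivity) (by norm_num)
            linarith
          · rw [g5] at g8
            simpa only [List.append_assoc] using g8)
    (by
      refine (hfree b' L (by omega)).trans (ENNReal.ofReal_le_ofReal (mul_le_mul_of_nonneg_right ?_ (Ub_pos b').le))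
      have p1 : (0 : ℝ) < 2 ^ (q * n) := by positivity
      calc A5 / 2 ^ (q * (L - b')) ≤ A5 / 2 ^ (q * n) := by
            refine div_le_div_of_nonneg_left (by linarith) p1 (pow_le_pow_right₀ (by norm_num) ?_)
            exact Nat.mul_le_mul_left _ (by omega)
        _ ≤ a / 2 ^ (q * n) := by
            rw [div_le_div_iff_of_pos_right p1]
            linarith)
    (by
      refine (gf_mono ?_).trans (hmass (K + 3) le_rfl)
      rintro t ⟨ht, W, ⟨g1, S, hS1, X, g2, g3⟩, x, hx, rfl⟩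
      refine ⟨EnsW.glue_WL (Nat.pow_le_pow_right (by norm_num) (by omega)) g1 hx ht, S, hS1, X ++ x, ?_, FB_right _ g3⟩
      rw [g2, List.append_assoc])
    (by
      refine (gf_mono ?_).trans (hmass K (by omega))
      intro p hp
      obtain ⟨g1, S, hS1, R, R', T, g2, g3, g7, g8⟩ := hPmem _ hp
      exact ⟨g1, S, hS1, R ++ (R' ++ T), g2, FB_left _ (FB_succ (FB_self g7 g8))⟩)
    (by
      refine hM _ _ ?_
      have g1 := hend (GS η D b) K (b' - 1) (gf {w | w ∈ WL (K + 3) ∧ ∃ V ∈ GS η D b, ∃ R, w = V ++ R}) (by omega) le_rfl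
      have g2 : gf {w | w ∈ WL (K + 3) ∧ ∃ V ∈ GS η D b, ∃ R, w = V ++ R} * xw b ≤ ENNReal.ofReal C0 * FK (K + 3) := by
        have k1 := hplain (K + 3) b 0 (by omega) (by omega)
        rw [Fl_xw_zero, mul_one] at k1
        refine (mul_le_mul' (gf_mono ?_) le_rfl).trans k1
        rintro w ⟨j1, V, j2, R, rfl⟩
        refine ⟨j1, V, j2, R, [], ?_, by rw [List.append_nil]⟩
        simp [GE]
      refine (mul_le_mul' g1 le_rfl).trans ?_
      rw [mul_assoc]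
      refine (mul_le_mul' le_rfl (g2.trans (mul_le_mul' le_rfl (hfk K 3)))).trans ?_
      rw [← mul_assoc, ← mul_assoc, ← mul_assoc, ← ENNReal.ofReal_mul hC4.le, ← ENNReal.ofReal_mul (by positivity),
        ← ENNReal.ofReal_mul (by linarith)]
      refine mul_le_mul_left (ENNReal.ofReal_le_ofReal ?_) _
      calc C4 * C0 * Cf ^ 3 ≤ a * 1 := by linarith
        _ ≤ a * B ^ (K - L) := mul_le_mul_of_nonneg_left pB (by linarith))
  have hPG : gf P ≤ gf (P ∩ GT b' η) := by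
    refine gf_mono fun p hp => ⟨hp, ?_⟩
    obtain ⟨-, S, -, R, R', T, g2, g3, -, -⟩ := hPmem _ hp
    have g4 : p = (S ++ (R ++ R')) ++ T := by
      rw [g2]
      simp only [List.append_assoc]
    rw [g4]
    exact (GE_hi h0 g3).2.2.1 _
  have hMx : M0 * xw b = ENNReal.ofReal (B ^ (K - L)) * FK K := by
    rw [hM0]
    exact ENNReal.div_mul_cancel hx0 hxt
  rw [← hPd, Fl_xw_pos h0]
  calc gf P * (xw b * Xb b') = gf P * Xb b' * xw b := by ring
    _ ≤ gf (P ∩ GT b' η) * Xb b' * xw b := by gcongr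
    _ ≤ ENNReal.ofReal (A1 * a ^ 2 / 2 ^ (q * n)) * M0 * xw b := mul_le_mul' h3 le_rfl
    _ = ENNReal.ofReal (A1 * a ^ 2 / 2 ^ (q * n)) * (ENNReal.ofReal (B ^ (K - L)) * FK K) := by rw [mul_assoc, hMx]
    _ ≤ _ := by
        rw [← mul_assoc, ← ENNReal.ofReal_mul (by positivity)]
        refine mul_le_mul_left (ENNReal.ofReal_le_ofReal ?_) _
        have e1 : (2 : ℝ) ^ (q * (L - b')) = 2 ^ q * 2 ^ (q * n) := by
          rw [← pow_add]
          congr 1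
          have : L - b' = 1 + n := by omega
          rw [this]
          ring
        rw [e1, div_mul_eq_mul_div, div_le_div_iff₀ (by positivity) (by positivity)]
        have h5 : 0 ≤ B ^ (K - L) * 2 ^ (q * n) := by positivity
        calc A1 * a ^ 2 * B ^ (K - L) * (2 ^ q * 2 ^ (q * n)) = A1 * a ^ 2 * 2 ^ q * (B ^ (K - L) * 2 ^ (q * n)) := by ring
          _ ≤ Af * (B ^ (K - L) * 2 ^ (q * n)) := mul_le_mul_of_nonneg_right (by linarith) h5
          _ = _ := by ring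

end NPR

end HexObs
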