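import Pool.Agent.NPR.FlagE

/-!
NPR, row E4' (helper42): two-ended masses with a flag at the start.
-/

set_option autoImplicit false

namespace HexObs

namespace NPR

open Finset TS SDN NTW NTA SIM TIW TIP TIP.YB

open scoped ENNReal

/-- words that start with a flagged part that starts with a good start -/
def OS (η κ : ℝ) (C D s L K b : ℕ) : Set (List Bool) :=
  {p | p ∈ WL K ∧ ∃ S ∈ GS η D b, ∃ R' Y, p = (S ++ R') ++ Y ∧ S ++ R' ∈ Nz κ C s ∧ S ++ R' ∈ Bg L 0}

/-- **one-ended masses with a flag at the start** -/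
theorem oneS {κ : ℝ} {C : ℕ} (hR : RegZ κ C) (η : ℝ) (D : ℕ) (hη : 0 < η) : ∃ (B : ℝ) (s0 : ℕ), 1 ≤ B ∧
    ∀ q : ℕ, ∃ A : ℝ, 1 ≤ A ∧ ∀ K L s b : ℕ, L ≤ K → s0 ≤ s → Lg L → b + (D + 12) ≤ L → b ≤ s →
      gf (OS η κ C D s L K b) * xw b ≤ ENNReal.ofReal (A * B ^ (K - L) / 2 ^ (q * (L - s))) * FK K := by
  obtain ⟨B, s0, hB, huc⟩ := ucZ hR extK'
  obtain ⟨Cf, hCf, hfk⟩ := Fl_up
  obtain ⟨Ct, hCt, htip⟩ := tip_WL (η / 8) (by positivity)
  refine ⟨B, s0, hB, fun q => ?_⟩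
  obtain ⟨q', A1, hA1, hstep⟩ := stepQ η hη q
  obtain ⟨A2, hA2, huc0⟩ := huc q
  obtain ⟨A3, hA3, huc1⟩ := huc q'
  obtain ⟨A5, hA5, hfree⟩ := long_free q
  have hB0 : 0 < B := by linarith
  have hCf0 : 0 < Cf := by linarith
  obtain ⟨a, ha⟩ : ∃ a : ℝ, a = 3 * A3 * B ^ 15 * Cf ^ 15 + Ct * Cf ^ 6 + A5 := ⟨_, rfl⟩
  have z1 : 1 ≤ 3 * A3 * B ^ 15 * Cf ^ 15 := by
    refine one_le_mul_of_one_le_of_one_le (one_le_mul_of_one_le_of_one_le (by linarith) (one_le_pow₀ hB)) (one_le_pow₀ hCf)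
  have z2 : 0 ≤ Ct * Cf ^ 6 := by positivity
  have ha1 : 1 ≤ a := by linarith
  have z3 : 0 ≤ 4 * A1 * a ^ 2 := by positivity
  refine ⟨A2 + 4 * A1 * a ^ 2, by linarith, fun K L s b hLK hs hL hb hbs => ?_⟩
  obtain ⟨n, hn1⟩ : ∃ n, n = L - s := ⟨_, rfl⟩
  rw [← hn1]
  have pn : (0 : ℝ) < 2 ^ (q * n) := by positivity
  have pB : (1 : ℝ) ≤ B ^ (K - L) := one_le_pow₀ hB
  rcases Nat.eq_zero_or_pos b with h0 | h0
  · subst h0
    rw [Fl_xw_zero, mul_one]
    refine (gf_mono (Q := {t | t ∈ WL K ∧ t ∈ FB κ C s L 3}) ?_).trans ((huc0 K L s hLK hs hL).trans ?_)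
    · rintro p ⟨h1, S, hS, R', Y, rfl, h2, h3⟩
      exact ⟨h1, FB_succ (FB_succ (FB_succ (FB_right _ (FB_self h2 h3))))⟩
    · rw [← hn1]
      refine mul_le_mul_left (ENNReal.ofReal_le_ofReal ?_) _
      rw [div_le_div_iff_of_pos_right pn]
      refine mul_le_mul_of_nonneg_right ?_ (by positivity)
      linarith
  · rw [Fl_xw_pos h0]
    obtain ⟨K2, hK2⟩ : ∃ K2, K2 = K + 6 := ⟨_, rfl⟩
    obtain ⟨Q, hQ⟩ : ∃ Q : Set (List Bool), Q = {Y | ∃ S ∈ GS η D b, ∃ R' Y', Y = (S ++ R') ++ Y' ∧ S ++ R' ∈ Nz κ C s ∧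
      S ++ R' ∈ Bg L 0} := ⟨_, rfl⟩
    obtain ⟨Q', hQ'⟩ : ∃ Q' : Set (List Bool), Q' = {W | ∃ S R' Y', S ∈ Hi b ∧ In (D * 2 ^ b) S ∧
      rev W = (S ++ R') ++ Y' ∧ S ++ R' ∈ Nz κ C s ∧ S ++ R' ∈ Bg L 1} := ⟨_, rfl⟩
    obtain ⟨P, hP⟩ : ∃ P : Set (List Bool), P = {W | W ∈ WL K2 ∧ W ∈ Q'} := ⟨_, rfl⟩
    obtain ⟨P', hP'⟩ : ∃ P' : Set (List Bool), P' = {W | W ∈ WL K2 ∧ rev W ∈ FB κ C s L 2} := ⟨_, rfl⟩
    obtain ⟨M0, hM0⟩ : ∃ M0 : ℝ≥0∞, M0 = ENNReal.ofReal (B ^ (K - L)) * FK K := ⟨_, rfl⟩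
    -- reversal
    have h1 : gf (OS η κ C D s L K b) ≤ 4 * gf (P ∩ GT b η) := by
      have h2 := rev_le (b := b) (D := 2 ^ (K + 3)) (K := K2) (η := η) (Q := Q) (Q' := Q') (by
          have e : (2 : ℕ) ^ K2 = 8 * 2 ^ (K + 3) := by rw [hK2, pow_add, pow_add]; ring
          have : 1 ≤ 2 ^ (K + 3) := Nat.one_le_two_pow
          omega)
        (by
          intro Y hY _ _
          rw [hQ] at hY
          obtain ⟨S, hS, R', Y', rfl, g1, g2⟩ := hY
          obtain ⟨k1, -, k2, -⟩ := GS_hi h0 hS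
          rw [hQ']
          exact ⟨S, R', Y', k1, k2, rev_rev _, g1, Bg_succ g2⟩)
        (by
          intro Y hY _
          rw [hQ] at hY
          obtain ⟨S, hS, R', Y', rfl, g1, g2⟩ := hY
          obtain ⟨k1, -, k2, N, Z3, k3, k4, k5, k6⟩ := GS_hi h0 hS
          rw [hQ']
          by_cases hY' : Y' = []
          · subst hY'
            rw [List.append_nil]
            by_cases hR' : R' = []
            · subst hR'
              rw [List.append_nil] at g1 g2 ⊢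
              have hne : S ≠ [] := by
                rintro rfl
                exact nil_nBg hL (by norm_num) g2
              have e := List.dropLast_append_getLast hne
              refine ⟨S.dropLast, [], [], ?_, ?_, ?_, ?_, ?_⟩
              · refine Hi_init h0 ?_ ?_
                · rw [k3]
                  exact BU_app k4 k5
                · rw [k3, hgt_app k4 k5]
                  omega
              · exact In_take (V := [S.getLast hne]) (by rwa [e])
              · rw [rev_drop_one, List.append_nil, List.append_nil]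
              · rw [List.append_nil]
                exact Nz_pre (Y := [S.getLast hne]) (by rwa [e])
              · rw [List.append_nil]
                exact Bg_init hL (by norm_num) (x := S.getLast hne) (by rwa [e])
            · have e := List.dropLast_append_getLast hR'
              refine ⟨S, R'.dropLast, [], k1, k2, ?_, ?_, ?_⟩
              · rw [rev_drop_one, List.append_nil, List.dropLast_append_of_ne_nil hR']
              · refine Nz_pre (Y := [R'.getLast hR']) ?_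
                rw [List.append_assoc, e]
                exact g1
              · refine Bg_init hL (by norm_num) (x := R'.getLast hR') ?_
                rw [List.append_assoc, e]
                exact g2
          · refine ⟨S, R', Y'.dropLast, k1, k2, ?_, g1, Bg_succ g2⟩
            rw [rev_drop_one, List.dropLast_append_of_ne_nil hY'])
      refine (gf_mono ?_).trans (h2.trans (mul_le_mul' le_rfl (gf_mono ?_)))
      · rintro p ⟨g1, S, hS, R', Y, rfl, g2, g3⟩
        refine ⟨g1.1, ?_, fun i hi => WL_bd g1 hi, ?_⟩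
        · rw [List.append_assoc]
          exact (GS_hi h0 hS).2.1 _
        · rw [hQ]
          exact ⟨S, hS, R', Y, rfl, g2, g3⟩
      · rintro W ⟨g1, g2, g3⟩
        rw [hP]
        exact ⟨⟨g1, g3⟩, g2⟩
    -- the remaining words
    have hrest : ∀ K3, K3 ≤ K + 9 → gf {W | W ∈ WL K3 ∧ rev W ∈ FB κ C s L 2} ≤ ENNReal.ofReal (a / 2 ^ (q' * n)) * M0 := by
      intro K3 hK3
      refine (gf_mono (Q := {W | W ∈ WL (K + 9) ∧ rev W ∈ FB κ C s L 2}) fun W hW => ⟨WL_up hK3 hW.1, hW.2⟩).trans ?_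
      refine (rev_FB hL (by norm_num)).trans ?_
      have g1 := huc1 (K + 9 + 6) L s (by omega) hs hL
      rw [← hn1] at g1
      have g2 := hfk K 15
      refine (mul_le_mul' le_rfl (g1.trans (mul_le_mul' le_rfl g2))).trans ?_
      rw [hM0, ← ENNReal.ofReal_ofNat, ← mul_assoc, ← mul_assoc, ← mul_assoc, ← ENNReal.ofReal_mul (by norm_num),
        ← ENNReal.ofReal_mul (by positivity), ← ENNReal.ofReal_mul (by positivity)]
      refine mul_le_mul_left (ENNReal.ofReal_le_ofReal ?_) _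
      have e1 : B ^ (K + 9 + 6 - L) = B ^ 15 * B ^ (K - L) := by
        rw [← pow_add]
        congr 1
        omega
      rw [e1]
      have p2 : (0 : ℝ) < 2 ^ (q' * n) := by positivity
      calc 3 * (A3 * (B ^ 15 * B ^ (K - L)) / 2 ^ (q' * n)) * Cf ^ 15
          = 3 * A3 * B ^ 15 * Cf ^ 15 / 2 ^ (q' * n) * B ^ (K - L) := by ring
        _ ≤ a / 2 ^ (q' * n) * B ^ (K - L) := by
            refine mul_le_mul_of_nonneg_right ?_ (by positivity)
            rw [div_le_div_iff_of_pos_right p2]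
            linarith
    have h3 := hstep b n P P' (WL K2) {Z : List Bool | PW.mZ (2 ^ L) / 4 ^ 4 < (Z.length : ℝ)} a M0 ha1
      (by rw [hP]; exact fun W hW => hW.1.1)
      (by rw [hP']; exact fun W hW => hW.1.1)
      (by
        intro A Z hA _ _
        rw [hP] at hA
        exact WL_pre hA.1)
      (by
        intro A Z1 Z2 hA hZ1 hZ2 hh hWd
        rw [hP, hQ'] at hA
        obtain ⟨g1, S, R', Y', hS, hI, g2, g3, g4⟩ := hA
        rw [hP']
        refine ⟨WL_pre (Z := Z2) (by rw [List.append_assoc]; exact g1), ?_⟩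
        have hZ : rev (Z1 ++ Z2) ∈ BU := BU_rev (BU_app hZ1 hZ2)
        have hZh : hgt (rev (Z1 ++ Z2)) ≤ 2 ^ b := by rwa [hgt_eq (Brd_rev (TIP.BU_hgt (BU_app hZ1 hZ2)))]
        rw [rev_append, List.append_assoc S] at g2
        obtain ⟨S', g5, g6⟩ := pre_struct hZ hZh hS g2
        have e0 : S ++ R' = rev Z2 ++ ((rev Z1 ++ S') ++ R') := by
          rw [g5, rev_append]
          simp only [List.append_assoc]
        have e1 : rev (A ++ Z1) = ((rev Z1 ++ S') ++ R') ++ Y' := by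
          rw [rev_append, g6]
          simp only [List.append_assoc]
        rw [e1]
        rw [e0] at g3 g4
        refine FB_right _ (FB_self (Nz_suf g3) ?_)
        obtain ⟨j1, -, -⟩ := hL.le (i := 1) (by norm_num)
        refine Bg_cutL (i := 1) (D := D * 2 ^ b) (U := rev Z2) j1 ?_ ?_ ?_ g4
        · refine In_take (V := rev Z1 ++ S') ?_
          rw [g5, rev_append] at hI
          simpa only [List.append_assoc] using hI
        · have e1 : D < 2 ^ D := Nat.lt_two_pow_self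
          calc 2 * (D * 2 ^ b) ≤ 2 * (2 ^ D * 2 ^ b) := by gcongr
            _ = 2 ^ (D + b + 1) := by ring
            _ ≤ 2 ^ (L - 4 - 2 * 1) := Nat.pow_le_pow_right (by norm_num) (by omega)
        · have e1 : ((Z1 ++ Z2).length : ℝ) ≤ PW.mZ (2 ^ L) / 4 ^ 4 := not_lt.1 hWd
          rw [List.length_append, Nat.cast_add] at e1
          have e2 : (0 : ℝ) ≤ (Z1.length : ℝ) := Nat.cast_nonneg _
          have e3 := mZ_pos' L
          have e4 : PW.mZ (2 ^ L) / 4 ^ 4 ≤ PW.mZ (2 ^ L) / 4 ^ (1 + 2) :=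
            div_le_div_of_nonneg_left e3.le (by positivity) (by norm_num)
          rw [rev_length]
          linarith)
      (by
        refine (hfree b L (by omega)).trans (ENNReal.ofReal_le_ofReal (mul_le_mul_of_nonneg_right ?_ (Ub_pos b).le))
        calc A5 / 2 ^ (q * (L - b)) ≤ A5 / 2 ^ (q * n) := by
              refine div_le_div_of_nonneg_left (by linarith) pn (pow_le_pow_right₀ (by norm_num) ?_)
              exact Nat.mul_le_mul_left _ (by omega)
          _ ≤ a / 2 ^ (q * n) := by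
              rw [div_le_div_iff_of_pos_right pn]
              linarith)
      (by
        refine (gf_mono ?_).trans (hrest (K2 + 3) (by omega))
        rintro t ⟨ht, W, hW, x, hx, rfl⟩
        rw [hP'] at hW
        refine ⟨EnsW.glue_WL (Nat.pow_le_pow_right (by norm_num) (by omega)) hW.1 hx ht, ?_⟩
        rw [rev_append]
        exact FB_left _ hW.2)
      (by
        refine (gf_mono ?_).trans (hrest K2 (by omega))
        intro W hW
        rw [hP, hQ'] at hW
        obtain ⟨g1, S, R', Y', -, -, g2, g3, g4⟩ := hW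
        exact ⟨g1, by rw [g2]; exact FB_right _ (FB_succ (FB_self g3 g4))⟩)
      (by
        refine (htip K2 (b - 1) (by omega)).trans ?_
        have g1 := hfk K 6
        rw [← hK2] at g1
        have e1 : ENNReal.ofReal (Ct * Ub K2) * Xb K2 ^ 2 = ENNReal.ofReal Ct * FK K2 := by
          unfold FK
          rw [ENNReal.ofReal_mul hCt.le, mul_assoc]
        rw [e1, hM0]
        refine (mul_le_mul' le_rfl g1).trans ?_
        rw [← mul_assoc, ← mul_assoc, ← ENNReal.ofReal_mul hCt.le, ← ENNReal.ofReal_mul (by linarith)]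
        refine mul_le_mul_left (ENNReal.ofReal_le_ofReal ?_) _
        calc Ct * Cf ^ 6 ≤ a * 1 := by linarith
          _ ≤ a * B ^ (K - L) := mul_le_mul_of_nonneg_left pB (by linarith))
    refine (mul_le_mul' h1 le_rfl).trans ?_
    rw [mul_assoc]
    refine (mul_le_mul' le_rfl h3).trans ?_
    rw [hM0, ← ENNReal.ofReal_ofNat, ← mul_assoc, ← mul_assoc, ← ENNReal.ofReal_mul (by norm_num),
      ← ENNReal.ofReal_mul (by positivity)]
    refine mul_le_mul_left (ENNReal.ofReal_le_ofReal ?_) _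
    calc 4 * (A1 * a ^ 2 / 2 ^ (q * n)) * B ^ (K - L) = 4 * A1 * a ^ 2 * B ^ (K - L) / 2 ^ (q * n) := by ring
      _ ≤ (A2 + 4 * A1 * a ^ 2) * B ^ (K - L) / 2 ^ (q * n) := by
          rw [div_le_div_iff_of_pos_right pn]
          refine mul_le_mul_of_nonneg_right ?_ (by positivity)
          linarith

/-- **E4', a flag at the start** -/
theorem flagS_of {κ : ℝ} {C : ℕ} (hR : RegZ κ C) : FlagS κ C := by
  intro η D q hη
  obtain ⟨B, s0, hB, hone⟩ := oneS hR η D hη
  obtain ⟨A2, hA2, hone⟩ := hone q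
  obtain ⟨C0, hC0, hplain⟩ := plainM η D hη
  obtain ⟨C4, hC4, hend⟩ := end_SV hη
  obtain ⟨Cf, hCf, hfk⟩ := Fl_up
  obtain ⟨L0, hL0⟩ := exists_Lg
  have hB0 : 0 < B := by linarith
  have hCf0 : 0 < Cf := by linarith
  obtain ⟨a, ha⟩ : ∃ a : ℝ, a = (C4 + 1) * (A2 * B ^ 3 * Cf ^ 3) := ⟨_, rfl⟩
  have z1 : 1 ≤ A2 * B ^ 3 * Cf ^ 3 :=
    one_le_mul_of_one_le_of_one_le (one_le_mul_of_one_le_of_one_le hA2 (one_le_pow₀ hB)) (one_le_pow₀ hCf)
  have ha1 : 1 ≤ a := by
    rw [ha]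
    nlinarith
  obtain ⟨cD, hcD⟩ : ∃ cD : ℕ, cD = D + 12 := ⟨_, rfl⟩
  refine ⟨B, s0 + L0 + 1, hB, by omega, fun b1 hb1 => ?_⟩
  have z4 : 0 ≤ C0 * 2 ^ (q * cD) := by positivity
  have z5 : 1 ≤ a * 2 ^ (q * (b1 + 1)) := one_le_mul_of_one_le_of_one_le ha1 (one_le_pow₀ (by norm_num))
  refine ⟨a * 2 ^ (q * (b1 + 1)) + C0 * 2 ^ (q * cD), by linarith, fun K L b b' hLK hbL hb hb' hor => ?_⟩
  obtain ⟨Af, hAf⟩ : ∃ Af : ℝ, Af = a * 2 ^ (q * (b1 + 1)) + C0 * 2 ^ (q * cD) := ⟨_, rfl⟩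
  rw [← hAf]
  have hL : Lg L := hL0 L (by omega)
  have pB : (1 : ℝ) ≤ B ^ (K - L) := one_le_pow₀ hB
  rcases Nat.lt_or_ge (L - b) cD with hc | hc
  · -- few scales
    refine (mul_le_mul' (gf_mono ?_) le_rfl).trans
      ((hplain K b b' (by omega) (by omega)).trans (mul_le_mul_left (ENNReal.ofReal_le_ofReal ?_) _))
    · rintro p ⟨g1, T, hT, R, Q, hQ, rfl, S, hS, R', rfl⟩
      exact ⟨g1, S, hS, R' ++ R, T, hT, by simp only [List.append_assoc]⟩
    · rw [le_div_iff₀ (by positivity)]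
      calc C0 * 2 ^ (q * (L - b)) ≤ C0 * 2 ^ (q * cD) := by
            gcongr
            · norm_num
        _ ≤ Af := by linarith
        _ ≤ Af * B ^ (K - L) := le_mul_of_one_le_right (by linarith) pB
  -- the main case
  obtain ⟨s, hs⟩ : ∃ s, s = max (b + 1) b1 := ⟨_, rfl⟩
  obtain ⟨n, hn⟩ : ∃ n, n = L - s := ⟨_, rfl⟩
  -- the exponents
  have hexp : (2 : ℝ) ^ (q * (L - b)) ≤ 2 ^ (q * (b1 + 1)) * 2 ^ (q * n) := by
    rw [← pow_add, ← mul_add]
    refine pow_le_pow_right₀ (by norm_num) (Nat.mul_le_mul_left _ ?_)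
    omega
  have hone' : ∀ K3, K ≤ K3 → K3 ≤ K + 3 → gf (OS η κ C D s L K3 b) * xw b ≤
      ENNReal.ofReal (A2 * B ^ 3 * Cf ^ 3 * B ^ (K - L) / 2 ^ (q * n)) * FK K := by
    intro K3 hK3 hK3'
    have g1 := hone (K + 3) L s b (by omega) (by omega) hL (by omega) (by omega)
    refine (mul_le_mul' (gf_mono (Q := OS η κ C D s L (K + 3) b) ?_) le_rfl).trans (g1.trans ?_)
    · rintro p ⟨k1, k2⟩
      exact ⟨WL_up hK3' k1, k2⟩
    · rw [← hn]
      refine (mul_le_mul' le_rfl (hfk K 3)).trans ?_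
      rw [← mul_assoc, ← ENNReal.ofReal_mul (by positivity)]
      refine mul_le_mul_left (ENNReal.ofReal_le_ofReal (le_of_eq ?_)) _
      have e1 : B ^ (K + 3 - L) = B ^ 3 * B ^ (K - L) := by
        rw [← pow_add]
        congr 1
        omega
      rw [e1]
      ring
  obtain ⟨P, hPd⟩ : ∃ P : Set (List Bool), P = PFS η κ C D b1 L K b b' := ⟨_, rfl⟩
  obtain ⟨VV, hVV⟩ : ∃ VV : Set (List Bool), VV = {V | ∃ S ∈ GS η D b, ∃ R', V = S ++ R' ∧ V ∈ Nz κ C s ∧ V ∈ Bg L 0} :=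
    ⟨_, rfl⟩
  have hPmem : ∀ p ∈ P, p ∈ WL K ∧ ∃ V ∈ VV, ∃ R, ∃ T ∈ GE η D b', p = V ++ (R ++ T) := by
    intro p hp
    rw [hPd] at hp
    obtain ⟨g1, T, hT, R, Q, hQ, rfl, S, hS, R', rfl⟩ := hp
    refine ⟨g1, S ++ R', ?_, R, T, hT, rfl⟩
    rw [hVV]
    refine ⟨S, hS, R', rfl, ?_, ?_⟩
    · rw [hs]
      exact hQ.1
    · rw [Bg_zero]
      exact hQ.2
  have hVOS : ∀ K3, {w | w ∈ WL K3 ∧ ∃ V ∈ VV, ∃ R, w = V ++ R} ⊆ OS η κ C D s L K3 b := by
    rintro K3 w ⟨g1, V, hV, R, rfl⟩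
    rw [hVV] at hV
    obtain ⟨S, hS, R', rfl, g2, g3⟩ := hV
    exact ⟨g1, S, hS, R', R, rfl, g2, g3⟩
  have hfin : ∀ x : ℝ, 0 ≤ x → x ≤ C4 + 1 → ENNReal.ofReal x * (ENNReal.ofReal (A2 * B ^ 3 * Cf ^ 3 * B ^ (K - L) / 2 ^ (q * n)) * FK K) ≤
      ENNReal.ofReal (Af * B ^ (K - L) / 2 ^ (q * (L - b))) * FK K := by
    intro x hx hx1
    rw [← mul_assoc, ← ENNReal.ofReal_mul hx]
    refine mul_le_mul_left (ENNReal.ofReal_le_ofReal ?_) _
    rw [← mul_div_assoc, div_le_div_iff₀ (by positivity) (by positivity)]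
    have h5 : 0 ≤ B ^ (K - L) * 2 ^ (q * n) := by positivity
    have h6 : 0 ≤ A2 * B ^ 3 * Cf ^ 3 * B ^ (K - L) := by positivity
    calc x * (A2 * B ^ 3 * Cf ^ 3 * B ^ (K - L)) * 2 ^ (q * (L - b))
        ≤ (C4 + 1) * (A2 * B ^ 3 * Cf ^ 3 * B ^ (K - L)) * (2 ^ (q * (b1 + 1)) * 2 ^ (q * n)) := by gcongr
      _ = a * 2 ^ (q * (b1 + 1)) * (B ^ (K - L) * 2 ^ (q * n)) := by
          rw [ha]
          ring
      _ ≤ Af * (B ^ (K - L) * 2 ^ (q * n)) := mul_le_mul_of_nonneg_right (by linarith) h5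
      _ = _ := by ring
  rw [← hPd]
  rcases Nat.eq_zero_or_pos b' with h0 | h0
  · -- no structure at the end
    subst h0
    rw [Fl_xw_zero, mul_one]
    refine (mul_le_mul' (gf_mono (Q := OS η κ C D s L K b) ?_) le_rfl).trans ((hone' K le_rfl (by omega)).trans ?_)
    · intro p hp
      obtain ⟨g1, V, hV, R, T, -, rfl⟩ := hPmem p hp
      exact hVOS K ⟨g1, V, hV, _, rfl⟩
    · have := hfin 1 zero_le_one (by linarith)
      rwa [ENNReal.ofReal_one, one_mul] at this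
  · have h1 := hend VV K b' (gf {w | w ∈ WL (K + 3) ∧ ∃ V ∈ VV, ∃ R, w = V ++ R}) (by omega) le_rfl
    have h2 : gf P ≤ gf (SV VV K b' ∩ GT b' η) := by
      refine gf_mono fun p hp => ?_
      obtain ⟨g1, V, hV, R, T, hT, rfl⟩ := hPmem p hp
      obtain ⟨k1, k2, k3, -⟩ := GE_hi h0 hT
      refine ⟨⟨g1, V, R ++ T, (V ++ R).length, rfl, hV, by rw [List.length_append]; omega, by
        simp only [List.length_append]
        omega, ?_⟩, ?_⟩
      · have e1 : vx oo up (V ++ (R ++ T)) (V ++ R).length = tipv (V ++ R) := by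
          rw [← List.append_assoc]
          exact vx_append (by omega)
        rw [e1, ← List.append_assoc, lv_fr_app (V ++ R) T k1]
        have e4 : lv (TIP.fr (V ++ R) (tipv (V ++ R))) = 0 := by
          unfold TIP.fr
          rw [sub_self]
          generalize rotTo (tipd (V ++ R)) up = c
          obtain ⟨x, y⟩ := c
          simp [mulE, lv]
        rw [e4]
        have h5 : (2 : ℤ) ^ (b' + 1) ≤ hgt T := by exact_mod_cast k2
        omega
      · rw [← List.append_assoc]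
        exact k3 _
    rw [Fl_xw_pos h0]
    calc gf P * (xw b * Xb b') ≤ gf (SV VV K b' ∩ GT b' η) * (xw b * Xb b') := by gcongr
      _ = gf (SV VV K b' ∩ GT b' η) * Xb b' * xw b := by ring
      _ ≤ ENNReal.ofReal C4 * gf {w | w ∈ WL (K + 3) ∧ ∃ V ∈ VV, ∃ R, w = V ++ R} * xw b := mul_le_mul' h1 le_rfl
      _ ≤ ENNReal.ofReal C4 * gf (OS η κ C D s L (K + 3) b) * xw b := by
          gcongr
          exact gf_mono (hVOS (K + 3))
      _ = ENNReal.ofReal C4 * (gf (OS η κ C D s L (K + 3) b) * xw b) := mul_assoc _ _ _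
      _ ≤ ENNReal.ofReal C4 * (ENNReal.ofReal (A2 * B ^ 3 * Cf ^ 3 * B ^ (K - L) / 2 ^ (q * n)) * FK K) :=
          mul_le_mul' le_rfl (hone' (K + 3) (by omega) le_rfl)
      _ ≤ _ := hfin C4 hC4.le (by linarith)

end NPR

end HexObs
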