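import Pool.Agent.NPR.GrpA
import Pool.Agent.EN.GBM
import Pool.Agent.NTA.TbM
import Pool.Agent.VF.SharpZ
import Pool.Agent.VF.MeanZ

/-!
# NPR (natural parametrisation, doc nu34/NPR_14), row L1 (helper28, the short way of helper47): `groupL : GroupL`

Scale b = L - k' - j, U = Ub b, m = mZ (2 ^ b). The bridges of height at most 2 ^ b with at least c m letters have the mass
c' U (C1), those with at least lam m letters (TB) and those with many irreducible pieces (GrpA) have at most a quarter of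
it each. So one number Ng <= A U of pieces has a mass at least c0. The scale of lengths is 2 ^ (4 b / 3) up to two
constants (mZ_two), which gives one window of lengths for all L.
-/

set_option autoImplicit false

namespace HexObs

namespace NPR

open Finset TS SDN TIW NTA TIP

open scoped ENNReal

/-- low bridges with at least x letters -/
def Bl (k : ℕ) (x : ℝ) : Set (List Bool) := {V | V ∈ Bk k ∧ x ≤ (V.length : ℝ)}

lemma TL_le_Bl (k : ℕ) (x : ℝ) : NTm.TL (2 ^ k) x ≤ gf (Bl k x) := by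
  unfold NTm.TL
  refine (BAR.gf_bi_eq (range (2 ^ k + 1)) (fun h => {Z | Z ∈ Brd h ∧ x ≤ (Z.length : ℝ)})
    (fun i j w hi hj => Brd_height hi.1 hj.1)).trans (gf_mono fun V hV => ?_)
  rw [Set.mem_iUnion₂] at hV
  obtain ⟨h, hh, hV, hx⟩ := hV
  refine ⟨⟨⟨h, hV⟩, ?_⟩, hx⟩
  rw [TS.hgt_eq hV]
  have := mem_range.1 hh
  omega

lemma Bl_le_TL (k : ℕ) (x : ℝ) : gf (Bl k x) ≤ NTm.TL (2 ^ k) x := by
  unfold NTm.TL
  refine (gf_mono (Q := ⋃ h ∈ range (2 ^ k + 1), {Z | Z ∈ Brd h ∧ x ≤ (Z.length : ℝ)}) fun V hV => ?_).trans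
    (JumpVaux.gf_biUnion_le _ _)
  rw [Set.mem_iUnion₂]
  exact ⟨hgt V, mem_range.2 (by have := hV.1.2; omega), TIP.BU_hgt hV.1.1, hV.2⟩

/-- **one scale**: some number of pieces has the right number of letters with a probability at least c0 -/
lemma one_scale : ∃ c0 c lam A : ℝ, 0 < c0 ∧ 0 < c ∧ 1 ≤ lam ∧ 0 < A ∧ ∀ b : ℕ, ∃ Ng : ℕ, 1 ≤ Ng ∧ (Ng : ℝ) ≤ A * Ub b ∧
    ENNReal.ofReal c0 ≤ gf {V | V ∈ Ir Ng ∧ c * PW.mZ (2 ^ b) ≤ (V.length : ℝ) ∧ (V.length : ℝ) ≤ lam * PW.mZ (2 ^ b)} := by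
  classical
  obtain ⟨c, c', hc, hc', h1⟩ := EN.c1_M
  obtain ⟨A1, hA1, h2⟩ := tb_M 1
  obtain ⟨j, hj⟩ := exists_pow_lt_of_lt_one (show 0 < c' / 4 by positivity) (show (1 / 2 : ℝ) < 1 by norm_num)
  obtain ⟨lam, hlam⟩ : ∃ lam : ℝ, lam = max 1 (4 * A1 / c') := ⟨_, rfl⟩
  have hlam1 : 1 ≤ lam := by rw [hlam]; exact le_max_left _ _
  have hlam2 : A1 / lam ≤ c' / 4 := by
    rw [div_le_iff₀ (by linarith)]
    have h3 : 4 * A1 / c' ≤ lam := by rw [hlam]; exact le_max_right _ _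
    rw [div_le_iff₀ hc'] at h3
    linarith
  refine ⟨c' / (12 * (j + 1)), c, lam, 3 * (j + 1), by positivity, hc, hlam1, by positivity, fun b => ?_⟩
  obtain ⟨U, hU⟩ : ∃ U : ℝ, U = Ub b := ⟨_, rfl⟩
  have hU1 : 1 ≤ U := by rw [hU]; exact one_le_Ub b
  obtain ⟨n, hn⟩ : ∃ n : ℕ, n = ⌈2 * U⌉₊ := ⟨_, rfl⟩
  have hn1 : 2 * U ≤ n := by rw [hn]; exact Nat.le_ceil _
  have hn2 : (n : ℝ) ≤ 3 * U := by
    rw [hn]
    have := (Nat.ceil_lt_add_one (show 0 ≤ 2 * U by linarith)).le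
    linarith
  obtain ⟨N, hN⟩ : ∃ N : ℕ, N = (j + 1) * n := ⟨_, rfl⟩
  have hN1 : (N : ℝ) ≤ 3 * (j + 1) * U := by
    rw [hN]
    push_cast
    nlinarith
  obtain ⟨M, hM⟩ : ∃ M : ℝ, M = PW.mZ (2 ^ b) := ⟨_, rfl⟩
  have hM0 : 0 < M := by rw [hM]; exact PW.mZ_pos Nat.one_le_two_pow
  have h1 := (h1 b).trans (TL_le_Bl b _)
  have h2 := (Bl_le_TL b _).trans (h2 b lam hlam1)
  simp only [← hM] at h1 h2
  rw [← hM, ← hU]
  rw [← hU] at h1 h2
  rw [pow_one] at h2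
  have h3 : gf {V | V ∈ Bk b ∧ ∃ m, N ≤ m ∧ V ∈ Ir m} ≤ ENNReal.ofReal (c' / 4 * U) := by
    refine (Hm_tail N b).trans ?_
    rw [ENNReal.ofReal_mul (by positivity), ← hU]
    refine mul_le_mul' ?_ le_rfl
    rw [hN]
    refine (Hm_pow (by rw [← hU]; exact hn1) (j + 1)).trans ?_
    rw [← ENNReal.ofReal_pow (by norm_num)]
    refine ENNReal.ofReal_le_ofReal (le_trans ?_ hj.le)
    exact pow_le_pow_of_le_one (by norm_num) (by norm_num) (Nat.le_succ j)
  obtain ⟨G, hG⟩ : ∃ G : ℕ → Set (List Bool), G = fun m => {V | V ∈ Ir m ∧ c * M ≤ (V.length : ℝ) ∧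
      (V.length : ℝ) ≤ lam * M} := ⟨_, rfl⟩
  have hsub : Bl b (c * M) ⊆ (⋃ m ∈ range N, G m) ∪ (Bl b (lam * M) ∪ {V | V ∈ Bk b ∧ ∃ m, N ≤ m ∧ V ∈ Ir m}) := by
    intro V hV
    by_cases h4 : lam * M ≤ (V.length : ℝ)
    · exact Or.inr (Or.inl ⟨hV.1, h4⟩)
    · obtain ⟨m, hm⟩ := exists_Ir _ V (TIP.BU_hgt hV.1.1)
      rcases lt_or_ge m N with h5 | h5
      · left
        rw [Set.mem_iUnion₂]
        refine ⟨m, mem_range.2 h5, ?_⟩
        rw [hG]
        exact ⟨hm, hV.2, (not_le.1 h4).le⟩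
      · exact Or.inr (Or.inr ⟨hV.1, m, h5, hm⟩)
  have h4 : ENNReal.ofReal (c' * U) ≤ ∑ m ∈ range N, gf (G m) + ENNReal.ofReal (c' / 2 * U) := by
    refine h1.trans ((gf_mono hsub).trans ((gf_union_le _ _).trans (add_le_add (JumpVaux.gf_biUnion_le _ _) ?_)))
    refine (gf_union_le _ _).trans ((add_le_add (h2.trans (ENNReal.ofReal_le_ofReal
      (mul_le_mul_of_nonneg_right hlam2 (by linarith)))) h3).trans ?_)
    rw [← ENNReal.ofReal_add (by positivity) (by positivity)]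
    exact ENNReal.ofReal_le_ofReal (by linarith)
  have h5 : ENNReal.ofReal (c' / 2 * U) ≤ ∑ m ∈ range N, gf (G m) := by
    have e : c' * U = c' / 2 * U + c' / 2 * U := by ring
    rw [e, ENNReal.ofReal_add (by positivity) (by positivity)] at h4
    exact (ENNReal.add_le_add_iff_right ENNReal.ofReal_ne_top).1 h4
  by_contra hcon
  push Not at hcon
  have h6 : ∀ m ∈ range N, gf (G m) ≤ ENNReal.ofReal (c' / (12 * (j + 1))) := by
    intro m hm
    rcases Nat.eq_zero_or_pos m with h0 | h0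
    · refine le_trans (le_of_eq ?_) zero_le
      have h7 : G m = ∅ := by
        rw [hG, Set.eq_empty_iff_forall_notMem]
        rintro V ⟨h7, h8, -⟩
        rw [h0] at h7
        have h9 : V = [] := h7
        rw [h9] at h8
        simp only [List.length_nil, Nat.cast_zero] at h8
        have : 0 < c * M := by positivity
        linarith
      rw [h7]
      unfold gf
      simp
    · have h7 := hcon m h0 (by
        have h8 : (m : ℝ) ≤ N := by exact_mod_cast (mem_range.1 hm).le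
        linarith)
      rw [hG]
      exact h7.le
  have h7 : ∑ m ∈ range N, gf (G m) < ENNReal.ofReal (c' / 2 * U) := by
    refine lt_of_le_of_lt (sum_le_sum h6) ?_
    rw [sum_const, card_range, nsmul_eq_mul, ← ENNReal.ofReal_natCast, ← ENNReal.ofReal_mul (Nat.cast_nonneg N)]
    refine (ENNReal.ofReal_lt_ofReal_iff (by positivity)).2 ?_
    have h8 : (N : ℝ) * (c' / (12 * (j + 1))) ≤ 3 * (j + 1) * U * (c' / (12 * (j + 1))) :=
      mul_le_mul_of_nonneg_right hN1 (by positivity)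
    have h9 : 3 * ((j : ℝ) + 1) * U * (c' / (12 * (j + 1))) = c' * U / 4 := by
      field_simp
      norm_num
    have h10 : 0 < c' * U := by positivity
    linarith
  exact absurd h5 (not_le.2 h7)

/-! ### the universal window -/

lemma pow43 (k : ℕ) : ((2 ^ k : ℕ) : ℝ) ^ (4 / 3 : ℝ) = ((2 : ℝ) ^ (4 / 3 : ℝ)) ^ k := by
  rw [Nat.cast_pow, Nat.cast_ofNat, ← Real.rpow_natCast (2 : ℝ) k, ← Real.rpow_mul (by norm_num),
    ← Real.rpow_natCast ((2 : ℝ) ^ (4 / 3 : ℝ)) k, ← Real.rpow_mul (by norm_num), mul_comm]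

/-- **L1** -/
theorem groupL : GroupL := by
  obtain ⟨c0, c, lam, A, hc0, hc, hlam, hA, h⟩ := one_scale
  obtain ⟨ca, Ca, hca, hCa, hm⟩ := _root_.VF.mZ_two _root_.VF.sharpZ
  obtain ⟨w, hw⟩ : ∃ w : ℝ, w = (2 : ℝ) ^ (4 / 3 : ℝ) := ⟨_, rfl⟩
  have hw2 : 2 ≤ w := by
    rw [hw]
    calc (2 : ℝ) = 2 ^ (1 : ℝ) := (Real.rpow_one 2).symm
      _ ≤ 2 ^ (4 / 3 : ℝ) := Real.rpow_le_rpow_of_exponent_le (by norm_num) (by norm_num)
  have hw0 : 0 < w := by linarith
  have hlo : ∀ k : ℕ, ca * w ^ k ≤ PW.mZ (2 ^ k) := fun k => by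
    have := (hm (2 ^ k) Nat.one_le_two_pow).1
    rwa [pow43, ← hw] at this
  have hup : ∀ k : ℕ, PW.mZ (2 ^ k) ≤ Ca * w ^ k := fun k => by
    have := (hm (2 ^ k) Nat.one_le_two_pow).2
    rwa [pow43, ← hw] at this
  obtain ⟨q, hq⟩ : ∃ q : ℝ, q = Ca / ca := ⟨_, rfl⟩
  have hq1 : 1 ≤ q := by
    have h1 := (hlo 0).trans (hup 0)
    rw [pow_zero, mul_one, mul_one] at h1
    rw [hq, le_div_iff₀ hca, one_mul]
    exact h1
  have hq0 : 0 < q := by linarith
  have hCq : Ca = q * ca := by rw [hq]; field_simp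
  refine ⟨c0, max 1 (lam / c * q ^ 2), hc0, le_max_left _ _, fun c' k' hc' => ?_⟩
  obtain ⟨j0, hj0⟩ := NTW.Ub_small (show 0 < c' / A by positivity)
  obtain ⟨D1, hD1⟩ := pow_unbounded_of_one_lt (max c (lam * q)) (show (1 : ℝ) < 2 by norm_num)
  obtain ⟨D, hD⟩ : ∃ D : ℕ, D = k' + j0 + D1 := ⟨_, rfl⟩
  have hwD : max c (lam * q) ≤ w ^ D := by
    calc max c (lam * q) ≤ 2 ^ D1 := hD1.le
      _ ≤ 2 ^ D := pow_le_pow_right₀ (by norm_num) (by omega)
      _ ≤ w ^ D := pow_le_pow_left₀ (by norm_num) hw2 D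
  have hwD0 : 0 < w ^ D := pow_pos hw0 D
  have hcD : c ≤ w ^ D := (le_max_left _ _).trans hwD
  have hlD : lam * q ≤ w ^ D := (le_max_right _ _).trans hwD
  have hlam0 : 0 < lam := by linarith
  refine ⟨c / (q * w ^ D), D, by positivity, ?_, by omega, fun L hL => ?_⟩
  · rw [max_mul_of_nonneg _ _ (by positivity)]
    refine max_le ?_ ?_
    · rw [one_mul, div_le_one (by positivity)]
      nlinarith
    · have e : lam / c * q ^ 2 * (c / (q * w ^ D)) = lam * q / w ^ D := by field_simp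
      rw [e, div_le_one hwD0]
      exact hlD
  obtain ⟨b, hb⟩ : ∃ b : ℕ, L = b + D := ⟨L - D, by omega⟩
  obtain ⟨Ng, hN1, hN2, hN3⟩ := h b
  refine ⟨Ng, hN1, ?_, hN3.trans (gf_mono fun V hV => ⟨hV.1, ?_, ?_⟩)⟩
  · have h1 := hj0 (L - k') (by omega)
    have h2 : Ub b ≤ Ub (L - k' - j0) := by
      show UU (2 ^ b) ≤ UU (2 ^ (L - k' - j0))
      exact Num2Aux.UU_mono (Nat.pow_le_pow_right (by norm_num) (by omega))
    calc (Ng : ℝ) ≤ A * Ub b := hN2
      _ ≤ A * (c' / A * Ub (L - k')) := mul_le_mul_of_nonneg_left (h2.trans h1) hA.le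
      _ = c' * Ub (L - k') := by field_simp
  · refine le_trans ?_ hV.2.1
    calc c / (q * w ^ D) * PW.mZ (2 ^ L) ≤ c / (q * w ^ D) * (Ca * w ^ L) :=
          mul_le_mul_of_nonneg_left (hup L) (by positivity)
      _ = c * (ca * w ^ b) := by
          rw [hb, pow_add, hCq]
          field_simp
      _ ≤ c * PW.mZ (2 ^ b) := mul_le_mul_of_nonneg_left (hlo b) hc.le
  · refine hV.2.2.trans ?_
    calc lam * PW.mZ (2 ^ b) ≤ lam * (Ca * w ^ b) := mul_le_mul_of_nonneg_left (hup b) hlam0.le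
      _ = lam / c * q ^ 2 * (c / (q * w ^ D)) * (ca * w ^ L) := by
          rw [hb, pow_add, hCq]
          field_simp
      _ ≤ lam / c * q ^ 2 * (c / (q * w ^ D)) * PW.mZ (2 ^ L) := mul_le_mul_of_nonneg_left (hlo L) (by positivity)
      _ ≤ max 1 (lam / c * q ^ 2) * (c / (q * w ^ D)) * PW.mZ (2 ^ L) :=
          mul_le_mul_of_nonneg_right (mul_le_mul_of_nonneg_right (le_max_right _ _) (by positivity)) (PW.mZ_nonneg _)

/-- **L1 + L2**, no hypothesis -/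
theorem atypM : AtypM := atypM_of groupL

end NPR

end HexObs
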