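import Pool.Agent.NPR.InitD
import Pool.Agent.NPR.ExtT
import Pool.Agent.NPR.TwoEnd

/-!
# NPR, row S0 (helper58): words without good chains behind some grid point are rare, with the reversed words

* `few_one` : the union over the grid points;
* **`few_of`** : the word and the reversed word.
-/

set_option autoImplicit false

namespace HexObs

namespace NPR

open Finset TS SDN TIW NTA TIP

open scoped ENNReal

/-- the number of the grid points -/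
lemma grid_num : ∃ C : ℝ, 1 ≤ C ∧ ∀ K L : ℕ, L + 1 ≤ K → ∃ N : ℕ, (N : ℝ) ≤ C ^ (K - L) ∧
    ∀ n i : ℕ, n ≤ ML (K + 2) → i * ML L < n → i < N := by
  obtain ⟨C, hC, h⟩ := exists_mz_up
  refine ⟨256 * C, by linarith, fun K L hKL => ?_⟩
  have hC0 : (0 : ℝ) < C := by linarith
  have e1 : L + (K + 2 - L) = K + 2 := by omega
  have e2 : K + 2 - L = (K - L) + 2 := by omega
  have h1 : (ML (K + 2) : ℝ) ≤ 32 * C * 4 ^ (K - L) * ML L := by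
    have h2 := h L (K + 2 - L)
    rw [e1, e2, pow_add (4 : ℝ)] at h2
    have h3 := ML_le2 (K + 2)
    have h4 := ML_ge L
    calc (ML (K + 2) : ℝ) ≤ 2 * PW.mZ (2 ^ (K + 2)) := h3
      _ ≤ 2 * (C * (4 ^ (K - L) * 4 ^ 2) * PW.mZ (2 ^ L)) := by linarith
      _ = 32 * C * 4 ^ (K - L) * PW.mZ (2 ^ L) := by ring
      _ ≤ 32 * C * 4 ^ (K - L) * ML L := mul_le_mul_of_nonneg_left h4 (by positivity)
  refine ⟨⌈32 * C * 4 ^ (K - L)⌉₊, ?_, fun n i hn hi => ?_⟩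
  · have h2 : (1 : ℝ) ≤ 32 * C * 4 ^ (K - L) := by
      have h3 : (1 : ℝ) ≤ 4 ^ (K - L) := one_le_pow₀ (by norm_num)
      nlinarith
    have h4 : (⌈32 * C * 4 ^ (K - L)⌉₊ : ℝ) ≤ 64 * C * 4 ^ (K - L) := by
      have := (Nat.ceil_lt_add_one (by positivity : (0 : ℝ) ≤ 32 * C * 4 ^ (K - L))).le
      linarith
    refine h4.trans ?_
    have h5 : (256 * C) ^ (K - L) = (64 * C) ^ (K - L) * 4 ^ (K - L) := by
      rw [← mul_pow]
      ring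
    rw [h5]
    refine mul_le_mul_of_nonneg_right ?_ (by positivity)
    calc 64 * C = (64 * C) ^ 1 := (pow_one _).symm
      _ ≤ (64 * C) ^ (K - L) := pow_le_pow_right₀ (by linarith) (by omega)
  · have hM : (0 : ℝ) < ML L := lt_of_lt_of_le (mz_pos L) (ML_ge L)
    have h2 : ((i * ML L : ℕ) : ℝ) < ML (K + 2) := by exact_mod_cast lt_of_lt_of_le hi hn
    push_cast at h2
    have h3 : (i : ℝ) < 32 * C * 4 ^ (K - L) := by
      by_contra hcon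
      push Not at hcon
      have h4 := mul_le_mul_of_nonneg_right hcon hM.le
      linarith
    have h4 : (i : ℝ) < (⌈32 * C * 4 ^ (K - L)⌉₊ : ℝ) := h3.trans_le (Nat.le_ceil _)
    exact_mod_cast h4



/-- the union over the grid points -/
theorem few_one {κ : ℝ} {C b0 k : ℕ} (hET : ET κ C b0 k) : ∃ (δ B : ℝ) (L0 : ℕ), 0 < δ ∧ 1 ≤ B ∧
    ∀ (L : ℕ) (QQ : Set (List Bool)), L0 ≤ L →
    gf {t | t ∈ WL (L + 16) ∧ t ∈ Fac QQ} ≤ ENNReal.ofReal δ * FK L → ∀ K J n : ℕ, L + 16 ≤ K → n ≤ ML (K + 2) →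
    gf {t | t ∈ WL K ∧ t.length ≤ n ∧ ¬ GoodC κ C b0 k L QQ J t} ≤ ENNReal.ofReal (B ^ (K - L) / 4 ^ J) * FK K := by
  obtain ⟨δ, B, L0, hδ, hB, h⟩ := hET
  obtain ⟨G, hG, hN⟩ := grid_num
  have hB0 : (0 : ℝ) < B := by linarith
  have hG0 : (0 : ℝ) < G := by linarith
  refine ⟨δ, G * B, L0, hδ, by nlinarith, fun L QQ hL hQ K J n hK hn => ?_⟩
  obtain ⟨N, hN1, hN2⟩ := hN K L (by omega)
  obtain ⟨S, hS⟩ : ∃ S : ℕ → Set (List Bool), S = fun i => {t | t ∈ WL K ∧ i * ML L + 3 * ML L * (J + 1) < t.length ∧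
    ¬ ∃ g, J ≤ 2 * g ∧ Ch κ C b0 k L QQ J g (t.drop (i * ML L))} := ⟨_, rfl⟩
  have h1 : gf {t | ∃ i, i < N ∧ t ∈ S i} ≤ N * (ENNReal.ofReal (B ^ (K - L) / 4 ^ J) * FK K) := by
    refine gf_range_le' N S fun i _ => ?_
    rw [hS]
    exact h L QQ hL hQ K J (i * ML L) hK
  have h2 : {t | t ∈ WL K ∧ t.length ≤ n ∧ ¬ GoodC κ C b0 k L QQ J t} ⊆ {t | ∃ i, i < N ∧ t ∈ S i} := by
    rintro t ⟨ht1, ht2, ht3⟩
    unfold GoodC at ht3
    rw [not_forall] at ht3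
    obtain ⟨i, ht3⟩ := ht3
    rw [Classical.not_imp] at ht3
    refine ⟨i, hN2 t.length i (ht2.trans hn) (lt_of_le_of_lt (Nat.le_add_right _ _) ht3.1), ?_⟩
    rw [hS]
    exact ⟨ht1, ht3.1, ht3.2⟩
  refine (gf_mono h2).trans (h1.trans ?_)
  rw [← mul_assoc]
  refine mul_le_mul_left ?_ _
  rw [← ENNReal.ofReal_natCast, ← ENNReal.ofReal_mul (Nat.cast_nonneg _)]
  refine ENNReal.ofReal_le_ofReal ?_
  rw [mul_pow, mul_div_assoc]
  exact mul_le_mul_of_nonneg_right hN1 (by positivity)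

/-- **the word and the reversed word have good chains behind all the grid points** -/
theorem few_of {κ : ℝ} {C b0 k : ℕ} (hET : ET κ C b0 k) : ∃ (δ B : ℝ) (L0 : ℕ), 0 < δ ∧ 1 ≤ B ∧
    ∀ (L : ℕ) (QQ : Set (List Bool)), L0 ≤ L →
    gf {t | t ∈ WL (L + 16) ∧ t ∈ Fac QQ} ≤ ENNReal.ofReal δ * FK L → ∀ K J n : ℕ, L + 16 ≤ K → n ≤ ML (K + 2) →
    gf {t | t ∈ WL K ∧ t.length ≤ n ∧
      ¬ (GoodC κ C b0 k L QQ J t ∧ GoodC κ C b0 k L QQ J ((rev t).drop 1))} ≤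
      ENNReal.ofReal (B ^ (K - L) / 4 ^ J) * FK K := by
  obtain ⟨δ, B, L0, hδ, hB, h⟩ := few_one hET
  obtain ⟨E, hE, hF⟩ := FK_upE
  have hB0 : (0 : ℝ) < B := by linarith
  have hE0 : (0 : ℝ) < E := by linarith
  have hE3 : (1 : ℝ) ≤ E ^ 3 := one_le_pow₀ hE
  have hB3 : (1 : ℝ) ≤ B ^ 3 := one_le_pow₀ hB
  refine ⟨δ, 4 * B ^ 4 * E ^ 3, L0, hδ, ?_, fun L QQ hL hQ K J n hK hn => ?_⟩
  · have h1 : (1 : ℝ) ≤ B ^ 4 := one_le_pow₀ hB
    have h2 : (1 : ℝ) ≤ B ^ 4 * E ^ 3 := by nlinarith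
    nlinarith
  have h1 := h L QQ hL hQ K J n hK hn
  have h2 : gf {t | t ∈ WL K ∧ t.length ≤ n ∧ ¬ GoodC κ C b0 k L QQ J ((rev t).drop 1)} ≤
      3 * gf {t | t ∈ WL (K + 3) ∧ t.length ≤ n ∧ ¬ GoodC κ C b0 k L QQ J t} := by
    refine gf_rev1 ?_
    rintro t ⟨ht1, ht2, ht3⟩
    refine ⟨DW_WL (D := 12 * 2 ^ K + 8) ?_ (DW_rev (WL_DW ht1)), ?_, ht3⟩
    · have h3 : (1 : ℤ) ≤ 2 ^ K := one_le_pow₀ (by norm_num)
      have e : (3 : ℤ) * 2 ^ (K + 3) = 24 * 2 ^ K := by ring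
      rw [e]
      linarith
    · rw [List.length_drop, rev_length]
      omega
  have h3 := h L QQ hL hQ (K + 3) J n (by omega) (hn.trans (ML_mono (by omega)))
  have h4 := hF K 3
  have hsub : gf {t | t ∈ WL K ∧ t.length ≤ n ∧
      ¬ (GoodC κ C b0 k L QQ J t ∧ GoodC κ C b0 k L QQ J ((rev t).drop 1))} ≤
      gf {t | t ∈ WL K ∧ t.length ≤ n ∧ ¬ GoodC κ C b0 k L QQ J t} +
      gf {t | t ∈ WL K ∧ t.length ≤ n ∧ ¬ GoodC κ C b0 k L QQ J ((rev t).drop 1)} := by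
    refine (gf_mono ?_).trans (gf_union_le _ _)
    rintro t ⟨ht1, ht2, ht3⟩
    by_cases hg : GoodC κ C b0 k L QQ J t
    · exact Or.inr ⟨ht1, ht2, fun hg2 => ht3 ⟨hg, hg2⟩⟩
    · exact Or.inl ⟨ht1, ht2, hg⟩
  refine hsub.trans ((add_le_add h1 (h2.trans (mul_le_mul_right (h3.trans (mul_le_mul_right h4 _)) _))).trans ?_)
  have e0 : (3 : ℝ≥0∞) = ENNReal.ofReal 3 := by norm_num
  rw [e0, ← mul_assoc (ENNReal.ofReal (B ^ (K + 3 - L) / 4 ^ J)), ← ENNReal.ofReal_mul (by positivity), ← mul_assoc,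
    ← ENNReal.ofReal_mul (by norm_num), ← add_mul, ← ENNReal.ofReal_add (by positivity) (by positivity)]
  refine mul_le_mul_left (ENNReal.ofReal_le_ofReal ?_) _
  have e1 : K + 3 - L = (K - L) + 3 := by omega
  rw [e1, pow_add]
  have h5 : B ^ (K - L) / 4 ^ J + 3 * (B ^ (K - L) * B ^ 3 / 4 ^ J * E ^ 3) =
      B ^ (K - L) * (1 + 3 * (B ^ 3 * E ^ 3)) / 4 ^ J := by
    ring
  rw [h5]
  refine div_le_div_of_nonneg_right ?_ (by positivity)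
  have h6 : (1 : ℝ) ≤ B ^ 3 * E ^ 3 := by nlinarith
  have h7 : (4 * B ^ 4 * E ^ 3) ^ (K - L) = B ^ (K - L) * (4 * (B ^ 3 * E ^ 3)) ^ (K - L) := by
    rw [← mul_pow]
    congr 1
    ring
  rw [h7]
  refine mul_le_mul_of_nonneg_left ?_ (by positivity)
  calc 1 + 3 * (B ^ 3 * E ^ 3) ≤ 4 * (B ^ 3 * E ^ 3) := by linarith
    _ = (4 * (B ^ 3 * E ^ 3)) ^ 1 := (pow_one _).symm
    _ ≤ (4 * (B ^ 3 * E ^ 3)) ^ (K - L) := pow_le_pow_right₀ (by linarith) (by omega)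

end NPR

end HexObs
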