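import Pool.Agent.NPR.InitU

/-!
# NPR, row S0, the upper half (helper16): the density of the windows is bounded above

* `Few` : the mass of the words without good chains (helper58's `few_of`);
* `UpR`, **`upR_of : FastN → Few κ C b0 k → UpR`**.
-/

set_option autoImplicit false

namespace HexObs

namespace NPR

open Finset TS SDN TIW NTA TIP

open scoped ENNReal

/-- few words without good chains -/
def Few (κ : ℝ) (C b0 k : ℕ) : Prop := ∃ (δ B : ℝ) (L0 : ℕ), 0 < δ ∧ 1 ≤ B ∧ ∀ (L : ℕ) (QQ : Set (List Bool)), L0 ≤ L →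
  gf {t | t ∈ WL (L + 16) ∧ t ∈ Fac QQ} ≤ ENNReal.ofReal δ * FK L → ∀ K J n : ℕ, L + 16 ≤ K → n ≤ ML (K + 2) →
  gf {t | t ∈ WL K ∧ t.length ≤ n ∧ ¬ (GoodC κ C b0 k L QQ J t ∧ GoodC κ C b0 k L QQ J ((rev t).drop 1))} ≤
    ENNReal.ofReal (B ^ (K - L) / 4 ^ J) * FK K

/-- the upper half of InitR -/
def UpR : Prop := ∃ (b : ℝ) (d0 : ℕ), 0 < b ∧ ∀ d, d0 ≤ d → ∀ (r l : ℕ) (V : List Bool → ℝ), 2 ≤ r → AF r V → r ≤ 2 ^ l →
  2 ^ l ≤ 2 * r → ∀ K n : ℕ, nl d K l ≤ K → n ≤ ML (K + 2) →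
  gf {t | t ∈ WL K ∧ t.length ≤ n ∧ ¬ ∀ x y : ℕ, x ≤ y → y ≤ t.length → (ML (nl d K l) : ℝ) ≤ (y : ℝ) - x →
    PW.mZ (2 ^ l) * V (wd t x y) ≤ b * ((y : ℝ) - x)} ≤ ENNReal.ofReal ((1 / 2) ^ (K - l + 1)) * FK K

lemma Cv.rad {r r' : ℕ} {u : List Bool} {N : ℕ} (h : Cv r u N) (hr : r ≤ r') : Cv r' u N := by
  obtain ⟨l, l1, l2, l3⟩ := h
  exact ⟨l, l1, l2, fun w hw => (l3 w hw).mono hr⟩

lemma Cv_letters (u : List Bool) : Cv 2 u u.length := by
  induction u with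
  | nil => exact Cv_nil 2
  | cons b u ih =>
    have h := (Cv_of_Dm (Dm_one b)).app ih
    rw [List.singleton_append] at h
    exact h.mono (by rw [List.length_cons]; omega)

/-- the next scale is large -/
lemma nl_low (d K l : ℕ) : (2 : ℝ) ^ d * ((K - l + 1 : ℕ) : ℝ) / 2 * PW.mZ (2 ^ l) ≤ (ML (nl d K l) : ℝ) := by
  have h1 := mz_low l (d + Nat.log 2 (K - l + 1))
  have h2 : (nl d K l) = l + (d + Nat.log 2 (K - l + 1)) := by
    unfold nl
    omega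
  rw [h2]
  refine le_trans ?_ (ML_ge _)
  refine le_trans (mul_le_mul_of_nonneg_right ?_ (mz_pos l).le) h1
  have h3 : ((K - l + 1 : ℕ) : ℝ) ≤ 2 ^ (Nat.log 2 (K - l + 1) + 1) := by
    exact_mod_cast (Nat.lt_pow_succ_log_self (by norm_num : 1 < 2) (K - l + 1)).le
  have h4 : (0 : ℝ) < 2 ^ d := by positivity
  rw [pow_add]
  rw [pow_succ] at h3
  have h5 := mul_le_mul_of_nonneg_left h3 h4.le
  linarith

/-- the windows of a good word, in numbers -/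
theorem up_good {κ : ℝ} {C b0 k L J K l d c : ℕ} {lam Cm : ℝ} (hl : 1 ≤ lam) (hCm : 1 ≤ Cm)
    (hCm' : ∀ l j : ℕ, PW.mZ (2 ^ (l + j)) ≤ Cm * 4 ^ j * PW.mZ (2 ^ l)) (hc : 16 * lam ≤ c) (hc1 : 1 ≤ c)
    (hJ : J = c * (K - l + 1)) (hL : l = L + 3) (hL1 : 1 ≤ L) (hd : 52 * c ≤ 2 ^ d) {r : ℕ} {V : List Bool → ℝ}
    (hV : AF r V) (hr : 2 ^ l ≤ 2 * r) {t : List Bool}
    (hG : GoodC κ C b0 k L (FastQ L lam) J t) (hG' : GoodC κ C b0 k L (FastQ L lam) J ((rev t).drop 1)) {x y : ℕ}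
    (hxy : x ≤ y) (hy : y ≤ t.length) (hw : (ML (nl d K l) : ℝ) ≤ (y : ℝ) - x) :
    PW.mZ (2 ^ l) * V (wd t x y) ≤ (96 * 64 * lam * Cm + 26 * c) * ((y : ℝ) - x) := by
  have hmL := mz_one L
  have hml := mz_one l
  have hLl := mz_mono (show L ≤ l by omega)
  have hm1 : (1 : ℝ) ≤ ((K - l + 1 : ℕ) : ℝ) := by exact_mod_cast Nat.le_add_left 1 (K - l)
  have hc1' : (1 : ℝ) ≤ c := by exact_mod_cast hc1
  have hlam : 0 < lam := by linarith
  have hJ' : (J : ℝ) = c * ((K - l + 1 : ℕ) : ℝ) := by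
    rw [hJ]
    push_cast
    ring
  obtain ⟨m, hm⟩ : ∃ m : ℝ, m = ((K - l + 1 : ℕ) : ℝ) := ⟨_, rfl⟩
  rw [← hm] at hm1 hJ'
  have hn := nl_low d K l
  rw [← hm] at hn
  obtain ⟨w, hw0⟩ : ∃ w : ℝ, w = (y : ℝ) - x := ⟨_, rfl⟩
  rw [← hw0] at hw ⊢
  have hd' : (52 : ℝ) * c ≤ 2 ^ d := by exact_mod_cast hd
  -- the window is long
  have w1 : 26 * c * m * PW.mZ (2 ^ l) ≤ w := by
    refine le_trans ?_ (hn.trans hw)
    have h1 : 26 * c * m ≤ 2 ^ d * m / 2 := by nlinarith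
    exact mul_le_mul_of_nonneg_right h1 (by linarith)
  have hcm : (1 : ℝ) ≤ c * m := by nlinarith
  have hJc : (16 : ℝ) * lam ≤ J := by
    rw [hJ']
    nlinarith
  have hJ1 : (1 : ℝ) ≤ J := by linarith
  -- the length of the word
  have ht : 6 * ML L * (J + 1) + 2 ≤ t.length := by
    have h1 := ML_le2 L
    have h2 : (t.length : ℝ) ≥ w := by
      rw [hw0]
      have h3 : (y : ℝ) ≤ t.length := by exact_mod_cast hy
      have h4 : (0 : ℝ) ≤ x := Nat.cast_nonneg x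
      linarith
    have h3 : (6 * (ML L : ℝ) * (J + 1) + 2) ≤ t.length := by
      refine le_trans ?_ h2
      refine le_trans ?_ w1
      rw [mul_assoc 26, ← hJ']
      have h4 : (6 : ℝ) * (ML L : ℝ) * (J + 1) ≤ 6 * (2 * PW.mZ (2 ^ l)) * (2 * J) := by
        have h5 : (ML L : ℝ) ≤ 2 * PW.mZ (2 ^ l) := h1.trans (by linarith)
        have h6 : (J : ℝ) + 1 ≤ 2 * J := by linarith
        have h7 : (0 : ℝ) ≤ (ML L : ℝ) := Nat.cast_nonneg _
        have h8 := mul_le_mul h5 h6 (by linarith) (by linarith)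
        nlinarith
      have h9 : (1 : ℝ) ≤ J * PW.mZ (2 ^ l) := by nlinarith
      nlinarith
    exact_mod_cast h3
  -- the length h
  obtain ⟨X, hX⟩ : ∃ X : ℝ, X = PW.mZ (2 ^ L) / lam := ⟨_, rfl⟩
  have hX0 : 0 < X := by
    rw [hX]
    positivity
  have hX1 : X * lam = PW.mZ (2 ^ L) := by
    rw [hX]
    field_simp
  have hJX : 16 * PW.mZ (2 ^ L) ≤ J * X := by
    rw [← hX1]
    nlinarith
  obtain ⟨h, hh⟩ : ∃ h : ℕ, h = ⌊(J : ℝ) * X / 8⌋₊ := ⟨_, rfl⟩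
  have hh1 : (h : ℝ) ≤ J * X / 8 := by
    rw [hh]
    exact Nat.floor_le (by positivity)
  have hh2 : (J : ℝ) * X / 16 ≤ h := by
    have h1 := Nat.lt_floor_add_one ((J : ℝ) * X / 8)
    rw [← hh] at h1
    linarith
  have hh3 : (1 : ℝ) ≤ h := by linarith
  have hh4 : 1 ≤ h := by exact_mod_cast hh3
  have hh5 : ((h : ℝ) + ML L) ≤ J / 2 * (PW.mZ (2 ^ L) / lam) := by
    rw [← hX]
    have h1 := ML_le2 L
    linarith
  obtain ⟨n, hn'⟩ : ∃ n : ℕ, n = (y - x) / h + 1 := ⟨_, rfl⟩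
  have hn1 : y - x ≤ n * h := by
    rw [hn', add_mul, one_mul]
    have := Nat.lt_div_mul_add hh4 (a := y - x)
    omega
  have hn2 : (n : ℝ) ≤ w / h + 1 := by
    rw [hn']
    push_cast
    have h1 : (((y - x) / h : ℕ) : ℝ) ≤ ((y - x : ℕ) : ℝ) / h := Nat.cast_div_le
    rw [Nat.cast_sub hxy, ← hw0] at h1
    linarith
  have hcov := (up_cov hl hG hG' hh5 ht hxy hy hn1).rad (r' := r) (by
    have h1 : 2 ^ l = 8 * 2 ^ L := by
      rw [hL, pow_add]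
      norm_num
      ring
    have h2 : 2 ≤ 2 ^ L := by
      calc 2 = 2 ^ 1 := by norm_num
        _ ≤ 2 ^ L := Nat.pow_le_pow_right (by norm_num) hL1
    omega)
  have hval := V_of_Cv hV hcov (by omega)
  push_cast at hval
  -- numbers
  have v1 : V (wd t x y) ≤ 6 * J * (w / h) + 13 * J := by
    have h1 : (6 : ℝ) * J * (n + 1) ≤ 6 * J * (w / h + 1 + 1) := by
      apply mul_le_mul_of_nonneg_left _ (by positivity)
      linarith
    nlinarith
  have hw00 : 0 ≤ w := by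
    have : (0 : ℝ) ≤ 26 * c * m * PW.mZ (2 ^ l) := by positivity
    linarith
  have v2 : 6 * (J : ℝ) * (w / h) ≤ 96 * (w / X) := by
    rw [mul_div_assoc', mul_div_assoc', div_le_div_iff₀ (by linarith) hX0]
    nlinarith
  have v3 : PW.mZ (2 ^ l) / X ≤ 64 * lam * Cm := by
    rw [div_le_iff₀ hX0]
    have h1 := hCm' L 3
    rw [← hL, ← hX1] at h1
    refine h1.trans (le_of_eq ?_)
    norm_num
    ring
  have v4 : 13 * (J : ℝ) * PW.mZ (2 ^ l) ≤ 26 * c * w := by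
    rw [hJ']
    have h1 : 13 * (c * m) * PW.mZ (2 ^ l) ≤ w := by
      refine le_trans ?_ w1
      have : (0 : ℝ) ≤ c * m * PW.mZ (2 ^ l) := by positivity
      nlinarith
    nlinarith
  have hmlp : 0 ≤ PW.mZ (2 ^ l) := by linarith
  calc PW.mZ (2 ^ l) * V (wd t x y) ≤ PW.mZ (2 ^ l) * (96 * (w / X) + 13 * J) :=
        mul_le_mul_of_nonneg_left (v1.trans (by linarith)) hmlp
    _ = 96 * w * (PW.mZ (2 ^ l) / X) + 13 * (J : ℝ) * PW.mZ (2 ^ l) := by ring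
    _ ≤ 96 * w * (64 * lam * Cm) + 26 * c * w := add_le_add (mul_le_mul_of_nonneg_left v3 (by positivity)) v4
    _ = _ := by ring

/-- **the upper half** -/
theorem upR_of (hF : FastN) {κ : ℝ} {C b0 k : ℕ} (hE : Few κ C b0 k) : UpR := by
  obtain ⟨δ, B, L0, hδ, hB, hE⟩ := hE
  obtain ⟨lam, L1, hl, hF⟩ := hF δ hδ
  obtain ⟨Cm, hCm, hCm'⟩ := exists_mz_up
  -- the constant c
  obtain ⟨c1, hc1⟩ := pow_unbounded_of_one_lt (2 * B ^ 3) (by norm_num : (1 : ℝ) < 4)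
  obtain ⟨c2, hc2⟩ := exists_nat_ge (16 * lam)
  obtain ⟨c, hc⟩ : ∃ c, c = max c1 (max c2 1) := ⟨_, rfl⟩
  have hcc1 : c1 ≤ c := by rw [hc]; exact le_max_left _ _
  have hcc2 : c2 ≤ c := by rw [hc]; exact (le_max_left _ _).trans (le_max_right _ _)
  have hcc3 : 1 ≤ c := by rw [hc]; exact (le_max_right _ _).trans (le_max_right _ _)
  have hc4 : 2 * B ^ 3 ≤ (4 : ℝ) ^ c := hc1.le.trans (pow_le_pow_right₀ (by norm_num) hcc1)
  have hc5 : 16 * lam ≤ c := hc2.trans (by exact_mod_cast hcc2)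
  obtain ⟨d1, hd1⟩ := pow_unbounded_of_one_lt (52 * c) (by norm_num : 1 < 2)
  obtain ⟨L2, hL2⟩ : ∃ L2, L2 = max (max L0 L1) 1 := ⟨_, rfl⟩
  have hL20 : L0 ≤ L2 := by rw [hL2]; exact (le_max_left _ _).trans (le_max_left _ _)
  have hL21 : L1 ≤ L2 := by rw [hL2]; exact (le_max_right _ _).trans (le_max_left _ _)
  have hL22 : 1 ≤ L2 := by rw [hL2]; exact le_max_right _ _
  have hM0 := mz_one (L2 + 3)
  have hlam : 0 < lam := by linarith
  have hc0 : (1 : ℝ) ≤ c := by exact_mod_cast hcc3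
  refine ⟨96 * 64 * lam * Cm + 26 * c + PW.mZ (2 ^ (L2 + 3)), max d1 13, by positivity, ?_⟩
  intro d hd r l V hr hV hrl hlr K n hK hn
  have hd1' : d1 ≤ d := (le_max_left _ _).trans hd
  have hd2 : 13 ≤ d := (le_max_right _ _).trans hd
  have hnl : l + d ≤ nl d K l := by
    unfold nl
    omega
  rcases Nat.lt_or_ge l (L2 + 3) with hcase | hcase
  · -- small scales
    have e : {t : List Bool | t ∈ WL K ∧ t.length ≤ n ∧ ¬ ∀ x y : ℕ, x ≤ y → y ≤ t.length →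
        (ML (nl d K l) : ℝ) ≤ (y : ℝ) - x →
        PW.mZ (2 ^ l) * V (wd t x y) ≤ (96 * 64 * lam * Cm + 26 * c + PW.mZ (2 ^ (L2 + 3))) * ((y : ℝ) - x)} = ∅ := by
      ext t
      simp only [Set.mem_setOf_eq, Set.mem_empty_iff_false, iff_false]
      rintro ⟨-, -, h⟩
      refine h fun x y hxy hy hw => ?_
      have h1 := (mz_one _).trans ((ML_ge (nl d K l)).trans hw)
      have h2 : 1 ≤ y - x := by
        have : (1 : ℝ) ≤ ((y - x : ℕ) : ℝ) := by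
          rw [Nat.cast_sub hxy]
          exact h1
        exact_mod_cast this
      have h3 := V_of_Cv hV ((Cv_letters (wd t x y)).rad hr) (by rw [wd_len hy]; exact h2)
      rw [wd_len hy, Nat.cast_sub hxy] at h3
      have h4 := mz_mono hcase.le
      have h5 := hV.one (wd t x y)
      have h6 : 0 ≤ 96 * 64 * lam * Cm + 26 * c := by positivity
      have h7 : PW.mZ (2 ^ l) * V (wd t x y) ≤ PW.mZ (2 ^ (L2 + 3)) * ((y : ℝ) - x) :=
        mul_le_mul h4 h3 (by linarith) (by linarith)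
      nlinarith
    rw [e]
    unfold gf
    simp
  · obtain ⟨L, hL⟩ : ∃ L, l = L + 3 := ⟨l - 3, by omega⟩
    have hLL : L2 ≤ L := by omega
    obtain ⟨J, hJ⟩ : ∃ J, J = c * (K - l + 1) := ⟨_, rfl⟩
    have hmass := hE L (FastQ L lam) (hL20.trans hLL) (hF L (hL21.trans hLL)) K J n (by omega) hn
    have hnum : B ^ (K - L) / 4 ^ J ≤ (1 / 2 : ℝ) ^ (K - l + 1) := by
      rw [div_le_iff₀ (by positivity)]
      have h1 : B ^ (K - L) ≤ (B ^ 3) ^ (K - l + 1) := by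
        rw [← pow_mul]
        exact pow_le_pow_right₀ hB (by omega)
      have h2 : (2 * B ^ 3) ^ (K - l + 1) ≤ (4 : ℝ) ^ J := by
        rw [hJ, pow_mul]
        exact pow_le_pow_left₀ (by positivity) hc4 _
      have h3 : (1 / 2 : ℝ) ^ (K - l + 1) * (2 * B ^ 3) ^ (K - l + 1) = (B ^ 3) ^ (K - l + 1) := by
        rw [← mul_pow]
        congr 1
        ring
      calc B ^ (K - L) ≤ (B ^ 3) ^ (K - l + 1) := h1
        _ = (1 / 2 : ℝ) ^ (K - l + 1) * (2 * B ^ 3) ^ (K - l + 1) := h3.symm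
        _ ≤ _ := mul_le_mul_of_nonneg_left h2 (by positivity)
    refine le_trans (gf_mono ?_) (hmass.trans (mul_le_mul_left (ENNReal.ofReal_le_ofReal hnum) _))
    rintro t ⟨h1, h2, h3⟩
    refine ⟨h1, h2, fun h4 => h3 fun x y hxy hy hw => ?_⟩
    have h5 := up_good hl hCm hCm' hc5 hcc3 hJ hL (by omega) (show 52 * c ≤ 2 ^ d from
      hd1.le.trans (Nat.pow_le_pow_right (by norm_num) hd1')) hV hlr h4.1 h4.2 hxy hy hw
    have h6 : (0 : ℝ) ≤ (y : ℝ) - x := by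
      have : (x : ℝ) ≤ y := by exact_mod_cast hxy
      linarith
    nlinarith

end NPR

end HexObs
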