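import Pool.Agent.NPR.InitL
import Pool.Agent.NPR.InitM
import Pool.Agent.NPR.InitV

/-!
# NPR, row S0 (helpers 16, 41, 58): the initial range

* **`initR : SlowN → FastN → ET → InitR`** : the densities of the long windows are in a fixed range [a, b].
-/

set_option autoImplicit false

namespace HexObs

namespace NPR

open Finset TS SDN TIW NTA TIP

open scoped ENNReal

/-- **the initial range** -/
theorem initR (hS : SlowN) (hF : FastN) (hE : ∃ (κ : ℝ) (C b0 k : ℕ), 1 ≤ b0 ∧ ET κ C b0 k) : InitR := by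
  obtain ⟨a, d1, ha, hL⟩ := lowR hS hE
  obtain ⟨κ, C, b0, k, -, hE⟩ := hE
  obtain ⟨b, d2, hb, hU⟩ := upR_of hF (few_of hE)
  refine ⟨a, max a b, max d1 d2, ha, le_max_left _ _, ?_⟩
  intro r l V hr hV hrl hlr K n hK hn
  have h1 := hL (max d1 d2) (le_max_left _ _) r l V hr hV hrl hlr K n hK hn
  have h2 := hU (max d1 d2) (le_max_right _ _) r l V hr hV hrl hlr K n hK hn
  unfold HR
  refine le_trans (gf_mono ?_) ((gf_union_le _ _).trans ((add_le_add h1 h2).trans (le_of_eq ?_)))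
  · rintro t ⟨t1, t2, t3⟩
    by_contra hcon
    rw [Set.mem_union, not_or] at hcon
    obtain ⟨c1, c2⟩ := hcon
    have g1 : ∀ x y : ℕ, x ≤ y → y ≤ t.length → (ML (nl (max d1 d2) K l) : ℝ) ≤ (y : ℝ) - x →
        a * ((y : ℝ) - x) ≤ PW.mZ (2 ^ l) * V (wd t x y) := by
      by_contra h
      exact c1 ⟨t1, t2, h⟩
    have g2 : ∀ x y : ℕ, x ≤ y → y ≤ t.length → (ML (nl (max d1 d2) K l) : ℝ) ≤ (y : ℝ) - x →
        PW.mZ (2 ^ l) * V (wd t x y) ≤ b * ((y : ℝ) - x) := by
      by_contra h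
      exact c2 ⟨t1, t2, h⟩
    refine t3 fun x y hxy hy hw => ⟨g1 x y hxy hy hw, (g2 x y hxy hy hw).trans ?_⟩
    have h3 : (x : ℝ) ≤ y := by exact_mod_cast hxy
    exact mul_le_mul_of_nonneg_right (le_max_right _ _) (by linarith)
  · rw [← add_mul, ← ENNReal.ofReal_add (by positivity) (by positivity)]
    congr 2
    rw [pow_succ]
    ring

end NPR

end HexObs
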