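import Pool.Agent.NPR.NoZ
import Pool.Agent.NPR.LeafD
import Pool.Agent.NPR.ExtT

/-!
# NPR, rows L3 + L4: middles without a typical leaf are rare (helper44)
-/

set_option autoImplicit false

namespace HexObs

namespace NPR

open Finset TS SDN TIW NTA TIP

open scoped ENNReal

/-- **L3 + L4**: middles without a typical leaf are rare -/
theorem leafN_of {κ : ℝ} {C : ℕ} (hN : NoZ κ C) (hD : DenL κ C) : LeafN := by
  intro δ ε Lam hδ hε hLam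
  obtain ⟨k', L1, -, -, h1⟩ := hN (δ / 2) 0 (by positivity)
  obtain ⟨R, L2, θ, τ, hR, -, hθ, hτ, hτ1, h2⟩ := hD k' (δ / 2) ε Lam (by positivity) hε hLam
  refine ⟨R, max L1 L2, θ, τ, hR, hθ, hτ, hτ1, fun L hL φ hφ => ?_⟩
  obtain ⟨ms, hms, h3⟩ := h2 L ((le_max_right _ _).trans hL) φ hφ
  refine ⟨ms, hms, ?_⟩
  have h4 := h1 L ((le_max_left _ _).trans hL)
  have hsub : {t | t ∈ WL (L + 16) ∧ t ∈ Fac (Mid L (ML L) \
        TLf R (PW.mZ (2 ^ L)) (τ * PW.mZ (2 ^ L)) Lam θ ε ms φ)} ⊆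
      {t | t ∈ WL (L + 16) ∧ t ∈ Fac (Mid L (ML L) ∩ Nz κ C (L - k'))} ∪
        {t | t ∈ WL (L + 16) ∧ t ∈ Fac ({Q | Q ∉ Nz κ C (L - k')} \
          TLf R (PW.mZ (2 ^ L)) (τ * PW.mZ (2 ^ L)) Lam θ ε ms φ)} := by
    rintro t ⟨ht, X, Q, Y, rfl, hQ1, hQ2⟩
    by_cases hz : Q ∈ Nz κ C (L - k')
    · exact Or.inl ⟨ht, X, Q, Y, rfl, hQ1, hz⟩
    · exact Or.inr ⟨ht, X, Q, Y, rfl, hz, hQ2⟩
  refine (gf_mono hsub).trans ((gf_union_le _ _).trans ((add_le_add h4 h3).trans (le_of_eq ?_)))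
  rw [← add_mul, ← ENNReal.ofReal_add (by positivity) (by positivity)]
  congr 2
  ring

/-- **LeafN from the free law of the groups** -/
theorem leafN {κ : ℝ} {C : ℕ} (hκ : 0 < κ) (hR : RegZ κ C) (hA : AtypM) : LeafN :=
  leafN_of (noZ timeF hR) (denL hκ hA)

end NPR

end HexObs
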