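import Pool.Agent.NPR.StageA
import Pool.Agent.NPR.Scl
import Pool.Agent.NPR.Fast

/-!
# NPR, row S3 (helper10): iteration of the stages

* **`mainW_of`** : `InitR → Stage → MainW`. The words with few letters are covered by `Fast.short_scale` (landed, no hypothesis).
-/

set_option autoImplicit false

namespace HexObs

namespace NPR

open Finset TS SDN TIW NTA TIP

open scoped ENNReal

namespace S3

/-- the scales of the stages -/
def ls (d0 d1 K l : ℕ) : ℕ → ℕ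
  | 0 => nl d0 K l
  | i + 1 => nl d1 K (ls d0 d1 K l i)

lemma le_nl (d K l : ℕ) : l ≤ nl d K l := by
  unfold nl
  omega

lemma le_ls (d0 d1 K l i : ℕ) : l ≤ ls d0 d1 K l i := by
  induction i with
  | zero => exact le_nl _ _ _
  | succ i ih => exact ih.trans (le_nl _ _ _)

lemma ls_le (d0 d1 K l i : ℕ) : ls d0 d1 K l i ≤ l + (i + 1) * (d0 + d1 + Nat.log 2 (K - l + 1)) := by
  induction i with
  | zero =>
    show nl d0 K l ≤ _
    unfold nl
    omega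
  | succ i ih =>
    show nl d1 K (ls d0 d1 K l i) ≤ _
    unfold nl
    have h1 := le_ls d0 d1 K l i
    have h2 : Nat.log 2 (K - ls d0 d1 K l i + 1) ≤ Nat.log 2 (K - l + 1) := Nat.log_mono_right (by omega)
    have e : l + (i + 1 + 1) * (d0 + d1 + Nat.log 2 (K - l + 1)) =
        l + (i + 1) * (d0 + d1 + Nat.log 2 (K - l + 1)) + (d0 + d1 + Nat.log 2 (K - l + 1)) := by ring
    rw [e]
    omega

/-- linear against exponential -/
lemma lin_exp (c D G : ℕ) : ∃ p0 : ℕ, ∀ p, p0 ≤ p → c * (D + p) + G + 1 ≤ 2 ^ p := by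
  obtain ⟨q, hq⟩ : ∃ q, q = c * D + 2 * c + G + 1 := ⟨_, rfl⟩
  have hc : c ≤ q := by
    rw [hq]
    have := Nat.zero_le (c * D)
    omega
  refine ⟨2 * q, fun p hp => ?_⟩
  induction p, hp using Nat.le_induction with
  | base =>
    have h1 : q + 1 ≤ 2 ^ q := Nat.lt_two_pow_self
    have h2 : (q + 1) * (q + 1) ≤ 2 ^ q * 2 ^ q := Nat.mul_le_mul h1 h1
    rw [show 2 * q = q + q by ring, pow_add]
    refine le_trans ?_ h2
    have h3 : c * (D + (q + q)) + G + 1 ≤ q + 2 * c * q := by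
      have : c * (D + (q + q)) = c * D + 2 * c * q := by ring
      omega
    have h4 : 2 * c * q ≤ q * q := Nat.mul_le_mul_right _ (by
      have := Nat.zero_le (c * D)
      omega)
    have h5 : (q + 1) * (q + 1) = q * q + 2 * q + 1 := by ring
    omega
  | succ p hp ih =>
    have h1 : c ≤ 2 ^ p := by
      have h2 : p + 1 ≤ 2 ^ p := Nat.lt_two_pow_self
      omega
    rw [pow_succ]
    have e : c * (D + (p + 1)) = c * (D + p) + c := by ring
    omega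

lemma room (c D G : ℕ) : ∃ j0 : ℕ, ∀ j, j0 ≤ j → c * (D + Nat.log 2 (j + 1)) + G ≤ j := by
  obtain ⟨p0, hp⟩ := lin_exp c D G
  refine ⟨2 ^ p0, fun j hj => ?_⟩
  have h1 : p0 ≤ Nat.log 2 (j + 1) := by
    rw [← Nat.log_pow (b := 2) (by norm_num) p0]
    exact Nat.log_mono_right (by omega)
  have h2 := hp _ h1
  have h3 : 2 ^ Nat.log 2 (j + 1) ≤ j + 1 := Nat.pow_log_le_self 2 (by omega)
  omega

lemma Rng.mono {V : List Bool → ℝ} {m a b l l' : ℝ} {t : List Bool} (h : Rng V m a b l t) (hl : l ≤ l') :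
    Rng V m a b l' t := fun x y h1 h2 h3 => h x y h1 h2 (hl.trans h3)

lemma HR.mono {V : List Bool → ℝ} {m a b e e' : ℝ} {l l' K n : ℕ} (h : HR V m a b l e K n) (hl : l ≤ l') (he : e ≤ e') :
    HR V m a b l' e' K n := by
  refine le_trans (gf_mono ?_) (le_trans h (mul_le_mul' (ENNReal.ofReal_le_ofReal he) le_rfl))
  rintro t ⟨h1, h2, h3⟩
  refine ⟨h1, h2, fun h4 => h3 (Rng.mono h4 ?_)⟩
  exact_mod_cast ML_mono hl

/-- the stages -/
lemma iter {V : List Bool → ℝ} {m a0 b0 εt θ : ℝ} {d0 d1 K l n : ℕ} (hV : Add1 V) (hm : 0 < m) (hml : m ≤ PW.mZ (2 ^ l))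
    (ha0 : 0 ≤ a0) (hab0 : a0 ≤ b0) (hθ1 : θ < 1)
    (hS : ∀ (K n l : ℕ) (V : List Bool → ℝ) (m a b e : ℝ), Add1 V → 0 < m → m ≤ PW.mZ (2 ^ l) → 0 ≤ a → a + εt ≤ b →
      b ≤ b0 → 0 ≤ e → nl d1 K l ≤ K → n ≤ ML (K + 2) → HR V m a b l e K n →
      ∃ a' b' : ℝ, a ≤ a' ∧ a' ≤ b' ∧ b' ≤ b ∧ b' - a' ≤ (1 - θ) * (b - a) ∧
        HR V m a' b' (nl d1 K l) (e + (1 / 2) ^ (K - l)) K n)
    (hn : n ≤ ML (K + 2)) (h0 : HR V m a0 b0 (nl d0 K l) ((1 / 2) ^ (K - l)) K n) : ∀ i, ls d0 d1 K l i ≤ K →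
      ∃ a b : ℝ, a0 ≤ a ∧ a ≤ b ∧ b ≤ b0 ∧ (b - a ≤ εt ∨ b - a ≤ (1 - θ) ^ i * (b0 - a0)) ∧
        HR V m a b (ls d0 d1 K l i) ((i + 1) * (1 / 2) ^ (K - ls d0 d1 K l i)) K n := by
  intro i
  induction i with
  | zero =>
    intro h1
    refine ⟨a0, b0, le_rfl, hab0, le_rfl, Or.inr (by simp), HR.mono h0 le_rfl ?_⟩
    rw [Nat.cast_zero, zero_add, one_mul]
    refine pow_le_pow_of_le_one (by norm_num) (by norm_num) ?_
    have := le_nl d0 K l
    show K - nl d0 K l ≤ K - l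
    omega
  | succ i ih =>
    intro h1
    have hle : ls d0 d1 K l i ≤ ls d0 d1 K l (i + 1) := le_nl _ _ _
    obtain ⟨a, b, g1, g2, g3, g4, g5⟩ := ih (hle.trans h1)
    have hp : ((1 : ℝ) / 2) ^ (K - ls d0 d1 K l i) ≤ (1 / 2) ^ (K - ls d0 d1 K l (i + 1)) :=
      pow_le_pow_of_le_one (by norm_num) (by norm_num) (by omega)
    have hi0 : (0 : ℝ) ≤ i := Nat.cast_nonneg i
    by_cases h2 : b - a ≤ εt
    · refine ⟨a, b, g1, g2, g3, Or.inl h2, HR.mono g5 hle ?_⟩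
      push_cast
      have h3 : (0 : ℝ) ≤ (1 / 2) ^ (K - ls d0 d1 K l (i + 1)) := by positivity
      have h4 := mul_le_mul_of_nonneg_left hp (show (0 : ℝ) ≤ (i : ℝ) + 1 by linarith)
      linarith
    · push Not at h2
      obtain ⟨a', b', k1, k2, k3, k4, k5⟩ := hS K n (ls d0 d1 K l i) V m a b _ hV hm
        (hml.trans (mz_mono (le_ls _ _ _ _ _))) (ha0.trans g1) (by linarith) g3 (by positivity) h1 hn g5
      refine ⟨a', b', g1.trans k1, k2, k3.trans g3, Or.inr ?_, HR.mono k5 le_rfl ?_⟩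
      · have h5 := g4.resolve_left (not_le.2 h2)
        have h6 := mul_le_mul_of_nonneg_left h5 (show 0 ≤ 1 - θ by linarith)
        rw [pow_succ]
        linarith
      · push_cast
        have h4 := mul_le_mul_of_nonneg_left hp (show (0 : ℝ) ≤ (i : ℝ) + 1 by linarith)
        linarith

/-- the windows of one word -/
lemma word {V : List Bool → ℝ} {m a b a0 b0 ε εt : ℝ} {n0 N : ℕ} {P : ℝ} {t : List Bool} (hV : Add1 V) (hm : 0 < m)
    (ha0 : 0 < a0) (ha : a0 ≤ a) (hab : a ≤ b) (hb : b ≤ b0) (hba : b - a ≤ εt) (hR : Rng V m a b n0 t) (ht : n0 ≤ t.length)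
    (htN : t.length ≤ N) (hmn : m ≤ n0) (h1 : εt * N ≤ (ε * P) * a0)
    (h2 : (2 * b0 + 2) * n0 ≤ (ε * P) * a0) (h3 : (n0 : ℝ) ≤ ε * P)
    {x y : ℕ} (hx : x ≤ y) (hy : y ≤ t.length) : |m / a * V (wd t x y) - ((y : ℝ) - x)| ≤ ε * P := by
  have ha1 : 0 < a := ha0.trans_le ha
  have hx' : (x : ℝ) ≤ y := by exact_mod_cast hx
  have hy' : (y : ℝ) ≤ N := by exact_mod_cast hy.trans htN
  have hx0 : (0 : ℝ) ≤ x := Nat.cast_nonneg x
  have hn0 : (0 : ℝ) ≤ n0 := Nat.cast_nonneg n0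
  have hεP : 0 ≤ ε * P := hn0.trans h3
  have hεPa : (ε * P) * a0 ≤ (ε * P) * a := mul_le_mul_of_nonneg_left ha hεP
  have hV0 := mul_nonneg hm.le (hV.pos (wd t x y))
  have e : m / a * V (wd t x y) - ((y : ℝ) - x) = (m * V (wd t x y) - a * ((y : ℝ) - x)) / a := by
    field_simp
  rw [e, abs_le, le_div_iff₀ ha1, div_le_iff₀ ha1]
  by_cases h : (n0 : ℝ) ≤ (y : ℝ) - x
  · obtain ⟨k1, k2⟩ := hR x y hx hy h
    constructor
    · have := mul_nonneg hεP ha1.le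
      linarith
    · have k3 : (b - a) * ((y : ℝ) - x) ≤ εt * N := by
        refine mul_le_mul hba (by linarith) (by linarith) ?_
        linarith
      linarith
  · push Not at h
    have k1 := val_win hV hm.le (ha1.le.trans hab) hR ht hx hy
    constructor
    · have k2 : a * ((y : ℝ) - x) ≤ a * (ε * P) := mul_le_mul_of_nonneg_left (by linarith) ha1.le
      linarith
    · have k2 : b * ((y : ℝ) - x) ≤ b0 * n0 := mul_le_mul hb h.le (by linarith) (by linarith)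
      have k3 : b * (n0 : ℝ) ≤ b0 * n0 := mul_le_mul_of_nonneg_right hb hn0
      have k4 : 0 ≤ a * ((y : ℝ) - x) := mul_nonneg ha1.le (by linarith)
      linarith

end S3

open S3 in
/-- **S3** -/
theorem mainW_of (hI : InitR) (hS : Stage) : MainW := by
  intro ε hε
  obtain ⟨a0, b0, d0, ha0, hab0, hI⟩ := hI
  obtain ⟨Cz, hCz, hup⟩ := exists_mz_up
  obtain ⟨εt, hεt⟩ : ∃ εt, εt = ε * a0 / (32 * Cz) := ⟨_, rfl⟩
  have hεt0 : 0 < εt := by
    rw [hεt]
    positivity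
  obtain ⟨θ, d1, hθ, hθ1, hS⟩ := hS εt b0 hεt0 (by linarith)
  obtain ⟨as, has⟩ := Fast.short_scale (ε / 2) (by linarith)
  obtain ⟨N, hN⟩ : ∃ N : ℕ, (1 - θ) ^ N * (b0 - a0) ≤ εt := by
    obtain ⟨N, hN⟩ := exists_pow_lt_of_lt_one (show 0 < εt / (b0 - a0 + 1) by
      have : 0 < b0 - a0 + 1 := by linarith
      positivity) (show 1 - θ < 1 by linarith)
    refine ⟨N, ?_⟩
    rw [lt_div_iff₀ (by linarith)] at hN
    have : 0 ≤ (1 - θ) ^ N := pow_nonneg (by linarith) _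
    linarith
  obtain ⟨G0, hG0⟩ : ∃ G0 : ℕ, (N + 1 : ℝ) * 2 ≤ ε * 2 ^ G0 ∧ 2 * (2 * b0 + 2) ≤ (ε * a0) * 2 ^ G0 ∧ 2 ≤ ε * 2 ^ G0 := by
    have key : ∀ x : ℝ, ∀ z : ℝ, 0 < z → ∃ n : ℕ, ∀ k, n ≤ k → x ≤ z * 2 ^ k := by
      intro x z hz
      obtain ⟨n, hn⟩ := pow_unbounded_of_one_lt (x / z) (show (1 : ℝ) < 2 by norm_num)
      refine ⟨n, fun k hk => ?_⟩
      have h1 : x / z ≤ 2 ^ k := hn.le.trans (pow_le_pow_right₀ (by norm_num) hk)
      rwa [div_le_iff₀ hz, mul_comm] at h1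
    obtain ⟨n1, h1⟩ := key ((N + 1 : ℝ) * 2) ε hε
    obtain ⟨n2, h2⟩ := key (2 * (2 * b0 + 2)) (ε * a0) (by positivity)
    obtain ⟨n3, h3⟩ := key 2 ε hε
    exact ⟨n1 + n2 + n3, h1 _ (by omega), h2 _ (by omega), h3 _ (by omega)⟩
  obtain ⟨j0, hj0⟩ := room (N + 1) (d0 + d1) (G0 + as + 1)
  refine ⟨j0 + 1, fun r V hr hV K hK => ?_⟩
  have hr1 : 1 ≤ r := by omega
  obtain ⟨l, hl⟩ : ∃ l, l = Nat.clog 2 r := ⟨_, rfl⟩
  have hl1 : r ≤ 2 ^ l := by
    rw [hl]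
    exact Nat.le_pow_clog (by norm_num) r
  have hl2 : 2 ^ l ≤ 2 * r := by
    rcases Nat.lt_or_ge 1 r with h | h
    · have h1 := (Nat.pow_pred_clog_lt_self (b := 2) (by norm_num) h).le
      have h2 : 0 < Nat.clog 2 r := Nat.clog_pos (by norm_num) h
      rw [← hl] at h1 h2
      have e : 2 ^ l = 2 ^ l.pred * 2 := by
        rw [← pow_succ]
        congr 1
        show l = l - 1 + 1
        omega
      omega
    · have : r = 1 := by omega
      subst this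
      rw [hl, Nat.clog_one_right]
      norm_num
  have hlK : l + j0 ≤ K := by
    have h1 : 2 ^ (l + j0) ≤ 2 ^ K := by
      refine le_trans ?_ hK
      rw [pow_add, pow_succ]
      have := Nat.mul_le_mul_right (2 ^ j0) hl2
      linarith
    exact (Nat.pow_le_pow_iff_right (by norm_num)).1 h1
  obtain ⟨lN, hlN⟩ : ∃ lN, lN = ls d0 d1 K l N := ⟨_, rfl⟩
  have hroom : lN + (G0 + as + 1) ≤ K := by
    have h1 := hj0 (K - l) (by omega)
    have h2 := ls_le d0 d1 K l N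
    rw [← hlN] at h2
    omega
  have hl0 : nl d0 K l ≤ lN := by
    have key : ∀ i, nl d0 K l ≤ ls d0 d1 K l i := by
      intro i
      induction i with
      | zero => exact le_rfl
      | succ i ih => exact ih.trans (le_nl _ _ _)
    rw [hlN]
    exact key N
  have hHR0 := hI r l V hr hV hl1 hl2 K (ML (K + 2)) (by omega) le_rfl
  have hm0 := mz_pos l
  obtain ⟨a, b, g1, g2, g3, g4, g5⟩ := iter (n := ML (K + 2)) hV.toAdd1 hm0 le_rfl ha0.le hab0 hθ1 hS le_rfl hHR0 N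
    (by rw [← hlN]; omega)
  rw [← hlN] at g5
  have hba : b - a ≤ εt := by
    rcases g4 with h | h
    · exact h
    · exact h.trans hN
  have ha : 0 < a := ha0.trans_le g1
  refine ⟨PW.mZ (2 ^ l) / a, by positivity, ?_⟩
  -- numbers
  have hKz := mz_pos K
  have hlow : (2 : ℝ) ^ G0 * PW.mZ (2 ^ lN) ≤ PW.mZ (2 ^ K) :=
    (mz_low lN G0).trans (mz_mono (by omega))
  have hML := ML_le2 lN
  have n1 : εt * (ML (K + 2) : ℝ) ≤ (ε * PW.mZ (2 ^ K)) * a0 := by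
    have k1 := ML_le2 (K + 2)
    have k2 := hup K 2
    have k3 : (ML (K + 2) : ℝ) ≤ 32 * Cz * PW.mZ (2 ^ K) := by linarith
    have k4 := mul_le_mul_of_nonneg_left k3 hεt0.le
    have k5 : εt * (32 * Cz * PW.mZ (2 ^ K)) = (ε * PW.mZ (2 ^ K)) * a0 := by
      rw [hεt]
      field_simp
    linarith
  have n2 : (2 * b0 + 2) * (ML lN : ℝ) ≤ (ε * PW.mZ (2 ^ K)) * a0 := by
    have hb0 : 0 < b0 := by linarith
    have k1 := mul_le_mul_of_nonneg_left hML (show 0 ≤ 2 * b0 + 2 by linarith)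
    have k2 := mul_le_mul_of_nonneg_right hG0.2.1 (mz_pos lN).le
    have k3 := mul_le_mul_of_nonneg_left hlow (show 0 ≤ ε * a0 by positivity)
    linarith
  have n3 : (ML lN : ℝ) ≤ ε * PW.mZ (2 ^ K) := by
    have k2 := mul_le_mul_of_nonneg_right hG0.2.2 (mz_pos lN).le
    have k3 := mul_le_mul_of_nonneg_left hlow hε.le
    linarith
  have key : {t | t ∈ WL K ∧ t.length ≤ ML (K + 2) ∧ ¬ ∀ x y : ℕ, x ≤ y → y ≤ t.length →
      |PW.mZ (2 ^ l) / a * V (wd t x y) - ((y : ℝ) - x)| ≤ ε * PW.mZ (2 ^ K)} ⊆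
      {t | t ∈ WL K ∧ t.length ≤ ML (K + 2) ∧ ¬ Rng V (PW.mZ (2 ^ l)) a b (ML lN) t} ∪
        {t | t ∈ SA ∧ (t.length : ℝ) ≤ PW.mZ (2 ^ (K - as))} := by
    rintro t ⟨h1, h2, h3⟩
    by_cases h4 : Rng V (PW.mZ (2 ^ l)) a b (ML lN) t
    · right
      refine ⟨h1.1, ?_⟩
      by_contra h5
      push Not at h5
      apply h3
      have h6 : ML lN ≤ t.length := by
        have k1 : 2 * PW.mZ (2 ^ lN) ≤ PW.mZ (2 ^ (K - as)) := by
          have := mz_low lN 1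
          rw [pow_one] at this
          exact this.trans (mz_mono (by omega))
        have k2 : (ML lN : ℝ) ≤ t.length := by linarith
        exact_mod_cast k2
      intro x y hx hy
      exact word hV.toAdd1 hm0 ha0 g1 g2 g3 hba h4 h6 h2
        ((mz_mono (by
          have := le_nl d0 K l
          omega)).trans (ML_ge lN)) n1 n2 n3 hx hy
    · exact Or.inl ⟨h1, h2, h4⟩
  refine (gf_mono key).trans ((gf_union_le _ _).trans ?_)
  have e : ENNReal.ofReal ε = ENNReal.ofReal (ε / 2) + ENNReal.ofReal (ε / 2) := by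
    rw [← ENNReal.ofReal_add (by linarith) (by linarith)]
    congr 1
    ring
  rw [e, add_mul]
  refine add_le_add ?_ (has K (by omega))
  refine le_trans g5 (mul_le_mul' (ENNReal.ofReal_le_ofReal ?_) le_rfl)
  have h1 : ((1 : ℝ) / 2) ^ (K - lN) ≤ (1 / 2) ^ G0 := pow_le_pow_of_le_one (by norm_num) (by norm_num) (by omega)
  have h2 : (N + 1 : ℝ) * (1 / 2) ^ (K - lN) ≤ (N + 1) * (1 / 2) ^ G0 := mul_le_mul_of_nonneg_left h1 (by positivity)
  refine h2.trans ?_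
  have h3 : (0 : ℝ) < 2 ^ G0 := by positivity
  rw [one_div, inv_pow, ← div_eq_mul_inv, div_le_iff₀ h3]
  linarith [hG0.1]

end NPR

end HexObs
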