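import Pool.Agent.NPR.DefX
import Pool.Agent.IW.Rev

/-!
# NPR (natural parametrisation), row X2: all the windows of the n-step walk, by reversal (X1N -> MainN)
-/

set_option autoImplicit false

namespace HexObs

namespace NPR

open Finset TS SDN TIW NTA TIP

namespace RevX

/-! ### probabilities -/

lemma pn_fin (n : ℕ) (C : Set (List Bool)) : {t | t ∈ SawN n ∧ t ∈ C}.Finite :=
  (List.finite_length_eq Bool n).subset fun _ h => h.1.1

lemma pn_mono {n : ℕ} {A B : Set (List Bool)} (h : ∀ t ∈ SawN n, t ∈ A → t ∈ B) : TOG.Pn n A ≤ TOG.Pn n B := by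
  unfold TOG.Pn
  refine div_le_div_of_nonneg_right ?_ (Nat.cast_nonneg _)
  have h1 : {t | t ∈ SawN n ∧ t ∈ A} ⊆ {t | t ∈ SawN n ∧ t ∈ B} := fun t ht => ⟨ht.1, h t ht.1 ht.2⟩
  exact_mod_cast Set.ncard_le_ncard h1 (pn_fin n B)

lemma pn_union (n : ℕ) (A B : Set (List Bool)) : TOG.Pn n (A ∪ B) ≤ TOG.Pn n A + TOG.Pn n B := by
  unfold TOG.Pn
  rw [← add_div]
  refine div_le_div_of_nonneg_right ?_ (Nat.cast_nonneg _)
  have e : {t | t ∈ SawN n ∧ t ∈ A ∪ B} = {t | t ∈ SawN n ∧ t ∈ A} ∪ {t | t ∈ SawN n ∧ t ∈ B} := by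
    ext t
    simp only [Set.mem_ofPred_eq, Set.mem_union]
    tauto
  rw [e]
  exact_mod_cast Set.ncard_union_le _ _

/-! ### windows of the reversed word -/

lemma wd_rev {s : List Bool} {x y : ℕ} (hxy : x ≤ y) (hy : y ≤ s.length) :
    wd (rev s) (s.length - y) (s.length - x) = rev (wd s x y) := by
  unfold wd rev
  rw [List.take_reverse, List.drop_reverse, List.map_drop, List.map_take]
  congr 1
  simp only [List.length_drop, List.length_map]
  rw [show s.length - (s.length - x) = x by omega, show s.length - x - (s.length - y) = y - x by omega,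
    List.drop_take]

lemma wd_app {s u : List Bool} {x y : ℕ} (hy : y ≤ s.length) : wd (s ++ u) x y = wd s x y := by
  unfold wd
  rw [List.take_append_of_le_length hy]

lemma wd_split {t : List Bool} {x z y : ℕ} (hxz : x ≤ z) (hzy : z ≤ y) : wd t x y = wd t x z ++ wd t z y := by
  unfold wd
  have h1 : t.take y = t.take z ++ (t.take y).drop z := by
    conv_lhs => rw [← List.take_append_drop z (t.take y)]
    rw [List.take_take, min_eq_left hzy]
  by_cases h2 : x ≤ (t.take z).length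
  · conv_lhs => rw [h1]
    rw [List.drop_append_of_le_length h2]
  · push Not at h2
    rw [List.length_take] at h2
    have h3 : t.length < x := by
      rcases le_total z t.length with h | h
      · rw [min_eq_left h] at h2
        omega
      · rw [min_eq_right h] at h2
        exact h2
    rw [List.drop_eq_nil_of_le, List.drop_eq_nil_of_le, List.drop_eq_nil_of_le]
    · rfl
    · rw [List.length_take]
      omega
    · rw [List.length_take]
      omega
    · rw [List.length_take]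
      omega

/-! ### a good word -/

/-- both letters occur at the start of a walk -/
lemma letter {n : ℕ} {t : List Bool} (ht : t ∈ SawN n) (hn : 8 ≤ n) (c : Bool) : ∃ x, x < 6 ∧ wd t x (x + 1) = [c] := by
  by_contra hc
  push Not at hc
  have h1 : t.take 6 = List.replicate 6 (!c) := by
    rw [List.eq_replicate_iff]
    refine ⟨by rw [List.length_take, ht.1]; omega, fun b hb => ?_⟩
    obtain ⟨i, hi, rfl⟩ := List.mem_iff_getElem.1 hb
    have hi' : i < 6 ∧ i < t.length := by
      rw [List.length_take] at hi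
      omega
    have h2 := hc i hi'.1
    rw [List.getElem_take]
    by_contra h3
    have h4 : t[i]'hi'.2 = c := by
      revert h3
      cases t[i]'hi'.2 <;> cases c <;> simp
    refine h2 ?_
    unfold wd
    rw [List.drop_take]
    have h5 : i + 1 - i = 1 := by omega
    rw [h5, ← List.getElem_cons_drop hi'.2, h4]
    rfl
  have h2 : t = List.replicate 6 (!c) ++ t.drop 6 := by rw [← h1, List.take_append_drop]
  have h3 := ht.2.inj 0 6 (by norm_num) (by rw [ht.1]; omega)
  refine h3 ?_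
  rw [h2, vx_append (by simp), vx_append (by simp)]
  cases c <;> decide

section good

variable {n r : ℕ} {V V' : List Bool → ℝ} {t : List Bool} {ka ka' e : ℝ}

lemma af_nil (hV : AF r V) : V [] = 1 := by
  refine le_antisymm (hV.small [] fun i j hi hj => ?_) (hV.one [])
  have h1 : i = j := by
    rw [List.length_nil] at hi hj
    omega
  rw [h1, sub_self]
  have : hn (0 : Pt) = 0 := by decide
  rw [this]
  positivity

lemma ka_le (hV : AF r V) (hka : 0 < ka) (hn : 8 ≤ n) (he : 1 ≤ e * n) (ht : t ∈ SawN n)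
    (h : ∀ x y : ℕ, x ≤ y → 4 * y ≤ 3 * n → |ka * V (wd t x y) - ((y : ℝ) - x)| ≤ e * n) (c : Bool) :
    ka ≤ 2 * (e * n) ∧ ka * V [c] ≤ 2 * (e * n) := by
  obtain ⟨x, hx, hx'⟩ := letter ht hn c
  have h1 := h x (x + 1) (by omega) (by omega)
  rw [hx', abs_le] at h1
  have h2 := mul_le_mul_of_nonneg_left (hV.one [c]) hka.le
  push_cast at h1
  constructor <;> linarith [h1.2]

/-- the windows in the last three quarters -/
lemma late (hV : AF r V) (hV' : AF r V') (hVV : ∀ u, |V u - V' (rev u)| ≤ 1) (hka : 0 < ka') (hn : 8 ≤ n)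
    (he : 1 ≤ e * n) (ht : t ∈ SawN n)
    (h : ∀ x y : ℕ, x ≤ y → 4 * y ≤ 3 * n → |ka' * V' (wd (Pool.Agent.IW.rvw t) x y) - ((y : ℝ) - x)| ≤ e * n) :
    ∀ x y : ℕ, x ≤ y → y ≤ n → n ≤ 4 * x → |ka' * V (wd t x y) - ((y : ℝ) - x)| ≤ 10 * (e * n) := by
  have hkn := ka_le hV' hka hn he (Pool.Agent.IW.rvw_mem (by omega) ht) h
  obtain ⟨s, b, rfl, hs⟩ := Pool.Agent.IW.split_last (by omega) ht.1
  rw [Pool.Agent.IW.rvw_app] at h
  have hlen : (rev s).length = s.length := rev_length s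
  have hb : ka' * V [b] ≤ 4 * (e * n) := by
    have h1 := (abs_le.1 (hVV [b])).2
    have h2 := mul_le_mul_of_nonneg_left h1 hka.le
    have h3 := hkn (!b)
    have h4 : rev [b] = [!b] := rfl
    rw [h4] at h2
    linarith [h3.1, h3.2]
  have key : ∀ x y : ℕ, x ≤ y → y + 1 ≤ n → n ≤ 4 * x → |ka' * V (wd (s ++ [b]) x y) - ((y : ℝ) - x)| ≤ 3 * (e * n) := by
    intro x y hxy hy hx
    have hy' : y ≤ s.length := by omega
    have h1 := h (s.length - y) (s.length - x) (by omega) (by omega)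
    rw [wd_app (by rw [hlen]; omega), wd_rev hxy hy', ← wd_app (u := [b]) hy', Nat.cast_sub hy',
      Nat.cast_sub (hxy.trans hy')] at h1
    have h2 := abs_le.1 (hVV (wd (s ++ [b]) x y))
    have h3 := mul_le_mul_of_nonneg_left h2.1 hka.le
    have h4 := mul_le_mul_of_nonneg_left h2.2 hka.le
    have h5 := (hkn b).1
    rw [abs_le] at h1 ⊢
    constructor
    · linarith [h1.1]
    · linarith [h1.2]
  intro x y hxy hy hx
  rcases Nat.lt_or_ge y n with hlt | hge
  · have := key x y hxy (by omega) hx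
    linarith
  · have hyn : y = n := le_antisymm hy hge
    rcases Nat.lt_or_ge x y with hxl | hxg
    · have h1 := key x (y - 1) (by omega) (by omega) hx
      have h2 : wd (s ++ [b]) x y = wd (s ++ [b]) x (y - 1) ++ wd (s ++ [b]) (y - 1) y := wd_split (by omega) (by omega)
      have h3 : wd (s ++ [b]) (y - 1) y = [b] := by
        unfold wd
        rw [List.take_of_length_le (by rw [List.length_append, List.length_singleton]; omega),
          show y - 1 = s.length by omega, List.drop_left]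
      rw [h3] at h2
      have h5 := hV.le (wd (s ++ [b]) x (y - 1)) [b]
      have h6 := hV.ge (wd (s ++ [b]) x (y - 1)) [b]
      rw [← h2] at h5 h6
      have h7 := mul_le_mul_of_nonneg_left h5 hka.le
      have h8 := mul_le_mul_of_nonneg_left h6 hka.le
      have h9 := mul_le_mul_of_nonneg_left (hV.one [b]) hka.le
      rw [Nat.cast_sub (by omega)] at h1
      push_cast at h1
      have h10 := (hkn b).1
      rw [abs_le] at h1 ⊢
      constructor
      · linarith [h1.1]
      · linarith [h1.2]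
    · have hxy' : x = y := le_antisymm hxy hxg
      have h4 : wd (s ++ [b]) x y = [] := by
        unfold wd
        rw [List.drop_eq_nil_iff, List.length_take]
        omega
      rw [h4, af_nil hV, hxy', sub_self, sub_zero, mul_one, abs_of_pos hka]
      have h10 := (hkn b).1
      linarith

/-- all the windows of a good word, when the densities are compared -/
lemma allw (hV : AF r V) (hka : 0 < ka) (hka' : 0 < ka') (hn : 8 ≤ n) (he : 1 ≤ e * n) (he1 : 300 * e ≤ 1)
    (hkn : ka ≤ 2 * (e * n)) (hkk : |ka - ka'| ≤ 96 * e * ka)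
    (h1 : ∀ x y : ℕ, x ≤ y → 4 * y ≤ 3 * n → |ka * V (wd t x y) - ((y : ℝ) - x)| ≤ e * n)
    (h2 : ∀ x y : ℕ, x ≤ y → y ≤ n → n ≤ 4 * x → |ka' * V (wd t x y) - ((y : ℝ) - x)| ≤ 10 * (e * n)) :
    ∀ x y : ℕ, x ≤ y → y ≤ n → |ka * V (wd t x y) - ((y : ℝ) - x)| ≤ 500 * (e * n) := by
  have hn0 : (0 : ℝ) < n := by exact_mod_cast (show 0 < n by omega)
  have he0 : 0 < e := by
    by_contra hc
    have : e * n ≤ 0 := mul_nonpos_of_nonpos_of_nonneg (not_lt.1 hc) hn0.le
    linarith
  have late2 : ∀ x y : ℕ, x ≤ y → y ≤ n → n ≤ 4 * x → |ka * V (wd t x y) - ((y : ℝ) - x)| ≤ 400 * (e * n) := by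
    intro x y hxy hy hx
    have h3 := h2 x y hxy hy hx
    have hV0 := hV.pos (wd t x y)
    have hy' : (y : ℝ) ≤ n := by exact_mod_cast hy
    have hx0 : (0 : ℝ) ≤ x := Nat.cast_nonneg x
    have h4 : ka * V (wd t x y) ≤ 3 * n := by
      have h5 := (abs_le.1 h3).2
      have h6 := (abs_le.1 hkk).2
      have h7 : ka ≤ 3 / 2 * ka' := by nlinarith
      have h8 : ka * V (wd t x y) ≤ 3 / 2 * ka' * V (wd t x y) := mul_le_mul_of_nonneg_right h7 hV0
      have h9 : 10 * (e * n) ≤ 1 * n := by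
        have := mul_le_mul_of_nonneg_right he1 hn0.le
        nlinarith
      nlinarith
    have h5 : |ka - ka'| * V (wd t x y) ≤ 96 * e * (3 * n) := by
      calc |ka - ka'| * V (wd t x y) ≤ 96 * e * ka * V (wd t x y) := mul_le_mul_of_nonneg_right hkk hV0
        _ = 96 * e * (ka * V (wd t x y)) := by ring
        _ ≤ _ := mul_le_mul_of_nonneg_left h4 (by positivity)
    have h6 : ka * V (wd t x y) - ((y : ℝ) - x) = (ka - ka') * V (wd t x y) + (ka' * V (wd t x y) - ((y : ℝ) - x)) := by ring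
    rw [h6]
    refine (abs_add_le _ _).trans ?_
    rw [abs_mul, abs_of_nonneg hV0]
    nlinarith
  intro x y hxy hy
  by_cases hc1 : 4 * y ≤ 3 * n
  · have := h1 x y hxy hc1
    nlinarith
  by_cases hc2 : n ≤ 4 * x
  · have := late2 x y hxy hy hc2
    nlinarith
  push Not at hc1 hc2
  have hz1 : 4 * (n / 2) ≤ 3 * n := by omega
  have hz2 : n ≤ 4 * (n / 2) := by omega
  have hz3 : x ≤ n / 2 := by omega
  have hz4 : n / 2 ≤ y := by omega
  have a1 := abs_le.1 (h1 x (n / 2) hz3 hz1)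
  have a2 := abs_le.1 (late2 (n / 2) y hz4 hy hz2)
  have a3 := wd_split (t := t) hz3 hz4
  have a4 := hV.le (wd t x (n / 2)) (wd t (n / 2) y)
  have a5 := hV.ge (wd t x (n / 2)) (wd t (n / 2) y)
  rw [← a3] at a4 a5
  have a6 := mul_le_mul_of_nonneg_left a4 hka.le
  have a7 := mul_le_mul_of_nonneg_left a5 hka.le
  rw [abs_le]
  constructor
  · linarith [a1.1, a2.1]
  · linarith [a1.2, a2.2]

/-- the two densities agree -/
lemma same (hV : AF r V) (hn : 8 ≤ n) (he : 1 ≤ e * n) (he1 : 300 * e ≤ 1)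
    (h1 : ∀ x y : ℕ, x ≤ y → 4 * y ≤ 3 * n → |ka * V (wd t x y) - ((y : ℝ) - x)| ≤ e * n)
    (h2 : ∀ x y : ℕ, x ≤ y → y ≤ n → n ≤ 4 * x → |ka' * V (wd t x y) - ((y : ℝ) - x)| ≤ 10 * (e * n)) :
    |ka - ka'| ≤ 96 * e * ka := by
  have hn0 : (0 : ℝ) < n := by exact_mod_cast (show 0 < n by omega)
  have he0 : 0 < e := by
    by_contra hc
    have : e * n ≤ 0 := mul_nonpos_of_nonpos_of_nonneg (not_lt.1 hc) hn0.le
    linarith
  set x := (n + 3) / 4 with hx
  set y := 3 * n / 4 with hy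
  have hxy : x ≤ y := by omega
  have a1 := abs_le.1 (h1 x y hxy (by omega))
  have a2 := abs_le.1 (h2 x y hxy (by omega) (by omega))
  set v := V (wd t x y) with hv
  have hv1 : 1 ≤ v := hV.one _
  have hl : (n : ℝ) / 8 ≤ (y : ℝ) - x := by
    have : n ≤ 8 * (y - x) := by omega
    have h3 : (n : ℝ) ≤ ((8 * (y - x) : ℕ) : ℝ) := by exact_mod_cast this
    rw [Nat.cast_mul, Nat.cast_sub hxy] at h3
    push_cast at h3
    linarith
  have h3 : |ka - ka'| * v ≤ 11 * (e * n) := by
    rw [← abs_of_nonneg (le_trans zero_le_one hv1), ← abs_mul, abs_le]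
    constructor <;> nlinarith [a1.1, a1.2, a2.1, a2.2]
  have h4 : (n : ℝ) / 8 - e * n ≤ ka * v := by linarith [a1.1]
  have h5 : e * n ≤ n / 300 := by nlinarith
  have h6 : |ka - ka'| * v ≤ 96 * e * ka * v := by
    have h7 : 11 * n ≤ 96 * (ka * v) := by linarith
    have h8 := mul_le_mul_of_nonneg_left h7 he0.le
    linarith
  exact le_of_mul_le_mul_right h6 (by linarith)

end good

end RevX

open RevX in
/-- **X2** -/
theorem x2 (hX : X1N) : MainN := by
  intro ε hε
  set e : ℝ := min ε 1 / 500 with he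
  have hmin : 0 < min ε 1 := lt_min hε one_pos
  have he0 : 0 < e := by positivity
  have he1 : 300 * e ≤ 1 := by
    have := min_le_right ε 1
    linarith
  have he2 : 500 * e ≤ ε := by
    have := min_le_left ε 1
    linarith
  obtain ⟨d, n0, h⟩ := hX e he0
  obtain ⟨n1, hn1⟩ := exists_nat_ge (1 / e)
  refine ⟨d, max n0 (max n1 8), fun r V V' hr hV hV' hVV k n hn hk hrd => ?_⟩
  have hn0 : n0 ≤ n := le_trans (le_max_left _ _) hn
  have hn8 : 8 ≤ n := le_trans ((le_max_right _ _).trans (le_max_right _ _)) hn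
  have hen : 1 ≤ e * n := by
    have h1 : (n1 : ℝ) ≤ n := by exact_mod_cast le_trans ((le_max_left _ _).trans (le_max_right _ _)) hn
    have h2 : 1 / e ≤ n := hn1.trans h1
    rw [div_le_iff₀ he0] at h2
    linarith
  obtain ⟨ka, hka, hB⟩ := h r V hr hV k n hn0 hk hrd
  obtain ⟨ka', hka', hB'⟩ := h r V' hr hV' k n hn0 hk hrd
  set B : Set (List Bool) := {t | ¬ ∀ x y : ℕ, x ≤ y → 4 * y ≤ 3 * n → |ka * V (wd t x y) - ((y : ℝ) - x)| ≤ e * n}
  set B' : Set (List Bool) := {t | ¬ ∀ x y : ℕ, x ≤ y → 4 * y ≤ 3 * n → |ka' * V' (wd t x y) - ((y : ℝ) - x)| ≤ e * n}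
  have hB2 : TOG.Pn n {t | Pool.Agent.IW.rvw t ∈ B'} ≤ e := (Pool.Agent.IW.Pn_rvw (by omega) B').trans_le hB'
  have hU : TOG.Pn n (B ∪ {t | Pool.Agent.IW.rvw t ∈ B'}) ≤ 2 * e := (pn_union _ _ _).trans (by linarith)
  have hg1 : ∀ t, t ∉ B → ∀ x y : ℕ, x ≤ y → 4 * y ≤ 3 * n → |ka * V (wd t x y) - ((y : ℝ) - x)| ≤ e * n :=
    fun t ht => not_not.1 ht
  have hg2 : ∀ t ∈ SawN n, Pool.Agent.IW.rvw t ∉ B' → ∀ x y : ℕ, x ≤ y → y ≤ n → n ≤ 4 * x →
      |ka' * V (wd t x y) - ((y : ℝ) - x)| ≤ 10 * (e * n) :=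
    fun t ht hb => late hV hV' hVV hka' hn8 hen ht (not_not.1 hb)
  -- a word good for both
  obtain ⟨t0, ht0, hb0⟩ : ∃ t0 ∈ SawN n, t0 ∉ B ∪ {t | Pool.Agent.IW.rvw t ∈ B'} := by
    by_contra hc
    push Not at hc
    have h1 : TOG.Pn n Set.univ ≤ TOG.Pn n (B ∪ {t | Pool.Agent.IW.rvw t ∈ B'}) := pn_mono fun t ht _ => hc t ht
    have h2 : TOG.Pn n Set.univ = 1 := by
      unfold TOG.Pn
      have h3 : {t | t ∈ SawN n ∧ t ∈ (Set.univ : Set (List Bool))} = SawN n := by
        ext t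
        simp
      have h4 : (0 : ℝ) < cS n := Pool.Agent.IW.cS_pos (by omega)
      have h5 : (SawN n).ncard = cS n := rfl
      rw [h3, h5, div_self h4.ne']
    linarith
  have hb1 : t0 ∉ B := fun hc => hb0 (Or.inl hc)
  have hb2 : Pool.Agent.IW.rvw t0 ∉ B' := fun hc => hb0 (Or.inr hc)
  have hsame := same hV hn8 hen he1 (hg1 t0 hb1) (hg2 t0 ht0 hb2)
  refine ⟨ka, hka, (pn_mono fun t ht htb => ?_).trans (hU.trans (by linarith))⟩
  by_contra hc
  have hc1 : t ∉ B := fun h => hc (Or.inl h)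
  have hc2 : Pool.Agent.IW.rvw t ∉ B' := fun h => hc (Or.inr h)
  refine htb fun x y hxy hy => ?_
  have h3 := allw hV hka hka' hn8 hen he1 (ka_le hV hka hn8 hen ht (hg1 t hc1) true).1 hsame (hg1 t hc1)
    (hg2 t ht hc2) x y hxy (ht.1 ▸ hy)
  refine h3.trans ?_
  have h4 := mul_le_mul_of_nonneg_right he2 (Nat.cast_nonneg n)
  linarith

end NPR

end HexObs
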