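import Pool.Agent.NPR.StageA
import Pool.Agent.NPR.Scl

/-!
# NPR, row S2 (helper10): one stage

* **`stage_of`** : `ET κ C b0 k → LeafN → Stage`.
-/

set_option autoImplicit false

namespace HexObs

namespace NPR

open Finset TS SDN TIW NTA TIP

open scoped ENNReal

/-- a power of two above a number -/
lemma exists_pow (x : ℝ) : ∃ d : ℕ, x ≤ 2 ^ d := by
  obtain ⟨n, hn⟩ := pow_unbounded_of_one_lt x (show (1 : ℝ) < 2 by norm_num)
  exact ⟨n, hn.le⟩

lemma pow_lift {x : ℝ} {d d' : ℕ} (h : x ≤ 2 ^ d) (hd : d ≤ d') : x ≤ 2 ^ d' :=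
  h.trans (pow_le_pow_right₀ (by norm_num) hd)

/-- the number of the starts -/
lemma num_starts {C : ℝ} (hC : 1 ≤ C) (hup : ∀ l j : ℕ, PW.mZ (2 ^ (l + j)) ≤ C * 4 ^ j * PW.mZ (2 ^ l)) {K L : ℕ}
    (hLK : L ≤ K) : ((ML (K + 2) / ML L + 1 : ℕ) : ℝ) ≤ 48 * C * 4 ^ (K - L) := by
  have h1 : ((ML (K + 2) / ML L : ℕ) : ℝ) ≤ (ML (K + 2) : ℝ) / ML L := Nat.cast_div_le
  have h0 := mz_pos L
  have h2 : (ML (K + 2) : ℝ) / ML L ≤ 2 * (C * 4 ^ (K + 2 - L)) := by
    rw [div_le_iff₀ (by exact_mod_cast ML_pos L)]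
    have h3 := ML_le2 (K + 2)
    have h4 := hup L (K + 2 - L)
    rw [Nat.add_sub_cancel' (by omega)] at h4
    have h5 := mul_le_mul_of_nonneg_left (ML_ge L) (show 0 ≤ 2 * (C * 4 ^ (K + 2 - L)) by positivity)
    linarith
  have h6 : (4 : ℝ) ^ (K + 2 - L) = 16 * 4 ^ (K - L) := by
    rw [show K + 2 - L = (K - L) + 2 by omega, pow_add]
    ring
  have h7 : (1 : ℝ) ≤ 4 ^ (K - L) := one_le_pow₀ (by norm_num)
  rw [h6] at h2
  push_cast
  nlinarith

/-- the length of the chains -/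
lemma num_mass {C B : ℝ} (hC : 1 ≤ C) (hB : 1 ≤ B) {A : ℕ} (hA : 384 * C * B ≤ 4 ^ A) {K L l : ℕ}
    (hlL : l ≤ L) (hLK : L ≤ K) :
    48 * C * 4 ^ (K - L) * (B ^ (K - L) / 4 ^ (A * (K - l + 1))) ≤ (1 / 2) ^ (K - l) := by
  obtain ⟨j, hj⟩ : ∃ j, j = K - l := ⟨_, rfl⟩
  rw [← hj]
  have h1 : (4 * B) ^ (K - L) ≤ (4 * B) ^ j := pow_le_pow_right₀ (by linarith) (by omega)
  have h2 : (384 * C * B) ^ (j + 1) ≤ (4 : ℝ) ^ (A * (j + 1)) := by
    rw [pow_mul]
    exact pow_le_pow_left₀ (by positivity) hA _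
  have h3 : (48 * C) * (4 * B) ^ j * 2 ^ j ≤ (384 * C * B) ^ (j + 1) := by
    have e : (384 * C * B) ^ (j + 1) = (384 * C * B) * ((48 * C) ^ j * ((4 * B) ^ j * 2 ^ j)) := by
      rw [pow_succ, ← mul_pow, ← mul_pow, mul_comm]
      congr 2
      ring
    rw [e]
    have h4 : 1 ≤ (48 * C) ^ j := one_le_pow₀ (by linarith)
    have h5 : 0 < (4 * B) ^ j * 2 ^ j := by positivity
    have h6 : 48 * C ≤ 384 * C * B := by nlinarith
    have h7 : (4 * B) ^ j * 2 ^ j ≤ (48 * C) ^ j * ((4 * B) ^ j * 2 ^ j) := le_mul_of_one_le_left h5.le h4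
    have h8 := mul_le_mul h6 h7 h5.le (by positivity)
    linarith
  rw [one_div, inv_pow, ← mul_div_assoc, div_le_iff₀ (by positivity)]
  rw [inv_mul_eq_div, le_div_iff₀ (by positivity)]
  calc 48 * C * 4 ^ (K - L) * B ^ (K - L) * 2 ^ j = 48 * C * (4 * B) ^ (K - L) * 2 ^ j := by
        rw [mul_pow]
        ring
    _ ≤ 48 * C * (4 * B) ^ j * 2 ^ j := by
        refine mul_le_mul_of_nonneg_right (mul_le_mul_of_nonneg_left h1 (by linarith)) (by positivity)
    _ ≤ _ := h3.trans h2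

/-- **S2** -/
theorem stage_of {κ : ℝ} {C b0 k : ℕ} (hET : ET κ C b0 k) (hLf : LeafN) : Stage := by
  intro εt bm hεt hbm
  obtain ⟨δ, B, L0, hδ, hB, hET⟩ := hET
  obtain ⟨R, L1, θ, τ, hR, hθ, hτ, hτ1, hLf⟩ := hLf δ (εt / 8) (bm + 1) hδ (by linarith) (by linarith)
  obtain ⟨Cz, hCz, hup⟩ := exists_mz_up
  -- constants
  obtain ⟨g1, hg1⟩ := exists_pow (2 * (bm + 2) / τ)
  obtain ⟨g2, hg2⟩ := exists_pow (32 * (2 * R + 19) * (bm + 2) / (εt * θ))
  obtain ⟨d1, hd1⟩ : ∃ d1, d1 = L0 + L1 + g1 + g2 := ⟨_, rfl⟩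
  obtain ⟨A, hA0, hA⟩ : ∃ A : ℕ, 1 ≤ A ∧ 384 * Cz * B ≤ 4 ^ A := by
    obtain ⟨n, hn⟩ := pow_unbounded_of_one_lt (384 * Cz * B) (show (1 : ℝ) < 4 by norm_num)
    exact ⟨n + 1, by omega, hn.le.trans (pow_le_pow_right₀ (by norm_num) (by omega))⟩
  obtain ⟨g3, hg3⟩ := exists_pow (112 * (A : ℝ))
  obtain ⟨d2, hd2⟩ : ∃ d2, d2 = 16 + g3 := ⟨_, rfl⟩
  have hτ2 := pow_lift hg1 (show g1 ≤ d1 by omega)
  have hθ2 := pow_lift hg2 (show g2 ≤ d1 by omega)
  have hA2 := pow_lift hg3 (show g3 ≤ d2 by omega)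
  rw [div_le_iff₀ hτ] at hτ2
  rw [div_le_iff₀ (by positivity)] at hθ2
  refine ⟨min θ 1 / 448, d1 + d2, by positivity, ?_, ?_⟩
  · have : min θ 1 ≤ 1 := min_le_right _ _
    linarith
  intro K n l V m a b e hV hm hml ha hab hb he hK hn hHR
  obtain ⟨L, hL⟩ : ∃ L, L = l + d1 := ⟨_, rfl⟩
  have hlg : 1 ≤ K - l + 1 := by omega
  have hLK : L + 16 ≤ K := by
    unfold nl at hK
    omega
  obtain ⟨ms, hms, hms2⟩ := hLf L (by omega) (fun g => m * V g) (fun g => mul_nonneg hm.le (hV.pos g))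
  have hET2 := hET L _ (by omega) hms2
  obtain ⟨J, hJ⟩ : ∃ J, J = A * (K - l + 1) := ⟨_, rfl⟩
  have hJ1 : 1 ≤ J := by
    rw [hJ]
    exact Nat.mul_pos hA0 hlg
  obtain ⟨Mz, hMz⟩ : ∃ Mz, Mz = PW.mZ (2 ^ L) := ⟨_, rfl⟩
  have hlow : (2 : ℝ) ^ d1 * PW.mZ (2 ^ l) ≤ Mz := by
    rw [hMz, hL]
    exact mz_low l d1
  have hml1 := mz_one l
  have hMz0 : 0 < Mz := by
    rw [hMz]
    exact mz_pos L
  rw [← hMz] at hms2 hET2
  -- the range
  obtain ⟨θs, hθs⟩ : ∃ θs, θs = min θ 1 / 448 := ⟨_, rfl⟩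
  have hθs0 : 0 ≤ θs := by
    rw [hθs]
    positivity
  have hθs1 : θs ≤ θ / 448 := by
    rw [hθs]
    have := min_le_left θ 1
    linarith
  have hθs2 : θs ≤ 1 := by
    rw [hθs]
    have := min_le_right θ 1
    linarith
  rw [← hθs]
  have hba : 0 < b - a := by linarith
  have hsh : θs * (b - a) ≤ (b - a) / 8 * (θ / 56) := by
    have := mul_le_mul_of_nonneg_right hθs1 hba.le
    linarith
  have hsh0 : 0 ≤ θs * (b - a) := mul_nonneg hθs0 hba.le
  have hsh1 : θs * (b - a) ≤ b - a := mul_le_of_le_one_left hba.le hθs2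
  -- the new range on the good event
  have good : ∀ a' b' : ℝ, a' ≤ a + (b - a) / 8 * (θ / 56) → b - (b - a) / 8 * (θ / 56) ≤ b' →
      ((a' ≤ a ∧ ms + εt / 8 + 2 * ((b - a) / 8) ≤ b) ∨ (b ≤ b' ∧ a + εt / 8 + 2 * ((b - a) / 8) ≤ ms)) →
      HR V m a' b' (nl (d1 + d2) K l) (e + (1 / 2) ^ (K - l)) K n := by
    intro a' b' ha' hb' hc
    obtain ⟨QQ, hQQ⟩ : ∃ QQ, QQ = Mid L (ML L) \ TLf R Mz (τ * Mz) (bm + 1) θ (εt / 8) ms (fun g => m * V g) := ⟨_, rfl⟩
    rw [← hQQ] at hET2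
    obtain ⟨N0, hN0⟩ : ∃ N0, N0 = ML (K + 2) / ML L + 1 := ⟨_, rfl⟩
    have key : {t | t ∈ WL K ∧ t.length ≤ n ∧ ¬ Rng V m a' b' (ML (nl (d1 + d2) K l)) t} ⊆
        {t | t ∈ WL K ∧ t.length ≤ n ∧ ¬ Rng V m a b (ML l) t} ∪ {t | ∃ i, i < N0 ∧ t ∈ {t | t ∈ WL K ∧
          i * ML L + 3 * ML L * (J + 1) < t.length ∧ ¬ ∃ g, J ≤ 2 * g ∧ Ch κ C b0 k L QQ J g (t.drop (i * ML L))}} := by
      rintro t ⟨h1, h2, h3⟩
      by_cases h4 : Rng V m a b (ML l) t
      · right
        by_contra h5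
        apply h3
        -- short words
        by_cases h6 : ML l ≤ t.length
        · have hSg : Sg V m a b ((bm + 2) * ML l) t (ML l) (τ * Mz) (bm + 1) := by
            refine ⟨hV, hm.le, ha, by linarith, h4, h6, ?_, ?_⟩
            · have k1 := ML_ge l
              have k2 : b * (ML l : ℝ) ≤ bm * ML l := mul_le_mul_of_nonneg_right hb (Nat.cast_nonneg _)
              linarith
            · have k1 := ML_le2 l
              have k2 : (bm + 2) * (ML l : ℝ) ≤ (bm + 2) * (2 * PW.mZ (2 ^ l)) :=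
                mul_le_mul_of_nonneg_left k1 (by linarith)
              have k3 : 2 * (bm + 2) * PW.mZ (2 ^ l) ≤ (2 ^ d1 * τ) * PW.mZ (2 ^ l) :=
                mul_le_mul_of_nonneg_right hτ2 (by linarith)
              have k4 : τ * (2 ^ d1 * PW.mZ (2 ^ l)) ≤ τ * Mz := mul_le_mul_of_nonneg_left hlow hτ.le
              have k5 : τ * Mz ≤ (bm + 1 - b) * (τ * Mz) := le_mul_of_one_le_left (by positivity) (by linarith)
              linarith
          refine hSg.rng' (L := L) (R := R) (J := J) (M := Mz) (θ := θ) (ε := εt / 8) (ms := ms) (s := (b - a) / 8)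
            (κ := κ) (C := C) (b0 := b0) (k := k) hθ.le hMz0.le ?_ hJ1 (by linarith) (QQ := QQ) (by rw [hQQ]) ?_ ?_
            ha' hb' hc ?_ ?_
          · rw [hMz]
            exact ML_le2 L
          · intro i hi
            by_contra h7
            refine h5 ⟨i, ?_, h1, hi, h7⟩
            rw [hN0, Nat.lt_succ_iff, Nat.le_div_iff_mul_le (ML_pos L)]
            omega
          · have k1 := ML_le2 l
            have k2 : 2 * (2 * (R : ℝ) + 19) * ((bm + 2) * ML l) ≤ 2 * (2 * (R : ℝ) + 19) * ((bm + 2) * (2 * PW.mZ (2 ^ l))) :=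
              mul_le_mul_of_nonneg_left (mul_le_mul_of_nonneg_left k1 (by linarith)) (by positivity)
            have k3 : 32 * (2 * (R : ℝ) + 19) * (bm + 2) * PW.mZ (2 ^ l) ≤ (2 ^ d1 * (εt * θ)) * PW.mZ (2 ^ l) :=
              mul_le_mul_of_nonneg_right hθ2 (by linarith)
            have k4 : (εt * θ) * (2 ^ d1 * PW.mZ (2 ^ l)) ≤ (εt * θ) * Mz := mul_le_mul_of_nonneg_left hlow (by positivity)
            have k5 : εt * (θ * Mz) ≤ (b - a) * (θ * Mz) := mul_le_mul_of_nonneg_right (by linarith) (by positivity)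
            linarith
          · exact_mod_cast ML_mono (show l ≤ nl (d1 + d2) K l by unfold nl; omega)
          · have k0 : (1 : ℝ) ≤ J := by exact_mod_cast hJ1
            have k1 := ML_le2 L
            have k2 := ML_ge (nl (d1 + d2) K l)
            have k3 := mz_low L (d2 + Nat.log 2 (K - l + 1))
            have e1 : L + (d2 + Nat.log 2 (K - l + 1)) = nl (d1 + d2) K l := by
              unfold nl
              omega
            rw [e1, pow_add] at k3
            have k4 : ((K - l + 1 : ℕ) : ℝ) ≤ 2 * 2 ^ Nat.log 2 (K - l + 1) := by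
              have := (Nat.lt_pow_succ_log_self (b := 2) (by norm_num) (K - l + 1)).le
              rw [pow_succ, mul_comm] at this
              exact_mod_cast this
            have k5 : (4 * ((3 * (J : ℝ) + 4) * ML L)) ≤ 56 * J * Mz := by
              have q1 : (3 * (J : ℝ) + 4) ≤ 7 * J := by linarith
              have q2 : (3 * (J : ℝ) + 4) * ML L ≤ 7 * J * (2 * Mz) := by
                rw [hMz]
                exact mul_le_mul q1 k1 (Nat.cast_nonneg _) (by linarith)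
              linarith
            have k6 : 56 * (J : ℝ) ≤ 2 ^ d2 * 2 ^ Nat.log 2 (K - l + 1) := by
              have e2 : (J : ℝ) = A * ((K - l + 1 : ℕ) : ℝ) := by
                rw [hJ]
                push_cast
                ring
              rw [e2]
              have q1 := mul_le_mul hA2 k4 (Nat.cast_nonneg _) (by positivity)
              linarith
            have k7 := mul_le_mul_of_nonneg_right k6 hMz0.le
            push_cast
            rw [← hMz] at k3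
            linarith
        · intro x y hx hy hxy
          exfalso
          have k1 : (ML l : ℝ) ≤ ML (nl (d1 + d2) K l) := by
            exact_mod_cast ML_mono (show l ≤ nl (d1 + d2) K l by unfold nl; omega)
          have k2 : (ML l : ℝ) ≤ y := by
            have : (0 : ℝ) ≤ x := Nat.cast_nonneg x
            linarith
          have k3 : ML l ≤ y := by exact_mod_cast k2
          omega
      · exact Or.inl ⟨h1, h2, h4⟩
    refine (gf_mono key).trans ((gf_union_le _ _).trans ?_)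
    rw [ENNReal.ofReal_add he (by positivity), add_mul]
    refine add_le_add hHR ?_
    refine (gf_range_le' N0 _ (fun i _ => hET2 K J (i * ML L) hLK)).trans ?_
    rw [← mul_assoc]
    refine mul_le_mul' ?_ le_rfl
    rw [← ENNReal.ofReal_natCast, ← ENNReal.ofReal_mul (Nat.cast_nonneg _)]
    refine ENNReal.ofReal_le_ofReal ?_
    have k1 := num_starts hCz hup (K := K) (L := L) (by omega)
    rw [← hN0] at k1
    refine (mul_le_mul_of_nonneg_right k1 (by positivity)).trans ?_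
    rw [hJ]
    exact num_mass hCz hB hA (by omega) (by omega)
  rcases le_total ms ((a + b) / 2) with h | h
  · refine ⟨a, b - θs * (b - a), le_rfl, by linarith, by linarith, by linarith, ?_⟩
    exact good _ _ (by linarith) (by linarith) (Or.inl ⟨le_rfl, by linarith⟩)
  · refine ⟨a + θs * (b - a), b, by linarith, by linarith, le_rfl, by linarith, ?_⟩
    exact good _ _ (by linarith) (by linarith) (Or.inr ⟨le_rfl, by linarith⟩)

end NPR

end HexObs
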