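import Pool.Agent.NPR.StepZ
import Pool.Agent.NPR.Eng
import Pool.Agent.NPR.TwoMid
import Pool.Agent.NPR.FlagS
import Pool.Agent.NPR.FlagE
import Pool.Agent.NPR.Fast
import Pool.Agent.NPR.ExtT
import Pool.Agent.NPR.InitR
import Pool.Agent.NPR.LeafN
import Pool.Agent.NPR.GroupL
import Pool.Agent.NPR.Stage
import Pool.Agent.NPR.MainW
import Pool.Agent.NPR.ExN
import Pool.Agent.NPR.RevN

/-!
# NPR, assembly (helper14): the law of large numbers for the number of pieces, no hypothesis

Rows: E1 stepG (10, 14), E2 plainM, E3 twoE (69), E4 flagE, flagS (42), E6 et_of (22), U1 fastN (47), E0 timeF, U2 slowN (58),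
L1 groupL, L2 atypM (28), L3 denL (41), L4 leafN (44), S0 initR (16, 41, 58), S1 + S2 stage_of, S3 mainW_of (10), X1 x1 (29),
X2 x2 (83).
-/

set_option autoImplicit false

namespace HexObs

namespace NPR

open Finset TS SDN TIW NTA TIP

/-- **the engine** -/
theorem et : ∃ (κ : ℝ) (C b0 k : ℕ), 0 < κ ∧ 1 ≤ b0 ∧ ET κ C b0 k ∧ RegZ κ C := by
  obtain ⟨κ, hκ, C, -, hR⟩ := TIP.regZ_all
  obtain ⟨k0, b00, h⟩ := et_of hκ (stepG hκ C) plainM twoE (flagE_of hR) (flagS_of hR)
  exact ⟨κ, C, max b00 1, k0, hκ, le_max_right _ _, h k0 _ le_rfl (le_max_left _ _), hR⟩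

theorem initR_all : InitR := by
  obtain ⟨κ, C, b0, k, -, hb0, h, -⟩ := et
  exact initR slowN fastN ⟨κ, C, b0, k, hb0, h⟩

theorem stage_all : Stage := by
  obtain ⟨κ, C, b0, k, hκ, -, h, hR⟩ := et
  exact stage_of h (leafN hκ hR atypM)

theorem mainW : MainW := mainW_of initR_all stage_all

/-- **the law of large numbers for the words with n letters** -/
theorem mainN : MainN := x2 (x1 mainW)

end NPR

end HexObs
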