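import Pool.Agent.NPR.Clk

/-!
# NPR: convergence of the laws in terms of real random variables (helper45)

`hF F γ` = the greatest distance of the curve `γ` from the finite set `F`.

* `borel_nc` : the Borel sets of the nonempty compact sets are generated by the sets `{K | K ⊆ U}`, `U` open;
* `trace_of_h` : two laws on the curves for which all `hF F` have the same laws have the same law of the trace;
* `dist_iff` (namespace `Incl`; `NPR/Dist` of helper34 has the avoidance form) : the laws of the rescaled walks converge weakly iff the laws of all `hF F` do.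
-/

set_option autoImplicit false

open Set Filter Topology MeasureTheory
open scoped ENNReal

namespace Pool.Agent.NPR.Incl

open Pool.Agent.NPR

open Pool.Agent.NTS.Res
open TopologicalSpace (NonemptyCompacts)

/-- the sets of compact sets inside an open set -/
def Sb : Set (Set (NonemptyCompacts ℂ)) := {s | ∃ U : Set ℂ, IsOpen U ∧ s = {K : NonemptyCompacts ℂ | (K : Set ℂ) ⊆ U}}

lemma sb_pi : IsPiSystem Sb := by
  rintro _ ⟨U, hU, rfl⟩ _ ⟨V, hV, rfl⟩ _
  refine ⟨U ∩ V, hU.inter hV, ?_⟩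
  ext K
  simp only [mem_inter_iff, mem_ofPred_eq, subset_inter_iff]

/-- **the Borel sets of the compact sets** -/
theorem borel_nc : borel (NonemptyCompacts ℂ) = MeasurableSpace.generateFrom Sb := by
  refine le_antisymm ?_ ?_
  · have e : (inferInstance : TopologicalSpace (NonemptyCompacts ℂ)) = TopologicalSpace.generateFrom
        ((fun s : Set (Set ℂ) => ((↑) : NonemptyCompacts ℂ → Set ℂ) ⁻¹' s) ''
          (powerset '' {U : Set ℂ | IsOpen U} ∪ (fun V => {s : Set ℂ | (s ∩ V).Nonempty}) '' {V : Set ℂ | IsOpen V})) := by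
      rw [← induced_generateFrom_eq]
      rfl
    rw [borel_eq_generateFrom_of_subbasis e]
    refine MeasurableSpace.generateFrom_le ?_
    have hcl : ∀ C : Set ℂ, IsClosed C →
        MeasurableSet[MeasurableSpace.generateFrom Sb] {K : NonemptyCompacts ℂ | (K : Set ℂ) ⊆ C} := by
      intro C hC
      have h1 : {K : NonemptyCompacts ℂ | (K : Set ℂ) ⊆ C} =
          ⋂ m : ℕ, {K : NonemptyCompacts ℂ | (K : Set ℂ) ⊆ Metric.thickening (1 / ((m : ℝ) + 1)) C} := by
        ext K
        simp only [mem_ofPred_eq, mem_iInter]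
        constructor
        · intro h m
          exact h.trans (Metric.self_subset_thickening (by positivity) C)
        · intro h z hz
          rw [← hC.closure_eq, Metric.closure_eq_iInter_thickening, mem_iInter₂]
          intro δ hδ
          obtain ⟨m, hm⟩ := exists_nat_one_div_lt hδ
          exact Metric.thickening_mono hm.le C (h m hz)
      rw [h1]
      exact MeasurableSet.iInter fun m => MeasurableSpace.measurableSet_generateFrom ⟨_, Metric.isOpen_thickening, rfl⟩
    rintro _ ⟨_, ⟨U, hU, rfl⟩ | ⟨V, hV, rfl⟩, rfl⟩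
    · exact MeasurableSpace.measurableSet_generateFrom ⟨U, hU, rfl⟩
    · have h1 : (fun K : NonemptyCompacts ℂ => (K : Set ℂ)) ⁻¹' {s : Set ℂ | (s ∩ V).Nonempty} =
          {K : NonemptyCompacts ℂ | (K : Set ℂ) ⊆ Vᶜ}ᶜ := by
        ext K
        simp only [mem_preimage, mem_ofPred_eq, mem_compl_iff, subset_compl_iff_disjoint_right,
          not_disjoint_iff_nonempty_inter]
      have h2 : MeasurableSet[MeasurableSpace.generateFrom Sb] {K : NonemptyCompacts ℂ | (K : Set ℂ) ⊆ Vᶜ}ᶜ :=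
        @MeasurableSet.compl _ _ (MeasurableSpace.generateFrom Sb) (hcl _ (show IsOpen V from hV).isClosed_compl)
      rw [← h1] at h2
      exact h2
  · refine MeasurableSpace.generateFrom_le ?_
    rintro _ ⟨U, hU, rfl⟩
    exact MeasurableSpace.measurableSet_generateFrom (NonemptyCompacts.isOpen_subsets_of_isOpen hU)

/-- the distance of the points of a curve from `F` -/
noncomputable def dF (F : Finset ℂ) (γ : C(unitInterval, ℂ)) : C(unitInterval, ℝ) :=
  ⟨fun u => Metric.infDist (γ u) (F : Set ℂ), (Metric.continuous_infDist_pt _).comp γ.continuous⟩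

/-- the greatest distance of a curve from `F` -/
noncomputable def hF (F : Finset ℂ) (γ : C(unitInterval, ℂ)) : ℝ := ⨆ u, Metric.infDist (γ u) (F : Set ℂ)

lemma hF_eq (F : Finset ℂ) (γ : C(unitInterval, ℂ)) : hF F γ = ‖dF F γ‖ := by
  rw [ContinuousMap.norm_eq_iSup_norm]
  unfold hF
  congr 1
  funext u
  rw [Real.norm_eq_abs, abs_of_nonneg]
  · rfl
  · exact Metric.infDist_nonneg

lemma hF_lip (F : Finset ℂ) : LipschitzWith 1 (hF F) := by
  refine LipschitzWith.of_dist_le_mul fun γ γ' => ?_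
  rw [hF_eq, hF_eq, NNReal.coe_one, one_mul, Real.dist_eq]
  refine (abs_norm_sub_norm_le _ _).trans ?_
  refine (ContinuousMap.norm_le _ dist_nonneg).2 fun u => ?_
  have h1 := (Metric.lipschitz_infDist_pt (F : Set ℂ)).dist_le_mul (γ u) (γ' u)
  rw [NNReal.coe_one, one_mul] at h1
  have h2 : ‖(dF F γ - dF F γ') u‖ = dist (Metric.infDist (γ u) (F : Set ℂ)) (Metric.infDist (γ' u) (F : Set ℂ)) := by
    rw [Real.dist_eq, Real.norm_eq_abs]
    rfl
  rw [h2]
  exact h1.trans (ContinuousMap.dist_apply_le_dist u)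

lemma hF_cont (F : Finset ℂ) : Continuous (hF F) := (hF_lip F).continuous

/-- the curves inside a neighbourhood of `F` -/
lemma hF_lt {F : Finset ℂ} {t : ℝ} (ht : 0 < t) (hF0 : F.Nonempty) (γ : C(unitInterval, ℂ)) :
    hF F γ < t ↔ range γ ⊆ Metric.thickening t (F : Set ℂ) := by
  rw [hF_eq, ContinuousMap.norm_lt_iff _ ht]
  constructor
  · rintro h _ ⟨u, rfl⟩
    have h1 := h u
    rw [Real.norm_eq_abs, abs_of_nonneg (show 0 ≤ dF F γ u from Metric.infDist_nonneg)] at h1
    rw [Metric.mem_thickening_iff_infDist_lt (Finset.coe_nonempty.2 hF0)]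
    exact h1
  · intro h u
    have h1 := h ⟨u, rfl⟩
    rw [Metric.mem_thickening_iff_infDist_lt (Finset.coe_nonempty.2 hF0)] at h1
    rw [Real.norm_eq_abs, abs_of_nonneg (show 0 ≤ dF F γ u from Metric.infDist_nonneg)]
    exact h1

/-- a compact set inside an open set: there is a neighbourhood of a finite set between them -/
lemma between {C U : Set ℂ} (hC : IsCompact C) (hne : C.Nonempty) (hU : IsOpen U) (h : C ⊆ U) :
    ∃ (F : Finset ℂ) (t : ℝ), F.Nonempty ∧ 0 < t ∧ C ⊆ Metric.thickening t (F : Set ℂ) ∧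
      Metric.thickening t (F : Set ℂ) ⊆ U := by
  obtain ⟨t, ht, h1⟩ := hC.exists_thickening_subset_open hU h
  obtain ⟨F, hFC, hfin, hcov⟩ := hC.finite_cover_balls ht
  refine ⟨hfin.toFinset, t, ?_, ht, ?_, ?_⟩
  · obtain ⟨z, hz⟩ := hne
    obtain ⟨x, hx, -⟩ := mem_iUnion₂.1 (hcov hz)
    exact ⟨x, hfin.mem_toFinset.2 hx⟩
  · intro z hz
    obtain ⟨x, hx, hzx⟩ := mem_iUnion₂.1 (hcov hz)
    exact Metric.mem_thickening_iff.2 ⟨x, by simpa using hx, hzx⟩
  · rw [hfin.coe_toFinset]
    exact (Metric.thickening_subset_of_subset t hFC).trans h1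

/-- one side -/
lemma sub_le {ν ν' : Measure C(unitInterval, ℂ)} [IsProbabilityMeasure ν] [IsProbabilityMeasure ν']
    (h : ∀ (F : Finset ℂ) (t : ℝ), F.Nonempty → 0 < t → ν {γ | hF F γ < t} = ν' {γ | hF F γ < t}) {U : Set ℂ}
    (hU : IsOpen U) : ν {γ | range γ ⊆ U} ≤ ν' {γ | range γ ⊆ U} := by
  have hop : IsOpen {γ : C(unitInterval, ℂ) | range γ ⊆ U} := by
    have := ContinuousMap.isOpen_setOfPred_mapsTo (X := unitInterval) (Y := ℂ) isCompact_univ hU
    simpa [mapsTo_univ_iff, range_subset_iff] using this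
  refine le_of_forall_lt fun r hr => ?_
  obtain ⟨K, hK1, ⟨hK2, -⟩, hK3⟩ := innerRegular_isCompact_isClosed_measurableSet_of_finite ν hop.measurableSet r hr
  have hcomp : IsCompact ((fun p : C(unitInterval, ℂ) × unitInterval => p.1 p.2) '' (K ×ˢ univ)) :=
    (hK2.prod isCompact_univ).image (by fun_prop)
  rcases K.eq_empty_or_nonempty with hK0 | ⟨γ0, hγ0⟩
  · rw [hK0, measure_empty] at hK3
    exact absurd hK3 not_lt_zero
  obtain ⟨F, t, hF0, ht, h1, h2⟩ := between hcomp ⟨γ0 0, ⟨(γ0, 0), ⟨hγ0, mem_univ _⟩, rfl⟩⟩ hU (by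
    rintro _ ⟨⟨γ, u⟩, ⟨h3, -⟩, rfl⟩
    exact hK1 h3 ⟨u, rfl⟩)
  refine hK3.trans_le ?_
  calc ν K ≤ ν {γ | hF F γ < t} := measure_mono fun γ hγ => by
        rw [mem_ofPred_eq, hF_lt ht hF0]
        rintro _ ⟨u, rfl⟩
        exact h1 ⟨(γ, u), ⟨hγ, mem_univ _⟩, rfl⟩
    _ = ν' {γ | hF F γ < t} := h F t hF0 ht
    _ ≤ ν' {γ | range γ ⊆ U} := measure_mono fun γ hγ => by
        rw [mem_ofPred_eq, hF_lt ht hF0] at hγ
        exact hγ.trans h2

/-- **the law of the trace from the laws of the distances** -/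
theorem trace_of_h {ν ν' : Measure C(unitInterval, ℂ)} (hν : IsProbabilityMeasure ν) (hν' : IsProbabilityMeasure ν')
    (h : ∀ (F : Finset ℂ) (t : ℝ), F.Nonempty → 0 < t → ν {γ | hF F γ < t} = ν' {γ | hF F γ < t})
    (G : BoundedContinuousFunction (NonemptyCompacts ℂ) ℝ) : ∫ γ, G (tr γ) ∂ν = ∫ γ, G (tr γ) ∂ν' := by
  let _ : MeasurableSpace (NonemptyCompacts ℂ) := borel _
  have : BorelSpace (NonemptyCompacts ℂ) := ⟨rfl⟩
  have hm : Measurable tr := tr_cont.measurable
  have : IsProbabilityMeasure (ν.map tr) := Measure.isProbabilityMeasure_map hm.aemeasurable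
  have : IsProbabilityMeasure (ν'.map tr) := Measure.isProbabilityMeasure_map hm.aemeasurable
  have hmap : ν.map tr = ν'.map tr := by
    refine ext_of_generate_finite Sb borel_nc sb_pi ?_ (by rw [measure_univ, measure_univ])
    rintro _ ⟨U, hU, rfl⟩
    have hU' : MeasurableSet {K : NonemptyCompacts ℂ | (K : Set ℂ) ⊆ U} :=
      (NonemptyCompacts.isOpen_subsets_of_isOpen hU).measurableSet
    rw [Measure.map_apply hm hU', Measure.map_apply hm hU']
    exact le_antisymm (sub_le h hU) (sub_le (fun F t h1 h2 => (h F t h1 h2).symm) hU)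
  rw [← integral_map hm.aemeasurable G.continuous.aestronglyMeasurable,
    ← integral_map hm.aemeasurable G.continuous.aestronglyMeasurable, hmap]

/-- the law of a real random variable from the means of the bounded continuous functions -/
lemma law_h {ν ν' : Measure C(unitInterval, ℂ)} (hν : IsProbabilityMeasure ν) (hν' : IsProbabilityMeasure ν')
    (F : Finset ℂ) (h : ∀ g : BoundedContinuousFunction ℝ ℝ, ∫ γ, g (hF F γ) ∂ν = ∫ γ, g (hF F γ) ∂ν') (t : ℝ) :
    ν {γ | hF F γ < t} = ν' {γ | hF F γ < t} := by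
  have hm : Measurable (hF F) := (hF_cont F).measurable
  have : IsProbabilityMeasure (ν.map (hF F)) := Measure.isProbabilityMeasure_map hm.aemeasurable
  have : IsProbabilityMeasure (ν'.map (hF F)) := Measure.isProbabilityMeasure_map hm.aemeasurable
  have hmap : ν.map (hF F) = ν'.map (hF F) := by
    refine ext_of_forall_integral_eq_of_IsFiniteMeasure fun g => ?_
    rw [integral_map hm.aemeasurable g.continuous.aestronglyMeasurable,
      integral_map hm.aemeasurable g.continuous.aestronglyMeasurable]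
    exact h g
  have h1 : (ν.map (hF F)) (Iio t) = (ν'.map (hF F)) (Iio t) := by rw [hmap]
  rw [Measure.map_apply hm measurableSet_Iio, Measure.map_apply hm measurableSet_Iio] at h1
  exact h1

/-- the law of the distances -/
lemma lawTo_dist {φ : ℕ → ℕ} {ν : Measure C(unitInterval, ℂ)} (h : LawTo φ ν) (F : Finset ℂ)
    (g : BoundedContinuousFunction ℝ ℝ) :
    Tendsto (fun k => ∫ γ, g (hF F γ) ∂(law (φ k))) atTop (𝓝 (∫ γ, g (hF F γ) ∂ν)) :=
  h (g.compContinuous ⟨hF F, hF_cont F⟩)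

/-- **the laws converge weakly iff the laws of the distances from the finite sets do** -/
theorem dist_iff {ρ : ℕ → ℝ} (hρ : Scl ρ)
    (hsub : ∀ φ : ℕ → ℕ, StrictMono φ → ∃ ψ : ℕ → ℕ, StrictMono ψ ∧ ∃ ν : Measure C(unitInterval, ℂ),
      IsProbabilityMeasure ν ∧ LawTo (fun k => φ (ψ k)) ν)
    (hinj : ∀ (φ : ℕ → ℕ) (ν : Measure C(unitInterval, ℂ)), Tendsto φ atTop atTop → IsProbabilityMeasure ν → LawTo φ ν →
      ∀ᵐ γ : C(unitInterval, ℂ) ∂ν, Function.Injective γ) :
    (∀ F : Finset ℂ, F.Nonempty → ∀ g : BoundedContinuousFunction ℝ ℝ, ∃ l : ℝ,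
      Tendsto (fun n => ∫ γ, g (hF F γ) ∂(law n)) atTop (𝓝 l)) ↔
    ∃ ν : Measure C(unitInterval, ℂ), IsProbabilityMeasure ν ∧ LawTo (fun n => n) ν := by
  constructor
  · intro h
    have good : ∀ (φ : ℕ → ℕ) (ν : Measure C(unitInterval, ℂ)), Tendsto φ atTop atTop → IsProbabilityMeasure ν →
        LawTo φ ν → ∀ᵐ γ ∂ν, γ ∈ Gd ρ := by
      intro φ ν hφ hν hlim
      filter_upwards [hinj φ ν hφ hν hlim, NTSF.limit_zeroQ hν hlim, clk_lim hρ hφ hν hlim] with γ h1 h2 h3
      exact ⟨h1, h2, h3⟩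
    obtain ⟨ψ0, hψ0, ν0, hν0, hl0⟩ := hsub (fun n => n) strictMono_id
    refine ⟨ν0, hν0, fun f => ?_⟩
    refine tendsto_of_subseq_tendsto fun ns hns => ?_
    obtain ⟨φ1, hφ1, hφ2⟩ := strictMono_subseq_of_tendsto_atTop hns
    obtain ⟨ψ, hψ, ν, hν, hl⟩ := hsub (ns ∘ φ1) hφ2
    have t0 : Tendsto (fun k => ψ0 k) atTop atTop := hψ0.tendsto_atTop
    have t1 : Tendsto (fun k => (ns ∘ φ1) (ψ k)) atTop atTop := (hφ2.comp hψ).tendsto_atTop
    have e : ν = ν0 := by
      refine eq_of_trace hρ.pos hν hν0 (good _ ν t1 hν hl) (good _ ν0 t0 hν0 hl0) (trace_of_h hν hν0 fun F t hF0 _ => ?_)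
      refine law_h hν hν0 F (fun g => ?_) t
      obtain ⟨l, hg⟩ := h F hF0 g
      rw [tendsto_nhds_unique (lawTo_dist hl F g) (hg.comp t1), tendsto_nhds_unique (lawTo_dist hl0 F g) (hg.comp t0)]
    refine ⟨fun k => φ1 (ψ k), ?_⟩
    have := hl f
    rwa [e] at this
  · rintro ⟨ν, -, h⟩ F _ g
    exact ⟨_, lawTo_dist h F g⟩

end Pool.Agent.NPR.Incl
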