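import Pool.Agent.NPR.Defs

/-!
# NPR, row E6 (the engine), part A: numbers, sums over words split in two, the weight of the chains
-/

set_option autoImplicit false

namespace HexObs

namespace NPR

open Finset TS SDN TIW NTA TIP

open scoped ENNReal

/-! ### numbers -/

lemma FK_ne_zero (K : ℕ) : FK K ≠ 0 := by
  unfold FK
  have h1 := Ub_pos K
  exact mul_ne_zero (by simpa using h1) (pow_ne_zero 2 (Xb_ne_zero K))

lemma FK_ne_top (K : ℕ) : FK K ≠ ⊤ := by
  unfold FK
  exact ENNReal.mul_ne_top ENNReal.ofReal_ne_top (ENNReal.pow_ne_top (NTA.Xb_ne_top K))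

lemma FK_mono {K K' : ℕ} (h : K ≤ K') : FK K ≤ FK K' := by
  unfold FK
  refine mul_le_mul' (ENNReal.ofReal_le_ofReal ?_) (pow_le_pow_left' (NTA.Xb_mono h) 2)
  exact Num2Aux.UU_mono (Nat.pow_le_pow_right (by norm_num) h)

lemma FK_addE : ∃ E : ℝ, 1 ≤ E ∧ ∀ K i : ℕ, FK (K + i) ≤ ENNReal.ofReal (E ^ i) * FK K := by
  obtain ⟨C, hC, h⟩ := NTA.Xb_pow
  have hC0 : 0 ≤ C := by linarith
  refine ⟨2 * C ^ 2, by nlinarith, fun K i => ?_⟩
  unfold FK
  have h1 := SDN.Ub_add K i
  have h2 := Ub_pos K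
  calc ENNReal.ofReal (Ub (K + i)) * Xb (K + i) ^ 2
      ≤ ENNReal.ofReal (2 ^ i * Ub K) * (ENNReal.ofReal (C ^ i) * Xb K) ^ 2 :=
        mul_le_mul' (ENNReal.ofReal_le_ofReal h1) (pow_le_pow_left' (h K i) 2)
    _ = ENNReal.ofReal ((2 * C ^ 2) ^ i) * (ENNReal.ofReal (Ub K) * Xb K ^ 2) := by
        rw [mul_pow, ← ENNReal.ofReal_pow (by positivity), ENNReal.ofReal_mul (by positivity)]
        have e1 : ENNReal.ofReal ((2 * C ^ 2) ^ i) = ENNReal.ofReal (2 ^ i) * ENNReal.ofReal ((C ^ i) ^ 2) := by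
          rw [← ENNReal.ofReal_mul (by positivity)]
          congr 1
          rw [mul_pow, ← pow_mul, ← pow_mul, mul_comm 2 i]
        rw [e1]
        ring

lemma uw_pos {κ : ℝ} (hκ : 0 < κ) (b : ℕ) : 0 < uw κ b := by
  unfold uw
  have h := Ub_pos b
  split_ifs
  · norm_num
  · positivity

lemma xw_ne_zero (b : ℕ) : xw b ≠ 0 := by
  unfold xw
  split_ifs
  · exact one_ne_zero
  · exact Xb_ne_zero b

lemma xw_ne_top (b : ℕ) : xw b ≠ ⊤ := by
  unfold xw
  split_ifs
  · exact ENNReal.one_ne_top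
  · exact NTA.Xb_ne_top b

/-- the multiplicity of the cuts pays for the two tips -/
lemma ratio {κ : ℝ} (hκ : 0 < κ) : ∃ E Cc : ℝ, 1 ≤ E ∧ 1 ≤ Cc ∧ (∀ K i : ℕ, FK (K + i) ≤ ENNReal.ofReal (E ^ i) * FK K) ∧
    ∀ K b : ℕ, b ≤ K → ENNReal.ofReal (1 / uw κ b) * FK K ≤ ENNReal.ofReal (Cc * E ^ (K - b)) * xw b ^ 2 := by
  obtain ⟨E, hE, h⟩ := FK_addE
  have hE0 : 0 ≤ E := by linarith
  refine ⟨E, 1 + 4 / κ + (FK 0).toReal, hE, ?_, h, fun K b hb => ?_⟩
  · have h1 : 0 ≤ 4 / κ := by positivity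
    have h2 : 0 ≤ (FK 0).toReal := ENNReal.toReal_nonneg
    linarith
  · have h4 : 0 ≤ 4 / κ := by positivity
    have h2 : 0 ≤ (FK 0).toReal := ENNReal.toReal_nonneg
    have h5 : 0 ≤ E ^ (K - b) := pow_nonneg hE0 _
    have h3 := h b (K - b)
    rw [Nat.add_sub_cancel' hb] at h3
    rcases Nat.eq_zero_or_pos b with rfl | hb0
    · have e1 : uw κ 0 = 1 := by unfold uw; simp
      have e2 : xw 0 = 1 := by unfold xw; simp
      rw [e1, e2]
      simp only [div_one, ENNReal.ofReal_one, one_mul, one_pow, mul_one]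
      calc FK K ≤ ENNReal.ofReal (E ^ (K - 0)) * FK 0 := h3
        _ = ENNReal.ofReal ((FK 0).toReal * E ^ (K - 0)) := by
            rw [ENNReal.ofReal_mul h2, ENNReal.ofReal_toReal (FK_ne_top 0), mul_comm]
        _ ≤ _ := ENNReal.ofReal_le_ofReal (by nlinarith)
    · have e1 : uw κ b = κ / 4 * Ub b := by unfold uw; rw [if_neg (by omega)]
      have e2 : xw b = Xb b := by unfold xw; rw [if_neg (by omega)]
      have hU := Ub_pos b
      rw [e1, e2]
      calc ENNReal.ofReal (1 / (κ / 4 * Ub b)) * FK K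
          ≤ ENNReal.ofReal (1 / (κ / 4 * Ub b)) * (ENNReal.ofReal (E ^ (K - b)) * FK b) := mul_le_mul_right h3 _
        _ = ENNReal.ofReal (4 / κ * E ^ (K - b)) * Xb b ^ 2 := by
            unfold FK
            rw [← mul_assoc, ← mul_assoc, ← ENNReal.ofReal_mul (by positivity), ← ENNReal.ofReal_mul (by positivity)]
            congr 2
            field_simp
        _ ≤ _ := mul_le_mul_left (ENNReal.ofReal_le_ofReal (by nlinarith)) _

/-- the least of three cube bounds -/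
lemma cube_bd {x F : ℝ≥0∞} {a b c : ℝ} (ha : 0 ≤ a) (hb : 0 ≤ b) (hc : 0 ≤ c) (h1 : x ≤ ENNReal.ofReal (a ^ 3) * F)
    (h2 : x ≤ ENNReal.ofReal (b ^ 3) * F) (h3 : x ≤ ENNReal.ofReal (c ^ 3) * F) :
    x ≤ ENNReal.ofReal (a * b * c) * F := by
  rcases le_total a b with h | h
  · rcases le_total a c with h' | h'
    · refine h1.trans (mul_le_mul_left (ENNReal.ofReal_le_ofReal ?_) _)
      have : a * a ≤ b * c := mul_le_mul h h' ha hb
      nlinarith
    · refine h3.trans (mul_le_mul_left (ENNReal.ofReal_le_ofReal ?_) _)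
      have : c * c ≤ a * b := mul_le_mul h' (h'.trans h) hc ha
      nlinarith
  · rcases le_total b c with h' | h'
    · refine h2.trans (mul_le_mul_left (ENNReal.ofReal_le_ofReal ?_) _)
      have : b * b ≤ a * c := mul_le_mul h h' hb ha
      nlinarith
    · refine h3.trans (mul_le_mul_left (ENNReal.ofReal_le_ofReal ?_) _)
      have : c * c ≤ a * b := mul_le_mul (h'.trans h) h' hc ha
      nlinarith

lemma piece_bd {u zq p h xb x A A' R F G : ℝ≥0∞} (hx0 : x ≠ 0) (hxt : x ≠ ⊤) (h1 : zq * p * (xb * x) ≤ A * F)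
    (h2 : h * x ≤ A' * G) (h3 : u * F ≤ R * x ^ 2) : u * zq * (p * h) * xb ≤ A * (A' * (R * G)) := by
  have h4 : (u * zq * (p * h) * xb) * x ^ 2 ≤ (A * (A' * (R * G))) * x ^ 2 := by
    calc (u * zq * (p * h) * xb) * x ^ 2 = u * (zq * p * (xb * x)) * (h * x) := by ring
      _ ≤ u * (A * F) * (A' * G) := mul_le_mul' (mul_le_mul_right h1 _) h2
      _ = (u * F) * (A * (A' * G)) := by ring
      _ ≤ (R * x ^ 2) * (A * (A' * G)) := mul_le_mul_left h3 _
      _ = _ := by ring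
  exact (ENNReal.mul_le_mul_iff_left (pow_ne_zero 2 hx0) (ENNReal.pow_ne_top hxt)).1 h4

/-! ### sums over words -/

/-- the weighted sum over a set of words -/
noncomputable def SW (P : Set (List Bool)) (Φ : List Bool → ℝ≥0∞) : ℝ≥0∞ := ∑' t : List Bool, P.indicator (fun t => wE t * Φ t) t

lemma SW_one (P : Set (List Bool)) : SW P (fun _ => 1) = gf P := by
  unfold SW gf
  simp only [mul_one]
  exact (tsum_subtype P wE).symm

lemma SW_mono {P Q : Set (List Bool)} {Φ Ψ : List Bool → ℝ≥0∞} (h : P ⊆ Q) (h2 : ∀ t ∈ P, Φ t ≤ Ψ t) : SW P Φ ≤ SW Q Ψ := by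
  unfold SW
  refine ENNReal.tsum_le_tsum fun t => ?_
  by_cases ht : t ∈ P
  · rw [Set.indicator_of_mem ht, Set.indicator_of_mem (h ht)]
    exact mul_le_mul_right (h2 t ht) _
  · rw [Set.indicator_of_notMem ht]
    exact zero_le

lemma SW_const {P : Set (List Bool)} {Φ : List Bool → ℝ≥0∞} {a : ℝ≥0∞} (h : ∀ t ∈ P, a ≤ Φ t) : gf P * a ≤ SW P Φ := by
  rw [← SW_one, SW, SW, ← ENNReal.tsum_mul_right]
  refine ENNReal.tsum_le_tsum fun t => ?_
  by_cases ht : t ∈ P
  · rw [Set.indicator_of_mem ht, Set.indicator_of_mem ht, mul_one]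
    exact mul_le_mul_right (h t ht) _
  · rw [Set.indicator_of_notMem ht, zero_mul]
    exact zero_le

lemma split_tsum (F : List Bool → List Bool → ℝ≥0∞) :
    ∑' t : List Bool, ∑ j ∈ range (t.length + 1), F (t.take j) (t.drop j) ≤ ∑' p : List Bool, ∑' v : List Bool, F p v := by
  have h1 : ∀ t : List Bool, ∑ j ∈ range (t.length + 1), F (t.take j) (t.drop j) =
      ∑' j : Fin (t.length + 1), F (t.take j) (t.drop j) := by
    intro t
    rw [tsum_fintype, Finset.sum_range]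
  simp_rw [h1]
  rw [← ENNReal.tsum_prod, ← ENNReal.tsum_sigma' (f := fun x : (Σ t : List Bool, Fin (t.length + 1)) =>
    F (x.1.take x.2) (x.1.drop x.2))]
  let ψ : (Σ t : List Bool, Fin (t.length + 1)) → List Bool × List Bool := fun x => (x.1.take x.2, x.1.drop x.2)
  have hψ : Function.Injective ψ := by
    rintro ⟨t, j⟩ ⟨t', j'⟩ h
    have h2 : t.take j = t'.take j' := congrArg Prod.fst h
    have h3 : t.drop j = t'.drop j' := congrArg Prod.snd h
    have h4 : t = t' := by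
      rw [← List.take_append_drop j t, ← List.take_append_drop j' t', h2, h3]
    subst h4
    have h5 := congrArg List.length h2
    rw [List.length_take, List.length_take] at h5
    have h6 := j.2
    have h7 := j'.2
    have h8 : j = j' := Fin.ext (by omega)
    subst h8
    rfl
  exact ENNReal.tsum_comp_le_tsum_of_injective hψ (fun p : List Bool × List Bool => F p.1 p.2)

/-- sums over words with a cut: the word is split at the cut -/
lemma block {ι : Type} {S : Set (List Bool)} {N : List Bool → Finset ℕ} {ω : List Bool → ℕ → ℝ≥0∞} {I : Finset ι}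
    {P Q : ι → Set (List Bool)} {c : ι → ℝ≥0∞} {Φ : List Bool → ℝ≥0∞}
    (h : ∀ t ∈ S, ∀ j ∈ N t, j ≤ t.length ∧ ∃ i ∈ I, t.take j ∈ P i ∧ t.drop j ∈ Q i ∧ ω t j ≤ c i * Φ (t.drop j)) :
    SW S (fun t => ∑ j ∈ N t, ω t j) ≤ ∑ i ∈ I, c i * (gf (P i) * SW (Q i) Φ) := by
  classical
  obtain ⟨F, hF⟩ : ∃ F : List Bool → List Bool → ℝ≥0∞, F = fun p v => ∑ i ∈ I, c i *
    ((P i).indicator wE p * (Q i).indicator (fun t => wE t * Φ t) v) := ⟨_, rfl⟩
  have h1 : SW S (fun t => ∑ j ∈ N t, ω t j) ≤ ∑' t : List Bool, ∑ j ∈ range (t.length + 1), F (t.take j) (t.drop j) := by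
    unfold SW
    refine ENNReal.tsum_le_tsum fun t => ?_
    by_cases ht : t ∈ S
    · rw [Set.indicator_of_mem ht, Finset.mul_sum]
      have h2 : N t ⊆ range (t.length + 1) := fun j hj => by
        have := (h t ht j hj).1
        simp only [Finset.mem_range]
        omega
      refine (Finset.sum_le_sum fun j hj => ?_).trans (Finset.sum_le_sum_of_subset h2)
      obtain ⟨hj1, i, hi, hP, hQ, hω⟩ := h t ht j hj
      rw [hF]
      refine le_trans ?_ (Finset.single_le_sum (f := fun i => c i * ((P i).indicator wE (t.take j) *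
        (Q i).indicator (fun t => wE t * Φ t) (t.drop j))) (fun _ _ => zero_le) hi)
      rw [Set.indicator_of_mem hP, Set.indicator_of_mem hQ]
      have e1 : wE t = wE (t.take j) * wE (t.drop j) := by
        rw [← wE_append, List.take_append_drop]
      rw [e1]
      calc wE (t.take j) * wE (t.drop j) * ω t j ≤ wE (t.take j) * wE (t.drop j) * (c i * Φ (t.drop j)) :=
            mul_le_mul_right hω _
        _ = _ := by ring
    · rw [Set.indicator_of_notMem ht]
      exact zero_le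
  refine h1.trans ((split_tsum F).trans (le_of_eq ?_))
  rw [hF]
  have h3 : ∀ p : List Bool, ∑' v : List Bool, ∑ i ∈ I, c i * ((P i).indicator wE p * (Q i).indicator (fun t => wE t * Φ t) v)
      = ∑ i ∈ I, c i * ((P i).indicator wE p * SW (Q i) Φ) := by
    intro p
    rw [Summable.tsum_finsetSum (fun i _ => ENNReal.summable)]
    refine Finset.sum_congr rfl fun i _ => ?_
    rw [ENNReal.tsum_mul_left, ENNReal.tsum_mul_left]
    rfl
  simp_rw [h3]
  rw [Summable.tsum_finsetSum (fun i _ => ENNReal.summable)]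
  refine Finset.sum_congr rfl fun i _ => ?_
  rw [ENNReal.tsum_mul_left, ENNReal.tsum_mul_right]
  congr 2
  exact (tsum_subtype (P i) wE).symm

/-! ### the weight of the chains -/

open Classical in
/-- the sum over the chains of J blocks from the start of u, normalised, weight z for a middle in QQ -/
noncomputable def Wt (κ : ℝ) (C b0 k L : ℕ) (QQ : Set (List Bool)) (z : ℝ≥0∞) : ℕ → List Bool → ℝ≥0∞
  | 0, _ => 1
  | J + 1, u => ∑ j ∈ nx κ C b0 k L u, ENNReal.ofReal (1 / uw κ (lbl κ C b0 k L u)) *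
      ((if mid L (ML L) u ∈ QQ then z else 1) * Wt κ C b0 k L QQ z J (u.drop j))

lemma Wt_low {κ : ℝ} {C b0 k L : ℕ} {QQ : Set (List Bool)} {z : ℝ≥0∞} (hκ : 0 < κ) (hz : 1 ≤ z)
    (hS : ∀ u ∈ SA, 3 * ML L < u.length → uw κ (lbl κ C b0 k L u) ≤ ((nx κ C b0 k L u).card : ℝ) ∧
      ∀ j ∈ nx κ C b0 k L u, j ≤ 3 * ML L) (J : ℕ) : ∀ u ∈ SA, 3 * ML L * (J + 1) < u.length →
      ∃ g, g ≤ J ∧ Ch κ C b0 k L QQ J g u ∧ z ^ (J - g) ≤ Wt κ C b0 k L QQ z J u := by
  classical
  induction J with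
  | zero =>
    intro u _ _
    exact ⟨0, le_rfl, rfl, by simp [Wt]⟩
  | succ J ih =>
    intro u hu hl
    have hl' : 3 * ML L < u.length := by nlinarith
    obtain ⟨h1, h2⟩ := hS u hu hl'
    obtain ⟨N, hN⟩ : ∃ N, N = nx κ C b0 k L u := ⟨_, rfl⟩
    rw [← hN] at h1 h2
    obtain ⟨w, hw⟩ : ∃ w, w = uw κ (lbl κ C b0 k L u) := ⟨_, rfl⟩
    have hw0 : 0 < w := hw ▸ uw_pos hκ _
    rw [← hw] at h1
    have hne : N.Nonempty := by
      rw [← Finset.card_pos]
      have : (0 : ℝ) < N.card := lt_of_lt_of_le hw0 h1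
      exact_mod_cast this
    have h3 : ∀ j ∈ N, ∃ g, g ≤ J ∧ Ch κ C b0 k L QQ J g (u.drop j) ∧ z ^ (J - g) ≤ Wt κ C b0 k L QQ z J (u.drop j) := by
      intro j hj
      have h4 := h2 j hj
      refine ih (u.drop j) (SA_drop hu j) ?_
      rw [List.length_drop]
      have e1 : 3 * ML L * (J + 1 + 1) = 3 * ML L * (J + 1) + 3 * ML L := by ring
      omega
    choose! g hg1 hg2 hg3 using h3
    obtain ⟨j, hj, hmax⟩ := N.exists_max_image g hne
    obtain ⟨zq, hzq⟩ : ∃ zq : ℝ≥0∞, zq = if mid L (ML L) u ∈ QQ then z else 1 := ⟨_, rfl⟩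
    have h5 : zq * z ^ (J - g j) ≤ Wt κ C b0 k L QQ z (J + 1) u := by
      have e1 : Wt κ C b0 k L QQ z (J + 1) u = ∑ j ∈ N, ENNReal.ofReal (1 / w) *
        (zq * Wt κ C b0 k L QQ z J (u.drop j)) := by
        rw [hN, hw, hzq]
        rfl
      rw [e1]
      have h6 : ∀ i ∈ N, ENNReal.ofReal (1 / w) * (zq * z ^ (J - g j)) ≤ ENNReal.ofReal (1 / w) *
          (zq * Wt κ C b0 k L QQ z J (u.drop i)) := by
        intro i hi
        refine mul_le_mul_right (mul_le_mul_right ((pow_le_pow_right₀ hz ?_).trans (hg3 i hi)) _) _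
        have := hmax i hi
        omega
      refine le_trans ?_ (Finset.sum_le_sum h6)
      rw [Finset.sum_const, nsmul_eq_mul, ← mul_assoc]
      have h7 : (1 : ℝ≥0∞) ≤ (N.card : ℝ≥0∞) * ENNReal.ofReal (1 / w) := by
        rw [← ENNReal.ofReal_natCast, ← ENNReal.ofReal_mul (by positivity), ← ENNReal.ofReal_one]
        refine ENNReal.ofReal_le_ofReal ?_
        rw [mul_one_div, le_div_iff₀ hw0]
        linarith
      calc zq * z ^ (J - g j) = 1 * (zq * z ^ (J - g j)) := (one_mul _).symm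
        _ ≤ _ := mul_le_mul_left h7 _
    by_cases hm : mid L (ML L) u ∈ QQ
    · refine ⟨g j, (hg1 j hj).trans (by omega), ?_, ?_⟩
      · exact ⟨j, hN ▸ hj, Or.inl (hg2 j hj)⟩
      · refine le_trans (le_of_eq ?_) h5
        rw [hzq, if_pos hm, ← pow_succ']
        congr 1
        have := hg1 j hj
        omega
    · refine ⟨g j + 1, by have := hg1 j hj; omega, ?_, ?_⟩
      · exact ⟨j, hN ▸ hj, Or.inr ⟨hm, g j, rfl, hg2 j hj⟩⟩
      · refine le_trans (le_of_eq ?_) h5
        rw [hzq, if_neg hm, one_mul]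
        congr 1
        omega

end NPR

end HexObs
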