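import Pool.Agent.NPR.Pc
import Pool.Agent.NTS.Law

/-!
# NPR, row P1c: the number of pieces of a sequence of points (helper19, names of helper34)

* `Vz x z a b` : the least number `k ≥ 1` of consecutive pieces of diameter at most `x` that cover the points `z a, ..., z b`
  (neighbouring pieces share a point);
* `Vz_add_le`, `Vz_add_ge` : additivity with the error 1; `Vz_anti`, `Vz_mono`; `Vz_congr` (isometries, shifts), `Vz_rev`
  (reversal), `Vz_one`, `Vz_two`;
* `pcs_le_Vz`, `Vz_le_pcs` : comparison with the number of pieces of the curve of a walk.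
-/

set_option autoImplicit false

open Set Filter Topology MeasureTheory

namespace Pool.Agent.NPR

/-- `k` consecutive pieces of diameter at most `x` cover the points `z a, ..., z b` -/
def VOk (x : ℝ) (z : ℕ → ℂ) (a b k : ℕ) : Prop :=
  1 ≤ k ∧ ∃ u : ℕ → ℕ, Monotone u ∧ u 0 = a ∧ u k = b ∧
    ∀ i < k, ∀ p, u i ≤ p → p ≤ u (i + 1) → ∀ q, u i ≤ q → q ≤ u (i + 1) → dist (z p) (z q) ≤ x

/-- the least number of consecutive pieces of diameter at most `x` that cover the points `z a, ..., z b` -/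
noncomputable def Vz (x : ℝ) (z : ℕ → ℂ) (a b : ℕ) : ℕ := sInf {k | 1 ≤ k ∧ ∃ u : ℕ → ℕ, Monotone u ∧ u 0 = a ∧ u k = b ∧
  ∀ i < k, ∀ p, u i ≤ p → p ≤ u (i + 1) → ∀ q, u i ≤ q → q ≤ u (i + 1) → dist (z p) (z q) ≤ x}

section

variable {x : ℝ} {z : ℕ → ℂ} {a b c : ℕ}

lemma Vok_exists (hx : 1 ≤ x) (hab : a ≤ b) (hz : ∀ i, a ≤ i → i < b → dist (z i) (z (i + 1)) ≤ 1) :
    ∃ k, VOk x z a b k := by
  refine ⟨b - a + 1, by omega, fun i => min (a + i) b, ?_, ?_, ?_, ?_⟩
  · intro i j hij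
    show min (a + i) b ≤ min (a + j) b
    omega
  · show min (a + 0) b = a
    omega
  · show min (a + (b - a + 1)) b = b
    omega
  · intro i _ p hp1 hp2 q hq1 hq2
    simp only at hp1 hp2 hq1 hq2
    rcases (by omega : p = q ∨ p + 1 = q ∨ q + 1 = p) with h | h | h
    · rw [h, dist_self]
      linarith
    · rw [← h]
      exact (hz p (by omega) (by omega)).trans hx
    · rw [← h, dist_comm]
      exact (hz q (by omega) (by omega)).trans hx

lemma Vz_spec (hx : 1 ≤ x) (hab : a ≤ b) (hz : ∀ i, a ≤ i → i < b → dist (z i) (z (i + 1)) ≤ 1) :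
    VOk x z a b (Vz x z a b) := Nat.sInf_mem (Vok_exists hx hab hz)

lemma Vz_le {k : ℕ} (h : VOk x z a b k) : Vz x z a b ≤ k := Nat.sInf_le h

lemma one_le_Vz (hx : 1 ≤ x) (hab : a ≤ b) (hz : ∀ i, a ≤ i → i < b → dist (z i) (z (i + 1)) ≤ 1) :
    1 ≤ Vz x z a b := (Vz_spec hx hab hz).1

lemma Vz_anti {x' : ℝ} (hx : 1 ≤ x) (h : x ≤ x') (hab : a ≤ b)
    (hz : ∀ i, a ≤ i → i < b → dist (z i) (z (i + 1)) ≤ 1) : Vz x' z a b ≤ Vz x z a b := by
  obtain ⟨h1, u, hu, h0, hk, hd⟩ := Vz_spec hx hab hz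
  exact Vz_le ⟨h1, u, hu, h0, hk, fun i hi p p1 p2 q q1 q2 => (hd i hi p p1 p2 q q1 q2).trans h⟩

/-- **subadditivity** -/
lemma Vz_add_le (hx : 1 ≤ x) (hab : a ≤ b) (hbc : b ≤ c) (hz : ∀ i, a ≤ i → i < c → dist (z i) (z (i + 1)) ≤ 1) :
    Vz x z a c ≤ Vz x z a b + Vz x z b c := by
  obtain ⟨h1, u, hu, h0, hk, hd⟩ := Vz_spec hx hab fun i h1 h2 => hz i h1 (h2.trans_le hbc)
  obtain ⟨h1', v, hv, h0', hk', hd'⟩ := Vz_spec hx hbc fun i h1 h2 => hz i (hab.trans h1) h2
  obtain ⟨m, hm⟩ : ∃ m, m = Vz x z a b := ⟨_, rfl⟩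
  rw [← hm] at h1 hk hd ⊢
  refine Vz_le ⟨by omega, fun i => if i ≤ m then u i else v (i - m), ?_, ?_, ?_, ?_⟩
  · intro i j hij
    show (if i ≤ m then u i else v (i - m)) ≤ if j ≤ m then u j else v (j - m)
    split_ifs with h2 h3
    · exact hu hij
    · have e1 : u i ≤ b := hk ▸ hu h2
      have e2 : b ≤ v (j - m) := h0' ▸ hv (Nat.zero_le _)
      exact e1.trans e2
    · omega
    · exact hv (by omega)
  · show (if 0 ≤ m then u 0 else v (0 - m)) = a
    rw [if_pos (Nat.zero_le _), h0]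
  · show (if m + Vz x z b c ≤ m then u (m + Vz x z b c) else v (m + Vz x z b c - m)) = c
    rw [if_neg (by omega), Nat.add_sub_cancel_left, hk']
  · intro i hi p p1 p2 q q1 q2
    simp only at p1 p2 q1 q2
    rcases Nat.lt_trichotomy i m with h2 | h2 | h2
    · rw [if_pos h2.le] at p1 q1
      rw [if_pos (show i + 1 ≤ m from h2)] at p2 q2
      exact hd i h2 p p1 p2 q q1 q2
    · rw [h2, if_pos le_rfl, hk] at p1 q1
      rw [h2, if_neg (by omega), show m + 1 - m = 1 by omega] at p2 q2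
      have := hd' 0 (by omega) p
      rw [h0'] at this
      exact this p1 p2 q q1 q2
    · rw [if_neg (by omega)] at p1 q1
      rw [if_neg (by omega), show i + 1 - m = i - m + 1 by omega] at p2 q2
      exact hd' (i - m) (by omega) p p1 p2 q q1 q2

/-- **superadditivity, error 1** -/
lemma Vz_add_ge (hx : 1 ≤ x) (hab : a ≤ b) (hbc : b ≤ c) (hz : ∀ i, a ≤ i → i < c → dist (z i) (z (i + 1)) ≤ 1) :
    Vz x z a b + Vz x z b c ≤ Vz x z a c + 1 := by
  obtain ⟨h1, u, hu, h0, hk, hd⟩ := Vz_spec hx (hab.trans hbc) hz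
  obtain ⟨k, hkk⟩ : ∃ k, k = Vz x z a c := ⟨_, rfl⟩
  rw [← hkk] at h1 hk hd ⊢
  -- the piece with the point b
  obtain ⟨j, hj, hj1, hj2⟩ : ∃ j, j < k ∧ u j ≤ b ∧ b ≤ u (j + 1) := by
    by_contra hcon
    push Not at hcon
    have : ∀ j, j ≤ k → u j ≤ b := by
      intro j
      induction j with
      | zero =>
        intro _
        rw [h0]
        exact hab
      | succ j ih => intro hj; exact (hcon j (by omega) (ih (by omega))).le
    have h3 := this k le_rfl
    have h4 := hcon (k - 1) (by omega) (this (k - 1) (by omega))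
    rw [Nat.sub_add_cancel h1, hk] at h4
    omega
  have e1 : Vz x z a b ≤ j + 1 := by
    refine Vz_le ⟨by omega, fun i => min (u i) b, fun i i' hi => min_le_min (hu hi) le_rfl, ?_, ?_, ?_⟩
    · show min (u 0) b = a
      rw [h0]
      exact min_eq_left hab
    · show min (u (j + 1)) b = b
      exact min_eq_right hj2
    · intro i hi p p1 p2 q q1 q2
      simp only at p1 p2 q1 q2
      have e : u i ≤ b := (hu (by omega : i ≤ j)).trans hj1
      rw [min_eq_left e] at p1 q1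
      exact hd i (by omega) p p1 (p2.trans (min_le_left _ _)) q q1 (q2.trans (min_le_left _ _))
  have e2 : Vz x z b c ≤ k - j := by
    refine Vz_le ⟨by omega, fun i => max (u (i + j)) b, fun i i' hi => max_le_max (hu (by omega)) le_rfl, ?_, ?_, ?_⟩
    · show max (u (0 + j)) b = b
      rw [Nat.zero_add]
      exact max_eq_right hj1
    · show max (u (k - j + j)) b = c
      rw [Nat.sub_add_cancel hj.le, hk]
      exact max_eq_left hbc
    · intro i hi p p1 p2 q q1 q2
      simp only at p1 p2 q1 q2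
      have e : b ≤ u (i + 1 + j) := hj2.trans (hu (by omega))
      rw [max_eq_left e] at p2 q2
      have e3 := hd (i + j) (by omega) p ((le_max_left _ _).trans p1) (by rwa [show i + j + 1 = i + 1 + j by omega])
        q ((le_max_left _ _).trans q1) (by rwa [show i + j + 1 = i + 1 + j by omega])
      exact e3
  omega

lemma Vz_mono (hx : 1 ≤ x) (hab : a ≤ b) (hbc : b ≤ c) (hz : ∀ i, a ≤ i → i < c → dist (z i) (z (i + 1)) ≤ 1) :
    Vz x z a b ≤ Vz x z a c := by
  have h1 := Vz_add_ge hx hab hbc hz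
  have h2 := one_le_Vz hx hbc fun i h1 h2 => hz i (hab.trans h1) h2
  omega

lemma Vz_mono_left (hx : 1 ≤ x) (hab : a ≤ b) (hbc : b ≤ c) (hz : ∀ i, a ≤ i → i < c → dist (z i) (z (i + 1)) ≤ 1) :
    Vz x z b c ≤ Vz x z a c := by
  have h1 := Vz_add_ge hx hab hbc hz
  have h2 := one_le_Vz hx hab fun i h1 h2 => hz i h1 (h2.trans_le hbc)
  omega

lemma Vz_one (hab : a ≤ b) (h : ∀ p q, a ≤ p → p ≤ b → a ≤ q → q ≤ b → dist (z p) (z q) ≤ x) : Vz x z a b ≤ 1 := by
  refine Vz_le ⟨le_rfl, fun i => if i = 0 then a else b, ?_, rfl, rfl, ?_⟩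
  · intro i j hij
    show (if i = 0 then a else b) ≤ if j = 0 then a else b
    split_ifs <;> omega
  · intro i hi p p1 p2 q q1 q2
    have : i = 0 := by omega
    subst this
    simp only [if_true, Nat.zero_add, one_ne_zero, if_false] at p1 p2 q1 q2
    exact h p q p1 p2 q1 q2

lemma Vz_two (hx : 1 ≤ x) (hab : a ≤ b) (hz : ∀ i, a ≤ i → i < b → dist (z i) (z (i + 1)) ≤ 1)
    (h : ∃ p q, a ≤ p ∧ p ≤ b ∧ a ≤ q ∧ q ≤ b ∧ x < dist (z p) (z q)) : 2 ≤ Vz x z a b := by
  obtain ⟨p, q, p1, p2, q1, q2, h⟩ := h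
  obtain ⟨h1, u, hu, h0, hk, hd⟩ := Vz_spec hx hab hz
  by_contra hcon
  have e : Vz x z a b = 1 := by omega
  rw [e] at hk hd
  have := hd 0 (by omega) p (by rw [h0]; exact p1) (by rw [Nat.zero_add, hk]; exact p2) q
    (by rw [h0]; exact q1) (by rw [Nat.zero_add, hk]; exact q2)
  linarith

/-- isometric sequences -/
lemma VOk_congr {z' : ℕ → ℂ} {a' k : ℕ}
    (h : ∀ p, p ≤ b - a → ∀ q, q ≤ b - a → dist (z (a + p)) (z (a + q)) = dist (z' (a' + p)) (z' (a' + q)))
    (hk : VOk x z a b k) : VOk x z' a' (a' + (b - a)) k := by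
  obtain ⟨h1, u, hu, h0, hk, hd⟩ := hk
  have ha : ∀ i, a ≤ u i := fun i => h0 ▸ hu (Nat.zero_le i)
  refine ⟨h1, fun i => a' + (u i - a), fun i j hij => ?_, ?_, ?_, ?_⟩
  · have := hu hij
    show a' + (u i - a) ≤ a' + (u j - a)
    omega
  · show a' + (u 0 - a) = a'
    rw [h0]
    omega
  · show a' + (u k - a) = a' + (b - a)
    rw [hk]
  · intro i hi p p1 p2 q q1 q2
    simp only at p1 p2 q1 q2
    have e0 : u (i + 1) ≤ b := hk ▸ hu (by omega)
    have e1 := ha i
    have e2 := ha (i + 1)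
    have e3 := h (p - a') (by omega) (q - a') (by omega)
    rw [show a' + (p - a') = p by omega, show a' + (q - a') = q by omega] at e3
    rw [← e3]
    exact hd i hi _ (by omega) (by omega) _ (by omega) (by omega)

/-- **isometries and shifts** -/
lemma Vz_congr {z' : ℕ → ℂ} {a' : ℕ} (hab : a ≤ b)
    (h : ∀ p, p ≤ b - a → ∀ q, q ≤ b - a → dist (z (a + p)) (z (a + q)) = dist (z' (a' + p)) (z' (a' + q))) :
    Vz x z a b = Vz x z' a' (a' + (b - a)) := by
  unfold Vz
  congr 1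
  ext k
  constructor
  · intro hk
    exact VOk_congr h hk
  · intro hk
    have := VOk_congr (z := z') (z' := z) (a := a') (b := a' + (b - a)) (a' := a)
      (fun p hp q hq => (h p (by omega) q (by omega)).symm) hk
    rwa [show a + (a' + (b - a) - a') = b by omega] at this

lemma VOk_rev {z' : ℕ → ℂ} {n k : ℕ} (h : ∀ p, p ≤ n → ∀ q, q ≤ n → dist (z p) (z q) = dist (z' (n - p)) (z' (n - q)))
    (hk : VOk x z 0 n k) : VOk x z' 0 n k := by
  obtain ⟨h1, u, hu, h0, hk, hd⟩ := hk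
  refine ⟨h1, fun i => n - u (k - i), fun i j hij => ?_, ?_, ?_, ?_⟩
  · have := hu (show k - j ≤ k - i by omega)
    show n - u (k - i) ≤ n - u (k - j)
    omega
  · show n - u (k - 0) = 0
    rw [Nat.sub_zero, hk, Nat.sub_self]
  · show n - u (k - k) = n
    rw [Nat.sub_self, h0, Nat.sub_zero]
  · intro i hi p p1 p2 q q1 q2
    simp only at p1 p2 q1 q2
    have e0 : u (k - i) ≤ n := hk ▸ hu (by omega)
    have e1 : k - i = k - (i + 1) + 1 := by omega
    have e4 : u (k - (i + 1)) ≤ u (k - i) := hu (by omega)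
    have e3 := h (n - p) (by omega) (n - q) (by omega)
    rw [show n - (n - p) = p by omega, show n - (n - q) = q by omega] at e3
    rw [← e3]
    exact hd (k - (i + 1)) (by omega) _ (by omega) (by rw [← e1]; omega) _ (by omega) (by rw [← e1]; omega)

/-- **reversal** -/
lemma Vz_rev {z' : ℕ → ℂ} {n : ℕ} (h : ∀ p, p ≤ n → ∀ q, q ≤ n → dist (z p) (z q) = dist (z' (n - p)) (z' (n - q))) :
    Vz x z 0 n = Vz x z' 0 n := by
  unfold Vz
  congr 1
  ext k
  constructor
  · exact VOk_rev h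
  · refine VOk_rev fun p hp q hq => ?_
    have := h (n - p) (by omega) (n - q) (by omega)
    rw [this, show n - (n - p) = p by omega, show n - (n - q) = q by omega]

end

/-! ### the curve of a walk -/

open Pool.Agent.NTS.Res

open NTSF (pos_succ pos_zero curve_eq size_pos)

lemma pos_dist_step {n : ℕ} (s : Fin n → Fin 3) {j : ℕ} (hj : j < n) : dist (pos s j) (pos s (j + 1)) = 1 := by
  rw [dist_comm, dist_eq_norm, pos_succ s j hj, add_sub_cancel_left]
  unfold step
  rw [norm_mul, norm_pow, norm_neg, norm_one, one_pow, one_mul]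
  have e : (2 * (Real.pi : ℂ) * Complex.I * (((s ⟨j, hj⟩ : Fin 3) : ℕ) : ℂ) / 3) =
      ((2 * Real.pi * (((s ⟨j, hj⟩ : Fin 3) : ℕ) : ℝ) / 3 : ℝ) : ℂ) * Complex.I := by
    push_cast
    ring
  rw [e, Complex.norm_exp_ofReal_mul_I]

/-- the curve at the integer times -/
lemma curve_int {n : ℕ} (hn : 1 ≤ n) (s : Fin n → Fin 3) {j : ℕ} {u : unitInterval} (hu : (u : ℝ) * n = j) :
    curve s u = pos s j / size n := by
  have hn0 : (0 : ℝ) < n := by exact_mod_cast hn
  have hj : j ≤ n := by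
    have : (j : ℝ) ≤ n := by
      rw [← hu]
      exact mul_le_of_le_one_left hn0.le u.2.2
    exact_mod_cast this
  rcases Nat.eq_zero_or_pos j with h | h
  · subst h
    rw [curve_eq, Tight.poly_apply (i := 0) hn (by rw [hu]) (by rw [hu]; simp), hu]
    simp
  · obtain ⟨i, rfl⟩ : ∃ i, j = i + 1 := ⟨j - 1, by omega⟩
    rw [curve_eq, Tight.poly_apply (i := i) (by omega) (by rw [hu]; push_cast; linarith) (by rw [hu]; push_cast; linarith), hu]
    push_cast
    ring

/-- the curve between two integer times -/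
lemma curve_hull {n : ℕ} (hn : 1 ≤ n) (s : Fin n → Fin 3) {a b : ℕ} {u : unitInterval} (ha : (a : ℝ) ≤ u * n)
    (hb : (u : ℝ) * n ≤ b) (hbn : b ≤ n) :
    curve s u ∈ convexHull ℝ ((fun j => pos s j / (size n : ℂ)) '' Icc a b) := by
  rcases hb.lt_or_eq with h | h
  · have h0 : (0 : ℝ) ≤ u * n := (Nat.cast_nonneg a).trans ha
    obtain ⟨j, hj⟩ : ∃ j, j = ⌊(u : ℝ) * n⌋₊ := ⟨_, rfl⟩
    have h1 : (j : ℝ) ≤ u * n := by
      rw [hj]
      exact Nat.floor_le h0
    have h2 : (u : ℝ) * n ≤ j + 1 := by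
      rw [hj]
      exact (Nat.lt_floor_add_one _).le
    have h3 : a ≤ j := by
      rw [hj]
      exact Nat.le_floor ha
    have h4 : j < b := by
      have : (j : ℝ) < b := h1.trans_lt h
      exact_mod_cast this
    have m1 : pos s j / (size n : ℂ) ∈ convexHull ℝ ((fun j => pos s j / (size n : ℂ)) '' Icc a b) :=
      subset_convexHull ℝ _ ⟨j, ⟨h3, h4.le⟩, rfl⟩
    have m2 : pos s (j + 1) / (size n : ℂ) ∈ convexHull ℝ ((fun j => pos s j / (size n : ℂ)) '' Icc a b) :=
      subset_convexHull ℝ _ ⟨j + 1, ⟨by omega, h4⟩, rfl⟩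
    have m3 := (convex_convexHull ℝ ((fun j => pos s j / (size n : ℂ)) '' Icc a b)) m1 m2
      (a := 1 - (u * n - j)) (b := u * n - j) (by linarith) (by linarith) (by ring)
    convert m3 using 1
    rw [curve_eq, Tight.poly_apply (i := j) (by omega) h1 h2, Complex.real_smul, Complex.real_smul]
    push_cast
    ring
  · rw [curve_int hn s h]
    refine subset_convexHull ℝ _ ⟨b, ⟨?_, le_rfl⟩, rfl⟩
    rw [h] at ha
    exact_mod_cast ha

/-- **(A)** -/
theorem pcs_le_Vz {n : ℕ} (hn : 1 ≤ n) (s : Fin n → Fin 3) {k : ℕ} (hk : k ≤ n) {σ : ℝ} (hx : 1 ≤ σ * size n)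
    {v : unitInterval} (hv : (v : ℝ) ≤ k / n) :
    pcs σ (curve s) 0 v ≤ Vz (σ * size n) (fun j => pos s j) 0 k := by
  have hn0 : (0 : ℝ) < n := by exact_mod_cast hn
  have hs := size_pos hn
  have hσ : 0 < σ := by
    by_contra h
    have := mul_nonpos_of_nonpos_of_nonneg (not_lt.1 h) hs.le
    linarith
  obtain ⟨h1, u, hu, h0, hm, hd⟩ := Vz_spec (z := fun j => pos s j) hx (Nat.zero_le k)
    fun i _ hi => (pos_dist_step s (hi.trans_le hk)).le
  have hun : ∀ i, min (v : ℝ) (u i / n) ∈ Icc (0 : ℝ) 1 := fun i =>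
    ⟨le_min v.2.1 (by positivity), (min_le_left _ _).trans v.2.2⟩
  refine pcs_le ⟨h1, fun i => ⟨min (v : ℝ) (u i / n), hun i⟩, ?_, ?_, ?_, ?_⟩
  · intro i j hij
    have : (u i : ℝ) ≤ u j := by exact_mod_cast hu hij
    show min (v : ℝ) (u i / n) ≤ min (v : ℝ) (u j / n)
    exact min_le_min le_rfl (div_le_div_of_nonneg_right this hn0.le)
  · ext
    show min (v : ℝ) (u 0 / n) = 0
    rw [h0, Nat.cast_zero, zero_div]
    exact min_eq_right v.2.1
  · ext
    show min (v : ℝ) (u (Vz (σ * size n) (fun j => pos s j) 0 k) / n) = v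
    rw [hm]
    exact min_eq_left hv
  · rintro i hi p ⟨hp1, hp2⟩ q ⟨hq1, hq2⟩
    have hp1' : min (v : ℝ) (u i / n) ≤ p := hp1
    have hp2' : (p : ℝ) ≤ min (v : ℝ) (u (i + 1) / n) := hp2
    have hq1' : min (v : ℝ) (u i / n) ≤ q := hq1
    have hq2' : (q : ℝ) ≤ min (v : ℝ) (u (i + 1) / n) := hq2
    rcases le_total (v : ℝ) (u i / n) with h | h
    · rw [min_eq_left h] at hp1' hq1'
      have e1 : p = q := Subtype.ext ((le_antisymm (hp2'.trans (min_le_left _ _)) hp1').trans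
        (le_antisymm (hq2'.trans (min_le_left _ _)) hq1').symm)
      rw [e1, dist_self]
      exact hσ.le
    · rw [min_eq_right h, div_le_iff₀ hn0] at hp1' hq1'
      have hp3 := hp2'.trans (min_le_right _ _)
      have hq3 := hq2'.trans (min_le_right _ _)
      rw [le_div_iff₀ hn0] at hp3 hq3
      have hin : u (i + 1) ≤ n := (hm ▸ hu (by omega : i + 1 ≤ _) : u (i + 1) ≤ k).trans hk
      obtain ⟨x, hx', y, hy', hxy⟩ := convexHull_exists_dist_ge2 (curve_hull hn s hp1' hp3 hin)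
        (curve_hull hn s hq1' hq3 hin)
      refine hxy.trans ?_
      obtain ⟨x, ⟨x1, x2⟩, rfl⟩ := hx'
      obtain ⟨y, ⟨y1, y2⟩, rfl⟩ := hy'
      have h5 := hd i hi x x1 x2 y y1 y2
      simp only at h5 ⊢
      rw [dist_eq_norm, ← sub_div, norm_div, Complex.norm_real, Real.norm_of_nonneg hs.le, div_le_iff₀ hs,
        ← dist_eq_norm]
      exact h5

/-- **(B)** -/
theorem Vz_le_pcs {n : ℕ} (hn : 1 ≤ n) (s : Fin n → Fin 3) {k : ℕ} (hk : k ≤ n) {σ : ℝ} (hσ : 0 < σ)
    {v : unitInterval} (hv : (k : ℝ) / n ≤ v) :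
    Vz (σ * size n + 2) (fun j => pos s j) 0 k ≤ pcs σ (curve s) 0 v := by
  have hn0 : (0 : ℝ) < n := by exact_mod_cast hn
  have hs := size_pos hn
  obtain ⟨h1, U, hU, h0, hm, hd⟩ := pcs_spec hσ (curve s) (a := 0) (b := v) v.2.1
  refine Vz_le ⟨h1, fun i => min k ⌊(U i : ℝ) * n⌋₊, ?_, ?_, ?_, ?_⟩
  · intro i j hij
    have : (U i : ℝ) ≤ U j := hU hij
    exact min_le_min le_rfl (Nat.floor_mono (mul_le_mul_of_nonneg_right this hn0.le))
  · show min k ⌊(U 0 : ℝ) * n⌋₊ = 0
    rw [h0]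
    simp
  · show min k ⌊(U (pcs σ (curve s) 0 v) : ℝ) * n⌋₊ = k
    rw [hm]
    refine min_eq_left (Nat.le_floor ?_)
    rwa [div_le_iff₀ hn0] at hv
  · intro i hi p p1 p2 q q1 q2
    simp only at p1 p2 q1 q2
    -- a time of the curve near each integer time
    have key : ∀ p, min k ⌊(U i : ℝ) * n⌋₊ ≤ p → p ≤ min k ⌊(U (i + 1) : ℝ) * n⌋₊ → ⌊(U i : ℝ) * n⌋₊ < k →
        ∃ t ∈ Icc (U i) (U (i + 1)), dist (curve s t) (pos s p / size n) ≤ 1 / size n := by
      intro p p1 p2 h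
      have hUi : (U i : ℝ) ≤ U (i + 1) := hU (Nat.le_succ i)
      have hf0 : 0 ≤ (U (i + 1) : ℝ) * n := mul_nonneg (U (i + 1)).2.1 hn0.le
      have hf1 : 0 ≤ (U i : ℝ) * n := mul_nonneg (U i).2.1 hn0.le
      have hp : (p : ℝ) ≤ U (i + 1) * n := by
        have e1 : (p : ℝ) ≤ ⌊(U (i + 1) : ℝ) * n⌋₊ := by exact_mod_cast p2.trans (min_le_right _ _)
        exact e1.trans (Nat.floor_le hf0)
      rcases le_or_gt ((U i : ℝ) * n) p with h2 | h2
      · refine ⟨⟨p / n, by positivity, ?_⟩, ⟨?_, ?_⟩, ?_⟩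
        · rw [div_le_one hn0]
          exact hp.trans (mul_le_of_le_one_left hn0.le (U (i + 1)).2.2)
        · show (U i : ℝ) ≤ p / n
          rwa [le_div_iff₀ hn0]
        · show (p : ℝ) / n ≤ U (i + 1)
          rwa [div_le_iff₀ hn0]
        · rw [curve_int hn s (j := p) (by show (p : ℝ) / n * n = p; field_simp), dist_self]
          positivity
      · have e1 : ⌊(U i : ℝ) * n⌋₊ ≤ p := by omega
        have e2 : p ≤ ⌊(U i : ℝ) * n⌋₊ := Nat.le_floor h2.le
        have e3 : p = ⌊(U i : ℝ) * n⌋₊ := le_antisymm e2 e1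
        refine ⟨U i, ⟨le_rfl, hU (Nat.le_succ i)⟩, ?_⟩
        have h3 : (U i : ℝ) * n ≤ p + 1 := by
          rw [e3]
          exact (Nat.lt_floor_add_one _).le
        have hpn : p < n := by omega
        rw [curve_eq, Tight.poly_apply hpn h2.le h3, dist_eq_norm, add_sub_cancel_left, ← sub_div, norm_mul, norm_div,
          Complex.norm_real, Complex.norm_real, Real.norm_of_nonneg (by linarith), Real.norm_of_nonneg hs.le,
          ← dist_eq_norm, dist_comm, pos_dist_step s hpn]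
        exact mul_le_of_le_one_left (by positivity) (by linarith)
    by_cases h : ⌊(U i : ℝ) * n⌋₊ < k
    · obtain ⟨t, ht, ht'⟩ := key p p1 p2 h
      obtain ⟨r, hr, hr'⟩ := key q q1 q2 h
      have h2 := hd i hi t ht r hr
      have h3 : dist (pos s p / (size n : ℂ)) (pos s q / size n) ≤ σ + 2 / size n := by
        have := dist_triangle4 (pos s p / (size n : ℂ)) (curve s t) (curve s r) (pos s q / size n)
        rw [dist_comm (pos s p / (size n : ℂ)) (curve s t)] at this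
        have e : 2 / size n = 1 / size n + 1 / size n := by ring
        linarith
      rw [dist_eq_norm, ← sub_div, norm_div, Complex.norm_real, Real.norm_of_nonneg hs.le, div_le_iff₀ hs,
        ← dist_eq_norm] at h3
      refine h3.trans (le_of_eq ?_)
      field_simp
    · have e1 : k ≤ ⌊(U i : ℝ) * n⌋₊ := not_lt.1 h
      have e2 : p = q := by omega
      rw [e2, dist_self]
      positivity

end Pool.Agent.NPR
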