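import Pool.Agent.NPR.LeafN
import Pool.Agent.ERG.StageQ

/-!
# NPR, row Q3 (next/46f0ca_14): middles without a typical leaf are rare, polynomial constants (helper41)

* `AtypQ` : row Q2 (28), `LeafQ` : row Q3 (ERG/StageQ, 10);
* **`leafQ_of : 0 < κ → RegZ κ C → AtypQ → LeafQ`**.
-/

set_option autoImplicit false

namespace HexObs

namespace NPR

open Finset TS SDN TIW NTA TIP

open scoped ENNReal

/-- the body of `AtypM` -/
def AtypB (c : ℝ) (k' : ℕ) (ε Lam p : ℝ) (R L0 : ℕ) (θ τ : ℝ) : Prop := ∀ L, L0 ≤ L → ∃ Ng : ℕ, 1 ≤ Ng ∧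
  ((R * Ng : ℕ) : ℝ) ≤ c * Ub (L - k') ∧ ∀ φ : List Bool → ℝ, (∀ g, 0 ≤ φ g) → ∃ ms : ℝ, 0 ≤ ms ∧
    gf {V | V ∈ Ir (R * Ng) ∧ ¬ ∃ gs : List (List Bool), gs.length = R ∧ V = gs.flatten ∧
      Typ (PW.mZ (2 ^ L)) (τ * PW.mZ (2 ^ L)) Lam θ ε ms φ gs} ≤ ENNReal.ofReal p

/-- **Q2**: the free law of the groups, polynomial constants -/
def AtypQ : Prop := ∀ (c : ℝ) (k' : ℕ) (Lam p : ℝ), 0 < c → 0 < Lam → 0 < p → ∃ A : ℕ, 1 ≤ A ∧ ∀ ε : ℝ, 0 < ε → ε ≤ 1 →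
  ∃ (R L0 : ℕ) (θ τ : ℝ), (1 ≤ R ∧ k' ≤ L0 ∧ 0 < θ ∧ 0 < τ ∧ τ ≤ 1 ∧ AtypB c k' ε Lam p R L0 θ τ) ∧
    (R : ℝ) ≤ A * (1 / ε) ^ A ∧ (L0 : ℝ) ≤ A * (1 / ε) ^ A ∧ ε ^ A / A ≤ θ ∧ ε ^ A / A ≤ τ

/-- the constants of L3 do not depend on ε -/
theorem denB {κ : ℝ} {C : ℕ} (hκ : 0 < κ) (k' : ℕ) {δ : ℝ} (hδ : 0 < δ) : ∃ p : ℝ, 0 < p ∧ ∀ (ε Lam : ℝ) (R L0 : ℕ) (θ τ : ℝ),
    k' ≤ L0 → AtypB (κ / 4) k' ε Lam p R L0 θ τ → ∀ L, L0 ≤ L → ∀ φ : List Bool → ℝ, (∀ g, 0 ≤ φ g) →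
    ∃ ms : ℝ, 0 ≤ ms ∧ gf {t | t ∈ WL (L + 16) ∧ t ∈ Fac ({Q | Q ∉ Nz κ C (L - k')} \
      TLf R (PW.mZ (2 ^ L)) (τ * PW.mZ (2 ^ L)) Lam θ ε ms φ)} ≤ ENNReal.ofReal δ * FK L := by
  obtain ⟨C1, hC1, h1⟩ := tip_WL (κ / 4) (by positivity)
  obtain ⟨C2, hC2, h2⟩ := ymassG (κ / 4) (k' + 22) (by positivity)
  obtain ⟨D, hD, h3⟩ := EnsW.ref_up
  obtain ⟨p, hp⟩ : ∃ p : ℝ, p = δ * (κ / 4) / (C1 * C2 * D ^ 16) := ⟨_, rfl⟩
  have hD0 : 0 < D := by linarith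
  have hp0 : 0 < p := by
    rw [hp]
    positivity
  refine ⟨p, hp0, fun ε Lam R L0 θ τ hk hA L hL φ hφ => ?_⟩
  obtain ⟨Ng, hNg, hNc, hA⟩ := hA L hL
  obtain ⟨ms, hms, hA⟩ := hA φ hφ
  refine ⟨ms, hms, ?_⟩
  obtain ⟨b, hb⟩ : ∃ b, b = L - k' := ⟨_, rfl⟩
  rw [← hb] at hNc ⊢
  have hbL : b + (k' + 22) = L + 22 := by omega
  have hU := Ub_pos b
  set At : Set (List Bool) := {V | V ∈ Ir (R * Ng) ∧ ¬ ∃ gs : List (List Bool), gs.length = R ∧ V = gs.flatten ∧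
        Typ (PW.mZ (2 ^ L)) (τ * PW.mZ (2 ^ L)) Lam θ ε ms φ gs} with hAt
  set YB : Set (List Bool) := {Y | Y ∈ SA ∧ rev Y ∈ GT b (κ / 4) ∧ In (2 ^ (b + (k' + 22))) Y} with hYB
  set G : Set (List Bool) := {t | t ∈ WL (L + 16) ∧ t ∈ Fac ({Q | Q ∉ Nz κ C b} \
      TLf R (PW.mZ (2 ^ L)) (τ * PW.mZ (2 ^ L)) Lam θ ε ms φ)} with hG
  have hM : gf {u | ∃ V ∈ At, ∃ B ∈ YB, u = V ++ B} ≤ ENNReal.ofReal p * (ENNReal.ofReal (C2 * Ub b) * Xb b) :=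
    (gf_le_mul fun t ht => ht).trans (mul_le_mul' hA (h2 b))
  have hdc := dc (G := G) (X := WL (L + 16) ∩ GT b (κ / 4)) (Y := fun _ => {u | ∃ V ∈ At, ∃ B ∈ YB, u = V ++ B})
    (M := ENNReal.ofReal p * (ENNReal.ofReal (C2 * Ub b) * Xb b)) (c := ENNReal.ofReal (κ / 4 * Ub b))
    (fun _ _ => hM) (by
      rintro t ⟨htW, X, Q, Y, ht, hQN, hQT⟩
      have h5 : ¬ ∀ X Z Y, Q = X ++ (Z ++ Y) → Y ≠ [] → Z ∉ Zc κ C b := hQN
      push Not at h5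
      obtain ⟨X1, Z, Y1, hQ, -, hZ⟩ := h5
      obtain ⟨S, hS, hSq⟩ := rich_leaves (t := t) (X := X ++ X1) (Y := Y1 ++ Y) hκ (by
        rw [ht, hQ]
        simp only [List.append_assoc]) hZ hNc
      refine ⟨S, ?_, fun q hq => ?_⟩
      · rw [← ENNReal.ofReal_natCast]
        exact ENNReal.ofReal_le_ofReal hS
      · obtain ⟨A, V, B, Z', Z'', e1, e2, hV, hA1, hB1, e3⟩ := hSq q hq
        have hql : q ≤ t.length := by
          rw [e1, ← e2, List.length_append]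
          omega
        have et : t.take q = A := by
          rw [e1, ← e2, List.take_left']
          rfl
        have ed : t.drop q = V ++ B := by
          rw [e1, ← e2, List.drop_left']
          rfl
        refine ⟨hql, ⟨take_WL' htW q, by rw [et]; exact hA1⟩, ?_⟩
        rw [ed]
        refine ⟨V, ⟨hV, ?_⟩, B, ?_, rfl⟩
        · rintro ⟨gs, hgs, hV2, hT⟩
          refine hQT ⟨X1 ++ Z', gs, Z'' ++ Y1, ?_, hgs, hT⟩
          rw [hQ, e3, hV2]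
          simp only [List.append_assoc]
        · have eB : t.drop (q + V.length) = B := by
            rw [← List.drop_drop, ed, List.drop_left']
            rfl
          have hBW : B ∈ WL (L + 16 + 3) := by
            rw [← eB]
            refine NgC.drop_box htW ?_
            have := congrArg List.length ed
            rw [List.length_drop, List.length_append] at this
            omega
          refine ⟨hBW.1, hB1, ?_⟩
          have h6 := SLW.in_WL hBW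
          rw [hbL]
          exact h6)
  have hX0 : Xb b ≠ 0 := Xb_ne_zero b
  have hXt : Xb b ≠ ⊤ := Xb_ne_top b
  have hT := h1 (L + 16) b (by omega)
  have hF : ENNReal.ofReal (Ub (L + 16)) * Xb (L + 16) ^ 2 ≤ ENNReal.ofReal (D ^ 16) * FK L := h3 L 16
  have h6 : ENNReal.ofReal (κ / 4 * Ub b) * gf G ≤ ENNReal.ofReal (κ / 4 * Ub b) * (ENNReal.ofReal δ * FK L) := by
    calc _ ≤ _ := hdc
      _ = (gf (WL (L + 16) ∩ GT b (κ / 4)) * Xb b) * (ENNReal.ofReal p * ENNReal.ofReal (C2 * Ub b)) := by ring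
      _ ≤ (ENNReal.ofReal (C1 * Ub (L + 16)) * Xb (L + 16) ^ 2) * (ENNReal.ofReal p * ENNReal.ofReal (C2 * Ub b)) :=
          mul_le_mul' hT le_rfl
      _ = (ENNReal.ofReal (Ub (L + 16)) * Xb (L + 16) ^ 2) *
          (ENNReal.ofReal C1 * (ENNReal.ofReal p * ENNReal.ofReal (C2 * Ub b))) := by
          rw [ENNReal.ofReal_mul hC1.le]
          ring
      _ ≤ (ENNReal.ofReal (D ^ 16) * FK L) * (ENNReal.ofReal C1 * (ENNReal.ofReal p * ENNReal.ofReal (C2 * Ub b))) :=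
          mul_le_mul' hF le_rfl
      _ = ENNReal.ofReal (D ^ 16 * (C1 * (p * (C2 * Ub b)))) * FK L := by
          rw [ENNReal.ofReal_mul (p := D ^ 16) (by positivity), ENNReal.ofReal_mul (p := C1) (by positivity),
            ENNReal.ofReal_mul (p := p) (by positivity)]
          ring
      _ = ENNReal.ofReal (κ / 4 * Ub b * δ) * FK L := by
          congr 2
          rw [hp]
          field_simp
      _ = _ := by
          rw [ENNReal.ofReal_mul (by positivity)]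
          ring
  refine (ENNReal.mul_le_mul_iff_right ?_ ENNReal.ofReal_ne_top).1 h6
  rw [Ne, ENNReal.ofReal_eq_zero, not_le]
  positivity

/-- **Q3** from Q2 -/
theorem leafQ_of {κ : ℝ} {C : ℕ} (hκ : 0 < κ) (hR : RegZ κ C) (hA : AtypQ) : LeafQ := by
  intro δ Lam hδ hLam
  obtain ⟨k', L1, -, -, h1⟩ := noZ timeF hR (δ / 2) 0 (by positivity)
  obtain ⟨p, hp, hD⟩ := denB (C := C) hκ k' (half_pos hδ)
  obtain ⟨A, hA1, hA⟩ := hA (κ / 4) k' Lam p (by positivity) hLam hp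
  refine ⟨A + L1, by omega, fun ε hε hε1 => ?_⟩
  obtain ⟨R, L2, θ, τ, ⟨hR1, hk, -, -, hτ1, hB⟩, hR2, hL2, hθ, hτ⟩ := hA ε hε hε1
  have hAr : (1 : ℝ) ≤ A := by exact_mod_cast hA1
  have h1e : 1 ≤ 1 / ε := by
    rw [le_div_iff₀ hε]
    linarith
  have hp1 : (1 / ε) ^ A ≤ (1 / ε) ^ (A + L1) := pow_le_pow_right₀ h1e (by omega)
  have hp0 : (0 : ℝ) < (1 / ε) ^ A := by positivity
  have hp2 : (1 : ℝ) ≤ (1 / ε) ^ (A + L1) := one_le_pow₀ h1e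
  have hL1 : (0 : ℝ) ≤ L1 := Nat.cast_nonneg _
  have hup : (A : ℝ) * (1 / ε) ^ A ≤ ((A + L1 : ℕ) : ℝ) * (1 / ε) ^ (A + L1) := by
    push_cast
    exact mul_le_mul (by linarith) hp1 hp0.le (by linarith)
  have hlo : ε ^ (A + L1) / ((A + L1 : ℕ) : ℝ) ≤ ε ^ A / A := by
    refine div_le_div₀ (by positivity) (pow_le_pow_of_le_one hε.le hε1 (by omega)) (by linarith) ?_
    push_cast
    linarith
  refine ⟨R, max L1 L2, θ, τ, hR1, hR2.trans hup, ?_, hlo.trans hθ, hlo.trans hτ, hτ1, fun L hL φ hφ => ?_⟩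
  · rw [Nat.cast_max]
    refine max_le ?_ (hL2.trans hup)
    push_cast
    calc (L1 : ℝ) ≤ ((A : ℝ) + L1) * 1 := by linarith
      _ ≤ _ := mul_le_mul_of_nonneg_left hp2 (by linarith)
  · obtain ⟨ms, hms, h3⟩ := hD ε Lam R L2 θ τ hk hB L ((le_max_right _ _).trans hL) φ hφ
    refine ⟨ms, hms, ?_⟩
    have h4 := h1 L ((le_max_left _ _).trans hL)
    have hsub : {t | t ∈ WL (L + 16) ∧ t ∈ Fac (Mid L (ML L) \
          TLf R (PW.mZ (2 ^ L)) (τ * PW.mZ (2 ^ L)) Lam θ ε ms φ)} ⊆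
        {t | t ∈ WL (L + 16) ∧ t ∈ Fac (Mid L (ML L) ∩ Nz κ C (L - k'))} ∪
          {t | t ∈ WL (L + 16) ∧ t ∈ Fac ({Q | Q ∉ Nz κ C (L - k')} \
            TLf R (PW.mZ (2 ^ L)) (τ * PW.mZ (2 ^ L)) Lam θ ε ms φ)} := by
      rintro t ⟨ht, X, Q, Y, rfl, hQ1, hQ2⟩
      by_cases hz : Q ∈ Nz κ C (L - k')
      · exact Or.inl ⟨ht, X, Q, Y, rfl, hQ1, hz⟩
      · exact Or.inr ⟨ht, X, Q, Y, rfl, hz, hQ2⟩
    refine (gf_mono hsub).trans ((gf_union_le _ _).trans ((add_le_add h4 h3).trans (le_of_eq ?_)))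
    rw [← add_mul, ← ENNReal.ofReal_add (by positivity) (by positivity)]
    congr 2
    ring

end NPR

end HexObs
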