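import Pool.Agent.NPR.GroupQ
import Pool.Agent.NPR.LeafQ

/-!
# NPR / ERG, row Q2 (helper28): the row L2 with polynomial constants

* `atyp_core` : Chebyshev for R groups at one scale;
* **`atypQ : AtypQ`** (`AtypQ`, NPR/LeafQ.lean : AtypM with R, L0, 1 / θ, 1 / τ at most A (1 / ε) ^ A, A depends on c, k', Lam, p).
-/

set_option autoImplicit false

namespace HexObs

namespace NPR

open Finset TS SDN TIW NTA TIP MeasureTheory

open scoped ENNReal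

section

local instance : MeasurableSpace (List Bool) := ⊤

local instance : MeasurableSingletonClass (List Bool) := ⟨fun _ => trivial⟩

/-- Chebyshev for R groups at one scale, M = the length scale -/
lemma atyp_core {c0 lam ε Lam p c1 M q d1 d2 : ℝ} {R Ng : ℕ} (hc0 : 0 < c0) (hlam : 1 ≤ lam) (hε : 0 < ε) (hLam : 0 < Lam)
    (hp : 0 < p) (hc1 : 0 < c1) (hM0 : 0 < M) (hq : q = lam / c0) (hd10 : 0 < d1) (hd1h : d1 ≤ 1 / 2)
    (hd1e : d1 ≤ ε / (4 * (Lam * q))) (hd2 : d2 = ε / 4) (hR1 : 1 ≤ R) (hRa : 2 * q ^ 2 / (d1 ^ 2 * p) ≤ R)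
    (hRb : 2 * (Lam * q) ^ 2 / (d2 ^ 2 * p) ≤ R)
    (hmass : ENNReal.ofReal c0 ≤ gf {V | V ∈ Ir Ng ∧ c1 * M ≤ (V.length : ℝ) ∧ (V.length : ℝ) ≤ lam * c1 * M})
    (φ : List Bool → ℝ) (hφ : ∀ g, 0 ≤ φ g) : ∃ ms : ℝ, 0 ≤ ms ∧
      gf {V | V ∈ Ir (R * Ng) ∧ ¬ ∃ gs : List (List Bool), gs.length = R ∧ V = gs.flatten ∧
        Typ M (lam * c1 * M) Lam (c0 * c1 / 2) ε ms φ gs} ≤ ENNReal.ofReal p := by
  classical
  have hq0 : 0 < q := by rw [hq]; positivity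
  have hd20 : 0 < d2 := by rw [hd2]; positivity
  have hR0 : (0 : ℝ) < R := by exact_mod_cast hR1
  obtain ⟨T0, hT0⟩ : ∃ T0 : ℝ, T0 = lam * c1 * M := ⟨_, rfl⟩
  have hT : 0 < T0 := by rw [hT0]; positivity
  rw [← hT0] at hmass ⊢
  have hLT : 0 ≤ Lam * T0 := by positivity
  obtain ⟨μ, hμ⟩ : ∃ μ : Measure (List Bool), μ = (lawG Ng).toMeasure := ⟨_, rfl⟩
  have : IsProbabilityMeasure μ := by rw [hμ]; infer_instance
  obtain ⟨e1, he1⟩ : ∃ e1 : ℝ, e1 = ∫ g, fT T0 g ∂μ := ⟨_, rfl⟩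
  obtain ⟨e2, he2⟩ : ∃ e2 : ℝ, e2 = ∫ g, fV T0 Lam φ g ∂μ := ⟨_, rfl⟩
  have hmeas : ∀ f : List Bool → ℝ, Measurable f := fun f => measurable_of_countable f
  have hint : ∀ (f : List Bool → ℝ) (B : ℝ), (∀ g, |f g| ≤ B) → Integrable f μ := by
    intro f B hB
    exact Integrable.of_bound (hmeas f).aestronglyMeasurable B (Filter.Eventually.of_forall fun g => by
      rw [Real.norm_eq_abs]; exact hB g)
  have hfT : ∀ g, |fT T0 g| ≤ T0 := fun g => abs_le_of_mem (fT_nonneg T0 g) (fT_le hT.le g)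
  have hfV : ∀ g, |fV T0 Lam φ g| ≤ Lam * T0 := fun g => abs_le_of_mem (fV_nonneg hLT hφ g) (fV_le hLT φ g)
  have he1l : c0 * (c1 * M) ≤ e1 := by
    obtain ⟨W, hW⟩ : ∃ W : Set (List Bool), W = {V | c1 * M ≤ (V.length : ℝ) ∧ (V.length : ℝ) ≤ T0} := ⟨_, rfl⟩
    have h1 : ENNReal.ofReal c0 ≤ μ W := by
      rw [hμ, lawG_set, hW]
      exact hmass
    have h2 : c0 ≤ μ.real W := by
      rw [Measure.real, ← ENNReal.ofReal_le_iff_le_toReal (measure_ne_top μ W)]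
      exact h1
    have hWm : MeasurableSet W := trivial
    have h3 : ∫ g, W.indicator (fun _ => c1 * M) g ∂μ ≤ e1 := by
      rw [he1]
      refine integral_mono ((integrable_const (c1 * M)).indicator hWm) (hint _ _ hfT) fun g => ?_
      by_cases hg : g ∈ W
      · rw [Set.indicator_of_mem hg]
        have hg' := hg
        rw [hW] at hg'
        unfold fT
        rw [if_pos hg'.2]
        exact hg'.1
      · rw [Set.indicator_of_notMem hg]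
        exact fT_nonneg T0 g
    rw [integral_indicator_const _ hWm, smul_eq_mul] at h3
    exact (mul_le_mul_of_nonneg_right h2 (by positivity)).trans h3
  have he10 : 0 < e1 := lt_of_lt_of_le (by positivity) he1l
  have he20 : 0 ≤ e2 := by rw [he2]; exact integral_nonneg fun g => fV_nonneg hLT hφ g
  have he2l : e2 ≤ Lam * T0 := by
    rw [he2]
    have h1 := integral_mono (hint _ _ hfV) (integrable_const (μ := μ) (Lam * T0)) fun g => fV_le hLT φ g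
    rwa [integral_const, probReal_univ, one_smul] at h1
  have hTq : T0 / e1 ≤ q := by
    rw [div_le_iff₀ he10, hq, hT0]
    calc lam * c1 * M = lam / c0 * (c0 * (c1 * M)) := by field_simp
      _ ≤ lam / c0 * e1 := mul_le_mul_of_nonneg_left he1l (by positivity)
  refine ⟨e2 / e1, by positivity, ?_⟩
  refine (gf_groups R Ng (fun gs => Typ M T0 Lam (c0 * c1 / 2) ε (e2 / e1) φ gs)).trans ?_
  rw [← hμ]
  have hA := cheb μ hfT R (s := d1 * (R * e1)) (by positivity)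
  have hB := cheb μ hfV R (s := d2 * (R * e1)) (by positivity)
  rw [← he1] at hA
  rw [← he2] at hB
  have hsub : {v : Fin R → List Bool | ¬ Typ M T0 Lam (c0 * c1 / 2) ε (e2 / e1) φ (List.ofFn v)} ⊆
      {v | d1 * (R * e1) ≤ |∑ i, fT T0 (v i) - R * e1|} ∪ {v | d2 * (R * e1) ≤ |∑ i, fV T0 Lam φ (v i) - R * e2|} := by
    intro v hv
    by_contra hcon
    rw [Set.mem_union, not_or] at hcon
    obtain ⟨h1, h2⟩ := hcon
    have h1 : |∑ i, fT T0 (v i) - R * e1| < d1 * (R * e1) := not_le.1 h1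
    have h2 : |∑ i, fV T0 Lam φ (v i) - R * e2| < d2 * (R * e1) := not_le.1 h2
    apply hv
    show c0 * c1 / 2 * M ≤ sT T0 (List.ofFn v) ∧ |sV T0 Lam φ (List.ofFn v) - e2 / e1 * sT T0 (List.ofFn v)| ≤
      ε * sT T0 (List.ofFn v)
    rw [sT_ofFn, sV_ofFn]
    have hms : e2 / e1 * d1 + d2 ≤ ε / 2 := by
      have h3 : e2 / e1 ≤ Lam * q := by
        calc e2 / e1 ≤ Lam * T0 / e1 := div_le_div_of_nonneg_right he2l he10.le
          _ = Lam * (T0 / e1) := by ring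
          _ ≤ Lam * q := mul_le_mul_of_nonneg_left hTq hLam.le
      have h4 : d1 ≤ ε / (4 * (Lam * q)) := hd1e
      have h5 : e2 / e1 * d1 ≤ Lam * q * (ε / (4 * (Lam * q))) := mul_le_mul h3 h4 hd10.le (by positivity)
      have h6 : Lam * q * (ε / (4 * (Lam * q))) = ε / 4 := by field_simp
      linarith
    obtain ⟨h3, h4⟩ := typ_det (by exact_mod_cast hR1) he10 he20 (hd1h) hms hε h1 h2
    refine ⟨?_, h4⟩
    calc c0 * c1 / 2 * M = c0 * (c1 * M) / 2 := by ring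
      _ ≤ e1 / 2 := by linarith
      _ ≤ _ := h3
  refine (measure_mono hsub).trans ((measure_union_le _ _).trans ((add_le_add hA hB).trans ?_))
  rw [← ENNReal.ofReal_add (by positivity) (by positivity)]
  refine ENNReal.ofReal_le_ofReal ?_
  have hbd : ∀ B d b : ℝ, 0 ≤ B → B / e1 ≤ b → 0 < d → 2 * b ^ 2 / (d ^ 2 * p) ≤ R →
      R * B ^ 2 / (d * (R * e1)) ^ 2 ≤ p / 2 := by
    intro B d b hB0 hB hd hR'
    rw [div_le_iff₀ (by positivity)] at hR'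
    have h1 : R * B ^ 2 / (d * (R * e1)) ^ 2 = (B / e1) ^ 2 / (d ^ 2 * R) := by field_simp
    rw [h1, div_le_iff₀ (by positivity)]
    have h2 : (B / e1) ^ 2 ≤ b ^ 2 := pow_le_pow_left₀ (by positivity) hB 2
    nlinarith
  have hF1 := hbd T0 d1 q hT.le hTq hd10 hRa
  have hF2 := hbd (Lam * T0) d2 (Lam * q) hLT (by
    rw [mul_div_assoc]
    exact mul_le_mul_of_nonneg_left hTq hLam.le) hd20 hRb
  linarith

end

/-- **Q2** from Q1 -/
theorem atypQ_of (h : GroupQ) : AtypQ := by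
  obtain ⟨c0, lam, hc0, hlam, h⟩ := h
  intro c k' Lam p hc hLam hp
  obtain ⟨A1, hA1, h⟩ := h k'
  obtain ⟨q, hq⟩ : ∃ q : ℝ, q = lam / c0 := ⟨_, rfl⟩
  have hq0 : 0 < q := by rw [hq]; positivity
  obtain ⟨m1, hm1⟩ : ∃ m1 : ℝ, m1 = min (1 / 2) (1 / (4 * (Lam * q))) := ⟨_, rfl⟩
  have hm10 : 0 < m1 := by rw [hm1]; exact lt_min (by norm_num) (by positivity)
  obtain ⟨a1, ha1⟩ : ∃ a1 : ℝ, a1 = 2 * q ^ 2 / (m1 ^ 2 * p) := ⟨_, rfl⟩
  obtain ⟨a2, ha2⟩ : ∃ a2 : ℝ, a2 = 32 * (Lam * q) ^ 2 / p := ⟨_, rfl⟩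
  have ha10 : 0 < a1 := by rw [ha1]; positivity
  have ha20 : 0 < a2 := by rw [ha2]; positivity
  obtain ⟨cm, hcm⟩ : ∃ cm : ℝ, cm = min c 1 := ⟨_, rfl⟩
  have hcm0 : 0 < cm := by rw [hcm]; exact lt_min hc one_pos
  have hcm1 : cm ≤ 1 := by rw [hcm]; exact min_le_right _ _
  have hcmc : cm ≤ c := by rw [hcm]; exact min_le_left _ _
  obtain ⟨a4, ha4⟩ : ∃ a4 : ℝ, a4 = (a1 + a2 + 3) / cm := ⟨_, rfl⟩
  have ha40 : 0 < a4 := by rw [ha4]; positivity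
  have hA10 : (0 : ℝ) < A1 := by exact_mod_cast hA1
  obtain ⟨N, hN⟩ := exists_nat_ge (a1 + a2 + 3 + A1 * a4 ^ A1 + 2 * (A1 * a4 ^ A1) / c0)
  have hp4 : 0 < A1 * a4 ^ A1 := by positivity
  have hp5 : 0 < 2 * (A1 * a4 ^ A1) / c0 := by positivity
  refine ⟨N + 2 * A1 + 2, by omega, fun ε hε hε1 => ?_⟩
  have hx1 : 1 ≤ 1 / ε := by rw [le_div_iff₀ hε, one_mul]; exact hε1
  have hx0 : 0 < 1 / ε := by positivity
  obtain ⟨R, hR⟩ : ∃ R : ℕ, R = ⌈a1 * (1 / ε) ^ 2⌉₊ + ⌈a2 * (1 / ε) ^ 2⌉₊ + 1 := ⟨_, rfl⟩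
  have hR1 : 1 ≤ R := by omega
  have hR0 : (0 : ℝ) < R := by exact_mod_cast hR1
  have hRa : a1 * (1 / ε) ^ 2 ≤ R := by
    refine (Nat.le_ceil _).trans ?_
    exact_mod_cast (show _ ≤ R by omega)
  have hRb : a2 * (1 / ε) ^ 2 ≤ R := by
    refine (Nat.le_ceil _).trans ?_
    exact_mod_cast (show _ ≤ R by omega)
  have hx2 : 1 ≤ (1 / ε) ^ 2 := one_le_pow₀ hx1
  have hRup : (R : ℝ) ≤ (a1 + a2 + 3) * (1 / ε) ^ 2 := by
    have b1 := (Nat.ceil_lt_add_one (show 0 ≤ a1 * (1 / ε) ^ 2 by positivity)).le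
    have b2 := (Nat.ceil_lt_add_one (show 0 ≤ a2 * (1 / ε) ^ 2 by positivity)).le
    rw [hR]
    push_cast
    nlinarith
  obtain ⟨c', hc'⟩ : ∃ c' : ℝ, c' = cm / R := ⟨_, rfl⟩
  have hc'0 : 0 < c' := by rw [hc']; positivity
  have hR1' : (1 : ℝ) ≤ R := by exact_mod_cast hR1
  have hc'1 : c' ≤ 1 := by
    rw [hc', div_le_one hR0]
    exact hcm1.trans hR1'
  have hci : 1 / c' ≤ a4 * (1 / ε) ^ 2 := by
    rw [hc', one_div_div, ha4, div_mul_eq_mul_div]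
    exact div_le_div_of_nonneg_right hRup hcm0.le
  have hciA : (1 / c') ^ A1 ≤ a4 ^ A1 * (1 / ε) ^ (2 * A1) := by
    calc (1 / c') ^ A1 ≤ (a4 * (1 / ε) ^ 2) ^ A1 := pow_le_pow_left₀ (by positivity) hci _
      _ = _ := by rw [mul_pow, ← pow_mul]
  obtain ⟨c1, L0, hc1, hc1l, hL0, hlc, hkL, h⟩ := h c' hc'0 hc'1
  -- c1 from below
  have hc1i : 1 / c1 ≤ A1 * a4 ^ A1 * (1 / ε) ^ (2 * A1) := by
    have b1 : 1 / c1 ≤ A1 * (1 / c') ^ A1 := by
      rw [div_le_iff₀ hc1]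
      have b2 : 0 < (1 / c') ^ A1 := by positivity
      have b3 : c' ^ A1 * (1 / c') ^ A1 = 1 := by
        rw [← mul_pow, mul_one_div_cancel hc'0.ne', one_pow]
      rw [div_le_iff₀ hA10] at hc1l
      calc 1 = c' ^ A1 * (1 / c') ^ A1 := b3.symm
        _ ≤ c1 * A1 * (1 / c') ^ A1 := mul_le_mul_of_nonneg_right hc1l b2.le
        _ = _ := by ring
    refine b1.trans ?_
    rw [mul_assoc]
    exact mul_le_mul_of_nonneg_left hciA hA10.le
  have hinv : ∀ θ : ℝ, 0 < θ → 1 / θ ≤ ((N + 2 * A1 + 2 : ℕ) : ℝ) * (1 / ε) ^ (N + 2 * A1 + 2) →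
      ε ^ (N + 2 * A1 + 2) / ((N + 2 * A1 + 2 : ℕ) : ℝ) ≤ θ := by
    intro θ hθ hle
    have b0 : (0 : ℝ) < ((N + 2 * A1 + 2 : ℕ) : ℝ) := by positivity
    rw [div_le_iff₀ b0]
    rw [div_le_iff₀ hθ] at hle
    have b1 : 0 < ε ^ (N + 2 * A1 + 2) := by positivity
    have b3 : ε ^ (N + 2 * A1 + 2) * (1 / ε) ^ (N + 2 * A1 + 2) = 1 := by
      rw [← mul_pow, mul_one_div_cancel hε.ne', one_pow]
    calc ε ^ (N + 2 * A1 + 2) = ε ^ (N + 2 * A1 + 2) * 1 := (mul_one _).symm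
      _ ≤ ε ^ (N + 2 * A1 + 2) * (((N + 2 * A1 + 2 : ℕ) : ℝ) * (1 / ε) ^ (N + 2 * A1 + 2) * θ) :=
          mul_le_mul_of_nonneg_left hle b1.le
      _ = ε ^ (N + 2 * A1 + 2) * (1 / ε) ^ (N + 2 * A1 + 2) * (θ * ((N + 2 * A1 + 2 : ℕ) : ℝ)) := by ring
      _ = _ := by rw [b3, one_mul]
  have hNr : a1 + a2 + 3 + A1 * a4 ^ A1 + 2 * (A1 * a4 ^ A1) / c0 ≤ ((N + 2 * A1 + 2 : ℕ) : ℝ) := by
    push_cast
    linarith
  refine ⟨R, L0, c0 * c1 / 2, lam * c1, ⟨hR1, hkL, by positivity, by positivity, hlc, fun L hL => ?_⟩, ?_, ?_,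
    hinv _ (by positivity) ?_, hinv _ (by positivity) ?_⟩
  · obtain ⟨Ng, hNg, hNc, hmass⟩ := h L hL
    refine ⟨Ng, hNg, ?_, fun φ hφ => ?_⟩
    · push_cast
      have hUL : 0 < Ub (L - k') := one_le_Ub _ |>.trans_lt' one_pos
      calc (R : ℝ) * Ng ≤ R * (c' * Ub (L - k')) := mul_le_mul_of_nonneg_left hNc hR0.le
        _ = cm * Ub (L - k') := by rw [hc']; field_simp
        _ ≤ c * Ub (L - k') := mul_le_mul_of_nonneg_right hcmc hUL.le
    · refine atyp_core (d1 := ε * m1) (d2 := ε / 4) hc0 hlam hε hLam hp hc1 (PW.mZ_pos Nat.one_le_two_pow) hq (by positivity) ?_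
        ?_ rfl hR1 ?_ ?_ hmass φ hφ
      · have : m1 ≤ 1 / 2 := by rw [hm1]; exact min_le_left _ _
        nlinarith
      · have b1 : m1 ≤ 1 / (4 * (Lam * q)) := by rw [hm1]; exact min_le_right _ _
        calc ε * m1 ≤ ε * (1 / (4 * (Lam * q))) := mul_le_mul_of_nonneg_left b1 hε.le
          _ = _ := by rw [mul_one_div]
      · refine le_trans (le_of_eq ?_) hRa
        rw [ha1]
        field_simp
      · refine le_trans (le_of_eq ?_) hRb
        rw [ha2]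
        field_simp
        ring
  · exact hRup.trans (pol_le hx1 (by linarith) (by omega))
  · calc (L0 : ℝ) ≤ A1 * (1 / c') ^ A1 := hL0
      _ ≤ A1 * a4 ^ A1 * (1 / ε) ^ (2 * A1) := by
        rw [mul_assoc]
        exact mul_le_mul_of_nonneg_left hciA hA10.le
      _ ≤ _ := pol_le hx1 (by linarith) (by omega)
  · calc 1 / (c0 * c1 / 2) = 2 / c0 * (1 / c1) := by field_simp
      _ ≤ 2 / c0 * (A1 * a4 ^ A1 * (1 / ε) ^ (2 * A1)) := mul_le_mul_of_nonneg_left hc1i (by positivity)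
      _ = 2 * (A1 * a4 ^ A1) / c0 * (1 / ε) ^ (2 * A1) := by ring
      _ ≤ _ := pol_le hx1 (by linarith) (by omega)
  · calc 1 / (lam * c1) ≤ 1 / c1 := by
          refine one_div_le_one_div_of_le hc1 ?_
          nlinarith
      _ ≤ A1 * a4 ^ A1 * (1 / ε) ^ (2 * A1) := hc1i
      _ ≤ _ := pol_le hx1 (by linarith) (by omega)

/-- **Q2**, no hypothesis -/
theorem atypQ : AtypQ := atypQ_of groupQ

end NPR

end HexObs
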