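import Pool.Agent.NPR.Dist
import Pool.Agent.NPR.Wd

/-!
# NPR: the laws converge iff the ratios of the numbers of walks converge (helper34)

* `frac n F t` : the fraction of the walks with `n` steps all of whose rescaled positions are at distance more than `t` from
  the points of the finite set `F`;
* `ratio_iff` : the laws of `X_n` converge weakly iff for every finite set `F` of points of the plane and all but countably
  many `t > 0` the ratio `frac n F t` has a limit.
-/

set_option autoImplicit false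

open Set Filter Topology MeasureTheory
open scoped ENNReal

namespace Pool.Agent.NPR

open Pool.Agent.NTS.Res
open NTF (open_le cont_eval)

open Classical in
/-- The fraction of the walks with `n` steps all of whose rescaled positions are at distance more than `t` from the points
of the finite set `F`. -/
noncomputable def frac (n : ℕ) (F : Finset ℂ) (t : ℝ) : ℝ :=
  (((saw n).filter fun s => ∀ k : ℕ, k ≤ n → ∀ z ∈ F, t < ‖pos s k / size n - z‖).card : ℝ) / ((saw n).card : ℝ)

open Classical in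
lemma law_real (n : ℕ) (E : Set C(unitInterval, ℂ)) :
    (law n).real E = (((saw n).filter fun s => curve s ∈ E).card : ℝ) / ((saw n).card : ℝ) := by
  unfold Measure.real
  rw [NTSF.law_apply, ENNReal.toReal_mul, ENNReal.toReal_inv, ENNReal.toReal_natCast, ENNReal.toReal_natCast]
  rw [div_eq_inv_mul]

section

variable {n : ℕ} (hn : 1 ≤ n) {F : Finset ℂ} (hF : F.Nonempty)

include hn

lemma frac_ge (t : ℝ) : (law n).real {γ | t < dF F γ} ≤ frac n F t := by
  classical
  rw [law_real]
  unfold frac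
  refine div_le_div_of_nonneg_right ?_ (Nat.cast_nonneg _)
  refine Nat.cast_le.2 (Finset.card_le_card ?_)
  intro s hs
  rw [Finset.mem_filter] at hs ⊢
  refine ⟨hs.1, fun k hk z hz => ?_⟩
  have hn0 : (0 : ℝ) < n := by exact_mod_cast hn
  have hk' : (k : ℝ) ≤ n := by exact_mod_cast hk
  obtain ⟨u, hu⟩ : ∃ u : unitInterval, (u : ℝ) = k / n :=
    ⟨⟨k / n, by positivity, by rw [div_le_one hn0]; exact hk'⟩, rfl⟩
  have h1 := curve_int hn s (j := k) (u := u) (by rw [hu]; field_simp)
  have h2 : t < dF F (curve s) := hs.2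
  have h3 := dF_le hz (curve s) u
  rw [h1, dist_eq_norm] at h3
  exact h2.trans_le h3

include hF

lemma dF_ge_of {s : Fin n → Fin 3} {t : ℝ} (h : ∀ k : ℕ, k ≤ n → ∀ z ∈ F, t < ‖pos s k / size n - z‖) :
    t - 1 / size n ≤ dF F (curve s) := by
  refine le_dF hF fun z hz u => ?_
  have hs := NTSF.size_pos hn
  obtain ⟨i, a, hi, ha0, ha1, -, -, he⟩ := NTSF.curve_apply hn s u
  have h1 : dist (curve s u) (pos s i / size n) ≤ 1 / size n := by
    have e : curve s u - pos s i / size n = (a : ℂ) * (pos s (i + 1) - pos s i) / size n := by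
      rw [he]
      push_cast
      ring
    rw [dist_eq_norm, e, norm_div, norm_mul, Complex.norm_of_nonneg ha0, Complex.norm_of_nonneg hs.le,
      ← dist_eq_norm, dist_comm, pos_dist_step s hi, mul_one]
    exact div_le_div_of_nonneg_right ha1 hs.le
  have h2 := h i hi.le z hz
  rw [← dist_eq_norm] at h2
  have h3 := dist_triangle_left (pos s i / (size n : ℂ)) z (curve s u)
  linarith

lemma frac_le {t t' : ℝ} (ht : t' < t - 1 / size n) : frac n F t ≤ (law n).real {γ | t' < dF F γ} := by
  classical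
  rw [law_real]
  unfold frac
  refine div_le_div_of_nonneg_right ?_ (Nat.cast_nonneg _)
  refine Nat.cast_le.2 (Finset.card_le_card ?_)
  intro s hs
  rw [Finset.mem_filter] at hs ⊢
  exact ⟨hs.1, ht.trans_le (dF_ge_of hn hF hs.2)⟩

end

/-- the probabilities at the points of continuity -/
lemma prob_lim {φ : ℕ → ℕ} {ν : Measure C(unitInterval, ℂ)} (hν : IsProbabilityMeasure ν) (hlim : LawTo φ ν)
    {F : Finset ℂ} (hF : F.Nonempty) {t : ℝ} (ht : ν {γ | dF F γ = t} = 0) :
    Tendsto (fun k => (law (φ k)).real {γ | t < dF F γ}) atTop (𝓝 (ν.real {γ | t < dF F γ})) := by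
  have hlim2 := (NTSF.lawTo_iff ⟨ν, hν⟩).1 hlim
  have hfr : ν (frontier {γ : C(unitInterval, ℂ) | t < dF F γ}) = 0 := by
    refine measure_mono_null ?_ ht
    intro γ hγ
    exact (frontier_lt_subset_eq continuous_const (dF_cont hF) hγ).symm
  have h := ProbabilityMeasure.tendsto_measure_of_null_frontier_of_tendsto' hlim2 hfr
  exact (ENNReal.tendsto_toReal (measure_ne_top ν _)).comp h

/-- **the fractions converge along the sequences with a weak limit** -/
lemma frac_lim (hsz : Tendsto size atTop atTop) {φ : ℕ → ℕ} (hφ : Tendsto φ atTop atTop)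
    {ν : Measure C(unitInterval, ℂ)} (hν : IsProbabilityMeasure ν) (hlim : LawTo φ ν)
    {F : Finset ℂ} (hF : F.Nonempty) {t : ℝ} (ht : ν {γ | dF F γ = t} = 0) :
    Tendsto (fun k => frac (φ k) F t) atTop (𝓝 (ν.real {γ | t < dF F γ})) := by
  have hm : Measurable (dF F) := (dF_cont hF).measurable
  refine tendsto_order.2 ⟨fun a ha => ?_, fun b hb => ?_⟩
  · filter_upwards [(tendsto_order.1 (prob_lim hν hlim hF ht)).1 a ha, hφ.eventually_ge_atTop 1] with k hk hk1
    exact hk.trans_le (frac_ge hk1 t)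
  · -- a point of continuity below t
    have hc : {s : ℝ | 0 < ν {γ | dF F γ = s}}.Countable := Measure.countable_meas_level_set_pos hm
    obtain ⟨u, hu1, hu2, hu3⟩ := (hc.dense_compl ℝ).exists_seq_strictMono_tendsto t
    have hE : ⋂ j, {γ | u j < dF F γ} = {γ | t ≤ dF F γ} := by
      ext γ
      simp only [mem_iInter, mem_ofPred_eq]
      exact ⟨fun h => le_of_tendsto' hu3 fun j => (h j).le, fun h j => lt_of_lt_of_le (hu2 j).1 h⟩
    have h1 := tendsto_measure_iInter_atTop (μ := ν) (s := fun j => {γ | u j < dF F γ})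
      (fun j => (measurableSet_lt measurable_const hm).nullMeasurableSet)
      (fun i j hij γ hγ => lt_of_le_of_lt (hu1.monotone hij) hγ) ⟨0, measure_ne_top _ _⟩
    rw [hE] at h1
    have h2 : ν {γ | t ≤ dF F γ} = ν {γ | t < dF F γ} := by
      refine le_antisymm ?_ (measure_mono fun γ (hγ : t < dF F γ) => hγ.le)
      have h3 : {γ | t ≤ dF F γ} ⊆ {γ | t < dF F γ} ∪ {γ | dF F γ = t} := by
        intro γ hγ
        rcases lt_or_eq_of_le (show t ≤ dF F γ from hγ) with h | h
        · exact Or.inl h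
        · exact Or.inr h.symm
      refine (measure_mono h3).trans ((measure_union_le _ _).trans ?_)
      rw [ht, add_zero]
    rw [h2] at h1
    have h4 : Tendsto (fun j => ν.real {γ | u j < dF F γ}) atTop (𝓝 (ν.real {γ | t < dF F γ})) :=
      (ENNReal.tendsto_toReal (measure_ne_top ν _)).comp h1
    obtain ⟨j, hj⟩ := ((tendsto_order.1 h4).2 b hb).exists
    have hj2 : ν {γ | dF F γ = u j} = 0 := by
      have := (hu2 j).2
      by_contra hcon
      exact this (pos_iff_ne_zero.2 hcon)
    have hjt : u j < t := (hu2 j).1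
    have hsz2 : ∀ᶠ k in atTop, 1 / (t - u j) < size (φ k) := (hsz.comp hφ).eventually_gt_atTop _
    filter_upwards [(tendsto_order.1 (prob_lim hν hlim hF hj2)).2 b hj, hφ.eventually_ge_atTop 1, hsz2] with k hk hk1 hk2
    refine lt_of_le_of_lt (frac_le hk1 hF ?_) hk
    have h5 : 0 < t - u j := by linarith
    have h6 := NTSF.size_pos hk1
    rw [div_lt_iff₀ h5] at hk2
    have h7 : 1 / size (φ k) < t - u j := by
      rw [div_lt_iff₀ h6]
      linarith
    linarith

/-- the law of a distance is determined by the probabilities outside of a countable set -/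
lemma int_eq {ν ν' : Measure C(unitInterval, ℂ)} (hν : IsProbabilityMeasure ν) (hν' : IsProbabilityMeasure ν')
    {F : Finset ℂ} (hF : F.Nonempty) {S : Set ℝ} (hS : S.Countable)
    (h : ∀ t, 0 < t → t ∉ S → ν.real {γ | t < dF F γ} = ν'.real {γ | t < dF F γ})
    (f : BoundedContinuousFunction ℝ ℝ) : ∫ γ, f (dF F γ) ∂ν = ∫ γ, f (dF F γ) ∂ν' := by
  have hm : Measurable (dF F) := (dF_cont hF).measurable
  have i1 : IsProbabilityMeasure (ν.map (dF F)) := Measure.isProbabilityMeasure_map hm.aemeasurable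
  have i2 : IsProbabilityMeasure (ν'.map (dF F)) := Measure.isProbabilityMeasure_map hm.aemeasurable
  have e1 : ∀ (μ : Measure C(unitInterval, ℂ)) (t : ℝ), μ.map (dF F) (Ioi t) = μ {γ | t < dF F γ} := fun μ t => by
    rw [Measure.map_apply hm measurableSet_Ioi]
    rfl
  have h1 : ∀ t, 0 < t → t ∉ S → ν {γ | t < dF F γ} = ν' {γ | t < dF F γ} := fun t ht hts => by
    have := h t ht hts
    exact (ENNReal.toReal_eq_toReal_iff' (measure_ne_top _ _) (measure_ne_top _ _)).1 this
  have h2 : ∀ t, ν.map (dF F) (Ioi t) = ν'.map (dF F) (Ioi t) := by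
    intro t
    rcases lt_or_ge t 0 with h0 | h0
    · have e2 : {γ | t < dF F γ} = univ := eq_univ_of_forall fun γ => h0.trans_le (dF_nonneg hF γ)
      rw [e1, e1, e2, measure_univ, measure_univ]
    · obtain ⟨u, hu1, hu2, hu3⟩ := (hS.dense_compl ℝ).exists_seq_strictAnti_tendsto t
      have hE : Ioi t = ⋃ j, Ioi (u j) := by
        ext x
        simp only [mem_iUnion, mem_Ioi]
        exact ⟨fun hx => ((tendsto_order.1 hu3).2 x hx).exists, fun ⟨j, hj⟩ => (show t < u j from (hu2 j).1).trans hj⟩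
      have hmono : Monotone fun j => Ioi (u j) := fun i j hij => Ioi_subset_Ioi (hu1.antitone hij)
      rw [hE, hmono.measure_iUnion, hmono.measure_iUnion]
      refine iSup_congr fun j => ?_
      rw [e1, e1]
      exact h1 _ (h0.trans_lt (hu2 j).1) (hu2 j).2
  have h3 : ν.map (dF F) = ν'.map (dF F) := by
    refine Measure.ext_of_Iic _ _ fun t => ?_
    have e3 : Iic t = (Ioi t)ᶜ := by
      ext x
      simp
    rw [e3, prob_compl_eq_one_sub measurableSet_Ioi, prob_compl_eq_one_sub measurableSet_Ioi, h2]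
  rw [← integral_map hm.aemeasurable f.continuous.aestronglyMeasurable, h3,
    integral_map hm.aemeasurable f.continuous.aestronglyMeasurable]

/-- **the laws of `X_n` converge weakly iff the ratios of the numbers of walks converge** -/
theorem ratio_iff (hsz : Tendsto size atTop atTop) {ρ : ℕ → ℝ} (hρ : Scl ρ)
    (hsub : ∀ φ : ℕ → ℕ, StrictMono φ → ∃ ψ : ℕ → ℕ, StrictMono ψ ∧ ∃ ν : Measure C(unitInterval, ℂ),
      IsProbabilityMeasure ν ∧ LawTo (fun k => φ (ψ k)) ν)
    (hinj : ∀ (φ : ℕ → ℕ) (ν : Measure C(unitInterval, ℂ)), Tendsto φ atTop atTop → IsProbabilityMeasure ν → LawTo φ ν →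
      ∀ᵐ γ : C(unitInterval, ℂ) ∂ν, Function.Injective γ) :
    (∀ F : Finset ℂ, F.Nonempty → ∃ S : Set ℝ, S.Countable ∧ ∀ t : ℝ, 0 < t → t ∉ S →
      ∃ l : ℝ, Tendsto (fun n => frac n F t) atTop (𝓝 l)) ↔
    ∃ ν : Measure C(unitInterval, ℂ), IsProbabilityMeasure ν ∧ LawTo (fun n => n) ν := by
  constructor
  · intro h
    have good : ∀ (φ : ℕ → ℕ) (ν : Measure C(unitInterval, ℂ)), Tendsto φ atTop atTop → IsProbabilityMeasure ν →
        LawTo φ ν → ∀ᵐ γ ∂ν, γ ∈ Gd ρ := by
      intro φ ν hφ hν hlim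
      filter_upwards [hinj φ ν hφ hν hlim, NTSF.limit_zeroQ hν hlim, clk_lim hρ hφ hν hlim] with γ h1 h2 h3
      exact ⟨h1, h2, h3⟩
    obtain ⟨ψ0, hψ0, ν0, hν0, hl0⟩ := hsub (fun n => n) strictMono_id
    refine ⟨ν0, hν0, fun f => ?_⟩
    refine tendsto_of_subseq_tendsto fun ns hns => ?_
    obtain ⟨φ1, hφ1, hφ2⟩ := strictMono_subseq_of_tendsto_atTop hns
    obtain ⟨ψ, hψ, ν, hν, hl⟩ := hsub (ns ∘ φ1) hφ2
    have t0 : Tendsto (fun k => ψ0 k) atTop atTop := hψ0.tendsto_atTop
    have t1 : Tendsto (fun k => (ns ∘ φ1) (ψ k)) atTop atTop := (hφ2.comp hψ).tendsto_atTop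
    have e : ν = ν0 := by
      refine eq_of_dist hρ.pos hν hν0 (good _ ν t1 hν hl) (good _ ν0 t0 hν0 hl0) fun F hF g => ?_
      have hm : Measurable (dF F) := (dF_cont hF).measurable
      obtain ⟨S, hS, hS2⟩ := h F hF
      have c1 : {s : ℝ | 0 < ν {γ | dF F γ = s}}.Countable := Measure.countable_meas_level_set_pos hm
      have c2 : {s : ℝ | 0 < ν0 {γ | dF F γ = s}}.Countable := Measure.countable_meas_level_set_pos hm
      refine int_eq hν hν0 hF ((hS.union c1).union c2) (fun t ht hts => ?_) g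
      have s1 : t ∉ S := fun hh => hts (Or.inl (Or.inl hh))
      have s2 : ν {γ | dF F γ = t} = 0 := by
        by_contra hcon
        exact hts (Or.inl (Or.inr (pos_iff_ne_zero.2 hcon)))
      have s3 : ν0 {γ | dF F γ = t} = 0 := by
        by_contra hcon
        exact hts (Or.inr (pos_iff_ne_zero.2 hcon))
      obtain ⟨l, hl1⟩ := hS2 t ht s1
      rw [tendsto_nhds_unique (frac_lim hsz t1 hν hl hF s2) (hl1.comp t1),
        tendsto_nhds_unique (frac_lim hsz t0 hν0 hl0 hF s3) (hl1.comp t0)]
    refine ⟨fun k => φ1 (ψ k), ?_⟩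
    have := hl f
    rwa [e] at this
  · rintro ⟨ν, hν, h⟩ F hF
    have hm : Measurable (dF F) := (dF_cont hF).measurable
    refine ⟨{s : ℝ | 0 < ν {γ | dF F γ = s}}, Measure.countable_meas_level_set_pos hm, fun t _ ht => ?_⟩
    have s2 : ν {γ | dF F γ = t} = 0 := by
      by_contra hcon
      exact ht (pos_iff_ne_zero.2 hcon)
    exact ⟨_, frac_lim hsz tendsto_id hν h hF s2⟩

end Pool.Agent.NPR
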