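import Pool.Agent.NPR.ClkOfZ
import Pool.Agent.NPR.Ratio
import Pool.Agent.SIM.FinAllS

/-!
# NPR: the reduction theorem, from `MainN` (helper34, shape of helper66 and helper14)

* `Good r γ` : simple, from the origin, and the time is the clock along `r`; `good_eq`: the trace of a good curve determines
  the curve;
* `fin_pub` : tightness, the structure of all weak limits, and the three equivalent forms of the convergence.
-/

set_option autoImplicit false

open Set Filter Topology MeasureTheory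
open scoped ENNReal

namespace Pool.Agent.NPR

open Pool.Agent.NTS.Res

/-- The Borel sets of the space of the nonempty compact sets of the plane, with the Hausdorff distance. -/
noncomputable instance cpM : MeasurableSpace (TopologicalSpace.NonemptyCompacts ℂ) := borel _

instance cpB : BorelSpace (TopologicalSpace.NonemptyCompacts ℂ) := ⟨rfl⟩

/-- The curve `γ` is simple, starts at the origin, and its time is its clock along `r`. -/
def Good (r : ℕ → ℝ) (γ : C(unitInterval, ℂ)) : Prop :=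
  Function.Injective γ ∧ γ 0 = 0 ∧
    ∀ u : unitInterval, Tendsto (fun j => vb (r j) γ u / vb (r j) γ 1) atTop (𝓝 (u : ℝ))

/-- **the trace of a good curve determines the curve** -/
theorem good_eq {r : ℕ → ℝ} {γ γ' : C(unitInterval, ℂ)} (h : Good r γ) (h' : Good r γ') (ht : range γ = range γ') :
    γ = γ' := by
  have ht' : tr γ = tr γ' := by
    ext z
    show z ∈ range γ ↔ z ∈ range γ'
    rw [ht]
  obtain ⟨φ, hφ⟩ := same_trace h.1 h'.1 (h.2.1.trans h'.2.1.symm) ht'
  ext t
  have e1 := h.2.2 t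
  have e2 := h'.2.2 (φ t)
  have e3 : (fun j => vb (r j) γ t / vb (r j) γ 1) = fun j => vb (r j) γ' (φ t) / vb (r j) γ' 1 := by
    funext j
    rw [vb_comp (r j) γ γ' φ hφ t, vb_comp (r j) γ γ' φ hφ 1]
    have : φ 1 = 1 := φ.map_top
    rw [this]
  rw [e3] at e1
  have e4 : (t : ℝ) = (φ t : ℝ) := tendsto_nhds_unique e1 e2
  have e5 : t = φ t := Subtype.ext e4
  rw [hφ t, ← e5]

lemma size_top : Tendsto size atTop atTop := by
  obtain ⟨c, C, hc, hsz, -⟩ := NTSF.finE
  have h1 : Tendsto (fun n : ℕ => c * (n : ℝ) ^ (3 / 4 : ℝ)) atTop atTop :=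
    ((tendsto_rpow_atTop (by norm_num)).comp tendsto_natCast_atTop_atTop).const_mul_atTop hc
  refine tendsto_atTop_mono' _ ?_ h1
  filter_upwards [eventually_ge_atTop 1] with n hn
  exact (hsz n hn).1

/-- **the reduction theorem, from the law of large numbers for the words with n letters** -/
theorem fin_pub (h : HexObs.NPR.MainN) :
    (∀ φ : ℕ → ℕ, StrictMono φ → ∃ ψ : ℕ → ℕ, StrictMono ψ ∧ ∃ ν : Measure C(unitInterval, ℂ),
      IsProbabilityMeasure ν ∧ LawTo (fun k => φ (ψ k)) ν) ∧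
    (∃ r : ℕ → ℝ, (∀ j, 0 < r j) ∧ Tendsto r atTop (𝓝 0) ∧
      (∀ (φ : ℕ → ℕ) (ν : Measure C(unitInterval, ℂ)), Tendsto φ atTop atTop → IsProbabilityMeasure ν → LawTo φ ν →
        ∀ᵐ γ : C(unitInterval, ℂ) ∂ν, Good r γ) ∧
      ∀ γ γ' : C(unitInterval, ℂ), Good r γ → Good r γ' → range γ = range γ' → γ = γ') ∧
    ((∃ ν : Measure C(unitInterval, ℂ), IsProbabilityMeasure ν ∧ LawTo (fun n => n) ν) ↔
      ∃ μ : Measure (TopologicalSpace.NonemptyCompacts ℂ), IsProbabilityMeasure μ ∧
        ∀ f : BoundedContinuousFunction (TopologicalSpace.NonemptyCompacts ℂ) ℝ,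
          Tendsto (fun n => ∫ γ, f (tr γ) ∂(law n)) atTop (𝓝 (∫ K, f K ∂μ))) ∧
    ((∃ ν : Measure C(unitInterval, ℂ), IsProbabilityMeasure ν ∧ LawTo (fun n => n) ν) ↔
      ∀ F : Finset ℂ, F.Nonempty → ∃ S : Set ℝ, S.Countable ∧ ∀ t : ℝ, 0 < t → t ∉ S →
        ∃ l : ℝ, Tendsto (fun n => frac n F t) atTop (𝓝 l)) := by
  obtain ⟨r, hr⟩ := exists_scl (clk_of h)
  obtain ⟨-, hsub, hinj⟩ := HexObs.SIM.simple_final
  refine ⟨hsub, ⟨r, hr.pos, hr.lim, fun φ ν hφ hν hlim => ?_, fun γ γ' g g' ht => good_eq g g' ht⟩, ?_,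
    (ratio_iff size_top hr hsub hinj).symm⟩
  · filter_upwards [hinj φ ν hφ hν hlim, NTSF.limit_zeroQ hν hlim, clk_lim hr hφ hν hlim] with γ h1 h2 h3
    exact ⟨h1, h2, fun u => Gc_lim hr.pos h3 u⟩
  · constructor
    · rintro ⟨ν, hν, hlim⟩
      have hm : Measurable tr := tr_cont.measurable
      refine ⟨ν.map tr, Measure.isProbabilityMeasure_map hm.aemeasurable, fun f => ?_⟩
      rw [integral_map hm.aemeasurable f.continuous.aestronglyMeasurable]
      exact lawTo_trace hlim f
    · rintro ⟨μ, -, h1⟩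
      exact (trace_iff hr hsub hinj).1 fun f => ⟨_, h1 f⟩

end Pool.Agent.NPR
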