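import Pool.Agent.NPR.Pc
import Pool.Agent.NTS.LawX

/-!
# NPR, rows P2, P3: the clock of the weak limits; weak convergence of the curves and of their traces (helper34)

* `ClkSt` : the law of large numbers for the clock, for the rescaled walks;
* `clk_lim` : along one sequence of scales, the clock of every weak limit is the time;
* `tr` : the trace of a curve; `same_time`: two simple curves from the same point with the same trace and with good clocks
  are equal;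
* `trace_iff` : the laws converge weakly iff the laws of the traces do.
-/

set_option autoImplicit false

open Set Filter Topology MeasureTheory
open scoped ENNReal

namespace Pool.Agent.NPR

open Pool.Agent.NTS.Res
open NTF (open_le cont_eval)

/-- **N1 in terms of the curves** -/
def ClkSt : Prop := ∀ ε : ℝ, 0 < ε → ∃ ρ0 : ℝ, 0 < ρ0 ∧ ∀ ρ : ℝ, 0 < ρ → ρ ≤ ρ0 → ∃ n0 : ℕ, ∀ n : ℕ, n0 ≤ n →
  law n {γ : C(unitInterval, ℂ) | ∃ u : unitInterval, ε * vb ρ γ 1 < |vb ρ γ u - u * vb ρ γ 1|} ≤ ENNReal.ofReal ε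

/-- the curves with a bad clock at the scale `ρ` -/
def Bd (ρ ε : ℝ) : Set C(unitInterval, ℂ) := {γ | ∃ u : unitInterval, ε * vb ρ γ 1 < |vb ρ γ u - u * vb ρ γ 1|}

/-- the sequences of scales that serve all weak limits -/
structure Scl (ρ : ℕ → ℝ) : Prop where
  pos : ∀ j, 0 < ρ j
  lim : Tendsto ρ atTop (𝓝 0)
  clk : ∀ j, ∃ n0 : ℕ, ∀ n : ℕ, n0 ≤ n → law n (Bd (ρ j) ((1 / 2) ^ j)) ≤ ENNReal.ofReal ((1 / 2) ^ j)

theorem exists_scl (h : ClkSt) : ∃ ρ : ℕ → ℝ, Scl ρ := by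
  choose! r hr0 hr using h
  have h2 : ∀ j : ℕ, (0 : ℝ) < (1 / 2) ^ j := fun j => by positivity
  refine ⟨fun j => min (r ((1 / 2) ^ j)) (1 / ((j : ℝ) + 1)), ⟨fun j => lt_min (hr0 _ (h2 j)) (by positivity), ?_, ?_⟩⟩
  · refine squeeze_zero (fun j => (lt_min (hr0 _ (h2 j)) (by positivity)).le) (fun j => min_le_right _ _) ?_
    exact tendsto_one_div_add_atTop_nhds_zero_nat
  · exact fun j => hr _ (h2 j) _ (lt_min (hr0 _ (h2 j)) (by positivity)) (min_le_left _ _)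

/-- the curves with a good clock along `ρ` -/
def Gc (ρ : ℕ → ℝ) : Set C(unitInterval, ℂ) := {γ | ∀ᶠ j in atTop, γ ∉ Bd (ρ j) ((1 / 2) ^ j)}

lemma Gc_lim {ρ : ℕ → ℝ} (hρ : ∀ j, 0 < ρ j) {γ : C(unitInterval, ℂ)} (h : γ ∈ Gc ρ) (u : unitInterval) :
    Tendsto (fun j => vb (ρ j) γ u / vb (ρ j) γ 1) atTop (𝓝 (u : ℝ)) := by
  rw [tendsto_iff_dist_tendsto_zero]
  have h1 : Tendsto (fun j : ℕ => ((1 : ℝ) / 2) ^ j) atTop (𝓝 0) :=
    tendsto_pow_atTop_nhds_zero_of_lt_one (by norm_num) (by norm_num)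
  refine squeeze_zero' (Eventually.of_forall fun j => dist_nonneg) ?_ h1
  have h' : ∀ᶠ j in atTop, γ ∉ Bd (ρ j) ((1 / 2) ^ j) := h
  filter_upwards [h'] with j hj
  have hv := vb_pos (hρ j) γ 1
  have h2 : |vb (ρ j) γ u - u * vb (ρ j) γ 1| ≤ (1 / 2) ^ j * vb (ρ j) γ 1 := by
    by_contra hc
    exact hj ⟨u, not_le.1 hc⟩
  rw [Real.dist_eq, div_sub' hv.ne', abs_div, abs_of_pos hv, div_le_iff₀ hv]
  rw [show vb (ρ j) γ 1 * (u : ℝ) = u * vb (ρ j) γ 1 by ring]
  exact h2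

/-- **the clock of every weak limit is the time** -/
theorem clk_lim {ρ : ℕ → ℝ} (hρ : Scl ρ) {φ : ℕ → ℕ} (hφ : Tendsto φ atTop atTop) {ν : Measure C(unitInterval, ℂ)}
    (hν : IsProbabilityMeasure ν) (hlim : LawTo φ ν) : ∀ᵐ γ : C(unitInterval, ℂ) ∂ν, γ ∈ Gc ρ := by
  have hlim2 := (NTSF.lawTo_iff ⟨ν, hν⟩).1 hlim
  have h1 : ∀ j, ν (Bd (ρ j) ((1 / 2) ^ j)) ≤ ENNReal.ofReal ((1 / 2) ^ j) := by
    intro j
    obtain ⟨n0, hn0⟩ := hρ.clk j
    refine open_le hlim2 (open_clk (hρ.pos j)) ?_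
    filter_upwards [hφ.eventually_ge_atTop n0] with k hk
    exact hn0 _ hk
  refine ae_eventually_notMem (ne_top_of_le_ne_top ?_ (ENNReal.tsum_le_tsum h1))
  rw [← ENNReal.ofReal_tsum_of_nonneg (fun j => by positivity) summable_geometric_two]
  exact ENNReal.ofReal_ne_top

/-! ### traces -/

/-- the trace of a curve, a compact set -/
noncomputable def tr (γ : C(unitInterval, ℂ)) : TopologicalSpace.NonemptyCompacts ℂ :=
  ⟨⟨range γ, isCompact_range γ.continuous⟩, range_nonempty γ⟩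

lemma coe_tr (γ : C(unitInterval, ℂ)) : (tr γ : Set ℂ) = range γ := rfl

lemma tr_cont : Continuous tr := by
  rw [Metric.continuous_iff]
  intro γ ε hε
  refine ⟨ε / 2, by positivity, fun γ' h => ?_⟩
  rw [Metric.NonemptyCompacts.dist_eq]
  refine lt_of_le_of_lt (Metric.hausdorffDist_le_of_mem_dist (by positivity : 0 ≤ ε / 2) ?_ ?_) (by linarith)
  · rintro _ ⟨u, rfl⟩
    exact ⟨γ u, ⟨u, rfl⟩, (ContinuousMap.dist_apply_le_dist u).trans h.le⟩
  · rintro _ ⟨u, rfl⟩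
    refine ⟨γ' u, ⟨u, rfl⟩, ?_⟩
    rw [dist_comm]
    exact (ContinuousMap.dist_apply_le_dist u).trans h.le

/-- two simple curves from the same point with the same trace are the same up to the time -/
lemma same_trace {γ γ' : C(unitInterval, ℂ)} (h1 : Function.Injective γ) (h2 : Function.Injective γ')
    (h0 : γ 0 = γ' 0) (ht : tr γ = tr γ') : ∃ φ : unitInterval ≃o unitInterval, ∀ t, γ t = γ' (φ t) := by
  have hr : range γ = range γ' := by
    rw [← coe_tr, ← coe_tr, ht]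
  have e1 : Topology.IsEmbedding γ := (γ.continuous.isClosedEmbedding h1).isEmbedding
  have e2 : Topology.IsEmbedding γ' := (γ'.continuous.isClosedEmbedding h2).isEmbedding
  obtain ⟨ψ, hψ⟩ : ∃ ψ : unitInterval ≃ₜ unitInterval, ∀ t, γ t = γ' (ψ t) := by
    refine ⟨(e1.toHomeomorph.trans (Homeomorph.setCongr hr)).trans e2.toHomeomorph.symm, fun t => ?_⟩
    have h := e2.toHomeomorph.apply_symm_apply ((Homeomorph.setCongr hr) (e1.toHomeomorph t))
    have h' := congrArg Subtype.val h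
    exact h'.symm
  have hψ0 : ψ 0 = 0 := h2 (by rw [← hψ, h0])
  have hmono : StrictMono ψ := by
    rcases ψ.continuous.strictMono_of_inj ψ.injective with h | h
    · exact h
    · exfalso
      have h3 := h (show (0 : unitInterval) < 1 from by norm_num)
      rw [hψ0] at h3
      exact absurd h3 (not_lt.2 (ψ 1).2.1)
  exact ⟨hmono.orderIsoOfSurjective ψ ψ.surjective, hψ⟩

/-- **two simple curves from the same point with the same trace and good clocks are equal** -/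
theorem same_time {ρ : ℕ → ℝ} (hρ : ∀ j, 0 < ρ j) {γ γ' : C(unitInterval, ℂ)} (h1 : Function.Injective γ)
    (h2 : Function.Injective γ') (h0 : γ 0 = γ' 0) (g1 : γ ∈ Gc ρ) (g2 : γ' ∈ Gc ρ) (ht : tr γ = tr γ') : γ = γ' := by
  obtain ⟨φ, hφ⟩ := same_trace h1 h2 h0 ht
  ext t
  have e1 := Gc_lim hρ g1 t
  have e2 := Gc_lim hρ g2 (φ t)
  have e3 : (fun j => vb (ρ j) γ t / vb (ρ j) γ 1) = fun j => vb (ρ j) γ' (φ t) / vb (ρ j) γ' 1 := by
    funext j
    rw [vb_comp (ρ j) γ γ' φ hφ t, vb_comp (ρ j) γ γ' φ hφ 1]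
    have : φ 1 = 1 := φ.map_top
    rw [this]
  rw [e3] at e1
  have e4 : (t : ℝ) = (φ t : ℝ) := tendsto_nhds_unique e1 e2
  have e5 : t = φ t := Subtype.ext e4
  rw [hφ t, ← e5]

/-! ### the good set -/

/-- the good set of the limits -/
def Gd (ρ : ℕ → ℝ) : Set C(unitInterval, ℂ) := {γ | Function.Injective γ ∧ γ 0 = 0 ∧ γ ∈ Gc ρ}

lemma inj_meas : MeasurableSet {γ : C(unitInterval, ℂ) | Function.Injective γ} := by
  have e : {γ : C(unitInterval, ℂ) | Function.Injective γ} = ⋂ k : ℕ, {γ : C(unitInterval, ℂ) |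
      ∃ p q : unitInterval, 1 / ((k : ℝ) + 1) ≤ dist p q ∧ γ p = γ q}ᶜ := by
    ext γ
    simp only [mem_iInter, mem_compl_iff]
    constructor
    · rintro h k ⟨p, q, h1, h2⟩
      rw [h h2, dist_self] at h1
      have : (0 : ℝ) < 1 / ((k : ℝ) + 1) := by positivity
      linarith
    · intro h p q hpq
      by_contra hc
      obtain ⟨k, hk⟩ := exists_nat_one_div_lt (dist_pos.2 hc)
      exact h k ⟨p, q, hk.le, hpq⟩
  rw [e]
  refine MeasurableSet.iInter fun k => ?_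
  refine (IsClosed.measurableSet ?_).compl
  have hc : IsCompact {x : unitInterval × unitInterval | 1 / ((k : ℝ) + 1) ≤ dist x.1 x.2} := by
    refine IsClosed.isCompact ?_
    exact isClosed_le continuous_const (continuous_fst.dist continuous_snd)
  have e2 : {γ : C(unitInterval, ℂ) | ∃ p q : unitInterval, 1 / ((k : ℝ) + 1) ≤ dist p q ∧ γ p = γ q} =
      Prod.fst '' {y : C(unitInterval, ℂ) × (unitInterval × unitInterval) |
        y.2 ∈ {x : unitInterval × unitInterval | 1 / ((k : ℝ) + 1) ≤ dist x.1 x.2} ∧ y.1 y.2.1 = y.1 y.2.2} := by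
    ext γ
    constructor
    · rintro ⟨p, q, h1, h2⟩
      exact ⟨(γ, (p, q)), ⟨h1, h2⟩, rfl⟩
    · rintro ⟨⟨γ', p, q⟩, ⟨h1, h2⟩, rfl⟩
      exact ⟨p, q, h1, h2⟩
  rw [e2]
  have hcl : IsClosed {y : C(unitInterval, ℂ) × (unitInterval × unitInterval) |
        y.2 ∈ {x : unitInterval × unitInterval | 1 / ((k : ℝ) + 1) ≤ dist x.1 x.2} ∧ y.1 y.2.1 = y.1 y.2.2} := by
    refine IsClosed.inter (hc.isClosed.preimage continuous_snd) ?_
    exact isClosed_eq (by fun_prop) (by fun_prop)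
  exact isClosedMap_fst_of_compactSpace _ hcl

lemma Gd_meas {ρ : ℕ → ℝ} (hρ : ∀ j, 0 < ρ j) : MeasurableSet (Gd ρ) := by
  have e : Gd ρ = {γ : C(unitInterval, ℂ) | Function.Injective γ} ∩ ({γ | γ 0 = 0} ∩
      ⋃ N : ℕ, ⋂ j ∈ Ici N, (Bd (ρ j) ((1 / 2) ^ j))ᶜ) := by
    ext γ
    unfold Gd Gc
    simp only [mem_inter_iff, mem_iUnion, mem_iInter, mem_compl_iff, mem_Ici]
    constructor
    · rintro ⟨h1, h2, h3⟩
      exact ⟨h1, h2, eventually_atTop.1 h3⟩
    · rintro ⟨h1, h2, h3⟩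
      exact ⟨h1, h2, eventually_atTop.2 h3⟩
  rw [e]
  refine inj_meas.inter ((isClosed_eq (cont_eval 0) continuous_const).measurableSet.inter ?_)
  refine MeasurableSet.iUnion fun N => MeasurableSet.biInter (to_countable _) fun j _ => ?_
  exact (open_clk (hρ j)).measurableSet.compl

/-- measures on the good set are determined by the law of the trace -/
theorem eq_of_trace {ρ : ℕ → ℝ} (hρ : ∀ j, 0 < ρ j) {ν ν' : Measure C(unitInterval, ℂ)} (hν : IsProbabilityMeasure ν)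
    (hν' : IsProbabilityMeasure ν') (h1 : ∀ᵐ γ ∂ν, γ ∈ Gd ρ) (h2 : ∀ᵐ γ ∂ν', γ ∈ Gd ρ)
    (h : ∀ F : BoundedContinuousFunction (TopologicalSpace.NonemptyCompacts ℂ) ℝ,
      ∫ γ, F (tr γ) ∂ν = ∫ γ, F (tr γ) ∂ν') : ν = ν' := by
  let _ : MeasurableSpace (TopologicalSpace.NonemptyCompacts ℂ) := borel _
  have : BorelSpace (TopologicalSpace.NonemptyCompacts ℂ) := ⟨rfl⟩
  have hm : Measurable tr := tr_cont.measurable
  have hmap : ν.map tr = ν'.map tr := by
    have : IsProbabilityMeasure (ν.map tr) := Measure.isProbabilityMeasure_map hm.aemeasurable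
    have : IsProbabilityMeasure (ν'.map tr) := Measure.isProbabilityMeasure_map hm.aemeasurable
    refine ext_of_forall_integral_eq_of_IsFiniteMeasure fun F => ?_
    rw [integral_map hm.aemeasurable F.continuous.aestronglyMeasurable,
      integral_map hm.aemeasurable F.continuous.aestronglyMeasurable]
    exact h F
  have hinj : InjOn tr (Gd ρ) := fun γ hγ γ' hγ' ht =>
    same_time hρ hγ.1 hγ'.1 (hγ.2.1.trans hγ'.2.1.symm) hγ.2.2 hγ'.2.2 ht
  have hG := Gd_meas hρ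
  refine Measure.ext fun A hA => ?_
  have hI : MeasurableSet (tr '' (A ∩ Gd ρ)) :=
    (hA.inter hG).image_of_measurable_injOn hm (hinj.mono inter_subset_right)
  have key : ∀ μ : Measure C(unitInterval, ℂ), (∀ᵐ γ ∂μ, γ ∈ Gd ρ) → μ A = μ.map tr (tr '' (A ∩ Gd ρ)) := by
    intro μ hμ
    rw [Measure.map_apply hm hI]
    refine measure_congr ?_
    filter_upwards [hμ] with γ hγ
    refine propext ⟨fun hA' => ⟨γ, ⟨hA', hγ⟩, rfl⟩, ?_⟩
    rintro ⟨γ', ⟨h3, h4⟩, h5⟩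
    rw [← hinj h4 hγ h5]
    exact h3
  rw [key ν h1, key ν' h2, hmap]

/-- the law of the traces -/
lemma lawTo_trace {φ : ℕ → ℕ} {ν : Measure C(unitInterval, ℂ)} (h : LawTo φ ν)
    (F : BoundedContinuousFunction (TopologicalSpace.NonemptyCompacts ℂ) ℝ) :
    Tendsto (fun k => ∫ γ, F (tr γ) ∂(law (φ k))) atTop (𝓝 (∫ γ, F (tr γ) ∂ν)) :=
  h (F.compContinuous ⟨tr, tr_cont⟩)

/-- **the laws converge weakly iff the laws of the traces do** -/
theorem trace_iff {ρ : ℕ → ℝ} (hρ : Scl ρ)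
    (hsub : ∀ φ : ℕ → ℕ, StrictMono φ → ∃ ψ : ℕ → ℕ, StrictMono ψ ∧ ∃ ν : Measure C(unitInterval, ℂ),
      IsProbabilityMeasure ν ∧ LawTo (fun k => φ (ψ k)) ν)
    (hinj : ∀ (φ : ℕ → ℕ) (ν : Measure C(unitInterval, ℂ)), Tendsto φ atTop atTop → IsProbabilityMeasure ν → LawTo φ ν →
      ∀ᵐ γ : C(unitInterval, ℂ) ∂ν, Function.Injective γ) :
    (∀ F : BoundedContinuousFunction (TopologicalSpace.NonemptyCompacts ℂ) ℝ, ∃ l : ℝ,
      Tendsto (fun n => ∫ γ, F (tr γ) ∂(law n)) atTop (𝓝 l)) ↔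
    ∃ ν : Measure C(unitInterval, ℂ), IsProbabilityMeasure ν ∧ LawTo (fun n => n) ν := by
  constructor
  · intro h
    have good : ∀ (φ : ℕ → ℕ) (ν : Measure C(unitInterval, ℂ)), Tendsto φ atTop atTop → IsProbabilityMeasure ν →
        LawTo φ ν → ∀ᵐ γ ∂ν, γ ∈ Gd ρ := by
      intro φ ν hφ hν hlim
      filter_upwards [hinj φ ν hφ hν hlim, NTSF.limit_zeroQ hν hlim, clk_lim hρ hφ hν hlim] with γ h1 h2 h3
      exact ⟨h1, h2, h3⟩
    obtain ⟨ψ0, hψ0, ν0, hν0, hl0⟩ := hsub (fun n => n) strictMono_id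
    refine ⟨ν0, hν0, fun f => ?_⟩
    refine tendsto_of_subseq_tendsto fun ns hns => ?_
    obtain ⟨φ1, hφ1, hφ2⟩ := strictMono_subseq_of_tendsto_atTop hns
    obtain ⟨ψ, hψ, ν, hν, hl⟩ := hsub (ns ∘ φ1) hφ2
    have t0 : Tendsto (fun k => ψ0 k) atTop atTop := hψ0.tendsto_atTop
    have t1 : Tendsto (fun k => (ns ∘ φ1) (ψ k)) atTop atTop := (hφ2.comp hψ).tendsto_atTop
    have e : ν = ν0 := by
      refine eq_of_trace hρ.pos hν hν0 (good _ ν t1 hν hl) (good _ ν0 t0 hν0 hl0) fun F => ?_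
      obtain ⟨l, hF⟩ := h F
      rw [tendsto_nhds_unique (lawTo_trace hl F) (hF.comp t1), tendsto_nhds_unique (lawTo_trace hl0 F) (hF.comp t0)]
    refine ⟨fun k => φ1 (ψ k), ?_⟩
    have := hl f
    rwa [e] at this
  · rintro ⟨ν, -, h⟩ F
    exact ⟨_, lawTo_trace h F⟩

end Pool.Agent.NPR
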