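import Pool.Agent.NPR.Vm
import Pool.Agent.TOG.Defs
import Pool.Agent.NPR.Clk

/-!
# NPR, the gauge (docs: mails of helper10 and helper14): literals

* `KapN` : exactly `n` letters, all the radii of `J` arbitrary sequences at once, one gauge `ka R` for all `n`;
* `KapC` : the same for the curves: the clock at the scales `2 ^ (- i / J)`, with a gauge `h n ρ` of the order `ρ ^ (4 / 3)`;
* `GoodH h γ` : simple, from the origin, and the time is the number of pieces, with the gauge `h`.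
-/

set_option autoImplicit false

open Set Filter Topology MeasureTheory
open scoped ENNReal

namespace Pool.Agent.NPR

open HexObs hiding pos curve
open HexObs.TIW HexObs.TS HexObs.SDN HexObs.NPR
open Pool.Agent.NTS.Res

/-- **N** -/
def KapN : Prop := ∃ (ka : ℝ → ℝ) (B : ℝ), 0 < B ∧
  (∀ R : ℝ, 2 ≤ R → R ^ (4 / 3 : ℝ) ≤ B * ka R ∧ ka R ≤ B * R ^ (4 / 3 : ℝ)) ∧
  ∀ (J : ℕ) (ε : ℝ), 0 < ε → ∃ (D : ℝ) (n0 : ℕ), 0 < D ∧ ∀ (n : ℕ) (Rs : ℕ → ℕ → ℝ), n0 ≤ n →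
    (∀ l j, j < J → 2 ^ l ≤ Rs l j ∧ Rs l j ≤ 2 ^ (l + 1)) →
    TOG.Pn n {t | ∃ l j, 1 ≤ l ∧ j < J ∧ D * Rs l j ≤ (n : ℝ) ^ (3 / 4 : ℝ) ∧ ¬ ∀ x y : ℕ, x ≤ y → y ≤ t.length →
      |ka (Rs l j) * Vm (Rs l j) (wd t x y) - ((y : ℝ) - x)| ≤ ε * n} ≤ ε

/-- the scales -/
noncomputable def msh (J i : ℕ) : ℝ := (2 : ℝ) ^ (-((i : ℝ) / J))

/-- **C** -/
def KapC : Prop := ∃ (h : ℕ → ℝ → ℝ) (c C : ℝ), 0 < c ∧ 0 < C ∧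
  (∀ (n : ℕ) (ρ : ℝ), 1 ≤ n → 0 < ρ → 2 ≤ ρ * size n → c * ρ ^ (4 / 3 : ℝ) ≤ h n ρ ∧ h n ρ ≤ C * ρ ^ (4 / 3 : ℝ)) ∧
  ∀ (J : ℕ) (ε : ℝ), 1 ≤ J → 0 < ε → ∃ ρ0 : ℝ, 0 < ρ0 ∧ ∀ ρ1 : ℝ, 0 < ρ1 → ∃ n0 : ℕ, ∀ n : ℕ, n0 ≤ n →
    law n {γ | ∃ i : ℕ, ρ1 ≤ msh J i ∧ msh J i ≤ ρ0 ∧ ∃ u : unitInterval,
      ε < |h n (msh J i) * (vb (msh J i) γ u / msh J i) - u|} ≤ ENNReal.ofReal ε

/-- the curve `γ` is simple, starts at the origin, and its time is the number of its pieces, with the gauge `h` -/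
def GoodH (h : ℝ → ℝ) (γ : C(unitInterval, ℂ)) : Prop :=
  Function.Injective γ ∧ γ 0 = 0 ∧ ∀ u : unitInterval, Tendsto (fun r => h r * vb r γ u / r) (𝓝[>] 0) (𝓝 (u : ℝ))

end Pool.Agent.NPR
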