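import Pool.Agent.NPR.ClkOf
import Pool.Agent.NTA.FinXAll

/-!
# NPR, row P1c: from the words to the curves, no other hypothesis (helper34)
-/

set_option autoImplicit false

namespace Pool.Agent.NPR

/-- **from the words to the curves** -/
theorem clk_of (h : HexObs.NPR.MainN) : ClkSt :=
  clk_of' NTSF.finE (let ⟨C, _, h⟩ := VF.mUp VF.sharpZ; ⟨C, h⟩) h

end Pool.Agent.NPR
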