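import Mathlib

/-!
# NPR (natural parametrisation, doc nu34/NPR_14), row L2, first part (helper22): Chebyshev for countable product laws

* `pi_tsum` : the measure of an event under `R` independent copies of a countable law, as a sum;
* **`cheb`** : bounded centred functions: the sum over `R` copies is at least `s` with probability at most `R B ^ 2 / s ^ 2`;
* **`cheb_tsum`** : the same as a sum of products of weights.
-/

set_option autoImplicit false

namespace HexObs

namespace NPR

open MeasureTheory ProbabilityTheory Finset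

open scoped ENNReal

section

variable {α : Type*} [MeasurableSpace α] [Countable α] [MeasurableSingletonClass α]

/-- the measure of an event under independent copies, as a sum -/
lemma pi_tsum (μ : Measure α) [IsProbabilityMeasure μ] (R : ℕ) (E : Set (Fin R → α)) :
    (Measure.pi fun _ : Fin R => μ) E = ∑' v : Fin R → α, (∏ i, μ {v i}) * E.indicator (fun _ => (1 : ℝ≥0∞)) v := by
  classical
  have hE : MeasurableSet E := (Set.to_countable E).measurableSet
  rw [← Measure.tsum_indicator_apply_singleton _ _ hE]
  refine tsum_congr fun v => ?_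
  by_cases hv : v ∈ E
  · rw [Set.indicator_of_mem hv, Set.indicator_of_mem hv, Measure.pi_singleton, mul_one]
  · rw [Set.indicator_of_notMem hv, Set.indicator_of_notMem hv, mul_zero]

/-- **Chebyshev for independent copies of a bounded function** -/
theorem cheb (μ : Measure α) [IsProbabilityMeasure μ] {f : α → ℝ} {B : ℝ} (hf : ∀ a, |f a| ≤ B) (R : ℕ) {s : ℝ}
    (hs : 0 < s) :
    (Measure.pi fun _ : Fin R => μ) {v | s ≤ |∑ i, f (v i) - R * ∫ a, f a ∂μ|} ≤ ENNReal.ofReal (R * B ^ 2 / s ^ 2) := by
  classical
  have hfm : Measurable f := measurable_of_countable f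
  have hmem : MemLp f 2 μ := by
    refine MemLp.of_bound hfm.aestronglyMeasurable B (Filter.Eventually.of_forall fun v => ?_)
    rw [Real.norm_eq_abs]
    exact hf _
  have hmem2 : ∀ i : Fin R, MemLp (fun v : Fin R → α => f (v i)) 2 (Measure.pi fun _ : Fin R => μ) := by
    intro i
    refine MemLp.of_bound (hfm.comp (measurable_pi_apply i)).aestronglyMeasurable B (Filter.Eventually.of_forall fun v => ?_)
    rw [Real.norm_eq_abs]
    exact hf _
  have hX : MemLp (∑ i : Fin R, fun v : Fin R → α => f (v i)) 2 (Measure.pi fun _ : Fin R => μ) :=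
    memLp_finsetSum' _ fun i _ => hmem2 i
  have hvar := variance_sum_pi (μ := fun _ : Fin R => μ) (X := fun _ : Fin R => f) fun _ => hmem
  have hv1 : variance f μ ≤ B ^ 2 := by
    refine (variance_le_expectation_sq hfm.aestronglyMeasurable).trans ?_
    have h1 : ∫ a, (f ^ 2) a ∂μ ≤ ∫ _a, B ^ 2 ∂μ := by
      refine integral_mono_of_nonneg (Filter.Eventually.of_forall fun a => ?_) (integrable_const _)
        (Filter.Eventually.of_forall fun a => ?_)
      · show 0 ≤ f a ^ 2
        positivity
      · show f a ^ 2 ≤ B ^ 2
        have h2 := hf a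
        rw [← sq_abs]
        exact pow_le_pow_left₀ (abs_nonneg _) h2 2
    rw [integral_const, probReal_univ, one_smul] at h1
    exact h1
  have hmean : ∫ v, (∑ i : Fin R, fun v : Fin R → α => f (v i)) v ∂(Measure.pi fun _ : Fin R => μ) =
      R * ∫ a, f a ∂μ := by
    have e1 : ∀ v : Fin R → α, (∑ i : Fin R, fun v : Fin R → α => f (v i)) v = ∑ i : Fin R, f (v i) := fun v => by
      rw [Finset.sum_apply]
    simp only [e1]
    rw [integral_finsetSum _ fun i _ => (hmem2 i).integrable one_le_two]
    have e2 : ∀ i : Fin R, ∫ v, f (v i) ∂(Measure.pi fun _ : Fin R => μ) = ∫ a, f a ∂μ := fun i =>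
      integral_comp_eval (μ := fun _ : Fin R => μ) (i := i) hfm.aestronglyMeasurable
    simp only [e2]
    rw [sum_const, card_univ, Fintype.card_fin, nsmul_eq_mul]
  have h3 := meas_ge_le_variance_div_sq hX hs
  rw [hmean, hvar, sum_const, card_univ, Fintype.card_fin, nsmul_eq_mul] at h3
  have e3 : {v : Fin R → α | s ≤ |∑ i, f (v i) - R * ∫ a, f a ∂μ|} =
      {v | s ≤ |(∑ i : Fin R, fun v : Fin R → α => f (v i)) v - R * ∫ a, f a ∂μ|} := by
    ext v
    simp only [Set.mem_setOf_eq, Finset.sum_apply]
  rw [e3]
  refine h3.trans (ENNReal.ofReal_le_ofReal ?_)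
  exact div_le_div_of_nonneg_right (mul_le_mul_of_nonneg_left hv1 (Nat.cast_nonneg R)) (by positivity)

end

end NPR

end HexObs
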