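import Pool.Agent.NPR.Defs2
import Pool.Agent.NPR.Cheb

/-!
# NPR (natural parametrisation, doc nu34/NPR_14), row L2 (helper28): atypical lists of groups have a small free mass

* `GroupL` : the literal of the row L1: a group of Ng irreducible pieces has a number of letters of its own order with
  probability at least c0 (c0 and lam do not depend on the relative size of the groups);
* `gf_Ir_one` : a product of m irreducible pieces has the mass one;
* **`atypM_of`** : `GroupL → AtypM`, Chebyshev for R independent groups.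
-/

set_option autoImplicit false

namespace HexObs

namespace NPR

open Finset TS SDN TIW NTA TIP MeasureTheory

open scoped ENNReal

/-- **L1**: the number of letters of a group of Ng pieces; c0 and lam do not depend on c', k' -/
def GroupL : Prop := ∃ c0 lam : ℝ, 0 < c0 ∧ 1 ≤ lam ∧ ∀ (c' : ℝ) (k' : ℕ), 0 < c' → ∃ (c1 : ℝ) (L0 : ℕ),
  0 < c1 ∧ lam * c1 ≤ 1 ∧ k' ≤ L0 ∧ ∀ L, L0 ≤ L → ∃ Ng : ℕ, 1 ≤ Ng ∧ (Ng : ℝ) ≤ c' * Ub (L - k') ∧
    ENNReal.ofReal c0 ≤ gf {V | V ∈ Ir Ng ∧ c1 * PW.mZ (2 ^ L) ≤ (V.length : ℝ) ∧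
      (V.length : ℝ) ≤ lam * c1 * PW.mZ (2 ^ L)}

/-! ### products of irreducible pieces -/

lemma gf_Ir_one : ∀ m : ℕ, gf (Ir m) = 1
  | 0 => by
    have h1 := gf_finset {([] : List Bool)}
    rw [Finset.coe_singleton, Finset.sum_singleton] at h1
    have h2 : Ir 0 = {([] : List Bool)} := rfl
    rw [h2, h1]
    simp
  | m + 1 => by
    refine le_antisymm (gf_Ir (m + 1)) ?_
    have h1 : gf IU * gf (Ir m) ≤ gf (Ir (m + 1)) :=
      mul_le_gf (fun a ha b hb => ⟨a, ha, b, hb, rfl⟩)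
        (fun a ha b hb a' ha' b' hb' he => IU_pf ha ha' (Ir_BU hb) (Ir_BU hb') he)
    rwa [BrL.gf_IU, one_mul, gf_Ir_one m] at h1

lemma Ir_add : ∀ {a b : ℕ} {V : List Bool}, V ∈ Ir (a + b) → ∃ V1 ∈ Ir a, ∃ V2 ∈ Ir b, V = V1 ++ V2
  | 0, b, V, h => by
    rw [Nat.zero_add] at h
    exact ⟨[], rfl, V, h, rfl⟩
  | a + 1, b, V, h => by
    rw [show a + 1 + b = (a + b) + 1 by omega] at h
    obtain ⟨P, hP, W, hW, rfl⟩ := h
    obtain ⟨V1, h1, V2, h2, rfl⟩ := Ir_add hW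
    exact ⟨P ++ V1, ⟨P, hP, V1, h1, rfl⟩, V2, h2, by rw [List.append_assoc]⟩

lemma Ir_groups (Ng : ℕ) : ∀ (R : ℕ) {V : List Bool}, V ∈ Ir (R * Ng) → ∃ v : Fin R → List Bool, (∀ i, v i ∈ Ir Ng) ∧
    V = (List.ofFn v).flatten
  | 0, V, h => by
    rw [Nat.zero_mul] at h
    have h1 : V = [] := h
    exact ⟨fun i => i.elim0, fun i => i.elim0, by rw [h1]; simp⟩
  | R + 1, V, h => by
    rw [show (R + 1) * Ng = Ng + R * Ng by ring] at h
    obtain ⟨V1, h1, V2, h2, rfl⟩ := Ir_add h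
    obtain ⟨v, hv, rfl⟩ := Ir_groups Ng R h2
    refine ⟨Fin.cons V1 v, fun i => ?_, ?_⟩
    · refine Fin.cases ?_ (fun j => ?_) i
      · simpa using h1
      · simpa using hv j
    · rw [List.ofFn_cons, List.flatten_cons]

lemma wE_flat : ∀ l : List (List Bool), wE l.flatten = (l.map wE).prod
  | [] => by simp [wE]
  | a :: l => by rw [List.flatten_cons, wE_append, wE_flat l, List.map_cons, List.prod_cons]

lemma wE_groups {R : ℕ} (v : Fin R → List Bool) : wE (List.ofFn v).flatten = ∏ i, wE (v i) := by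
  rw [wE_flat, List.map_ofFn, List.prod_ofFn]
  rfl

/-! ### the law of a group -/

local instance : MeasurableSpace (List Bool) := ⊤

local instance : MeasurableSingletonClass (List Bool) := ⟨fun _ => trivial⟩

/-- the law of a group of Ng pieces -/
noncomputable def lawG (Ng : ℕ) : PMF (List Bool) :=
  ⟨(Ir Ng).indicator wE, by
    have h1 : ∑' g, (Ir Ng).indicator wE g = 1 := by
      rw [← gf_Ir_one Ng]
      unfold gf
      rw [_root_.tsum_subtype (Ir Ng) wE]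
    rw [← h1]
    exact ENNReal.summable.hasSum⟩

lemma lawG_apply (Ng : ℕ) (g : List Bool) : lawG Ng g = (Ir Ng).indicator wE g := rfl

lemma lawG_single (Ng : ℕ) (g : List Bool) : (lawG Ng).toMeasure {g} = (Ir Ng).indicator wE g := by
  rw [PMF.toMeasure_apply_singleton _ _ (measurableSet_singleton g)]
  rfl

lemma lawG_set (Ng : ℕ) (S : Set (List Bool)) : (lawG Ng).toMeasure S = gf {V | V ∈ Ir Ng ∧ V ∈ S} := by
  rw [PMF.toMeasure_apply _ (s := S) trivial]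
  unfold gf
  rw [_root_.tsum_subtype {V | V ∈ Ir Ng ∧ V ∈ S} wE]
  refine tsum_congr fun g => ?_
  by_cases h : g ∈ S
  · rw [Set.indicator_of_mem h, lawG_apply]
    by_cases h2 : g ∈ Ir Ng
    · rw [Set.indicator_of_mem h2, Set.indicator_of_mem (show g ∈ {V | V ∈ Ir Ng ∧ V ∈ S} from ⟨h2, h⟩)]
    · rw [Set.indicator_of_notMem h2, Set.indicator_of_notMem (fun hc => h2 hc.1)]
  · rw [Set.indicator_of_notMem h, Set.indicator_of_notMem (fun hc => h hc.2)]

/-- the mass of the words of R groups which have no good list of groups -/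
lemma gf_groups (R Ng : ℕ) (T : List (List Bool) → Prop) :
    gf {V | V ∈ Ir (R * Ng) ∧ ¬ ∃ gs : List (List Bool), gs.length = R ∧ V = gs.flatten ∧ T gs} ≤
      (Measure.pi fun _ : Fin R => (lawG Ng).toMeasure) {v | ¬ T (List.ofFn v)} := by
  classical
  rw [pi_tsum]
  unfold gf
  have hex : ∀ V : {V | V ∈ Ir (R * Ng) ∧ ¬ ∃ gs : List (List Bool), gs.length = R ∧ V = gs.flatten ∧ T gs},
      ∃ v : Fin R → List Bool, (∀ i, v i ∈ Ir Ng) ∧ (V : List Bool) = (List.ofFn v).flatten :=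
    fun V => Ir_groups Ng R V.2.1
  choose φ h1 h2 using hex
  have hinj : Function.Injective φ := by
    intro V V' h
    refine Subtype.ext ?_
    rw [h2 V, h2 V', h]
  refine le_trans (le_of_eq (tsum_congr fun V => ?_)) (ENNReal.tsum_comp_le_tsum_of_injective hinj _)
  have h3 : φ V ∈ {v : Fin R → List Bool | ¬ T (List.ofFn v)} := by
    intro hT
    exact V.2.2 ⟨List.ofFn (φ V), List.length_ofFn, h2 V, hT⟩
  rw [Set.indicator_of_mem h3, mul_one]
  rw [h2 V, wE_groups]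
  refine prod_congr rfl fun i _ => ?_
  rw [lawG_single, Set.indicator_of_mem (h1 V i)]

/-! ### sums over lists -/

open Classical in
/-- letters of a group, truncated -/
noncomputable def fT (T0 : ℝ) (g : List Bool) : ℝ := if (g.length : ℝ) ≤ T0 then (g.length : ℝ) else 0

open Classical in
/-- value of a group, truncated -/
noncomputable def fV (T0 Lam : ℝ) (φ : List Bool → ℝ) (g : List Bool) : ℝ :=
  if (g.length : ℝ) ≤ T0 then min (φ g) (Lam * T0) else 0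

lemma sT_ofFn (T0 : ℝ) {R : ℕ} (v : Fin R → List Bool) : sT T0 (List.ofFn v) = ∑ i, fT T0 (v i) := by
  unfold sT
  rw [List.map_ofFn, List.sum_ofFn]
  rfl

lemma sV_ofFn (T0 Lam : ℝ) (φ : List Bool → ℝ) {R : ℕ} (v : Fin R → List Bool) :
    sV T0 Lam φ (List.ofFn v) = ∑ i, fV T0 Lam φ (v i) := by
  unfold sV
  rw [List.map_ofFn, List.sum_ofFn]
  rfl

lemma fT_nonneg (T0 : ℝ) (g : List Bool) : 0 ≤ fT T0 g := by
  unfold fT
  split_ifs
  · exact Nat.cast_nonneg _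
  · exact le_rfl

lemma fT_le {T0 : ℝ} (h : 0 ≤ T0) (g : List Bool) : fT T0 g ≤ T0 := by
  unfold fT
  split_ifs with h1
  · exact h1
  · exact h

lemma fV_nonneg {T0 Lam : ℝ} (h : 0 ≤ Lam * T0) {φ : List Bool → ℝ} (hφ : ∀ g, 0 ≤ φ g) (g : List Bool) :
    0 ≤ fV T0 Lam φ g := by
  unfold fV
  split_ifs
  · exact le_min (hφ g) h
  · exact le_rfl

lemma fV_le {T0 Lam : ℝ} (h : 0 ≤ Lam * T0) (φ : List Bool → ℝ) (g : List Bool) : fV T0 Lam φ g ≤ Lam * T0 := by
  unfold fV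
  split_ifs
  · exact min_le_right _ _
  · exact h

/-! ### Chebyshev for the two sums -/

lemma abs_le_of_mem {x B : ℝ} (h0 : 0 ≤ x) (h1 : x ≤ B) : |x| ≤ B := by rwa [abs_of_nonneg h0]

/-- the deterministic part: the two deviations are small, so the list is typical -/
lemma typ_det {S1 S2 R e1 e2 d1 d2 ε : ℝ} (hR : 1 ≤ R) (he1 : 0 < e1) (he2 : 0 ≤ e2) (hd : d1 ≤ 1 / 2)
    (hd2 : e2 / e1 * d1 + d2 ≤ ε / 2) (hε : 0 < ε) (h1 : |S1 - R * e1| < d1 * (R * e1))
    (h2 : |S2 - R * e2| < d2 * (R * e1)) : e1 / 2 ≤ S1 ∧ |S2 - e2 / e1 * S1| ≤ ε * S1 := by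
  have hRe : 0 < R * e1 := by positivity
  have h3 : R * e1 / 2 ≤ S1 := by
    have h4 := (abs_lt.1 h1).1
    nlinarith
  have h5 : e1 / 2 ≤ S1 := by nlinarith
  refine ⟨h5, ?_⟩
  have hms : 0 ≤ e2 / e1 := by positivity
  have h6 : S2 - e2 / e1 * S1 = (S2 - R * e2) - e2 / e1 * (S1 - R * e1) := by
    field_simp
    ring
  rw [h6]
  calc |(S2 - R * e2) - e2 / e1 * (S1 - R * e1)| ≤ |S2 - R * e2| + |e2 / e1 * (S1 - R * e1)| := abs_sub _ _
    _ = |S2 - R * e2| + e2 / e1 * |S1 - R * e1| := by rw [abs_mul, abs_of_nonneg hms]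
    _ ≤ d2 * (R * e1) + e2 / e1 * (d1 * (R * e1)) :=
        add_le_add h2.le (mul_le_mul_of_nonneg_left h1.le hms)
    _ = (e2 / e1 * d1 + d2) * (R * e1) := by ring
    _ ≤ ε / 2 * (R * e1) := mul_le_mul_of_nonneg_right hd2 hRe.le
    _ = ε * (R * e1 / 2) := by ring
    _ ≤ ε * S1 := mul_le_mul_of_nonneg_left h3 hε.le

/-- **L2**: atypical lists of R groups have a small free mass -/
theorem atypM_of (h : GroupL) : AtypM := by
  classical
  obtain ⟨c0, lam, hc0, hlam, h⟩ := h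
  intro c k' ε Lam p hc hε hLam hp
  obtain ⟨q, hq⟩ : ∃ q : ℝ, q = lam / c0 := ⟨_, rfl⟩
  have hq0 : 0 < q := by rw [hq]; positivity
  obtain ⟨d2, hd2⟩ : ∃ d2 : ℝ, d2 = ε / 4 := ⟨_, rfl⟩
  obtain ⟨d1, hd1⟩ : ∃ d1 : ℝ, d1 = min (1 / 2) (ε / (4 * (Lam * q))) := ⟨_, rfl⟩
  have hd10 : 0 < d1 := by rw [hd1]; exact lt_min (by norm_num) (by positivity)
  have hd20 : 0 < d2 := by rw [hd2]; positivity
  obtain ⟨R, hR⟩ : ∃ R : ℕ, R = ⌈2 * q ^ 2 / (d1 ^ 2 * p)⌉₊ + ⌈2 * (Lam * q) ^ 2 / (d2 ^ 2 * p)⌉₊ + 1 := ⟨_, rfl⟩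
  have hR1 : 1 ≤ R := by omega
  have hR0 : (0 : ℝ) < R := by exact_mod_cast hR1
  have hRa : 2 * q ^ 2 / (d1 ^ 2 * p) ≤ R := by
    refine (Nat.le_ceil _).trans ?_
    exact_mod_cast (show _ ≤ R by omega)
  have hRb : 2 * (Lam * q) ^ 2 / (d2 ^ 2 * p) ≤ R := by
    refine (Nat.le_ceil _).trans ?_
    exact_mod_cast (show _ ≤ R by omega)
  obtain ⟨c1, L0, hc1, hlc, hkL, h⟩ := h (c / R) k' (by positivity)
  refine ⟨R, L0, c0 * c1 / 2, lam * c1, hR1, hkL, by positivity, by positivity, hlc, fun L hL => ?_⟩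
  obtain ⟨Ng, hNg, hNc, hmass⟩ := h L hL
  refine ⟨Ng, hNg, ?_, fun φ hφ => ?_⟩
  · push_cast
    calc (R : ℝ) * Ng ≤ R * (c / R * Ub (L - k')) := mul_le_mul_of_nonneg_left hNc hR0.le
      _ = c * Ub (L - k') := by field_simp
  obtain ⟨M, hM⟩ : ∃ M : ℝ, M = PW.mZ (2 ^ L) := ⟨_, rfl⟩
  have hM0 : 0 < M := by rw [hM]; exact PW.mZ_pos Nat.one_le_two_pow
  rw [← hM] at hmass ⊢
  obtain ⟨T0, hT0⟩ : ∃ T0 : ℝ, T0 = lam * c1 * M := ⟨_, rfl⟩
  have hT : 0 < T0 := by rw [hT0]; positivity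
  rw [← hT0] at hmass ⊢
  have hLT : 0 ≤ Lam * T0 := by positivity
  obtain ⟨μ, hμ⟩ : ∃ μ : Measure (List Bool), μ = (lawG Ng).toMeasure := ⟨_, rfl⟩
  have : IsProbabilityMeasure μ := by rw [hμ]; infer_instance
  obtain ⟨e1, he1⟩ : ∃ e1 : ℝ, e1 = ∫ g, fT T0 g ∂μ := ⟨_, rfl⟩
  obtain ⟨e2, he2⟩ : ∃ e2 : ℝ, e2 = ∫ g, fV T0 Lam φ g ∂μ := ⟨_, rfl⟩
  have hmeas : ∀ f : List Bool → ℝ, Measurable f := fun f => measurable_of_countable f
  have hint : ∀ (f : List Bool → ℝ) (B : ℝ), (∀ g, |f g| ≤ B) → Integrable f μ := by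
    intro f B hB
    exact Integrable.of_bound (hmeas f).aestronglyMeasurable B (Filter.Eventually.of_forall fun g => by
      rw [Real.norm_eq_abs]; exact hB g)
  have hfT : ∀ g, |fT T0 g| ≤ T0 := fun g => abs_le_of_mem (fT_nonneg T0 g) (fT_le hT.le g)
  have hfV : ∀ g, |fV T0 Lam φ g| ≤ Lam * T0 := fun g => abs_le_of_mem (fV_nonneg hLT hφ g) (fV_le hLT φ g)
  have he1l : c0 * (c1 * M) ≤ e1 := by
    obtain ⟨W, hW⟩ : ∃ W : Set (List Bool), W = {V | c1 * M ≤ (V.length : ℝ) ∧ (V.length : ℝ) ≤ T0} := ⟨_, rfl⟩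
    have h1 : ENNReal.ofReal c0 ≤ μ W := by
      rw [hμ, lawG_set, hW]
      exact hmass
    have h2 : c0 ≤ μ.real W := by
      rw [Measure.real, ← ENNReal.ofReal_le_iff_le_toReal (measure_ne_top μ W)]
      exact h1
    have hWm : MeasurableSet W := trivial
    have h3 : ∫ g, W.indicator (fun _ => c1 * M) g ∂μ ≤ e1 := by
      rw [he1]
      refine integral_mono ((integrable_const (c1 * M)).indicator hWm) (hint _ _ hfT) fun g => ?_
      by_cases hg : g ∈ W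
      · rw [Set.indicator_of_mem hg]
        have hg' := hg
        rw [hW] at hg'
        unfold fT
        rw [if_pos hg'.2]
        exact hg'.1
      · rw [Set.indicator_of_notMem hg]
        exact fT_nonneg T0 g
    rw [integral_indicator_const _ hWm, smul_eq_mul] at h3
    exact (mul_le_mul_of_nonneg_right h2 (by positivity)).trans h3
  have he10 : 0 < e1 := lt_of_lt_of_le (by positivity) he1l
  have he20 : 0 ≤ e2 := by rw [he2]; exact integral_nonneg fun g => fV_nonneg hLT hφ g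
  have he2l : e2 ≤ Lam * T0 := by
    rw [he2]
    have h1 := integral_mono (hint _ _ hfV) (integrable_const (μ := μ) (Lam * T0)) fun g => fV_le hLT φ g
    rwa [integral_const, probReal_univ, one_smul] at h1
  have hTq : T0 / e1 ≤ q := by
    rw [div_le_iff₀ he10, hq, hT0]
    calc lam * c1 * M = lam / c0 * (c0 * (c1 * M)) := by field_simp
      _ ≤ lam / c0 * e1 := mul_le_mul_of_nonneg_left he1l (by positivity)
  refine ⟨e2 / e1, by positivity, ?_⟩
  refine (gf_groups R Ng (fun gs => Typ M T0 Lam (c0 * c1 / 2) ε (e2 / e1) φ gs)).trans ?_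
  rw [← hμ]
  have hA := cheb μ hfT R (s := d1 * (R * e1)) (by positivity)
  have hB := cheb μ hfV R (s := d2 * (R * e1)) (by positivity)
  rw [← he1] at hA
  rw [← he2] at hB
  have hsub : {v : Fin R → List Bool | ¬ Typ M T0 Lam (c0 * c1 / 2) ε (e2 / e1) φ (List.ofFn v)} ⊆
      {v | d1 * (R * e1) ≤ |∑ i, fT T0 (v i) - R * e1|} ∪ {v | d2 * (R * e1) ≤ |∑ i, fV T0 Lam φ (v i) - R * e2|} := by
    intro v hv
    by_contra hcon
    rw [Set.mem_union, not_or] at hcon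
    obtain ⟨h1, h2⟩ := hcon
    have h1 : |∑ i, fT T0 (v i) - R * e1| < d1 * (R * e1) := not_le.1 h1
    have h2 : |∑ i, fV T0 Lam φ (v i) - R * e2| < d2 * (R * e1) := not_le.1 h2
    apply hv
    show c0 * c1 / 2 * M ≤ sT T0 (List.ofFn v) ∧ |sV T0 Lam φ (List.ofFn v) - e2 / e1 * sT T0 (List.ofFn v)| ≤
      ε * sT T0 (List.ofFn v)
    rw [sT_ofFn, sV_ofFn]
    have hms : e2 / e1 * d1 + d2 ≤ ε / 2 := by
      have h3 : e2 / e1 ≤ Lam * q := by
        calc e2 / e1 ≤ Lam * T0 / e1 := div_le_div_of_nonneg_right he2l he10.le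
          _ = Lam * (T0 / e1) := by ring
          _ ≤ Lam * q := mul_le_mul_of_nonneg_left hTq hLam.le
      have h4 : d1 ≤ ε / (4 * (Lam * q)) := by rw [hd1]; exact min_le_right _ _
      have h5 : e2 / e1 * d1 ≤ Lam * q * (ε / (4 * (Lam * q))) := mul_le_mul h3 h4 hd10.le (by positivity)
      have h6 : Lam * q * (ε / (4 * (Lam * q))) = ε / 4 := by field_simp
      linarith
    obtain ⟨h3, h4⟩ := typ_det (by exact_mod_cast hR1) he10 he20 (by rw [hd1]; exact min_le_left _ _) hms hε h1 h2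
    refine ⟨?_, h4⟩
    calc c0 * c1 / 2 * M = c0 * (c1 * M) / 2 := by ring
      _ ≤ e1 / 2 := by linarith
      _ ≤ _ := h3
  refine (measure_mono hsub).trans ((measure_union_le _ _).trans ((add_le_add hA hB).trans ?_))
  rw [← ENNReal.ofReal_add (by positivity) (by positivity)]
  refine ENNReal.ofReal_le_ofReal ?_
  have hbd : ∀ B d b : ℝ, 0 ≤ B → B / e1 ≤ b → 0 < d → 2 * b ^ 2 / (d ^ 2 * p) ≤ R →
      R * B ^ 2 / (d * (R * e1)) ^ 2 ≤ p / 2 := by
    intro B d b hB0 hB hd hR'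
    rw [div_le_iff₀ (by positivity)] at hR'
    have h1 : R * B ^ 2 / (d * (R * e1)) ^ 2 = (B / e1) ^ 2 / (d ^ 2 * R) := by field_simp
    rw [h1, div_le_iff₀ (by positivity)]
    have h2 : (B / e1) ^ 2 ≤ b ^ 2 := pow_le_pow_left₀ (by positivity) hB 2
    nlinarith
  have hF1 := hbd T0 d1 q hT.le hTq hd10 hRa
  have hF2 := hbd (Lam * T0) d2 (Lam * q) hLT (by
    rw [mul_div_assoc]
    exact mul_le_mul_of_nonneg_left hTq hLam.le) hd20 hRb
  linarith

end NPR

end HexObs
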