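import Pool.Agent.NPR.Clk

/-!
# NPR, row P3' (helper69): weak convergence of the curves and avoidance of discs

* **`avoid_iff`** : the laws of the rescaled walks converge weakly iff for all centres `z 1, .., z m` and almost all radii
  `r 1, .., r m` the probability that the curve misses the closed discs with these centres and radii converges.
-/

set_option autoImplicit false

open Set Filter Topology MeasureTheory
open scoped ENNReal

namespace Pool.Agent.NPR

open Pool.Agent.NTS.Res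
open NTF (open_le cont_eval)

namespace Av

/-- the distance of a point and a curve -/
noncomputable def dd (z : ℂ) (γ : C(unitInterval, ℂ)) : ℝ := Metric.infDist z (range γ)

lemma dd_att (z : ℂ) (γ : C(unitInterval, ℂ)) : ∃ u, dd z γ = dist (γ u) z := by
  obtain ⟨y, ⟨u, rfl⟩, h⟩ := (isCompact_range γ.continuous).exists_infDist_eq_dist (range_nonempty γ) z
  exact ⟨u, by rw [dist_comm]; exact h⟩

lemma dd_le (z : ℂ) (γ : C(unitInterval, ℂ)) (u : unitInterval) : dd z γ ≤ dist (γ u) z := by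
  rw [dist_comm]
  exact Metric.infDist_le_dist_of_mem ⟨u, rfl⟩

lemma dd_lip (z : ℂ) (γ γ' : C(unitInterval, ℂ)) : dd z γ ≤ dd z γ' + dist γ γ' := by
  obtain ⟨u, hu⟩ := dd_att z γ'
  rw [hu]
  have h1 := dd_le z γ u
  have h2 := dist_triangle (γ u) (γ' u) z
  have h3 := ContinuousMap.dist_apply_le_dist (f := γ) (g := γ') u
  linarith

lemma dd_cont (z : ℂ) : Continuous (dd z) := by
  rw [Metric.continuous_iff]
  intro γ ε hε
  refine ⟨ε, hε, fun γ' h => ?_⟩
  have h1 := dd_lip z γ γ'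
  have h2 := dd_lip z γ' γ
  rw [dist_comm] at h1
  rw [Real.dist_eq, abs_lt]
  constructor <;> linarith

/-- the curves that miss the closed discs -/
def Op {m : ℕ} (z : Fin m → ℂ) (r : Fin m → ℝ) : Set C(unitInterval, ℂ) := {γ | ∀ i, r i < dd (z i) γ}

/-- the curves that miss the open discs -/
def Cl {m : ℕ} (z : Fin m → ℂ) (r : Fin m → ℝ) : Set C(unitInterval, ℂ) := {γ | ∀ i, r i ≤ dd (z i) γ}

lemma op_eq {m : ℕ} (z : Fin m → ℂ) (r : Fin m → ℝ) :
    {γ : C(unitInterval, ℂ) | ∀ i u, r i < dist (γ u) (z i)} = Op z r := by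
  ext γ
  constructor
  · intro h i
    obtain ⟨u, hu⟩ := dd_att (z i) γ
    rw [hu]
    exact h i u
  · intro h i u
    exact lt_of_lt_of_le (h i) (dd_le (z i) γ u)

lemma op_open {m : ℕ} (z : Fin m → ℂ) (r : Fin m → ℝ) : IsOpen (Op z r) := by
  have e : Op z r = ⋂ i, {γ | r i < dd (z i) γ} := by
    ext γ
    rw [mem_iInter]
    exact Iff.rfl
  rw [e]
  exact isOpen_iInter_of_finite fun i => isOpen_lt continuous_const (dd_cont _)

lemma cl_closed {m : ℕ} (z : Fin m → ℂ) (r : Fin m → ℝ) : IsClosed (Cl z r) := by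
  have e : Cl z r = ⋂ i, {γ | r i ≤ dd (z i) γ} := by
    ext γ
    rw [mem_iInter]
    exact Iff.rfl
  rw [e]
  exact isClosed_iInter fun i => isClosed_le continuous_const (dd_cont _)

/-- the hypothesis: the avoidance probabilities converge -/
def AvC : Prop := ∀ (m : ℕ) (z : Fin m → ℂ), ∀ᵐ r : Fin m → ℝ, ∃ l : ℝ,
  Tendsto (fun n => (law n).real {γ : C(unitInterval, ℂ) | ∀ i u, r i < dist (γ u) (z i)}) atTop (𝓝 l)

/-! ### 1. If the laws converge -/

lemma avC_of {ν : Measure C(unitInterval, ℂ)} (hν : IsProbabilityMeasure ν) (h : LawTo (fun n => n) ν) : AvC := by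
  intro m z
  have h2 := (NTSF.lawTo_iff ⟨ν, hν⟩).1 h
  have hae : ∀ i : Fin m, ∀ᵐ r : Fin m → ℝ, ν {γ | dd (z i) γ = r i} = 0 := by
    intro i
    have h1 : {t : ℝ | 0 < ν {γ | dd (z i) γ = t}}.Countable :=
      Measure.countable_meas_level_set_pos (dd_cont (z i)).measurable
    have h3 : ∀ᵐ t : ℝ, ν {γ | dd (z i) γ = t} = 0 := by
      filter_upwards [h1.ae_notMem volume] with t ht
      by_contra hcon
      exact ht (pos_iff_ne_zero.2 hcon)
    exact (Measure.tendsto_eval_ae_ae (μ := fun _ : Fin m => (volume : Measure ℝ)) (i := i)).eventually h3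
  filter_upwards [ae_all_iff.2 hae] with r hr
  rw [op_eq]
  have hf : ν (frontier (Op z r)) = 0 := by
    have hsub : frontier (Op z r) ⊆ ⋃ i, {γ | dd (z i) γ = r i} := by
      intro γ hγ
      rw [(op_open z r).frontier_eq] at hγ
      obtain ⟨h3, h4⟩ := hγ
      have h5 : γ ∈ Cl z r := by
        refine closure_minimal ?_ (cl_closed z r) h3
        intro γ' h' i
        exact (h' i).le
      have h6 : ¬ ∀ i, r i < dd (z i) γ := h4
      push Not at h6
      obtain ⟨i, hi⟩ := h6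
      exact mem_iUnion.2 ⟨i, le_antisymm hi (h5 i)⟩
    exact measure_mono_null hsub (measure_iUnion_null hr)
  have h7 := ProbabilityMeasure.tendsto_measure_of_null_frontier_of_tendsto' h2 hf
  refine ⟨(ν (Op z r)).toReal, ?_⟩
  exact (ENNReal.tendsto_toReal (measure_ne_top _ _)).comp h7

/-! ### 2. If the avoidance probabilities converge -/

lemma op_lim {φ : ℕ → ℕ} (hφ : Tendsto φ atTop atTop) {ν : Measure C(unitInterval, ℂ)} (hν : IsProbabilityMeasure ν)
    (hl : LawTo φ ν) {m : ℕ} (z : Fin m → ℂ) (r : Fin m → ℝ) {l : ℝ}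
    (h : Tendsto (fun n => (law n).real {γ : C(unitInterval, ℂ) | ∀ i u, r i < dist (γ u) (z i)}) atTop (𝓝 l)) :
    ν (Op z r) ≤ ENNReal.ofReal l ∧ ENNReal.ofReal l ≤ ν (Cl z r) := by
  have hl2 := (NTSF.lawTo_iff ⟨ν, hν⟩).1 hl
  rw [op_eq] at h
  have h2 : Tendsto (fun k => law (φ k) (Op z r)) atTop (𝓝 (ENNReal.ofReal l)) := by
    have h3 := (ENNReal.tendsto_ofReal h).comp hφ
    refine h3.congr fun k => ?_
    have : IsProbabilityMeasure (law (φ k)) := NTSF.law_prob _
    exact ENNReal.ofReal_toReal (measure_ne_top _ _)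
  constructor
  · have h4 := ProbabilityMeasure.le_liminf_measure_open_of_tendsto hl2 (op_open z r)
    exact h4.trans_eq h2.liminf_eq
  · have h4 := ProbabilityMeasure.limsup_measure_closed_le_of_tendsto hl2 (cl_closed z r)
    refine le_trans ?_ h4
    rw [← h2.limsup_eq]
    refine limsup_le_limsup (Eventually.of_forall fun k => measure_mono fun γ hγ i => (hγ i).le) ?_ ?_
    · isBoundedDefault
    · isBoundedDefault

lemma op_le (h : AvC) {φ φ' : ℕ → ℕ} (hφ : Tendsto φ atTop atTop) (hφ' : Tendsto φ' atTop atTop)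
    {ν ν' : Measure C(unitInterval, ℂ)} (hν : IsProbabilityMeasure ν) (hν' : IsProbabilityMeasure ν')
    (hl : LawTo φ ν) (hl' : LawTo φ' ν') {m : ℕ} (z : Fin m → ℂ) (r : Fin m → ℝ) : ν (Op z r) ≤ ν' (Op z r) := by
  have e : Op z r = ⋃ k : ℕ, Op z (fun i => r i + 1 / ((k : ℝ) + 1)) := by
    ext γ
    rw [mem_iUnion]
    constructor
    · intro hγ
      have h1 : ∀ i, ∃ k : ℕ, r i + 1 / ((k : ℝ) + 1) < dd (z i) γ := by
        intro i
        obtain ⟨k, hk⟩ := exists_nat_one_div_lt (sub_pos.2 (hγ i))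
        exact ⟨k, by linarith⟩
      choose k hk using h1
      refine ⟨Finset.univ.sup k, fun i => lt_of_le_of_lt ?_ (hk i)⟩
      have h2 : k i ≤ Finset.univ.sup k := Finset.le_sup (Finset.mem_univ i)
      have h3 : (k i : ℝ) ≤ (Finset.univ.sup k : ℕ) := by exact_mod_cast h2
      have h4 : (0 : ℝ) < (k i : ℝ) + 1 := by positivity
      have h5 := one_div_le_one_div_of_le h4 (by linarith : (k i : ℝ) + 1 ≤ (Finset.univ.sup k : ℕ) + 1)
      simp only
      linarith
    · rintro ⟨k, hk⟩ i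
      have h1 := hk i
      have h2 : (0 : ℝ) < 1 / ((k : ℝ) + 1) := by positivity
      linarith
  have hmono : Monotone fun k : ℕ => Op z (fun i => r i + 1 / ((k : ℝ) + 1)) := by
    intro a b hab γ hγ i
    have h1 := hγ i
    have h3 : (a : ℝ) ≤ b := by exact_mod_cast hab
    have h4 : (0 : ℝ) < (a : ℝ) + 1 := by positivity
    have h5 := one_div_le_one_div_of_le h4 (by linarith : (a : ℝ) + 1 ≤ b + 1)
    simp only at h1 ⊢
    linarith
  have ht := tendsto_measure_iUnion_atTop (μ := ν) hmono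
  rw [← e] at ht
  refine le_of_tendsto' ht fun k => ?_
  have hd : Dense {r' : Fin m → ℝ | ∃ l : ℝ,
      Tendsto (fun n => (law n).real {γ : C(unitInterval, ℂ) | ∀ i u, r' i < dist (γ u) (z i)}) atTop (𝓝 l)} :=
    Measure.dense_of_ae (h m z)
  have hs : (0 : ℝ) < 1 / ((k : ℝ) + 1) := by positivity
  obtain ⟨r', hr', l, hlim⟩ : ∃ r' : Fin m → ℝ, (∀ i, r i < r' i ∧ r' i < r i + 1 / ((k : ℝ) + 1)) ∧ ∃ l : ℝ,
      Tendsto (fun n => (law n).real {γ : C(unitInterval, ℂ) | ∀ i u, r' i < dist (γ u) (z i)}) atTop (𝓝 l) := by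
    have ho : IsOpen (Set.pi univ fun i : Fin m => Ioo (r i) (r i + 1 / ((k : ℝ) + 1))) :=
      isOpen_set_pi finite_univ fun i _ => isOpen_Ioo
    obtain ⟨r', h1, h2⟩ := hd.exists_mem_open ho
      ⟨fun i => r i + 1 / ((k : ℝ) + 1) / 2, fun i _ => ⟨by linarith, by linarith⟩⟩
    exact ⟨r', fun i => h2 i (mem_univ i), h1⟩
  calc ν (Op z fun i => r i + 1 / ((k : ℝ) + 1)) ≤ ν (Op z r') :=
        measure_mono fun γ hγ i => lt_of_lt_of_le' (hγ i) (hr' i).2.le
    _ ≤ ENNReal.ofReal l := (op_lim hφ hν hl z r' hlim).1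
    _ ≤ ν' (Cl z r') := (op_lim hφ' hν' hl' z r' hlim).2
    _ ≤ ν' (Op z r) := measure_mono fun γ hγ i => lt_of_lt_of_le (hr' i).1 (hγ i)

/-- a dense sequence of points -/
noncomputable def q : ℕ → ℂ := TopologicalSpace.denseSeq ℂ

/-- the distances of the curve to a dense sequence of points -/
noncomputable def T (γ : C(unitInterval, ℂ)) (k : ℕ) : ℝ := dd (q k) γ

lemma T_cont : Continuous T := continuous_pi fun _ => dd_cont _

lemma T_map {ν ν' : Measure C(unitInterval, ℂ)} (hν : IsProbabilityMeasure ν) (hν' : IsProbabilityMeasure ν')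
    (h : ∀ (m : ℕ) (z : Fin m → ℂ) (r : Fin m → ℝ), ν (Op z r) = ν' (Op z r)) : ν.map T = ν'.map T := by
  have hT : Measurable T := T_cont.measurable
  have : IsProbabilityMeasure (ν.map T) := Measure.isProbabilityMeasure_map hT.aemeasurable
  have : IsProbabilityMeasure (ν'.map T) := Measure.isProbabilityMeasure_map hT.aemeasurable
  let P : ℕ → Set (Set (ℕ → ℝ)) := fun k => (fun A => Function.eval k ⁻¹' A) '' range (Ioi : ℝ → Set ℝ)
  refine ext_of_generate_finite (piiUnionInter P univ) ?_ (isPiSystem_piiUnionInter _ ?_ _) ?_ ?_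
  · refine le_antisymm ?_ ?_
    · refine iSup_le fun k => ?_
      have hb : Real.measurableSpace = MeasurableSpace.generateFrom (range Ioi) :=
        (BorelSpace.measurable_eq (α := ℝ)).trans (borel_eq_generateFrom_Ioi ℝ)
      change MeasurableSpace.comap (fun b : ℕ → ℝ => b k) Real.measurableSpace ≤ _
      rw [hb, MeasurableSpace.comap_generateFrom]
      exact MeasurableSpace.generateFrom_mono (subset_piiUnionInter (π := P) (mem_univ k))
    · refine generateFrom_piiUnionInter_le _ (fun k => ?_) _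
      refine MeasurableSpace.generateFrom_le ?_
      rintro _ ⟨_, ⟨s, rfl⟩, rfl⟩
      exact measurable_pi_apply k measurableSet_Ioi
  · intro k
    rintro _ ⟨_, ⟨s, rfl⟩, rfl⟩ _ ⟨_, ⟨t, rfl⟩, rfl⟩ -
    refine ⟨Ioi (max s t), ⟨_, rfl⟩, ?_⟩
    simp only
    rw [← preimage_inter, Ioi_inter_Ioi]
  · rintro _ ⟨t, -, f, hf, rfl⟩
    have hf' : ∀ x, ∃ s : ℝ, x ∈ t → f x = Function.eval x ⁻¹' Ioi s := by
      intro x
      by_cases hx : x ∈ t
      · obtain ⟨_, ⟨s, rfl⟩, h3⟩ := hf x hx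
        exact ⟨s, fun _ => h3.symm⟩
      · exact ⟨0, fun h => absurd h hx⟩
    choose s hs using hf'
    have hm : MeasurableSet (⋂ x ∈ t, f x) := by
      refine Finset.measurableSet_biInter _ fun x hx => ?_
      rw [hs x hx]
      exact measurable_pi_apply x measurableSet_Ioi
    rw [Measure.map_apply hT hm, Measure.map_apply hT hm]
    have e : T ⁻¹' (⋂ x ∈ t, f x) = Op (fun i : Fin t.card => q (t.equivFin.symm i)) fun i => s (t.equivFin.symm i) := by
      ext γ
      simp only [mem_preimage, mem_iInter]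
      constructor
      · intro h3 i
        have h4 := h3 _ (t.equivFin.symm i).2
        rw [hs _ (t.equivFin.symm i).2] at h4
        exact h4
      · intro h3 x hx
        rw [hs x hx]
        have h4 := h3 (t.equivFin ⟨x, hx⟩)
        simp only [Equiv.symm_apply_apply] at h4
        exact h4
    rw [e]
    exact h _ _ _
  · rw [measure_univ, measure_univ]

lemma T_tr {γ γ' : C(unitInterval, ℂ)} (h : T γ = T γ') : tr γ = tr γ' := by
  have h1 : ∀ x, Metric.infDist x (range γ) = Metric.infDist x (range γ') := by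
    have h2 : (fun x => Metric.infDist x (range γ)) = fun x => Metric.infDist x (range γ') := by
      refine Continuous.ext_on (TopologicalSpace.denseRange_denseSeq ℂ) (Metric.continuous_infDist_pt _)
        (Metric.continuous_infDist_pt _) ?_
      rintro _ ⟨k, rfl⟩
      exact congrFun h k
    exact fun x => congrFun h2 x
  have h3 : range γ = range γ' := by
    ext x
    rw [(isCompact_range γ.continuous).isClosed.mem_iff_infDist_zero (range_nonempty γ),
      (isCompact_range γ'.continuous).isClosed.mem_iff_infDist_zero (range_nonempty γ'), h1 x]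
  apply SetLike.coe_injective
  rw [coe_tr, coe_tr, h3]

/-- measures on the good set are determined by the avoidance probabilities -/
theorem eq_of_av {ρ : ℕ → ℝ} (hρ : ∀ j, 0 < ρ j) {ν ν' : Measure C(unitInterval, ℂ)} (hν : IsProbabilityMeasure ν)
    (hν' : IsProbabilityMeasure ν') (h1 : ∀ᵐ γ ∂ν, γ ∈ Gd ρ) (h2 : ∀ᵐ γ ∂ν', γ ∈ Gd ρ)
    (h : ∀ (m : ℕ) (z : Fin m → ℂ) (r : Fin m → ℝ), ν (Op z r) = ν' (Op z r)) : ν = ν' := by
  have hm : Measurable T := T_cont.measurable
  have hmap : ν.map T = ν'.map T := T_map hν hν' h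
  have hinj : InjOn T (Gd ρ) := fun γ hγ γ' hγ' ht =>
    same_time hρ hγ.1 hγ'.1 (hγ.2.1.trans hγ'.2.1.symm) hγ.2.2 hγ'.2.2 (T_tr ht)
  have hG := Gd_meas hρ
  refine Measure.ext fun A hA => ?_
  have hI : MeasurableSet (T '' (A ∩ Gd ρ)) :=
    (hA.inter hG).image_of_measurable_injOn hm (hinj.mono inter_subset_right)
  have key : ∀ μ : Measure C(unitInterval, ℂ), (∀ᵐ γ ∂μ, γ ∈ Gd ρ) → μ A = μ.map T (T '' (A ∩ Gd ρ)) := by
    intro μ hμ
    rw [Measure.map_apply hm hI]
    refine measure_congr ?_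
    filter_upwards [hμ] with γ hγ
    refine propext ⟨fun hA' => ⟨γ, ⟨hA', hγ⟩, rfl⟩, ?_⟩
    rintro ⟨γ', ⟨h3, h4⟩, h5⟩
    rw [← hinj h4 hγ h5]
    exact h3
  rw [key ν h1, key ν' h2, hmap]

/-- **the laws converge weakly iff the avoidance probabilities converge** -/
theorem avoid_iff {ρ : ℕ → ℝ} (hρ : Scl ρ)
    (hsub : ∀ φ : ℕ → ℕ, StrictMono φ → ∃ ψ : ℕ → ℕ, StrictMono ψ ∧ ∃ ν : Measure C(unitInterval, ℂ),
      IsProbabilityMeasure ν ∧ LawTo (fun k => φ (ψ k)) ν)
    (hinj : ∀ (φ : ℕ → ℕ) (ν : Measure C(unitInterval, ℂ)), Tendsto φ atTop atTop → IsProbabilityMeasure ν → LawTo φ ν →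
      ∀ᵐ γ : C(unitInterval, ℂ) ∂ν, Function.Injective γ) :
    AvC ↔ ∃ ν : Measure C(unitInterval, ℂ), IsProbabilityMeasure ν ∧ LawTo (fun n => n) ν := by
  constructor
  · intro h
    have good : ∀ (φ : ℕ → ℕ) (ν : Measure C(unitInterval, ℂ)), Tendsto φ atTop atTop → IsProbabilityMeasure ν →
        LawTo φ ν → ∀ᵐ γ ∂ν, γ ∈ Gd ρ := by
      intro φ ν hφ hν hlim
      filter_upwards [hinj φ ν hφ hν hlim, NTSF.limit_zeroQ hν hlim, clk_lim hρ hφ hν hlim] with γ h1 h2 h3
      exact ⟨h1, h2, h3⟩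
    obtain ⟨ψ0, hψ0, ν0, hν0, hl0⟩ := hsub (fun n => n) strictMono_id
    refine ⟨ν0, hν0, fun f => ?_⟩
    refine tendsto_of_subseq_tendsto fun ns hns => ?_
    obtain ⟨φ1, hφ1, hφ2⟩ := strictMono_subseq_of_tendsto_atTop hns
    obtain ⟨ψ, hψ, ν, hν, hl⟩ := hsub (ns ∘ φ1) hφ2
    have t0 : Tendsto (fun k => ψ0 k) atTop atTop := hψ0.tendsto_atTop
    have t1 : Tendsto (fun k => (ns ∘ φ1) (ψ k)) atTop atTop := (hφ2.comp hψ).tendsto_atTop
    have e : ν = ν0 := by
      refine eq_of_av hρ.pos hν hν0 (good _ ν t1 hν hl) (good _ ν0 t0 hν0 hl0) fun m z r => ?_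
      exact le_antisymm (op_le h t1 t0 hν hν0 hl hl0 z r) (op_le h t0 t1 hν0 hν hl0 hl z r)
    refine ⟨fun k => φ1 (ψ k), ?_⟩
    have := hl f
    rwa [e] at this
  · rintro ⟨ν, hν, h⟩
    exact avC_of hν h

end Av

end Pool.Agent.NPR
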