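import Pool.Agent.NPR.Vm
import Pool.Agent.NPR.Clk
import Pool.Agent.NTS.Dict
import Pool.Agent.NT.LawH

/-!
# NPR, row P1c: from the words to the curves, one walk (helper34)

* `vb_up`, `vb_dn` : the clock of the curve and the functional `Vm` of the word;
* `clk_one` : the clock of one walk.
-/

set_option autoImplicit false

open Set Filter Topology MeasureTheory
open scoped ENNReal

namespace Pool.Agent.NPR

open HexObs hiding pos curve
open HexObs.TIW HexObs.TS HexObs.SDN HexObs.NPR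
open NTF (JJ JJ_norm JJ_sub JJ_neg JJ_add Hd Hd_iff sw)
open Pool.Agent.NTS.Res
open NTSF (rot om om_norm pos_rot rot_mem curve_eq)

/-! ### rotations -/

lemma curve_rot {n : ℕ} (s : Fin n → Fin 3) (u : unitInterval) : curve (rot s) u = om * curve s u := by
  show ∑ k ∈ Finset.range n, _ = om * ∑ k ∈ Finset.range n, _
  rw [Finset.mul_sum]
  refine Finset.sum_congr rfl fun k _ => ?_
  rw [pos_rot, pos_rot]
  ring

lemma dist_rot {n : ℕ} (s : Fin n → Fin 3) (u v : unitInterval) :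
    dist (curve (rot s) u) (curve (rot s) v) = dist (curve s u) (curve s v) := by
  rw [curve_rot, curve_rot, dist_eq_norm, dist_eq_norm, ← mul_sub, norm_mul, om_norm, one_mul]

lemma pcs_iso {γ γ' : C(unitInterval, ℂ)} (h : ∀ u v, dist (γ u) (γ v) = dist (γ' u) (γ' v)) (s : ℝ) (a b : unitInterval) :
    pcs s γ a b = pcs s γ' a b := by
  have e : ∀ k, PcOk s γ a b k ↔ PcOk s γ' a b k := by
    intro k
    constructor
    · rintro ⟨h1, u, h2, h3, h4, h5⟩
      exact ⟨h1, u, h2, h3, h4, fun i hi p hp q hq => by rw [← h]; exact h5 i hi p hp q hq⟩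
    · rintro ⟨h1, u, h2, h3, h4, h5⟩
      exact ⟨h1, u, h2, h3, h4, fun i hi p hp q hq => by rw [h]; exact h5 i hi p hp q hq⟩
  unfold pcs
  congr 1
  ext k
  exact e k

lemma vb_iso {γ γ' : C(unitInterval, ℂ)} (h : ∀ u v, dist (γ u) (γ v) = dist (γ' u) (γ' v)) (ρ : ℝ) (u : unitInterval) :
    vb ρ γ u = vb ρ γ' u := by
  unfold vb
  simp only [pcs_iso h]

lemma bd_rot {n : ℕ} (s : Fin n → Fin 3) (ρ ε : ℝ) : curve (rot s) ∈ Bd ρ ε ↔ curve s ∈ Bd ρ ε := by
  have h := vb_iso (γ := curve (rot s)) (γ' := curve s) (dist_rot s) ρ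
  show (∃ u : unitInterval, _) ↔ ∃ u : unitInterval, _
  simp only [h]

lemma hd_rot {n : ℕ} (s : Fin n → Fin 3) (M a : ℝ) : Hd M a (curve (rot s)) ↔ Hd M a (curve s) := by
  unfold Hd
  simp only [dist_rot]

/-! ### Hoelder curves have few pieces -/

lemma pcs_le_unif {γ : C(unitInterval, ℂ)} {s : ℝ} {N : ℕ} (hN : 1 ≤ N)
    (h : ∀ p q : unitInterval, dist p q ≤ 1 / N → dist (γ p) (γ q) ≤ s) : pcs s γ 0 1 ≤ N := by
  have hN0 : (0 : ℝ) < N := by exact_mod_cast hN
  have hmem : ∀ i : ℕ, min ((i : ℝ) / N) 1 ∈ Icc (0 : ℝ) 1 := fun i => ⟨le_min (by positivity) (by norm_num), min_le_right _ _⟩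
  refine pcs_le ⟨hN, fun i => ⟨min ((i : ℝ) / N) 1, hmem i⟩, ?_, ?_, ?_, ?_⟩
  · intro i j hij
    have hij' : (i : ℝ) ≤ j := by exact_mod_cast hij
    show min ((i : ℝ) / N) 1 ≤ min ((j : ℝ) / N) 1
    exact min_le_min (div_le_div_of_nonneg_right hij' hN0.le) le_rfl
  · ext
    show min (((0 : ℕ) : ℝ) / N) 1 = 0
    rw [Nat.cast_zero, zero_div, min_eq_left (by norm_num)]
  · ext
    show min (((N : ℕ) : ℝ) / N) 1 = 1
    rw [div_self hN0.ne', min_self]
  · rintro i - p ⟨hp1, hp2⟩ q ⟨hq1, hq2⟩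
    refine h p q ?_
    have hp1' : min ((i : ℝ) / N) 1 ≤ p := hp1
    have hp2' : (p : ℝ) ≤ min (((i + 1 : ℕ) : ℝ) / N) 1 := hp2
    have hq1' : min ((i : ℝ) / N) 1 ≤ q := hq1
    have hq2' : (q : ℝ) ≤ min (((i + 1 : ℕ) : ℝ) / N) 1 := hq2
    have e : min (((i + 1 : ℕ) : ℝ) / N) 1 ≤ min ((i : ℝ) / N) 1 + 1 / N := by
      have e1 : (((i + 1 : ℕ) : ℝ) / N) = (i : ℝ) / N + 1 / N := by
        push_cast
        ring
      have e2 : (0 : ℝ) ≤ 1 / N := by positivity
      rw [e1]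
      rcases le_total ((i : ℝ) / N) 1 with h5 | h5
      · rw [min_eq_left h5]
        exact min_le_left _ _
      · rw [min_eq_right h5]
        exact (min_le_right _ _).trans (by linarith)
    rw [Subtype.dist_eq, Real.dist_eq, abs_le]
    constructor <;> linarith

lemma hd_pcs {γ : C(unitInterval, ℂ)} {M s : ℝ} (hM : 0 ≤ M) (hs : 0 < s) (h : Hd M (1 / 2) γ) :
    pcs s γ 0 1 ≤ ⌈(M / s) ^ 2⌉₊ + 1 := by
  refine pcs_le_unif (by omega) fun p q hpq => (h p q).trans ?_
  obtain ⟨N, hN⟩ : ∃ N, N = ⌈(M / s) ^ 2⌉₊ + 1 := ⟨_, rfl⟩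
  rw [← hN] at hpq
  have hN0 : (0 : ℝ) < N := by
    rw [hN]
    positivity
  have h1 : (M / s) ^ 2 ≤ N := by
    rw [hN]
    push_cast
    linarith [Nat.le_ceil ((M / s) ^ 2)]
  have h2 : dist p q ^ (1 / 2 : ℝ) ≤ (1 / (N : ℝ)) ^ (1 / 2 : ℝ) := Real.rpow_le_rpow dist_nonneg hpq (by norm_num)
  refine (mul_le_mul_of_nonneg_left h2 hM).trans ?_
  rw [← Real.sqrt_eq_rpow]
  have h3 : M * √(1 / (N : ℝ)) = √(M ^ 2 / N) := by
    rw [div_eq_mul_one_div (M ^ 2), Real.sqrt_mul (sq_nonneg M), Real.sqrt_sq hM]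
  rw [h3]
  refine Real.sqrt_le_iff.2 ⟨hs.le, ?_⟩
  rw [div_pow, div_le_iff₀ (by positivity)] at h1
  rw [div_le_iff₀ hN0]
  linarith

/-! ### the two bounds -/

section

variable {n : ℕ} {t : List Bool}

lemma pos_zw (k : ℕ) (hk : k ≤ n) : pos (sw n t) k = zw t k := by
  rw [NTSF.pos_sw n t k hk]
  rfl

lemma vz_take (ht : t.length = n) {k : ℕ} (hk : k ≤ n) (x : ℝ) :
    Vz x (fun j => pos (sw n t) j) 0 k = Vz x (zw (t.take k)) 0 (t.take k).length := by
  have h := Vz_congr (x := x) (z := fun j => pos (sw n t) j) (z' := zw (t.take k)) (a := 0) (b := k) (a' := 0)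
    (Nat.zero_le _) (fun p hp q hq => by
      rw [Nat.sub_zero] at hp hq
      show dist (pos (sw n t) (0 + p)) (pos (sw n t) (0 + q)) = _
      rw [Nat.zero_add, Nat.zero_add, zw_take (by omega) hp, zw_take (by omega) hq,
        pos_zw p (hp.trans hk), pos_zw q (hq.trans hk)])
  rw [Nat.sub_zero, Nat.zero_add] at h
  rw [h, List.length_take, min_eq_left (by omega)]

lemma pos_step1 {k : ℕ} (hk : k ≤ n) : ∀ i, 0 ≤ i → i < k →
    dist (pos (sw n t) i) (pos (sw n t) (i + 1)) ≤ 1 := by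
  intro i _ hi
  rw [pos_zw i (by omega), pos_zw (i + 1) (by omega)]
  exact zw_step t i

/-- the number of pieces as a function of the scale is integrable -/
lemma vp_int {k : ℕ} (hk : k ≤ n) {a b : ℝ} (ha : 1 ≤ a) (hab : a ≤ b) :
    IntervalIntegrable (fun x => (Vz x (fun j => pos (sw n t) j) 0 k : ℝ)) volume a b := by
  refine AntitoneOn.intervalIntegrable ?_
  rw [uIcc_of_le hab]
  intro x hx y hy hxy
  show (Vz y _ 0 k : ℝ) ≤ (Vz x _ 0 k : ℝ)
  exact_mod_cast Vz_anti (ha.trans hx.1) hxy (Nat.zero_le _) (pos_step1 hk)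

theorem vb_up (hn : 1 ≤ n) (ht : t.length = n) {ρ : ℝ} (hρ : 0 < ρ) (hR : 1 ≤ ρ * size n) {k : ℕ} (hk : k ≤ n)
    {v : unitInterval} (hv : (v : ℝ) ≤ (k : ℝ) / n) : vb ρ (curve (sw n t)) v ≤ ρ * Vm (ρ * size n) (t.take k) := by
  have hs := NTSF.size_pos hn
  have h1 : vb ρ (curve (sw n t)) v ≤ ∫ σ in ρ..2 * ρ, (Vz (σ * size n) (fun j => pos (sw n t) j) 0 k : ℝ) := by
    refine intervalIntegral.integral_mono_on (by linarith) (pcs_int _ _ hρ (by linarith)) ?_ fun σ hσ => ?_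
    · have := (vp_int (t := t) hk hR (show ρ * size n ≤ 2 * ρ * size n by nlinarith)).comp_mul_right (c := size n)
      rwa [mul_div_cancel_right₀ _ hs.ne', mul_div_cancel_right₀ _ hs.ne'] at this
    · have : 1 ≤ σ * size n := hR.trans (mul_le_mul_of_nonneg_right hσ.1 hs.le)
      exact_mod_cast pcs_le_Vz hn (sw n t) hk this hv
  rw [intervalIntegral.integral_comp_mul_right (fun x => (Vz x (fun j => pos (sw n t) j) 0 k : ℝ)) hs.ne', smul_eq_mul] at h1
  refine h1.trans (le_of_eq ?_)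
  unfold Vm
  simp only [vz_take ht hk]
  rw [show 2 * ρ * size n = 2 * (ρ * size n) by ring]
  field_simp

theorem vb_dn (hn : 1 ≤ n) (ht : t.length = n) {ρ : ℝ} (hρ : 0 < ρ) (hR : 2 ≤ ρ * size n) {k : ℕ} (hk : k ≤ n)
    {v : unitInterval} (hv : (k : ℝ) / n ≤ v) : ρ * Vm (ρ * size n) (t.take k) ≤ vb ρ (curve (sw n t)) v +
      2 / size n * Vz (ρ * size n) (fun j => pos (sw n t) j) 0 n := by
  have hs := NTSF.size_pos hn
  obtain ⟨R, hR'⟩ : ∃ R, R = ρ * size n := ⟨_, rfl⟩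
  rw [← hR'] at hR ⊢
  obtain ⟨f, hf⟩ : ∃ f : ℝ → ℝ, f = fun x => (Vz x (fun j => pos (sw n t) j) 0 k : ℝ) := ⟨_, rfl⟩
  have hint : ∀ {a b : ℝ}, 1 ≤ a → a ≤ b → IntervalIntegrable f volume a b := fun {a b} h1 h2 => by
    rw [hf]
    exact vp_int hk h1 h2
  have h1 : ∫ σ in ρ..2 * ρ, f (σ * size n + 2) ≤ vb ρ (curve (sw n t)) v := by
    refine intervalIntegral.integral_mono_on (by linarith) ?_ (pcs_int _ _ hρ (by linarith)) fun σ hσ => ?_
    · have h2 := (hint (a := R + 2) (b := 2 * R + 2) (by linarith) (by linarith)).comp_add_right (2 : ℝ)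
      rw [add_sub_cancel_right, add_sub_cancel_right] at h2
      have h3 := h2.comp_mul_right (c := size n)
      rw [hR', mul_div_cancel_right₀ _ hs.ne', ← mul_assoc, mul_div_cancel_right₀ _ hs.ne'] at h3
      exact h3
    · have : 0 < σ := hρ.trans_le hσ.1
      rw [hf]
      show (Vz (σ * size n + 2) (fun j => pos (sw n t) j) 0 k : ℝ) ≤ _
      exact_mod_cast Vz_le_pcs hn (sw n t) hk this hv
  have e1 : ∫ σ in ρ..2 * ρ, f (σ * size n + 2) = (size n)⁻¹ * ∫ x in (R + 2)..(2 * R + 2), f x := by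
    rw [intervalIntegral.integral_comp_mul_right (fun y => f (y + 2)) hs.ne', smul_eq_mul,
      intervalIntegral.integral_comp_add_right, ← hR', show 2 * ρ * size n = 2 * R by rw [hR']; ring]
  rw [e1] at h1
  -- the integrals
  have hpos : ∀ x, 0 ≤ f x := fun x => by
    rw [hf]
    exact Nat.cast_nonneg _
  have i1 : ∫ x in R..2 * R, f x = (∫ x in R..R + 2, f x) + ∫ x in (R + 2)..(2 * R), f x :=
    (intervalIntegral.integral_add_adjacent_intervals (hint (by linarith) (by linarith))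
      (hint (by linarith) (by linarith))).symm
  have i2 : ∫ x in (R + 2)..(2 * R + 2), f x = (∫ x in (R + 2)..(2 * R), f x) + ∫ x in (2 * R)..(2 * R + 2), f x :=
    (intervalIntegral.integral_add_adjacent_intervals (hint (by linarith) (by linarith))
      (hint (by linarith) (by linarith))).symm
  have i3 : 0 ≤ ∫ x in (2 * R)..(2 * R + 2), f x :=
    intervalIntegral.integral_nonneg (by linarith) fun x _ => hpos x
  have i4 : ∫ x in R..R + 2, f x ≤ 2 * (Vz R (fun j => pos (sw n t) j) 0 n : ℝ) := by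
    have h5 : ∫ x in R..R + 2, f x ≤ ∫ x in R..R + 2, (Vz R (fun j => pos (sw n t) j) 0 n : ℝ) := by
      refine intervalIntegral.integral_mono_on (by linarith) (hint (by linarith) (by linarith)) intervalIntegrable_const
        fun x hx => ?_
      rw [hf]
      have h6 := Vz_anti (x := R) (x' := x) (z := fun j => pos (sw n t) j) (a := 0) (b := k) (by linarith) hx.1
        (Nat.zero_le _) (pos_step1 hk)
      have h7 := Vz_mono (x := R) (z := fun j => pos (sw n t) j) (a := 0) (b := k) (c := n) (by linarith)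
        (Nat.zero_le _) hk (pos_step1 le_rfl)
      show (Vz x (fun j => pos (sw n t) j) 0 k : ℝ) ≤ _
      exact_mod_cast h6.trans h7
    rw [intervalIntegral.integral_const, smul_eq_mul] at h5
    linarith
  have e2 : ρ * Vm R (t.take k) = (size n)⁻¹ * ∫ x in R..2 * R, f x := by
    unfold Vm
    rw [hf]
    simp only [vz_take ht hk]
    have hR0 : R ≠ 0 := by linarith
    have e3 : ρ / R = (size n)⁻¹ := by
      rw [hR']
      field_simp
    rw [← e3]
    ring
  rw [e2]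
  have hinv : 0 < (size n)⁻¹ := inv_pos.2 hs
  have h8 : (size n)⁻¹ * ∫ x in R..2 * R, f x ≤ (size n)⁻¹ * ((∫ x in (R + 2)..(2 * R + 2), f x) +
      2 * (Vz R (fun j => pos (sw n t) j) 0 n : ℝ)) := mul_le_mul_of_nonneg_left (by linarith) hinv.le
  refine h8.trans ?_
  rw [mul_add]
  have e4 : (size n)⁻¹ * (2 * (Vz R (fun j => pos (sw n t) j) 0 n : ℝ)) =
      2 / size n * (Vz R (fun j => pos (sw n t) j) 0 n : ℝ) := by
    ring
  rw [e4]
  linarith

/-- **the clock of one walk** -/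
theorem clk_one (hn : 1 ≤ n) (ht : t.length = n) {ρ e ka : ℝ} (hρ : 0 < ρ) (hR : 2 ≤ ρ * size n) (he : 0 < e)
    (he1 : e ≤ 1 / 6) (hka : 0 < ka) (hen : 1 ≤ e * n)
    (h1 : ∀ k, k ≤ n → |ka * Vm (ρ * size n) (t.take k) - k| ≤ e * n)
    (h2 : 2 / size n * Vz (ρ * size n) (fun j => pos (sw n t) j) 0 n ≤ e / 2 * ρ) (v : unitInterval) :
    |vb ρ (curve (sw n t)) v - v * vb ρ (curve (sw n t)) 1| ≤ 12 * e * vb ρ (curve (sw n t)) 1 := by
  have hn0 : (0 : ℝ) < n := by exact_mod_cast hn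
  obtain ⟨W, hW⟩ : ∃ W : unitInterval → ℝ, W = fun v => vb ρ (curve (sw n t)) v := ⟨_, rfl⟩
  obtain ⟨a, ha⟩ : ∃ a, a = ka / ρ := ⟨_, rfl⟩
  have ha0 : 0 < a := by
    rw [ha]
    positivity
  have haρ : a * ρ = ka := by
    rw [ha]
    field_simp
  -- ka is at most 2 n
  have hka2 : ka ≤ 2 * n := by
    have h3 := (abs_le.1 (h1 n le_rfl)).2
    have h4 := Vm_one (R := ρ * size n) (by linarith) (t.take n)
    have h5 : ka * 1 ≤ ka * Vm (ρ * size n) (t.take n) := mul_le_mul_of_nonneg_left h4 hka.le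
    nlinarith
  have key : ∀ v : unitInterval, |a * W v - v * n| ≤ 3 * e * n := by
    intro v
    have hv0 : (0 : ℝ) ≤ v := v.2.1
    have hv1 : (v : ℝ) ≤ 1 := v.2.2
    rw [abs_le]
    constructor
    · -- lower bound
      obtain ⟨k, hk⟩ : ∃ k, k = ⌊(v : ℝ) * n⌋₊ := ⟨_, rfl⟩
      have k1 : (k : ℝ) ≤ v * n := by
        rw [hk]
        exact Nat.floor_le (by positivity)
      have k2 : (v : ℝ) * n < k + 1 := by
        rw [hk]
        exact Nat.lt_floor_add_one _
      have k3 : k ≤ n := by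
        have : (k : ℝ) ≤ n := k1.trans (by nlinarith)
        exact_mod_cast this
      have k4 : (k : ℝ) / n ≤ v := by
        rw [div_le_iff₀ hn0]
        exact k1
      have h3 := vb_dn (t := t) hn ht hρ hR k3 k4
      have h4 : ρ * Vm (ρ * size n) (t.take k) ≤ W v + e / 2 * ρ := by
        rw [hW]
        linarith
      have h5 : a * (ρ * Vm (ρ * size n) (t.take k)) ≤ a * (W v + e / 2 * ρ) := mul_le_mul_of_nonneg_left h4 ha0.le
      have h6 : a * (ρ * Vm (ρ * size n) (t.take k)) = ka * Vm (ρ * size n) (t.take k) := by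
        rw [← mul_assoc, haρ]
      have h7 : a * (W v + e / 2 * ρ) = a * W v + e / 2 * ka := by
        rw [← haρ]
        ring
      rw [h6, h7] at h5
      have h8 := (abs_le.1 (h1 k k3)).1
      have h9 : e / 2 * ka ≤ e / 2 * (2 * n) := mul_le_mul_of_nonneg_left hka2 (by positivity)
      linarith
    · -- upper bound
      obtain ⟨k, hk⟩ : ∃ k, k = ⌈(v : ℝ) * n⌉₊ := ⟨_, rfl⟩
      have k1 : (v : ℝ) * n ≤ k := by
        rw [hk]
        exact Nat.le_ceil _
      have k2 : (k : ℝ) < v * n + 1 := by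
        rw [hk]
        exact Nat.ceil_lt_add_one (by positivity)
      have k3 : k ≤ n := by
        rw [hk]
        refine Nat.ceil_le.2 ?_
        nlinarith
      have k4 : (v : ℝ) ≤ (k : ℝ) / n := by
        rw [le_div_iff₀ hn0]
        exact k1
      have h3 := vb_up (t := t) hn ht hρ (by linarith) k3 k4
      have h5 : a * W v ≤ a * (ρ * Vm (ρ * size n) (t.take k)) := by
        rw [hW]
        exact mul_le_mul_of_nonneg_left h3 ha0.le
      rw [← mul_assoc, haρ] at h5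
      have h8 := (abs_le.1 (h1 k k3)).2
      linarith
  have e1 := key v
  have e2 := key 1
  rw [Set.Icc.coe_one, one_mul] at e2
  have hv0 : (0 : ℝ) ≤ v := v.2.1
  have hv1 : (v : ℝ) ≤ 1 := v.2.2
  have e3 : |a * W v - v * (a * W 1)| ≤ 6 * e * n := by
    have : a * W v - v * (a * W 1) = (a * W v - v * n) - v * (a * W 1 - n) := by ring
    rw [this]
    refine (abs_sub _ _).trans ?_
    rw [abs_mul, abs_of_nonneg hv0]
    have : (v : ℝ) * |a * W 1 - n| ≤ 1 * (3 * e * n) := mul_le_mul hv1 e2 (abs_nonneg _) (by norm_num)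
    linarith
  have e4 : (n : ℝ) / 2 ≤ a * W 1 := by
    have := (abs_le.1 e2).1
    nlinarith
  have e5 : |a * W v - v * (a * W 1)| = a * |W v - v * W 1| := by
    rw [← abs_of_pos ha0, ← abs_mul, abs_of_pos ha0]
    congr 1
    ring
  rw [e5] at e3
  have e6 : a * |W v - v * W 1| ≤ a * (12 * e * W 1) := by
    refine e3.trans ?_
    nlinarith
  have e7 := le_of_mul_le_mul_left e6 ha0
  rw [hW] at e7
  exact e7

end

end Pool.Agent.NPR
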