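import Pool.Agent.NPR.Defs2

/-!
# NPR (natural parametrisation): the literal between the rows X1 and X2
-/

set_option autoImplicit false

namespace HexObs

namespace NPR

open Finset TS SDN TIW NTA TIP

/-- **X1**: the uniform n-step walk, windows in the first three quarters of the time -/
def X1N : Prop := ∀ ε : ℝ, 0 < ε → ∃ (d n0 : ℕ), ∀ (r : ℕ) (V : List Bool → ℝ), 2 ≤ r → AF r V →
  ∀ k n : ℕ, n0 ≤ n → TIP.Sc k n → r * 2 ^ d ≤ 2 ^ k →
  ∃ ka : ℝ, 0 < ka ∧ TOG.Pn n {t | ¬ ∀ x y : ℕ, x ≤ y → 4 * y ≤ 3 * n →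
    |ka * V (wd t x y) - ((y : ℝ) - x)| ≤ ε * n} ≤ ε

end NPR

end HexObs
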