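import Pool.Agent.NPR.Defs

/-!
# NPR (natural parametrisation, doc nu34/NPR_14): literals of the parts U (fast, slow), L (leaves), S (stages), X (exactly n)

`AF r V`: additive functionals of the scale `r` (least number of pieces of diameter at most `r`, or its mean over the scales
in `[r, 2 r]`). `Rng V m a b l t`: all windows of `t` with at least `l` letters have `m V / length` in `[a, b]`.
-/

set_option autoImplicit false

namespace HexObs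

namespace NPR

open Finset TS SDN TIW NTA TIP

open scoped ENNReal

/-- the window of the letters x, ..., y of t -/
def wd (t : List Bool) (x y : ℕ) : List Bool := (t.take y).drop x

/-! ### rare factors -/

/-- **E0**: much time in a small box (from ti_WL) -/
def TimeF : Prop := ∀ q : ℕ, ∃ A B : ℝ, 1 ≤ A ∧ 1 ≤ B ∧ ∀ K L v : ℕ, L ≤ K → v ≤ L →
  gf {t | t ∈ WL K ∧ t ∈ Fac {Q | In (2 ^ (L - v)) Q ∧ PW.mZ (2 ^ L) / 8 ≤ (Q.length : ℝ)}} ≤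
    ENNReal.ofReal (A * B ^ (K - L) / (2 : ℝ) ^ (q * v)) * FK K

/-- **U1**: a large displacement in a short time -/
def FastN : Prop := ∀ δ : ℝ, 0 < δ → ∃ (lam : ℝ) (L0 : ℕ), 1 ≤ lam ∧ ∀ L, L0 ≤ L →
  gf {t | t ∈ WL (L + 16) ∧ t ∈ Fac {Q | (Q.length : ℝ) ≤ PW.mZ (2 ^ L) / lam ∧ 2 ^ L ≤ hn (vx oo up Q Q.length)}} ≤
    ENNReal.ofReal δ * FK L

/-- **U2**: a small displacement in a long time -/
def SlowN : Prop := ∀ δ : ℝ, 0 < δ → ∃ v L0 : ℕ, ∀ L, L0 ≤ L →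
  gf {t | t ∈ WL (L + 16) ∧ t ∈ Fac {Q | Q.length = ML L ∧ ∀ i, i ≤ Q.length → hn (vx oo up Q i) < 2 ^ (L - v)}} ≤
    ENNReal.ofReal δ * FK L

/-! ### leaves -/

open Classical in
/-- total length of the groups of at most T0 letters -/
noncomputable def sT (T0 : ℝ) (gs : List (List Bool)) : ℝ :=
  (gs.map fun g => if (g.length : ℝ) ≤ T0 then (g.length : ℝ) else 0).sum

open Classical in
/-- total value of the groups of at most T0 letters, each value truncated at Λ T0 -/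
noncomputable def sV (T0 Lam : ℝ) (φ : List Bool → ℝ) (gs : List (List Bool)) : ℝ :=
  (gs.map fun g => if (g.length : ℝ) ≤ T0 then min (φ g) (Lam * T0) else 0).sum

/-- typical lists of groups: the groups of at most T0 letters have at least θ M letters and the density ms, up to ε -/
def Typ (M T0 Lam θ ε ms : ℝ) (φ : List Bool → ℝ) (gs : List (List Bool)) : Prop :=
  θ * M ≤ sT T0 gs ∧ |sV T0 Lam φ gs - ms * sT T0 gs| ≤ ε * sT T0 gs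

/-- words with a typical leaf of R groups -/
def TLf (R : ℕ) (M T0 Lam θ ε ms : ℝ) (φ : List Bool → ℝ) : Set (List Bool) :=
  {Q | ∃ X gs Y, Q = X ++ (gs.flatten ++ Y) ∧ gs.length = R ∧ Typ M T0 Lam θ ε ms φ gs}

/-- **L1 + L2**: the free law of R groups of Ng irreducible pieces; k' : depth of the leaf -/
def AtypM : Prop := ∀ (c : ℝ) (k' : ℕ) (ε Lam p : ℝ), 0 < c → 0 < ε → 0 < Lam → 0 < p → ∃ (R L0 : ℕ) (θ τ : ℝ),
  1 ≤ R ∧ k' ≤ L0 ∧ 0 < θ ∧ 0 < τ ∧ τ ≤ 1 ∧ ∀ L, L0 ≤ L → ∃ Ng : ℕ, 1 ≤ Ng ∧ ((R * Ng : ℕ) : ℝ) ≤ c * Ub (L - k') ∧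
    ∀ φ : List Bool → ℝ, (∀ g, 0 ≤ φ g) → ∃ ms : ℝ, 0 ≤ ms ∧
      gf {V | V ∈ Ir (R * Ng) ∧ ¬ ∃ gs : List (List Bool), gs.length = R ∧ V = gs.flatten ∧
        Typ (PW.mZ (2 ^ L)) (τ * PW.mZ (2 ^ L)) Lam θ ε ms φ gs} ≤ ENNReal.ofReal p

/-- **L3 + L4**: middles without a typical leaf are rare -/
def LeafN : Prop := ∀ δ ε Lam : ℝ, 0 < δ → 0 < ε → 0 < Lam → ∃ (R L0 : ℕ) (θ τ : ℝ), 1 ≤ R ∧ 0 < θ ∧ 0 < τ ∧ τ ≤ 1 ∧
  ∀ L, L0 ≤ L → ∀ φ : List Bool → ℝ, (∀ g, 0 ≤ φ g) → ∃ ms : ℝ, 0 ≤ ms ∧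
    gf {t | t ∈ WL (L + 16) ∧ t ∈ Fac (Mid L (ML L) \
      TLf R (PW.mZ (2 ^ L)) (τ * PW.mZ (2 ^ L)) Lam θ ε ms φ)} ≤ ENNReal.ofReal δ * FK L

/-! ### functionals, stages -/

/-- additive functionals of words, error 1 -/
structure Add1 (V : List Bool → ℝ) : Prop where
  pos : ∀ u, 0 ≤ V u
  le : ∀ u v, V (u ++ v) ≤ V u + V v
  ge : ∀ u v, V u + V v ≤ V (u ++ v) + 1

/-- additive functionals of the scale r -/
structure AF (r : ℕ) (V : List Bool → ℝ) : Prop extends Add1 V where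
  one : ∀ u, 1 ≤ V u
  small : ∀ u, (∀ i j, i ≤ u.length → j ≤ u.length → hn (vx oo up u i - vx oo up u j) ≤ r) → V u ≤ 1
  big : ∀ u, (∃ i, i ≤ u.length ∧ 8 * (r : ℤ) ≤ hn (vx oo up u i)) → 2 ≤ V u

/-- the density of all the windows with at least l letters is in [a, b] -/
def Rng (V : List Bool → ℝ) (m a b l : ℝ) (t : List Bool) : Prop := ∀ x y : ℕ, x ≤ y → y ≤ t.length → l ≤ (y : ℝ) - x →
  a * ((y : ℝ) - x) ≤ m * V (wd t x y) ∧ m * V (wd t x y) ≤ b * ((y : ℝ) - x)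

/-- the stage statement: windows of at least ML l letters, words of the box K with at most n letters, exceptional mass e -/
def HR (V : List Bool → ℝ) (m a b : ℝ) (l : ℕ) (e : ℝ) (K n : ℕ) : Prop :=
  gf {t | t ∈ WL K ∧ t.length ≤ n ∧ ¬ Rng V m a b (ML l) t} ≤ ENNReal.ofReal e * FK K

/-- the next scale -/
def nl (d K l : ℕ) : ℕ := l + d + Nat.log 2 (K - l + 1)

/-- **S0**: the initial range, from ET, FastN, SlowN -/
def InitR : Prop := ∃ (a b : ℝ) (d : ℕ), 0 < a ∧ a ≤ b ∧ ∀ (r l : ℕ) (V : List Bool → ℝ), 2 ≤ r → AF r V → r ≤ 2 ^ l →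
  2 ^ l ≤ 2 * r → ∀ K n : ℕ, nl d K l ≤ K → n ≤ ML (K + 2) → HR V (PW.mZ (2 ^ l)) a b (nl d K l) ((1 / 2) ^ (K - l)) K n

/-- **S2**: one stage, from ET, LeafN and S1: the range [a, b] of length at least εt is shortened by the factor 1 - θ -/
def Stage : Prop := ∀ εt bm : ℝ, 0 < εt → 0 < bm → ∃ (θ : ℝ) (d : ℕ), 0 < θ ∧ θ < 1 ∧
  ∀ (K n l : ℕ) (V : List Bool → ℝ) (m a b e : ℝ), Add1 V → 0 < m → m ≤ PW.mZ (2 ^ l) → 0 ≤ a → a + εt ≤ b → b ≤ bm →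
    0 ≤ e → nl d K l ≤ K → n ≤ ML (K + 2) → HR V m a b l e K n →
    ∃ a' b' : ℝ, a ≤ a' ∧ a' ≤ b' ∧ b' ≤ b ∧ b' - a' ≤ (1 - θ) * (b - a) ∧
      HR V m a' b' (nl d K l) (e + (1 / 2) ^ (K - l)) K n

/-- **S3**: all windows of the words of the box K, from InitR and Stage -/
def MainW : Prop := ∀ ε : ℝ, 0 < ε → ∃ d : ℕ, ∀ (r : ℕ) (V : List Bool → ℝ), 2 ≤ r → AF r V → ∀ K : ℕ, r * 2 ^ d ≤ 2 ^ K →
  ∃ ka : ℝ, 0 < ka ∧ gf {t | t ∈ WL K ∧ t.length ≤ ML (K + 2) ∧ ¬ ∀ x y : ℕ, x ≤ y → y ≤ t.length →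
    |ka * V (wd t x y) - ((y : ℝ) - x)| ≤ ε * PW.mZ (2 ^ K)} ≤ ENNReal.ofReal ε * FK K

/-- **X1 + X2**: the uniform n-step walk, from MainW, NiceU and reversal (V is compared with V of the reversed word) -/
def MainN : Prop := ∀ ε : ℝ, 0 < ε → ∃ (d n0 : ℕ), ∀ (r : ℕ) (V V' : List Bool → ℝ), 2 ≤ r → AF r V → AF r V' →
  (∀ u, |V u - V' (rev u)| ≤ 1) → ∀ k n : ℕ, n0 ≤ n → TIP.Sc k n → r * 2 ^ d ≤ 2 ^ k →
  ∃ ka : ℝ, 0 < ka ∧ TOG.Pn n {t | ¬ ∀ x y : ℕ, x ≤ y → y ≤ t.length →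
    |ka * V (wd t x y) - ((y : ℝ) - x)| ≤ ε * n} ≤ ε

end NPR

end HexObs
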