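import Pool.Agent.NPR.Clk

/-!
# NPR: the laws converge iff the distances from finite sets converge in law (helper34)

* `dF F γ` : the distance between the finite set `F` and the trace of `γ`;
* `eq_of_dist` : two laws on the good curves with the same laws of all the distances are equal;
* `dist_iff` : the laws of `X_n` converge weakly iff for every finite set `F` of points of the plane the real random
  variables `dist (F, X_n([0,1]))` converge in law.
-/

set_option autoImplicit false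

open Set Filter Topology MeasureTheory
open scoped ENNReal

namespace Pool.Agent.NPR

open Pool.Agent.NTS.Res
open NTF (open_le cont_eval)

/-- the distance between the finite set `F` and the trace of the curve -/
noncomputable def dF (F : Finset ℂ) (γ : C(unitInterval, ℂ)) : ℝ :=
  ⨅ p : {z // z ∈ F} × unitInterval, dist (γ p.2) (p.1 : ℂ)

lemma dF_bdd (F : Finset ℂ) (γ : C(unitInterval, ℂ)) :
    BddBelow (range fun p : {z // z ∈ F} × unitInterval => dist (γ p.2) (p.1 : ℂ)) :=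
  ⟨0, by
    rintro _ ⟨p, rfl⟩
    exact dist_nonneg⟩

lemma dF_le {F : Finset ℂ} {z : ℂ} (hz : z ∈ F) (γ : C(unitInterval, ℂ)) (u : unitInterval) : dF F γ ≤ dist (γ u) z :=
  ciInf_le (dF_bdd F γ) (⟨⟨z, hz⟩, u⟩ : {z // z ∈ F} × unitInterval)

lemma le_dF {F : Finset ℂ} (hF : F.Nonempty) {γ : C(unitInterval, ℂ)} {t : ℝ}
    (h : ∀ z ∈ F, ∀ u, t ≤ dist (γ u) z) : t ≤ dF F γ := by
  have : Nonempty {z // z ∈ F} := ⟨⟨hF.choose, hF.choose_spec⟩⟩
  exact le_ciInf fun p => h p.1 p.1.2 p.2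

lemma dF_nonneg {F : Finset ℂ} (hF : F.Nonempty) (γ : C(unitInterval, ℂ)) : 0 ≤ dF F γ :=
  le_dF hF fun _ _ _ => dist_nonneg

lemma dF_lip {F : Finset ℂ} (hF : F.Nonempty) (γ γ' : C(unitInterval, ℂ)) : dF F γ ≤ dF F γ' + dist γ γ' := by
  have h : dF F γ - dist γ γ' ≤ dF F γ' := by
    refine le_dF hF fun z hz u => ?_
    have h1 := dF_le hz γ u
    have h2 := ContinuousMap.dist_apply_le_dist (f := γ) (g := γ') u
    have h3 := dist_triangle (γ u) (γ' u) z
    linarith
  linarith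

lemma dF_cont {F : Finset ℂ} (hF : F.Nonempty) : Continuous (dF F) := by
  refine Metric.continuous_iff.2 fun γ ε hε => ⟨ε, hε, fun γ' h => ?_⟩
  have h1 := dF_lip hF γ γ'
  have h2 := dF_lip hF γ' γ
  rw [dist_comm γ γ'] at h1
  rw [Real.dist_eq, abs_lt]
  constructor <;> linarith

/-- the distance from one point: it is attained -/
lemma lt_dF_one {z : ℂ} {r : ℝ} {γ : C(unitInterval, ℂ)} :
    r < dF {z} γ ↔ ∀ u, γ u ∉ Metric.closedBall z r := by
  constructor
  · intro h u hu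
    have h1 := dF_le (Finset.mem_singleton_self z) γ u
    have h2 : dist (γ u) z ≤ r := hu
    linarith
  · intro h
    obtain ⟨u, -, hu⟩ := isCompact_univ.exists_isMinOn (univ_nonempty (α := unitInterval))
      (f := fun u => dist (γ u) z) (by fun_prop)
    refine lt_of_lt_of_le (not_le.1 (h u)) (le_dF (Finset.singleton_nonempty z) fun z' hz' v => ?_)
    rw [Finset.mem_singleton.1 hz']
    exact hu (mem_univ v)

/-- the law of the distance -/
lemma map_dF {ν ν' : Measure C(unitInterval, ℂ)} (hν : IsProbabilityMeasure ν) (hν' : IsProbabilityMeasure ν')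
    (h : ∀ F : Finset ℂ, F.Nonempty → ∀ f : BoundedContinuousFunction ℝ ℝ, ∫ γ, f (dF F γ) ∂ν = ∫ γ, f (dF F γ) ∂ν')
    {F : Finset ℂ} (hF : F.Nonempty) : ν.map (dF F) = ν'.map (dF F) := by
  have hm : Measurable (dF F) := (dF_cont hF).measurable
  have : IsProbabilityMeasure (ν.map (dF F)) := Measure.isProbabilityMeasure_map hm.aemeasurable
  have : IsProbabilityMeasure (ν'.map (dF F)) := Measure.isProbabilityMeasure_map hm.aemeasurable
  refine ext_of_forall_integral_eq_of_IsFiniteMeasure fun f => ?_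
  rw [integral_map hm.aemeasurable f.continuous.aestronglyMeasurable,
    integral_map hm.aemeasurable f.continuous.aestronglyMeasurable]
  exact h F hF f

/-- the laws of the distances determine the probabilities to avoid a compact set -/
lemma avoid_eq {ν ν' : Measure C(unitInterval, ℂ)} (hν : IsProbabilityMeasure ν) (hν' : IsProbabilityMeasure ν')
    (h : ∀ F : Finset ℂ, F.Nonempty → ∀ f : BoundedContinuousFunction ℝ ℝ, ∫ γ, f (dF F γ) ∂ν = ∫ γ, f (dF F γ) ∂ν')
    {K : Set ℂ} (hK : IsCompact K) : ν {γ | ∀ u, γ u ∉ K} = ν' {γ | ∀ u, γ u ∉ K} := by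
  rcases K.eq_empty_or_nonempty with h0 | h0
  · have e : {γ : C(unitInterval, ℂ) | ∀ u, γ u ∉ K} = univ := by
      rw [h0]
      exact eq_univ_of_forall fun γ u => notMem_empty _
    rw [e, measure_univ, measure_univ]
  -- nets
  have hnet : ∀ m : ℕ, ∃ F : Finset ℂ, F.Nonempty ∧ (∀ z ∈ F, z ∈ K) ∧
      ∀ x ∈ K, ∃ z ∈ F, dist x z ≤ 1 / ((m : ℝ) + 1) := by
    intro m
    obtain ⟨t, ht1, ht2, ht3⟩ := hK.finite_cover_balls (e := 1 / ((m : ℝ) + 1)) (by positivity)
    have h4 : ∀ x ∈ K, ∃ z ∈ ht2.toFinset, dist x z ≤ 1 / ((m : ℝ) + 1) := by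
      intro x hx
      obtain ⟨z, hz, h5⟩ := mem_iUnion₂.1 (ht3 hx)
      exact ⟨z, ht2.mem_toFinset.2 hz, (Metric.mem_ball.1 h5).le⟩
    refine ⟨ht2.toFinset, ?_, fun z hz => ht1 (ht2.mem_toFinset.1 hz), h4⟩
    obtain ⟨x, hx⟩ := h0
    obtain ⟨z, hz, -⟩ := h4 x hx
    exact ⟨z, hz⟩
  choose F hF1 hF2 hF3 using hnet
  obtain ⟨E, hE⟩ : ∃ E : ℕ → Set C(unitInterval, ℂ), E = fun m : ℕ => {γ | 1 / ((m : ℝ) + 1) < dF (F m) γ} := ⟨_, rfl⟩
  have hEm : ∀ m, MeasurableSet (E m) := fun m => by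
    rw [hE]
    exact measurableSet_lt measurable_const (dF_cont (hF1 m)).measurable
  have heq : ∀ m, ν (E m) = ν' (E m) := by
    intro m
    have hm : Measurable (dF (F m)) := (dF_cont (hF1 m)).measurable
    have e1 := map_dF hν hν' h (hF1 m)
    have e2 : ∀ μ : Measure C(unitInterval, ℂ), μ (E m) = μ.map (dF (F m)) (Ioi (1 / ((m : ℝ) + 1))) := by
      intro μ
      rw [Measure.map_apply hm measurableSet_Ioi, hE]
      rfl
    rw [e2, e2, e1]
  have hlim : ∀ γ, ∀ᶠ m in atTop, γ ∈ E m ↔ γ ∈ {γ : C(unitInterval, ℂ) | ∀ u, γ u ∉ K} := by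
    intro γ
    by_cases hγ : ∀ u, γ u ∉ K
    · have hd : Disjoint K (range γ) := by
        rw [disjoint_left]
        rintro _ hx ⟨u, rfl⟩
        exact hγ u hx
      obtain ⟨r, hr, h5⟩ := Metric.exists_pos_forall_lt_edist hK (isCompact_range γ.continuous).isClosed hd
      have ht : Tendsto (fun m : ℕ => 1 / ((m : ℝ) + 1)) atTop (𝓝 0) := tendsto_one_div_add_atTop_nhds_zero_nat
      have hr' : (0 : ℝ) < r := by exact_mod_cast hr
      filter_upwards [ht.eventually_lt_const hr'] with m hm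
      refine ⟨fun _ => hγ, fun _ => ?_⟩
      rw [hE]
      refine lt_of_lt_of_le hm (le_dF (hF1 m) fun z hz u => ?_)
      have h6 := h5 z (hF2 m z hz) (γ u) ⟨u, rfl⟩
      rw [edist_comm, edist_nndist] at h6
      have h7 : r < nndist (γ u) z := by exact_mod_cast h6
      exact (show (r : ℝ) < dist (γ u) z by exact_mod_cast h7).le
    · refine Eventually.of_forall fun m => ⟨fun h5 => ?_, fun h5 => absurd h5 hγ⟩
      exfalso
      push Not at hγ
      obtain ⟨u, hu⟩ := hγ
      obtain ⟨z, hz, h6⟩ := hF3 m _ hu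
      rw [hE] at h5
      have h7 : 1 / ((m : ℝ) + 1) < dF (F m) γ := h5
      have h8 := dF_le hz γ u
      linarith
  have t1 := tendsto_measure_of_tendsto_indicator_of_isFiniteMeasure atTop ν hEm hlim
  have t2 := tendsto_measure_of_tendsto_indicator_of_isFiniteMeasure atTop ν' hEm hlim
  have t3 : (fun m => ν (E m)) = fun m => ν' (E m) := funext heq
  rw [t3] at t1
  exact tendsto_nhds_unique t1 t2

/-- all the distances from the points of a dense sequence -/
noncomputable def dSeq (γ : C(unitInterval, ℂ)) : ℕ → ℝ := fun n => dF {TopologicalSpace.denseSeq ℂ n} γ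

lemma dSeq_cont : Continuous dSeq := continuous_pi fun _ => dF_cont (Finset.singleton_nonempty _)

lemma mem_trace_iff {z : ℂ} {γ : C(unitInterval, ℂ)} : z ∈ range γ ↔ dF {z} γ = 0 := by
  have h0 := dF_nonneg (Finset.singleton_nonempty z) γ
  constructor
  · rintro ⟨u, hu⟩
    have h1 := dF_le (Finset.mem_singleton_self z) γ u
    rw [hu, dist_self] at h1
    linarith
  · intro h
    by_contra hc
    have h1 : (0 : ℝ) < dF {z} γ := by
      rw [lt_dF_one]
      intro u hu
      rw [Metric.closedBall_zero, mem_singleton_iff] at hu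
      exact hc ⟨u, hu⟩
    linarith

lemma dF_pt (γ : C(unitInterval, ℂ)) (z z' : ℂ) : dF {z} γ ≤ dF {z'} γ + dist z z' := by
  have h : dF {z} γ - dist z z' ≤ dF {z'} γ := by
    refine le_dF (Finset.singleton_nonempty z') fun w hw u => ?_
    rw [Finset.mem_singleton.1 hw]
    have h1 := dF_le (Finset.mem_singleton_self z) γ u
    have h3 := dist_triangle (γ u) z' z
    rw [dist_comm z' z] at h3
    linarith
  linarith

lemma trace_of_dSeq {γ γ' : C(unitInterval, ℂ)} (h : dSeq γ = dSeq γ') : tr γ = tr γ' := by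
  have h1 : ∀ z, dF {z} γ = dF {z} γ' := by
    have c : ∀ γ : C(unitInterval, ℂ), Continuous fun z => dF {z} γ := fun γ => by
      refine Metric.continuous_iff.2 fun z ε hε => ⟨ε, hε, fun z' hz => ?_⟩
      have a1 := dF_pt γ z z'
      have a2 := dF_pt γ z' z
      rw [dist_comm z z'] at a1
      rw [Real.dist_eq, abs_lt]
      constructor <;> linarith
    have h2 := (TopologicalSpace.denseRange_denseSeq ℂ).equalizer (c γ) (c γ') (funext fun n => congrFun h n)
    exact fun z => congrFun h2 z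
  ext z
  show z ∈ range γ ↔ z ∈ range γ'
  rw [mem_trace_iff, mem_trace_iff, h1]

/-- the sets of sequences with finitely many lower bounds -/
def Cyl : Set (Set (ℕ → ℝ)) := {E | ∃ (s : Finset ℕ) (r : ℕ → ℝ), E = {x | ∀ i ∈ s, r i < x i}}

lemma cyl_pi : IsPiSystem Cyl := by
  classical
  rintro _ ⟨s, r, rfl⟩ _ ⟨s', r', rfl⟩ -
  refine ⟨s ∪ s', fun i => max (if i ∈ s then r i else r' i) (if i ∈ s' then r' i else r i), ?_⟩
  ext x
  simp only [mem_inter_iff, mem_ofPred_eq, Finset.mem_union]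
  constructor
  · rintro ⟨h1, h2⟩ i hi
    by_cases a : i ∈ s <;> by_cases b : i ∈ s'
    · rw [if_pos a, if_pos b]
      exact max_lt (h1 i a) (h2 i b)
    · rw [if_pos a, if_neg b, max_self]
      exact h1 i a
    · rw [if_neg a, if_pos b, max_self]
      exact h2 i b
    · exact absurd hi (by tauto)
  · intro h
    constructor
    · intro i hi
      have h1 := h i (Or.inl hi)
      rw [if_pos hi] at h1
      exact (max_lt_iff.1 h1).1
    · intro i hi
      have h1 := h i (Or.inr hi)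
      have h2 := (max_lt_iff.1 h1).2
      rwa [if_pos hi] at h2

lemma cyl_gen : (MeasurableSpace.pi : MeasurableSpace (ℕ → ℝ)) = MeasurableSpace.generateFrom Cyl := by
  apply le_antisymm
  · refine iSup_le fun i => ?_
    rw [← measurable_iff_comap_le]
    refine measurable_of_Ioi (mδ := MeasurableSpace.generateFrom Cyl) fun r => ?_
    refine MeasurableSpace.measurableSet_generateFrom ⟨{i}, fun _ => r, ?_⟩
    ext x
    simp
  · refine MeasurableSpace.generateFrom_le ?_
    rintro _ ⟨s, r, rfl⟩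
    have e : {x : ℕ → ℝ | ∀ i ∈ s, r i < x i} = ⋂ i ∈ s, {x | r i < x i} := by
      ext x
      simp
    rw [e]
    exact s.measurableSet_biInter fun i _ => measurableSet_lt measurable_const (measurable_pi_apply i)

/-- **measures on the good set are determined by the laws of the distances from the finite sets** -/
theorem eq_of_dist {ρ : ℕ → ℝ} (hρ : ∀ j, 0 < ρ j) {ν ν' : Measure C(unitInterval, ℂ)} (hν : IsProbabilityMeasure ν)
    (hν' : IsProbabilityMeasure ν') (h1 : ∀ᵐ γ ∂ν, γ ∈ Gd ρ) (h2 : ∀ᵐ γ ∂ν', γ ∈ Gd ρ)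
    (h : ∀ F : Finset ℂ, F.Nonempty → ∀ f : BoundedContinuousFunction ℝ ℝ, ∫ γ, f (dF F γ) ∂ν = ∫ γ, f (dF F γ) ∂ν') :
    ν = ν' := by
  have hm : Measurable dSeq := dSeq_cont.measurable
  have hmap : ν.map dSeq = ν'.map dSeq := by
    have i1 : IsProbabilityMeasure (ν.map dSeq) := Measure.isProbabilityMeasure_map hm.aemeasurable
    have i2 : IsProbabilityMeasure (ν'.map dSeq) := Measure.isProbabilityMeasure_map hm.aemeasurable
    refine ext_of_generate_finite Cyl cyl_gen cyl_pi ?_ (by rw [measure_univ, measure_univ])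
    rintro _ ⟨s, r, rfl⟩
    have hE : MeasurableSet {x : ℕ → ℝ | ∀ i ∈ s, r i < x i} := by
      rw [cyl_gen]
      exact MeasurableSpace.measurableSet_generateFrom ⟨s, r, rfl⟩
    rw [Measure.map_apply hm hE, Measure.map_apply hm hE]
    have e : dSeq ⁻¹' {x : ℕ → ℝ | ∀ i ∈ s, r i < x i} =
        {γ | ∀ u, γ u ∉ ⋃ i ∈ s, Metric.closedBall (TopologicalSpace.denseSeq ℂ i) (r i)} := by
      ext γ
      constructor
      · intro h3 u hu
        obtain ⟨i, hi, h4⟩ := mem_iUnion₂.1 hu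
        exact lt_dF_one.1 (h3 i hi) u h4
      · intro h3 i hi
        exact lt_dF_one.2 fun u hu => h3 u (mem_iUnion₂.2 ⟨i, hi, hu⟩)
    rw [e]
    exact avoid_eq hν hν' h (s.isCompact_biUnion fun i _ => isCompact_closedBall _ _)
  have hinj : InjOn dSeq (Gd ρ) := fun γ hγ γ' hγ' ht =>
    same_time hρ hγ.1 hγ'.1 (hγ.2.1.trans hγ'.2.1.symm) hγ.2.2 hγ'.2.2 (trace_of_dSeq ht)
  have hG := Gd_meas hρ
  refine Measure.ext fun A hA => ?_
  have hI : MeasurableSet (dSeq '' (A ∩ Gd ρ)) :=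
    (hA.inter hG).image_of_measurable_injOn hm (hinj.mono inter_subset_right)
  have key : ∀ μ : Measure C(unitInterval, ℂ), (∀ᵐ γ ∂μ, γ ∈ Gd ρ) → μ A = μ.map dSeq (dSeq '' (A ∩ Gd ρ)) := by
    intro μ hμ
    rw [Measure.map_apply hm hI]
    refine measure_congr ?_
    filter_upwards [hμ] with γ hγ
    refine propext ⟨fun hA' => ⟨γ, ⟨hA', hγ⟩, rfl⟩, ?_⟩
    rintro ⟨γ', ⟨h3, h4⟩, h5⟩
    rw [← hinj h4 hγ h5]
    exact h3
  rw [key ν h1, key ν' h2, hmap]

/-- the law of the distances -/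
lemma lawTo_dist {φ : ℕ → ℕ} {ν : Measure C(unitInterval, ℂ)} (h : LawTo φ ν) {F : Finset ℂ} (hF : F.Nonempty)
    (f : BoundedContinuousFunction ℝ ℝ) :
    Tendsto (fun k => ∫ γ, f (dF F γ) ∂(law (φ k))) atTop (𝓝 (∫ γ, f (dF F γ) ∂ν)) :=
  h (f.compContinuous ⟨dF F, dF_cont hF⟩)

/-- **the laws converge weakly iff the distances from the finite sets converge in law** -/
theorem dist_iff {ρ : ℕ → ℝ} (hρ : Scl ρ)
    (hsub : ∀ φ : ℕ → ℕ, StrictMono φ → ∃ ψ : ℕ → ℕ, StrictMono ψ ∧ ∃ ν : Measure C(unitInterval, ℂ),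
      IsProbabilityMeasure ν ∧ LawTo (fun k => φ (ψ k)) ν)
    (hinj : ∀ (φ : ℕ → ℕ) (ν : Measure C(unitInterval, ℂ)), Tendsto φ atTop atTop → IsProbabilityMeasure ν → LawTo φ ν →
      ∀ᵐ γ : C(unitInterval, ℂ) ∂ν, Function.Injective γ) :
    (∀ F : Finset ℂ, F.Nonempty → ∀ f : BoundedContinuousFunction ℝ ℝ, ∃ l : ℝ,
      Tendsto (fun n => ∫ γ, f (dF F γ) ∂(law n)) atTop (𝓝 l)) ↔
    ∃ ν : Measure C(unitInterval, ℂ), IsProbabilityMeasure ν ∧ LawTo (fun n => n) ν := by
  constructor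
  · intro h
    have good : ∀ (φ : ℕ → ℕ) (ν : Measure C(unitInterval, ℂ)), Tendsto φ atTop atTop → IsProbabilityMeasure ν →
        LawTo φ ν → ∀ᵐ γ ∂ν, γ ∈ Gd ρ := by
      intro φ ν hφ hν hlim
      filter_upwards [hinj φ ν hφ hν hlim, NTSF.limit_zeroQ hν hlim, clk_lim hρ hφ hν hlim] with γ h1 h2 h3
      exact ⟨h1, h2, h3⟩
    obtain ⟨ψ0, hψ0, ν0, hν0, hl0⟩ := hsub (fun n => n) strictMono_id
    refine ⟨ν0, hν0, fun f => ?_⟩
    refine tendsto_of_subseq_tendsto fun ns hns => ?_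
    obtain ⟨φ1, hφ1, hφ2⟩ := strictMono_subseq_of_tendsto_atTop hns
    obtain ⟨ψ, hψ, ν, hν, hl⟩ := hsub (ns ∘ φ1) hφ2
    have t0 : Tendsto (fun k => ψ0 k) atTop atTop := hψ0.tendsto_atTop
    have t1 : Tendsto (fun k => (ns ∘ φ1) (ψ k)) atTop atTop := (hφ2.comp hψ).tendsto_atTop
    have e : ν = ν0 := by
      refine eq_of_dist hρ.pos hν hν0 (good _ ν t1 hν hl) (good _ ν0 t0 hν0 hl0) fun F hF g => ?_
      obtain ⟨l, hg⟩ := h F hF g
      rw [tendsto_nhds_unique (lawTo_dist hl hF g) (hg.comp t1), tendsto_nhds_unique (lawTo_dist hl0 hF g) (hg.comp t0)]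
    refine ⟨fun k => φ1 (ψ k), ?_⟩
    have := hl f
    rwa [e] at this
  · rintro ⟨ν, -, h⟩ F hF f
    exact ⟨_, lawTo_dist h hF f⟩

end Pool.Agent.NPR
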