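import Pool.Agent.NPR.FlagG
import Pool.Agent.TIP.YBad
import Pool.Agent.NTA.MeanM
import Pool.Agent.TIW.Nice

/-!
NPR, row E4 (helper42): the mass of the words of a box with a big factor in Nz.
-/

set_option autoImplicit false

namespace HexObs

namespace NPR

open Finset TS SDN NTW NTA SIM TIW TIP TIP.YB

open scoped ENNReal

/-- tail of the time spent in small discs, infixes (row E0, helper58) -/
def ExtK : Prop := ∃ B : ℝ, 1 ≤ B ∧ ∀ q : ℕ, ∃ A : ℝ, 1 ≤ A ∧ ∀ K L v : ℕ, L ≤ K → v ≤ L →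
  gf {t | t ∈ WL K ∧ t ∈ Fac {Q | (∀ i, i ≤ Q.length → hn (vx oo up Q i) < 2 ^ (L - v)) ∧
    PW.mZ (2 ^ L) / 4 ≤ (Q.length : ℝ)}} ≤ ENNReal.ofReal (A * B ^ (K - L) / 2 ^ (q * v)) * FK K

lemma bdd1 {G c : ℝ} (hG : 1 ≤ G) (hc : 0 < c) : ∃ A : ℝ, 1 ≤ A ∧ ∀ n : ℕ, G ^ n * (2 : ℝ) ^ (-(c * 2 ^ (n / 2))) ≤ A := by
  have hG0 : 0 < G := by linarith
  have hl2 : 0 < Real.log 2 := Real.log_pos one_lt_two
  obtain ⟨M0, hM0⟩ := YB.num G (G ^ 2) (c * Real.log 2) 0 hG0.le (one_le_pow₀ hG) (by positivity)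
  refine ⟨G ^ (2 * M0 + 1), one_le_pow₀ hG, fun n => ?_⟩
  have hexp : (2 : ℝ) ^ (-(c * 2 ^ (n / 2))) = Real.exp (-(c * Real.log 2 * 2 ^ (n / 2))) := by
    rw [Real.rpow_def_of_pos (by norm_num)]
    congr 1
    ring
  have hle1 : Real.exp (-(c * Real.log 2 * 2 ^ (n / 2))) ≤ 1 := by
    rw [Real.exp_le_one_iff]
    have : 0 ≤ c * Real.log 2 * 2 ^ (n / 2) := by positivity
    linarith
  rw [hexp]
  rcases Nat.lt_or_ge (n / 2) M0 with h | h
  · calc G ^ n * Real.exp (-(c * Real.log 2 * 2 ^ (n / 2))) ≤ G ^ n * 1 := by gcongr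
      _ = G ^ n := mul_one _
      _ ≤ _ := pow_le_pow_right₀ hG (by omega)
  · have h1 := hM0 (n / 2) h
    rw [Nat.sub_zero] at h1
    calc G ^ n * Real.exp (-(c * Real.log 2 * 2 ^ (n / 2)))
        ≤ G * (G ^ 2) ^ (n / 2) * Real.exp (-(c * Real.log 2 * 2 ^ (n / 2))) := by
          refine mul_le_mul_of_nonneg_right ?_ (Real.exp_pos _).le
          rw [← pow_mul, mul_comm G, ← pow_succ]
          exact pow_le_pow_right₀ hG (by omega)
      _ ≤ 1 := h1
      _ ≤ _ := one_le_pow₀ hG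

/-- **words of a box with a big factor in Nz** -/
theorem ucZ {κ : ℝ} {C : ℕ} (hR : RegZ κ C) (hE : ExtK) : ∃ (B : ℝ) (s0 : ℕ), 1 ≤ B ∧ ∀ q : ℕ, ∃ A : ℝ, 1 ≤ A ∧
    ∀ K L s : ℕ, L ≤ K → s0 ≤ s → Lg L →
      gf {t | t ∈ WL K ∧ t ∈ FB κ C s L 3} ≤ ENNReal.ofReal (A * B ^ (K - L) / 2 ^ (q * (L - s))) * FK K := by
  obtain ⟨C1, c, b0, J0, n0, hC1, hc, hreg⟩ := hR
  obtain ⟨B2, hB2, hext⟩ := hE
  obtain ⟨C0, hC0, htot⟩ := tot_WL
  have hC10 : 0 < C1 := by linarith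
  have hB20 : 0 < B2 := by linarith
  refine ⟨C1 * B2, b0, one_le_mul_of_one_le_of_one_le hC1 hB2, fun q => ?_⟩
  obtain ⟨A2, hA2, hext⟩ := hext (2 * q)
  obtain ⟨A3, hA3, hbd⟩ := bdd1 (G := C1 * 2 ^ q) (c := c)
    (one_le_mul_of_one_le_of_one_le hC1 (one_le_pow₀ (by norm_num))) hc
  obtain ⟨N1, hN1⟩ : ∃ N1 : ℕ, N1 = J0 + 2 * n0 + 30 := ⟨_, rfl⟩
  have ht1 : 1 ≤ C0 * 2 ^ (q * N1) := one_le_mul_of_one_le_of_one_le hC0 (one_le_pow₀ (by norm_num))
  refine ⟨C0 * 2 ^ (q * N1) + A3 + A2 * B2 ^ 6 * 2 ^ (16 * q), ?_, fun K L s hLK hs hL => ?_⟩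
  · have : 0 ≤ A2 * B2 ^ 6 * 2 ^ (16 * q) := by positivity
    linarith
  obtain ⟨A, hA⟩ : ∃ A : ℝ, A = C0 * 2 ^ (q * N1) + A3 + A2 * B2 ^ 6 * 2 ^ (16 * q) := ⟨_, rfl⟩
  rw [← hA]
  have hB1 : 1 ≤ (C1 * B2) ^ (K - L) := one_le_pow₀ (one_le_mul_of_one_le_of_one_le hC1 hB2)
  have z2 : 0 ≤ A2 * B2 ^ 6 * 2 ^ (16 * q) := by positivity
  obtain ⟨n, hnn⟩ : ∃ n, n = L - s := ⟨_, rfl⟩
  rw [← hnn]
  have pn : (0 : ℝ) < 2 ^ (q * n) := by positivity
  rcases Nat.lt_or_ge n N1 with h | h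
  · -- few scales
    refine (gf_mono (Q := WL K) fun t ht => ht.1).trans ((htot K).trans (mul_le_mul_left (ENNReal.ofReal_le_ofReal ?_) _))
    rw [le_div_iff₀ pn]
    calc C0 * 2 ^ (q * n) ≤ C0 * 2 ^ (q * N1) := by
          gcongr
          · norm_num
      _ ≤ A := by linarith
      _ ≤ A * (C1 * B2) ^ (K - L) := le_mul_of_one_le_right (by linarith) hB1
  · -- the main case
    have hsL : s + n = L := by omega
    obtain ⟨j, hj⟩ : ∃ j, j = n / 2 := ⟨_, rfl⟩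
    have hcov : {t | t ∈ WL K ∧ t ∈ FB κ C s L 3} ⊆ {t | t ∈ WL K ∧ t ∈ Lz κ C s (2 ^ j)} ∪
        {t | t ∈ WL K ∧ t ∈ Fac {Q | (∀ i, i ≤ Q.length → hn (vx oo up Q i) < 2 ^ (L - 6 - (n - j - 8))) ∧
          PW.mZ (2 ^ (L - 6)) / 4 ≤ (Q.length : ℝ)}} := by
      rintro t ⟨h1, X, Q, Y, h2, h3, h4⟩
      by_cases hI : In (2 ^ j * 2 ^ s) Q
      · right
        refine ⟨h1, X, Q, Y, h2, fun i hi => ?_, ?_⟩
        · have h5 := hn_le_Bl (hI i hi)
          refine lt_of_le_of_lt h5 ?_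
          rw [← pow_add]
          push_cast
          have e1 : L - 6 - (n - j - 8) = j + s + 2 := by omega
          rw [e1, pow_add (2 : ℤ) (j + s) 2]
          have : (0 : ℤ) < 2 ^ (j + s) := by positivity
          omega
        · rcases h4 with h4 | h4
          · exfalso
            apply h4
            refine In_mono ?_ hI
            rw [← pow_add]
            exact Nat.pow_le_pow_right (by norm_num) (by omega)
          · refine le_trans ?_ h4
            have h5 := mlow_M.low (L - 6) 6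
            rw [show L - 6 + 6 = L by omega] at h5
            have h6 : (64 : ℝ) ≤ (2 : ℝ) ^ (5 / 4 * ((6 : ℕ) : ℝ)) := by
              calc (64 : ℝ) = (2 : ℝ) ^ ((6 : ℕ) : ℝ) := by
                    rw [Real.rpow_natCast]
                    norm_num
                _ ≤ _ := by
                    refine Real.rpow_le_rpow_of_exponent_le (by norm_num) ?_
                    push_cast
                    norm_num
            have h7 := mZ_pos' (L - 6)
            have h8 : 64 * PW.mZ (2 ^ (L - 6)) ≤ PW.mZ (2 ^ L) := le_trans (by nlinarith) h5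
            have e4 : (4 : ℝ) ^ (3 + 1) = 256 := by norm_num
            rw [e4]
            linarith
      · left
        exact ⟨h1, X, Q, Y, h2, h3, hI⟩
    refine (gf_mono hcov).trans ((gf_union_le _ _).trans ?_)
    -- the extents
    have g1 : gf {t | t ∈ WL K ∧ t ∈ Lz κ C s (2 ^ j)} ≤
        ENNReal.ofReal (A3 * (C1 * B2) ^ (K - L) / 2 ^ (q * n)) * FK K := by
      have h1 := hreg s (K - s) (2 ^ j) hs (by omega) (by
        have h2 : n0 < 2 ^ n0 := Nat.lt_two_pow_self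
        have h3 : (2 : ℕ) ^ n0 ≤ 2 ^ j := Nat.pow_le_pow_right (by norm_num) (by omega)
        omega)
      rw [show s + (K - s) = K by omega] at h1
      refine h1.trans ?_
      unfold FK
      rw [← mul_assoc, ← ENNReal.ofReal_mul (by positivity)]
      refine mul_le_mul_left (ENNReal.ofReal_le_ofReal (mul_le_mul_of_nonneg_right ?_ (Ub_pos K).le)) _
      rw [le_div_iff₀ pn]
      have h2 := hbd n
      rw [← hj] at h2
      have h3 : (C1 : ℝ) ^ (K - L) ≤ (C1 * B2) ^ (K - L) := by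
        refine pow_le_pow_left₀ hC10.le ?_ _
        nlinarith
      have h4 : (0 : ℝ) < 2 ^ (-(c * ((2 ^ j : ℕ) : ℝ))) := by positivity
      calc C1 ^ (K - s) * 2 ^ (-(c * ((2 ^ j : ℕ) : ℝ))) * 2 ^ (q * n)
          = C1 ^ (K - L) * ((C1 * 2 ^ q) ^ n * 2 ^ (-(c * (2 : ℝ) ^ j))) := by
            rw [show K - s = K - L + n by omega, pow_add, mul_pow C1 (2 ^ q) n, ← pow_mul]
            push_cast
            ring
        _ ≤ C1 ^ (K - L) * A3 := mul_le_mul_of_nonneg_left h2 (by positivity)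
        _ ≤ (C1 * B2) ^ (K - L) * A3 := mul_le_mul_of_nonneg_right h3 (by linarith)
        _ = _ := mul_comm _ _
    -- the time
    have g2 : gf {t | t ∈ WL K ∧ t ∈ Fac {Q | (∀ i, i ≤ Q.length → hn (vx oo up Q i) < 2 ^ (L - 6 - (n - j - 8))) ∧
          PW.mZ (2 ^ (L - 6)) / 4 ≤ (Q.length : ℝ)}} ≤
        ENNReal.ofReal (A2 * B2 ^ 6 * 2 ^ (16 * q) * (C1 * B2) ^ (K - L) / 2 ^ (q * n)) * FK K := by
      refine (hext K (L - 6) (n - j - 8) (by omega) (by omega)).trans (mul_le_mul_left (ENNReal.ofReal_le_ofReal ?_) _)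
      rw [div_le_div_iff₀ (by positivity) pn]
      have h3 : (B2 : ℝ) ^ (K - L) ≤ (C1 * B2) ^ (K - L) := by
        refine pow_le_pow_left₀ hB20.le ?_ _
        nlinarith
      have h4 : (2 : ℝ) ^ (q * n) ≤ 2 ^ (16 * q) * 2 ^ (2 * q * (n - j - 8)) := by
        rw [← pow_add]
        refine pow_le_pow_right₀ (by norm_num) ?_
        calc q * n ≤ q * (16 + 2 * (n - j - 8)) := Nat.mul_le_mul_left _ (by omega)
          _ = _ := by ring
      calc A2 * B2 ^ (K - (L - 6)) * 2 ^ (q * n)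
          ≤ A2 * B2 ^ (K - L + 6) * (2 ^ (16 * q) * 2 ^ (2 * q * (n - j - 8))) := by
            gcongr
            omega
        _ = A2 * B2 ^ 6 * 2 ^ (16 * q) * B2 ^ (K - L) * 2 ^ (2 * q * (n - j - 8)) := by
            rw [pow_add B2]
            ring
        _ ≤ A2 * B2 ^ 6 * 2 ^ (16 * q) * (C1 * B2) ^ (K - L) * 2 ^ (2 * q * (n - j - 8)) := by gcongr
    refine (add_le_add g1 g2).trans ?_
    rw [← add_mul, ← ENNReal.ofReal_add (by positivity) (by positivity)]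
    refine mul_le_mul_left (ENNReal.ofReal_le_ofReal ?_) _
    rw [← add_div, div_le_div_iff_of_pos_right pn, ← add_mul]
    refine mul_le_mul_of_nonneg_right ?_ (by positivity)
    linarith

end NPR

end HexObs
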