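import Pool.Agent.NPR.StepQ
import Pool.Agent.NPR.FlagU

/-!
NPR, row E4 (helper42): the mass of the words with a good start and a flagged factor behind it.
-/

set_option autoImplicit false

namespace HexObs

namespace NPR

open Finset TS SDN NTW NTA SIM TIW TIP TIP.YB

open scoped ENNReal

/-- words with a good start and a big factor in Nz behind it -/
def OE (η κ : ℝ) (C D s L K b : ℕ) : Set (List Bool) :=
  {p | p ∈ WL K ∧ ∃ S ∈ GS η D b, ∃ X, p = S ++ X ∧ X ∈ FB κ C s L 1}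

lemma GS_hi {η : ℝ} {D b : ℕ} (hb : 1 ≤ b) {S : List Bool} (h : S ∈ GS η D b) : S ∈ Hi b ∧
    (∀ X, rev (S ++ X) ∈ GT b η) ∧ In (D * 2 ^ b) S ∧ ∃ N Z3, S = N ++ Z3 ∧ N ∈ BU ∧ Z3 ∈ BU ∧ 2 ^ (b + 1) ≤ hgt Z3 := by
  have h' : ∃ N Z3, S = N ++ Z3 ∧ N ∈ BU ∧ Z3 ∈ BU ∧ hgt N ≤ 2 ^ b ∧ 2 ^ (b + 1) ≤ hgt Z3 ∧
      η * Ub b ≤ (nc N : ℝ) ∧ In (D * 2 ^ b) S := by
    have h1 : (if b = 0 then S = [] else _) := h
    rwa [if_neg (by omega)] at h1
  obtain ⟨N, Z3, rfl, h1, h2, h3, h4, h5, h6⟩ := h'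
  refine ⟨?_, fun X => ?_, h6, N, Z3, rfl, h1, h2, h4⟩
  · refine Hi_bridge (BU_app h1 h2) ?_
    rw [hgt_app h1 h2]
    omega
  · rw [List.append_assoc]
    exact ne_B h1 h3 h2 h4 h5

lemma GS_zero {η : ℝ} {D : ℕ} {S : List Bool} (h : S ∈ GS η D 0) : S = [] := by
  simpa [GS] using h

lemma Fl_nil : gf (∅ : Set (List Bool)) = 0 := by
  unfold gf
  simp

lemma Fl_up : ∃ C : ℝ, 1 ≤ C ∧ ∀ k i : ℕ, FK (k + i) ≤ ENNReal.ofReal (C ^ i) * FK k := EnsW.ref_up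

/-- **one-ended masses with a flagged factor** -/
theorem oneE {κ : ℝ} {C : ℕ} (hR : RegZ κ C) (hE : ExtK) (η : ℝ) (D : ℕ) (hη : 0 < η) : ∃ (B : ℝ) (s0 : ℕ), 1 ≤ B ∧
    ∀ q : ℕ, ∃ A : ℝ, 1 ≤ A ∧ ∀ K L s b : ℕ, L ≤ K → s0 ≤ s → Lg L → b ≤ L →
      gf (OE η κ C D s L K b) * xw b ≤ ENNReal.ofReal (A * B ^ (K - L) / 2 ^ (q * (L - s))) * FK K := by
  obtain ⟨B, s0, hB, huc⟩ := ucZ hR hE
  obtain ⟨Cf, hCf, hfk⟩ := Fl_up
  obtain ⟨Ct, hCt, htip⟩ := tip_WL (η / 8) (by positivity)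
  refine ⟨B, s0, hB, fun q => ?_⟩
  obtain ⟨q', A1, hA1, hstep⟩ := stepQ η hη q
  obtain ⟨A2, hA2, huc0⟩ := huc q
  obtain ⟨A3, hA3, huc1⟩ := huc q'
  have hB0 : 0 < B := by linarith
  have hCf0 : 0 < Cf := by linarith
  obtain ⟨a, ha⟩ : ∃ a : ℝ, a = 3 * A3 * B ^ 15 * Cf ^ 15 + Ct * Cf ^ 6 := ⟨_, rfl⟩
  have z1 : 1 ≤ 3 * A3 * B ^ 15 * Cf ^ 15 := by
    refine one_le_mul_of_one_le_of_one_le (one_le_mul_of_one_le_of_one_le (by linarith) (one_le_pow₀ hB)) (one_le_pow₀ hCf)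
  have z2 : 0 ≤ Ct * Cf ^ 6 := by positivity
  have ha1 : 1 ≤ a := by linarith
  have z3 : 0 ≤ 4 * A1 * a ^ 2 := by positivity
  refine ⟨A2 + 4 * A1 * a ^ 2, by linarith, fun K L s b hLK hs hL hb => ?_⟩
  obtain ⟨n, hn1⟩ : ∃ n, n = L - s := ⟨_, rfl⟩
  rw [← hn1]
  have pn : (0 : ℝ) < 2 ^ (q * n) := by positivity
  have pB : (1 : ℝ) ≤ B ^ (K - L) := one_le_pow₀ hB
  rcases Nat.eq_zero_or_pos b with h0 | h0
  · subst h0
    have hx : xw 0 = 1 := by
      unfold xw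
      rw [if_pos rfl]
    rw [hx, mul_one]
    refine (gf_mono (Q := {t | t ∈ WL K ∧ t ∈ FB κ C s L 3}) ?_).trans ((huc0 K L s hLK hs hL).trans ?_)
    · rintro p ⟨h1, S, hS, X, rfl, hX⟩
      rw [GS_zero hS, List.nil_append] at h1 ⊢
      exact ⟨h1, FB_succ (FB_succ hX)⟩
    · rw [← hn1]
      refine mul_le_mul_left (ENNReal.ofReal_le_ofReal ?_) _
      rw [div_le_div_iff_of_pos_right pn]
      refine mul_le_mul_of_nonneg_right ?_ (by positivity)
      linarith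
  · have hx : xw b = Xb b := by
      unfold xw
      rw [if_neg (by omega)]
    rw [hx]
    obtain ⟨K2, hK2⟩ : ∃ K2, K2 = K + 6 := ⟨_, rfl⟩
    obtain ⟨Q, hQ⟩ : ∃ Q : Set (List Bool), Q = {Y | ∃ S ∈ GS η D b, ∃ X, Y = S ++ X ∧ X ∈ FB κ C s L 1} := ⟨_, rfl⟩
    obtain ⟨Q', hQ'⟩ : ∃ Q' : Set (List Bool), Q' = {W | ∃ S ∈ Hi b, ∃ X, rev W = S ++ X ∧ X ∈ FB κ C s L 2} := ⟨_, rfl⟩
    obtain ⟨P, hP⟩ : ∃ P : Set (List Bool), P = {W | W ∈ WL K2 ∧ W ∈ Q'} := ⟨_, rfl⟩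
    obtain ⟨P', hP'⟩ : ∃ P' : Set (List Bool), P' = {W | W ∈ WL K2 ∧ rev W ∈ FB κ C s L 2} := ⟨_, rfl⟩
    obtain ⟨M0, hM0⟩ : ∃ M0 : ℝ≥0∞, M0 = ENNReal.ofReal (B ^ (K - L)) * FK K := ⟨_, rfl⟩
    -- reversal
    have h1 : gf (OE η κ C D s L K b) ≤ 4 * gf (P ∩ GT b η) := by
      have h2 := rev_le (b := b) (D := 2 ^ (K + 3)) (K := K2) (η := η) (Q := Q) (Q' := Q') (by
          have e : (2 : ℕ) ^ K2 = 8 * 2 ^ (K + 3) := by rw [hK2, pow_add, pow_add]; ring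
          have : 1 ≤ 2 ^ (K + 3) := Nat.one_le_two_pow
          omega)
        (by
          intro Y hY _ _
          rw [hQ] at hY
          obtain ⟨S, hS, X, rfl, hX⟩ := hY
          rw [hQ']
          exact ⟨S, (GS_hi h0 hS).1, X, rev_rev _, FB_succ hX⟩)
        (by
          intro Y hY _
          rw [hQ] at hY
          obtain ⟨S, hS, X, rfl, hX⟩ := hY
          rw [hQ']
          refine ⟨S, (GS_hi h0 hS).1, X.dropLast, ?_, FB_init hL (by norm_num) hX⟩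
          rw [rev_drop_one, List.dropLast_append_of_ne_nil (FB_ne hL (by norm_num) hX)])
      refine (gf_mono ?_).trans (h2.trans (mul_le_mul' le_rfl (gf_mono ?_)))
      · rintro p ⟨g1, S, hS, X, rfl, hX⟩
        refine ⟨g1.1, (GS_hi h0 hS).2.1 X, fun i hi => WL_bd g1 hi, ?_⟩
        rw [hQ]
        exact ⟨S, hS, X, rfl, hX⟩
      · rintro W ⟨g1, g2, g3⟩
        rw [hP]
        exact ⟨⟨g1, g3⟩, g2⟩
    -- the remaining words
    have hrest : ∀ K3, K3 ≤ K + 9 → gf {W | W ∈ WL K3 ∧ rev W ∈ FB κ C s L 2} ≤ ENNReal.ofReal (a / 2 ^ (q' * n)) * M0 := by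
      intro K3 hK3
      refine (gf_mono (Q := {W | W ∈ WL (K + 9) ∧ rev W ∈ FB κ C s L 2}) fun W hW => ⟨WL_up hK3 hW.1, hW.2⟩).trans ?_
      refine (rev_FB hL (by norm_num)).trans ?_
      have g1 := huc1 (K + 9 + 6) L s (by omega) hs hL
      rw [← hn1] at g1
      have g2 := hfk K 15
      refine (mul_le_mul' le_rfl (g1.trans (mul_le_mul' le_rfl g2))).trans ?_
      rw [hM0, ← ENNReal.ofReal_ofNat, ← mul_assoc, ← mul_assoc, ← mul_assoc, ← ENNReal.ofReal_mul (by norm_num),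
        ← ENNReal.ofReal_mul (by positivity), ← ENNReal.ofReal_mul (by positivity)]
      refine mul_le_mul_left (ENNReal.ofReal_le_ofReal ?_) _
      have e1 : B ^ (K + 9 + 6 - L) = B ^ 15 * B ^ (K - L) := by
        rw [← pow_add]
        congr 1
        omega
      rw [e1]
      have p2 : (0 : ℝ) < 2 ^ (q' * n) := by positivity
      calc 3 * (A3 * (B ^ 15 * B ^ (K - L)) / 2 ^ (q' * n)) * Cf ^ 15
          = 3 * A3 * B ^ 15 * Cf ^ 15 / 2 ^ (q' * n) * B ^ (K - L) := by ring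
        _ ≤ a / 2 ^ (q' * n) * B ^ (K - L) := by
            refine mul_le_mul_of_nonneg_right ?_ (by positivity)
            rw [div_le_div_iff_of_pos_right p2]
            linarith
    have h3 := hstep b n P P' (WL K2) ∅ a M0 ha1 (by rw [hP]; exact fun W hW => hW.1.1)
      (by rw [hP']; exact fun W hW => hW.1.1)
      (by
        intro A Z hA _ _
        rw [hP] at hA
        exact WL_pre hA.1)
      (by
        intro A Z1 Z2 hA hZ1 hZ2 hh _
        rw [hP, hQ'] at hA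
        obtain ⟨g1, S, hS, X, g2, g3⟩ := hA
        rw [hP']
        refine ⟨WL_pre (Z := Z2) (by rw [List.append_assoc]; exact g1), ?_⟩
        have hZ : rev (Z1 ++ Z2) ∈ BU := BU_rev (BU_app hZ1 hZ2)
        have hZh : hgt (rev (Z1 ++ Z2)) ≤ 2 ^ b := by rwa [hgt_eq (Brd_rev (TIP.BU_hgt (BU_app hZ1 hZ2)))]
        rw [rev_append] at g2
        obtain ⟨S', -, g5⟩ := pre_struct hZ hZh hS g2
        rw [rev_append, g5]
        exact FB_left _ (FB_left _ g3))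
      (by
        have : {Z | Z ∈ BU ∧ hgt Z ≤ 2 ^ b ∧ Z ∈ (∅ : Set (List Bool))} = ∅ := by
          ext Z
          simp
        rw [this, Fl_nil]
        exact zero_le)
      (by
        refine (gf_mono ?_).trans (hrest (K2 + 3) (by omega))
        rintro t ⟨ht, W, hW, x, hx, rfl⟩
        rw [hP'] at hW
        refine ⟨EnsW.glue_WL (Nat.pow_le_pow_right (by norm_num) (by omega)) hW.1 hx ht, ?_⟩
        rw [rev_append]
        exact FB_left _ hW.2)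
      (by
        refine (gf_mono ?_).trans (hrest K2 (by omega))
        intro W hW
        rw [hP, hQ'] at hW
        obtain ⟨g1, S, hS, X, g2, g3⟩ := hW
        exact ⟨g1, by rw [g2]; exact FB_left _ g3⟩)
      (by
        refine (htip K2 (b - 1) (by omega)).trans ?_
        have g1 := hfk K 6
        rw [← hK2] at g1
        have e1 : ENNReal.ofReal (Ct * Ub K2) * Xb K2 ^ 2 = ENNReal.ofReal Ct * FK K2 := by
          unfold FK
          rw [ENNReal.ofReal_mul hCt.le, mul_assoc]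
        rw [e1, hM0]
        refine (mul_le_mul' le_rfl g1).trans ?_
        rw [← mul_assoc, ← mul_assoc, ← ENNReal.ofReal_mul hCt.le, ← ENNReal.ofReal_mul (by linarith)]
        refine mul_le_mul_left (ENNReal.ofReal_le_ofReal ?_) _
        calc Ct * Cf ^ 6 ≤ a * 1 := by linarith
          _ ≤ a * B ^ (K - L) := mul_le_mul_of_nonneg_left pB (by linarith))
    refine (mul_le_mul' h1 le_rfl).trans ?_
    rw [mul_assoc]
    refine (mul_le_mul' le_rfl h3).trans ?_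
    rw [hM0, ← ENNReal.ofReal_ofNat, ← mul_assoc, ← mul_assoc, ← ENNReal.ofReal_mul (by norm_num),
      ← ENNReal.ofReal_mul (by positivity)]
    refine mul_le_mul_left (ENNReal.ofReal_le_ofReal ?_) _
    calc 4 * (A1 * a ^ 2 / 2 ^ (q * n)) * B ^ (K - L) = 4 * A1 * a ^ 2 * B ^ (K - L) / 2 ^ (q * n) := by ring
      _ ≤ (A2 + 4 * A1 * a ^ 2) * B ^ (K - L) / 2 ^ (q * n) := by
          rw [div_le_div_iff_of_pos_right pn]
          refine mul_le_mul_of_nonneg_right ?_ (by positivity)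
          linarith

end NPR

end HexObs
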