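import Pool.Agent.NPR.GroupL

/-!
# NPR / ERG, row Q1 (helper28): the row L1 with polynomial constants

* `Ub_smallQ` : `Ub (L - J) ≤ ε Ub L` for a `J` with `2 ^ J ≤ A (1 / ε) ^ A`;
* `GroupQ` : GroupL with `c' ^ A / A ≤ c1`, `L0 ≤ A (1 / c') ^ A` for `c' ≤ 1`, A depends on k' only; **`groupQ`**.
-/

set_option autoImplicit false

namespace HexObs

namespace NPR

open Finset TS SDN TIW NTA TIP

open scoped ENNReal

/-- **Q1** -/
def GroupQ : Prop := ∃ c0 lam : ℝ, 0 < c0 ∧ 1 ≤ lam ∧ ∀ k' : ℕ, ∃ A : ℕ, 1 ≤ A ∧ ∀ c' : ℝ, 0 < c' → c' ≤ 1 →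
  ∃ (c1 : ℝ) (L0 : ℕ), 0 < c1 ∧ c' ^ A / A ≤ c1 ∧ (L0 : ℝ) ≤ A * (1 / c') ^ A ∧ lam * c1 ≤ 1 ∧ k' ≤ L0 ∧
    ∀ L, L0 ≤ L → ∃ Ng : ℕ, 1 ≤ Ng ∧ (Ng : ℝ) ≤ c' * Ub (L - k') ∧
      ENNReal.ofReal c0 ≤ gf {V | V ∈ Ir Ng ∧ c1 * PW.mZ (2 ^ L) ≤ (V.length : ℝ) ∧
        (V.length : ℝ) ≤ lam * c1 * PW.mZ (2 ^ L)}

/-- a power with a constant is below A x ^ A -/
lemma pol_le {x a0 : ℝ} {n A : ℕ} (hx : 1 ≤ x) (ha : a0 ≤ A) (hn : n ≤ A) : a0 * x ^ n ≤ A * x ^ A := by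
  have h1 : x ^ n ≤ x ^ A := pow_le_pow_right₀ hx hn
  have h2 : 0 < x ^ n := by positivity
  have h3 : (0 : ℝ) ≤ A := Nat.cast_nonneg _
  calc a0 * x ^ n ≤ A * x ^ n := mul_le_mul_of_nonneg_right ha h2.le
    _ ≤ A * x ^ A := mul_le_mul_of_nonneg_left h1 h3

/-- a small scale, the price is polynomial -/
lemma Ub_smallQ : ∃ n : ℕ, 1 ≤ n ∧ ∀ ε : ℝ, 0 < ε → ε ≤ 1 → ∃ J : ℕ, (2 : ℝ) ^ J ≤ 2 * (2 / ε) ^ n ∧
    ∀ L, J ≤ L → Ub (L - J) ≤ ε * Ub L := by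
  have hk := kap0_pos
  obtain ⟨n, hn⟩ := exists_nat_ge (1 / kap0)
  rw [div_le_iff₀ hk] at hn
  obtain ⟨x, hx⟩ : ∃ x : ℝ, x = (2 : ℝ) ^ kap0 := ⟨_, rfl⟩
  have hx1 : 1 < x := by rw [hx]; exact Real.one_lt_rpow (by norm_num) hk
  have hx0 : 0 < x := by linarith
  have hxn : 2 ≤ x ^ (n + 1) := by
    rw [hx, ← Real.rpow_natCast, ← Real.rpow_mul (by norm_num)]
    calc (2 : ℝ) = 2 ^ (1 : ℝ) := (Real.rpow_one 2).symm
      _ ≤ 2 ^ (kap0 * ((n + 1 : ℕ) : ℝ)) := by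
        refine Real.rpow_le_rpow_of_exponent_le (by norm_num) ?_
        push_cast
        nlinarith
  refine ⟨n + 1, by omega, fun ε hε hε1 => ?_⟩
  have h1 : 1 ≤ 2 / ε := by rw [le_div_iff₀ hε]; linarith
  obtain ⟨m, hm1, hm2⟩ := exists_nat_pow_near h1 hx1
  refine ⟨m + 1, ?_, fun L hL => ?_⟩
  · rw [pow_succ, mul_comm]
    refine mul_le_mul_of_nonneg_left ?_ (by norm_num)
    calc (2 : ℝ) ^ m ≤ (x ^ (n + 1)) ^ m := pow_le_pow_left₀ (by norm_num) hxn m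
      _ = (x ^ m) ^ (n + 1) := by rw [← pow_mul, ← pow_mul, mul_comm]
      _ ≤ _ := pow_le_pow_left₀ (by positivity) hm1 _
  · have h2 := Ub_growth (show L - (m + 1) ≤ L by omega)
    have h3 : ((L : ℝ) - ((L - (m + 1) : ℕ) : ℝ)) = ((m + 1 : ℕ) : ℝ) := by
      rw [Nat.cast_sub hL]
      ring
    rw [h3, Real.rpow_mul (by norm_num), ← hx, Real.rpow_natCast] at h2
    have hU : 0 < Ub (L - (m + 1)) := one_le_Ub _ |>.trans_lt' one_pos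
    rw [div_lt_iff₀ hε] at hm2
    have h4 : Ub (L - (m + 1)) * 2 < Ub (L - (m + 1)) * (x ^ (m + 1) * ε) := mul_lt_mul_of_pos_left hm2 hU
    have h5 : Ub (L - (m + 1)) * (x ^ (m + 1) * ε) ≤ 2 * Ub L * ε := by
      rw [← mul_assoc]
      exact mul_le_mul_of_nonneg_right h2 hε.le
    linarith

/-- **Q1** -/
theorem groupQ : GroupQ := by
  obtain ⟨c0, c, lam, A, hc0, hc, hlam, hA, h⟩ := one_scale
  obtain ⟨ca, Ca, hca, hCa, hm⟩ := _root_.VF.mZ_two _root_.VF.sharpZ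
  obtain ⟨w, hw⟩ : ∃ w : ℝ, w = (2 : ℝ) ^ (4 / 3 : ℝ) := ⟨_, rfl⟩
  have hw2 : 2 ≤ w := by
    rw [hw]
    calc (2 : ℝ) = 2 ^ (1 : ℝ) := (Real.rpow_one 2).symm
      _ ≤ 2 ^ (4 / 3 : ℝ) := Real.rpow_le_rpow_of_exponent_le (by norm_num) (by norm_num)
  have hw4 : w ≤ 2 ^ 2 := by
    rw [hw]
    calc (2 : ℝ) ^ (4 / 3 : ℝ) ≤ 2 ^ (2 : ℝ) := Real.rpow_le_rpow_of_exponent_le (by norm_num) (by norm_num)
      _ = 2 ^ 2 := by rw [show (2 : ℝ) ^ (2 : ℝ) = (2 : ℝ) ^ ((2 : ℕ) : ℝ) by norm_num, Real.rpow_natCast]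
  have hw0 : 0 < w := by linarith
  have hlo : ∀ k : ℕ, ca * w ^ k ≤ PW.mZ (2 ^ k) := fun k => by
    have := (hm (2 ^ k) Nat.one_le_two_pow).1
    rwa [pow43, ← hw] at this
  have hup : ∀ k : ℕ, PW.mZ (2 ^ k) ≤ Ca * w ^ k := fun k => by
    have := (hm (2 ^ k) Nat.one_le_two_pow).2
    rwa [pow43, ← hw] at this
  obtain ⟨q, hq⟩ : ∃ q : ℝ, q = Ca / ca := ⟨_, rfl⟩
  have hq1 : 1 ≤ q := by
    have h1 := (hlo 0).trans (hup 0)
    rw [pow_zero, mul_one, mul_one] at h1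
    rw [hq, le_div_iff₀ hca, one_mul]
    exact h1
  have hq0 : 0 < q := by linarith
  have hCq : Ca = q * ca := by rw [hq]; field_simp
  obtain ⟨n, hn1, hUb⟩ := Ub_smallQ
  obtain ⟨D1, hD1⟩ := pow_unbounded_of_one_lt (max c (lam * q)) (show (1 : ℝ) < 2 by norm_num)
  refine ⟨c0, max 1 (lam / c * q ^ 2), hc0, le_max_left _ _, fun k' => ?_⟩
  -- the constants
  obtain ⟨A', hA'⟩ : ∃ A' : ℝ, A' = max A 1 := ⟨_, rfl⟩
  have hA'1 : 1 ≤ A' := by rw [hA']; exact le_max_right _ _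
  have hAA' : A ≤ A' := by rw [hA']; exact le_max_left _ _
  obtain ⟨E, hE⟩ : ∃ E : ℝ, E = 2 ^ (k' + D1) * (2 * (2 * A') ^ n) := ⟨_, rfl⟩
  have hE0 : 0 < E := by rw [hE]; positivity
  obtain ⟨N, hN⟩ := exists_nat_ge (max E (q / c * E ^ 2))
  refine ⟨N + 2 * n + 1, by omega, fun c' hc' hc'1 => ?_⟩
  obtain ⟨j0, hj1, hj0⟩ := hUb (c' / A') (by positivity) (by
    rw [div_le_one (by linarith)]
    linarith)
  obtain ⟨D, hD⟩ : ∃ D : ℕ, D = k' + j0 + D1 := ⟨_, rfl⟩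
  have hx1 : 1 ≤ 1 / c' := by rw [le_div_iff₀ hc', one_mul]; exact hc'1
  have h2D : (2 : ℝ) ^ D ≤ E * (1 / c') ^ n := by
    calc (2 : ℝ) ^ D = 2 ^ (k' + D1) * 2 ^ j0 := by rw [hD, ← pow_add]; congr 1; omega
      _ ≤ 2 ^ (k' + D1) * (2 * (2 / (c' / A')) ^ n) := mul_le_mul_of_nonneg_left hj1 (by positivity)
      _ = E * (1 / c') ^ n := by
        have e1 : 2 / (c' / A') = 2 * A' * (1 / c') := by field_simp
        rw [e1, mul_pow, hE]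
        ring
  have hwD : max c (lam * q) ≤ w ^ D := by
    calc max c (lam * q) ≤ 2 ^ D1 := hD1.le
      _ ≤ 2 ^ D := pow_le_pow_right₀ (by norm_num) (by omega)
      _ ≤ w ^ D := pow_le_pow_left₀ (by norm_num) hw2 D
  have hwD0 : 0 < w ^ D := pow_pos hw0 D
  have hcD : c ≤ w ^ D := (le_max_left _ _).trans hwD
  have hlD : lam * q ≤ w ^ D := (le_max_right _ _).trans hwD
  have hlam0 : 0 < lam := by linarith
  have hwup : w ^ D ≤ E ^ 2 * (1 / c') ^ (2 * n) := by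
    calc w ^ D ≤ (2 ^ 2) ^ D := pow_le_pow_left₀ hw0.le hw4 D
      _ = (2 ^ D) ^ 2 := by rw [← pow_mul, ← pow_mul, mul_comm]
      _ ≤ (E * (1 / c') ^ n) ^ 2 := pow_le_pow_left₀ (by positivity) h2D 2
      _ = _ := by rw [mul_pow, ← pow_mul, mul_comm n 2]
  refine ⟨c / (q * w ^ D), D, by positivity, ?_, ?_, ?_, by omega, fun L hL => ?_⟩
  · -- c1 is not too small
    have h1 : q / c * w ^ D ≤ ((N + 2 * n + 1 : ℕ) : ℝ) * (1 / c') ^ (N + 2 * n + 1) := by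
      calc q / c * w ^ D ≤ q / c * (E ^ 2 * (1 / c') ^ (2 * n)) := mul_le_mul_of_nonneg_left hwup (by positivity)
        _ = q / c * E ^ 2 * (1 / c') ^ (2 * n) := by ring
        _ ≤ _ := by
          refine pol_le hx1 ?_ (by omega)
          have h2 := (le_max_right _ _).trans hN
          push_cast
          linarith [(Nat.cast_nonneg n : (0 : ℝ) ≤ n)]
    have h3 : 0 < ((N + 2 * n + 1 : ℕ) : ℝ) := by positivity
    rw [div_le_div_iff₀ h3 (by positivity)]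
    have h4 : c' ^ (N + 2 * n + 1) * (1 / c') ^ (N + 2 * n + 1) = 1 := by
      rw [← mul_pow, mul_one_div_cancel hc'.ne', one_pow]
    have h5 : 0 < c' ^ (N + 2 * n + 1) := by positivity
    calc c' ^ (N + 2 * n + 1) * (q * w ^ D) = c * (c' ^ (N + 2 * n + 1) * (q / c * w ^ D)) := by field_simp
      _ ≤ c * (c' ^ (N + 2 * n + 1) * (((N + 2 * n + 1 : ℕ) : ℝ) * (1 / c') ^ (N + 2 * n + 1))) := by gcongr
      _ = c * ((N + 2 * n + 1 : ℕ) : ℝ) * (c' ^ (N + 2 * n + 1) * (1 / c') ^ (N + 2 * n + 1)) := by ring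
      _ = _ := by rw [h4, mul_one]
  · -- L0 is not too large
    have h1 : (D : ℝ) ≤ 2 ^ D := by exact_mod_cast Nat.lt_two_pow_self.le
    refine h1.trans (h2D.trans (pol_le hx1 ?_ (by omega)))
    have h2 := (le_max_left _ _).trans hN
    push_cast
    linarith [(Nat.cast_nonneg n : (0 : ℝ) ≤ n)]
  · rw [max_mul_of_nonneg _ _ (by positivity)]
    refine max_le ?_ ?_
    · rw [one_mul, div_le_one (by positivity)]
      nlinarith
    · have e : lam / c * q ^ 2 * (c / (q * w ^ D)) = lam * q / w ^ D := by field_simp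
      rw [e, div_le_one hwD0]
      exact hlD
  obtain ⟨b, hb⟩ : ∃ b : ℕ, L = b + D := ⟨L - D, by omega⟩
  obtain ⟨Ng, hN1, hN2, hN3⟩ := h b
  refine ⟨Ng, hN1, ?_, hN3.trans (gf_mono fun V hV => ⟨hV.1, ?_, ?_⟩)⟩
  · have h1 := hj0 (L - k') (by omega)
    have h2 : Ub b ≤ Ub (L - k' - j0) := by
      show UU (2 ^ b) ≤ UU (2 ^ (L - k' - j0))
      exact Num2Aux.UU_mono (Nat.pow_le_pow_right (by norm_num) (by omega))
    calc (Ng : ℝ) ≤ A * Ub b := hN2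
      _ ≤ A' * Ub b := mul_le_mul_of_nonneg_right hAA' (one_le_Ub b |>.trans' zero_le_one)
      _ ≤ A' * (c' / A' * Ub (L - k')) := mul_le_mul_of_nonneg_left (h2.trans h1) (by linarith)
      _ = c' * Ub (L - k') := by field_simp
  · refine le_trans ?_ hV.2.1
    calc c / (q * w ^ D) * PW.mZ (2 ^ L) ≤ c / (q * w ^ D) * (Ca * w ^ L) :=
          mul_le_mul_of_nonneg_left (hup L) (by positivity)
      _ = c * (ca * w ^ b) := by
          rw [hb, pow_add, hCq]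
          field_simp
      _ ≤ c * PW.mZ (2 ^ b) := mul_le_mul_of_nonneg_left (hlo b) hc.le
  · refine hV.2.2.trans ?_
    calc lam * PW.mZ (2 ^ b) ≤ lam * (Ca * w ^ b) := mul_le_mul_of_nonneg_left (hup b) hlam0.le
      _ = lam / c * q ^ 2 * (c / (q * w ^ D)) * (ca * w ^ L) := by
          rw [hb, pow_add, hCq]
          field_simp
      _ ≤ lam / c * q ^ 2 * (c / (q * w ^ D)) * PW.mZ (2 ^ L) := mul_le_mul_of_nonneg_left (hlo L) (by positivity)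
      _ ≤ max 1 (lam / c * q ^ 2) * (c / (q * w ^ D)) * PW.mZ (2 ^ L) :=
          mul_le_mul_of_nonneg_right (mul_le_mul_of_nonneg_right (le_max_right _ _) (by positivity)) (PW.mZ_nonneg _)

end NPR

end HexObs
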