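import Pool.Agent.NPR.Defs2
import Pool.Agent.NPR.Scl

/-!
# NPR, row S0 (helper16): the initial range, common definitions

`GoodC` : the word has good chains behind all the grid points; `FastQ`, `SlowQ` : the sets of `FastN`, `SlowN`.
-/

set_option autoImplicit false

namespace HexObs

namespace NPR

open Finset TS SDN TIW NTA TIP

/-- good chains of J blocks behind all the grid points -/
def GoodC (κ : ℝ) (C b0 k L : ℕ) (QQ : Set (List Bool)) (J : ℕ) (t : List Bool) : Prop :=
  ∀ i : ℕ, i * ML L + 3 * ML L * (J + 1) < t.length → ∃ g, J ≤ 2 * g ∧ Ch κ C b0 k L QQ J g (t.drop (i * ML L))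

/-- a large displacement in a short time -/
def FastQ (L : ℕ) (lam : ℝ) : Set (List Bool) :=
  {Q | (Q.length : ℝ) ≤ PW.mZ (2 ^ L) / lam ∧ 2 ^ L ≤ hn (vx oo up Q Q.length)}

/-- a small displacement in a long time -/
def SlowQ (L v : ℕ) : Set (List Bool) := {Q | Q.length = ML L ∧ ∀ i, i ≤ Q.length → hn (vx oo up Q i) < 2 ^ (L - v)}

end NPR

end HexObs
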