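import Pool.Agent.NPR.Defs
import Pool.Agent.TIP.Ne
import Pool.Agent.TIP.NfA
import Pool.Agent.TIW.InsA

/-!
# NPR, row E1 (i) (helper10): the geometry of a block and the number of the rich cuts

* `stp_gt`, `stp_le`, `stp_or`, `stp_in`, `hn_stp` : the stopping time;
* `s1_lt_s2`, `s2_lt_s3`, `s3_le`, `hn_s1`, `hn_s2`, `hn_s3`, `take_WL` : the block is in the box of the scale L + 4;
* `mid_Mid` : the middle is a possible middle; `win_app`, `mid_app` : the word is the product of its parts;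
* `lbl_add_le`, `lbl_or`, `lbl_win`, `lbl_Nz` : the label;
* `mem_nx0`, `mem_nx1`, `nx_le`, `nx_ge`, **`nx_card`** : the possible next cuts.
-/

set_option autoImplicit false

namespace HexObs

namespace NPR

open Finset TS SDN TIW NTA TIP

open scoped ENNReal

/-! ### 1. Frames -/

lemma vx_take (u : List Bool) (a : ℕ) {i : ℕ} (hi : i ≤ a) (ha : a ≤ u.length) : vx oo up (u.take a) i = vx oo up u i := by
  conv_rhs => rw [← List.take_append_drop a u]
  refine (vx_append ?_).symm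
  rw [List.length_take]
  omega

lemma vx_cut (u : List Bool) {a : ℕ} (ha : a ≤ u.length) (i : ℕ) :
    vx oo up u (a + i) = vx oo up u a + mulE (rt (u.take a)) (vx oo up (u.drop a) i) := by
  have h := vx_app (u.take a) (u.drop a) i
  have hl : (u.take a).length = a := by
    rw [List.length_take]
    omega
  rw [List.take_append_drop, hl] at h
  rw [h]
  congr 1
  unfold TIW.en
  rw [hl]
  exact vx_take u a le_rfl ha

lemma hn_cut (u : List Bool) {a : ℕ} (ha : a ≤ u.length) (i : ℕ) :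
    hn (vx oo up u (a + i) - vx oo up u a) = hn (vx oo up (u.drop a) i) := by
  rw [vx_cut u ha, add_sub_cancel_left, hn_mulE (nrm_rt _)]

lemma hn_zero : hn (0 : Pt) = 0 := by decide

lemma hn_vx0 (u : List Bool) : hn (vx oo up u 0) = 0 := hn_zero

lemma hn_next (u : List Bool) (i : ℕ) (q : Pt) : hn (vx oo up u (i + 1) - q) ≤ hn (vx oo up u i - q) + 2 := by
  have h1 : vx oo up u (i + 1) - q = (vx oo up u i - q) + dx up u i := by
    rw [vx_succ]
    abel
  rw [h1]
  refine (hn_add _ _).trans ?_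
  rw [hn_dir (dx_mem upd u i)]

/-! ### 2. The stopping time -/

section Stp

variable {L M : ℕ} (u : List Bool) (c : ℕ)

lemma stp_mem (hM : 1 ≤ M) : c < stp L M u c ∧ (stp L M u c = c + M ∨
    (2 : ℤ) ^ L ≤ hn (vx oo up u (stp L M u c) - vx oo up u c)) :=
  Nat.sInf_mem (s := {s | c < s ∧ (s = c + M ∨ (2 : ℤ) ^ L ≤ hn (vx oo up u s - vx oo up u c))}) ⟨c + M, by
    show c < c + M ∧ _
    exact ⟨by omega, Or.inl rfl⟩⟩

lemma stp_gt (hM : 1 ≤ M) : c < stp L M u c := (stp_mem u c hM).1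

lemma stp_or (hM : 1 ≤ M) : stp L M u c = c + M ∨ (2 : ℤ) ^ L ≤ hn (vx oo up u (stp L M u c) - vx oo up u c) :=
  (stp_mem u c hM).2

lemma stp_le (hM : 1 ≤ M) : stp L M u c ≤ c + M :=
  Nat.sInf_le (show c < c + M ∧ _ from ⟨by omega, Or.inl rfl⟩)

lemma stp_in {i : ℕ} (h2 : i < stp L M u c) : hn (vx oo up u i - vx oo up u c) < 2 ^ L ∨ i < c := by
  rcases lt_trichotomy i c with h | h | h
  · exact Or.inr h
  · left
    rw [h, sub_self, hn_zero]
    positivity
  · left
    have := Nat.notMem_of_lt_sInf h2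
    have h3 : ¬ (c < i ∧ (i = c + M ∨ (2 : ℤ) ^ L ≤ hn (vx oo up u i - vx oo up u c))) := this
    push Not at h3
    exact (h3 h).2

lemma stp_in' {i : ℕ} (h1 : c ≤ i) (h2 : i < stp L M u c) : hn (vx oo up u i - vx oo up u c) < 2 ^ L :=
  (stp_in u c h2).resolve_right (by omega)

/-- the vertices up to the stopping time -/
lemma hn_stp (hM : 1 ≤ M) {i : ℕ} (h1 : c ≤ i) (h2 : i ≤ stp L M u c) : hn (vx oo up u i - vx oo up u c) ≤ 2 ^ L + 1 := by
  rcases Nat.lt_or_ge i (stp L M u c) with h | h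
  · exact (stp_in' u c h1 h).le.trans (by omega)
  · have h3 := stp_gt (L := L) u c hM
    obtain ⟨j, rfl⟩ : ∃ j, i = j + 1 := ⟨i - 1, by omega⟩
    have h4 := stp_in' (L := L) (M := M) u c (i := j) (by omega) (by omega)
    have h5 := hn_next u j (vx oo up u c)
    linarith [Int.add_one_le_iff.2 h4]

/-- the stopping time of the word behind a cut -/
lemma stp_drop (hM : 1 ≤ M) {a : ℕ} (ha : a ≤ u.length) : stp L M u (a + c) = a + stp L M (u.drop a) c := by
  have key : ∀ s, hn (vx oo up u (a + s) - vx oo up u (a + c)) =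
      hn (vx oo up (u.drop a) s - vx oo up (u.drop a) c) := by
    intro s
    have e : vx oo up u (a + s) - vx oo up u (a + c) =
        mulE (rt (u.take a)) (vx oo up (u.drop a) s - vx oo up (u.drop a) c) := by
      rw [vx_cut u ha, vx_cut u ha, mulE_sub]
      abel
    rw [e, hn_mulE (nrm_rt _)]
  unfold stp
  have e : {s | a + c < s ∧ (s = a + c + M ∨ (2 : ℤ) ^ L ≤ hn (vx oo up u s - vx oo up u (a + c)))} =
      (fun s => a + s) '' {s | c < s ∧ (s = c + M ∨ (2 : ℤ) ^ L ≤ hn (vx oo up (u.drop a) s - vx oo up (u.drop a) c))} := by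
    ext s
    constructor
    · rintro ⟨h1, h2⟩
      obtain ⟨s', rfl⟩ : ∃ s', s = a + s' := ⟨s - a, by omega⟩
      refine ⟨s', ⟨by omega, ?_⟩, rfl⟩
      rcases h2 with h2 | h2
      · exact Or.inl (by omega)
      · right
        rw [← key]
        exact h2
    · rintro ⟨s', ⟨h1, h2⟩, rfl⟩
      refine ⟨by show a + c < a + s'; omega, ?_⟩
      rcases h2 with h2 | h2
      · exact Or.inl (by show a + s' = a + c + M; omega)
      · right
        show (2 : ℤ) ^ L ≤ hn (vx oo up u (a + s') - vx oo up u (a + c))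
        rw [key]
        exact h2
  have h0 : {s | c < s ∧ (s = c + M ∨ (2 : ℤ) ^ L ≤ hn (vx oo up (u.drop a) s - vx oo up (u.drop a) c))}.Nonempty :=
    ⟨c + M, by
      show c < c + M ∧ _
      exact ⟨by omega, Or.inl rfl⟩⟩
  rw [e]
  refine le_antisymm (Nat.sInf_le ⟨_, Nat.sInf_mem h0, rfl⟩) ?_
  obtain ⟨s', hs, hs2⟩ := Nat.sInf_mem (h0.image fun s => a + s)
  rw [← hs2]
  exact Nat.add_le_add_left (Nat.sInf_le hs) a

/-- a lower bound of the stopping time -/
lemma le_stp (hM : 1 ≤ M) {n : ℕ} (hn' : n ≤ c + M) (h : ∀ i, c < i → i < n → hn (vx oo up u i - vx oo up u c) < 2 ^ L) :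
    n ≤ stp L M u c := by
  by_contra h1
  push Not at h1
  have h2 := stp_gt (L := L) u c hM
  have h3 := h _ h2 h1
  rcases stp_or (L := L) u c hM with h4 | h4
  · omega
  · exact absurd h4 (not_le.2 h3)

end Stp

/-! ### 3. The block -/

section Block

variable {L M : ℕ} (u : List Bool)

lemma s1_pos (hM : 1 ≤ M) : 1 ≤ s1 L M u := stp_gt u 0 hM

lemma s1_lt_s2 (hM : 1 ≤ M) : s1 L M u < s2 L M u := stp_gt u _ hM

lemma s2_lt_s3 (hM : 1 ≤ M) : s2 L M u < s3 L M u := stp_gt u _ hM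

lemma s1_le (hM : 1 ≤ M) : s1 L M u ≤ M := by
  have := stp_le (L := L) u 0 hM
  unfold s1
  omega

lemma s2_le' (hM : 1 ≤ M) : s2 L M u ≤ s1 L M u + M := stp_le u _ hM

lemma s3_le' (hM : 1 ≤ M) : s3 L M u ≤ s2 L M u + M := stp_le u _ hM

lemma s2_le (hM : 1 ≤ M) : s2 L M u ≤ 2 * M := by
  have := s1_le (L := L) u hM
  have := s2_le' (L := L) u hM
  omega

lemma s3_le (hM : 1 ≤ M) : s3 L M u ≤ 3 * M := by
  have := s2_le (L := L) u hM
  have := s3_le' (L := L) u hM
  omega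

lemma hn_s1 (hM : 1 ≤ M) {i : ℕ} (h : i ≤ s1 L M u) : hn (vx oo up u i) ≤ 2 ^ L + 1 := by
  have h1 := hn_stp (L := L) u 0 hM (Nat.zero_le i) h
  have h2 : vx oo up u 0 = 0 := rfl
  rwa [h2, sub_zero] at h1

lemma hn_s2 (hM : 1 ≤ M) {i : ℕ} (h : i ≤ s2 L M u) : hn (vx oo up u i) ≤ 2 * (2 ^ L + 1) := by
  have h0 : (0 : ℤ) < 2 ^ L := by positivity
  rcases Nat.lt_or_ge (s1 L M u) i with h1 | h1
  · have h2 := hn_stp (L := L) u _ hM h1.le h
    have h3 := hn_s1 (L := L) u hM (le_refl (s1 L M u))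
    have h4 := hn_add (vx oo up u i - vx oo up u (s1 L M u)) (vx oo up u (s1 L M u))
    rw [sub_add_cancel] at h4
    linarith
  · have := hn_s1 (L := L) u hM h1
    linarith

lemma hn_s3 (hM : 1 ≤ M) {i : ℕ} (h : i ≤ s3 L M u) : hn (vx oo up u i) ≤ 3 * (2 ^ L + 1) := by
  have h0 : (0 : ℤ) < 2 ^ L := by positivity
  rcases Nat.lt_or_ge (s2 L M u) i with h1 | h1
  · have h2 := hn_stp (L := L) u _ hM h1.le h
    have h3 := hn_s2 (L := L) u hM (le_refl (s2 L M u))
    have h4 := hn_add (vx oo up u i - vx oo up u (s2 L M u)) (vx oo up u (s2 L M u))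
    rw [sub_add_cancel] at h4
    linarith
  · have := hn_s2 (L := L) u hM h1
    linarith

lemma row_le (dir : Bool) (p : Pt) : |row dir p| ≤ hn p := by
  have h1 : ip p (hd dir) ≤ hn p := ip_le_hn p (hd_mem dir)
  have h2 : -hn p ≤ ip p (hd dir) := neg_hn_le_ip p (hd_mem dir)
  have h3 := hn_nonneg p
  show |ip p (hd dir) / 3| ≤ hn p
  rw [abs_le]
  constructor <;> omega

/-- the words up to the end of the block are in the box -/
lemma take_WL (hM : 1 ≤ M) (hu : u ∈ SA) {j : ℕ} (hj : j ≤ s3 L M u) : u.take j ∈ WL (L + 4) := by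
  refine ⟨SA_take hu j, fun i hi dir => ?_⟩
  rw [List.length_take] at hi
  have e : vx oo up (u.take j) i = vx oo up u i := by
    conv_rhs => rw [← List.take_append_drop j u]
    refine (vx_append ?_).symm
    rw [List.length_take]
    omega
  rw [e]
  refine (row_le dir _).trans ((hn_s3 (L := L) u hM (i := i) (by omega)).trans ?_)
  have h0 : (1 : ℤ) ≤ 2 ^ L := one_le_pow₀ (by norm_num)
  rw [pow_add]
  linarith

/-- the parts of the word -/
lemma mid_app (hM : 1 ≤ M) : u.take (s2 L M u) = u.take (s1 L M u) ++ mid L M u := by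
  unfold mid
  have h := List.take_append_drop (s1 L M u) (u.take (s2 L M u))
  rw [List.take_take, min_eq_left (s1_lt_s2 u hM).le] at h
  exact h.symm

lemma win_app (hM : 1 ≤ M) : u.take (s3 L M u) = u.take (s2 L M u) ++ win L M u := by
  unfold win
  have h := List.take_append_drop (s2 L M u) (u.take (s3 L M u))
  rw [List.take_take, min_eq_left (s2_lt_s3 u hM).le] at h
  exact h.symm

lemma blk_app (hM : 1 ≤ M) : u = u.take (s1 L M u) ++ (mid L M u ++ (win L M u ++ u.drop (s3 L M u))) := by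
  conv_lhs => rw [← List.take_append_drop (s3 L M u) u, win_app u hM, mid_app u hM]
  simp only [List.append_assoc]

lemma mid_len (hu : s2 L M u ≤ u.length) : (mid L M u).length = s2 L M u - s1 L M u := by
  unfold mid
  rw [List.length_drop, List.length_take]
  omega

lemma win_len (hu : s3 L M u ≤ u.length) : (win L M u).length = s3 L M u - s2 L M u := by
  unfold win
  rw [List.length_drop, List.length_take]
  omega

/-- vertices of a factor -/
lemma vx_fac {a b i : ℕ} (hb : b ≤ u.length) (hi : a + i ≤ b) :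
    hn (vx oo up ((u.take b).drop a) i) = hn (vx oo up u (a + i) - vx oo up u a) := by
  have h := hn_cut (u.take b) (a := a) (by rw [List.length_take]; omega) i
  rw [vx_take u b hi hb, vx_take u b (by omega) hb] at h
  exact h.symm

/-- **the middle is a possible middle** -/
lemma mid_Mid (hM : 1 ≤ M) (hu : s2 L M u ≤ u.length) : mid L M u ∈ Mid L M := by
  have hl := mid_len (L := L) u hu
  have h12 := s1_lt_s2 (L := L) u hM
  have h2 := s2_le' (L := L) u hM
  refine ⟨by omega, by omega, fun i hi => ?_, ?_⟩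
  · unfold mid
    rw [vx_fac u hu (by omega)]
    exact stp_in' u _ (by omega) (by show s1 L M u + i < s2 L M u; omega)
  · rcases stp_or (L := L) u (s1 L M u) hM with h | h
    · left
      have : s2 L M u = s1 L M u + M := h
      omega
    · right
      rw [hl]
      unfold mid
      rw [vx_fac u hu (by omega), Nat.add_sub_cancel' h12.le]
      exact h

end Block

/-! ### 4. The label -/

section Lbl

variable {κ : ℝ} {C b0 k L : ℕ} {u : List Bool}

lemma lbl_bdd (κ : ℝ) (C b0 k L : ℕ) (u : List Bool) : BddAbove {b | b0 ≤ b ∧ b + k ≤ L ∧ win L (ML L) u ∉ Nz κ C b} :=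
  ⟨L, fun b hb => by
    have := hb.2.1
    omega⟩

lemma lbl_cases (κ : ℝ) (C b0 k L : ℕ) (u : List Bool) : lbl κ C b0 k L u = 0 ∨ (b0 ≤ lbl κ C b0 k L u ∧
    lbl κ C b0 k L u + k ≤ L ∧ win L (ML L) u ∉ Nz κ C (lbl κ C b0 k L u)) := by
  rcases Set.eq_empty_or_nonempty {b | b0 ≤ b ∧ b + k ≤ L ∧ win L (ML L) u ∉ Nz κ C b} with h | h
  · left
    unfold lbl
    rw [h]
    exact csSup_empty
  · right
    exact Nat.sSup_mem h (lbl_bdd κ C b0 k L u)

lemma lbl_add_le (h : b0 + k ≤ L) : lbl κ C b0 k L u + k ≤ L := by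
  rcases lbl_cases κ C b0 k L u with h1 | h1
  · omega
  · exact h1.2.1

lemma lbl_or : lbl κ C b0 k L u = 0 ∨ b0 ≤ lbl κ C b0 k L u := (lbl_cases κ C b0 k L u).imp id fun h => h.1

lemma lbl_win (h : lbl κ C b0 k L u ≠ 0) : win L (ML L) u ∉ Nz κ C (lbl κ C b0 k L u) :=
  ((lbl_cases κ C b0 k L u).resolve_left h).2.2

/-- above the label there is no local bridge with many cuts -/
lemma lbl_Nz {b : ℕ} (h1 : b0 ≤ b) (h2 : b + k ≤ L) (h3 : lbl κ C b0 k L u < b) : win L (ML L) u ∈ Nz κ C b := by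
  by_contra h4
  exact absurd (le_csSup (lbl_bdd κ C b0 k L u) (show b ∈ {b | b0 ≤ b ∧ b + k ≤ L ∧ win L (ML L) u ∉ Nz κ C b} from
    ⟨h1, h2, h4⟩)) (not_le.2 h3)

/-- the window of a block with a small label -/
lemma lbl_max (hL : b0 + k ≤ L) (h : lbl κ C b0 k L u + k < L) :
    win L (ML L) u ∈ Nz κ C (max (lbl κ C b0 k L u + 1) b0) :=
  lbl_Nz (L := L) (k := k) (le_max_right _ _) (by omega) (by omega)

end Lbl

/-! ### 5. The next cuts -/

lemma ML_pos (L : ℕ) : 1 ≤ ML L := by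
  unfold ML PW.mZ
  rw [Nat.one_le_ceil_iff]
  have := PW.Zt_pos (2 ^ L)
  positivity

lemma Ub_pos (b : ℕ) : 0 < Ub b := Num2Aux.UU_pos _

section Nx

variable {κ : ℝ} {C b0 k L : ℕ} {u : List Bool}

open Classical in
lemma mem_nx0 (h : lbl κ C b0 k L u = 0) {j : ℕ} : j ∈ nx κ C b0 k L u ↔ j ≤ u.length ∧ j = s3 L (ML L) u := by
  unfold nx
  rw [mem_filter, mem_range, if_pos h]
  constructor
  · rintro ⟨h1, h2⟩
    exact ⟨by omega, h2⟩
  · rintro ⟨h1, h2⟩
    exact ⟨by omega, h2⟩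

open Classical in
lemma mem_nx1 (h : lbl κ C b0 k L u ≠ 0) {j : ℕ} : j ∈ nx κ C b0 k L u ↔ j ≤ u.length ∧
    RC (κ / 4) C (lbl κ C b0 k L u) u (s2 L (ML L) u) (s3 L (ML L) u) j := by
  unfold nx
  rw [mem_filter, mem_range, if_neg h]
  constructor
  · rintro ⟨h1, h2⟩
    exact ⟨by omega, h2⟩
  · rintro ⟨h1, h2⟩
    exact ⟨by omega, h2⟩

lemma RC.bds {η : ℝ} {C b x y j : ℕ} {u : List Bool} (h : RC η C b u x y j) : x ≤ j ∧ j ≤ y ∧ j ≤ u.length := by
  obtain ⟨X, Z1, M, N, Z3, Y, h1, h2, h3, h4, -⟩ := h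
  have h5 := congrArg List.length h1
  simp only [List.length_append] at h3 h4 h5
  omega

/-- the place of the next cuts -/
lemma nx_bds {j : ℕ} (hj : j ∈ nx κ C b0 k L u) : s2 L (ML L) u ≤ j ∧ j ≤ s3 L (ML L) u ∧ j ≤ u.length := by
  by_cases h : lbl κ C b0 k L u = 0
  · rw [mem_nx0 h] at hj
    rw [hj.2]
    exact ⟨(s2_lt_s3 u (ML_pos L)).le, le_rfl, by omega⟩
  · rw [mem_nx1 h] at hj
    exact ⟨hj.2.bds.1, hj.2.bds.2.1, hj.1⟩

/-- a rich bridge has many rich cuts -/
lemma rich_cuts {b : ℕ} {u X Z Y : List Bool} {x y : ℕ} (hκ : 0 < κ) (hu : u = X ++ (Z ++ Y)) (hx : x ≤ X.length)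
    (hy : (X ++ Z).length ≤ y) (hZ : Z ∈ Zc κ C b) (S : Finset ℕ) (hS : ∀ j, j ≤ u.length → RC (κ / 4) C b u x y j → j ∈ S) :
    κ / 2 * Ub b ≤ (S.card : ℝ) := by
  obtain ⟨Z1, Z2, Z3, e, z1, z2, z3, g1, g3, g2, hc, hin⟩ := hZ
  have hU := Ub_pos b
  obtain ⟨a, ha⟩ : ∃ a, a = ⌈κ / 4 * Ub b⌉₊ := ⟨_, rfl⟩
  have ha1 : κ / 4 * Ub b ≤ (a : ℝ) := by
    rw [ha]
    exact Nat.le_ceil _
  have ha2 : (a : ℝ) < κ / 4 * Ub b + 1 := by
    rw [ha]
    exact Nat.ceil_lt_add_one (by positivity)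
  have ha0 : 1 ≤ a := by
    rw [ha, Nat.one_le_ceil_iff]
    positivity
  obtain ⟨m, hm⟩ : ∃ m, m = nc Z2 := ⟨_, rfl⟩
  rw [← hm] at hc
  -- a + i cuts in the first part
  have hma : 2 * a ≤ m + 2 := by
    have : (2 * a : ℝ) < m + 2 := by
      have : 0 < κ * Ub b := by positivity
      linarith
    exact_mod_cast this.le
  have key : ∀ i : ℕ, i < m + 2 - 2 * a → ∃ j, j ∈ S ∧ ∃ M N, Z2 = M ++ N ∧ nc M = a + i ∧ j = (X ++ (Z1 ++ M)).length := by
    intro i hi
    obtain ⟨M, N, hM, hN, e2, c1, c2⟩ := nc_split z2 (i := a + i) (by omega) (by omega)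
    refine ⟨(X ++ (Z1 ++ M)).length, hS _ ?_ ?_, M, N, e2, c1, rfl⟩
    · rw [hu, e, e2]
      simp only [List.length_append]
      omega
    · refine ⟨X, Z1, M, N, Z3, Y, ?_, hx, rfl, ?_, z1, hM, hN, z3, g1, g3, ?_, ?_, ?_, ?_⟩
      · rw [hu, e, e2]
        simp only [List.append_assoc]
      · rw [e, e2] at hy
        simp only [List.append_assoc] at hy ⊢
        exact hy
      · rw [← e2]
        exact g2
      · rw [c1]
        push_cast
        have : (0 : ℝ) ≤ i := Nat.cast_nonneg i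
        linarith
      · have h3 : a ≤ nc N := by omega
        have h4 : (a : ℝ) ≤ (nc N : ℝ) := by exact_mod_cast h3
        linarith
      · rw [e, e2] at hin
        simp only [List.append_assoc] at hin
        exact hin
  choose! f hf using key
  have hinj : Set.InjOn f (↑(range (m + 2 - 2 * a)) : Set ℕ) := by
    intro i hi i' hi' hii
    rw [mem_coe, mem_range] at hi hi'
    obtain ⟨-, M, N, e2, c1, c2⟩ := hf i hi
    obtain ⟨-, M', N', e2', c1', c2'⟩ := hf i' hi'
    rw [hii, c2'] at c2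
    have hl : M.length = M'.length := by
      simp only [List.length_append] at c2
      omega
    have hMM : M = M' := (List.append_inj (e2.symm.trans e2') hl).1
    rw [hMM] at c1
    omega
  have hcard : m + 2 - 2 * a ≤ S.card := by
    calc m + 2 - 2 * a = (range (m + 2 - 2 * a)).card := (card_range _).symm
      _ ≤ S.card := card_le_card_of_injOn f (fun i hi => (hf i (mem_range.1 (mem_coe.1 hi))).1) hinj
  have h6 : ((m + 2 - 2 * a : ℕ) : ℝ) = m + 2 - 2 * a := by
    rw [Nat.cast_sub hma]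
    push_cast
    ring
  have h7 : ((m + 2 - 2 * a : ℕ) : ℝ) ≤ S.card := by exact_mod_cast hcard
  rw [h6] at h7
  linarith

open Classical in
/-- **the number of the next cuts** -/
theorem nx_card (hκ : 0 < κ) (hu : s3 L (ML L) u ≤ u.length) : uw κ (lbl κ C b0 k L u) ≤ ((nx κ C b0 k L u).card : ℝ) := by
  by_cases h : lbl κ C b0 k L u = 0
  · have h1 : 1 ≤ (nx κ C b0 k L u).card := card_pos.2 ⟨_, (mem_nx0 h).2 ⟨hu, rfl⟩⟩
    unfold uw
    rw [if_pos h]
    exact_mod_cast h1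
  · have h1 : ¬ ∀ X Z Y, win L (ML L) u = X ++ (Z ++ Y) → Y ≠ [] → Z ∉ Zc κ C (lbl κ C b0 k L u) := lbl_win h
    push Not at h1
    obtain ⟨X, Z, Y, h2, -, h4⟩ := h1
    have hl := win_len (L := L) u hu
    have h23 := s2_lt_s3 (L := L) u (ML_pos L)
    have h5 : u = (u.take (s2 L (ML L) u) ++ X) ++ (Z ++ (Y ++ u.drop (s3 L (ML L) u))) := by
      conv_lhs => rw [← List.take_append_drop (s3 L (ML L) u) u, win_app u (ML_pos L), h2]
      simp only [List.append_assoc]
    have hlt : (u.take (s2 L (ML L) u)).length = s2 L (ML L) u := by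
      rw [List.length_take]
      omega
    have h6 := rich_cuts (x := s2 L (ML L) u) (y := s3 L (ML L) u) hκ h5 (by
      rw [List.length_append, hlt]
      omega) (by
      rw [h2] at hl
      simp only [List.length_append, hlt] at hl ⊢
      omega) h4 (nx κ C b0 k L u) (fun j hj hr => (mem_nx1 h).2 ⟨hj, hr⟩)
    have hU := Ub_pos (lbl κ C b0 k L u)
    unfold uw
    rw [if_neg h]
    have : 0 < κ * Ub (lbl κ C b0 k L u) := by positivity
    linarith

end Nx

end NPR

end HexObs
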