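import Pool.Agent.NPR.Defs2
import Pool.Agent.NPR.StepA

/-!
# NPR, row S1 (helper10): typical leaves and a range of the density give a shorter range

Deterministic. `Bd V m a b E t x y T S N`: the window `t[x, y]` has disjoint typical parts with `T` letters in all and value
`S` in all, the rest (and the gluings) cost at most `N` errors `E`.
* `bd_win` (any window), `bd_app` (gluing), `bd_list` (typical leaf), `bd_mid` (typical middle), `bd_chain` (chain of blocks),
  `bd_segs` (segments), **`rng_up`**, **`rng_low`** (the new range).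
-/

set_option autoImplicit false

namespace HexObs

namespace NPR

open Finset TS SDN TIW NTA TIP

/-! ### 1. Windows -/

lemma wd_app {t : List Bool} {x y z : ℕ} (h1 : x ≤ y) (h2 : y ≤ z) : wd t x z = wd t x y ++ wd t y z := by
  unfold wd
  rcases Nat.le_total y t.length with h3 | h3
  · conv_lhs => rw [← List.take_append_drop y (t.take z)]
    rw [List.take_take, min_eq_left h2, List.drop_append_of_le_length]
    rw [List.length_take]
    omega
  · have e1 : t.take z = t := List.take_of_length_le (by omega)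
    have e2 : t.take y = t := List.take_of_length_le (by omega)
    rw [e1, e2, List.drop_eq_nil_of_le (by omega : t.length ≤ y), List.append_nil]

lemma wd_self (t : List Bool) (x : ℕ) : wd t x x = [] := by
  unfold wd
  refine List.drop_eq_nil_of_le ?_
  rw [List.length_take]
  omega

lemma wd_len {t : List Bool} {x y : ℕ} (h2 : y ≤ t.length) : (wd t x y).length = y - x := by
  unfold wd
  rw [List.length_drop, List.length_take]
  omega

lemma wd_drop (t : List Bool) (c x y : ℕ) : wd (t.drop c) x y = wd t (c + x) (c + y) := by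
  unfold wd
  rw [List.take_drop, List.drop_drop, add_comm c x]

/-- a factor of a window is a window -/
lemma wd_fac {t X Y Z : List Bool} {x y : ℕ} (h : wd t x y = X ++ (Y ++ Z)) (h1 : x ≤ y) (h2 : y ≤ t.length) :
    wd t x (x + X.length) = X ∧ wd t (x + X.length) (x + X.length + Y.length) = Y ∧
      wd t (x + X.length + Y.length) y = Z ∧ x + X.length + Y.length ≤ y := by
  have hl := congrArg List.length h
  rw [wd_len h2, List.length_append, List.length_append] at hl
  have e1 := wd_app (t := t) (x := x) (y := x + X.length) (z := y) (by omega) (by omega)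
  have e2 := wd_app (t := t) (x := x + X.length) (y := x + X.length + Y.length) (z := y) (by omega) (by omega)
  rw [h] at e1
  have f1 := List.append_inj e1 (by rw [wd_len (by omega)]; omega)
  rw [← f1.2] at e2
  have f2 := List.append_inj e2 (by rw [wd_len (by omega)]; omega)
  exact ⟨f1.1.symm, f2.1.symm, f2.2.symm, by omega⟩

variable {V : List Bool → ℝ} {m a b E : ℝ} {t : List Bool}

/-- bounds of a window with disjoint typical parts: T letters, value S; N errors E -/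
def Bd (V : List Bool → ℝ) (m a b E : ℝ) (t : List Bool) (x y : ℕ) (T S N : ℝ) : Prop :=
  m * V (wd t x y) ≤ b * ((y : ℝ) - x - T) + S + N * E ∧ a * ((y : ℝ) - x - T) + S - N * E ≤ m * V (wd t x y)

lemma bd_mono {x y : ℕ} {T S N N' : ℝ} (hE : 0 ≤ E) (h : Bd V m a b E t x y T S N) (hN : N ≤ N') :
    Bd V m a b E t x y T S N' := by
  have := mul_le_mul_of_nonneg_right hN hE
  exact ⟨by linarith [h.1], by linarith [h.2]⟩

/-- gluing -/
lemma bd_app (hV : Add1 V) (hm : 0 ≤ m) (hmE : m ≤ E) {x y z : ℕ} {T S N T' S' N' : ℝ} (h1 : x ≤ y) (h2 : y ≤ z)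
    (h : Bd V m a b E t x y T S N) (h' : Bd V m a b E t y z T' S' N') :
    Bd V m a b E t x z (T + T') (S + S') (N + N' + 1) := by
  have e := wd_app (t := t) h1 h2
  have k1 := mul_le_mul_of_nonneg_left (hV.le (wd t x y) (wd t y z)) hm
  have k2 := mul_le_mul_of_nonneg_left (hV.ge (wd t x y) (wd t y z)) hm
  rw [← e] at k1 k2
  rw [mul_add] at k1
  rw [mul_add, mul_add, mul_one] at k2
  obtain ⟨a1, a2⟩ := h
  obtain ⟨b1, b2⟩ := h'
  constructor
  · have : b * ((z : ℝ) - x - (T + T')) = b * ((y : ℝ) - x - T) + b * ((z : ℝ) - y - T') := by ring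
    have hE : 0 ≤ E := hm.trans hmE
    nlinarith
  · have : a * ((z : ℝ) - x - (T + T')) = a * ((y : ℝ) - x - T) + a * ((z : ℝ) - y - T') := by ring
    nlinarith

/-- the value of a small window -/
lemma val_sub (hV : Add1 V) {x y x' y' : ℕ} (h1 : x' ≤ x) (h2 : x ≤ y) (h3 : y ≤ y') : V (wd t x y) ≤ V (wd t x' y') + 2 := by
  have e1 := wd_app (t := t) (h1.trans h2) h3
  have e2 := wd_app (t := t) h1 h2
  have k1 := hV.ge (wd t x' y) (wd t y y')
  have k2 := hV.ge (wd t x' x) (wd t x y)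
  rw [← e1] at k1
  rw [← e2] at k2
  have := hV.pos (wd t y y')
  have := hV.pos (wd t x' x)
  linarith

/-- the value of a window -/
lemma val_win (hV : Add1 V) (hm : 0 ≤ m) (hb : 0 ≤ b) {n0 : ℕ} (hR : Rng V m a b n0 t) (ht : n0 ≤ t.length) {x y : ℕ}
    (h1 : x ≤ y) (h2 : y ≤ t.length) : m * V (wd t x y) ≤ b * ((y : ℝ) - x) + (b * n0 + 2 * m) := by
  have h1' : (x : ℝ) ≤ y := by exact_mod_cast h1
  have hn0 : (0 : ℝ) ≤ n0 := Nat.cast_nonneg n0
  by_cases h : (n0 : ℝ) ≤ (y : ℝ) - x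
  · have := (hR x y h1 h2 h).2
    have := mul_nonneg hb hn0
    linarith
  · push Not at h
    -- extend
    have h3 : y < n0 + x := by
      have : (y : ℝ) < n0 + x := by linarith
      exact_mod_cast this
    obtain ⟨x', y', g1, g2, g3, g4⟩ : ∃ x' y' : ℕ, x' ≤ x ∧ y ≤ y' ∧ y' ≤ t.length ∧ y' = x' + n0 := by
      rcases Nat.le_total (x + n0) t.length with h4 | h4
      · exact ⟨x, x + n0, le_rfl, by omega, h4, rfl⟩
      · exact ⟨t.length - n0, t.length, by omega, by omega, le_rfl, by omega⟩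
    have k1 := val_sub (t := t) hV g1 h1 g2
    have e : (n0 : ℝ) = (y' : ℝ) - x' := by
      rw [g4]
      push_cast
      ring
    have k2 := (hR x' y' (by omega) g3 e.le).2
    rw [← e] at k2
    have k3 := mul_le_mul_of_nonneg_left k1 hm
    have k4 : 0 ≤ b * ((y : ℝ) - x) := mul_nonneg hb (by linarith)
    linarith

/-- **any window** -/
lemma bd_win (hV : Add1 V) (hm : 0 ≤ m) (ha : 0 ≤ a) (hab : a ≤ b) {n0 : ℕ} (hR : Rng V m a b n0 t) (ht : n0 ≤ t.length)
    (hE : b * n0 + 2 * m ≤ E) {x y : ℕ} (h1 : x ≤ y) (h2 : y ≤ t.length) : Bd V m a b E t x y 0 0 1 := by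
  have h0 := val_win hV hm (ha.trans hab) hR ht h1 h2
  have h1' : (x : ℝ) ≤ y := by exact_mod_cast h1
  have hn0 : (0 : ℝ) ≤ n0 := Nat.cast_nonneg n0
  refine ⟨by linarith, ?_⟩
  by_cases h : (n0 : ℝ) ≤ (y : ℝ) - x
  · have h3 := (hR x y h1 h2 h).1
    have := mul_nonneg (ha.trans hab) hn0
    linarith
  · push Not at h
    have h3 : 0 ≤ m * V (wd t x y) := mul_nonneg hm (hV.pos _)
    have h4 : a * ((y : ℝ) - x) ≤ b * n0 := mul_le_mul hab h.le (by linarith) (ha.trans hab)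
    linarith

/-! ### 2. Typical leaves -/

/-- the data of a stage -/
structure Sg (V : List Bool → ℝ) (m a b E : ℝ) (t : List Bool) (n0 : ℕ) (T0 Lam : ℝ) : Prop where
  add : Add1 V
  m0 : 0 ≤ m
  a0 : 0 ≤ a
  ab : a ≤ b
  rng : Rng V m a b n0 t
  len : n0 ≤ t.length
  err : b * n0 + 2 * m ≤ E
  tr : E ≤ (Lam - b) * T0

variable {n0 : ℕ} {T0 Lam : ℝ}

lemma Sg.b0 (h : Sg V m a b E t n0 T0 Lam) : 0 ≤ b := h.a0.trans h.ab

lemma Sg.mE (h : Sg V m a b E t n0 T0 Lam) : m ≤ E := by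
  have := mul_nonneg h.b0 (Nat.cast_nonneg n0 : (0 : ℝ) ≤ n0)
  linarith [h.err, h.m0]

lemma Sg.E0 (h : Sg V m a b E t n0 T0 Lam) : 0 ≤ E := h.m0.trans h.mE

lemma Sg.win (h : Sg V m a b E t n0 T0 Lam) {x y : ℕ} (h1 : x ≤ y) (h2 : y ≤ t.length) : Bd V m a b E t x y 0 0 1 :=
  bd_win h.add h.m0 h.a0 h.ab h.rng h.len h.err h1 h2

lemma Sg.app (h : Sg V m a b E t n0 T0 Lam) {x y z : ℕ} {T S N T' S' N' : ℝ} (h1 : x ≤ y) (h2 : y ≤ z)
    (h3 : Bd V m a b E t x y T S N) (h4 : Bd V m a b E t y z T' S' N') :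
    Bd V m a b E t x z (T + T') (S + S') (N + N' + 1) :=
  bd_app h.add h.m0 h.mE h1 h2 h3 h4

open Classical in
/-- one group -/
lemma Sg.one (h : Sg V m a b E t n0 T0 Lam) {x y : ℕ} (h1 : x ≤ y) (h2 : y ≤ t.length) {g : List Bool} (hg : wd t x y = g) :
    Bd V m a b E t x y (if (g.length : ℝ) ≤ T0 then (g.length : ℝ) else 0)
      (if (g.length : ℝ) ≤ T0 then min (m * V g) (Lam * T0) else 0) 1 := by
  split_ifs with h3
  · have e : (g.length : ℝ) = (y : ℝ) - x := by
      rw [← hg, wd_len h2, Nat.cast_sub h1]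
    have h4 := val_win h.add h.m0 h.b0 h.rng h.len h1 h2
    rw [hg] at h4
    have h5 : m * V g ≤ Lam * T0 := by
      have h6 : b * ((y : ℝ) - x) ≤ b * T0 := by
        rw [← e]
        exact mul_le_mul_of_nonneg_left h3 h.b0
      have := h.err
      have := h.tr
      linarith
    have hE := h.E0
    rw [min_eq_left h5]
    unfold Bd
    rw [hg, ← e, sub_self, mul_zero, mul_zero]
    constructor <;> linarith
  · exact h.win h1 h2

open Classical in
/-- a list of groups -/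
lemma Sg.list (h : Sg V m a b E t n0 T0 Lam) (gs : List (List Bool)) : ∀ x : ℕ, x + gs.flatten.length ≤ t.length →
    wd t x (x + gs.flatten.length) = gs.flatten →
    Bd V m a b E t x (x + gs.flatten.length) (sT T0 gs) (sV T0 Lam (fun g => m * V g) gs) (2 * gs.length + 1) := by
  induction gs with
  | nil =>
    intro x h1 h2
    have h3 := h.win (x := x) (y := x) le_rfl (by simpa using h1)
    simpa [sT, sV] using h3
  | cons g gs ih =>
    intro x h1 h2
    rw [List.flatten_cons, List.length_append] at h1 h2 ⊢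
    have h3 := wd_fac (X := g) (Y := gs.flatten) (Z := []) (by rw [h2, List.append_nil]) (by omega) h1
    obtain ⟨e1, e2, -, -⟩ := h3
    have h4 := h.one (by omega) (by omega) e1
    have h5 := ih (x + g.length) (by omega) e2
    have h6 := h.app (by omega) (by omega) h4 h5
    rw [← add_assoc]
    refine bd_mono h.E0 ?_ (N := 1 + (2 * gs.length + 1) + 1) ?_
    · simpa [sT, sV] using h6
    · rw [List.length_cons]
      push_cast
      linarith

/-- **a typical middle** -/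
lemma Sg.mdl (h : Sg V m a b E t n0 T0 Lam) {R : ℕ} {M θ ε ms : ℝ} {x y : ℕ} (h1 : x ≤ y) (h2 : y ≤ t.length)
    (h3 : wd t x y ∈ TLf R M T0 Lam θ ε ms (fun g => m * V g)) :
    ∃ T S, Bd V m a b E t x y T S (2 * R + 5) ∧ θ * M ≤ T ∧ |S - ms * T| ≤ ε * T := by
  obtain ⟨X, gs, Y, e, hR, h4, h5⟩ := h3
  obtain ⟨e1, e2, e3, e4⟩ := wd_fac e h1 h2
  have k1 := h.win (x := x) (y := x + X.length) (by omega) (by omega)
  have k2 := h.list gs (x + X.length) (by omega) e2
  have k3 := h.win (x := x + X.length + gs.flatten.length) (y := y) e4 h2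
  have k4 := h.app (by omega) (by omega) (h.app (by omega) (by omega) k1 k2) k3
  refine ⟨_, _, bd_mono h.E0 k4 ?_, ?_, ?_⟩
  · rw [hR]
    linarith
  · rw [zero_add, add_zero]
    exact h4
  · rw [zero_add, add_zero, zero_add, add_zero]
    exact h5

/-! ### 3. Chains -/

/-- typical words as values of mid -/
lemma mid_eq (t : List Bool) (c L M : ℕ) :
    mid L M (t.drop c) = wd t (c + s1 L M (t.drop c)) (c + s2 L M (t.drop c)) := by
  rw [← wd_drop]
  rfl

/-- **a chain of blocks** -/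
lemma Sg.chain (h : Sg V m a b E t n0 T0 Lam) {κ : ℝ} {C b0 k L R : ℕ} {M θ ε ms : ℝ} {QQ : Set (List Bool)}
    (hQ : Mid L (ML L) \ TLf R M T0 Lam θ ε ms (fun g => m * V g) ⊆ QQ) : ∀ (J g c : ℕ),
    Ch κ C b0 k L QQ J g (t.drop c) → c + 3 * ML L * J ≤ t.length → ∃ c', c ≤ c' ∧ c' ≤ c + 3 * ML L * J ∧
      ∃ T S, Bd V m a b E t c c' T S (J * (2 * R + 10) + 1) ∧ g * (θ * M) ≤ T ∧ |S - ms * T| ≤ ε * T := by
  intro J
  induction J with
  | zero =>
    intro g c h1 h2
    have h3 : g = 0 := h1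
    subst h3
    refine ⟨c, le_rfl, by omega, 0, 0, ?_, by simp, by simp⟩
    have := h.win (x := c) (y := c) le_rfl (by omega)
    simpa using this
  | succ J ih =>
    intro g c h1 h2
    obtain ⟨j, hj, h3⟩ := h1
    have hM := ML_pos L
    obtain ⟨b1, b2, b3⟩ := nx_bds hj
    have b4 := s3_le (L := L) (t.drop c) hM
    have e3 : 3 * ML L * (J + 1) = 3 * ML L * J + 3 * ML L := by ring
    rw [e3] at h2
    rw [List.drop_drop] at h3
    have hjt : c + j ≤ t.length := by omega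
    rcases h3 with h3 | ⟨h3, g', rfl, h4⟩
    · obtain ⟨c', g1, g2, T, S, k1, k2, k3⟩ := ih g (c + j) h3 (by omega)
      refine ⟨c', by omega, by omega, T, S, ?_, k2, k3⟩
      have k4 := h.app (by omega) g1 (h.win (x := c) (y := c + j) (by omega) hjt) k1
      rw [zero_add, zero_add] at k4
      refine bd_mono h.E0 k4 ?_
      push_cast
      have : (0 : ℝ) ≤ R := Nat.cast_nonneg R
      linarith
    · obtain ⟨c', g1, g2, T, S, k1, k2, k3⟩ := ih g' (c + j) h4 (by omega)
      have h12 := s1_lt_s2 (L := L) (t.drop c) hM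
      have hs2 : s2 L (ML L) (t.drop c) ≤ (t.drop c).length := b1.trans b3
      have hs2' : c + s2 L (ML L) (t.drop c) ≤ t.length := by omega
      have h5 : mid L (ML L) (t.drop c) ∈ TLf R M T0 Lam θ ε ms (fun g => m * V g) := by
        by_contra h6
        exact h3 (hQ ⟨mid_Mid _ hM hs2, h6⟩)
      rw [mid_eq] at h5
      obtain ⟨T', S', l1, l2, l3⟩ := h.mdl (by omega) hs2' h5
      have q1 := h.win (x := c) (y := c + s1 L (ML L) (t.drop c)) (by omega) (by omega)
      have q2 := h.win (x := c + s2 L (ML L) (t.drop c)) (y := c + j) (by omega) hjt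
      have q3 := h.app (by omega) (by omega) (h.app (by omega) (by omega) (h.app (by omega) (by omega) q1 l1) q2) k1
      rw [zero_add, zero_add, add_zero, add_zero] at q3
      refine ⟨c', by omega, by omega, T' + T, S' + S, bd_mono h.E0 q3 ?_, ?_, ?_⟩
      · push_cast
        have : (0 : ℝ) ≤ R := Nat.cast_nonneg R
        linarith
      · push_cast
        linarith
      · have e : S' + S - ms * (T' + T) = (S' - ms * T') + (S - ms * T) := by ring
        rw [e, mul_add]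
        exact (abs_add_le _ _).trans (add_le_add l3 k3)

/-- **segments** -/
lemma Sg.segs (h : Sg V m a b E t n0 T0 Lam) {κ : ℝ} {C b0 k L R J : ℕ} {M θ ε ms : ℝ} (hθ : 0 ≤ θ * M)
    {QQ : Set (List Bool)}
    (hQ : Mid L (ML L) \ TLf R M T0 Lam θ ε ms (fun g => m * V g) ⊆ QQ)
    (hC : ∀ i, i * ML L + 3 * ML L * (J + 1) < t.length → ∃ g, J ≤ 2 * g ∧ Ch κ C b0 k L QQ J g (t.drop (i * ML L))) :
    ∀ q i : ℕ, i * ML L + q * ((3 * J + 4) * ML L) ≤ t.length →
      ∃ T S, Bd V m a b E t (i * ML L) (i * ML L + q * ((3 * J + 4) * ML L)) T S (q * (J * (2 * R + 10) + 4) + 1) ∧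
        q * (J * (θ * M)) ≤ 2 * T ∧ |S - ms * T| ≤ ε * T := by
  intro q
  have hM := ML_pos L
  induction q with
  | zero =>
    intro i h1
    refine ⟨0, 0, ?_, by simp, by simp⟩
    have := h.win (x := i * ML L) (y := i * ML L) le_rfl (by omega)
    simpa using this
  | succ q ih =>
    intro i h1
    have e1 : i * ML L + (q + 1) * ((3 * J + 4) * ML L) = (i + (3 * J + 4)) * ML L + q * ((3 * J + 4) * ML L) := by ring
    have e2 : (i + (3 * J + 4)) * ML L = i * ML L + (3 * ML L * J + 4 * ML L) := by ring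
    have e4 : 3 * ML L * (J + 1) = 3 * ML L * J + 3 * ML L := by ring
    rw [e1] at h1 ⊢
    obtain ⟨T, S, k1, k2, k3⟩ := ih (i + (3 * J + 4)) h1
    rw [e2] at h1 k1
    rw [e2]
    obtain ⟨g, hg, hch⟩ := hC i (by omega)
    obtain ⟨c', g1, g2, T', S', l1, l2, l3⟩ := h.chain hQ J g (i * ML L) hch (by omega)
    have q1 := h.win (x := c') (y := i * ML L + (3 * ML L * J + 4 * ML L)) (by omega) (by omega)
    have q2 := h.app (by omega) (by omega) (h.app g1 (by omega) l1 q1) k1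
    rw [add_zero, add_zero] at q2
    refine ⟨T' + T, S' + S, bd_mono h.E0 q2 ?_, ?_, ?_⟩
    · push_cast
      linarith
    · have h5 : (J : ℝ) ≤ 2 * g := by exact_mod_cast hg
      have h6 := mul_le_mul_of_nonneg_right h5 hθ
      push_cast
      linarith
    · have e : S' + S - ms * (T' + T) = (S' - ms * T') + (S - ms * T) := by ring
      rw [e, mul_add]
      exact (abs_add_le _ _).trans (add_le_add l3 k3)

/-- **a long window** -/
theorem Sg.long (h : Sg V m a b E t n0 T0 Lam) {κ : ℝ} {C b0 k L R J : ℕ} {M θ ε ms : ℝ} (hθ : 0 ≤ θ * M)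
    (hJ : 1 ≤ J) {QQ : Set (List Bool)}
    (hQ : Mid L (ML L) \ TLf R M T0 Lam θ ε ms (fun g => m * V g) ⊆ QQ)
    (hC : ∀ i, i * ML L + 3 * ML L * (J + 1) < t.length → ∃ g, J ≤ 2 * g ∧ Ch κ C b0 k L QQ J g (t.drop (i * ML L)))
    {x y : ℕ} (hy : y ≤ t.length) (hxy : x + 4 * ((3 * J + 4) * ML L) ≤ y) :
    ∃ T S, ∃ q : ℕ, Bd V m a b E t x y T S (q * (J * (2 * R + 19))) ∧ q * (J * (θ * M)) ≤ 2 * T ∧ |S - ms * T| ≤ ε * T ∧
      y ≤ x + 2 * q * ((3 * J + 4) * ML L) := by
  have hM := ML_pos L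
  obtain ⟨seg, hseg⟩ : ∃ seg, seg = (3 * J + 4) * ML L := ⟨_, rfl⟩
  have hsM : ML L ≤ seg := by
    rw [hseg]
    exact Nat.le_mul_of_pos_left _ (by omega)
  obtain ⟨i, hi⟩ : ∃ i, i = x / ML L + 1 := ⟨_, rfl⟩
  have hi1 : x < i * ML L := by
    rw [hi]
    exact (Nat.div_lt_iff_lt_mul (by omega)).1 (Nat.lt_succ_self _)
  have hi2 : i * ML L ≤ x + ML L := by
    rw [hi, add_mul, one_mul]
    have := Nat.div_mul_le_self x (ML L)
    omega
  obtain ⟨q, hq⟩ : ∃ q, q = (y - i * ML L) / seg := ⟨_, rfl⟩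
  have hq1 : q * seg ≤ y - i * ML L := by
    rw [hq]
    exact Nat.div_mul_le_self _ _
  have hq2 : y - i * ML L < (q + 1) * seg := by
    rw [hq]
    exact (Nat.div_lt_iff_lt_mul (by omega)).1 (Nat.lt_succ_self _)
  rw [← hseg] at hxy
  have hq3 : 1 ≤ q := by
    by_contra h0
    have : q = 0 := by omega
    rw [this] at hq2
    omega
  obtain ⟨T, S, k1, k2, k3⟩ := h.segs hθ hQ hC q i (by rw [← hseg]; omega)
  rw [← hseg] at k1
  have q1 := h.win (x := x) (y := i * ML L) hi1.le (by omega)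
  have q2 := h.win (x := i * ML L + q * seg) (y := y) (by omega) hy
  have q3 := h.app (by omega) (by omega) (h.app hi1.le (by omega) q1 k1) q2
  rw [zero_add, zero_add, add_zero, add_zero] at q3
  refine ⟨T, S, q, bd_mono h.E0 q3 ?_, k2, k3, ?_⟩
  · have h5 : (1 : ℝ) ≤ q := by exact_mod_cast hq3
    have h6 : (1 : ℝ) ≤ J := by exact_mod_cast hJ
    have h7 : (1 : ℝ) ≤ q * J := one_le_mul_of_one_le_of_one_le h5 h6
    have h8 : (q : ℝ) ≤ q * J := le_mul_of_one_le_right (by linarith) h6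
    have e : (q : ℝ) * (J * (2 * R + 19)) = q * J * (2 * R + 10) + 9 * (q * J) := by ring
    have e' : (1 : ℝ) + (q * (J * (2 * R + 10) + 4) + 1) + 1 + 1 + 1 = q * J * (2 * R + 10) + 4 * q + 5 := by ring
    rw [e, e']
    linarith
  · rw [← hseg]
    have e : 2 * q * seg = q * seg + q * seg := by ring
    have e' : (q + 1) * seg = q * seg + seg := by ring
    rw [e]
    rw [e'] at hq2
    have : seg ≤ q * seg := Nat.le_mul_of_pos_left _ hq3
    omega

/-! ### 4. The new range -/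

/-- numbers: the upper end -/
lemma num_up {D b ms ε I T S P s : ℝ} (h1 : D ≤ b * (I - T) + S + P) (h2 : |S - ms * T| ≤ ε * T) (hT : 0 ≤ T)
    (h3 : P ≤ s * T) (h4 : ms + ε + 2 * s ≤ b) : D ≤ b * I - s * T := by
  have h5 := (abs_le.1 h2).2
  have h6 := mul_le_mul_of_nonneg_right h4 hT
  nlinarith

/-- numbers: the lower end -/
lemma num_low {D a ms ε I T S P s : ℝ} (h1 : a * (I - T) + S - P ≤ D) (h2 : |S - ms * T| ≤ ε * T) (hT : 0 ≤ T)
    (h3 : P ≤ s * T) (h4 : a + ε + 2 * s ≤ ms) : a * I + s * T ≤ D := by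
  have h5 := (abs_le.1 h2).1
  have h6 := mul_le_mul_of_nonneg_right h4 hT
  nlinarith

/-- **S1: the new range** -/
theorem Sg.rng' (h : Sg V m a b E t n0 T0 Lam) {κ : ℝ} {C b0 k L R J : ℕ} {M θ ε ms s : ℝ} (hθ : 0 ≤ θ)
    (hM : 0 ≤ M) (hML : (ML L : ℝ) ≤ 2 * M) (hJ : 1 ≤ J) (hs : 0 ≤ s) {QQ : Set (List Bool)}
    (hQ : Mid L (ML L) \ TLf R M T0 Lam θ ε ms (fun g => m * V g) ⊆ QQ)
    (hC : ∀ i, i * ML L + 3 * ML L * (J + 1) < t.length → ∃ g, J ≤ 2 * g ∧ Ch κ C b0 k L QQ J g (t.drop (i * ML L)))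
    (hE : 2 * (2 * R + 19) * E ≤ s * (θ * M)) {a' b' : ℝ} (ha' : a' ≤ a + s * (θ / 56)) (hb' : b - s * (θ / 56) ≤ b')
    (hc : (a' ≤ a ∧ ms + ε + 2 * s ≤ b) ∨ (b ≤ b' ∧ a + ε + 2 * s ≤ ms)) {l : ℝ}
    (hn0 : (n0 : ℝ) ≤ l) (hl : ((4 * ((3 * J + 4) * ML L) : ℕ) : ℝ) ≤ l) : Rng V m a' b' l t := by
  intro x y h1 h2 h3
  have h4 : x + 4 * ((3 * J + 4) * ML L) ≤ y := by
    have : ((x + 4 * ((3 * J + 4) * ML L) : ℕ) : ℝ) ≤ y := by
      rw [Nat.cast_add]
      linarith
    exact_mod_cast this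
  obtain ⟨T, S, q, k1, k2, k3, k4⟩ := h.long (mul_nonneg hθ hM) hJ hQ hC h2 h4
  obtain ⟨r1, r2⟩ := h.rng x y h1 h2 (hn0.trans h3)
  have hI : (0 : ℝ) ≤ (y : ℝ) - x := by
    have : (x : ℝ) ≤ y := by exact_mod_cast h1
    linarith
  have hq0 : (0 : ℝ) ≤ q := Nat.cast_nonneg q
  have hJ0 : (1 : ℝ) ≤ J := by exact_mod_cast hJ
  have hqJ : 0 ≤ (q : ℝ) * J := mul_nonneg hq0 (by linarith)
  have hT : 0 ≤ T := by
    have : 0 ≤ (q : ℝ) * (J * (θ * M)) := by positivity
    linarith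
  -- errors
  have hP : q * (J * (2 * R + 19)) * E ≤ s * T := by
    have e1 : (q : ℝ) * (J * (2 * R + 19)) * E = (q * J) * (2 * (2 * R + 19) * E) / 2 := by ring
    have e2 := mul_le_mul_of_nonneg_left hE hqJ
    have e3 := mul_le_mul_of_nonneg_left k2 hs
    rw [e1]
    have e4 : (q : ℝ) * J * (s * (θ * M)) = s * (q * (J * (θ * M))) := by ring
    linarith
  -- the typical part
  have hTI : θ / 56 * ((y : ℝ) - x) ≤ T := by
    have e1 : ((y : ℕ) : ℝ) ≤ ((x + 2 * q * ((3 * J + 4) * ML L) : ℕ) : ℝ) := by exact_mod_cast k4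
    push_cast at e1
    have e2 : (3 * (J : ℝ) + 4) ≤ 7 * J := by linarith
    have e3 : (y : ℝ) - x ≤ 2 * q * (7 * J * (2 * M)) := by
      have e4 : (3 * (J : ℝ) + 4) * (ML L) ≤ 7 * J * (2 * M) :=
        mul_le_mul e2 hML (Nat.cast_nonneg _) (by linarith)
      have e5 := mul_le_mul_of_nonneg_left e4 (show (0 : ℝ) ≤ 2 * q by linarith)
      linarith
    have e6 := mul_le_mul_of_nonneg_left e3 (show (0 : ℝ) ≤ θ / 56 by positivity)
    have e7 : θ / 56 * (2 * q * (7 * J * (2 * M))) = q * (J * (θ * M)) / 2 := by ring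
    linarith
  have hsT := mul_le_mul_of_nonneg_left hTI hs
  have ea : a' * ((y : ℝ) - x) ≤ (a + s * (θ / 56)) * ((y : ℝ) - x) := mul_le_mul_of_nonneg_right ha' hI
  have eb : (b - s * (θ / 56)) * ((y : ℝ) - x) ≤ b' * ((y : ℝ) - x) := mul_le_mul_of_nonneg_right hb' hI
  rcases hc with ⟨c1, c2⟩ | ⟨c1, c2⟩
  · have f1 := num_up k1.1 k3 hT hP c2
    refine ⟨(mul_le_mul_of_nonneg_right c1 hI).trans r1, ?_⟩
    linarith
  · have f1 := num_low k1.2 k3 hT hP c2
    refine ⟨?_, r2.trans (mul_le_mul_of_nonneg_right c1 hI)⟩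
    linarith

end NPR

end HexObs
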