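import Pool.Agent.NPR.InitD
import Pool.Agent.NPR.Stage
import Pool.Agent.NPR.StageA

/-!
# NPR, row S0, lower half (helper41): a chain with many middles of large extent has a large value
-/

set_option autoImplicit false

namespace HexObs

namespace NPR

open Finset TS SDN TIW NTA TIP

open scoped ENNReal

section Low

variable {r : ℕ} {V : List Bool → ℝ}

/-- the value is monotone -/
lemma AF.mono_left (hV : AF r V) (u v : List Bool) : V v ≤ V (u ++ v) := by
  have h1 := hV.ge u v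
  have h2 := hV.one u
  linarith

lemma AF.mono_right (hV : AF r V) (u v : List Bool) : V u ≤ V (u ++ v) := by
  have h1 := hV.ge u v
  have h2 := hV.one v
  linarith

/-- the value of a middle that is not slow -/
lemma AF.two_mid (hV : AF r V) {L v : ℕ} (hr : 8 * r ≤ 2 ^ (L - v)) {Q : List Bool} (hQ : Q ∈ Mid L (ML L))
    (hS : Q ∉ SlowQ L v) : 2 ≤ V Q := by
  have hr' : (8 : ℤ) * r ≤ 2 ^ (L - v) := by exact_mod_cast hr
  have hL : (2 : ℤ) ^ (L - v) ≤ 2 ^ L := pow_le_pow_right₀ (by norm_num) (Nat.sub_le _ _)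
  refine hV.big Q ?_
  rcases hQ.2.2.2 with h | h
  · by_contra hcon
    push Not at hcon
    exact hS ⟨h, fun i hi => (hcon i hi).trans_le hr'⟩
  · exact ⟨Q.length, le_rfl, by linarith⟩

/-- **the value of a chain** -/
lemma AF.chain (hV : AF r V) {κ : ℝ} {C b0 k L v : ℕ} (hr : 8 * r ≤ 2 ^ (L - v)) {t : List Bool} : ∀ (J g c : ℕ),
    Ch κ C b0 k L (SlowQ L v) J g (t.drop c) → c + 3 * ML L * J ≤ t.length →
      ∃ c', c ≤ c' ∧ c' ≤ c + 3 * ML L * J ∧ (g : ℝ) + 1 ≤ V (wd t c c') := by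
  intro J
  induction J with
  | zero =>
    intro g c h1 h2
    have h3 : g = 0 := h1
    subst h3
    refine ⟨c, le_rfl, by omega, ?_⟩
    have := hV.one (wd t c c)
    simpa using this
  | succ J ih =>
    intro g c h1 h2
    obtain ⟨j, hj, h3⟩ := h1
    have hM := ML_pos L
    obtain ⟨b1, b2, b3⟩ := nx_bds hj
    have b4 := s3_le (L := L) (t.drop c) hM
    have e3 : 3 * ML L * (J + 1) = 3 * ML L * J + 3 * ML L := by ring
    rw [e3] at h2
    rw [List.drop_drop] at h3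
    have hjt : c + j ≤ t.length := by
      rw [List.length_drop] at b3
      omega
    rcases h3 with h3 | ⟨h3, g', rfl, h4⟩
    · obtain ⟨c', g1, g2, k1⟩ := ih g (c + j) h3 (by omega)
      refine ⟨c', by omega, by omega, k1.trans ?_⟩
      rw [wd_app (t := t) (show c ≤ c + j by omega) g1]
      exact hV.mono_left _ _
    · obtain ⟨c', g1, g2, k1⟩ := ih g' (c + j) h4 (by omega)
      have h12 := s1_lt_s2 (L := L) (t.drop c) hM
      have hs2 : s2 L (ML L) (t.drop c) ≤ (t.drop c).length := b1.trans b3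
      have h5 : 2 ≤ V (mid L (ML L) (t.drop c)) := hV.two_mid hr (mid_Mid _ hM hs2) h3
      rw [mid_eq] at h5
      have h6 : 2 ≤ V (wd t c (c + j)) := by
        rw [wd_app (t := t) (show c ≤ c + s1 L (ML L) (t.drop c) by omega) (show c + s1 L (ML L) (t.drop c) ≤ c + j by omega),
          wd_app (t := t) (show c + s1 L (ML L) (t.drop c) ≤ c + s2 L (ML L) (t.drop c) by omega)
            (show c + s2 L (ML L) (t.drop c) ≤ c + j by omega)]
        exact h5.trans ((hV.mono_right _ _).trans (hV.mono_left _ _))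
      refine ⟨c', by omega, by omega, ?_⟩
      rw [wd_app (t := t) (show c ≤ c + j by omega) g1]
      have h7 := hV.ge (wd t c (c + j)) (wd t (c + j) c')
      push_cast
      linarith

/-- **segments** -/
lemma AF.segs (hV : AF r V) {κ : ℝ} {C b0 k L v J : ℕ} (hr : 8 * r ≤ 2 ^ (L - v)) {t : List Bool}
    (hC : GoodC κ C b0 k L (SlowQ L v) J t) : ∀ q i : ℕ, i * ML L + q * ((3 * J + 4) * ML L) ≤ t.length →
      (q : ℝ) * (J / 2) + 1 ≤ V (wd t (i * ML L) (i * ML L + q * ((3 * J + 4) * ML L))) := by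
  intro q
  have hM := ML_pos L
  induction q with
  | zero =>
    intro i h1
    have := hV.one (wd t (i * ML L) (i * ML L + 0 * ((3 * J + 4) * ML L)))
    simpa using this
  | succ q ih =>
    intro i h1
    have e1 : i * ML L + (q + 1) * ((3 * J + 4) * ML L) = (i + (3 * J + 4)) * ML L + q * ((3 * J + 4) * ML L) := by ring
    have e2 : (i + (3 * J + 4)) * ML L = i * ML L + (3 * ML L * J + 4 * ML L) := by ring
    have e4 : 3 * ML L * (J + 1) = 3 * ML L * J + 3 * ML L := by ring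
    rw [e1] at h1 ⊢
    have k1 := ih (i + (3 * J + 4)) h1
    rw [e2] at h1 k1
    rw [e2]
    obtain ⟨g, hg, hch⟩ := hC i (by omega)
    obtain ⟨c', g1, g2, l1⟩ := hV.chain hr J g (i * ML L) hch (by omega)
    have h5 : (J : ℝ) ≤ 2 * g := by exact_mod_cast hg
    rw [wd_app (t := t) (show i * ML L ≤ i * ML L + (3 * ML L * J + 4 * ML L) by omega) (Nat.le_add_right _ _)]
    have h7 := hV.ge (wd t (i * ML L) (i * ML L + (3 * ML L * J + 4 * ML L)))
      (wd t (i * ML L + (3 * ML L * J + 4 * ML L)) (i * ML L + (3 * ML L * J + 4 * ML L) + q * ((3 * J + 4) * ML L)))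
    have h8 : V (wd t (i * ML L) c') ≤ V (wd t (i * ML L) (i * ML L + (3 * ML L * J + 4 * ML L))) := by
      rw [wd_app (t := t) g1 (show c' ≤ i * ML L + (3 * ML L * J + 4 * ML L) by omega)]
      exact hV.mono_right _ _
    push_cast
    linarith

/-- **the lower bound** -/
theorem low_of (hV : AF r V) {κ : ℝ} {C b0 k L v J : ℕ} (hr : 8 * r ≤ 2 ^ (L - v)) {t : List Bool}
    (hC : GoodC κ C b0 k L (SlowQ L v) J t) {x y : ℕ} (_hxy : x ≤ y) (hy : y ≤ t.length) :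
    (J : ℝ) / 2 * (((y : ℝ) - x) / (4 * ML L * (J + 1)) - 2) ≤ V (wd t x y) := by
  have hM := ML_pos L
  have hM0 : (1 : ℝ) ≤ ML L := by exact_mod_cast hM
  have hJ0 : (0 : ℝ) ≤ J := Nat.cast_nonneg J
  have h0 := hV.one (wd t x y)
  obtain ⟨seg, hseg⟩ : ∃ seg, seg = (3 * J + 4) * ML L := ⟨_, rfl⟩
  have hsM : ML L ≤ seg := by
    rw [hseg]
    exact Nat.le_mul_of_pos_left _ (by omega)
  have hsM' : (seg : ℝ) ≤ 4 * ML L * (J + 1) := by
    have e : (seg : ℝ) = (3 * J + 4) * ML L := by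
      rw [hseg]
      push_cast
      ring
    rw [e]
    nlinarith [mul_nonneg hJ0 (by linarith : (0 : ℝ) ≤ ML L)]
  obtain ⟨i, hi⟩ : ∃ i, i = x / ML L + 1 := ⟨_, rfl⟩
  have hi1 : x < i * ML L := by
    rw [hi]
    exact (Nat.div_lt_iff_lt_mul (by omega)).1 (Nat.lt_succ_self _)
  have hi2 : i * ML L ≤ x + ML L := by
    rw [hi, add_mul, one_mul]
    have := Nat.div_mul_le_self x (ML L)
    omega
  rcases Nat.lt_or_ge y (i * ML L) with hlt | hge
  · have h1 : ((y : ℝ) - x) / (4 * ML L * (J + 1)) - 2 ≤ 0 := by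
      rw [sub_nonpos, div_le_iff₀ (by positivity)]
      have h2 : (y : ℝ) ≤ x + ML L := by exact_mod_cast (hlt.le.trans hi2)
      have h3 : (ML L : ℝ) ≤ seg := by exact_mod_cast hsM
      linarith
    have h2 := mul_nonpos_of_nonneg_of_nonpos (show (0 : ℝ) ≤ J / 2 by positivity) h1
    linarith
  obtain ⟨q, hq⟩ : ∃ q, q = (y - i * ML L) / seg := ⟨_, rfl⟩
  have hq1 : q * seg ≤ y - i * ML L := by
    rw [hq]
    exact Nat.div_mul_le_self _ _
  have hq2 : y - i * ML L < (q + 1) * seg := by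
    rw [hq]
    exact (Nat.div_lt_iff_lt_mul (by omega)).1 (Nat.lt_succ_self _)
  have hq3 : y ≤ x + (q + 2) * seg := by
    have e : (q + 2) * seg = (q + 1) * seg + seg := by ring
    omega
  have k1 := hV.segs hr hC q i (by rw [← hseg]; omega)
  rw [← hseg] at k1
  have k2 : V (wd t (i * ML L) (i * ML L + q * seg)) ≤ V (wd t x y) := by
    rw [wd_app (t := t) (show x ≤ i * ML L by omega) hge,
      wd_app (t := t) (show i * ML L ≤ i * ML L + q * seg by omega) (show i * ML L + q * seg ≤ y by omega)]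
    exact (hV.mono_right _ _).trans (hV.mono_left _ _)
  have h1 : ((y : ℝ) - x) / (4 * ML L * (J + 1)) - 2 ≤ q := by
    rw [sub_le_iff_le_add, div_le_iff₀ (by positivity)]
    have h2 : (y : ℝ) ≤ x + (q + 2) * seg := by exact_mod_cast hq3
    have h3 := mul_le_mul_of_nonneg_left hsM' (show (0 : ℝ) ≤ (q : ℝ) + 2 by positivity)
    linarith
  have h2 := mul_le_mul_of_nonneg_left h1 (show (0 : ℝ) ≤ J / 2 by positivity)
  linarith

end Low

/-! ### The lower range -/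

/-- **S0, lower half** -/
def LowR : Prop := ∃ (a : ℝ) (d0 : ℕ), 0 < a ∧ ∀ d, d0 ≤ d → ∀ (r l : ℕ) (V : List Bool → ℝ), 2 ≤ r → AF r V → r ≤ 2 ^ l →
  2 ^ l ≤ 2 * r → ∀ K n : ℕ, nl d K l ≤ K → n ≤ ML (K + 2) →
  gf {t | t ∈ WL K ∧ t.length ≤ n ∧ ¬ ∀ x y : ℕ, x ≤ y → y ≤ t.length → (ML (nl d K l) : ℝ) ≤ (y : ℝ) - x →
    a * ((y : ℝ) - x) ≤ PW.mZ (2 ^ l) * V (wd t x y)} ≤ ENNReal.ofReal ((1 / 2) ^ (K - l + 1)) * FK K

theorem lowR (hS : SlowN) (hE : ∃ (κ : ℝ) (C b0 k : ℕ), 1 ≤ b0 ∧ ET κ C b0 k) : LowR := by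
  obtain ⟨κ, C, b0, k, -, δ, B, L0, hδ, hB, hET⟩ := hE
  obtain ⟨v, L1, hS⟩ := hS δ hδ
  obtain ⟨Cz, hCz, hup⟩ := exists_mz_up
  obtain ⟨d1, hd1⟩ : ∃ d1, d1 = v + 4 + L0 + L1 := ⟨_, rfl⟩
  obtain ⟨A, hA0, hA⟩ : ∃ A : ℕ, 1 ≤ A ∧ 384 * (2 * Cz) * B ≤ 4 ^ A := by
    obtain ⟨n, hn⟩ := pow_unbounded_of_one_lt (384 * (2 * Cz) * B) (show (1 : ℝ) < 4 by norm_num)
    exact ⟨n + 1, by omega, hn.le.trans (pow_le_pow_right₀ (by norm_num) (by omega))⟩
  obtain ⟨g3, hg3⟩ := exists_pow (128 * (A : ℝ))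
  obtain ⟨d2, hd2⟩ : ∃ d2, d2 = 16 + g3 := ⟨_, rfl⟩
  have hA2 := pow_lift hg3 (show g3 ≤ d2 by omega)
  refine ⟨1 / (64 * (Cz * 4 ^ d1)), d1 + d2, by positivity, fun d hd r l V _ hV hr hr2 K n hK hn => ?_⟩
  obtain ⟨L, hL⟩ : ∃ L, L = l + d1 := ⟨_, rfl⟩
  have hlg : 1 ≤ K - l + 1 := by omega
  have hLK : L + 16 ≤ K := by
    unfold nl at hK
    omega
  have hET2 := hET L (SlowQ L v) (by omega) (hS L (by omega))
  obtain ⟨J, hJ⟩ : ∃ J, J = A * (K - l + 1) := ⟨_, rfl⟩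
  have hJ1 : 1 ≤ J := by
    rw [hJ]
    exact Nat.mul_pos hA0 hlg
  have hr8 : 8 * r ≤ 2 ^ (L - v) := by
    have e : L - v = l + (4 + L0 + L1) := by omega
    have h1 : (2 : ℕ) ^ 3 ≤ 2 ^ (4 + L0 + L1) := Nat.pow_le_pow_right (by norm_num) (by omega)
    rw [e, pow_add]
    nlinarith
  obtain ⟨N0, hN0⟩ : ∃ N0, N0 = ML (K + 2) / ML L + 1 := ⟨_, rfl⟩
  have hML0 : (0 : ℝ) < ML L := by exact_mod_cast ML_pos L
  have hJ0 : (1 : ℝ) ≤ J := by exact_mod_cast hJ1
  -- the windows are long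
  have hlong : 16 * ((ML L : ℝ) * (J + 1)) ≤ ML (nl d K l) := by
    have k1 := ML_le2 L
    have k2 := ML_ge (nl d K l)
    have k3 := mz_low L (d - d1 + Nat.log 2 (K - l + 1))
    have e1 : L + (d - d1 + Nat.log 2 (K - l + 1)) = nl d K l := by
      unfold nl
      omega
    rw [e1, pow_add] at k3
    have k4 : ((K - l + 1 : ℕ) : ℝ) ≤ 2 * 2 ^ Nat.log 2 (K - l + 1) := by
      have := (Nat.lt_pow_succ_log_self (b := 2) (by norm_num) (K - l + 1)).le
      rw [pow_succ, mul_comm] at this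
      exact_mod_cast this
    have k5 : (2 : ℝ) ^ d2 ≤ 2 ^ (d - d1) := pow_le_pow_right₀ (by norm_num) (by omega)
    have hz := mz_pos L
    have k6 : 64 * (J : ℝ) ≤ 2 ^ (d - d1) * 2 ^ Nat.log 2 (K - l + 1) := by
      have e2 : (J : ℝ) = A * ((K - l + 1 : ℕ) : ℝ) := by
        rw [hJ]
        push_cast
        ring
      rw [e2]
      have q1 := mul_le_mul (hA2.trans k5) k4 (Nat.cast_nonneg _) (by positivity)
      linarith
    have k7 := mul_le_mul_of_nonneg_right k6 hz.le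
    have k8 : (ML L : ℝ) * (J + 1) ≤ (2 * PW.mZ (2 ^ L)) * (2 * J) :=
      mul_le_mul k1 (by linarith) (by positivity) (by positivity)
    linarith
  have hm : (ML L : ℝ) ≤ 2 * (Cz * 4 ^ d1 * PW.mZ (2 ^ l)) := by
    have k1 := ML_le2 L
    have k2 := hup l d1
    rw [← hL] at k2
    linarith
  have key : {t | t ∈ WL K ∧ t.length ≤ n ∧ ¬ ∀ x y : ℕ, x ≤ y → y ≤ t.length → (ML (nl d K l) : ℝ) ≤ (y : ℝ) - x →
      1 / (64 * (Cz * 4 ^ d1)) * ((y : ℝ) - x) ≤ PW.mZ (2 ^ l) * V (wd t x y)} ⊆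
      {t | ∃ i, i < N0 ∧ t ∈ {t | t ∈ WL K ∧
        i * ML L + 3 * ML L * (J + 1) < t.length ∧ ¬ ∃ g, J ≤ 2 * g ∧ Ch κ C b0 k L (SlowQ L v) J g (t.drop (i * ML L))}} := by
    rintro t ⟨h1, h2, h3⟩
    by_contra h5
    apply h3
    have hG : GoodC κ C b0 k L (SlowQ L v) J t := by
      intro i hi
      by_contra h7
      refine h5 ⟨i, ?_, h1, hi, h7⟩
      rw [hN0, Nat.lt_succ_iff, Nat.le_div_iff_mul_le (ML_pos L)]
      omega
    intro x y hx hy hxy
    have h6 := low_of hV hr8 hG hx hy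
    have h7 : ((y : ℝ) - x) / (2 * (4 * ML L * (J + 1))) ≤ ((y : ℝ) - x) / (4 * ML L * (J + 1)) - 2 := by
      have e : ((y : ℝ) - x) / (4 * ML L * (J + 1)) = 2 * (((y : ℝ) - x) / (2 * (4 * ML L * (J + 1)))) := by
        field_simp
      rw [e]
      have h8 : 2 ≤ ((y : ℝ) - x) / (2 * (4 * ML L * (J + 1))) := by
        rw [le_div_iff₀ (by positivity)]
        linarith
      linarith
    have h8 : ((y : ℝ) - x) / (32 * ML L) ≤ (J : ℝ) / 2 * (((y : ℝ) - x) / (2 * (4 * ML L * (J + 1)))) := by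
      have hyx : 0 ≤ (y : ℝ) - x := by
        have : (0 : ℝ) ≤ ML (nl d K l) := Nat.cast_nonneg _
        linarith
      rw [div_mul_div_comm, div_le_div_iff₀ (by positivity) (by positivity)]
      have h9 : (0 : ℝ) ≤ ((y : ℝ) - x) * ML L * (J - 1) := mul_nonneg (mul_nonneg hyx hML0.le) (by linarith)
      linarith
    have h9 := mul_le_mul_of_nonneg_left h7 (show (0 : ℝ) ≤ J / 2 by positivity)
    have h10 : ((y : ℝ) - x) / (32 * ML L) ≤ V (wd t x y) := by linarith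
    have hyx : 0 ≤ (y : ℝ) - x := by
      have : (0 : ℝ) ≤ ML (nl d K l) := Nat.cast_nonneg _
      linarith
    rw [div_le_iff₀ (by positivity)] at h10
    rw [one_div, inv_mul_le_iff₀ (by positivity)]
    have h11 := hV.pos (wd t x y)
    have h12 := mul_le_mul_of_nonneg_left hm (show 0 ≤ 32 * V (wd t x y) by positivity)
    linarith
  refine (gf_mono key).trans ?_
  refine (gf_range_le' N0 _ (fun i _ => hET2 K J (i * ML L) hLK)).trans ?_
  rw [← mul_assoc]
  refine mul_le_mul' ?_ le_rfl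
  rw [← ENNReal.ofReal_natCast, ← ENNReal.ofReal_mul (Nat.cast_nonneg _)]
  refine ENNReal.ofReal_le_ofReal ?_
  have k1 := num_starts hCz hup (K := K) (L := L) (by omega)
  rw [← hN0] at k1
  refine (mul_le_mul_of_nonneg_right k1 (by positivity)).trans ?_
  have k2 := num_mass (C := 2 * Cz) (B := B) (by linarith) hB hA (K := K) (L := L) (l := l) (by omega) (by omega)
  rw [hJ, pow_succ]
  linarith

end NPR

end HexObs
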