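import Pool.Agent.NPR.Defs
import Pool.Agent.TIW.Osc

/-!
# NPR, E1: the stopping times of a block, the label (helper14)
-/

set_option autoImplicit false

namespace HexObs

namespace NPR

open Finset TS SDN TIW NTA TIP

open scoped ENNReal

namespace St

/-! ### stopping times -/

section

variable {L M : ℕ}

/-- a step changes the distance by at most 2 -/
lemma hn_step (t : List Bool) (i : ℕ) : hn (vx oo up t (i + 1) - vx oo up t i) ≤ 2 := by
  have h1 : vx oo up t (i + 1) = vx oo up t i + dx up t i := rfl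
  rw [h1, add_sub_cancel_left]
  have h2 : dx up t i ∈ dirs := ds_mem upd' _
  revert h2
  generalize dx up t i = d
  intro h2
  revert d
  decide

lemma stp_mem (hM : 1 ≤ M) (u : List Bool) (c : ℕ) : c < stp L M u c ∧
    (stp L M u c = c + M ∨ (2 : ℤ) ^ L ≤ hn (vx oo up u (stp L M u c) - vx oo up u c)) :=
  Nat.sInf_mem (s := {s | c < s ∧ (s = c + M ∨ (2 : ℤ) ^ L ≤ hn (vx oo up u s - vx oo up u c))})
    ⟨c + M, by omega, Or.inl rfl⟩

lemma stp_le (hM : 1 ≤ M) (u : List Bool) (c : ℕ) : stp L M u c ≤ c + M :=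
  Nat.sInf_le ⟨by omega, Or.inl rfl⟩

lemma stp_le_of {u : List Bool} {c s : ℕ} (h1 : c < s)
    (h2 : s = c + M ∨ (2 : ℤ) ^ L ≤ hn (vx oo up u s - vx oo up u c)) : stp L M u c ≤ s := Nat.sInf_le ⟨h1, h2⟩

lemma stp_lt {u : List Bool} {c s : ℕ} (h1 : c < s) (h2 : s < stp L M u c) :
    hn (vx oo up u s - vx oo up u c) < 2 ^ L := by
  by_contra hcon
  exact Nat.notMem_of_lt_sInf h2 ⟨h1, Or.inr (not_lt.1 hcon)⟩

lemma stp_lt' {u : List Bool} {c s : ℕ} (h1 : c ≤ s) (h2 : s < stp L M u c) :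
    hn (vx oo up u s - vx oo up u c) < 2 ^ L := by
  rcases h1.eq_or_lt with rfl | h
  · rw [sub_self]
    have h0 : hn (0 : Pt) = 0 := by decide
    rw [h0]
    positivity
  · exact stp_lt h h2

/-- the distance before the end of a block is less than 2 ^ L + 2 -/
lemma stp_hn (hM : 1 ≤ M) {u : List Bool} {c s : ℕ} (h1 : c ≤ s) (h2 : s ≤ stp L M u c) :
    hn (vx oo up u s - vx oo up u c) < 2 ^ L + 2 := by
  rcases h2.eq_or_lt with rfl | h
  · have hc := (stp_mem (L := L) hM u c).1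
    obtain ⟨s', hs'⟩ : ∃ s', stp L M u c = s' + 1 := ⟨stp L M u c - 1, by omega⟩
    have h3 := stp_lt' (L := L) (M := M) (u := u) (c := c) (s := s') (by omega) (by omega)
    have h4 := hn_step u s'
    have h5 := hn_tri (vx oo up u (s' + 1)) (vx oo up u s') (vx oo up u c)
    rw [hs']
    linarith
  · have := stp_lt' h1 h
    linarith

end

lemma ML_pos (L : ℕ) : 1 ≤ ML L := by
  have h1 : 0 < PW.mZ (2 ^ L) := PW.mZ_pos Nat.one_le_two_pow
  exact Nat.one_le_iff_ne_zero.2 (Nat.ceil_pos.2 h1).ne'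

lemma le_ML (L : ℕ) : PW.mZ (2 ^ L) ≤ (ML L : ℝ) := Nat.le_ceil _

section

variable (L : ℕ) (u : List Bool)

lemma s1_pos : 0 < s1 L (ML L) u := (stp_mem (ML_pos L) u 0).1

lemma s1_le : s1 L (ML L) u ≤ ML L := by
  have := stp_le (L := L) (ML_pos L) u 0
  rwa [Nat.zero_add] at this

lemma s1_lt_s2 : s1 L (ML L) u < s2 L (ML L) u := (stp_mem (ML_pos L) u _).1

lemma s2_le : s2 L (ML L) u ≤ s1 L (ML L) u + ML L := stp_le (ML_pos L) u _

lemma s2_lt_s3 : s2 L (ML L) u < s3 L (ML L) u := (stp_mem (ML_pos L) u _).1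

lemma s3_le : s3 L (ML L) u ≤ s2 L (ML L) u + ML L := stp_le (ML_pos L) u _

lemma s3_le3 : s3 L (ML L) u ≤ 3 * ML L := by
  have h1 := s1_le L u
  have h2 := s2_le L u
  have h3 := s3_le L u
  omega

/-- the vertices of the block -/
lemma hn_s3 {i : ℕ} (hi : i ≤ s3 L (ML L) u) : hn (vx oo up u i) < 3 * (2 ^ L + 2) := by
  have z : ∀ p : Pt, p - oo = p := fun p => sub_zero p
  have e0 : vx oo up u 0 = oo := rfl
  have hp : (0 : ℤ) < 2 ^ L := by positivity
  have h1 := fun s => stp_hn (L := L) (ML_pos L) (u := u) (c := 0) (s := s) (Nat.zero_le _)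
  simp only [e0, z] at h1
  rcases Nat.le_total i (s1 L (ML L) u) with h | h
  · have := h1 i h
    linarith
  have h2 := h1 (s1 L (ML L) u) le_rfl
  have h3 := fun s => stp_hn (L := L) (ML_pos L) (u := u) (c := s1 L (ML L) u) (s := s)
  rcases Nat.le_total i (s2 L (ML L) u) with h' | h'
  · have h4 := h3 i h h'
    have h5 := hn_add (vx oo up u i - vx oo up u (s1 L (ML L) u)) (vx oo up u (s1 L (ML L) u))
    rw [sub_add_cancel] at h5
    linarith
  have h4 := h3 (s2 L (ML L) u) (s1_lt_s2 L u).le le_rfl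
  have h5 := stp_hn (L := L) (ML_pos L) (u := u) (c := s2 L (ML L) u) (s := i) h' hi
  have h6 := hn_add (vx oo up u i - vx oo up u (s2 L (ML L) u)) (vx oo up u (s2 L (ML L) u))
  rw [sub_add_cancel] at h6
  have h7 := hn_add (vx oo up u (s2 L (ML L) u) - vx oo up u (s1 L (ML L) u)) (vx oo up u (s1 L (ML L) u))
  rw [sub_add_cancel] at h7
  linarith

end

/-! ### words and windows -/

lemma vx_take {u : List Bool} {n i : ℕ} (h : i ≤ n) (hn' : n ≤ u.length) : vx oo up (u.take n) i = vx oo up u i := by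
  conv_rhs => rw [← List.take_append_drop n u]
  rw [vx_append]
  rw [List.length_take]
  omega

/-- displacements do not depend on the frame -/
lemma hn_drop (u : List Bool) {x : ℕ} (hx : x ≤ u.length) (i j : ℕ) :
    hn (vx oo up (u.drop x) i - vx oo up (u.drop x) j) = hn (vx oo up u (x + i) - vx oo up u (x + j)) := by
  have h : ∀ i, vx oo up u (x + i) = en (u.take x) + mulE (rt (u.take x)) (vx oo up (u.drop x) i) := by
    intro i
    have := vx_app (u.take x) (u.drop x) i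
    rwa [List.take_append_drop, List.length_take, Nat.min_eq_left hx] at this
  rw [h i, h j, add_sub_add_left_eq_sub]
  have e : mulE (rt (u.take x)) (vx oo up (u.drop x) i) - mulE (rt (u.take x)) (vx oo up (u.drop x) j) =
      mulE (rt (u.take x)) (vx oo up (u.drop x) i - vx oo up (u.drop x) j) := by
    generalize vx oo up (u.drop x) i = p
    generalize vx oo up (u.drop x) j = q
    generalize rt (u.take x) = c
    obtain ⟨c1, c2⟩ := c
    obtain ⟨p1, p2⟩ := p
    obtain ⟨q1, q2⟩ := q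
    simp only [mulE, Prod.mk_sub_mk, Prod.mk.injEq]
    constructor <;> ring
  rw [e, hn_mulE (nrm_rt _)]

/-- stopping times do not depend on the frame -/
lemma stp_drop {L M : ℕ} (hM : 1 ≤ M) (u : List Bool) {x : ℕ} (hx : x ≤ u.length) (c : ℕ) :
    stp L M u (x + c) = x + stp L M (u.drop x) c := by
  have h1 := stp_mem (L := L) hM (u.drop x) c
  have h2 := stp_mem (L := L) hM u (x + c)
  refine le_antisymm (stp_le_of (by omega) ?_) ?_
  · rcases h1.2 with h | h
    · exact Or.inl (by omega)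
    · rw [hn_drop u hx] at h
      exact Or.inr h
  · obtain ⟨s, hs⟩ : ∃ s, stp L M u (x + c) = x + s := ⟨stp L M u (x + c) - x, by omega⟩
    rw [hs] at h2 ⊢
    refine Nat.add_le_add_left (stp_le_of (by omega) ?_) _
    rcases h2.2 with h | h
    · exact Or.inl (by omega)
    · rw [← hn_drop u hx] at h
      exact Or.inr h

/-! ### norms -/

lemma hn_coord {p : Pt} {r : ℤ} (h1 : |p.1| ≤ r) (h2 : |p.2| ≤ r) : hn p ≤ 3 * r := by
  refine hn_le fun d hd => ?_
  rw [abs_le] at h1 h2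
  obtain ⟨x, y⟩ := p
  simp only at h1 h2
  simp only [dirs, mem_insert, mem_singleton] at hd
  rcases hd with rfl | rfl | rfl | rfl | rfl | rfl <;> simp only [ip] <;> omega

lemma coord_hn (p : Pt) : |p.1| ≤ hn p ∧ |p.2| ≤ hn p := by
  obtain ⟨x, y⟩ := p
  have h1 := ip_le_hn (x, y) (d := up) upd'
  have h2 := neg_hn_le_ip (x, y) (d := up) upd'
  have h3 := ip_le_hn (x, y) (d := ((1, 0) : Pt)) (by decide)
  have h4 := neg_hn_le_ip (x, y) (d := ((1, 0) : Pt)) (by decide)
  simp only [ip, up] at h1 h2 h3 h4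
  rw [abs_le, abs_le]
  simp only
  refine ⟨⟨?_, ?_⟩, ?_, ?_⟩ <;> omega

lemma row_le_hn (dir : Bool) {p : Pt} {r : ℤ} (h : hn p ≤ r) : |row dir p| ≤ r + 1 := by
  have h2 : |lvl dir p| ≤ hn p := OscA.ip_abs p (by cases dir <;> decide)
  have h0 := hn_nonneg p
  unfold row
  rw [abs_le] at *
  constructor <;> omega

/-! ### the label -/

section

variable {κ : ℝ} {C b0 k L : ℕ} {u : List Bool}

lemma lbl_bdd : BddAbove {b | b0 ≤ b ∧ b + k ≤ L ∧ win L (ML L) u ∉ Nz κ C b} :=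
  ⟨L, fun b hb => by
    have h : b + k ≤ L := hb.2.1
    omega⟩

lemma lbl_cases : lbl κ C b0 k L u = 0 ∨
    (b0 ≤ lbl κ C b0 k L u ∧ lbl κ C b0 k L u + k ≤ L ∧ win L (ML L) u ∉ Nz κ C (lbl κ C b0 k L u)) := by
  rcases Set.eq_empty_or_nonempty {b | b0 ≤ b ∧ b + k ≤ L ∧ win L (ML L) u ∉ Nz κ C b} with h | h
  · left
    unfold lbl
    rw [h]
    exact csSup_empty
  · right
    exact Nat.sSup_mem h lbl_bdd

lemma lbl_le (h : b0 + k ≤ L) : lbl κ C b0 k L u + k ≤ L := by
  rcases lbl_cases (κ := κ) (C := C) (b0 := b0) (k := k) (L := L) (u := u) with h1 | h1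
  · omega
  · exact h1.2.1

lemma Nz_of_lbl {b : ℕ} (h1 : b0 ≤ b) (h2 : b + k ≤ L) (h3 : lbl κ C b0 k L u < b) : win L (ML L) u ∈ Nz κ C b := by
  by_contra hcon
  exact absurd (le_csSup lbl_bdd (show b ∈ {b | b0 ≤ b ∧ b + k ≤ L ∧ win L (ML L) u ∉ Nz κ C b} from ⟨h1, h2, hcon⟩))
    (not_le.2 h3)

end

end St

end NPR

end HexObs
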