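import Pool.Agent.NPR.InitD
import Pool.Agent.NPR.Step0
import Pool.Agent.NPR.StageA
import Pool.Agent.TIP.RevM

/-!
# NPR, row S0, the upper half (helper16): windows are covered by few pieces of small diameter

* `Dm r u` : the vertices of `u` have distances at most `r`; `Cv r u N` : `u` is cut into at most `N` such pieces;
* `ch_up` : a chain of `J` blocks of the scale `L` is covered by `3 J` pieces, and it has at least `g mZ / lam` letters;
* **`up_cov`** : the windows of a good word.
-/

set_option autoImplicit false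

namespace HexObs

namespace NPR

open Finset TS SDN TIW NTA TIP

/-! ### 1. Pieces -/

/-- all the distances of the vertices are at most r -/
def Dm (r : ℕ) (u : List Bool) : Prop :=
  ∀ i j, i ≤ u.length → j ≤ u.length → hn (vx oo up u i - vx oo up u j) ≤ r

/-- cut into at most N pieces of diameter at most r -/
def Cv (r : ℕ) (u : List Bool) (N : ℕ) : Prop :=
  ∃ l : List (List Bool), l.length ≤ N ∧ l.flatten = u ∧ ∀ w ∈ l, Dm r w

lemma Dm_take {r : ℕ} {u : List Bool} (h : Dm r u) (a : ℕ) : Dm r (u.take a) := by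
  rcases Nat.le_total a u.length with ha | ha
  · intro i j hi hj
    rw [List.length_take, min_eq_left ha] at hi hj
    rw [St.vx_take hi ha, St.vx_take hj ha]
    exact h i j (hi.trans ha) (hj.trans ha)
  · rw [List.take_of_length_le ha]
    exact h

lemma Dm_drop {r : ℕ} {u : List Bool} (h : Dm r u) (a : ℕ) : Dm r (u.drop a) := by
  rcases Nat.le_total a u.length with ha | ha
  · intro i j hi hj
    rw [List.length_drop] at hi hj
    rw [St.hn_drop u ha]
    exact h _ _ (by omega) (by omega)
  · rw [List.drop_of_length_le ha]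
    intro i j hi hj
    have h1 : i = 0 := by simpa using hi
    have h2 : j = 0 := by simpa using hj
    rw [h1, h2, sub_self]
    have : hn (0 : Pt) = 0 := by decide
    rw [this]
    positivity

lemma Dm_nil (r : ℕ) : Dm r [] := by
  intro i j hi hj
  have h1 : i = 0 := by simpa using hi
  have h2 : j = 0 := by simpa using hj
  rw [h1, h2, sub_self]
  have : hn (0 : Pt) = 0 := by decide
  rw [this]
  positivity

lemma Dm.mono {r r' : ℕ} {u : List Bool} (h : Dm r u) (hr : r ≤ r') : Dm r' u := fun i j hi hj =>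
  (h i j hi hj).trans (by exact_mod_cast hr)

lemma Cv.mono {r : ℕ} {u : List Bool} {N N' : ℕ} (h : Cv r u N) (hN : N ≤ N') : Cv r u N' := by
  obtain ⟨l, h1, h2⟩ := h
  exact ⟨l, h1.trans hN, h2⟩

lemma Cv.app {r : ℕ} {u v : List Bool} {N M : ℕ} (h : Cv r u N) (h' : Cv r v M) : Cv r (u ++ v) (N + M) := by
  obtain ⟨l, h1, h2, h3⟩ := h
  obtain ⟨l', h1', h2', h3'⟩ := h'
  refine ⟨l ++ l', by rw [List.length_append]; omega, by rw [List.flatten_append, h2, h2'], fun w hw => ?_⟩
  rcases List.mem_append.1 hw with h | h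
  · exact h3 w h
  · exact h3' w h

lemma Cv_of_Dm {r : ℕ} {u : List Bool} (h : Dm r u) : Cv r u 1 :=
  ⟨[u], le_rfl, by simp, fun w hw => by rw [List.mem_singleton.1 hw]; exact h⟩

lemma Cv_nil (r : ℕ) : Cv r [] 0 := ⟨[], le_rfl, rfl, fun w hw => by simp at hw⟩

/-- the first part -/
lemma Cv.left {r : ℕ} {u v : List Bool} {N : ℕ} (h : Cv r (u ++ v) N) : Cv r u N := by
  obtain ⟨l, h1, h2, h3⟩ := h
  refine Cv.mono (N := l.length) ?_ h1
  clear h1
  induction l generalizing u with
  | nil =>
    have : u = [] := by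
      rw [List.flatten_nil] at h2
      exact (List.append_eq_nil_iff.1 h2.symm).1
    rw [this]
    exact Cv_nil r
  | cons w l ih =>
    rw [List.flatten_cons] at h2
    rcases List.append_eq_append_iff.1 h2 with ⟨a, h4, h5⟩ | ⟨a, h4, h5⟩
    · -- u = w ++ a
      have h6 := ih h5 fun w' hw' => h3 w' (List.mem_cons_of_mem _ hw')
      rw [h4, List.length_cons, add_comm]
      exact (Cv_of_Dm (h3 w List.mem_cons_self)).app h6
    · -- w = u ++ a
      have h6 : Dm r u := by
        have := Dm_take (h3 w List.mem_cons_self) u.length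
        rw [h4, List.take_left'] at this
        · exact this
        · rfl
      exact (Cv_of_Dm h6).mono (by rw [List.length_cons]; omega)

/-- reversal: the diameter grows by 2 -/
lemma Dm_rev {r : ℕ} {u : List Bool} (h : Dm r u) : Dm (r + 2) (rev u) := by
  obtain ⟨c, hc, hf⟩ := TIP.RevM.rev_frame u
  have hc' : nrm c = 1 := mem_dirs.1 hc
  have key : ∀ i j, i ≤ u.length + 1 → j ≤ u.length + 1 → hn (vx oo up (rev u) i - vx oo up (rev u) j) =
      hn (vx oo up u (u.length + 1 - i) - vx oo up u (u.length + 1 - j)) := by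
    intro i j hi hj
    rw [hf i hi, hf j hj, add_sub_add_left_eq_sub, ← mulE_sub, hn_mulE hc']
  have hstep : ∀ j, j ≤ u.length → hn (vx oo up u (u.length + 1) - vx oo up u j) ≤ (r : ℤ) + 2 := by
    intro j hj
    have e : vx oo up u (u.length + 1) - vx oo up u j =
        (vx oo up u (u.length + 1) - vx oo up u u.length) + (vx oo up u u.length - vx oo up u j) := by abel
    rw [e]
    refine (hn_add _ _).trans ?_
    have h1 := St.hn_step u u.length
    have h2 := h u.length j le_rfl hj
    linarith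
  have h0 : hn (0 : Pt) = 0 := by decide
  intro i j hi hj
  rw [rev_length] at hi hj
  rw [key i j (by omega) (by omega)]
  push_cast
  rcases Nat.eq_zero_or_pos i with rfl | hi0 <;> rcases Nat.eq_zero_or_pos j with rfl | hj0
  · rw [sub_self, h0]
    positivity
  · exact hstep _ (by omega)
  · rw [← neg_sub, hn_neg]
    exact hstep _ (by omega)
  · have := h (u.length + 1 - i) (u.length + 1 - j) (by omega) (by omega)
    linarith

lemma rev_append (u v : List Bool) : rev (u ++ v) = rev v ++ rev u := by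
  unfold rev
  rw [List.map_append, List.reverse_append]

lemma Cv.rev {r : ℕ} {u : List Bool} {N : ℕ} (h : Cv r u N) : Cv (r + 2) (rev u) N := by
  obtain ⟨l, h1, h2, h3⟩ := h
  refine Cv.mono (N := l.length) ?_ h1
  clear h1
  induction l generalizing u with
  | nil =>
    rw [← h2]
    exact Cv_nil _
  | cons w l ih =>
    rw [List.flatten_cons] at h2
    have h6 := ih (u := l.flatten) rfl fun w' hw' => h3 w' (List.mem_cons_of_mem _ hw')
    rw [← h2, rev_append, List.length_cons]
    exact h6.app (Cv_of_Dm (Dm_rev (h3 w List.mem_cons_self)))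

/-- the second part: through the reversal one loses 4; directly -/
lemma Cv.right {r : ℕ} {u v : List Bool} {N : ℕ} (h : Cv r (u ++ v) N) : Cv r v N := by
  obtain ⟨l, h1, h2, h3⟩ := h
  refine Cv.mono (N := l.length) ?_ h1
  clear h1
  induction l generalizing u with
  | nil =>
    have : v = [] := by
      rw [List.flatten_nil] at h2
      exact (List.append_eq_nil_iff.1 h2.symm).2
    rw [this]
    exact Cv_nil r
  | cons w l ih =>
    rw [List.flatten_cons] at h2
    rcases List.append_eq_append_iff.1 h2 with ⟨a, h4, h5⟩ | ⟨a, h4, h5⟩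
    · -- u = w ++ a, flatten l = a ++ v
      exact (ih h5 fun w' hw' => h3 w' (List.mem_cons_of_mem _ hw')).mono (by rw [List.length_cons]; omega)
    · -- w = u ++ a, v = a ++ flatten l
      have h6 : Dm r a := by
        have := Dm_drop (h3 w List.mem_cons_self) u.length
        rwa [h4, List.drop_left] at this
      rw [h5, List.length_cons, add_comm]
      exact (Cv_of_Dm h6).app ⟨l, le_rfl, rfl, fun w' hw' => h3 w' (List.mem_cons_of_mem _ hw')⟩

/-- the value -/
lemma V_of_Cv {r : ℕ} {V : List Bool → ℝ} (hV : AF r V) {u : List Bool} {N : ℕ} (h : Cv r u N) (hN : 1 ≤ N) : V u ≤ N := by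
  obtain ⟨l, h1, h2, h3⟩ := h
  rcases l with _ | ⟨w, l⟩
  · rw [← h2]
    have : V [] ≤ 1 := hV.small [] (Dm_nil r)
    have h4 : (1 : ℝ) ≤ N := by exact_mod_cast hN
    exact this.trans h4
  · have key : ∀ (l : List (List Bool)) (w : List Bool), (∀ w' ∈ w :: l, Dm r w') → V (w :: l).flatten ≤ (w :: l).length := by
      intro l
      induction l with
      | nil =>
        intro w hw
        have := hV.small w (hw w List.mem_cons_self)
        simpa using this
      | cons w' l ih =>
        intro w hw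
        have h4 := ih w' fun w'' hw'' => hw w'' (List.mem_cons_of_mem _ hw'')
        have h5 := hV.small w (hw w List.mem_cons_self)
        rw [List.flatten_cons]
        refine (hV.le _ _).trans ?_
        rw [List.length_cons]
        push_cast at h4 ⊢
        linarith
    rw [← h2]
    refine (key l w h3).trans ?_
    exact_mod_cast h1

/-! ### 2. Blocks and chains -/

lemma hn_wd {u : List Bool} {c e i j : ℕ} (hc : c ≤ e) (he : e ≤ u.length) (hi : i ≤ e - c) (hj : j ≤ e - c) :
    hn (vx oo up (wd u c e) i - vx oo up (wd u c e) j) = hn (vx oo up u (c + i) - vx oo up u (c + j)) := by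
  unfold wd
  rw [St.hn_drop (u.take e) (by rw [List.length_take]; omega), St.vx_take (by omega) he, St.vx_take (by omega) he]

lemma Dm_wd {u : List Bool} {c e ρ : ℕ} (hc : c ≤ e) (he : e ≤ u.length)
    (h : ∀ i, c ≤ i → i ≤ e → hn (vx oo up u i - vx oo up u c) ≤ ρ) : Dm (2 * ρ) (wd u c e) := by
  intro i j hi hj
  rw [wd_len he] at hi hj
  rw [hn_wd hc he hi hj]
  have e1 : vx oo up u (c + i) - vx oo up u (c + j) =
      (vx oo up u (c + i) - vx oo up u c) + -(vx oo up u (c + j) - vx oo up u c) := by abel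
  rw [e1]
  refine (hn_add _ _).trans ?_
  rw [hn_neg]
  have h1 := h (c + i) (by omega) (by omega)
  have h2 := h (c + j) (by omega) (by omega)
  push_cast
  linarith

lemma wd_zero (u : List Bool) (e : ℕ) : wd u 0 e = u.take e := by
  unfold wd
  rw [List.drop_zero]

open Classical in
lemma nx_mem {κ : ℝ} {C b0 k L : ℕ} {u : List Bool} {j : ℕ} (hj : j ∈ nx κ C b0 k L u) :
    s2 L (ML L) u ≤ j ∧ j ≤ s3 L (ML L) u := by
  unfold nx at hj
  rw [mem_filter] at hj
  obtain ⟨-, h⟩ := hj
  split_ifs at h with h0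
  · rw [h]
    exact ⟨(St.s2_lt_s3 L u).le, le_rfl⟩
  · obtain ⟨X, Z1, M, N, Z3, Y, -, h2, h3, h4, -⟩ := h
    rw [h3]
    simp only [List.length_append] at h4 ⊢
    constructor <;> omega

lemma block_up {κ : ℝ} {C b0 k L : ℕ} {u : List Bool} (hu : 3 * ML L ≤ u.length) {j : ℕ} (hj : j ∈ nx κ C b0 k L u) :
    Cv (2 * (2 ^ L + 1)) (u.take j) 3 := by
  obtain ⟨h2, h3⟩ := nx_mem hj
  have a1 := St.s1_le L u
  have a2 := (St.s1_lt_s2 L u).le
  have a3 := St.s3_le3 L u
  have hd : ∀ c i, c ≤ i → i ≤ stp L (ML L) u c → hn (vx oo up u i - vx oo up u c) ≤ ((2 ^ L + 1 : ℕ) : ℤ) := by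
    intro c i h1 h2
    have := St.stp_hn (L := L) (St.ML_pos L) (u := u) h1 h2
    push_cast
    omega
  have p1 : Dm (2 * (2 ^ L + 1)) (wd u 0 (s1 L (ML L) u)) :=
    Dm_wd (Nat.zero_le _) (by omega) fun i h1 h2 => hd 0 i h1 h2
  have p2 : Dm (2 * (2 ^ L + 1)) (wd u (s1 L (ML L) u) (s2 L (ML L) u)) :=
    Dm_wd a2 (by omega) fun i h1 h2 => hd _ i h1 h2
  have p3 : Dm (2 * (2 ^ L + 1)) (wd u (s2 L (ML L) u) j) :=
    Dm_wd h2 (by omega) fun i h1' h2' => hd _ i h1' (h2'.trans h3)
  rw [← wd_zero, wd_app (Nat.zero_le (s1 L (ML L) u)) (a2.trans h2), wd_app a2 h2]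
  have := (Cv_of_Dm p1).app ((Cv_of_Dm p2).app (Cv_of_Dm p3))
  exact this

lemma mid_wd0 (L M : ℕ) (u : List Bool) : mid L M u = wd u (s1 L M u) (s2 L M u) := rfl

/-- a middle that is not fast is long -/
lemma mid_long {L : ℕ} {lam : ℝ} (hl : 1 ≤ lam) {u : List Bool} (hu : 3 * ML L ≤ u.length)
    (h : mid L (ML L) u ∉ FastQ L lam) : PW.mZ (2 ^ L) / lam ≤ ((s2 L (ML L) u : ℕ) : ℝ) - s1 L (ML L) u := by
  have a1 := St.s1_le L u
  have a2 := (St.s1_lt_s2 L u).le
  have a3 := St.s2_le L u
  have a4 := St.s3_le3 L u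
  have a5 := St.s2_lt_s3 L u
  have hlen : (mid L (ML L) u).length = s2 L (ML L) u - s1 L (ML L) u := by
    rw [mid_wd0, wd_len (by omega)]
  have hm := mz_pos L
  have hlen' : ((mid L (ML L) u).length : ℝ) = ((s2 L (ML L) u : ℕ) : ℝ) - s1 L (ML L) u := by
    rw [hlen, Nat.cast_sub a2]
  rcases (St.stp_mem (L := L) (St.ML_pos L) u (s1 L (ML L) u)).2 with h1 | h1
  · have h2 : s2 L (ML L) u = s1 L (ML L) u + ML L := h1
    rw [h2]
    push_cast
    have h3 := ML_ge L
    have h4 : PW.mZ (2 ^ L) / lam ≤ PW.mZ (2 ^ L) := div_le_self hm.le hl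
    linarith
  · by_contra hcon
    push Not at hcon
    refine h ⟨by rw [hlen']; exact hcon.le, ?_⟩
    have e0 : vx oo up (mid L (ML L) u) 0 = 0 := rfl
    have h2 := hn_wd (u := u) (c := s1 L (ML L) u) (e := s2 L (ML L) u) (i := s2 L (ML L) u - s1 L (ML L) u) (j := 0) a2
      (by omega) le_rfl (by omega)
    rw [← mid_wd0, e0, sub_zero, Nat.add_zero, Nat.add_sub_cancel' a2] at h2
    rw [hlen, h2]
    exact h1

/-- **a chain is covered by few pieces and long** -/
theorem ch_up {κ : ℝ} {C b0 k L : ℕ} {lam : ℝ} (hl : 1 ≤ lam) : ∀ (J g : ℕ) (u : List Bool),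
    Ch κ C b0 k L (FastQ L lam) J g u → 3 * ML L * J ≤ u.length →
    ∃ e, e ≤ 3 * ML L * J ∧ e ≤ u.length ∧ Cv (2 * (2 ^ L + 1)) (u.take e) (3 * J) ∧
      (g : ℝ) * (PW.mZ (2 ^ L) / lam) ≤ e := by
  intro J
  induction J with
  | zero =>
    intro g u h _
    have hg : g = 0 := h
    refine ⟨0, by simp, Nat.zero_le _, ?_, ?_⟩
    · rw [List.take_zero]
      exact Cv_nil _
    · rw [hg]
      simp
  | succ J ih =>
    intro g u h hu
    obtain ⟨j, hj, h⟩ := h
    have hu1 : 3 * ML L * (J + 1) = 3 * ML L * J + 3 * ML L := by ring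
    have hu3 : 3 * ML L ≤ u.length := by omega
    obtain ⟨h2, h3⟩ := nx_mem hj
    have a4 := St.s3_le3 L u
    have hm : 0 ≤ PW.mZ (2 ^ L) / lam := div_nonneg (mz_pos L).le (by linarith)
    have key : ∃ g', Ch κ C b0 k L (FastQ L lam) J g' (u.drop j) ∧
        (g : ℝ) * (PW.mZ (2 ^ L) / lam) ≤ g' * (PW.mZ (2 ^ L) / lam) + j := by
      rcases h with h | ⟨h4, g', h5, h6⟩
      · exact ⟨g, h, by linarith [(Nat.cast_nonneg j : (0 : ℝ) ≤ j)]⟩
      · refine ⟨g', h6, ?_⟩
        have h7 := mid_long hl hu3 h4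
        have h8 : (0 : ℝ) ≤ ((s1 L (ML L) u : ℕ) : ℝ) := Nat.cast_nonneg _
        have h9 : ((s2 L (ML L) u : ℕ) : ℝ) ≤ j := by exact_mod_cast h2
        rw [h5]
        push_cast
        linarith
    obtain ⟨g', h4, h5⟩ := key
    obtain ⟨e, e1, e2, e3, e4⟩ := ih g' (u.drop j) h4 (by rw [List.length_drop]; omega)
    rw [List.length_drop] at e2
    refine ⟨j + e, by omega, by omega, ?_, ?_⟩
    · rw [List.take_add]
      have := (block_up hu3 hj).app e3
      exact this.mono (by omega)
    · push_cast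
      linarith

/-! ### 3. Windows -/

/-- a part of a window -/
lemma Cv_sub {r : ℕ} {t : List Bool} {a b x y N : ℕ} (h : Cv r (wd t a b) N) (h1 : a ≤ x) (h2 : x ≤ y) (h3 : y ≤ b) :
    Cv r (wd t x y) N := by
  rw [wd_app (h1.trans h2) h3] at h
  have h4 := h.left
  rw [wd_app h1 h2] at h4
  exact h4.right

/-- **far from the end** -/
theorem cov_left {κ : ℝ} {C b0 k L J h : ℕ} {lam : ℝ} (hl : 1 ≤ lam) {t : List Bool}
    (hG : GoodC κ C b0 k L (FastQ L lam) J t) (hh : ((h : ℝ) + ML L) ≤ J / 2 * (PW.mZ (2 ^ L) / lam)) : ∀ (n x y : ℕ),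
    x ≤ y → y - x ≤ n * h → y + 3 * ML L * (J + 1) < t.length → Cv (2 * (2 ^ L + 1)) (wd t x y) (3 * J * (n + 1)) := by
  have hm : 0 ≤ PW.mZ (2 ^ L) / lam := div_nonneg (mz_pos L).le (by linarith)
  intro n
  induction n with
  | zero =>
    intro x y hxy hn _
    have : x = y := by omega
    rw [this, wd_self]
    exact (Cv_nil _).mono (Nat.zero_le _)
  | succ n ih =>
    intro x y hxy hn hy
    obtain ⟨i, hi⟩ : ∃ i, i = x / ML L := ⟨_, rfl⟩
    have hM := St.ML_pos L
    have hs1 : i * ML L ≤ x := by rw [hi]; exact Nat.div_mul_le_self _ _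
    have hs2 : x < i * ML L + ML L := by
      rw [hi]
      have := Nat.lt_div_mul_add hM (a := x)
      exact this
    obtain ⟨g, hg1, hg2⟩ := hG i (by omega)
    obtain ⟨e, e1, e2, e3, e4⟩ := ch_up hl J g (t.drop (i * ML L)) hg2 (by
      rw [List.length_drop]
      have : 3 * ML L * (J + 1) = 3 * ML L * J + 3 * ML L := by ring
      omega)
    rw [List.length_drop] at e2
    have e5 : Cv (2 * (2 ^ L + 1)) (wd t (i * ML L) (i * ML L + e)) (3 * J) := by
      have : (t.drop (i * ML L)).take e = wd t (i * ML L) (i * ML L + e) := by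
        unfold wd
        rw [List.drop_take, Nat.add_sub_cancel_left]
      rw [← this]
      exact e3
    have e6 : h + ML L ≤ e := by
      have h1 : (J : ℝ) / 2 ≤ g := by
        have : (J : ℝ) ≤ 2 * g := by exact_mod_cast hg1
        linarith
      have h2 := mul_le_mul_of_nonneg_right h1 hm
      have h3 : ((h : ℝ) + ML L) ≤ e := by linarith
      exact_mod_cast h3
    rcases Nat.le_total y (i * ML L + e) with hye | hye
    · exact (Cv_sub e5 hs1 hxy hye).mono (by
        have : 3 * J * (n + 1 + 1) = 3 * J + 3 * J * (n + 1) := by ring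
        omega)
    · have hx' : x + h ≤ i * ML L + e := by omega
      have c1 := Cv_sub e5 hs1 (Nat.le_add_right x h) hx'
      have c2 := ih (x + h) y (hx'.trans hye) (by
        have : (n + 1) * h = n * h + h := by ring
        omega) hy
      have c3 := c1.app c2
      rw [← wd_app (Nat.le_add_right x h) (hx'.trans hye)] at c3
      exact c3.mono (by
        have : 3 * J * (n + 1 + 1) = 3 * J + 3 * J * (n + 1) := by ring
        omega)

lemma rev_take (t : List Bool) {y : ℕ} (hy : y ≤ t.length) : rev (t.take y) = (rev t).drop (t.length - y) := by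
  have h := congrArg rev (List.take_append_drop y t)
  rw [rev_append] at h
  rw [← h, List.drop_left']
  rw [rev_length, List.length_drop]

lemma rev_drop (t : List Bool) {x : ℕ} (hx : x ≤ t.length) : rev (t.drop x) = (rev t).take (t.length - x) := by
  have h := congrArg rev (List.take_append_drop x t)
  rw [rev_append] at h
  rw [← h, List.take_left']
  rw [rev_length, List.length_drop]

lemma rev_wd (t : List Bool) {x y : ℕ} (hxy : x ≤ y) (hy : y ≤ t.length) :
    rev (wd t x y) = wd (rev t) (t.length - y) (t.length - x) := by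
  unfold wd
  rw [rev_drop _ (by rw [List.length_take]; omega), rev_take _ hy, List.length_take, min_eq_left hy, List.drop_take]
  congr 1
  omega

lemma Dm_one (b : Bool) : Dm 2 [b] := by
  have h0 : hn (0 : Pt) = 0 := by decide
  have h1 := St.hn_step [b] 0
  intro i j hi hj
  simp only [List.length_singleton] at hi hj
  rcases Nat.lt_or_ge i 1 with hi1 | hi1 <;> rcases Nat.lt_or_ge j 1 with hj1 | hj1
  · have : i = j := by omega
    rw [this, sub_self, h0]
    norm_num
  · have e1 : i = 0 := by omega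
    have e2 : j = 1 := by omega
    rw [e1, e2, ← neg_sub, hn_neg]
    exact_mod_cast h1
  · have e1 : i = 1 := by omega
    have e2 : j = 0 := by omega
    rw [e1, e2]
    exact_mod_cast h1
  · have : i = j := by omega
    rw [this, sub_self, h0]
    norm_num

/-- **the windows of a good word are covered by few pieces** -/
theorem up_cov {κ : ℝ} {C b0 k L J h : ℕ} {lam : ℝ} (hl : 1 ≤ lam) {t : List Bool}
    (hG : GoodC κ C b0 k L (FastQ L lam) J t) (hG' : GoodC κ C b0 k L (FastQ L lam) J ((rev t).drop 1))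
    (hh : ((h : ℝ) + ML L) ≤ J / 2 * (PW.mZ (2 ^ L) / lam)) (ht : 6 * ML L * (J + 1) + 2 ≤ t.length) {n x y : ℕ}
    (hxy : x ≤ y) (hy : y ≤ t.length) (hn : y - x ≤ n * h) :
    Cv (2 * (2 ^ L + 1) + 2) (wd t x y) (6 * J * (n + 1) + 1) := by
  obtain ⟨p, hp⟩ : ∃ p, p = t.length / 2 := ⟨_, rfl⟩
  have hp1 : 3 * ML L * (J + 1) + 1 ≤ p := by
    have : 6 * ML L * (J + 1) = 2 * (3 * ML L * (J + 1)) := by ring
    omega
  have hp2 : p + 3 * ML L * (J + 1) < t.length := by
    have : 6 * ML L * (J + 1) = 2 * (3 * ML L * (J + 1)) := by ring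
    omega
  -- left part
  have left : ∀ x y, x ≤ y → y ≤ p → y - x ≤ n * h → Cv (2 * (2 ^ L + 1) + 2) (wd t x y) (3 * J * (n + 1)) := by
    intro x y h1 h2 h3
    obtain ⟨l, l1, l2, l3⟩ := cov_left hl hG hh n x y h1 h3 (by omega)
    exact ⟨l, l1, l2, fun w hw => (l3 w hw).mono (by omega)⟩
  -- right part
  have right : ∀ x y, x ≤ y → p ≤ x → y ≤ t.length → y - x ≤ n * h →
      Cv (2 * (2 ^ L + 1) + 2) (wd t x y) (3 * J * (n + 1) + 1) := by
    intro x y h1 h2 h3 h4
    have e0 : wd t x y = rev (wd (rev t) (t.length - y) (t.length - x)) := by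
      rw [← rev_wd t h1 h3, rev_rev]
    rw [e0]
    refine Cv.rev ?_
    obtain ⟨t', ht'⟩ : ∃ t', t' = (rev t).drop 1 := ⟨_, rfl⟩
    rw [← ht'] at hG'
    have hl' : t'.length = t.length - 1 := by
      rw [ht', List.length_drop, rev_length]
    -- the window of t'
    have win : ∀ a b, 1 ≤ a → a ≤ b → wd (rev t) a b = wd t' (a - 1) (b - 1) := by
      intro a b ha hab
      rw [ht', wd_drop, show 1 + (a - 1) = a by omega, show 1 + (b - 1) = b by omega]
    rcases Nat.eq_or_lt_of_le h3 with h5 | h5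
    · rcases Nat.eq_or_lt_of_le h1 with h6 | h6
      · rw [h6, wd_self]
        exact (Cv_nil _).mono (Nat.zero_le _)
      · rw [h5, Nat.sub_self, wd_app (Nat.zero_le 1) (show 1 ≤ t.length - x by omega), win 1 _ le_rfl (by omega)]
        have c2 := cov_left hl hG' hh n (1 - 1) (t.length - x - 1) (by omega) (by omega) (by rw [hl']; omega)
        have h7 : (wd (rev t) 0 1).length = 1 := by
          rw [wd_len (by rw [rev_length]; omega)]
        obtain ⟨b, hb⟩ := List.length_eq_one_iff.1 h7
        have c1 : Cv (2 * (2 ^ L + 1)) (wd (rev t) 0 1) 1 := by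
          rw [hb]
          have h8 : 2 ≤ 2 * (2 ^ L + 1) := by
            have := Nat.one_le_two_pow (n := L)
            omega
          exact Cv_of_Dm ((Dm_one b).mono h8)
        exact (c1.app c2).mono (by omega)
    · rw [win _ _ (by omega) (by omega)]
      have c3 := cov_left hl hG' hh n (t.length - y - 1) (t.length - x - 1) (by omega) (by omega) (by rw [hl']; omega)
      exact c3.mono (by omega)
  have e6 : 6 * J * (n + 1) = 3 * J * (n + 1) + 3 * J * (n + 1) := by ring
  rcases Nat.le_total y p with h1 | h1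
  · exact (left x y hxy h1 hn).mono (by omega)
  rcases Nat.le_total p x with h2 | h2
  · exact (right x y hxy h2 hy hn).mono (by omega)
  · rw [wd_app h2 h1]
    exact ((left x p h2 le_rfl (by omega)).app (right p y h1 le_rfl hy (by omega))).mono (by omega)

end NPR

end HexObs
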