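import Pool.Agent.NPR.KapL

/-!
# NPR (helper66): the trace of a good curve determines the curve, also for different gauges

`goodH_ratio`: the ratio form; **`goodH_eq2`**: `GoodH h γ`, `GoodH h' γ'`, same image: `γ = γ'`.
-/

set_option autoImplicit false

open Set Filter Topology MeasureTheory

namespace Pool.Agent.NPR

open Pool.Agent.NTS.Res

theorem goodH_ratio {h : ℝ → ℝ} {γ : C(unitInterval, ℂ)} (g : GoodH h γ) (u : unitInterval) :
    Tendsto (fun r => vb r γ u / vb r γ 1) (𝓝[>] 0) (𝓝 (u : ℝ)) := by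
  have e1 := g.2.2 u
  have e2 := g.2.2 1
  have h1 : ((1 : unitInterval) : ℝ) ≠ 0 := one_ne_zero
  have e3 := e1.div e2 h1
  have e4 : (u : ℝ) / ((1 : unitInterval) : ℝ) = u := div_one _
  rw [e4] at e3
  refine e3.congr' ?_
  have e5 : ∀ᶠ r in 𝓝[>] (0 : ℝ), h r * vb r γ 1 / r ≠ 0 := e2.eventually_ne h1
  filter_upwards [e5] with r hr
  simp only [Pi.div_apply]
  have hr0 : r ≠ 0 := by
    rintro rfl
    exact hr (div_zero _)
  have hh : h r ≠ 0 := by
    intro h0
    exact hr (by rw [h0, zero_mul, zero_div])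
  have hv : vb r γ 1 ≠ 0 := by
    intro h0
    exact hr (by rw [h0, mul_zero, zero_div])
  field_simp

/-- **the trace of a good curve determines the curve** -/
theorem goodH_eq2 {h h' : ℝ → ℝ} {γ γ' : C(unitInterval, ℂ)} (g : GoodH h γ) (g' : GoodH h' γ') (ht : range γ = range γ') :
    γ = γ' := by
  have ht' : tr γ = tr γ' := by
    ext z
    show z ∈ range γ ↔ z ∈ range γ'
    rw [ht]
  obtain ⟨φ, hφ⟩ := same_trace g.1 g'.1 (g.2.1.trans g'.2.1.symm) ht'
  ext t
  have e1 := goodH_ratio g t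
  have e2 := goodH_ratio g' (φ t)
  have e3 : (fun r => vb r γ t / vb r γ 1) = fun r => vb r γ' (φ t) / vb r γ' 1 := by
    funext r
    rw [vb_comp r γ γ' φ hφ t, vb_comp r γ γ' φ hφ 1]
    have : φ 1 = 1 := φ.map_top
    rw [this]
  rw [e3] at e1
  have e4 : (t : ℝ) = (φ t : ℝ) := tendsto_nhds_unique e1 e2
  have e5 : t = φ t := Subtype.ext e4
  rw [hφ t, ← e5]

end Pool.Agent.NPR
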