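import Pool.Agent.NPR.KapAll

/-!
# The scaling limits of the hexagonal self-avoiding walk and their images, without hypothesis (helper5)

`trace_pub0` : the critical ratios converge if and only if the laws converge and the numbers of walks vary regularly.
-/

set_option autoImplicit false

open Set Filter Topology MeasureTheory
open scoped ENNReal

namespace Pool.Agent.NPR

open Pool.Agent.NTS.Res
open Pool.Agent.CRT

theorem trace_pub0 :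
    (∀ φ : ℕ → ℕ, StrictMono φ → ∃ ψ : ℕ → ℕ, StrictMono ψ ∧ ∃ ν : Measure C(unitInterval, ℂ),
      IsProbabilityMeasure ν ∧ LawTo (fun k => φ (ψ k)) ν) ∧
    (∃ c C : ℝ, 0 < c ∧ 0 < C ∧ ∀ (φ : ℕ → ℕ) (ν : Measure C(unitInterval, ℂ)), Tendsto φ atTop atTop →
      IsProbabilityMeasure ν → LawTo φ ν → ∃ h : ℝ → ℝ,
        (∀ r : ℝ, 0 < r → c * r ^ (4 / 3 : ℝ) ≤ h r ∧ h r ≤ C * r ^ (4 / 3 : ℝ)) ∧ ∀ᵐ γ : C(unitInterval, ℂ) ∂ν, GoodH h γ) ∧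
    (∀ (h h' : ℝ → ℝ) (γ γ' : C(unitInterval, ℂ)), GoodH h γ → GoodH h' γ' → Set.range γ = Set.range γ' → γ = γ') ∧
    List.TFAE [
      ∃ ν : Measure C(unitInterval, ℂ), IsProbabilityMeasure ν ∧ LawTo (fun n => n) ν,
      ∃ μ : Measure (TopologicalSpace.NonemptyCompacts ℂ), IsProbabilityMeasure μ ∧
        ∀ f : BoundedContinuousFunction (TopologicalSpace.NonemptyCompacts ℂ) ℝ,
          Tendsto (fun n => ∫ γ, f (tr γ) ∂(law n)) atTop (𝓝 (∫ K, f K ∂μ)),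
      ∀ F : Finset ℂ, F.Nonempty → ∃ S : Set ℝ, S.Countable ∧ ∀ t : ℝ, 0 < t → t ∉ S →
        ∃ l : ℝ, Tendsto (fun n => frac n F t) atTop (𝓝 l)] ∧
    ((∀ F : Finset ℂ, F.Nonempty → ∀ᵐ t : ℝ, 0 < t → ∃ l : ℝ,
        Tendsto (fun R : ℝ => chi R (Metric.ball 0 1 ∩ Metric.thickening t (F : Set ℂ)) / chi R (Metric.ball 0 1))
          atTop (𝓝 l)) ↔
      (∃ ν : Measure C(unitInterval, ℂ), IsProbabilityMeasure ν ∧ LawTo (fun n => n) ν) ∧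
        ∀ x : ℝ, 0 < x → Tendsto (fun n : ℕ => aN ⌊x * n⌋₊ / aN n) atTop (𝓝 (x ^ (11 / 32 : ℝ)))) ∧
    (∀ ν : Measure C(unitInterval, ℂ), IsProbabilityMeasure ν → LawTo (fun n => n) ν →
      (∃ κ : ℝ, 0 < κ ∧ ∀ᵐ γ : C(unitInterval, ℂ) ∂ν, GoodH (fun r => κ * r ^ (4 / 3 : ℝ)) γ) ∧
      ∀ x : ℝ, 0 < x → Tendsto (fun n : ℕ => size ⌊x * n⌋₊ / size n) atTop (𝓝 (x ^ (3 / 4 : ℝ)))) := by
  obtain ⟨h1, h2, -, h3, h4⟩ := fin_pubH HexObs.NPR.mainN kapC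
  refine ⟨h1, h2, fun h h' γ γ' g g' ht => goodH_eq2 g g' ht, ?_, crt.1, fun ν hν hlim => ⟨?_, fun x hx => ?_⟩⟩
  · tfae_have 1 ↔ 2 := h3
    tfae_have 1 ↔ 3 := h4
    tfae_finish
  · exact kapQ_of NTSF.finE kapN HexObs.SIM.simple_final.2.2 regSz ν hν hlim
  · exact regSz ⟨ν, hν, hlim⟩ x hx

end Pool.Agent.NPR
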