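import Pool.Agent.NPR.KapD
import Pool.Agent.NPR.ClkA
import Pool.Agent.NTS.ResultOut

/-!
# NPR, the gauge, row C: from the words to the curves (helper5)

* `clk_abs` : the clock of one walk, with the gauge;
* **`kapC_of : KapN → KapC`**.
-/

set_option autoImplicit false

open Set Filter Topology MeasureTheory
open scoped ENNReal

namespace Pool.Agent.NPR

open HexObs hiding pos curve
open HexObs.TIW HexObs.TS HexObs.SDN HexObs.NPR
open NTF (JJ JJ_norm JJ_sub JJ_neg JJ_add Hd Hd_iff sw)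
open Pool.Agent.NTS.Res
open NTSF (rot om om_norm pos_rot rot_mem curve_eq)

/-! ### the scales -/

lemma msh_pos (J i : ℕ) : 0 < msh J i := Real.rpow_pos_of_pos (by norm_num) _

lemma msh_anti {J i i' : ℕ} (h : i ≤ i') : msh J i' ≤ msh J i := by
  unfold msh
  refine Real.rpow_le_rpow_of_exponent_le (by norm_num) ?_
  have h1 : (i : ℝ) ≤ i' := by exact_mod_cast h
  have h2 : (i : ℝ) / J ≤ (i' : ℝ) / J := div_le_div_of_nonneg_right h1 (Nat.cast_nonneg _)
  linarith

lemma msh_half {J : ℕ} (hJ : 1 ≤ J) (i : ℕ) : msh J (i + J) = msh J i / 2 := by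
  unfold msh
  have hJ0 : (J : ℝ) ≠ 0 := by positivity
  have e : -(((i + J : ℕ) : ℝ) / J) = -((i : ℝ) / J) - 1 := by
    push_cast
    field_simp
    ring
  rw [e, Real.rpow_sub (by norm_num), Real.rpow_one]

/-- all the radii of a sequence, octave by octave -/
lemma octaves {J : ℕ} {R : ℕ → ℝ} (hR : ∀ i i', i ≤ i' → R i' ≤ R i) (hJ : ∀ i, R (i + J) = R i / 2) :
    ∃ Rs : ℕ → ℕ → ℝ, (∀ l j, 2 ^ l ≤ Rs l j ∧ Rs l j ≤ 2 ^ (l + 1)) ∧
      ∀ l i, 2 ^ l ≤ R i → R i < 2 ^ (l + 1) → ∃ j, j < J ∧ Rs l j = R i := by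
  classical
  refine ⟨fun l j => if h : ∃ i, 2 ^ l ≤ R i ∧ R i < 2 ^ (l + 1) then max (2 ^ l) (R (Nat.find h + j)) else 2 ^ l, ?_, ?_⟩
  · intro l j
    have h2 : (2 : ℝ) ^ l ≤ 2 ^ (l + 1) := pow_le_pow_right₀ (by norm_num) (by omega)
    by_cases h : ∃ i, 2 ^ l ≤ R i ∧ R i < 2 ^ (l + 1)
    · simp only [dif_pos h]
      refine ⟨le_max_left _ _, max_le h2 ?_⟩
      exact (hR _ _ (Nat.le_add_right _ _)).trans (Nat.find_spec h).2.le
    · simp only [dif_neg h]
      exact ⟨le_rfl, h2⟩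
  · intro l i h1 h2
    have h : ∃ i, 2 ^ l ≤ R i ∧ R i < 2 ^ (l + 1) := ⟨i, h1, h2⟩
    have hm : Nat.find h ≤ i := Nat.find_min' h ⟨h1, h2⟩
    refine ⟨i - Nat.find h, ?_, ?_⟩
    · by_contra hcon
      have h3 : R i ≤ R (Nat.find h + J) := hR _ _ (by omega)
      rw [hJ] at h3
      have h4 := (Nat.find_spec h).2
      have h5 : (2 : ℝ) ^ (l + 1) = 2 ^ l * 2 := pow_succ _ _
      linarith
    · simp only [dif_pos h]
      rw [show Nat.find h + (i - Nat.find h) = i by omega]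
      exact max_eq_right h1

/-! ### one walk -/

section

variable {n : ℕ} {t : List Bool}

/-- **the clock of one walk, with the gauge** -/
theorem clk_abs (hn : 1 ≤ n) (ht : t.length = n) {ρ e ka : ℝ} (hρ : 0 < ρ) (hR : 2 ≤ ρ * size n) (he : 0 < e)
    (he1 : e ≤ 1 / 6) (hka : 0 < ka) (hen : 1 ≤ e * n)
    (h1 : ∀ k, k ≤ n → |ka * Vm (ρ * size n) (t.take k) - k| ≤ e * n)
    (h2 : 2 / size n * Vz (ρ * size n) (fun j => pos (sw n t) j) 0 n ≤ e / 2 * ρ) (v : unitInterval) :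
    |ka / n * (vb ρ (curve (sw n t)) v / ρ) - v| ≤ 3 * e := by
  have hn0 : (0 : ℝ) < n := by exact_mod_cast hn
  obtain ⟨W, hW⟩ : ∃ W : unitInterval → ℝ, W = fun v => vb ρ (curve (sw n t)) v := ⟨_, rfl⟩
  obtain ⟨a, ha⟩ : ∃ a, a = ka / ρ := ⟨_, rfl⟩
  have ha0 : 0 < a := by
    rw [ha]
    positivity
  have haρ : a * ρ = ka := by
    rw [ha]
    field_simp
  -- ka is at most 2 n
  have hka2 : ka ≤ 2 * n := by
    have h3 := (abs_le.1 (h1 n le_rfl)).2
    have h4 := Vm_one (R := ρ * size n) (by linarith) (t.take n)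
    have h5 : ka * 1 ≤ ka * Vm (ρ * size n) (t.take n) := mul_le_mul_of_nonneg_left h4 hka.le
    nlinarith
  have key : |a * W v - v * n| ≤ 3 * e * n := by
    have hv0 : (0 : ℝ) ≤ v := v.2.1
    have hv1 : (v : ℝ) ≤ 1 := v.2.2
    rw [abs_le]
    constructor
    · -- lower bound
      obtain ⟨k, hk⟩ : ∃ k, k = ⌊(v : ℝ) * n⌋₊ := ⟨_, rfl⟩
      have k1 : (k : ℝ) ≤ v * n := by
        rw [hk]
        exact Nat.floor_le (by positivity)
      have k2 : (v : ℝ) * n < k + 1 := by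
        rw [hk]
        exact Nat.lt_floor_add_one _
      have k3 : k ≤ n := by
        have : (k : ℝ) ≤ n := k1.trans (by nlinarith)
        exact_mod_cast this
      have k4 : (k : ℝ) / n ≤ v := by
        rw [div_le_iff₀ hn0]
        exact k1
      have h3 := vb_dn (t := t) hn ht hρ hR k3 k4
      have h4 : ρ * Vm (ρ * size n) (t.take k) ≤ W v + e / 2 * ρ := by
        rw [hW]
        linarith
      have h5 : a * (ρ * Vm (ρ * size n) (t.take k)) ≤ a * (W v + e / 2 * ρ) := mul_le_mul_of_nonneg_left h4 ha0.le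
      have h6 : a * (ρ * Vm (ρ * size n) (t.take k)) = ka * Vm (ρ * size n) (t.take k) := by
        rw [← mul_assoc, haρ]
      have h7 : a * (W v + e / 2 * ρ) = a * W v + e / 2 * ka := by
        rw [← haρ]
        ring
      rw [h6, h7] at h5
      have h8 := (abs_le.1 (h1 k k3)).1
      have h9 : e / 2 * ka ≤ e / 2 * (2 * n) := mul_le_mul_of_nonneg_left hka2 (by positivity)
      linarith
    · -- upper bound
      obtain ⟨k, hk⟩ : ∃ k, k = ⌈(v : ℝ) * n⌉₊ := ⟨_, rfl⟩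
      have k1 : (v : ℝ) * n ≤ k := by
        rw [hk]
        exact Nat.le_ceil _
      have k2 : (k : ℝ) < v * n + 1 := by
        rw [hk]
        exact Nat.ceil_lt_add_one (by positivity)
      have k3 : k ≤ n := by
        rw [hk]
        refine Nat.ceil_le.2 ?_
        nlinarith
      have k4 : (v : ℝ) ≤ (k : ℝ) / n := by
        rw [le_div_iff₀ hn0]
        exact k1
      have h3 := vb_up (t := t) hn ht hρ (by linarith) k3 k4
      have h5 : a * W v ≤ a * (ρ * Vm (ρ * size n) (t.take k)) := by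
        rw [hW]
        exact mul_le_mul_of_nonneg_left h3 ha0.le
      rw [← mul_assoc, haρ] at h5
      have h8 := (abs_le.1 (h1 k k3)).2
      linarith
  have e1 : ka / n * (vb ρ (curve (sw n t)) v / ρ) - v = (a * W v - v * n) / n := by
    rw [ha, hW]
    field_simp
  rw [e1, abs_div, abs_of_pos hn0, div_le_iff₀ hn0]
  exact key

end

/-! ### rotations -/

lemma bdc_rot {n : ℕ} (s : Fin n → Fin 3) (J : ℕ) (ε ρ1 ρ0 : ℝ) (h : ℝ → ℝ) :
    curve (rot s) ∈ {γ : C(unitInterval, ℂ) | ∃ i : ℕ, ρ1 ≤ msh J i ∧ msh J i ≤ ρ0 ∧ ∃ u : unitInterval,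
      ε < |h (msh J i) * (vb (msh J i) γ u / msh J i) - u|} ↔
    curve s ∈ {γ : C(unitInterval, ℂ) | ∃ i : ℕ, ρ1 ≤ msh J i ∧ msh J i ≤ ρ0 ∧ ∃ u : unitInterval,
      ε < |h (msh J i) * (vb (msh J i) γ u / msh J i) - u|} := by
  have h := vb_iso (γ := curve (rot s)) (γ' := curve s) (dist_rot s)
  simp only [mem_setOf_eq, h]

/-! ### all walks -/

/-- **row C** -/
theorem kapC_of (hE : NTSF.ConclE False) (hN : KapN) : KapC := by
  classical
  obtain ⟨c0, C0, hc0, hsz, -, hhol, -⟩ := hE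
  obtain ⟨ka, B, hB, hka, hN⟩ := hN
  have hC0 : 0 < C0 := by
    have h1 := (hsz 1 le_rfl).2
    have h2 := NTSF.size_pos (n := 1) le_rfl
    rw [Nat.cast_one, Real.one_rpow, mul_one] at h1
    linarith
  have h34 : ∀ n : ℕ, (((n : ℝ) ^ (3 / 4 : ℝ)) ^ (4 / 3 : ℝ)) = n := by
    intro n
    rw [← Real.rpow_mul (Nat.cast_nonneg _), show (3 / 4 : ℝ) * (4 / 3) = 1 by norm_num, Real.rpow_one]
  have hka0 : ∀ R : ℝ, 2 ≤ R → 0 < ka R := by
    intro R hR
    have h1 := (hka R hR).1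
    have h2 : (0 : ℝ) < R ^ (4 / 3 : ℝ) := Real.rpow_pos_of_pos (by linarith) _
    by_contra hcon
    rw [not_lt] at hcon
    nlinarith
  refine ⟨fun n ρ => ka (ρ * size n) / n, c0 ^ (4 / 3 : ℝ) / B, B * C0 ^ (4 / 3 : ℝ), by positivity, by positivity,
    fun n ρ hn hρ hR => ?_, fun J ε hJ hε => ?_⟩
  · have hn0 : (0 : ℝ) < n := by exact_mod_cast hn
    obtain ⟨h1, h2⟩ := hka _ hR
    obtain ⟨h3, h4⟩ := hsz n hn
    have hs := NTSF.size_pos hn
    have h5 : c0 ^ (4 / 3 : ℝ) * n ≤ size n ^ (4 / 3 : ℝ) := by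
      have := Real.rpow_le_rpow (by positivity) h3 (show (0 : ℝ) ≤ 4 / 3 by norm_num)
      rwa [Real.mul_rpow hc0.le (by positivity), h34] at this
    have h6 : size n ^ (4 / 3 : ℝ) ≤ C0 ^ (4 / 3 : ℝ) * n := by
      have := Real.rpow_le_rpow hs.le h4 (show (0 : ℝ) ≤ 4 / 3 by norm_num)
      rwa [Real.mul_rpow hC0.le (by positivity), h34] at this
    have hρ' : 0 < ρ ^ (4 / 3 : ℝ) := by positivity
    rw [Real.mul_rpow hρ.le hs.le] at h1 h2
    constructor
    · rw [le_div_iff₀ hn0, div_mul_eq_mul_div, div_mul_eq_mul_div, div_le_iff₀ hB]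
      calc c0 ^ (4 / 3 : ℝ) * ρ ^ (4 / 3 : ℝ) * n = ρ ^ (4 / 3 : ℝ) * (c0 ^ (4 / 3 : ℝ) * n) := by ring
        _ ≤ ρ ^ (4 / 3 : ℝ) * size n ^ (4 / 3 : ℝ) := mul_le_mul_of_nonneg_left h5 hρ'.le
        _ ≤ B * ka (ρ * size n) := h1
        _ = _ := mul_comm _ _
    · rw [div_le_iff₀ hn0]
      refine h2.trans ?_
      calc B * (ρ ^ (4 / 3 : ℝ) * size n ^ (4 / 3 : ℝ)) ≤ B * (ρ ^ (4 / 3 : ℝ) * (C0 ^ (4 / 3 : ℝ) * n)) := by gcongr
        _ = _ := by ring
  · obtain ⟨e, he⟩ : ∃ e, e = min (ε / 3) (1 / 6) := ⟨_, rfl⟩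
    have he0 : 0 < e := by
      rw [he]
      exact lt_min (by positivity) (by norm_num)
    have he1 : e ≤ ε / 3 := by
      rw [he]
      exact min_le_left _ _
    have he2 : e ≤ 1 / 6 := by
      rw [he]
      exact min_le_right _ _
    obtain ⟨D, n1, hD, hN⟩ := hN J e he0
    obtain ⟨M, hM⟩ := hhol (1 / 2) (by norm_num) (by norm_num) (ε / 2) (by positivity)
    refine ⟨1 / (D * C0), by positivity, fun ρ1 hρ1 => ?_⟩
    obtain ⟨N, hNN⟩ : ∃ N : ℕ, N = ⌈((M : ℝ) / (ρ1 / 2)) ^ 2⌉₊ + 1 := ⟨_, rfl⟩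
    obtain ⟨S, hS⟩ : ∃ S : ℝ, S = max (4 / ρ1) (4 * N / (e * ρ1)) := ⟨_, rfl⟩
    have ht : Tendsto (fun n : ℕ => (n : ℝ) ^ (3 / 4 : ℝ)) atTop atTop :=
      (tendsto_rpow_atTop (by norm_num)).comp tendsto_natCast_atTop_atTop
    obtain ⟨n0, hn0⟩ := Filter.eventually_atTop.1 (((ht.eventually_ge_atTop (S / c0)).and
      (eventually_ge_atTop (max n1 1))).and ((tendsto_natCast_atTop_atTop (R := ℝ)).eventually_ge_atTop (1 / e)))
    refine ⟨n0, fun n hn => ?_⟩
    obtain ⟨⟨h1, h2⟩, h3⟩ := hn0 n hn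
    have hnn1 : n1 ≤ n := le_of_max_le_left h2
    have hn1 : 1 ≤ n := le_of_max_le_right h2
    have hn0' : (0 : ℝ) < n := by exact_mod_cast hn1
    have hs := NTSF.size_pos hn1
    have hen : 1 ≤ e * n := by
      rw [div_le_iff₀ he0] at h3
      linarith
    have hSn : S ≤ size n := by
      rw [div_le_iff₀ hc0] at h1
      have := (hsz n hn1).1
      linarith
    have hs4 : 4 ≤ ρ1 * size n := by
      have : 4 / ρ1 ≤ size n := (by rw [hS]; exact le_max_left _ _ : 4 / ρ1 ≤ S).trans hSn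
      rw [div_le_iff₀ hρ1] at this
      linarith
    have hsN : 4 * N ≤ e * ρ1 * size n := by
      have : 4 * N / (e * ρ1) ≤ size n := (by rw [hS]; exact le_max_right _ _ : 4 * N / (e * ρ1) ≤ S).trans hSn
      rw [div_le_iff₀ (by positivity)] at this
      linarith
    -- the radii
    obtain ⟨Rs, hRs, hRs2⟩ := octaves (J := J) (R := fun i => msh J i * size n)
      (fun i i' h => mul_le_mul_of_nonneg_right (msh_anti h) hs.le) (fun i => by
        show msh J (i + J) * size n = msh J i * size n / 2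
        rw [msh_half hJ]
        ring)
    have hP := hN n Rs hnn1 (fun l j _ => hRs l j)
    obtain ⟨X, hX⟩ : ∃ X : Set (List Bool), X = {t | ∃ l j, 1 ≤ l ∧ j < J ∧ D * Rs l j ≤ (n : ℝ) ^ (3 / 4 : ℝ) ∧
      ¬ ∀ x y : ℕ, x ≤ y → y ≤ t.length → |ka (Rs l j) * Vm (Rs l j) (wd t x y) - ((y : ℝ) - x)| ≤ e * n} := ⟨_, rfl⟩
    rw [← hX] at hP
    obtain ⟨G, hG⟩ : ∃ G : Set C(unitInterval, ℂ), G = {γ : C(unitInterval, ℂ) | ∃ i : ℕ, ρ1 ≤ msh J i ∧
      msh J i ≤ 1 / (D * C0) ∧ ∃ u : unitInterval,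
      ε < |(fun ρ => ka (ρ * size n) / n) (msh J i) * (vb (msh J i) γ u / msh J i) - u|} := ⟨_, rfl⟩
    show law n {γ : C(unitInterval, ℂ) | ∃ i : ℕ, ρ1 ≤ msh J i ∧
      msh J i ≤ 1 / (D * C0) ∧ ∃ u : unitInterval,
      ε < |(fun ρ => ka (ρ * size n) / n) (msh J i) * (vb (msh J i) γ u / msh J i) - u|} ≤ ENNReal.ofReal ε
    rw [← hG]
    -- the two parts
    have hsub : G ⊆ {γ : C(unitInterval, ℂ) | ¬ HolderWith M (1 / 2) γ} ∪
        {γ : C(unitInterval, ℂ) | γ ∈ G ∧ Hd M (1 / 2) γ} := by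
      intro γ hγ
      by_cases h : HolderWith M (1 / 2) γ
      · right
        have h9 := Hd_iff.1 h
        refine ⟨hγ, ?_⟩
        have e9 : (((1 / 2 : NNReal)) : ℝ) = 1 / 2 := by norm_num
        rwa [e9] at h9
      · left
        exact h
    refine (measure_mono hsub).trans ((measure_union_le _ _).trans ?_)
    have hε2 : ENNReal.ofReal ε = ENNReal.ofReal (ε / 2) + ENNReal.ofReal (ε / 2) := by
      rw [← ENNReal.ofReal_add (by positivity) (by positivity)]
      congr 1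
      ring
    rw [hε2]
    refine add_le_add (hM n hn1) (NTSF.law_le (by positivity) ?_)
    obtain ⟨P, hPd⟩ : ∃ P : (Fin n → Fin 3) → Prop, P = fun s => curve s ∈ G ∧ Hd M (1 / 2) (curve s) := ⟨_, rfl⟩
    have hPr : ∀ s, P (rot s) ↔ P s := by
      intro s
      rw [hPd, hG]
      exact and_congr (bdc_rot s J ε ρ1 (1 / (D * C0)) (fun ρ => ka (ρ * size n) / n)) (hd_rot s M (1 / 2))
    have c1 := NTSF.card_saw (n := n) hn1 P hPr
    have c2 : 2 * (saw n).card = 3 * cS n := by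
      have := NTSF.card_saw (n := n) hn1 (fun _ => True) (fun _ => Iff.rfl)
      rw [Finset.filter_true_of_mem (fun _ _ => trivial)] at this
      rw [this]
      congr 2
      ext t
      exact ⟨fun h => h.1, fun h => ⟨h, trivial⟩⟩
    have c3 : {t | t ∈ SawN n ∧ P (sw n t)}.ncard ≤ {t | t ∈ SawN n ∧ t ∈ X}.ncard := by
      refine Set.ncard_le_ncard ?_ ((List.finite_length_eq Bool n).subset fun t h => h.1.1)
      rintro t ⟨h4, h5⟩
      refine ⟨h4, ?_⟩
      rw [hX]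
      by_contra h6
      rw [hPd] at h5
      obtain ⟨h5, h7⟩ := h5
      rw [hG] at h5
      obtain ⟨i, hi1, hi2, v, hv⟩ := h5
      have htl : t.length = n := h4.1
      have hρ := msh_pos J i
      have hR4 : 4 ≤ msh J i * size n := hs4.trans (mul_le_mul_of_nonneg_right hi1 hs.le)
      obtain ⟨l, hl1, hl2⟩ := exists_nat_pow_near (y := (2 : ℝ)) (x := msh J i * size n) (by linarith) (by norm_num)
      have hl0 : 1 ≤ l := by
        by_contra hcon
        have : l = 0 := by omega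
        rw [this] at hl2
        norm_num at hl2
        linarith
      obtain ⟨j, hj, hjR⟩ := hRs2 l i hl1 hl2
      have hDR : D * Rs l j ≤ (n : ℝ) ^ (3 / 4 : ℝ) := by
        rw [hjR]
        rw [le_div_iff₀ (by positivity)] at hi2
        have h8 := (hsz n hn1).2
        calc D * (msh J i * size n) ≤ D * (msh J i * (C0 * (n : ℝ) ^ (3 / 4 : ℝ))) := by gcongr
          _ = (msh J i * (D * C0)) * (n : ℝ) ^ (3 / 4 : ℝ) := by ring
          _ ≤ 1 * (n : ℝ) ^ (3 / 4 : ℝ) := mul_le_mul_of_nonneg_right hi2 (by positivity)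
          _ = _ := one_mul _
      have hall : ∀ x y : ℕ, x ≤ y → y ≤ t.length →
          |ka (Rs l j) * Vm (Rs l j) (wd t x y) - ((y : ℝ) - x)| ≤ e * n := by
        by_contra hcon
        exact h6 ⟨l, j, hl0, hj, hDR, hcon⟩
      rw [hjR] at hall
      refine absurd ?_ (not_le.2 hv)
      refine (clk_abs hn1 htl hρ (by linarith) he0 he2 (hka0 _ (by linarith)) hen (fun k hk => ?_) ?_ v).trans (by linarith)
      · have := hall 0 k (Nat.zero_le _) (by omega)
        rwa [Nat.cast_zero, sub_zero, show wd t 0 k = t.take k from rfl] at this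
      · -- the boundary term
        have h8 := hd_pcs (γ := curve (sw n t)) (M := M) (s := ρ1 / 2) (NNReal.coe_nonneg M) (by positivity) h7
        have h9 := Vz_le_pcs hn1 (sw n t) (v := 1) (σ := ρ1 / 2) le_rfl (by positivity) (by
          rw [div_self hn0'.ne']
          exact le_rfl)
        have hρs : ρ1 * size n ≤ msh J i * size n := mul_le_mul_of_nonneg_right hi1 hs.le
        have h10 := Vz_anti (x := ρ1 / 2 * size n + 2) (x' := msh J i * size n) (z := fun j => pos (sw n t) j) (a := 0)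
          (b := n) (by linarith) (by linarith) (Nat.zero_le _) (pos_step1 le_rfl)
        have h11 : Vz (msh J i * size n) (fun j => pos (sw n t) j) 0 n ≤ N := by
          rw [hNN]
          exact h10.trans (h9.trans h8)
        have h12 : (Vz (msh J i * size n) (fun j => pos (sw n t) j) 0 n : ℝ) ≤ N := by exact_mod_cast h11
        have h13 : e * ρ1 * size n ≤ e * msh J i * size n := by gcongr
        rw [div_mul_eq_mul_div, div_le_iff₀ hs]
        linarith
    have c4 : ({t | t ∈ SawN n ∧ t ∈ X}.ncard : ℝ) ≤ e * cS n := by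
      have h4 : (0 : ℝ) < cS n := by
        have h5 : 0 < (saw n).card := (NTSF.saw_nonempty n).card_pos
        have h6 : 0 < cS n := by omega
        exact_mod_cast h6
      have h5 : ({t | t ∈ SawN n ∧ t ∈ X}.ncard : ℝ) / cS n ≤ e := hP
      rwa [div_le_iff₀ h4] at h5
    have c5 : (((saw n).filter P).card : ℝ) ≤ ε / 2 * ((saw n).card : ℝ) := by
      have d1 : (2 : ℝ) * (((saw n).filter P).card : ℝ) = 3 * ({t | t ∈ SawN n ∧ P (sw n t)}.ncard : ℝ) := by
        exact_mod_cast c1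
      have d2 : (2 : ℝ) * ((saw n).card : ℝ) = 3 * (cS n : ℝ) := by exact_mod_cast c2
      have d3 : ({t | t ∈ SawN n ∧ P (sw n t)}.ncard : ℝ) ≤ ({t | t ∈ SawN n ∧ t ∈ X}.ncard : ℝ) := by exact_mod_cast c3
      have d4 : (0 : ℝ) ≤ cS n := Nat.cast_nonneg _
      have d5 : e * (cS n : ℝ) ≤ ε / 2 * cS n := mul_le_mul_of_nonneg_right (by linarith) d4
      have d6 : ε / 2 * (2 * ((saw n).card : ℝ)) = ε / 2 * (3 * (cS n : ℝ)) := by rw [d2]
      linarith
    refine le_trans (le_of_eq ?_) c5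
    rw [hPd]
    congr 2

end Pool.Agent.NPR
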