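import Pool.Agent.NPR.KapC
import Pool.Agent.NPR.FinPub

/-!
# NPR, the gauge, row L: the weak limits (helper5)

* `nb r γ u` : the mean over the diameters in `[r, 2 r]` of the number of pieces; it decreases with `r`;
* `mesh_ae` : the gauge along the scales `2 ^ (- i / J)`;
* `ratio_lim` : from the scales `2 ^ (- i / J)` to all the scales;
* **`kapL_of`** : for every weak limit the time is the number of pieces, for all `r → 0`, with a deterministic gauge of the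
  order `r ^ (4 / 3)`; **`fin_pubH`** : the reduction theorem in this form.
-/

set_option autoImplicit false

open Set Filter Topology MeasureTheory
open scoped ENNReal

namespace Pool.Agent.NPR

open NTF (open_le cont_eval)
open Pool.Agent.NTS.Res

/-! ### the number of pieces -/

/-- the mean over the diameters in `[r, 2 r]` of the number of pieces -/
noncomputable def nb (r : ℝ) (γ : C(unitInterval, ℂ)) (u : unitInterval) : ℝ := vb r γ u / r

section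

variable {γ γ' : C(unitInterval, ℂ)} {u : unitInterval}

lemma nb_pos {r : ℝ} (hr : 0 < r) : 0 < nb r γ u := div_pos (vb_pos hr γ u) hr

lemma nb_anti {r r' : ℝ} (hr : 0 < r) (h : r ≤ r') : nb r' γ u ≤ nb r γ u := by
  have hr' : 0 < r' := hr.trans_le h
  have hc : 0 < r' / r := by positivity
  have h1 := intervalIntegral.integral_comp_mul_left (a := r) (b := 2 * r) (fun s => (pcs s γ 0 u : ℝ)) hc.ne'
  rw [smul_eq_mul, show r' / r * r = r' by field_simp, show r' / r * (2 * r) = 2 * r' by field_simp] at h1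
  have e1 : nb r' γ u = (∫ s in r..2 * r, (pcs (r' / r * s) γ 0 u : ℝ)) / r := by
    rw [h1]
    unfold nb vb
    field_simp
  rw [e1]
  refine div_le_div_of_nonneg_right ?_ hr.le
  refine intervalIntegral.integral_mono_on (by linarith) ?_ (pcs_int γ u hr (by linarith)) fun s hs => ?_
  · have h2 := (pcs_int γ u hr' (show r' ≤ 2 * r' by linarith)).comp_mul_left (c := r' / r)
    rwa [show r' / (r' / r) = r by field_simp, show 2 * r' / (r' / r) = 2 * r by field_simp] at h2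
  · have hs0 : 0 < s := hr.trans_le hs.1
    have h3 : s ≤ r' / r * s := by
      have : 1 ≤ r' / r := by rwa [one_le_div hr]
      nlinarith
    exact_mod_cast pcs_anti hs0 h3 γ (a := 0) (b := u) u.2.1

lemma pcs_le_nb {r : ℝ} (hr : 0 < r) : (pcs r γ 0 u : ℝ) ≤ nb (r / 2) γ u := by
  have h1 : ∫ _s in r / 2..2 * (r / 2), (pcs r γ 0 u : ℝ) ≤ ∫ s in r / 2..2 * (r / 2), (pcs s γ 0 u : ℝ) := by
    refine intervalIntegral.integral_mono_on (by linarith) (by simp) (pcs_int γ u (by linarith) (by linarith))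
      fun s hs => ?_
    have hs2 : s ≤ r := by
      have := hs.2
      linarith
    exact_mod_cast pcs_anti (lt_of_lt_of_le (by linarith) hs.1) hs2 γ (a := 0) (b := u) u.2.1
  rw [intervalIntegral.integral_const, smul_eq_mul] at h1
  unfold nb vb
  rw [le_div_iff₀ (by linarith)]
  refine le_trans (le_of_eq ?_) h1
  ring

lemma nb_low {r r' : ℝ} (hr' : 0 < r') (h : r' ≤ r) (h2 : r ≤ 2 * r') :
    r' * nb r' γ u - (r - r') * pcs r' γ 0 u ≤ r * nb r γ u := by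
  have hr : 0 < r := hr'.trans_le h
  have e1 : r * nb r γ u = ∫ s in r..2 * r, (pcs s γ 0 u : ℝ) := by
    unfold nb vb
    field_simp
  have e2 : r' * nb r' γ u = ∫ s in r'..2 * r', (pcs s γ 0 u : ℝ) := by
    unfold nb vb
    field_simp
  rw [e1, e2]
  have i1 := intervalIntegral.integral_add_adjacent_intervals (pcs_int γ u hr' h) (pcs_int γ u hr h2)
  have i2 := intervalIntegral.integral_add_adjacent_intervals (pcs_int γ u hr h2)
    (pcs_int γ u (show 0 < 2 * r' by linarith) (show 2 * r' ≤ 2 * r by linarith))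
  have i3 : ∫ s in r'..r, (pcs s γ 0 u : ℝ) ≤ ∫ _s in r'..r, (pcs r' γ 0 u : ℝ) := by
    refine intervalIntegral.integral_mono_on h (pcs_int γ u hr' h) (by simp) fun s hs => ?_
    exact_mod_cast pcs_anti hr' hs.1 γ (a := 0) (b := u) u.2.1
  rw [intervalIntegral.integral_const, smul_eq_mul] at i3
  have i4 : 0 ≤ ∫ s in 2 * r'..2 * r, (pcs s γ 0 u : ℝ) :=
    intervalIntegral.integral_nonneg (by linarith) fun s _ => Nat.cast_nonneg _
  linarith

end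

/-! ### the scales -/

lemma msh_pow (J i : ℕ) : msh J i = msh J 1 ^ i := by
  unfold msh
  rw [← Real.rpow_natCast, ← Real.rpow_mul (by norm_num)]
  congr 1
  push_cast
  ring

lemma msh_one_lt {J : ℕ} (hJ : 1 ≤ J) : msh J 1 < 1 := by
  unfold msh
  have : (0 : ℝ) < J := by exact_mod_cast hJ
  refine Real.rpow_lt_one_of_one_lt_of_neg (by norm_num) ?_
  have : (0 : ℝ) < ((1 : ℕ) : ℝ) / J := by positivity
  linarith

lemma msh_tendsto {J : ℕ} (hJ : 1 ≤ J) : Tendsto (msh J) atTop (𝓝 0) := by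
  have h := tendsto_pow_atTop_nhds_zero_of_lt_one (msh_pos J 1).le (msh_one_lt hJ)
  exact h.congr fun i => (msh_pow J i).symm

/-- the scales below and above `r` -/
lemma msh_near {J : ℕ} (hJ : 1 ≤ J) {i0 : ℕ} {r : ℝ} (hr : 0 < r) (h : r < msh J i0) :
    ∃ i, i0 ≤ i ∧ msh J (i + 1) ≤ r ∧ r < msh J i := by
  classical
  have hex : ∃ i, msh J i ≤ r := ((msh_tendsto hJ).eventually (ge_mem_nhds hr)).exists
  have h1 := Nat.find_spec hex
  have h2 : i0 < Nat.find hex := by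
    by_contra hcon
    have := msh_anti (J := J) (not_lt.1 hcon)
    linarith
  refine ⟨Nat.find hex - 1, by omega, ?_, ?_⟩
  · rwa [show Nat.find hex - 1 + 1 = Nat.find hex by omega]
  · exact not_le.1 (Nat.find_min hex (by omega))

/-- the mesh is fine -/
lemma msh_step {J : ℕ} (hJ : 1 ≤ J) (i : ℕ) : (1 - 1 / (J : ℝ)) * msh J i ≤ msh J (i + 1) ∧ msh J (i + 1) ≤ msh J i ∧
    msh J i ≤ 2 * msh J (i + 1) := by
  have hJ0 : (0 : ℝ) < J := by exact_mod_cast hJ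
  have h0 := msh_pos J i
  refine ⟨?_, msh_anti (Nat.le_succ i), ?_⟩
  · have e : msh J (i + 1) = msh J i * (2 : ℝ) ^ (-(1 / (J : ℝ))) := by
      unfold msh
      rw [← Real.rpow_add (by norm_num)]
      congr 1
      push_cast
      ring
    rw [e, mul_comm]
    refine mul_le_mul_of_nonneg_left ?_ h0.le
    have h1 : (2 : ℝ) ^ (-(1 / (J : ℝ))) = Real.exp (Real.log 2 * (-(1 / (J : ℝ)))) := Real.rpow_def_of_pos (by norm_num) _
    rw [h1]
    have h2 := Real.add_one_le_exp (Real.log 2 * (-(1 / (J : ℝ))))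
    have h3 : Real.log 2 ≤ 1 := by
      have := Real.log_two_lt_d9
      linarith
    have h4 : Real.log 2 * (1 / (J : ℝ)) ≤ 1 * (1 / (J : ℝ)) := mul_le_mul_of_nonneg_right h3 (by positivity)
    linarith
  · have h1 := msh_half hJ i
    have h2 := msh_anti (J := J) (show i + 1 ≤ i + J by omega)
    linarith

/-! ### the gauge along the scales -/

/-- the time of `γ` is its number of pieces along the scales `2 ^ (- i / J)`, with the gauge `g` -/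
def MeshG (g : ℝ → ℝ) (γ : C(unitInterval, ℂ)) : Prop := ∀ J : ℕ, 1 ≤ J → ∀ ε : ℝ, 0 < ε → ∀ᶠ i in atTop,
  ∀ u : unitInterval, |g (msh J i) * nb (msh J i) γ u - u| ≤ ε

theorem mesh_ae {h : ℕ → ℝ → ℝ} {c C : ℝ} (hc : 0 < c)
    (hb : ∀ (n : ℕ) (ρ : ℝ), 1 ≤ n → 0 < ρ → 2 ≤ ρ * size n → c * ρ ^ (4 / 3 : ℝ) ≤ h n ρ ∧ h n ρ ≤ C * ρ ^ (4 / 3 : ℝ))
    (hl : ∀ (J : ℕ) (ε : ℝ), 1 ≤ J → 0 < ε → ∃ ρ0 : ℝ, 0 < ρ0 ∧ ∀ ρ1 : ℝ, 0 < ρ1 → ∃ n0 : ℕ, ∀ n : ℕ, n0 ≤ n →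
      law n {γ | ∃ i : ℕ, ρ1 ≤ msh J i ∧ msh J i ≤ ρ0 ∧ ∃ u : unitInterval,
        ε < |h n (msh J i) * (vb (msh J i) γ u / msh J i) - u|} ≤ ENNReal.ofReal ε)
    {φ : ℕ → ℕ} {ν : Measure C(unitInterval, ℂ)} (hφ : Tendsto φ atTop atTop) (hν : IsProbabilityMeasure ν)
    (hlim : LawTo φ ν) : ∃ g : ℝ → ℝ, (∀ ρ : ℝ, 0 < ρ → c * ρ ^ (4 / 3 : ℝ) ≤ g ρ ∧ g ρ ≤ C * ρ ^ (4 / 3 : ℝ)) ∧
      ∀ᵐ γ ∂ν, MeshG g γ := by
  have hU : ((hyperfilter ℕ : Ultrafilter ℕ) : Filter ℕ) ≤ atTop := Nat.hyperfilter_le_atTop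
  -- the gauge
  have hex : ∀ ρ : ℝ, ∃ x : ℝ, 0 < ρ → (c * ρ ^ (4 / 3 : ℝ) ≤ x ∧ x ≤ C * ρ ^ (4 / 3 : ℝ)) ∧
      Tendsto (fun k => h (φ k) ρ) (hyperfilter ℕ : Ultrafilter ℕ) (𝓝 x) := by
    intro ρ
    by_cases hρ : 0 < ρ
    · have hev : ∀ᶠ k in atTop, h (φ k) ρ ∈ Icc (c * ρ ^ (4 / 3 : ℝ)) (C * ρ ^ (4 / 3 : ℝ)) := by
        filter_upwards [hφ.eventually_ge_atTop 1, (size_top.comp hφ).eventually_ge_atTop (2 / ρ)] with k h1 h2
        refine hb _ _ h1 hρ ?_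
        have h3 : 2 / ρ ≤ size (φ k) := h2
        rw [div_le_iff₀ hρ] at h3
        linarith
      obtain ⟨x, hx, hx2⟩ := (isCompact_Icc (a := c * ρ ^ (4 / 3 : ℝ)) (b := C * ρ ^ (4 / 3 : ℝ))).ultrafilter_le_nhds
        ((hyperfilter ℕ).map fun k => h (φ k) ρ) (le_principal_iff.2 (hU hev))
      exact ⟨x, fun _ => ⟨hx, hx2⟩⟩
    · exact ⟨0, fun h1 => absurd h1 hρ⟩
  choose g hg using hex
  refine ⟨g, fun ρ hρ => (hg ρ hρ).1, ?_⟩
  -- one accuracy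
  have h1 : ∀ (J : ℕ) (ε : ℝ), 1 ≤ J → 0 < ε → ∃ ρ0 : ℝ, 0 < ρ0 ∧ ∀ ρ1 : ℝ, 0 < ρ1 →
      ν {γ | ∃ i : ℕ, ρ1 ≤ msh J i ∧ msh J i ≤ ρ0 ∧ ∃ u : unitInterval,
        2 * ε < |g (msh J i) * nb (msh J i) γ u - u|} ≤ ENNReal.ofReal ε := by
    intro J ε hJ hε
    obtain ⟨ρ0, hρ0, hl⟩ := hl J ε hJ hε
    refine ⟨ρ0, hρ0, fun ρ1 hρ1 => ?_⟩
    obtain ⟨n0, hl⟩ := hl ρ1 hρ1
    obtain ⟨S, hS⟩ : ∃ S : Set C(unitInterval, ℂ), S = {γ | ∃ i : ℕ, ρ1 ≤ msh J i ∧ msh J i ≤ ρ0 ∧ ∃ u : unitInterval,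
        2 * ε < |g (msh J i) * nb (msh J i) γ u - u|} := ⟨_, rfl⟩
    have hSo : IsOpen S := by
      have e : S = ⋃ i : ℕ, ⋃ _ : ρ1 ≤ msh J i ∧ msh J i ≤ ρ0, ⋃ u : unitInterval,
          {γ | 2 * ε < |g (msh J i) * nb (msh J i) γ u - u|} := by
        rw [hS]
        ext γ
        simp only [mem_setOf_eq, mem_iUnion, exists_prop, and_assoc]
      rw [e]
      refine isOpen_iUnion fun i => isOpen_iUnion fun _ => isOpen_iUnion fun u => ?_
      refine isOpen_lt continuous_const ?_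
      exact ((continuous_const.mul ((vb_cont (msh_pos J i) u).div_const _)).sub continuous_const).abs
    rw [← hS]
    -- finitely many scales
    obtain ⟨I, hI⟩ := Filter.eventually_atTop.1 ((msh_tendsto hJ).eventually (gt_mem_nhds hρ1))
    have hclose : ∀ᶠ k in ((hyperfilter ℕ : Ultrafilter ℕ) : Filter ℕ), ∀ i ∈ Finset.range I,
        |h (φ k) (msh J i) - g (msh J i)| < ε * (c * msh J i ^ (4 / 3 : ℝ)) / (1 + ε) := by
      rw [Filter.eventually_all_finset]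
      intro i _
      have h2 := (hg (msh J i) (msh_pos J i)).2
      have h3 : 0 < ε * (c * msh J i ^ (4 / 3 : ℝ)) / (1 + ε) := by
        have := msh_pos J i
        positivity
      have h4 := (Metric.tendsto_nhds.1 h2) _ h3
      simpa only [Real.dist_eq] using h4
    have hall : ∀ᶠ k in ((hyperfilter ℕ : Ultrafilter ℕ) : Filter ℕ), law (φ k) S ≤ ENNReal.ofReal ε := by
      filter_upwards [hclose, hU (hφ.eventually_ge_atTop (max n0 1)),
        hU ((size_top.comp hφ).eventually_ge_atTop (2 / ρ1))] with k hk1 hk2 hk3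
      refine (measure_mono ?_).trans (hl (φ k) ((le_max_left _ _).trans hk2))
      rw [hS]
      rintro γ ⟨i, hi1, hi2, u, hu⟩
      refine ⟨i, hi1, hi2, u, ?_⟩
      have hiI : i < I := by
        by_contra hcon
        have := hI i (not_lt.1 hcon)
        linarith
      have hρ := msh_pos J i
      have h5 := hk1 i (Finset.mem_range.2 hiI)
      have h6 : 2 ≤ msh J i * size (φ k) := by
        have h7 : 2 / ρ1 ≤ size (φ k) := hk3
        rw [div_le_iff₀ hρ1] at h7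
        have h8 : 0 < size (φ k) := NTSF.size_pos ((le_max_right _ _).trans hk2)
        nlinarith
      have h7 := (hb (φ k) _ ((le_max_right _ _).trans hk2) hρ h6).1
      have h8 : 0 < c * msh J i ^ (4 / 3 : ℝ) := by positivity
      obtain ⟨X, hX⟩ : ∃ X, X = nb (msh J i) γ u := ⟨_, rfl⟩
      have hX0 : 0 < X := by
        rw [hX]
        exact nb_pos hρ
      rw [← hX] at hu
      show ε < |h (φ k) (msh J i) * nb (msh J i) γ u - u|
      rw [← hX]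
      by_contra hcon
      rw [not_lt] at hcon
      obtain ⟨H, hH⟩ : ∃ H, H = h (φ k) (msh J i) := ⟨_, rfl⟩
      obtain ⟨G, hG⟩ : ∃ G, G = g (msh J i) := ⟨_, rfl⟩
      obtain ⟨b, hbb⟩ : ∃ b, b = c * msh J i ^ (4 / 3 : ℝ) := ⟨_, rfl⟩
      rw [← hH, ← hbb] at h7
      rw [← hH] at hcon
      rw [← hG] at hu
      rw [← hH, ← hG, ← hbb, lt_div_iff₀ (by linarith)] at h5
      rw [← hbb] at h8
      have hu1 : (u : ℝ) ≤ 1 := u.2.2
      have h9 : H * X ≤ 1 + ε := by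
        have := (abs_le.1 hcon).2
        linarith
      have h10 : b * X ≤ 1 + ε := (mul_le_mul_of_nonneg_right h7 hX0.le).trans h9
      have h11 : |H - G| * X ≤ ε := by
        have h12 : |H - G| * (1 + ε) * X ≤ ε * b * X := mul_le_mul_of_nonneg_right h5.le hX0.le
        have h13 : ε * b * X ≤ ε * (1 + ε) := by
          rw [mul_assoc]
          exact mul_le_mul_of_nonneg_left h10 hε.le
        have h14 : (1 + ε) * (|H - G| * X) ≤ (1 + ε) * ε := by linarith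
        exact le_of_mul_le_mul_left h14 (by linarith)
      have h15 : |G * X - u| ≤ |H * X - u| + |H - G| * X := by
        have e : G * X - u = (H * X - u) - (H - G) * X := by ring
        rw [e]
        refine (abs_sub _ _).trans ?_
        rw [abs_mul, abs_of_pos hX0]
      linarith
    have hfr : ∃ᶠ k in atTop, law (φ k) S ≤ ENNReal.ofReal ε := hall.frequently.filter_mono hU
    obtain ⟨ψ, hψ, hψ2⟩ := extraction_of_frequently_atTop hfr
    have hlim2 := (NTSF.lawTo_iff ⟨ν, hν⟩).1 hlim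
    exact open_le (hlim2.comp hψ.tendsto_atTop) hSo (Eventually.of_forall fun k => hψ2 k)
  -- the exceptional sets
  have h2 : ∀ (J : ℕ) (ε : ℝ), 1 ≤ J → 0 < ε → ν {γ | ∃ᶠ i in atTop, ∃ u : unitInterval,
      2 * ε < |g (msh J i) * nb (msh J i) γ u - u|} = 0 := by
    intro J ε hJ hε
    refine le_antisymm ?_ zero_le
    refine ENNReal.le_of_forall_pos_le_add fun δ hδ _ => ?_
    rw [zero_add]
    obtain ⟨ε', hε'⟩ : ∃ ε' : ℝ, ε' = min ε δ := ⟨_, rfl⟩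
    have hε'0 : 0 < ε' := by
      rw [hε']
      exact lt_min hε (by exact_mod_cast hδ)
    obtain ⟨ρ0, hρ0, h3⟩ := h1 J ε' hJ hε'0
    obtain ⟨S, hS⟩ : ∃ S : ℕ → Set C(unitInterval, ℂ), S = fun m : ℕ => {γ | ∃ i : ℕ, 1 / ((m : ℝ) + 1) ≤ msh J i ∧
      msh J i ≤ ρ0 ∧ ∃ u : unitInterval, 2 * ε' < |g (msh J i) * nb (msh J i) γ u - u|} := ⟨_, rfl⟩
    have hmono : Monotone S := by
      intro m m' hm
      rw [hS]
      rintro γ ⟨i, h4, h5⟩
      refine ⟨i, le_trans ?_ h4, h5⟩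
      have : (m : ℝ) ≤ m' := by exact_mod_cast hm
      exact one_div_le_one_div_of_le (by positivity) (by linarith)
    have hsub : {γ | ∃ᶠ i in atTop, ∃ u : unitInterval, 2 * ε < |g (msh J i) * nb (msh J i) γ u - u|} ⊆ ⋃ m, S m := by
      intro γ hγ
      have hγ' : ∃ᶠ i in atTop, ∃ u : unitInterval, 2 * ε < |g (msh J i) * nb (msh J i) γ u - u| := hγ
      obtain ⟨i, ⟨u, hu⟩, hi⟩ := (hγ'.and_eventually ((msh_tendsto hJ).eventually (ge_mem_nhds hρ0))).exists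
      obtain ⟨m, hm⟩ := exists_nat_one_div_lt (msh_pos J i)
      rw [mem_iUnion]
      refine ⟨m, ?_⟩
      rw [hS]
      refine ⟨i, hm.le, hi, u, lt_of_le_of_lt ?_ hu⟩
      have : ε' ≤ ε := by
        rw [hε']
        exact min_le_left _ _
      linarith
    refine (measure_mono hsub).trans ?_
    rw [hmono.measure_iUnion]
    refine iSup_le fun m => ?_
    rw [hS]
    refine (h3 _ (by positivity)).trans ?_
    rw [ENNReal.ofReal_le_iff_le_toReal ENNReal.coe_ne_top, ENNReal.coe_toReal, hε']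
    exact min_le_right _ _
  have h3 : ∀ᵐ γ ∂ν, ∀ J m : ℕ, 1 ≤ J → ∀ᶠ i in atTop, ∀ u : unitInterval,
      |g (msh J i) * nb (msh J i) γ u - u| ≤ 2 * (1 / ((m : ℝ) + 1)) := by
    rw [ae_all_iff]
    intro J
    rw [ae_all_iff]
    intro m
    by_cases hJ : 1 ≤ J
    · have h4 := h2 J (1 / ((m : ℝ) + 1)) hJ (by positivity)
      rw [measure_eq_zero_iff_ae_notMem] at h4
      filter_upwards [h4] with γ hγ _
      have h5 : ¬ ∃ᶠ i in atTop, ∃ u : unitInterval, 2 * (1 / ((m : ℝ) + 1)) < |g (msh J i) * nb (msh J i) γ u - u| := hγ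
      rw [not_frequently] at h5
      filter_upwards [h5] with i hi u
      by_contra hcon
      exact hi ⟨u, not_le.1 hcon⟩
    · exact Eventually.of_forall fun γ h4 => absurd h4 hJ
  filter_upwards [h3] with γ hγ J hJ ε hε
  obtain ⟨m, hm⟩ := exists_nat_one_div_lt (show 0 < ε / 2 by linarith)
  filter_upwards [hγ J m hJ] with i hi u
  refine (hi u).trans ?_
  linarith

/-! ### all the scales -/

/-- two neighbours -/
lemma nb_step {g : ℝ → ℝ} {c C : ℝ} (hc : 0 < c)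
    (hb : ∀ ρ : ℝ, 0 < ρ → c * ρ ^ (4 / 3 : ℝ) ≤ g ρ ∧ g ρ ≤ C * ρ ^ (4 / 3 : ℝ)) {γ : C(unitInterval, ℂ)}
    (hγ : MeshG g γ) {J : ℕ} (hJ : 1 ≤ J) : ∀ᶠ i in atTop,
      (1 - (1 + 16 * (C / c)) / J) * nb (msh J (i + 1)) γ 1 ≤ nb (msh J i) γ 1 := by
  have hJ0 : (0 : ℝ) < J := by exact_mod_cast hJ
  have h1 := hγ J hJ (1 / 2) (by norm_num)
  have h2 := (tendsto_add_atTop_nat 1).eventually h1
  have h3 := (tendsto_add_atTop_nat (1 + J)).eventually h1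
  filter_upwards [h2, h3] with i h2 h3
  obtain ⟨s1, s2, s3⟩ := msh_step hJ i
  obtain ⟨ρ, hρ⟩ : ∃ ρ, ρ = msh J i := ⟨_, rfl⟩
  obtain ⟨ρ', hρ'⟩ : ∃ ρ', ρ' = msh J (i + 1) := ⟨_, rfl⟩
  have hρ0 : 0 < ρ := by
    rw [hρ]
    exact msh_pos J i
  have hρ'0 : 0 < ρ' := by
    rw [hρ']
    exact msh_pos J (i + 1)
  have e3 : msh J (i + (1 + J)) = ρ' / 2 := by
    rw [← add_assoc, msh_half hJ, hρ']
  have h2' := h2 1
  have h3' := h3 1
  rw [e3] at h3'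
  rw [← hρ'] at h2' s1 s2 s3 ⊢
  rw [← hρ] at s1 s2 s3 ⊢
  rw [Set.Icc.coe_one, abs_le] at h2' h3'
  have h4 := nb_low (γ := γ) (u := 1) hρ'0 s2 s3
  have h5 := pcs_le_nb (γ := γ) (u := 1) hρ'0
  obtain ⟨a, ha⟩ : ∃ a, a = nb ρ γ 1 := ⟨_, rfl⟩
  obtain ⟨a', ha'⟩ : ∃ a', a' = nb ρ' γ 1 := ⟨_, rfl⟩
  obtain ⟨a2, ha2⟩ : ∃ a2, a2 = nb (ρ' / 2) γ 1 := ⟨_, rfl⟩
  have ha'0 : 0 < a' := by
    rw [ha']
    exact nb_pos hρ'0
  have ha20 : 0 < a2 := by
    rw [ha2]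
    exact nb_pos (by linarith)
  rw [← ha'] at h2' h4 ⊢
  rw [← ha2] at h3' h5
  rw [← ha] at h4 ⊢
  -- the gauge at the half
  obtain ⟨b1, b2⟩ := hb ρ' hρ'0
  obtain ⟨b3, -⟩ := hb (ρ' / 2) (by linarith)
  obtain ⟨P, hP⟩ : ∃ P, P = ρ' ^ (4 / 3 : ℝ) := ⟨_, rfl⟩
  have hP0 : 0 < P := by
    rw [hP]
    positivity
  have hhalf : P / 4 ≤ (ρ' / 2) ^ (4 / 3 : ℝ) := by
    rw [Real.div_rpow hρ'0.le (by norm_num), ← hP]
    have h6 : (2 : ℝ) ^ (4 / 3 : ℝ) ≤ 4 := by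
      calc (2 : ℝ) ^ (4 / 3 : ℝ) ≤ (2 : ℝ) ^ (2 : ℝ) := Real.rpow_le_rpow_of_exponent_le (by norm_num) (by norm_num)
        _ = 4 := by norm_num
    exact div_le_div_of_nonneg_left hP0.le (by positivity) h6
  rw [← hP] at b1 b2
  have hCc : 0 < C := by
    have : c * P ≤ C * P := b1.trans b2
    have := le_of_mul_le_mul_right this hP0
    linarith
  -- a2 is at most 16 C / c a'
  have k1 : c * (P / 4) * a2 ≤ 3 / 2 := by
    have h6 : c * (P / 4) ≤ g (ρ' / 2) := (mul_le_mul_of_nonneg_left hhalf hc.le).trans b3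
    have h7 : c * (P / 4) * a2 ≤ g (ρ' / 2) * a2 := mul_le_mul_of_nonneg_right h6 ha20.le
    linarith [h3'.2]
  have k2 : 1 / 2 ≤ C * P * a' := by
    have h7 : g ρ' * a' ≤ C * P * a' := mul_le_mul_of_nonneg_right b2 ha'0.le
    linarith [h2'.1]
  have k3 : a2 ≤ 16 * (C / c) * a' := by
    have h8 : c * (P / 4) * a2 ≤ 3 * (C * P * a') := by linarith
    have h9 : c * P * a2 ≤ c * P * (12 * (C / c) * a') := by
      have e : c * P * (12 * (C / c) * a') = 12 * (C * P * a') := by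
        field_simp
      rw [e]
      linarith
    have h10 := le_of_mul_le_mul_left h9 (by positivity)
    have h11 : 0 ≤ (C / c) * a' := by positivity
    linarith
  -- the end
  have k4 : ρ' * a' - (ρ - ρ') * (16 * (C / c) * a') ≤ ρ * a := by
    have : (ρ - ρ') * (pcs ρ' γ 0 1 : ℝ) ≤ (ρ - ρ') * (16 * (C / c) * a') :=
      mul_le_mul_of_nonneg_left (h5.trans k3) (by linarith)
    linarith
  have k5 : ρ - ρ' ≤ ρ / J := by
    have : (1 - 1 / (J : ℝ)) * ρ = ρ - ρ / J := by ring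
    linarith
  have k6 : (ρ - ρ') * ((1 + 16 * (C / c)) * a') ≤ ρ / J * ((1 + 16 * (C / c)) * a') :=
    mul_le_mul_of_nonneg_right k5 (by positivity)
  have k7 : ρ * ((1 - (1 + 16 * (C / c)) / J) * a') ≤ ρ * a := by
    have e : ρ * ((1 - (1 + 16 * (C / c)) / J) * a') = ρ * a' - ρ / J * ((1 + 16 * (C / c)) * a') := by
      field_simp
    rw [e]
    linarith
  exact le_of_mul_le_mul_left k7 hρ0

theorem ratio_lim {g : ℝ → ℝ} {c C : ℝ} (hc : 0 < c)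
    (hb : ∀ ρ : ℝ, 0 < ρ → c * ρ ^ (4 / 3 : ℝ) ≤ g ρ ∧ g ρ ≤ C * ρ ^ (4 / 3 : ℝ)) {γ γ' : C(unitInterval, ℂ)}
    (hγ : MeshG g γ) (hγ' : MeshG g γ') (u : unitInterval) :
    Tendsto (fun r => nb r γ u / nb r γ' 1) (𝓝[>] 0) (𝓝 (u : ℝ)) := by
  rw [Metric.tendsto_nhdsWithin_nhds]
  intro ε hε
  have hC : 0 < C := by
    obtain ⟨h1, h2⟩ := hb 1 one_pos
    rw [Real.one_rpow, mul_one] at h1 h2
    linarith
  obtain ⟨η, hη⟩ : ∃ η : ℝ, η = min (1 / 4) (ε / 12) := ⟨_, rfl⟩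
  have hη0 : 0 < η := by
    rw [hη]
    exact lt_min (by norm_num) (by positivity)
  have hη1 : η ≤ 1 / 4 := by
    rw [hη]
    exact min_le_left _ _
  have hη2 : η ≤ ε / 12 := by
    rw [hη]
    exact min_le_right _ _
  obtain ⟨K, hK⟩ : ∃ K, K = 1 + 16 * (C / c) := ⟨_, rfl⟩
  have hK0 : 0 < K := by
    rw [hK]
    positivity
  obtain ⟨J, hJ⟩ := exists_nat_ge (max 1 (K / η))
  have hJ1 : 1 ≤ J := by
    have := (le_max_left _ _).trans hJ
    exact_mod_cast this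
  have hJ0 : (0 : ℝ) < J := by exact_mod_cast hJ1
  have hJη : K / J ≤ η := by
    have := (le_max_right _ _).trans hJ
    rw [div_le_iff₀ hη0] at this
    rw [div_le_iff₀ hJ0]
    linarith
  have hall := ((hγ J hJ1 η hη0).and (hγ' J hJ1 η hη0)).and (((tendsto_add_atTop_nat 1).eventually
    ((hγ J hJ1 η hη0).and (hγ' J hJ1 η hη0))).and (nb_step hc hb hγ' hJ1))
  obtain ⟨i0, hi0⟩ := Filter.eventually_atTop.1 hall
  refine ⟨msh J i0, msh_pos J i0, fun {r} hr hr2 => ?_⟩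
  have hr0 : 0 < r := hr
  rw [Real.dist_eq, sub_zero, abs_of_pos hr0] at hr2
  obtain ⟨i, hi, hi1, hi2⟩ := msh_near hJ1 hr0 hr2
  obtain ⟨⟨a1, a2⟩, ⟨a3, a4⟩, a5⟩ := hi0 i hi
  obtain ⟨ρ, hρ⟩ : ∃ ρ, ρ = msh J i := ⟨_, rfl⟩
  obtain ⟨ρ', hρ'⟩ : ∃ ρ', ρ' = msh J (i + 1) := ⟨_, rfl⟩
  have hρ0 : 0 < ρ := by
    rw [hρ]
    exact msh_pos J i
  have hρ'0 : 0 < ρ' := by
    rw [hρ']
    exact msh_pos J (i + 1)
  have b1 := a1 u
  have b2 := a2 1
  have b3 := a3 u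
  have b4 := a4 1
  rw [← hρ] at b1 b2 a5 hi2
  rw [← hρ'] at b3 b4 a5 hi1
  rw [Set.Icc.coe_one] at b2 b4
  rw [abs_le] at b1 b2 b3 b4
  rw [← hK] at a5
  have m1 := nb_anti (γ := γ) (u := u) hr0 hi2.le
  have m2 := nb_anti (γ := γ) (u := u) hρ'0 hi1
  have m3 := nb_anti (γ := γ') (u := 1) hr0 hi2.le
  have m4 := nb_anti (γ := γ') (u := 1) hρ'0 hi1
  have g1 := hb ρ hρ0
  have g2 := hb ρ' hρ'0
  obtain ⟨G, hG⟩ : ∃ G, G = g ρ := ⟨_, rfl⟩
  obtain ⟨G', hG'⟩ : ∃ G', G' = g ρ' := ⟨_, rfl⟩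
  have hG0 : 0 < G := by
    rw [hG]
    exact lt_of_lt_of_le (by positivity) g1.1
  have hG'0 : 0 < G' := by
    rw [hG']
    exact lt_of_lt_of_le (by positivity) g2.1
  rw [← hG] at b1 b2
  rw [← hG'] at b3 b4
  obtain ⟨x, hx⟩ : ∃ x, x = nb r γ u := ⟨_, rfl⟩
  obtain ⟨y, hy⟩ : ∃ y, y = nb r γ' 1 := ⟨_, rfl⟩
  obtain ⟨x1, hx1⟩ : ∃ x1, x1 = nb ρ γ u := ⟨_, rfl⟩
  obtain ⟨x2, hx2⟩ : ∃ x2, x2 = nb ρ' γ u := ⟨_, rfl⟩
  obtain ⟨y1, hy1⟩ : ∃ y1, y1 = nb ρ γ' 1 := ⟨_, rfl⟩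
  obtain ⟨y2, hy2⟩ : ∃ y2, y2 = nb ρ' γ' 1 := ⟨_, rfl⟩
  have hy0 : 0 < y := by rw [hy]; exact nb_pos hr0
  have hx0 : 0 < x := by rw [hx]; exact nb_pos hr0
  have hy20 : 0 < y2 := by rw [hy2]; exact nb_pos hρ'0
  rw [← hx1, ← hx] at m1
  rw [← hx2, ← hx] at m2
  rw [← hy1, ← hy] at m3
  rw [← hy2, ← hy] at m4
  rw [← hx1] at b1
  rw [← hy1] at b2 a5
  rw [← hx2] at b3
  rw [← hy2] at b4 a5
  rw [← hx, ← hy, Real.dist_eq]
  have hu0 : (0 : ℝ) ≤ u := u.2.1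
  have hu1 : (u : ℝ) ≤ 1 := u.2.2
  have hq : (1 - η) * y2 ≤ y1 := by
    refine le_trans ?_ a5
    exact mul_le_mul_of_nonneg_right (by linarith) hy20.le
  -- upper bound: x ≤ (u + 6 η) y
  have up : x ≤ (u + 6 * η) * y := by
    -- G' x ≤ u + η, G' y ≥ (1 - η) ^ 2
    have c1 : G' * x ≤ u + η := by
      have := mul_le_mul_of_nonneg_left m2 hG'0.le
      linarith [b3.2]
    have c2 : (1 - η) * (1 - η) ≤ G' * y := by
      have d1 : (1 - η) * (1 - η) ≤ (1 - η) * (G' * y2) := mul_le_mul_of_nonneg_left (by linarith [b4.1]) (by linarith)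
      have d2 : G' * ((1 - η) * y2) ≤ G' * y := mul_le_mul_of_nonneg_left (hq.trans m3) hG'0.le
      linarith
    have c3 : (u : ℝ) + η ≤ (u + 6 * η) * ((1 - η) * (1 - η)) := by nlinarith [mul_nonneg hu0 hη0.le, mul_nonneg hη0.le hη0.le]
    have c4 : (u + 6 * η) * ((1 - η) * (1 - η)) ≤ (u + 6 * η) * (G' * y) := mul_le_mul_of_nonneg_left c2 (by linarith)
    have c5 : G' * x ≤ G' * ((u + 6 * η) * y) := by
      have : (u + 6 * η) * (G' * y) = G' * ((u + 6 * η) * y) := by ring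
      linarith
    exact le_of_mul_le_mul_left c5 hG'0
  -- lower bound
  have lo : (u - 6 * η) * y ≤ x := by
    rcases le_total ((u : ℝ) - 6 * η) 0 with h6 | h6
    · have : (u - 6 * η) * y ≤ 0 := mul_nonpos_of_nonpos_of_nonneg h6 hy0.le
      linarith
    · have c1 : (u : ℝ) - η ≤ G * x := by
        have := mul_le_mul_of_nonneg_left m1 hG0.le
        linarith [b1.1]
      have c2 : (1 - η) * (G * y) ≤ 1 + η := by
        have d1 : G * ((1 - η) * y2) ≤ G * y1 := mul_le_mul_of_nonneg_left hq hG0.le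
        have d2 : G * ((1 - η) * y) ≤ G * ((1 - η) * y2) :=
          mul_le_mul_of_nonneg_left (mul_le_mul_of_nonneg_left m4 (by linarith)) hG0.le
        have e : (1 - η) * (G * y) = G * ((1 - η) * y) := by ring
        linarith [b2.2]
      have c3 : (1 - η) * ((u - 6 * η) * (G * y)) ≤ (u - 6 * η) * (1 + η) := by
        have := mul_le_mul_of_nonneg_left c2 h6
        linarith
      have c4 : (u - 6 * η) * (1 + η) ≤ (1 - η) * (u - η) := by nlinarith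
      have c5 : (1 - η) * (G * ((u - 6 * η) * y)) ≤ (1 - η) * (G * x) := by
        have d3 : (1 - η) * (u - η) ≤ (1 - η) * (G * x) := mul_le_mul_of_nonneg_left c1 (by linarith)
        have e : (1 - η) * (G * ((u - 6 * η) * y)) = (1 - η) * ((u - 6 * η) * (G * y)) := by ring
        linarith
      exact le_of_mul_le_mul_left (le_of_mul_le_mul_left c5 (by linarith)) hG0
  have e1 : x / y ≤ u + 6 * η := by
    rw [div_le_iff₀ hy0]
    exact up
  have e2 : (u : ℝ) - 6 * η ≤ x / y := by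
    rw [le_div_iff₀ hy0]
    exact lo
  rw [abs_lt]
  constructor <;> linarith

/-- **row L** -/
theorem kapL_of (hK : KapC)
    (hinj : ∀ (φ : ℕ → ℕ) (ν : Measure C(unitInterval, ℂ)), Tendsto φ atTop atTop → IsProbabilityMeasure ν → LawTo φ ν →
      ∀ᵐ γ : C(unitInterval, ℂ) ∂ν, Function.Injective γ) :
    ∃ c C : ℝ, 0 < c ∧ 0 < C ∧ ∀ (φ : ℕ → ℕ) (ν : Measure C(unitInterval, ℂ)), Tendsto φ atTop atTop →
      IsProbabilityMeasure ν → LawTo φ ν → ∃ h : ℝ → ℝ,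
        (∀ r : ℝ, 0 < r → c * r ^ (4 / 3 : ℝ) ≤ h r ∧ h r ≤ C * r ^ (4 / 3 : ℝ)) ∧ ∀ᵐ γ : C(unitInterval, ℂ) ∂ν, GoodH h γ := by
  classical
  obtain ⟨h, c, C, hc, hC, hb, hl⟩ := hK
  refine ⟨c / 8, 8 * C, by positivity, by positivity, fun φ ν hφ hν hlim => ?_⟩
  obtain ⟨g, hg, hae⟩ := mesh_ae hc hb hl hφ hν hlim
  have hcC : c ≤ C := by
    obtain ⟨h1, h2⟩ := hg 1 one_pos
    rw [Real.one_rpow, mul_one] at h1 h2
    linarith
  obtain ⟨γ', hγ'⟩ := hae.exists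
  refine ⟨fun r => if c / 8 * r ^ (4 / 3 : ℝ) ≤ 1 / nb r γ' 1 ∧ 1 / nb r γ' 1 ≤ 8 * C * r ^ (4 / 3 : ℝ) then 1 / nb r γ' 1
    else c / 8 * r ^ (4 / 3 : ℝ), fun r hr => ?_, ?_⟩
  · have hr0 : 0 < r ^ (4 / 3 : ℝ) := by positivity
    by_cases h1 : c / 8 * r ^ (4 / 3 : ℝ) ≤ 1 / nb r γ' 1 ∧ 1 / nb r γ' 1 ≤ 8 * C * r ^ (4 / 3 : ℝ)
    · simp only [if_pos h1]
      exact h1
    · simp only [if_neg h1]
      refine ⟨le_rfl, mul_le_mul_of_nonneg_right (by linarith) hr0.le⟩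
  · have hev : ∀ᶠ r in 𝓝[>] (0 : ℝ), c / 8 * r ^ (4 / 3 : ℝ) ≤ 1 / nb r γ' 1 ∧ 1 / nb r γ' 1 ≤ 8 * C * r ^ (4 / 3 : ℝ) := by
      have h1 := hγ' 1 le_rfl (1 / 2) (by norm_num)
      obtain ⟨i0, hi0⟩ := Filter.eventually_atTop.1 (h1.and ((tendsto_add_atTop_nat 1).eventually h1))
      have h2 : Ioo (0 : ℝ) (msh 1 i0) ∈ 𝓝[>] (0 : ℝ) := Ioo_mem_nhdsGT (msh_pos 1 i0)
      filter_upwards [h2] with r hr
      have hr0 : 0 < r := hr.1
      obtain ⟨i, hi, hi1, hi2⟩ := msh_near le_rfl hr0 hr.2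
      obtain ⟨a1, a2⟩ := hi0 i hi
      obtain ⟨-, s2, s3⟩ := msh_step (J := 1) le_rfl i
      obtain ⟨ρ, hρ⟩ : ∃ ρ, ρ = msh 1 i := ⟨_, rfl⟩
      obtain ⟨ρ', hρ'⟩ : ∃ ρ', ρ' = msh 1 (i + 1) := ⟨_, rfl⟩
      have hρ0 : 0 < ρ := by
        rw [hρ]
        exact msh_pos 1 i
      have hρ'0 : 0 < ρ' := by
        rw [hρ']
        exact msh_pos 1 (i + 1)
      have b1 := a1 1
      have b2 := a2 1
      rw [Set.Icc.coe_one, abs_le] at b1 b2
      rw [← hρ] at b1 hi2 s3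
      rw [← hρ'] at b2 hi1 s3
      have m3 := nb_anti (γ := γ') (u := 1) hr0 hi2.le
      have m4 := nb_anti (γ := γ') (u := 1) hρ'0 hi1
      have hy0 : 0 < nb r γ' 1 := nb_pos hr0
      have g1 := (hg ρ hρ0).2
      have g2 := (hg ρ' hρ'0).1
      obtain ⟨P, hP⟩ : ∃ P, P = r ^ (4 / 3 : ℝ) := ⟨_, rfl⟩
      have hP0 : 0 < P := by
        rw [hP]
        positivity
      have h24 : (2 : ℝ) ^ (4 / 3 : ℝ) ≤ 4 := by
        calc (2 : ℝ) ^ (4 / 3 : ℝ) ≤ (2 : ℝ) ^ (2 : ℝ) := Real.rpow_le_rpow_of_exponent_le (by norm_num) (by norm_num)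
          _ = 4 := by norm_num
      have p1 : ρ ^ (4 / 3 : ℝ) ≤ 4 * P := by
        have h5 : ρ ^ (4 / 3 : ℝ) ≤ (2 * r) ^ (4 / 3 : ℝ) := Real.rpow_le_rpow hρ0.le (by linarith) (by norm_num)
        rw [Real.mul_rpow (by norm_num) hr0.le, ← hP] at h5
        exact h5.trans (mul_le_mul_of_nonneg_right h24 hP0.le)
      have p2 : P / 4 ≤ ρ' ^ (4 / 3 : ℝ) := by
        have h5 : (r / 2) ^ (4 / 3 : ℝ) ≤ ρ' ^ (4 / 3 : ℝ) := Real.rpow_le_rpow (by linarith) (by linarith) (by norm_num)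
        rw [Real.div_rpow hr0.le (by norm_num), ← hP] at h5
        exact (div_le_div_of_nonneg_left hP0.le (by positivity) h24).trans h5
      rw [← hP]
      constructor
      · rw [le_div_iff₀ hy0]
        -- c / 8 P nb r ≤ c / 8 P nb ρ' ≤ 1/2 g ρ' nb ρ' ≤ 3 / 4
        have c1 : c * (P / 4) ≤ g ρ' := (mul_le_mul_of_nonneg_left p2 hc.le).trans g2
        have hy2 : 0 < nb ρ' γ' 1 := nb_pos hρ'0
        have c2 : c * (P / 4) * nb r γ' 1 ≤ g ρ' * nb ρ' γ' 1 :=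
          (mul_le_mul_of_nonneg_left m4 (by positivity)).trans (mul_le_mul_of_nonneg_right c1 hy2.le)
        linarith [b2.2]
      · rw [div_le_iff₀ hy0]
        have hy1 : 0 < nb ρ γ' 1 := nb_pos hρ0
        have c1 : g ρ ≤ C * (4 * P) := g1.trans (mul_le_mul_of_nonneg_left p1 hC.le)
        have c2 : g ρ * nb ρ γ' 1 ≤ C * (4 * P) * nb r γ' 1 :=
          (mul_le_mul_of_nonneg_right c1 hy1.le).trans (mul_le_mul_of_nonneg_left m3 (by positivity))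
        linarith [b1.1]
    filter_upwards [hinj φ ν hφ hν hlim, NTSF.limit_zeroQ hν hlim, hae] with γ h1 h2 h3
    refine ⟨h1, h2, fun u => ?_⟩
    refine (ratio_lim hc hg h3 hγ' u).congr' ?_
    filter_upwards [hev] with r hr
    rw [if_pos hr]
    show nb r γ u / nb r γ' 1 = 1 / nb r γ' 1 * vb r γ u / r
    unfold nb
    ring

/-- **the trace of a good curve determines the curve** -/
theorem goodH_eq {h : ℝ → ℝ} {γ γ' : C(unitInterval, ℂ)} (g : GoodH h γ) (g' : GoodH h γ') (ht : range γ = range γ') :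
    γ = γ' := by
  have ht' : tr γ = tr γ' := by
    ext z
    show z ∈ range γ ↔ z ∈ range γ'
    rw [ht]
  obtain ⟨φ, hφ⟩ := same_trace g.1 g'.1 (g.2.1.trans g'.2.1.symm) ht'
  ext t
  have e1 := g.2.2 t
  have e2 := g'.2.2 (φ t)
  have e3 : (fun r => h r * vb r γ t / r) = fun r => h r * vb r γ' (φ t) / r := by
    funext r
    rw [vb_comp r γ γ' φ hφ t]
  rw [e3] at e1
  have e4 : (t : ℝ) = (φ t : ℝ) := tendsto_nhds_unique e1 e2
  have e5 : t = φ t := Subtype.ext e4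
  rw [hφ t, ← e5]

/-- **the reduction theorem** -/
theorem fin_pubH (hN : HexObs.NPR.MainN) (hK : KapC) :
    (∀ φ : ℕ → ℕ, StrictMono φ → ∃ ψ : ℕ → ℕ, StrictMono ψ ∧ ∃ ν : Measure C(unitInterval, ℂ),
      IsProbabilityMeasure ν ∧ LawTo (fun k => φ (ψ k)) ν) ∧
    (∃ c C : ℝ, 0 < c ∧ 0 < C ∧ ∀ (φ : ℕ → ℕ) (ν : Measure C(unitInterval, ℂ)), Tendsto φ atTop atTop →
      IsProbabilityMeasure ν → LawTo φ ν → ∃ h : ℝ → ℝ,
        (∀ r : ℝ, 0 < r → c * r ^ (4 / 3 : ℝ) ≤ h r ∧ h r ≤ C * r ^ (4 / 3 : ℝ)) ∧ ∀ᵐ γ : C(unitInterval, ℂ) ∂ν, GoodH h γ) ∧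
    (∀ (h : ℝ → ℝ) (γ γ' : C(unitInterval, ℂ)), GoodH h γ → GoodH h γ' → range γ = range γ' → γ = γ') ∧
    ((∃ ν : Measure C(unitInterval, ℂ), IsProbabilityMeasure ν ∧ LawTo (fun n => n) ν) ↔
      ∃ μ : Measure (TopologicalSpace.NonemptyCompacts ℂ), IsProbabilityMeasure μ ∧
        ∀ f : BoundedContinuousFunction (TopologicalSpace.NonemptyCompacts ℂ) ℝ,
          Tendsto (fun n => ∫ γ, f (tr γ) ∂(law n)) atTop (𝓝 (∫ K, f K ∂μ))) ∧
    ((∃ ν : Measure C(unitInterval, ℂ), IsProbabilityMeasure ν ∧ LawTo (fun n => n) ν) ↔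
      ∀ F : Finset ℂ, F.Nonempty → ∃ S : Set ℝ, S.Countable ∧ ∀ t : ℝ, 0 < t → t ∉ S →
        ∃ l : ℝ, Tendsto (fun n => frac n F t) atTop (𝓝 l)) := by
  obtain ⟨h1, -, h3, h4⟩ := fin_pub hN
  exact ⟨h1, kapL_of hK HexObs.SIM.simple_final.2.2, fun h γ γ' g g' ht => goodH_eq g g' ht, h3, h4⟩

end Pool.Agent.NPR
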