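import Pool.Agent.NPR.KapL

/-!
# NPR, the gauge, if the laws converge (helper5)

* `Kap1 ka` : one scale, uniformly in the scale; `kap1_of` : from `KapN`;
* `one_lim` : at one scale, the limits;
* **`kapQ_of`** : if the laws converge (and the sizes vary regularly) then the gauge is `κ r ^ (4 / 3)`.
-/

set_option autoImplicit false

open Set Filter Topology MeasureTheory
open scoped ENNReal

namespace Pool.Agent.NPR

open HexObs hiding pos curve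
open HexObs.TIW HexObs.TS HexObs.SDN HexObs.NPR
open NTF (JJ JJ_norm JJ_sub JJ_neg JJ_add Hd Hd_iff sw open_le cont_eval)
open Pool.Agent.NTS.Res
open NTSF (rot om om_norm pos_rot rot_mem curve_eq)

/-- one scale, uniformly in the scale, with the gauge `ka` -/
def Kap1 (ka : ℝ → ℝ) : Prop := ∀ ε : ℝ, 0 < ε → ∃ ρ0 : ℝ, 0 < ρ0 ∧ ∀ ρ1 : ℝ, 0 < ρ1 → ∃ n0 : ℕ, ∀ n : ℕ, n0 ≤ n →
  ∀ ρ : ℝ, ρ1 ≤ ρ → ρ ≤ ρ0 → law n {γ | ε < |ka (ρ * size n) / n * nb ρ γ 1 - 1|} ≤ ENNReal.ofReal ε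

lemma bd1_rot {n : ℕ} (s : Fin n → Fin 3) (ρ ε h : ℝ) :
    curve (rot s) ∈ {γ : C(unitInterval, ℂ) | ε < |h * nb ρ γ 1 - 1|} ↔
    curve s ∈ {γ : C(unitInterval, ℂ) | ε < |h * nb ρ γ 1 - 1|} := by
  have h := vb_iso (γ := curve (rot s)) (γ' := curve s) (dist_rot s)
  simp only [mem_setOf_eq, nb, h]

/-- the bounds for the gauge, at the size of the walk -/
lemma ka_bounds {c0 C0 B : ℝ} {ka : ℝ → ℝ} (hc0 : 0 < c0) (hC0 : 0 < C0) (hB : 0 < B)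
    (hsz : ∀ n : ℕ, 1 ≤ n → c0 * (n : ℝ) ^ (3 / 4 : ℝ) ≤ size n ∧ size n ≤ C0 * (n : ℝ) ^ (3 / 4 : ℝ))
    (hka : ∀ R : ℝ, 2 ≤ R → R ^ (4 / 3 : ℝ) ≤ B * ka R ∧ ka R ≤ B * R ^ (4 / 3 : ℝ)) (n : ℕ) (ρ : ℝ) (hn : 1 ≤ n)
    (hρ : 0 < ρ) (hR : 2 ≤ ρ * size n) :
    c0 ^ (4 / 3 : ℝ) / B * ρ ^ (4 / 3 : ℝ) ≤ ka (ρ * size n) / n ∧
      ka (ρ * size n) / n ≤ B * C0 ^ (4 / 3 : ℝ) * ρ ^ (4 / 3 : ℝ) := by
  have h34 : ∀ n : ℕ, (((n : ℝ) ^ (3 / 4 : ℝ)) ^ (4 / 3 : ℝ)) = n := by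
    intro n
    rw [← Real.rpow_mul (Nat.cast_nonneg _), show (3 / 4 : ℝ) * (4 / 3) = 1 by norm_num, Real.rpow_one]
  have hn0 : (0 : ℝ) < n := by exact_mod_cast hn
  obtain ⟨h1, h2⟩ := hka _ hR
  obtain ⟨h3, h4⟩ := hsz n hn
  have hs := NTSF.size_pos hn
  have h5 : c0 ^ (4 / 3 : ℝ) * n ≤ size n ^ (4 / 3 : ℝ) := by
    have := Real.rpow_le_rpow (by positivity) h3 (show (0 : ℝ) ≤ 4 / 3 by norm_num)
    rwa [Real.mul_rpow hc0.le (by positivity), h34] at this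
  have h6 : size n ^ (4 / 3 : ℝ) ≤ C0 ^ (4 / 3 : ℝ) * n := by
    have := Real.rpow_le_rpow hs.le h4 (show (0 : ℝ) ≤ 4 / 3 by norm_num)
    rwa [Real.mul_rpow hC0.le (by positivity), h34] at this
  have hρ' : 0 < ρ ^ (4 / 3 : ℝ) := by positivity
  rw [Real.mul_rpow hρ.le hs.le] at h1 h2
  constructor
  · rw [le_div_iff₀ hn0, div_mul_eq_mul_div, div_mul_eq_mul_div, div_le_iff₀ hB]
    calc c0 ^ (4 / 3 : ℝ) * ρ ^ (4 / 3 : ℝ) * n = ρ ^ (4 / 3 : ℝ) * (c0 ^ (4 / 3 : ℝ) * n) := by ring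
      _ ≤ ρ ^ (4 / 3 : ℝ) * size n ^ (4 / 3 : ℝ) := mul_le_mul_of_nonneg_left h5 hρ'.le
      _ ≤ B * ka (ρ * size n) := h1
      _ = _ := mul_comm _ _
  · rw [div_le_iff₀ hn0]
    refine h2.trans ?_
    calc B * (ρ ^ (4 / 3 : ℝ) * size n ^ (4 / 3 : ℝ)) ≤ B * (ρ ^ (4 / 3 : ℝ) * (C0 ^ (4 / 3 : ℝ) * n)) := by gcongr
      _ = _ := by ring

/-- **one scale, from the words** -/
theorem kap1_of (hE : NTSF.ConclE False) {ka : ℝ → ℝ} {B : ℝ} (hB : 0 < B)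
    (hka : ∀ R : ℝ, 2 ≤ R → R ^ (4 / 3 : ℝ) ≤ B * ka R ∧ ka R ≤ B * R ^ (4 / 3 : ℝ))
    (hN : ∀ (J : ℕ) (ε : ℝ), 0 < ε → ∃ (D : ℝ) (n0 : ℕ), 0 < D ∧ ∀ (n : ℕ) (Rs : ℕ → ℕ → ℝ), n0 ≤ n →
      (∀ l j, j < J → 2 ^ l ≤ Rs l j ∧ Rs l j ≤ 2 ^ (l + 1)) →
      TOG.Pn n {t | ∃ l j, 1 ≤ l ∧ j < J ∧ D * Rs l j ≤ (n : ℝ) ^ (3 / 4 : ℝ) ∧ ¬ ∀ x y : ℕ, x ≤ y → y ≤ t.length →
        |ka (Rs l j) * Vm (Rs l j) (wd t x y) - ((y : ℝ) - x)| ≤ ε * n} ≤ ε) : Kap1 ka := by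
  classical
  intro ε hε
  obtain ⟨c0, C0, hc0, hsz, -, hhol, -⟩ := hE
  have hC0 : 0 < C0 := by
    have h1 := (hsz 1 le_rfl).2
    have h2 := NTSF.size_pos (n := 1) le_rfl
    rw [Nat.cast_one, Real.one_rpow, mul_one] at h1
    linarith
  have hka0 : ∀ R : ℝ, 2 ≤ R → 0 < ka R := by
    intro R hR
    have h1 := (hka R hR).1
    have h2 : (0 : ℝ) < R ^ (4 / 3 : ℝ) := Real.rpow_pos_of_pos (by linarith) _
    by_contra hcon
    rw [not_lt] at hcon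
    nlinarith
  obtain ⟨e, he⟩ : ∃ e, e = min (ε / 3) (1 / 6) := ⟨_, rfl⟩
  have he0 : 0 < e := by
    rw [he]
    exact lt_min (by positivity) (by norm_num)
  have he1 : e ≤ ε / 3 := by
    rw [he]
    exact min_le_left _ _
  have he2 : e ≤ 1 / 6 := by
    rw [he]
    exact min_le_right _ _
  obtain ⟨D, n1, hD, hN⟩ := hN 1 e he0
  obtain ⟨M, hM⟩ := hhol (1 / 2) (by norm_num) (by norm_num) (ε / 2) (by positivity)
  refine ⟨1 / (D * C0), by positivity, fun ρ1 hρ1 => ?_⟩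
  obtain ⟨N, hNN⟩ : ∃ N : ℕ, N = ⌈((M : ℝ) / (ρ1 / 2)) ^ 2⌉₊ + 1 := ⟨_, rfl⟩
  obtain ⟨S, hS⟩ : ∃ S : ℝ, S = max (4 / ρ1) (4 * N / (e * ρ1)) := ⟨_, rfl⟩
  have ht : Tendsto (fun n : ℕ => (n : ℝ) ^ (3 / 4 : ℝ)) atTop atTop :=
    (tendsto_rpow_atTop (by norm_num)).comp tendsto_natCast_atTop_atTop
  obtain ⟨n0, hn0⟩ := Filter.eventually_atTop.1 (((ht.eventually_ge_atTop (S / c0)).and
    (eventually_ge_atTop (max n1 1))).and ((tendsto_natCast_atTop_atTop (R := ℝ)).eventually_ge_atTop (1 / e)))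
  refine ⟨n0, fun n hn ρ hi1 hi2 => ?_⟩
  obtain ⟨⟨h1, h2⟩, h3⟩ := hn0 n hn
  have hnn1 : n1 ≤ n := le_of_max_le_left h2
  have hn1 : 1 ≤ n := le_of_max_le_right h2
  have hn0' : (0 : ℝ) < n := by exact_mod_cast hn1
  have hs := NTSF.size_pos hn1
  have hρ : 0 < ρ := hρ1.trans_le hi1
  have hen : 1 ≤ e * n := by
    rw [div_le_iff₀ he0] at h3
    linarith
  have hSn : S ≤ size n := by
    rw [div_le_iff₀ hc0] at h1
    have := (hsz n hn1).1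
    linarith
  have hs4 : 4 ≤ ρ1 * size n := by
    have : 4 / ρ1 ≤ size n := (by rw [hS]; exact le_max_left _ _ : 4 / ρ1 ≤ S).trans hSn
    rw [div_le_iff₀ hρ1] at this
    linarith
  have hsN : 4 * N ≤ e * ρ1 * size n := by
    have : 4 * N / (e * ρ1) ≤ size n := (by rw [hS]; exact le_max_right _ _ : 4 * N / (e * ρ1) ≤ S).trans hSn
    rw [div_le_iff₀ (by positivity)] at this
    linarith
  have hR4 : 4 ≤ ρ * size n := hs4.trans (mul_le_mul_of_nonneg_right hi1 hs.le)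
  -- the radii
  obtain ⟨l, hl1, hl2⟩ := exists_nat_pow_near (y := (2 : ℝ)) (x := ρ * size n) (by linarith) (by norm_num)
  have hl0 : 1 ≤ l := by
    by_contra hcon
    have : l = 0 := by omega
    rw [this] at hl2
    norm_num at hl2
    linarith
  obtain ⟨Rs, hRs⟩ : ∃ Rs : ℕ → ℕ → ℝ, Rs = fun l' _ => if l' = l then ρ * size n else 2 ^ l' := ⟨_, rfl⟩
  have hRsl : Rs l 0 = ρ * size n := by
    rw [hRs]
    exact if_pos rfl
  have hP := hN n Rs hnn1 (fun l' j _ => by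
    rw [hRs]
    by_cases h9 : l' = l
    · simp only [if_pos h9]
      rw [h9]
      exact ⟨hl1, hl2.le⟩
    · simp only [if_neg h9]
      exact ⟨le_rfl, pow_le_pow_right₀ (by norm_num) (by omega)⟩)
  obtain ⟨X, hX⟩ : ∃ X : Set (List Bool), X = {t | ∃ l j, 1 ≤ l ∧ j < 1 ∧ D * Rs l j ≤ (n : ℝ) ^ (3 / 4 : ℝ) ∧
    ¬ ∀ x y : ℕ, x ≤ y → y ≤ t.length → |ka (Rs l j) * Vm (Rs l j) (wd t x y) - ((y : ℝ) - x)| ≤ e * n} := ⟨_, rfl⟩
  rw [← hX] at hP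
  obtain ⟨G, hG⟩ : ∃ G : Set C(unitInterval, ℂ), G = {γ : C(unitInterval, ℂ) |
    ε < |ka (ρ * size n) / n * nb ρ γ 1 - 1|} := ⟨_, rfl⟩
  rw [← hG]
  -- the two parts
  have hsub : G ⊆ {γ : C(unitInterval, ℂ) | ¬ HolderWith M (1 / 2) γ} ∪
      {γ : C(unitInterval, ℂ) | γ ∈ G ∧ Hd M (1 / 2) γ} := by
    intro γ hγ
    by_cases h : HolderWith M (1 / 2) γ
    · right
      have h9 := Hd_iff.1 h
      refine ⟨hγ, ?_⟩
      have e9 : (((1 / 2 : NNReal)) : ℝ) = 1 / 2 := by norm_num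
      rwa [e9] at h9
    · left
      exact h
  refine (measure_mono hsub).trans ((measure_union_le _ _).trans ?_)
  have hε2 : ENNReal.ofReal ε = ENNReal.ofReal (ε / 2) + ENNReal.ofReal (ε / 2) := by
    rw [← ENNReal.ofReal_add (by positivity) (by positivity)]
    congr 1
    ring
  rw [hε2]
  refine add_le_add (hM n hn1) (NTSF.law_le (by positivity) ?_)
  obtain ⟨P, hPd⟩ : ∃ P : (Fin n → Fin 3) → Prop, P = fun s => curve s ∈ G ∧ Hd M (1 / 2) (curve s) := ⟨_, rfl⟩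
  have hPr : ∀ s, P (rot s) ↔ P s := by
    intro s
    rw [hPd, hG]
    exact and_congr (bd1_rot s ρ ε _) (hd_rot s M (1 / 2))
  have c1 := NTSF.card_saw (n := n) hn1 P hPr
  have c2 : 2 * (saw n).card = 3 * cS n := by
    have := NTSF.card_saw (n := n) hn1 (fun _ => True) (fun _ => Iff.rfl)
    rw [Finset.filter_true_of_mem (fun _ _ => trivial)] at this
    rw [this]
    congr 2
    ext t
    exact ⟨fun h => h.1, fun h => ⟨h, trivial⟩⟩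
  have c3 : {t | t ∈ SawN n ∧ P (sw n t)}.ncard ≤ {t | t ∈ SawN n ∧ t ∈ X}.ncard := by
    refine Set.ncard_le_ncard ?_ ((List.finite_length_eq Bool n).subset fun t h => h.1.1)
    rintro t ⟨h4, h5⟩
    refine ⟨h4, ?_⟩
    rw [hX]
    by_contra h6
    rw [hPd] at h5
    obtain ⟨h5, h7⟩ := h5
    rw [hG] at h5
    have hv : ε < |ka (ρ * size n) / n * nb ρ (curve (sw n t)) 1 - 1| := h5
    have htl : t.length = n := h4.1
    have hDR : D * Rs l 0 ≤ (n : ℝ) ^ (3 / 4 : ℝ) := by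
      rw [hRsl]
      rw [le_div_iff₀ (by positivity)] at hi2
      have h8 := (hsz n hn1).2
      calc D * (ρ * size n) ≤ D * (ρ * (C0 * (n : ℝ) ^ (3 / 4 : ℝ))) := by gcongr
        _ = (ρ * (D * C0)) * (n : ℝ) ^ (3 / 4 : ℝ) := by ring
        _ ≤ 1 * (n : ℝ) ^ (3 / 4 : ℝ) := mul_le_mul_of_nonneg_right hi2 (by positivity)
        _ = _ := one_mul _
    have hall : ∀ x y : ℕ, x ≤ y → y ≤ t.length →
        |ka (Rs l 0) * Vm (Rs l 0) (wd t x y) - ((y : ℝ) - x)| ≤ e * n := by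
      by_contra hcon
      exact h6 ⟨l, 0, hl0, Nat.one_pos, hDR, hcon⟩
    rw [hRsl] at hall
    refine absurd ?_ (not_le.2 hv)
    have hR2 : 2 ≤ ρ * size n := by linarith
    have hfin : |ka (ρ * size n) / n * (vb ρ (curve (sw n t)) 1 / ρ) - ((1 : unitInterval) : ℝ)| ≤ 3 * e → 
        |ka (ρ * size n) / n * nb ρ (curve (sw n t)) 1 - 1| ≤ ε := by
      intro h9
      rw [Set.Icc.coe_one] at h9
      exact h9.trans (by linarith)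
    refine hfin (clk_abs hn1 htl hρ hR2 he0 he2 (hka0 _ hR2) hen (fun k hk => ?_) ?_ 1)
    · have := hall 0 k (Nat.zero_le _) (by omega)
      rwa [Nat.cast_zero, sub_zero, show wd t 0 k = t.take k from rfl] at this
    · -- the boundary term
      have h8 := hd_pcs (γ := curve (sw n t)) (M := M) (s := ρ1 / 2) (NNReal.coe_nonneg M) (by positivity) h7
      have h9 := Vz_le_pcs hn1 (sw n t) (v := 1) (σ := ρ1 / 2) le_rfl (by positivity) (by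
        rw [div_self hn0'.ne']
        exact le_rfl)
      have hρs : ρ1 * size n ≤ ρ * size n := mul_le_mul_of_nonneg_right hi1 hs.le
      have h10 := Vz_anti (x := ρ1 / 2 * size n + 2) (x' := ρ * size n) (z := fun j => pos (sw n t) j) (a := 0)
        (b := n) (by linarith) (by linarith) (Nat.zero_le _) (pos_step1 le_rfl)
      have h11 : Vz (ρ * size n) (fun j => pos (sw n t) j) 0 n ≤ N := by
        rw [hNN]
        exact h10.trans (h9.trans h8)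
      have h12 : (Vz (ρ * size n) (fun j => pos (sw n t) j) 0 n : ℝ) ≤ N := by exact_mod_cast h11
      have h13 : e * ρ1 * size n ≤ e * ρ * size n := by gcongr
      rw [div_mul_eq_mul_div, div_le_iff₀ hs]
      linarith
  have c4 : ({t | t ∈ SawN n ∧ t ∈ X}.ncard : ℝ) ≤ e * cS n := by
    have h4 : (0 : ℝ) < cS n := by
      have h5 : 0 < (saw n).card := (NTSF.saw_nonempty n).card_pos
      have h6 : 0 < cS n := by omega
      exact_mod_cast h6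
    have h5 : ({t | t ∈ SawN n ∧ t ∈ X}.ncard : ℝ) / cS n ≤ e := hP
    rwa [div_le_iff₀ h4] at h5
  have c5 : (((saw n).filter P).card : ℝ) ≤ ε / 2 * ((saw n).card : ℝ) := by
    have d1 : (2 : ℝ) * (((saw n).filter P).card : ℝ) = 3 * ({t | t ∈ SawN n ∧ P (sw n t)}.ncard : ℝ) := by
      exact_mod_cast c1
    have d2 : (2 : ℝ) * ((saw n).card : ℝ) = 3 * (cS n : ℝ) := by exact_mod_cast c2
    have d3 : ({t | t ∈ SawN n ∧ P (sw n t)}.ncard : ℝ) ≤ ({t | t ∈ SawN n ∧ t ∈ X}.ncard : ℝ) := by exact_mod_cast c3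
    have d4 : (0 : ℝ) ≤ cS n := Nat.cast_nonneg _
    have d5 : e * (cS n : ℝ) ≤ ε / 2 * cS n := mul_le_mul_of_nonneg_right (by linarith) d4
    have d6 : ε / 2 * (2 * ((saw n).card : ℝ)) = ε / 2 * (3 * (cS n : ℝ)) := by rw [d2]
    linarith
  refine le_trans (le_of_eq ?_) c5
  rw [hPd]
  congr 2

/-! ### one scale, the limits -/

lemma nb_cont {ρ : ℝ} (hρ : 0 < ρ) (u : unitInterval) : Continuous fun γ : C(unitInterval, ℂ) => nb ρ γ u :=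
  (vb_cont hρ u).div_const _

/-- from the right -/
lemma nb_right {ρ : ℝ} (hρ : 0 < ρ) (γ : C(unitInterval, ℂ)) (u : unitInterval) {a : ℝ} (ha : a < nb ρ γ u) :
    ∃ m : ℕ, a < nb (ρ * (1 + 1 / ((m : ℝ) + 2))) γ u := by
  have hP0 : (0 : ℝ) ≤ pcs ρ γ 0 u := Nat.cast_nonneg _
  have ht : Tendsto (fun m : ℕ => (nb ρ γ u - 1 / ((m : ℝ) + 2) * pcs ρ γ 0 u) / (1 + 1 / ((m : ℝ) + 2))) atTop
      (𝓝 ((nb ρ γ u - 0 * pcs ρ γ 0 u) / (1 + 0))) := by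
    have h1 : Tendsto (fun m : ℕ => 1 / ((m : ℝ) + 2)) atTop (𝓝 0) := by
      have h2 : Tendsto (fun m : ℕ => (m : ℝ) + 2) atTop atTop :=
        tendsto_atTop_add_const_right _ _ tendsto_natCast_atTop_atTop
      exact (tendsto_inv_atTop_zero.comp h2).congr fun m => by simp [one_div]
    exact (tendsto_const_nhds.sub (h1.mul_const _)).div (tendsto_const_nhds.add h1) (by norm_num)
  rw [zero_mul, sub_zero, add_zero, div_one] at ht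
  obtain ⟨m, hm⟩ := (ht.eventually (lt_mem_nhds ha)).exists
  refine ⟨m, hm.trans_le ?_⟩
  obtain ⟨d, hd⟩ : ∃ d : ℝ, d = 1 / ((m : ℝ) + 2) := ⟨_, rfl⟩
  have hd0 : 0 < d := by
    rw [hd]
    positivity
  have hd1 : d ≤ 1 := by
    rw [hd, div_le_one (by positivity)]
    have : (0 : ℝ) ≤ m := Nat.cast_nonneg _
    linarith
  rw [← hd]
  rw [div_le_iff₀ (by linarith)]
  have h3 := nb_low (γ := γ) (u := u) (r := ρ * (1 + d)) hρ (by nlinarith) (by nlinarith)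
  have h4 : ρ * (nb ρ γ u - d * pcs ρ γ 0 u) ≤ ρ * (nb (ρ * (1 + d)) γ u * (1 + d)) := by
    have e1 : ρ * (nb ρ γ u - d * pcs ρ γ 0 u) = ρ * nb ρ γ u - (ρ * (1 + d) - ρ) * pcs ρ γ 0 u := by ring
    have e2 : ρ * (nb (ρ * (1 + d)) γ u * (1 + d)) = ρ * (1 + d) * nb (ρ * (1 + d)) γ u := by ring
    rw [e1, e2]
    exact h3
  exact le_of_mul_le_mul_left h4 hρ

/-- from the left -/
lemma nb_left {ρ : ℝ} (hρ : 0 < ρ) (γ : C(unitInterval, ℂ)) (u : unitInterval) {a : ℝ} (ha : nb ρ γ u < a) :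
    ∃ m : ℕ, nb (ρ * (1 - 1 / ((m : ℝ) + 2))) γ u < a := by
  have hP0 : (0 : ℝ) ≤ pcs (ρ / 2) γ 0 u := Nat.cast_nonneg _
  have ht : Tendsto (fun m : ℕ => (nb ρ γ u + 1 / ((m : ℝ) + 2) * pcs (ρ / 2) γ 0 u) / (1 - 1 / ((m : ℝ) + 2))) atTop
      (𝓝 ((nb ρ γ u + 0 * pcs (ρ / 2) γ 0 u) / (1 - 0))) := by
    have h1 : Tendsto (fun m : ℕ => 1 / ((m : ℝ) + 2)) atTop (𝓝 0) := by
      have h2 : Tendsto (fun m : ℕ => (m : ℝ) + 2) atTop atTop :=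
        tendsto_atTop_add_const_right _ _ tendsto_natCast_atTop_atTop
      exact (tendsto_inv_atTop_zero.comp h2).congr fun m => by simp [one_div]
    exact (tendsto_const_nhds.add (h1.mul_const _)).div (tendsto_const_nhds.sub h1) (by norm_num)
  rw [zero_mul, add_zero, sub_zero, div_one] at ht
  obtain ⟨m, hm⟩ := (ht.eventually (gt_mem_nhds ha)).exists
  refine ⟨m, lt_of_le_of_lt ?_ hm⟩
  obtain ⟨d, hd⟩ : ∃ d : ℝ, d = 1 / ((m : ℝ) + 2) := ⟨_, rfl⟩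
  have hd0 : 0 < d := by
    rw [hd]
    positivity
  have hd1 : d ≤ 1 / 2 := by
    rw [hd]
    have : (0 : ℝ) ≤ m := Nat.cast_nonneg _
    exact one_div_le_one_div_of_le (by norm_num) (by linarith)
  rw [← hd]
  rw [le_div_iff₀ (by linarith)]
  have hr : 0 < ρ * (1 - d) := mul_pos hρ (by linarith)
  have h3 := nb_low (γ := γ) (u := u) (r := ρ) (r' := ρ * (1 - d)) hr (by nlinarith) (by nlinarith)
  have h5 : (pcs (ρ * (1 - d)) γ 0 u : ℝ) ≤ pcs (ρ / 2) γ 0 u := by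
    exact_mod_cast pcs_anti (by linarith : 0 < ρ / 2) (by nlinarith) γ (a := 0) (b := u) u.2.1
  have h6 : ρ * d * (pcs (ρ * (1 - d)) γ 0 u : ℝ) ≤ ρ * d * pcs (ρ / 2) γ 0 u :=
    mul_le_mul_of_nonneg_left h5 (by positivity)
  have h4 : ρ * (nb (ρ * (1 - d)) γ u * (1 - d)) ≤ ρ * (nb ρ γ u + d * pcs (ρ / 2) γ 0 u) := by
    have e1 : ρ * (nb (ρ * (1 - d)) γ u * (1 - d)) = ρ * (1 - d) * nb (ρ * (1 - d)) γ u := by ring
    have e2 : ρ * (nb ρ γ u + d * pcs (ρ / 2) γ 0 u) = ρ * nb ρ γ u + ρ * d * pcs (ρ / 2) γ 0 u := by ring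
    have e3 : (ρ - ρ * (1 - d)) * (pcs (ρ * (1 - d)) γ 0 u : ℝ) = ρ * d * (pcs (ρ * (1 - d)) γ 0 u : ℝ) := by ring
    rw [e1, e2]
    rw [e3] at h3
    linarith
  exact le_of_mul_le_mul_left h4 hρ

lemma frq {U : Ultrafilter ℕ} (hU : (U : Filter ℕ) ≤ atTop) {φ : ℕ → ℕ} {ν : Measure C(unitInterval, ℂ)}
    (hν : IsProbabilityMeasure ν) (hlim : LawTo φ ν) {S : Set C(unitInterval, ℂ)} (hS : IsOpen S) {ε : ℝ≥0∞}
    (h : ∀ᶠ k in (U : Filter ℕ), law (φ k) S ≤ ε) : ν S ≤ ε := by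
  have hfr : ∃ᶠ k in atTop, law (φ k) S ≤ ε := h.frequently.filter_mono hU
  obtain ⟨ψ, hψ, hψ2⟩ := extraction_of_frequently_atTop hfr
  have hlim2 := (NTSF.lawTo_iff ⟨ν, hν⟩).1 hlim
  exact open_le (hlim2.comp hψ.tendsto_atTop) hS (Eventually.of_forall fun k => hψ2 k)

/-- **one scale, the limit** -/
theorem one_lim {U : Ultrafilter ℕ} (hU : (U : Filter ℕ) ≤ atTop) {φ : ℕ → ℕ} {ν : Measure C(unitInterval, ℂ)}
    (hν : IsProbabilityMeasure ν) (hlim : LawTo φ ν) {ρ A ε : ℝ} (hρ : 0 < ρ) (hA : 0 < A) (hε : 0 < ε) {a b : ℕ → ℝ}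
    (ha : Tendsto a U (𝓝 A)) (hb : Tendsto b U (𝓝 ρ))
    (hl : ∀ᶠ k in (U : Filter ℕ), law (φ k) {γ | ε < |a k * nb (b k) γ 1 - 1|} ≤ ENNReal.ofReal ε) :
    ν {γ | 1 + 2 * ε < A * nb ρ γ 1} ≤ ENNReal.ofReal ε ∧ ν {γ | A * nb ρ γ 1 < 1 - 2 * ε} ≤ ENNReal.ofReal ε := by
  constructor
  · have h1 : ∀ m : ℕ, ν {γ | 1 + 2 * ε < A * nb (ρ * (1 + 1 / ((m : ℝ) + 2))) γ 1} ≤ ENNReal.ofReal ε := by
      intro m
      obtain ⟨d, hd⟩ : ∃ d : ℝ, d = 1 / ((m : ℝ) + 2) := ⟨_, rfl⟩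
      have hd0 : 0 < d := by
        rw [hd]
        positivity
      rw [← hd]
      have hr : 0 < ρ * (1 + d) := by positivity
      refine frq hU hν hlim (isOpen_lt continuous_const (continuous_const.mul (nb_cont hr 1))) ?_
      have h2 : A * (1 + ε) / (1 + 2 * ε) < A := by
        rw [div_lt_iff₀ (by linarith)]
        nlinarith
      filter_upwards [hl, ha.eventually (lt_mem_nhds h2), hb.eventually (gt_mem_nhds (show ρ < ρ * (1 + d) by nlinarith)),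
        hb.eventually (lt_mem_nhds hρ)] with k k1 k2 k3 k4
      refine (measure_mono fun γ hγ => ?_).trans k1
      have hγ' : 1 + 2 * ε < A * nb (ρ * (1 + d)) γ 1 := hγ
      show ε < |a k * nb (b k) γ 1 - 1|
      have h3 := nb_anti (γ := γ) (u := 1) k4 k3.le
      have h4 : 0 < nb (ρ * (1 + d)) γ 1 := nb_pos hr
      have h5 : 0 < a k := lt_trans (by positivity) k2
      have h6 : a k * nb (ρ * (1 + d)) γ 1 ≤ a k * nb (b k) γ 1 := mul_le_mul_of_nonneg_left h3 h5.le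
      have h7 : A * (1 + ε) / (1 + 2 * ε) * nb (ρ * (1 + d)) γ 1 < a k * nb (ρ * (1 + d)) γ 1 :=
        mul_lt_mul_of_pos_right k2 h4
      have h8 : 1 + ε < A * (1 + ε) / (1 + 2 * ε) * nb (ρ * (1 + d)) γ 1 := by
        have e : A * (1 + ε) / (1 + 2 * ε) * nb (ρ * (1 + d)) γ 1 = (1 + ε) * (A * nb (ρ * (1 + d)) γ 1) / (1 + 2 * ε) := by
          ring
        rw [e, lt_div_iff₀ (by linarith)]
        exact mul_lt_mul_of_pos_left hγ' (by linarith)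
      refine lt_of_lt_of_le ?_ (le_abs_self _)
      linarith
    have hmono : Monotone fun m : ℕ => {γ : C(unitInterval, ℂ) | 1 + 2 * ε < A * nb (ρ * (1 + 1 / ((m : ℝ) + 2))) γ 1} := by
      intro m m' hm γ hγ
      have hγ' : 1 + 2 * ε < A * nb (ρ * (1 + 1 / ((m : ℝ) + 2))) γ 1 := hγ
      show 1 + 2 * ε < A * nb (ρ * (1 + 1 / ((m' : ℝ) + 2))) γ 1
      refine hγ'.trans_le (mul_le_mul_of_nonneg_left (nb_anti (by positivity) ?_) hA.le)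
      have hmm : (m : ℝ) ≤ m' := by exact_mod_cast hm
      have : 1 / ((m' : ℝ) + 2) ≤ 1 / ((m : ℝ) + 2) := one_div_le_one_div_of_le (by positivity) (by linarith)
      exact mul_le_mul_of_nonneg_left (by linarith) hρ.le
    have hsub : {γ : C(unitInterval, ℂ) | 1 + 2 * ε < A * nb ρ γ 1} ⊆
        ⋃ m : ℕ, {γ | 1 + 2 * ε < A * nb (ρ * (1 + 1 / ((m : ℝ) + 2))) γ 1} := by
      intro γ hγ
      have hγ' : 1 + 2 * ε < A * nb ρ γ 1 := hγ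
      have h2 : (1 + 2 * ε) / A < nb ρ γ 1 := by
        rw [div_lt_iff₀ hA]
        linarith
      obtain ⟨m, hm⟩ := nb_right hρ γ 1 h2
      rw [div_lt_iff₀ hA] at hm
      rw [mem_iUnion]
      refine ⟨m, ?_⟩
      show 1 + 2 * ε < A * nb (ρ * (1 + 1 / ((m : ℝ) + 2))) γ 1
      linarith
    refine (measure_mono hsub).trans ?_
    rw [hmono.measure_iUnion]
    exact iSup_le h1
  · have h1 : ∀ m : ℕ, ν {γ | A * nb (ρ * (1 - 1 / ((m : ℝ) + 2))) γ 1 < 1 - 2 * ε} ≤ ENNReal.ofReal ε := by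
      intro m
      obtain ⟨d, hd⟩ : ∃ d : ℝ, d = 1 / ((m : ℝ) + 2) := ⟨_, rfl⟩
      have hd0 : 0 < d := by
        rw [hd]
        positivity
      have hd1 : d ≤ 1 / 2 := by
        rw [hd]
        have : (0 : ℝ) ≤ m := Nat.cast_nonneg _
        exact one_div_le_one_div_of_le (by norm_num) (by linarith)
      rw [← hd]
      have hr : 0 < ρ * (1 - d) := mul_pos hρ (by linarith)
      refine frq hU hν hlim (isOpen_lt (continuous_const.mul (nb_cont hr 1)) continuous_const) ?_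
      filter_upwards [hl, ha.eventually (gt_mem_nhds (show A < A * (1 + ε) by nlinarith)),
        hb.eventually (lt_mem_nhds (show ρ * (1 - d) < ρ by nlinarith)), ha.eventually (lt_mem_nhds hA)] with k k1 k2 k3 k4
      refine (measure_mono fun γ hγ => ?_).trans k1
      have hγ' : A * nb (ρ * (1 - d)) γ 1 < 1 - 2 * ε := hγ
      show ε < |a k * nb (b k) γ 1 - 1|
      have h3 := nb_anti (γ := γ) (u := 1) hr k3.le
      have h4 : 0 < nb (ρ * (1 - d)) γ 1 := nb_pos hr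
      have h6 : a k * nb (b k) γ 1 ≤ a k * nb (ρ * (1 - d)) γ 1 := mul_le_mul_of_nonneg_left h3 k4.le
      have h7 : a k * nb (ρ * (1 - d)) γ 1 < A * (1 + ε) * nb (ρ * (1 - d)) γ 1 := mul_lt_mul_of_pos_right k2 h4
      have h8 : A * (1 + ε) * nb (ρ * (1 - d)) γ 1 ≤ (1 + ε) * (1 - 2 * ε) := by
        have e : A * (1 + ε) * nb (ρ * (1 - d)) γ 1 = (1 + ε) * (A * nb (ρ * (1 - d)) γ 1) := by ring
        rw [e]
        exact mul_le_mul_of_nonneg_left hγ'.le (by linarith)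
      have h9 : (1 + ε) * (1 - 2 * ε) ≤ 1 - ε := by nlinarith [mul_pos hε hε]
      refine lt_of_lt_of_le ?_ (neg_le_abs _)
      linarith
    have hmono : Monotone fun m : ℕ => {γ : C(unitInterval, ℂ) | A * nb (ρ * (1 - 1 / ((m : ℝ) + 2))) γ 1 < 1 - 2 * ε} := by
      intro m m' hm γ hγ
      have hγ' : A * nb (ρ * (1 - 1 / ((m : ℝ) + 2))) γ 1 < 1 - 2 * ε := hγ
      show A * nb (ρ * (1 - 1 / ((m' : ℝ) + 2))) γ 1 < 1 - 2 * ε
      have hmm : (m : ℝ) ≤ m' := by exact_mod_cast hm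
      have hm0 : (0 : ℝ) ≤ m := Nat.cast_nonneg _
      have h3 : 1 / ((m : ℝ) + 2) ≤ 1 / 2 := one_div_le_one_div_of_le (by norm_num) (by linarith)
      refine (mul_le_mul_of_nonneg_left (nb_anti (mul_pos hρ (by linarith)) ?_) hA.le).trans_lt hγ'
      have : 1 / ((m' : ℝ) + 2) ≤ 1 / ((m : ℝ) + 2) := one_div_le_one_div_of_le (by positivity) (by linarith)
      exact mul_le_mul_of_nonneg_left (by linarith) hρ.le
    have hsub : {γ : C(unitInterval, ℂ) | A * nb ρ γ 1 < 1 - 2 * ε} ⊆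
        ⋃ m : ℕ, {γ | A * nb (ρ * (1 - 1 / ((m : ℝ) + 2))) γ 1 < 1 - 2 * ε} := by
      intro γ hγ
      have hγ' : A * nb ρ γ 1 < 1 - 2 * ε := hγ
      have h2 : nb ρ γ 1 < (1 - 2 * ε) / A := by
        rw [lt_div_iff₀ hA]
        linarith
      obtain ⟨m, hm⟩ := nb_left hρ γ 1 h2
      rw [lt_div_iff₀ hA] at hm
      rw [mem_iUnion]
      refine ⟨m, ?_⟩
      show A * nb (ρ * (1 - 1 / ((m : ℝ) + 2))) γ 1 < 1 - 2 * ε
      linarith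
    refine (measure_mono hsub).trans ?_
    rw [hmono.measure_iUnion]
    exact iSup_le h1

/-- two gauges at the same scale are near -/
lemma two_near {ν : Measure C(unitInterval, ℂ)} (hν : IsProbabilityMeasure ν) {ρ A A' ε : ℝ} (hρ : 0 < ρ) (hA : 0 < A)
    (hε : 0 < ε) (hε1 : ε ≤ 1 / 8)
    (h1 : ν {γ | 1 + 2 * ε < A * nb ρ γ 1} ≤ ENNReal.ofReal ε) (h2 : ν {γ | A * nb ρ γ 1 < 1 - 2 * ε} ≤ ENNReal.ofReal ε)
    (h3 : ν {γ | 1 + 2 * ε < A' * nb ρ γ 1} ≤ ENNReal.ofReal ε)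
    (h4 : ν {γ | A' * nb ρ γ 1 < 1 - 2 * ε} ≤ ENNReal.ofReal ε) : |A' - A| ≤ 8 * ε * A := by
  obtain ⟨γ, hγ⟩ : ∃ γ : C(unitInterval, ℂ), γ ∉ ({γ | 1 + 2 * ε < A * nb ρ γ 1} ∪ {γ | A * nb ρ γ 1 < 1 - 2 * ε}) ∪
      ({γ | 1 + 2 * ε < A' * nb ρ γ 1} ∪ {γ | A' * nb ρ γ 1 < 1 - 2 * ε}) := by
    by_contra hcon
    push Not at hcon
    have h5 : (Set.univ : Set C(unitInterval, ℂ)) ⊆
        ({γ | 1 + 2 * ε < A * nb ρ γ 1} ∪ {γ | A * nb ρ γ 1 < 1 - 2 * ε}) ∪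
        ({γ | 1 + 2 * ε < A' * nb ρ γ 1} ∪ {γ | A' * nb ρ γ 1 < 1 - 2 * ε}) := fun γ _ => hcon γ
    have h6 := measure_mono (μ := ν) h5
    rw [measure_univ] at h6
    have h7 := h6.trans ((measure_union_le _ _).trans
      (add_le_add ((measure_union_le _ _).trans (add_le_add h1 h2)) ((measure_union_le _ _).trans (add_le_add h3 h4))))
    rw [← ENNReal.ofReal_add hε.le hε.le, ← ENNReal.ofReal_add (by linarith) (by linarith),
      ← ENNReal.ofReal_one, ENNReal.ofReal_le_ofReal_iff (by linarith)] at h7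
    linarith
  simp only [mem_union, mem_setOf_eq, not_or, not_lt] at hγ
  obtain ⟨⟨k1, k2⟩, k3, k4⟩ := hγ
  obtain ⟨N, hN⟩ : ∃ N, N = nb ρ γ 1 := ⟨_, rfl⟩
  have hN0 : 0 < N := by
    rw [hN]
    exact nb_pos hρ
  rw [← hN] at k1 k2 k3 k4
  have k5 : |A' * N - A * N| ≤ 4 * ε := by
    rw [abs_le]
    constructor <;> linarith
  rw [← sub_mul, abs_mul, abs_of_pos hN0] at k5
  have k6 : |A' - A| * N ≤ 8 * ε * A * N := by
    have : 4 * ε ≤ 8 * ε * (A * N) := by nlinarith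
    linarith
  exact le_of_mul_le_mul_right k6 hN0

/-! ### the gauge, if the laws converge -/

lemma hyp_le : ((hyperfilter ℕ : Ultrafilter ℕ) : Filter ℕ) ≤ atTop := Nat.hyperfilter_le_atTop

/-- the gauge along the ultrafilter -/
lemma g_exists {c C : ℝ} {ka : ℝ → ℝ}
    (hb : ∀ (n : ℕ) (ρ : ℝ), 1 ≤ n → 0 < ρ → 2 ≤ ρ * size n →
      c * ρ ^ (4 / 3 : ℝ) ≤ ka (ρ * size n) / n ∧ ka (ρ * size n) / n ≤ C * ρ ^ (4 / 3 : ℝ)) :
    ∃ g : ℝ → ℝ, ∀ ρ : ℝ, 0 < ρ → (c * ρ ^ (4 / 3 : ℝ) ≤ g ρ ∧ g ρ ≤ C * ρ ^ (4 / 3 : ℝ)) ∧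
      Tendsto (fun n : ℕ => ka (ρ * size n) / n) (hyperfilter ℕ : Ultrafilter ℕ) (𝓝 (g ρ)) := by
  have hex : ∀ ρ : ℝ, ∃ x : ℝ, 0 < ρ → (c * ρ ^ (4 / 3 : ℝ) ≤ x ∧ x ≤ C * ρ ^ (4 / 3 : ℝ)) ∧
      Tendsto (fun n : ℕ => ka (ρ * size n) / n) (hyperfilter ℕ : Ultrafilter ℕ) (𝓝 x) := by
    intro ρ
    by_cases hρ : 0 < ρ
    · have hev : ∀ᶠ n : ℕ in atTop, ka (ρ * size n) / n ∈ Icc (c * ρ ^ (4 / 3 : ℝ)) (C * ρ ^ (4 / 3 : ℝ)) := by
        filter_upwards [eventually_ge_atTop 1, size_top.eventually_ge_atTop (2 / ρ)] with k h1 h2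
        refine hb _ _ h1 hρ ?_
        rw [div_le_iff₀ hρ] at h2
        linarith
      obtain ⟨x, hx, hx2⟩ := (isCompact_Icc (a := c * ρ ^ (4 / 3 : ℝ)) (b := C * ρ ^ (4 / 3 : ℝ))).ultrafilter_le_nhds
        ((hyperfilter ℕ).map fun n : ℕ => ka (ρ * size n) / n) (le_principal_iff.2 (hyp_le hev))
      exact ⟨x, fun _ => ⟨hx, hx2⟩⟩
    · exact ⟨0, fun h1 => absurd h1 hρ⟩
  choose g hg using hex
  exact ⟨g, hg⟩

/-- one scale, along a sequence -/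
lemma one_seq {ka : ℝ → ℝ} {ε ρ0 : ℝ} (hε : 0 < ε)
    (h1 : ∀ ρ1 : ℝ, 0 < ρ1 → ∃ n0 : ℕ, ∀ n : ℕ, n0 ≤ n → ∀ ρ : ℝ, ρ1 ≤ ρ → ρ ≤ ρ0 →
      law n {γ | ε < |ka (ρ * size n) / n * nb ρ γ 1 - 1|} ≤ ENNReal.ofReal ε)
    {ν : Measure C(unitInterval, ℂ)} (hν : IsProbabilityMeasure ν) {φ : ℕ → ℕ} (hφ : Tendsto φ atTop atTop)
    (hlim : LawTo φ ν) {ρ A : ℝ} (hρ : 0 < ρ) (hρ1 : ρ < ρ0) (hA : 0 < A) {b : ℕ → ℝ} (hb : Tendsto b atTop (𝓝 ρ))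
    (ha : Tendsto (fun k : ℕ => ka (b k * size (φ k)) / (φ k : ℝ)) (hyperfilter ℕ : Ultrafilter ℕ) (𝓝 A)) :
    ν {γ | 1 + 2 * ε < A * nb ρ γ 1} ≤ ENNReal.ofReal ε ∧ ν {γ | A * nb ρ γ 1 < 1 - 2 * ε} ≤ ENNReal.ofReal ε := by
  obtain ⟨n2, hn2⟩ := h1 (ρ / 2) (by linarith)
  refine one_lim hyp_le hν hlim hρ hA hε ha (hb.mono_left hyp_le) ?_
  refine Filter.Eventually.filter_mono hyp_le ?_
  filter_upwards [hφ.eventually_ge_atTop n2, hb.eventually (lt_mem_nhds (show ρ / 2 < ρ by linarith)),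
    hb.eventually (gt_mem_nhds hρ1)] with k hk1 hk2 hk3
  exact hn2 (φ k) hk1 (b k) hk2.le hk3.le

lemma floor_div {x : ℝ} (hx : 0 < x) : Tendsto (fun k : ℕ => ((⌊x * k⌋₊ : ℕ) : ℝ) / k) atTop (𝓝 x) :=
  (tendsto_nat_floor_mul_div_atTop hx.le).comp tendsto_natCast_atTop_atTop

lemma floor_top {x : ℝ} (hx : 0 < x) : Tendsto (fun k : ℕ => ⌊x * (k : ℝ)⌋₊) atTop atTop :=
  (tendsto_nat_floor_mul_atTop x hx).comp tendsto_natCast_atTop_atTop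

/-- the other scale: the sequence -/
lemma other_b {x y ρ : ℝ} (hy : 0 < y) (hxy : x ^ (3 / 4 : ℝ) = y)
    (hreg : Tendsto (fun n : ℕ => size ⌊x * n⌋₊ / size n) atTop (𝓝 (x ^ (3 / 4 : ℝ)))) :
    Tendsto (fun k : ℕ => y * ρ * size k / size ⌊x * k⌋₊) atTop (𝓝 ρ) := by
  have h2 := hreg.inv₀ (by rw [hxy]; exact hy.ne')
  rw [hxy] at h2
  have h3 := h2.const_mul (y * ρ)
  rw [show y * ρ * y⁻¹ = ρ by field_simp] at h3
  refine h3.congr fun k => ?_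
  rw [inv_div, mul_div_assoc]

lemma other_a {x z A : ℝ} (hx : 0 < x) {ka : ℝ → ℝ} {φ : ℕ → ℕ} (hφ : φ = fun k : ℕ => ⌊x * (k : ℝ)⌋₊)
    (h : Tendsto (fun n : ℕ => ka (z * size n) / n) (hyperfilter ℕ : Ultrafilter ℕ) (𝓝 A)) :
    Tendsto (fun k : ℕ => ka (z * size k / size (φ k) * size (φ k)) / (φ k : ℝ)) (hyperfilter ℕ : Ultrafilter ℕ)
      (𝓝 (A / x)) := by
  have h3 := h.div ((floor_div hx).mono_left hyp_le) hx.ne'
  refine h3.congr' ?_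
  refine Filter.Eventually.filter_mono hyp_le ?_
  filter_upwards [eventually_ge_atTop 1, (floor_top hx).eventually_ge_atTop 1] with k hk1 hk2
  rw [hφ]
  have hk0 : (k : ℝ) ≠ 0 := by
    have : k ≠ 0 := by omega
    exact_mod_cast this
  have hs := (NTSF.size_pos hk2).ne'
  show ka (z * size k) / k / (((⌊x * k⌋₊ : ℕ) : ℝ) / k) = ka (z * size k / size ⌊x * (k : ℝ)⌋₊ * size ⌊x * (k : ℝ)⌋₊) /
    ((⌊x * (k : ℝ)⌋₊ : ℕ) : ℝ)
  rw [div_mul_cancel₀ _ hs, div_div_div_cancel_right₀ hk0]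

/-- **the gauge at two scales** -/
theorem g_two {c C : ℝ} (hc : 0 < c) {ka g : ℝ → ℝ} (h1 : Kap1 ka)
    (hg : ∀ ρ : ℝ, 0 < ρ → (c * ρ ^ (4 / 3 : ℝ) ≤ g ρ ∧ g ρ ≤ C * ρ ^ (4 / 3 : ℝ)) ∧
      Tendsto (fun n : ℕ => ka (ρ * size n) / n) (hyperfilter ℕ : Ultrafilter ℕ) (𝓝 (g ρ)))
    {ν : Measure C(unitInterval, ℂ)} (hν : IsProbabilityMeasure ν) (hlim : LawTo (fun n => n) ν)
    (hreg : ∀ x : ℝ, 0 < x → Tendsto (fun n : ℕ => size ⌊x * n⌋₊ / size n) atTop (𝓝 (x ^ (3 / 4 : ℝ))))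
    {ε : ℝ} (hε : 0 < ε) (hε1 : ε ≤ 1 / 8) : ∃ ρ0 : ℝ, 0 < ρ0 ∧ ∀ ρ : ℝ, 0 < ρ → ρ < ρ0 →
      (ν {γ | 1 + 2 * ε < g ρ * nb ρ γ 1} ≤ ENNReal.ofReal ε ∧ ν {γ | g ρ * nb ρ γ 1 < 1 - 2 * ε} ≤ ENNReal.ofReal ε) ∧
      ∀ y : ℝ, 0 < y → y ≤ 1 → |g (y * ρ) / y ^ (4 / 3 : ℝ) - g ρ| ≤ 8 * ε * g ρ := by
  obtain ⟨ρ0, hρ0, h1⟩ := h1 ε hε
  refine ⟨ρ0, hρ0, fun ρ hρ hρ1 => ?_⟩
  have hgp : ∀ ρ : ℝ, 0 < ρ → 0 < g ρ := fun ρ hρ => lt_of_lt_of_le (by positivity) (hg ρ hρ).1.1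
  have hA := hgp ρ hρ
  have k1 := one_seq hε h1 hν (φ := fun n => n) tendsto_id hlim hρ hρ1 hA (b := fun _ => ρ) tendsto_const_nhds (hg ρ hρ).2
  refine ⟨k1, fun y hy hy1 => ?_⟩
  obtain ⟨x, hx⟩ : ∃ x : ℝ, x = y ^ (4 / 3 : ℝ) := ⟨_, rfl⟩
  have hx0 : 0 < x := by
    rw [hx]
    positivity
  have hxy : x ^ (3 / 4 : ℝ) = y := by
    rw [hx, ← Real.rpow_mul hy.le, show (4 / 3 : ℝ) * (3 / 4) = 1 by norm_num, Real.rpow_one]
  obtain ⟨φ, hφd⟩ : ∃ φ : ℕ → ℕ, φ = fun k : ℕ => ⌊x * (k : ℝ)⌋₊ := ⟨_, rfl⟩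
  have hφ : Tendsto φ atTop atTop := by
    rw [hφd]
    exact floor_top hx0
  have hlim2 : LawTo φ ν := fun f => (hlim f).comp hφ
  have hb : Tendsto (fun k : ℕ => y * ρ * size k / size (φ k)) atTop (𝓝 ρ) := by
    rw [hφd]
    exact other_b hy hxy (hreg x hx0)
  have ha := other_a (z := y * ρ) hx0 hφd (hg (y * ρ) (mul_pos hy hρ)).2
  have k2 := one_seq hε h1 hν hφ hlim2 hρ hρ1 (div_pos (hgp (y * ρ) (mul_pos hy hρ)) hx0) hb ha
  rw [← hx]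
  exact two_near hν hρ hA hε hε1 k1.1 k1.2 k2.1 k2.2

/-- **the gauge is a multiple of `ρ ^ (4 / 3)`** -/
theorem g_lim {c C : ℝ} (hc : 0 < c) {ka g : ℝ → ℝ} (h1 : Kap1 ka)
    (hg : ∀ ρ : ℝ, 0 < ρ → (c * ρ ^ (4 / 3 : ℝ) ≤ g ρ ∧ g ρ ≤ C * ρ ^ (4 / 3 : ℝ)) ∧
      Tendsto (fun n : ℕ => ka (ρ * size n) / n) (hyperfilter ℕ : Ultrafilter ℕ) (𝓝 (g ρ)))
    {ν : Measure C(unitInterval, ℂ)} (hν : IsProbabilityMeasure ν) (hlim : LawTo (fun n => n) ν)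
    (hreg : ∀ x : ℝ, 0 < x → Tendsto (fun n : ℕ => size ⌊x * n⌋₊ / size n) atTop (𝓝 (x ^ (3 / 4 : ℝ)))) :
    ∃ κ : ℝ, 0 < κ ∧ Tendsto (fun ρ : ℝ => g ρ / ρ ^ (4 / 3 : ℝ)) (𝓝[>] 0) (𝓝 κ) := by
  have hC : 0 < C := by
    obtain ⟨⟨h2, h3⟩, -⟩ := hg 1 one_pos
    rw [Real.one_rpow, mul_one] at h2 h3
    linarith
  have hnear : ∀ ε : ℝ, 0 < ε → ε ≤ 1 / 8 → ∃ ρ0 : ℝ, 0 < ρ0 ∧ ∀ ρ ρ' : ℝ, 0 < ρ' → ρ' ≤ ρ → ρ < ρ0 →
      |g ρ' / ρ' ^ (4 / 3 : ℝ) - g ρ / ρ ^ (4 / 3 : ℝ)| ≤ 8 * ε * C := by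
    intro ε hε hε1
    obtain ⟨ρ0, hρ0, h2⟩ := g_two hc h1 hg hν hlim hreg hε hε1
    refine ⟨ρ0, hρ0, fun ρ ρ' hρ' hle hlt => ?_⟩
    have hρ : 0 < ρ := hρ'.trans_le hle
    have h3 := (h2 ρ hρ hlt).2 (ρ' / ρ) (div_pos hρ' hρ) (by rwa [div_le_one hρ])
    rw [div_mul_cancel₀ _ hρ.ne', Real.div_rpow hρ'.le hρ.le] at h3
    have hP : 0 < ρ ^ (4 / 3 : ℝ) := by positivity
    have hP' : 0 < ρ' ^ (4 / 3 : ℝ) := by positivity
    have e : g ρ' / ρ' ^ (4 / 3 : ℝ) - g ρ / ρ ^ (4 / 3 : ℝ) =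
        (g ρ' / (ρ' ^ (4 / 3 : ℝ) / ρ ^ (4 / 3 : ℝ)) - g ρ) / ρ ^ (4 / 3 : ℝ) := by
      field_simp
    rw [e, abs_div, abs_of_pos hP, div_le_iff₀ hP]
    refine h3.trans ?_
    have h4 : 8 * ε * g ρ ≤ 8 * ε * (C * ρ ^ (4 / 3 : ℝ)) := mul_le_mul_of_nonneg_left (hg ρ hρ).1.2 (by positivity)
    refine h4.trans (le_of_eq ?_)
    ring
  have hcau : Cauchy (map (fun ρ : ℝ => g ρ / ρ ^ (4 / 3 : ℝ)) (𝓝[>] 0)) := by
    rw [Metric.cauchy_iff]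
    refine ⟨inferInstance, fun δ hδ => ?_⟩
    obtain ⟨ρ0, hρ0, h2⟩ := hnear (min (1 / 8) (δ / (16 * C))) (lt_min (by norm_num) (by positivity)) (min_le_left _ _)
    refine ⟨(fun ρ : ℝ => g ρ / ρ ^ (4 / 3 : ℝ)) '' Ioo 0 ρ0, image_mem_map (Ioo_mem_nhdsGT hρ0), ?_⟩
    have h3 : 8 * min (1 / 8) (δ / (16 * C)) * C < δ := by
      have : min (1 / 8) (δ / (16 * C)) ≤ δ / (16 * C) := min_le_right _ _
      calc 8 * min (1 / 8) (δ / (16 * C)) * C ≤ 8 * (δ / (16 * C)) * C := by gcongr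
        _ = δ / 2 := by field_simp; norm_num
        _ < δ := by linarith
    rintro _ ⟨ρ, hρ, rfl⟩ _ ⟨ρ', hρ', rfl⟩
    rw [Real.dist_eq]
    rcases le_total ρ ρ' with h | h
    · exact (h2 ρ' ρ hρ.1 h hρ'.2).trans_lt h3
    · rw [abs_sub_comm]
      exact (h2 ρ ρ' hρ'.1 h hρ.2).trans_lt h3
  obtain ⟨κ, hκ⟩ := cauchy_map_iff_exists_tendsto.1 hcau
  refine ⟨κ, lt_of_lt_of_le hc ?_, hκ⟩
  refine ge_of_tendsto hκ ?_
  filter_upwards [self_mem_nhdsWithin] with ρ hρ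
  have hρ0 : 0 < ρ := hρ
  rw [le_div_iff₀ (by positivity)]
  exact (hg ρ hρ0).1.1

/-- **if the laws converge, the time is a multiple of the content of dimension `4 / 3`** -/
theorem kapQ_of (hE : NTSF.ConclE False) (hN : KapN)
    (hinj : ∀ (φ : ℕ → ℕ) (ν : Measure C(unitInterval, ℂ)), Tendsto φ atTop atTop → IsProbabilityMeasure ν → LawTo φ ν →
      ∀ᵐ γ : C(unitInterval, ℂ) ∂ν, Function.Injective γ)
    (hreg : (∃ ν : Measure C(unitInterval, ℂ), IsProbabilityMeasure ν ∧ LawTo (fun n => n) ν) →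
      ∀ x : ℝ, 0 < x → Tendsto (fun n : ℕ => size ⌊x * n⌋₊ / size n) atTop (𝓝 (x ^ (3 / 4 : ℝ))))
    (ν : Measure C(unitInterval, ℂ)) (hν : IsProbabilityMeasure ν) (hlim : LawTo (fun n => n) ν) :
    ∃ κ : ℝ, 0 < κ ∧ ∀ᵐ γ : C(unitInterval, ℂ) ∂ν, GoodH (fun r => κ * r ^ (4 / 3 : ℝ)) γ := by
  obtain ⟨c1, C1, hc1, -, hL⟩ := kapL_of (kapC_of hE hN) hinj
  obtain ⟨h, hh, hae⟩ := hL (fun n => n) ν tendsto_id hν hlim
  have hreg' := hreg ⟨ν, hν, hlim⟩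
  obtain ⟨ka, B, hB, hka, hN2⟩ := hN
  have hK1 : Kap1 ka := kap1_of hE hB hka hN2
  obtain ⟨c0, C0, hc0, hsz, -⟩ := hE
  have hC0 : 0 < C0 := by
    have h1 := (hsz 1 le_rfl).2
    have h2 := NTSF.size_pos (n := 1) le_rfl
    rw [Nat.cast_one, Real.one_rpow, mul_one] at h1
    linarith
  obtain ⟨c, hc⟩ : ∃ c, c = c0 ^ (4 / 3 : ℝ) / B := ⟨_, rfl⟩
  obtain ⟨C, hC⟩ : ∃ C, C = B * C0 ^ (4 / 3 : ℝ) := ⟨_, rfl⟩
  have hcp : 0 < c := by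
    rw [hc]
    positivity
  have hCp : 0 < C := by
    rw [hC]
    positivity
  obtain ⟨g, hg⟩ := g_exists (c := c) (C := C) (ka := ka) (by
    rw [hc, hC]
    exact ka_bounds hc0 hC0 hB hsz hka)
  obtain ⟨κ, hκ, hlimκ⟩ := g_lim hcp hK1 hg hν hlim hreg'
  refine ⟨κ, hκ, ?_⟩
  -- the two gauges
  have hnear : ∀ ε : ℝ, 0 < ε → ε ≤ 1 / 8 → ∀ᶠ r in 𝓝[>] (0 : ℝ), |h r - g r| ≤ 4 * ε * g r := by
    intro ε hε hε1
    obtain ⟨ρ0, hρ0, h2⟩ := g_two hcp hK1 hg hν hlim hreg' hε hε1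
    obtain ⟨A, hA⟩ : ∃ A : ℕ → Set C(unitInterval, ℂ), A = fun m : ℕ => {γ | ∀ r : ℝ, 0 < r → r < 1 / ((m : ℝ) + 1) →
      |h r * nb r γ 1 - 1| ≤ ε} := ⟨_, rfl⟩
    have hmono : Monotone A := by
      intro m m' hm
      rw [hA]
      intro γ hγ r hr hr2
      refine hγ r hr (hr2.trans_le ?_)
      have : (m : ℝ) ≤ m' := by exact_mod_cast hm
      exact one_div_le_one_div_of_le (by positivity) (by linarith)
    have hU : ν (⋃ m, A m) = 1 := by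
      have h3 : ∀ᵐ γ ∂ν, γ ∈ ⋃ m, A m := by
        filter_upwards [hae] with γ hγ
        have h4 := hγ.2.2 1
        rw [Set.Icc.coe_one] at h4
        have h5 := (Metric.tendsto_nhds.1 h4) ε hε
        obtain ⟨r0, hr0, h6⟩ := (mem_nhdsGT_iff_exists_Ioo_subset).1 h5
        obtain ⟨m, hm⟩ := exists_nat_one_div_lt (show (0 : ℝ) < r0 from hr0)
        rw [mem_iUnion]
        refine ⟨m, ?_⟩
        rw [hA]
        intro r hr hr2
        have h7 : dist (h r * vb r γ 1 / r) 1 < ε := h6 ⟨hr, hr2.trans hm⟩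
        rw [Real.dist_eq] at h7
        have e : h r * nb r γ 1 = h r * vb r γ 1 / r := by
          unfold nb
          ring
        rw [e]
        exact h7.le
      rw [← measure_univ (μ := ν)]
      exact measure_congr (eventuallyEq_univ.2 h3)
    rw [hmono.measure_iUnion] at hU
    obtain ⟨m, hm⟩ : ∃ m, 1 / 2 < ν (A m) := by
      by_contra hcon
      push Not at hcon
      have := iSup_le hcon
      rw [hU] at this
      norm_num at this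
    have hr0 : 0 < min ρ0 (1 / ((m : ℝ) + 1)) := lt_min hρ0 (by positivity)
    filter_upwards [Ioo_mem_nhdsGT hr0] with r hr
    have hrp : 0 < r := hr.1
    obtain ⟨⟨k1, k2⟩, -⟩ := h2 r hrp (hr.2.trans_le (min_le_left _ _))
    obtain ⟨γ, hγ1, hγ2⟩ : ∃ γ, γ ∈ A m ∧ γ ∉ ({γ | 1 + 2 * ε < g r * nb r γ 1} ∪ {γ | g r * nb r γ 1 < 1 - 2 * ε} :
        Set C(unitInterval, ℂ)) := by
      by_contra hcon
      push Not at hcon
      have h3 : A m ⊆ {γ | 1 + 2 * ε < g r * nb r γ 1} ∪ {γ | g r * nb r γ 1 < 1 - 2 * ε} := hcon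
      have h4 := (measure_mono (μ := ν) h3).trans ((measure_union_le _ _).trans (add_le_add k1 k2))
      rw [← ENNReal.ofReal_add hε.le hε.le] at h4
      have h5 : ENNReal.ofReal (ε + ε) ≤ ENNReal.ofReal (1 / 2) := ENNReal.ofReal_le_ofReal (by linarith)
      have h6 : ENNReal.ofReal (1 / 2) = 1 / 2 := by
        rw [ENNReal.ofReal_div_of_pos (by norm_num)]
        norm_num
      rw [h6] at h5
      exact absurd (h4.trans h5) (not_le.2 hm)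
    rw [hA] at hγ1
    have k3 := hγ1 r hrp (hr.2.trans_le (min_le_right _ _))
    rw [mem_union, not_or] at hγ2
    obtain ⟨k4, k5⟩ := hγ2
    replace k4 : g r * nb r γ 1 ≤ 1 + 2 * ε := not_lt.1 k4
    replace k5 : 1 - 2 * ε ≤ g r * nb r γ 1 := not_lt.1 k5
    obtain ⟨N, hNd⟩ : ∃ N, N = nb r γ 1 := ⟨_, rfl⟩
    have hN0 : 0 < N := by
      rw [hNd]
      exact nb_pos hrp
    rw [← hNd] at k3 k4 k5
    rw [abs_le] at k3
    have k6 : |h r * N - g r * N| ≤ 3 * ε := by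
      rw [abs_le]
      constructor <;> linarith
    rw [← sub_mul, abs_mul, abs_of_pos hN0] at k6
    have k7 : |h r - g r| * N ≤ 4 * ε * g r * N := by
      have : 3 * ε ≤ 4 * ε * (g r * N) := by nlinarith
      linarith
    exact le_of_mul_le_mul_right k7 hN0
  have hlimh : Tendsto (fun r : ℝ => h r / r ^ (4 / 3 : ℝ)) (𝓝[>] 0) (𝓝 κ) := by
    have hd : Tendsto (fun r : ℝ => h r / r ^ (4 / 3 : ℝ) - g r / r ^ (4 / 3 : ℝ)) (𝓝[>] 0) (𝓝 0) := by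
      rw [Metric.tendsto_nhds]
      intro δ hδ
      have h3 : 4 * min (1 / 8) (δ / (8 * C)) * C < δ := by
        have : min (1 / 8) (δ / (8 * C)) ≤ δ / (8 * C) := min_le_right _ _
        calc 4 * min (1 / 8) (δ / (8 * C)) * C ≤ 4 * (δ / (8 * C)) * C := by gcongr
          _ = δ / 2 := by field_simp; norm_num
          _ < δ := by linarith
      filter_upwards [hnear (min (1 / 8) (δ / (8 * C))) (lt_min (by norm_num) (by positivity)) (min_le_left _ _),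
        self_mem_nhdsWithin] with r h4 hr
      have hr0 : 0 < r := hr
      have hP : 0 < r ^ (4 / 3 : ℝ) := by positivity
      rw [dist_zero_right, Real.norm_eq_abs, ← sub_div, abs_div, abs_of_pos hP, div_lt_iff₀ hP]
      refine h4.trans_lt ?_
      have h5 := (hg r hr0).1.2
      have h6 : 0 ≤ 4 * min (1 / 8) (δ / (8 * C)) := by
        have : 0 < min (1 / 8) (δ / (8 * C)) := lt_min (by norm_num) (by positivity)
        linarith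
      calc 4 * min (1 / 8) (δ / (8 * C)) * g r ≤ 4 * min (1 / 8) (δ / (8 * C)) * (C * r ^ (4 / 3 : ℝ)) :=
            mul_le_mul_of_nonneg_left h5 h6
        _ = 4 * min (1 / 8) (δ / (8 * C)) * C * r ^ (4 / 3 : ℝ) := by ring
        _ < δ * r ^ (4 / 3 : ℝ) := mul_lt_mul_of_pos_right h3 hP
    have h3 := hd.add hlimκ
    rw [zero_add] at h3
    refine h3.congr fun r => ?_
    ring
  filter_upwards [hae] with γ hγ
  refine ⟨hγ.1, hγ.2.1, fun u => ?_⟩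
  have h3 := ((tendsto_const_nhds (x := κ)).div hlimh hκ.ne').mul (hγ.2.2 u)
  rw [div_self hκ.ne', one_mul] at h3
  refine h3.congr' ?_
  filter_upwards [self_mem_nhdsWithin] with r hr
  have hr0 : 0 < r := hr
  have hP : 0 < r ^ (4 / 3 : ℝ) := by positivity
  have hhr : h r ≠ 0 := (lt_of_lt_of_le (by positivity) (hh r hr0).1).ne'
  show κ / (h r / r ^ (4 / 3 : ℝ)) * (h r * vb r γ u / r) = κ * r ^ (4 / 3 : ℝ) * vb r γ u / r
  field_simp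

end Pool.Agent.NPR
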