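import Mathlib.Analysis.SpecialFunctions.Integrals.Basic
import Mathlib.Topology.ContinuousMap.Compact
import Mathlib.Topology.UnitInterval
import Mathlib.Analysis.Complex.Basic
import Mathlib.Order.Monotone.Basic

/-!
# NPR (natural parametrisation, captain helper14, doc nu34/NPR_14), rows P1: the number of pieces of a curve (helper34)

* `pcs s γ a b` : the least number `k ≥ 1` of consecutive pieces of diameter at most `s` that cover the part of the curve `γ`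
  between the times `a` and `b`;
* `vb ρ γ u` : the integral of `pcs s γ 0 u` over `s` in `[ρ, 2 ρ]`: continuous in the curve (`vb_near`), invariant under
  changes of the time (`vb_comp`);
* `open_clk` : the curves whose clock `vb ρ γ u / vb ρ γ 1` is not near `u` are an open set.
-/

set_option autoImplicit false

open Set Filter Topology MeasureTheory

namespace Pool.Agent.NPR

/-- `k` consecutive pieces of diameter at most `s` cover the curve between the times `a` and `b` -/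
def PcOk (s : ℝ) (γ : C(unitInterval, ℂ)) (a b : unitInterval) (k : ℕ) : Prop :=
  1 ≤ k ∧ ∃ u : ℕ → unitInterval, Monotone u ∧ u 0 = a ∧ u k = b ∧
    ∀ i < k, ∀ p ∈ Icc (u i) (u (i + 1)), ∀ q ∈ Icc (u i) (u (i + 1)), dist (γ p) (γ q) ≤ s

/-- the least number of consecutive pieces of diameter at most `s` that cover the curve between the times `a` and `b` -/
noncomputable def pcs (s : ℝ) (γ : C(unitInterval, ℂ)) (a b : unitInterval) : ℕ := sInf {k | PcOk s γ a b k}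

lemma pc_exists {s : ℝ} (hs : 0 < s) (γ : C(unitInterval, ℂ)) {a b : unitInterval} (hab : a ≤ b) :
    ∃ k, PcOk s γ a b k := by
  have hu : UniformContinuous γ := CompactSpace.uniformContinuous_of_continuous γ.continuous
  obtain ⟨δ, hδ, h⟩ := Metric.uniformContinuous_iff.1 hu s hs
  obtain ⟨N, hN⟩ := exists_nat_gt (1 / δ)
  have hN0 : (0 : ℝ) < N := lt_trans (by positivity) hN
  have hN1 : 1 ≤ N := by
    have : 0 < N := by exact_mod_cast hN0
    exact this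
  have hab' : (a : ℝ) ≤ b := hab
  have ha0 : (0 : ℝ) ≤ a := a.2.1
  have hb1 : (b : ℝ) ≤ 1 := b.2.2
  have hmem : ∀ i : ℕ, min ((a : ℝ) + i / N) b ∈ Icc (0 : ℝ) 1 := fun i =>
    ⟨le_min (by positivity) b.2.1, (min_le_right _ _).trans hb1⟩
  refine ⟨N, hN1, fun i => ⟨min ((a : ℝ) + i / N) b, hmem i⟩, ?_, ?_, ?_, ?_⟩
  · intro i j hij
    have hij' : (i : ℝ) ≤ j := by exact_mod_cast hij
    show min ((a : ℝ) + i / N) b ≤ min ((a : ℝ) + j / N) b
    refine min_le_min ?_ le_rfl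
    have := div_le_div_of_nonneg_right hij' hN0.le
    linarith
  · ext
    show min ((a : ℝ) + ((0 : ℕ) : ℝ) / N) b = a
    rw [Nat.cast_zero, zero_div, add_zero, min_eq_left hab']
  · ext
    show min ((a : ℝ) + (N : ℝ) / N) b = b
    rw [div_self hN0.ne', min_eq_right (by linarith)]
  · rintro i - p ⟨hp1, hp2⟩ q ⟨hq1, hq2⟩
    refine (h ?_).le
    have hp1' : min ((a : ℝ) + i / N) b ≤ p := hp1
    have hp2' : (p : ℝ) ≤ min ((a : ℝ) + ((i + 1 : ℕ) : ℝ) / N) b := hp2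
    have hq1' : min ((a : ℝ) + i / N) b ≤ q := hq1
    have hq2' : (q : ℝ) ≤ min ((a : ℝ) + ((i + 1 : ℕ) : ℝ) / N) b := hq2
    have h1 : min ((a : ℝ) + ((i + 1 : ℕ) : ℝ) / N) b ≤ min ((a : ℝ) + i / N) b + 1 / N := by
      rw [← min_add_add_right]
      refine min_le_min (le_of_eq ?_) ?_
      · push_cast
        ring
      · have : (0 : ℝ) < 1 / N := by positivity
        linarith
    have h2 : 1 / (N : ℝ) < δ := by
      rw [div_lt_iff₀ hN0]
      rw [div_lt_iff₀ hδ] at hN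
      linarith
    rw [Subtype.dist_eq, Real.dist_eq, abs_lt]
    constructor <;> linarith

lemma pcs_spec {s : ℝ} (hs : 0 < s) (γ : C(unitInterval, ℂ)) {a b : unitInterval} (hab : a ≤ b) :
    PcOk s γ a b (pcs s γ a b) := Nat.sInf_mem (pc_exists hs γ hab)

lemma pcs_le {s : ℝ} {γ : C(unitInterval, ℂ)} {a b : unitInterval} {k : ℕ} (h : PcOk s γ a b k) : pcs s γ a b ≤ k :=
  Nat.sInf_le h

lemma one_le_pcs {s : ℝ} (hs : 0 < s) (γ : C(unitInterval, ℂ)) {a b : unitInterval} (hab : a ≤ b) :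
    1 ≤ pcs s γ a b := (pcs_spec hs γ hab).1

/-- curves at distance at most `δ` -/
lemma pcs_close {s δ : ℝ} (hs : 0 < s) {γ γ' : C(unitInterval, ℂ)} (hd : dist γ γ' ≤ δ) {a b : unitInterval}
    (hab : a ≤ b) : pcs (s + 2 * δ) γ' a b ≤ pcs s γ a b := by
  obtain ⟨h1, u, hu, h0, hk, h⟩ := pcs_spec hs γ hab
  refine pcs_le ⟨h1, u, hu, h0, hk, fun i hi p hp q hq => ?_⟩
  have e1 := h i hi p hp q hq
  have e2 : dist (γ' p) (γ p) ≤ δ := by
    rw [dist_comm]
    exact (ContinuousMap.dist_apply_le_dist p).trans hd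
  have e3 : dist (γ q) (γ' q) ≤ δ := (ContinuousMap.dist_apply_le_dist q).trans hd
  have e4 := dist_triangle4 (γ' p) (γ p) (γ q) (γ' q)
  linarith

lemma pcs_anti {s s' : ℝ} (hs : 0 < s) (hss : s ≤ s') (γ : C(unitInterval, ℂ)) {a b : unitInterval} (hab : a ≤ b) :
    pcs s' γ a b ≤ pcs s γ a b := by
  obtain ⟨h1, u, hu, h0, hk, h⟩ := pcs_spec hs γ hab
  exact pcs_le ⟨h1, u, hu, h0, hk, fun i hi p hp q hq => (h i hi p hp q hq).trans hss⟩

/-- a shorter part of the curve -/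
lemma pcs_mono_right {s : ℝ} (hs : 0 < s) (γ : C(unitInterval, ℂ)) {a b b' : unitInterval} (hab : a ≤ b')
    (hb : b' ≤ b) : pcs s γ a b' ≤ pcs s γ a b := by
  obtain ⟨h1, u, hu, h0, hk, h⟩ := pcs_spec hs γ (hab.trans hb)
  refine pcs_le ⟨h1, fun i => min (u i) b', fun i j hij => min_le_min (hu hij) le_rfl, ?_, ?_, ?_⟩
  · show min (u 0) b' = a
    rw [h0, min_eq_left hab]
  · show min (u _) b' = b'
    rw [hk, min_eq_right hb]
  · rintro i hi p ⟨hp1, hp2⟩ q ⟨hq1, hq2⟩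
    simp only at hp1 hp2 hq1 hq2
    rcases le_total (u i) b' with hc | hc
    · have e1 : min (u i) b' = u i := min_eq_left hc
      rw [e1] at hp1 hq1
      exact h i hi p ⟨hp1, hp2.trans (min_le_left _ _)⟩ q ⟨hq1, hq2.trans (min_le_left _ _)⟩
    · have e1 : min (u i) b' = b' := min_eq_right hc
      rw [e1] at hp1 hq1
      have e2 : p = b' := le_antisymm (hp2.trans (min_le_right _ _)) hp1
      have e3 : q = b' := le_antisymm (hq2.trans (min_le_right _ _)) hq1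
      rw [e2, e3, dist_self]
      have e4 := h i hi (u i) ⟨le_rfl, hu (Nat.le_succ i)⟩ (u i) ⟨le_rfl, hu (Nat.le_succ i)⟩
      rwa [dist_self] at e4

/-- changes of the time -/
lemma pcs_comp (s : ℝ) (γ γ' : C(unitInterval, ℂ)) (φ : unitInterval ≃o unitInterval) (h : ∀ t, γ t = γ' (φ t))
    (a b : unitInterval) : pcs s γ a b = pcs s γ' (φ a) (φ b) := by
  unfold pcs
  congr 1
  ext k
  constructor
  · rintro ⟨h1, u, hu, h0, hk, hp⟩
    refine ⟨h1, fun i => φ (u i), fun i j hij => φ.monotone (hu hij), ?_, ?_, ?_⟩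
    · show φ (u 0) = φ a
      rw [h0]
    · show φ (u k) = φ b
      rw [hk]
    rintro i hi p ⟨hp1, hp2⟩ q ⟨hq1, hq2⟩
    have e := hp i hi (φ.symm p) ⟨(φ.le_symm_apply).2 hp1, (φ.symm_apply_le).2 hp2⟩ (φ.symm q)
      ⟨(φ.le_symm_apply).2 hq1, (φ.symm_apply_le).2 hq2⟩
    rwa [h, h, φ.apply_symm_apply, φ.apply_symm_apply] at e
  · rintro ⟨h1, u, hu, h0, hk, hp⟩
    refine ⟨h1, fun i => φ.symm (u i), fun i j hij => φ.symm.monotone (hu hij), ?_, ?_, ?_⟩
    · show φ.symm (u 0) = a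
      rw [h0, φ.symm_apply_apply]
    · show φ.symm (u k) = b
      rw [hk, φ.symm_apply_apply]
    rintro i hi p ⟨hp1, hp2⟩ q ⟨hq1, hq2⟩
    rw [h, h]
    exact hp i hi (φ p) ⟨(φ.symm_apply_le).1 hp1, (φ.le_symm_apply).1 hp2⟩ (φ q)
      ⟨(φ.symm_apply_le).1 hq1, (φ.le_symm_apply).1 hq2⟩

/-! ### the mean -/

/-- the integral of the number of pieces over the diameters in `[ρ, 2 ρ]` -/
noncomputable def vb (ρ : ℝ) (γ : C(unitInterval, ℂ)) (u : unitInterval) : ℝ := ∫ s in ρ..2 * ρ, (pcs s γ 0 u : ℝ)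

lemma pcs_antiOn (γ : C(unitInterval, ℂ)) (u : unitInterval) {a b : ℝ} (ha : 0 < a) (hab : a ≤ b) :
    AntitoneOn (fun s => (pcs s γ 0 u : ℝ)) (uIcc a b) := by
  intro s hs s' _ hss
  rw [uIcc_of_le hab] at hs
  have h := pcs_anti (lt_of_lt_of_le ha hs.1) hss γ (a := 0) (b := u) u.2.1
  show ((pcs s' γ 0 u : ℕ) : ℝ) ≤ ((pcs s γ 0 u : ℕ) : ℝ)
  exact_mod_cast h

lemma pcs_int (γ : C(unitInterval, ℂ)) (u : unitInterval) {a b : ℝ} (ha : 0 < a) (hab : a ≤ b) :
    IntervalIntegrable (fun s => (pcs s γ 0 u : ℝ)) volume a b := (pcs_antiOn γ u ha hab).intervalIntegrable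

lemma vb_ge {ρ : ℝ} (hρ : 0 < ρ) (γ : C(unitInterval, ℂ)) (u : unitInterval) : ρ ≤ vb ρ γ u := by
  have h1 : ∫ _s in ρ..2 * ρ, (1 : ℝ) ≤ ∫ s in ρ..2 * ρ, (pcs s γ 0 u : ℝ) := by
    refine intervalIntegral.integral_mono_on (by linarith) (by simp) (pcs_int γ u hρ (by linarith)) fun s hs => ?_
    exact_mod_cast one_le_pcs (lt_of_lt_of_le hρ hs.1) γ (a := 0) (b := u) u.2.1
  rw [intervalIntegral.integral_const, smul_eq_mul, mul_one] at h1
  unfold vb
  linarith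

lemma vb_pos {ρ : ℝ} (hρ : 0 < ρ) (γ : C(unitInterval, ℂ)) (u : unitInterval) : 0 < vb ρ γ u :=
  lt_of_lt_of_le hρ (vb_ge hρ γ u)

lemma vb_mono {ρ : ℝ} (hρ : 0 < ρ) (γ : C(unitInterval, ℂ)) {u v : unitInterval} (huv : u ≤ v) :
    vb ρ γ u ≤ vb ρ γ v := by
  refine intervalIntegral.integral_mono_on (by linarith) (pcs_int γ u hρ (by linarith))
    (pcs_int γ v hρ (by linarith)) fun s hs => ?_
  exact_mod_cast pcs_mono_right (lt_of_lt_of_le hρ hs.1) γ (a := 0) u.2.1 huv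

lemma vb_comp (ρ : ℝ) (γ γ' : C(unitInterval, ℂ)) (φ : unitInterval ≃o unitInterval) (h : ∀ t, γ t = γ' (φ t))
    (u : unitInterval) : vb ρ γ u = vb ρ γ' (φ u) := by
  have h0 : φ 0 = 0 := φ.map_bot
  unfold vb
  refine intervalIntegral.integral_congr fun s _ => ?_
  show (pcs s γ 0 u : ℝ) = (pcs s γ' 0 (φ u) : ℝ)
  rw [pcs_comp s γ γ' φ h 0 u, h0]

/-- shift of the variable: one side -/
lemma vb_shift {ρ τ : ℝ} (hρ : 0 < ρ) (hτ : 0 ≤ τ) (hτρ : τ ≤ ρ / 2) (γ γ' : C(unitInterval, ℂ)) (u : unitInterval)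
    (h : ∀ s, 0 < s → pcs (s + τ) γ' 0 u ≤ pcs s γ 0 u) :
    vb ρ γ' u ≤ vb ρ γ u + τ * pcs (ρ / 2) γ 0 u := by
  have h1 : vb ρ γ' u ≤ ∫ s in ρ..2 * ρ, (pcs (s - τ) γ 0 u : ℝ) := by
    refine intervalIntegral.integral_mono_on (by linarith) (pcs_int γ' u hρ (by linarith)) ?_ fun s hs => ?_
    · have := (pcs_int γ u (a := ρ - τ) (b := 2 * ρ - τ) (by linarith) (by linarith)).comp_sub_right τ
      simpa using this
    · have := h (s - τ) (by have := hs.1; linarith)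
      rw [sub_add_cancel] at this
      exact_mod_cast this
  rw [intervalIntegral.integral_comp_sub_right (fun s => (pcs s γ 0 u : ℝ))] at h1
  have e1 : (∫ s in (ρ - τ)..ρ, (pcs s γ 0 u : ℝ)) + ∫ s in ρ..(2 * ρ - τ), (pcs s γ 0 u : ℝ) =
      ∫ s in (ρ - τ)..(2 * ρ - τ), (pcs s γ 0 u : ℝ) :=
    intervalIntegral.integral_add_adjacent_intervals (pcs_int γ u (by linarith) (by linarith))
      (pcs_int γ u hρ (by linarith))
  have e2 : ∫ s in (ρ - τ)..ρ, (pcs s γ 0 u : ℝ) ≤ ∫ _s in (ρ - τ)..ρ, (pcs (ρ / 2) γ 0 u : ℝ) := by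
    refine intervalIntegral.integral_mono_on (by linarith) (pcs_int γ u (by linarith) (by linarith)) (by simp)
      fun s hs => ?_
    exact_mod_cast pcs_anti (by linarith : 0 < ρ / 2) (by have := hs.1; linarith) γ (a := 0) (b := u) u.2.1
  rw [intervalIntegral.integral_const, smul_eq_mul, sub_sub_cancel] at e2
  have e3 : (∫ s in ρ..(2 * ρ - τ), (pcs s γ 0 u : ℝ)) + ∫ s in (2 * ρ - τ)..(2 * ρ), (pcs s γ 0 u : ℝ) = vb ρ γ u :=
    intervalIntegral.integral_add_adjacent_intervals (pcs_int γ u hρ (by linarith))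
      (pcs_int γ u (by linarith) (by linarith))
  have e4 : 0 ≤ ∫ s in (2 * ρ - τ)..(2 * ρ), (pcs s γ 0 u : ℝ) :=
    intervalIntegral.integral_nonneg (by linarith) fun s _ => Nat.cast_nonneg _
  linarith

/-- **continuity in the curve** -/
theorem vb_near {ρ δ : ℝ} (hρ : 0 < ρ) (hδ : 0 ≤ δ) (hδρ : 2 * δ ≤ ρ / 4) {γ γ' : C(unitInterval, ℂ)}
    (hd : dist γ γ' ≤ δ) (u : unitInterval) : |vb ρ γ' u - vb ρ γ u| ≤ 2 * δ * pcs (ρ / 4) γ 0 u := by
  have h1 := vb_shift hρ (by linarith : 0 ≤ 2 * δ) (by linarith) γ γ' u fun s hs => pcs_close hs hd (a := 0) (b := u) u.2.1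
  have h2 := vb_shift hρ (by linarith : 0 ≤ 2 * δ) (by linarith) γ' γ u fun s hs =>
    pcs_close hs (by rwa [dist_comm]) (a := 0) (b := u) u.2.1
  have h3 : (pcs (ρ / 2) γ 0 u : ℝ) ≤ pcs (ρ / 4) γ 0 u := by
    exact_mod_cast pcs_anti (s := ρ / 4) (s' := ρ / 2) (by linarith) (by linarith) γ (a := 0) (b := u) u.2.1
  have h4 : (pcs (ρ / 2) γ' 0 u : ℝ) ≤ pcs (ρ / 4) γ 0 u := by
    have e1 := pcs_close (s := ρ / 4) (by linarith) hd (a := 0) (b := u) u.2.1
    have e2 := pcs_anti (s := ρ / 4 + 2 * δ) (s' := ρ / 2) (by linarith) (by linarith) γ' (a := 0) (b := u) u.2.1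
    exact_mod_cast e2.trans e1
  rw [abs_le]
  constructor
  · have := mul_le_mul_of_nonneg_left h4 (by linarith : 0 ≤ 2 * δ)
    linarith
  · have := mul_le_mul_of_nonneg_left h3 (by linarith : 0 ≤ 2 * δ)
    linarith

lemma vb_cont {ρ : ℝ} (hρ : 0 < ρ) (u : unitInterval) : Continuous fun γ : C(unitInterval, ℂ) => vb ρ γ u := by
  rw [Metric.continuous_iff]
  intro γ ε hε
  obtain ⟨P, hP⟩ : ∃ P : ℝ, P = pcs (ρ / 4) γ 0 u := ⟨_, rfl⟩
  have hP0 : 0 ≤ P := by
    rw [hP]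
    exact Nat.cast_nonneg _
  refine ⟨min (ρ / 8) (ε / (4 * (P + 1))), lt_min (by linarith) (by positivity), fun γ' h => ?_⟩
  obtain ⟨δ, hδ⟩ : ∃ δ : ℝ, δ = min (ρ / 8) (ε / (4 * (P + 1))) := ⟨_, rfl⟩
  rw [← hδ] at h
  have hδ0 : 0 < δ := by
    rw [hδ]
    exact lt_min (by linarith) (by positivity)
  have hδ1 : δ ≤ ρ / 8 := by
    rw [hδ]
    exact min_le_left _ _
  have hδ2 : δ * (4 * (P + 1)) ≤ ε := by
    rw [← le_div_iff₀ (by positivity), hδ]
    exact min_le_right _ _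
  have h1 := vb_near hρ hδ0.le (by linarith) (γ := γ) (γ' := γ') (by rw [dist_comm]; exact h.le) u
  rw [← hP] at h1
  rw [Real.dist_eq]
  nlinarith

/-- **the curves whose clock is not near the time are an open set** -/
theorem open_clk {ρ ε : ℝ} (hρ : 0 < ρ) : IsOpen {γ : C(unitInterval, ℂ) | ∃ u : unitInterval,
    ε * vb ρ γ 1 < |vb ρ γ u - u * vb ρ γ 1|} := by
  have e : {γ : C(unitInterval, ℂ) | ∃ u : unitInterval, ε * vb ρ γ 1 < |vb ρ γ u - u * vb ρ γ 1|} =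
      ⋃ u : unitInterval, {γ | ε * vb ρ γ 1 < |vb ρ γ u - u * vb ρ γ 1|} := by
    ext γ
    simp only [mem_iUnion]
    exact Iff.rfl
  rw [e]
  refine isOpen_iUnion fun u => ?_
  have h1 := vb_cont hρ u
  have h2 := vb_cont hρ 1
  exact isOpen_lt (continuous_const.mul h2) (h1.sub (continuous_const.mul h2)).abs

end Pool.Agent.NPR
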