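import Pool.Agent.NPR.Defs2
import Pool.Agent.NTA.XDbl
import Pool.Agent.NTA.Quan

/-!
# NPR (natural parametrisation, doc nu34/NPR_14), row U2 (helper78)

* `FK_add` : the weight of the box is doubling;
* `In_hn` : words of small hexagonal norm stay in the box;
* **`slowN_of`** : a small displacement in a long time, from `TimeF`.
-/

set_option autoImplicit false

namespace HexObs

namespace NPR

open Finset TS SDN TIW NTA TIP

open scoped ENNReal

/-- the weight of the box is doubling -/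
theorem FK_add : ∃ C : ℝ, 1 ≤ C ∧ ∀ k j : ℕ, FK (k + j) ≤ ENNReal.ofReal (C ^ j) * FK k := by
  obtain ⟨CX, hCX, hX⟩ := XDbl.pow xDbl
  refine ⟨2 * CX ^ 2, by nlinarith, fun k j => ?_⟩
  have h1 : Ub (k + j) ≤ 2 ^ j * Ub k := NTW.Sc.Ub_shift k j
  unfold FK
  calc ENNReal.ofReal (Ub (k + j)) * Xb (k + j) ^ 2
      ≤ ENNReal.ofReal (2 ^ j * Ub k) * (ENNReal.ofReal (CX ^ j) * Xb k) ^ 2 := by
        gcongr
        exact hX k j
    _ = _ := by
        rw [mul_pow, ENNReal.ofReal_mul (by positivity), ← ENNReal.ofReal_pow (by positivity)]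
        rw [show (2 * CX ^ 2 : ℝ) ^ j = 2 ^ j * (CX ^ j) ^ 2 by rw [mul_pow]; ring,
          ENNReal.ofReal_mul (by positivity)]
        ring

/-- a word of small hexagonal norm stays in the box -/
lemma In_hn {D : ℕ} {Q : List Bool} (h : ∀ i, i ≤ Q.length → hn (vx oo up Q i) < D) : In D Q := by
  intro i hi
  have h1 := h i hi
  have a1 := TIW.ip_le_hn (vx oo up Q i) (d := up) (by decide)
  have a2 := TIW.ip_le_hn (vx oo up Q i) (d := rotL up) (by decide)
  have a3 := TIW.ip_le_hn (vx oo up Q i) (d := rotR up) (by decide)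
  have b1 := TIW.neg_hn_le_ip (vx oo up Q i) (d := up) (by decide)
  have b2 := TIW.neg_hn_le_ip (vx oo up Q i) (d := rotL up) (by decide)
  have b3 := TIW.neg_hn_le_ip (vx oo up Q i) (d := rotR up) (by decide)
  generalize hh : hn (vx oo up Q i) = H at *
  generalize vx oo up Q i = p at *
  unfold ip at a1 a2 a3 b1 b2 b3
  simp only [up, rotL, rotR] at a1 a2 a3 b1 b2 b3
  have e0 : (oo : Pt) = (0, 0) := rfl
  refine ⟨?_, ?_⟩ <;> rw [e0] <;> simp only [sub_zero, abs_le] <;> constructor <;> omega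

/-- **U2: a small displacement in a long time** -/
theorem slowN_of (h : TimeF) : SlowN := by
  obtain ⟨A, B, hA, hB, hT⟩ := h 1
  obtain ⟨CF, hCF, hF⟩ := FK_add
  intro δ hδ
  obtain ⟨v, hv⟩ := exists_nat_gt (A * B ^ 16 * CF ^ 16 / δ)
  refine ⟨v, v, fun L hL => ?_⟩
  refine (gf_mono (Q := {t | t ∈ WL (L + 16) ∧ t ∈ Fac {Q | In (2 ^ (L - v)) Q ∧ PW.mZ (2 ^ L) / 8 ≤ (Q.length : ℝ)}})
    ?_).trans ?_
  · rintro t ⟨h1, X, Q, Y, h2, h3, h4⟩
    refine ⟨h1, X, Q, Y, h2, In_hn fun i hi => ?_, ?_⟩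
    · exact_mod_cast h4 i hi
    · rw [h3]
      have h5 : PW.mZ (2 ^ L) ≤ ML L := Nat.le_ceil _
      have h6 : 0 ≤ PW.mZ (2 ^ L) := PW.mZ_nonneg _
      linarith
  · refine (hT (L + 16) L v (by omega) hL).trans ?_
    rw [Nat.add_sub_cancel_left]
    calc ENNReal.ofReal (A * B ^ 16 / 2 ^ (1 * v)) * FK (L + 16)
        ≤ ENNReal.ofReal (A * B ^ 16 / 2 ^ (1 * v)) * (ENNReal.ofReal (CF ^ 16) * FK L) := by
          gcongr
          exact hF L 16
      _ = ENNReal.ofReal (A * B ^ 16 / 2 ^ (1 * v) * CF ^ 16) * FK L := by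
          rw [← mul_assoc, ← ENNReal.ofReal_mul (by positivity)]
      _ ≤ _ := by
          gcongr
          rw [div_mul_eq_mul_div, div_le_iff₀ (by positivity), one_mul]
          have h7 : (v : ℝ) ≤ 2 ^ v := by exact_mod_cast (Nat.lt_two_pow_self (n := v)).le
          rw [div_lt_iff₀ hδ] at hv
          nlinarith

end NPR

end HexObs
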