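import Pool.Agent.NPR.Step0

/-!
# NPR, E1: one block: pieces, structures at the cut, flags (helper14)
-/

set_option autoImplicit false

namespace HexObs

namespace NPR

open Finset TS SDN TIW NTA TIP HexObs.SIM

open scoped ENNReal

namespace St

/-! ### coordinates -/

lemma SA_take {t : List Bool} (h : t ∈ SA) (n : ℕ) : t.take n ∈ SA := by
  refine ⟨fun i _ _ => Set.mem_univ _, fun i k hik hk => ?_⟩
  rw [List.length_take] at hk
  have h1 := h.inj i k hik (by omega)
  have e : ∀ i, i ≤ n → i ≤ t.length → vx oo up (t.take n) i = vx oo up t i := by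
    intro i h1 h2
    conv_rhs => rw [← List.take_append_drop n t]
    rw [vx_append]
    rw [List.length_take]
    omega
  rwa [e i (by omega) (by omega), e k (by omega) (by omega)]

lemma mem_Bl' {p : Pt} {r : ℕ} : p ∈ Bl oo r ↔ |p.1| ≤ (r : ℤ) ∧ |p.2| ≤ (r : ℤ) := by
  have e1 : (oo : Pt).1 = 0 := rfl
  have e2 : (oo : Pt).2 = 0 := rfl
  unfold Bl
  rw [Set.mem_ofPred_eq, e1, e2, sub_zero, sub_zero]

/-- coordinates in another frame -/
lemma mul_coord' {c : Pt} (hc : c ∈ dirs) {v : Pt} {B : ℤ} (h1 : |(mulE c v).1| ≤ B) (h2 : |(mulE c v).2| ≤ B) :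
    |v.1| ≤ 2 * B ∧ |v.2| ≤ 2 * B := by
  obtain ⟨x, y⟩ := v
  simp only [dirs, mem_insert, mem_singleton] at hc
  rw [abs_le] at *
  rw [abs_le]
  rcases hc with rfl | rfl | rfl | rfl | rfl | rfl <;> simp only [mulE] at h1 h2 <;> refine ⟨⟨?_, ?_⟩, ?_, ?_⟩ <;>
    simp only <;> omega

lemma In_pre {D : ℕ} {A B : List Bool} (h : In D (A ++ B)) : In D A := by
  intro i hi
  have := h i (by rw [List.length_append]; omega)
  rwa [vx_append (by omega)] at this

lemma In_mono {D D' : ℕ} (h : D ≤ D') {t : List Bool} (ht : In D t) : In D' t := fun i hi => Bl_mono _ h (ht i hi)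

/-- the last part of a local word is local -/
lemma In_suf {D : ℕ} {A B : List Bool} (h : In D (A ++ B)) : In (4 * D) B := by
  intro i hi
  obtain ⟨c, hc, -, hf⟩ := drop_frame' (A ++ B) A.length
  rw [List.drop_left'] at hf
  swap
  · rfl
  have h1 := mem_Bl'.1 (h (A.length + i) (by rw [List.length_append]; omega))
  have h2 := mem_Bl'.1 (h A.length (by rw [List.length_append]; omega))
  rw [hf i, Prod.fst_add, Prod.snd_add] at h1
  rw [mem_Bl']
  have h3 : |(mulE c (vx oo up B i)).1| ≤ (2 * D : ℤ) ∧ |(mulE c (vx oo up B i)).2| ≤ (2 * D : ℤ) := by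
    rw [abs_le] at *
    rw [abs_le] at *
    omega
  have h4 := mul_coord' hc h3.1 h3.2
  push_cast
  constructor
  · linarith [h4.1]
  · linarith [h4.2]

/-- a vertex far away -/
lemma not_In_of_hn {D : ℕ} {Q : List Bool} {i : ℕ} (hi : i ≤ Q.length) (h : 3 * (D : ℤ) < hn (vx oo up Q i)) :
    ¬ In D Q := by
  intro hI
  have h1 := mem_Bl'.1 (hI i hi)
  have := hn_coord h1.1 h1.2
  linarith

/-- two vertices far apart -/
lemma not_In_of_hn2 {D : ℕ} {Q : List Bool} {i j : ℕ} (hi : i ≤ Q.length) (hj : j ≤ Q.length)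
    (h : 6 * (D : ℤ) < hn (vx oo up Q i - vx oo up Q j)) : ¬ In D Q := by
  intro hI
  have h1 := mem_Bl'.1 (hI i hi)
  have h2 := mem_Bl'.1 (hI j hj)
  have h3 := hn_coord h1.1 h1.2
  have h4 := hn_coord h2.1 h2.2
  have h5 := hn_sub (vx oo up Q i) (vx oo up Q j)
  linarith

lemma Nz_pre {κ : ℝ} {C b : ℕ} {X Y : List Bool} (h : X ++ Y ∈ Nz κ C b) : X ∈ Nz κ C b := by
  intro X1 Z Y1 he hY
  refine h X1 Z (Y1 ++ Y) ?_ ?_
  · rw [he]
    simp only [List.append_assoc]
  · intro h0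
    exact hY (List.append_eq_nil_iff.1 h0).1

lemma Nz_suf {κ : ℝ} {C b : ℕ} {X Y : List Bool} (h : X ++ Y ∈ Nz κ C b) : Y ∈ Nz κ C b := by
  intro X1 Z Y1 he hY
  refine h (X ++ X1) Z Y1 ?_ hY
  rw [he]
  simp only [List.append_assoc]

lemma GS_nil {η : ℝ} {D : ℕ} : ([] : List Bool) ∈ GS η D 0 := by
  unfold GS
  rw [Set.mem_ofPred_eq, if_pos rfl]

lemma GE_nil {η : ℝ} {D : ℕ} : ([] : List Bool) ∈ GE η D 0 := by
  unfold GE
  rw [Set.mem_ofPred_eq, if_pos rfl]

/-! ### the structure of a cut -/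

variable {κ : ℝ} {C b0 k L : ℕ} {u : List Bool}

/-- all about a possible next cut -/
lemma cut (hC : 12 * C < 2 ^ k) {j : ℕ} (hj : j ∈ nx κ C b0 k L u) :
    s2 L (ML L) u ≤ j ∧ j ≤ s3 L (ML L) u ∧
      (∃ R' T, (u.take j).drop (s2 L (ML L) u) = R' ++ T ∧ T ∈ GE (κ / 4) (4 * C) (lbl κ C b0 k L u)) ∧
      ∃ S, S ∈ GS (κ / 4) (4 * C) (lbl κ C b0 k L u) ∧ S <+: u.drop j ∧ j + S.length ≤ s3 L (ML L) u ∧
        S.length ≤ s1 L (ML L) (u.drop j) := by
  classical
  have h23 := s2_lt_s3 L u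
  have h33 := s3_le3 L u
  have h3' := s3_le L u
  unfold nx at hj
  rw [mem_filter, mem_range] at hj
  obtain ⟨hj1, hj2⟩ := hj
  by_cases h0 : lbl κ C b0 k L u = 0
  · rw [if_pos h0] at hj2
    rw [h0, hj2]
    refine ⟨h23.le, le_rfl, ⟨(u.take (s3 L (ML L) u)).drop (s2 L (ML L) u), [], by rw [List.append_nil], GE_nil⟩, [], GS_nil,
      List.nil_prefix, by simp, by simp⟩
  · rw [if_neg h0] at hj2
    obtain ⟨X, Z1, M, N, Z3, Y, e1, e2, e3, e4, g1, g2, g3, g4, g5, g6, g7, g8, g9, g10⟩ := hj2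
    have hlb : lbl κ C b0 k L u + k ≤ L := by
      rcases lbl_cases (κ := κ) (C := C) (b0 := b0) (k := k) (L := L) (u := u) with h1 | h1
      · exact absurd h1 h0
      · exact h1.2.1
    obtain ⟨b, hb⟩ : ∃ b, b = lbl κ C b0 k L u := ⟨_, rfl⟩
    rw [← hb] at g5 g6 g7 g8 g9 g10 hlb h0 ⊢
    have hhg := hgt_app g2 g3
    have e5 : u.take j = X ++ (Z1 ++ M) := by
      rw [e3, e1, show X ++ (Z1 ++ (M ++ (N ++ (Z3 ++ Y)))) = (X ++ (Z1 ++ M)) ++ (N ++ (Z3 ++ Y)) by
        simp only [List.append_assoc], List.take_left' rfl]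
    have e6 : u.drop j = (N ++ Z3) ++ Y := by
      rw [e3, e1, show X ++ (Z1 ++ (M ++ (N ++ (Z3 ++ Y)))) = (X ++ (Z1 ++ M)) ++ ((N ++ Z3) ++ Y) by
        simp only [List.append_assoc], List.drop_left' rfl]
    have hjl : j + (N ++ Z3).length ≤ s3 L (ML L) u := by
      rw [e3]
      simp only [List.length_append] at e4 ⊢
      omega
    have hsj : s2 L (ML L) u ≤ j := by
      rw [e3]
      simp only [List.length_append]
      omega
    have hS : In (4 * C * 2 ^ b) (N ++ Z3) := by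
      have h1 : In (C * 2 ^ b) ((Z1 ++ M) ++ (N ++ Z3)) := by
        rw [List.append_assoc]
        exact g10
      have := In_suf h1
      rwa [← mul_assoc] at this
    refine ⟨hsj, ?_, ⟨X.drop (s2 L (ML L) u), Z1 ++ M, ?_, ?_⟩, N ++ Z3, ?_, ?_, hjl, ?_⟩
    · omega
    · rw [e5, List.drop_append, Nat.sub_eq_zero_of_le e2, List.drop_zero]
    · unfold GE
      rw [Set.mem_ofPred_eq, if_neg h0]
      refine ⟨Z1, M, rfl, g1, g2, by omega, g5, by linarith, ?_⟩
      refine In_mono ?_ (In_pre (A := Z1 ++ M) (B := N ++ Z3) (by rw [List.append_assoc]; exact g10))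
      have : C * 2 ^ b ≤ 4 * C * 2 ^ b := Nat.mul_le_mul_right _ (by omega)
      exact this
    · unfold GS
      rw [Set.mem_ofPred_eq, if_neg h0]
      exact ⟨N, Z3, rfl, g3, g4, by omega, g6, by linarith, hS⟩
    · exact ⟨Y, e6.symm⟩
    · by_contra hcon
      rw [not_le] at hcon
      have h1 := stp_mem (L := L) (ML_pos L) (u.drop j) 0
      have hs1 : s1 L (ML L) (u.drop j) = stp L (ML L) (u.drop j) 0 := rfl
      rw [← hs1] at h1
      rcases h1.2 with h | h
      · omega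
      · have h2' : ∀ v, v ≤ (N ++ Z3).length → vx oo up (u.drop j) v = vx oo up (N ++ Z3) v := by
          intro v hv
          rw [e6, vx_append (by omega)]
        have h2 := h2' _ hcon.le
        have h3 : vx oo up (u.drop j) 0 = oo := rfl
        rw [h2, h3] at h
        have h4 := mem_Bl'.1 (hS (s1 L (ML L) (u.drop j)) hcon.le)
        have h5 := hn_coord h4.1 h4.2
        have h6 : (vx oo up (N ++ Z3) (s1 L (ML L) (u.drop j))) - oo = vx oo up (N ++ Z3) (s1 L (ML L) (u.drop j)) :=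
          sub_zero _
        rw [h6] at h
        have h7 : 3 * (4 * C * 2 ^ b) < 2 ^ L := by
          calc 3 * (4 * C * 2 ^ b) = 12 * C * 2 ^ b := by ring
            _ < 2 ^ k * 2 ^ b := Nat.mul_lt_mul_of_pos_right hC (by positivity)
            _ = 2 ^ (b + k) := by rw [← pow_add, Nat.add_comm]
            _ ≤ 2 ^ L := Nat.pow_le_pow_right (by norm_num) hlb
        have h8 : (3 : ℤ) * ((4 * C * 2 ^ b : ℕ) : ℤ) < 2 ^ L := by exact_mod_cast h7
        linarith

/-- one of the two parts of the window is big -/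
lemma big_core {M s w v j : ℕ} (hL : 5 ≤ L) (hM : PW.mZ (2 ^ L) ≤ (M : ℝ)) (hsj : s ≤ j) (hjw : j ≤ w) (hwu : w ≤ u.length)
    (hws : w ≤ s + M) (hw : w = s + M ∨ (2 : ℤ) ^ L ≤ hn (vx oo up u w - vx oo up u s))
    (hv : v = M ∨ (2 : ℤ) ^ L ≤ hn (vx oo up (u.drop j) v)) :
    (u.take j).drop s ∈ Big L ∨ (u.drop j).take (min (w - j) v) ∈ Big L := by
  have hju : j ≤ u.length := by omega
  have e16 : (2 : ℤ) ^ L = 16 * ((2 ^ (L - 4) : ℕ) : ℤ) := by
    push_cast
    have : L = (L - 4) + 4 := by omega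
    conv_lhs => rw [this, pow_add]
    ring
  have hp : (0 : ℤ) < ((2 ^ (L - 4) : ℕ) : ℤ) := by positivity
  -- a long way of the second part
  have hexit : v < w - j → (u.drop j).take (min (w - j) v) ∈ Big L := by
    intro h
    rw [min_eq_right h.le]
    left
    refine not_In_of_hn (i := v) ?_ ?_
    · rw [List.length_take, List.length_drop]
      omega
    · rw [vx_take le_rfl (by rw [List.length_drop]; omega)]
      rcases hv with h' | h'
      · omega
      · linarith
  rcases Nat.lt_or_ge v (w - j) with hvw | hvw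
  · exact Or.inr (hexit hvw)
  rw [min_eq_left hvw]
  rcases hw with h | h
  · -- time
    rcases Nat.lt_or_ge (4 * (w - j)) (2 * M) with h4 | h4
    · left
      right
      rw [List.length_drop, List.length_take, Nat.min_eq_left hju]
      have h5 : M ≤ 2 * (j - s) := by omega
      have h6 : (M : ℝ) ≤ 2 * ((j - s : ℕ) : ℝ) := by exact_mod_cast h5
      have h7 : 0 ≤ ((j - s : ℕ) : ℝ) := Nat.cast_nonneg _
      linarith
    · right
      right
      rw [List.length_take, List.length_drop, Nat.min_eq_left (by omega)]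
      have h6 : 2 * (M : ℝ) ≤ 4 * ((w - j : ℕ) : ℝ) := by exact_mod_cast h4
      have h7 : 0 ≤ ((w - j : ℕ) : ℝ) := Nat.cast_nonneg _
      linarith
  · -- distance
    have h5 := hn_tri (vx oo up u w) (vx oo up u j) (vx oo up u s)
    rcases le_or_gt (2 ^ L) (2 * hn (vx oo up u w - vx oo up u j)) with h6 | h6
    · right
      left
      have h7 := hn_drop u hju (w - j) 0
      rw [Nat.add_zero, show j + (w - j) = w by omega] at h7
      refine not_In_of_hn2 (i := w - j) (j := 0) ?_ (Nat.zero_le _) ?_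
      · rw [List.length_take, List.length_drop]
        omega
      · rw [vx_take le_rfl (by rw [List.length_drop]; omega), vx_take (Nat.zero_le _) (by rw [List.length_drop]; omega), h7]
        linarith
    · left
      left
      have h7 := hn_drop (u.take j) (x := s) (by rw [List.length_take]; omega) (j - s) 0
      rw [Nat.add_zero, show s + (j - s) = j by omega, vx_take le_rfl hju, vx_take hsj hju] at h7
      refine not_In_of_hn2 (i := j - s) (j := 0) ?_ (Nat.zero_le _) ?_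
      · rw [List.length_drop, List.length_take]
        omega
      · rw [h7]
        linarith

lemma big (hL : 5 ≤ L) (hu : 3 * ML L < u.length) {j : ℕ} (h1 : s2 L (ML L) u ≤ j) (h2 : j ≤ s3 L (ML L) u) :
    (u.take j).drop (s2 L (ML L) u) ∈ Big L ∨
      (u.drop j).take (min (s3 L (ML L) u - j) (s1 L (ML L) (u.drop j))) ∈ Big L := by
  have h33 := s3_le3 L u
  have hMp := ML_pos L
  refine big_core hL (le_ML L) h1 h2 (by omega) (s3_le L u) (stp_mem hMp u _).2 ?_
  have h := (stp_mem (L := L) hMp (u.drop j) 0).2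
  rw [Nat.zero_add] at h
  have e : vx oo up (u.drop j) 0 = oo := rfl
  have e' : ∀ p : Pt, p - oo = p := fun p => sub_zero p
  rw [e, e'] at h
  exact h

/-! ### the block -/

/-- prefixes of the box -/
lemma WL_pre {K : ℕ} {A B : List Bool} (h : A ++ B ∈ WL K) : A ∈ WL K := by
  refine ⟨?_, fun i hi dir => ?_⟩
  · have := SA_take h.1 A.length
    rwa [List.take_left' rfl] at this
  · have := h.2 i (by rw [List.length_append]; omega) dir
    rwa [vx_append (by omega)] at this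

lemma take_WL (hL : 3 ≤ L) (hu : u ∈ SA) (hul : 3 * ML L < u.length) {j : ℕ} (h2 : j ≤ s3 L (ML L) u) :
    u.take j ∈ WL (L + 4) := by
  have h33 := s3_le3 L u
  refine ⟨SA_take hu j, fun i hi dir => ?_⟩
  rw [List.length_take] at hi
  rw [vx_take (by omega) (by omega)]
  have h3 := hn_s3 L u (i := i) (by omega)
  have h4 := row_le_hn dir h3.le
  have h5 : (2 : ℤ) ^ (L + 4) = 16 * 2 ^ L := by rw [pow_add]; ring
  have h6 : (2 : ℤ) ^ 3 ≤ 2 ^ L := pow_le_pow_right₀ (by norm_num) hL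
  rw [h5]
  linarith

end St

open St in
/-- **E1**, up to the number of the cuts -/
theorem stepG_of {κ : ℝ} {C : ℕ} (hcard : ∃ b00 : ℕ, ∀ k b0 L : ℕ, b00 ≤ b0 → b0 + k ≤ L → ∀ u : List Bool, u ∈ SA →
    3 * ML L < u.length → uw κ (lbl κ C b0 k L u) ≤ ((nx κ C b0 k L u).card : ℝ)) : StepG κ C := by
  obtain ⟨b00, hcard⟩ := hcard
  obtain ⟨k0, hk0⟩ : ∃ k0 : ℕ, 12 * C < 2 ^ k0 := ⟨12 * C, Nat.lt_two_pow_self⟩
  refine ⟨k0 + 5, b00 + 1, by omega, by omega, fun k b0 L hk hb0 hL u hu hul => ?_⟩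
  have hC : 12 * C < 2 ^ k := hk0.trans_le (Nat.pow_le_pow_right (by norm_num) (by omega))
  have h33 := s3_le3 L u
  have h12 := s1_lt_s2 L u
  have h23 := s2_lt_s3 L u
  have hcases := lbl_cases (κ := κ) (C := C) (b0 := b0) (k := k) (L := L) (u := u)
  refine ⟨hcard k b0 L (by omega) hL u hu hul, lbl_le hL, ?_, fun j hj => ?_⟩
  · rcases hcases with h | h
    · exact Or.inl h
    · exact Or.inr h.1
  obtain ⟨j2, j3, ⟨R', T, hT1, hT2⟩, S', hS1, hS2, hS3, hS4⟩ := cut hC hj
  obtain ⟨Y, hY⟩ := hS2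
  have hW := take_WL (by omega) hu hul j3
  have hju : j ≤ u.length := by omega
  obtain ⟨b', hb'⟩ : ∃ b', b' = lbl κ C b0 k L u := ⟨_, rfl⟩
  have hb'L : b' + k ≤ L := by rw [hb']; exact lbl_le hL
  rw [← hb'] at hT2 hS1 ⊢
  -- decompositions of the piece
  obtain ⟨a1, ha1⟩ : ∃ a1, a1 = s1 L (ML L) u := ⟨_, rfl⟩
  obtain ⟨a2, ha2⟩ : ∃ a2, a2 = s2 L (ML L) u := ⟨_, rfl⟩
  obtain ⟨a3, ha3⟩ : ∃ a3, a3 = s3 L (ML L) u := ⟨_, rfl⟩
  have hmid : mid L (ML L) u = (u.take a2).drop a1 := by rw [ha1, ha2]; rfl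
  have hwin : win L (ML L) u = (u.take a3).drop a2 := by rw [ha3, ha2]; rfl
  rw [← ha1, ← ha2] at h12
  rw [← ha2, ← ha3] at h23
  rw [← ha3] at h33 j3 hS3
  rw [← ha2] at j2 hT1
  have d2 : u.take j = u.take a2 ++ (R' ++ T) := by
    rw [← hT1]
    conv_lhs => rw [← List.take_append_drop a2 (u.take j)]
    rw [List.take_take, Nat.min_eq_left j2]
  have d1 : u.take a2 = u.take a1 ++ (u.take a2).drop a1 := by
    conv_lhs => rw [← List.take_append_drop a1 (u.take a2)]
    rw [List.take_take, Nat.min_eq_left h12.le]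
  have hju' : a2 ≤ j := j2
  -- the window in two parts
  have hw1 : win L (ML L) u = (R' ++ T) ++ (u.drop j).take (a3 - j) := by
    rw [hwin, ← hT1, ← List.drop_append_of_le_length (by rw [List.length_take]; omega), ← List.take_add,
      show j + (a3 - j) = a3 by omega]
  have hQ2pre : (u.drop j).take (min (a3 - j) (s1 L (ML L) (u.drop j))) <+: (u.drop j).take (a3 - j) := by
    rw [min_comm, ← List.take_take]
    exact List.take_prefix _ _
  have hQ2pre' : (u.drop j).take (min (a3 - j) (s1 L (ML L) (u.drop j))) <+: (u.drop j).take (s1 L (ML L) (u.drop j)) := by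
    rw [← List.take_take]
    exact List.take_prefix _ _
  have hSpre : ∀ n, S'.length ≤ n → S' <+: (u.drop j).take n := by
    intro n hn'
    rw [← hY, List.take_append, List.take_of_length_le hn']
    exact List.prefix_append _ _
  -- the flag
  have hflag : b' + k < L → (R' ++ T ∈ Flg κ C b0 L b') ∨
      ((u.drop j).take (min (a3 - j) (s1 L (ML L) (u.drop j))) ∈ Flg κ C b0 L b') := by
    intro hlt
    have hN : win L (ML L) u ∈ Nz κ C (max (b' + 1) b0) := by
      refine Nz_of_lbl (b0 := b0) (k := k) (le_max_right _ _) ?_ ?_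
      · rcases max_cases (b' + 1) b0 with h | h <;> omega
      · rw [← hb']
        exact lt_of_lt_of_le (Nat.lt_succ_self _) (le_max_left _ _)
    rw [hw1] at hN
    have hb := big (by omega) hul (u := u) (L := L) (j := j) (by rw [← ha2]; exact j2) (by rw [← ha3]; exact j3)
    rw [← ha2, ← ha3, hT1] at hb
    rcases hb with h | h
    · exact Or.inl ⟨Nz_pre hN, h⟩
    · refine Or.inr ⟨?_, h⟩
      obtain ⟨W, hW'⟩ := hQ2pre
      have := Nz_suf hN
      rw [← hW'] at this
      exact Nz_pre this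
  obtain ⟨f', f'', hff, hf1, hf2⟩ : ∃ f' f'' : Bool, (f' = false ∧ f'' = false ∧ b' + k = L ∨ f' = !f'' ∧ b' + k < L) ∧
      (f' = true → R' ++ T ∈ Flg κ C b0 L b') ∧
      (f'' = true → (u.drop j).take (min (a3 - j) (s1 L (ML L) (u.drop j))) ∈ Flg κ C b0 L b') := by
    rcases Nat.eq_or_lt_of_le hb'L with h | h
    · exact ⟨false, false, Or.inl ⟨rfl, rfl, h⟩, by simp, by simp⟩
    · rcases hflag h with h1 | h1
      · exact ⟨true, false, Or.inr ⟨rfl, h⟩, fun _ => h1, by simp⟩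
      · exact ⟨false, true, Or.inr ⟨rfl, h⟩, by simp, fun _ => h1⟩
  have hS4' : S' <+: (u.drop j).take (s1 L (ML L) (u.drop j)) := hSpre _ hS4
  refine ⟨by omega, by rw [← ha2]; exact j2, by rw [← ha3]; exact j3, by rw [← ha3]; exact h33, f', f'', hff,
    ⟨S', hS1, hS4', fun hf => ⟨_, hf2 hf, hSpre _ ?_, hQ2pre'⟩⟩, ?_, ?_⟩
  · rw [le_min_iff]
    exact ⟨by omega, hS4⟩
  · rintro b f ⟨S, hS, hSp, hSf⟩
    rw [← ha1] at hSp hSf
    obtain ⟨R, hR⟩ := hSp
    -- the piece
    have e1 : u.take j = S ++ (R ++ (mid L (ML L) u ++ (R' ++ T))) := by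
      rw [d2, d1, ← hR, hmid]
      simp only [List.append_assoc]
    refine ⟨⟨hW, S, hS, R ++ (mid L (ML L) u ++ R'), T, hT2, by rw [e1]; simp only [List.append_assoc]⟩, fun hf => ?_, fun hf => ?_,
      fun QQ hQQ => ⟨hW, S, hS, R, _, hQQ, R', T, hT2, e1⟩⟩
    · obtain ⟨Q, hQ1, ⟨Z, hZ⟩, ⟨Z', hZ'⟩⟩ := hSf hf
      refine ⟨hW, T, hT2, Z' ++ (mid L (ML L) u ++ R'), Q, hQ1, ?_, S, hS, Z, hZ.symm⟩
      rw [d2, d1, ← hZ', hmid]
      simp only [List.append_assoc]
    · refine ⟨hW, S, hS, R ++ mid L (ML L) u, R' ++ T, hf1 hf, ?_, R', T, hT2, rfl⟩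
      rw [e1]
      simp only [List.append_assoc]
  · intro K A hA
    have hA' : A ++ u.take j ∈ WL K := by
      have h1 : (A ++ u.take j) ++ u.drop j ∈ WL K := by
        rw [List.append_assoc, List.take_append_drop]
        exact hA
      exact WL_pre h1
    refine ⟨⟨hA', [], GS_nil, A ++ (u.take a2 ++ R'), T, hT2, ?_⟩, fun hf => ⟨hA', [], GS_nil, A ++ u.take a2, R' ++ T, hf1 hf, ?_, R',
      T, hT2, rfl⟩⟩
    · rw [d2]
      simp only [List.append_assoc, List.nil_append]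
    · rw [d2]
      simp only [List.append_assoc, List.nil_append]

end NPR

end HexObs
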