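import Pool.Agent.NPR.TipxH

/-!
NPR, row E4 (helper42): one step of the tip lemma for a rare class, every power.
-/

set_option autoImplicit false

namespace HexObs

namespace NPR

open Finset TS SDN NTW NTA SIM TIP

open scoped ENNReal

/-- **one step for a rare class** -/
theorem stepQ (η : ℝ) (hη : 0 < η) (q : ℕ) : ∃ (q' : ℕ) (A1 : ℝ), 1 ≤ A1 ∧ ∀ (b n : ℕ) (P P' P0 Wd : Set (List Bool))
    (a : ℝ) (M0 : ℝ≥0∞), 1 ≤ a → P ⊆ SA → P' ⊆ SA →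
    (∀ A Z, A ++ Z ∈ P → Z ∈ BU → hgt Z ≤ 2 ^ b → A ∈ P0) →
    (∀ A Z1 Z2, A ++ (Z1 ++ Z2) ∈ P → Z1 ∈ BU → Z2 ∈ BU → hgt (Z1 ++ Z2) ≤ 2 ^ b → Z1 ++ Z2 ∉ Wd → A ++ Z1 ∈ P') →
    gf {Z | Z ∈ BU ∧ hgt Z ≤ 2 ^ b ∧ Z ∈ Wd} ≤ ENNReal.ofReal (a / 2 ^ (q * n) * Ub b) →
    gf {t | t ∈ SA ∧ ∃ L ∈ P', ∃ x, BX ((2 ^ b : ℕ) : ℤ) x ∧ t = L ++ x} ≤ ENNReal.ofReal (a / 2 ^ (q' * n)) * M0 →
    gf P ≤ ENNReal.ofReal (a / 2 ^ (q' * n)) * M0 →
    gf (P0 ∩ GT (b - 1) (η / 8)) * Xb (b - 1) ≤ ENNReal.ofReal a * M0 →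
    gf (P ∩ GT b η) * Xb b ≤ ENNReal.ofReal (A1 * a ^ 2 / 2 ^ (q * n)) * M0 := by
  obtain ⟨C, lam, j0, hC, hlam, htip⟩ := tipxHJ η hη
  obtain ⟨E, hE, hXE⟩ := Xb_pow
  obtain ⟨x0, hx0⟩ : ∃ x0 : ℝ, x0 = (Xb 0).toReal := ⟨_, rfl⟩
  have hx00 : 0 ≤ x0 := by rw [hx0]; exact ENNReal.toReal_nonneg
  have hX0 : Xb 0 = ENNReal.ofReal x0 := by rw [hx0]; exact (ENNReal.ofReal_toReal (Xb_ne_top 0)).symm
  obtain ⟨A, hA⟩ : ∃ A : ℕ, (2 : ℝ) ^ q < lam ^ A := pow_unbounded_of_one_lt _ hlam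
  obtain ⟨c1, hc1⟩ : ∃ c1 : ℕ, C < 2 ^ c1 := pow_unbounded_of_one_lt _ one_lt_two
  obtain ⟨c2, hc2⟩ : ∃ c2 : ℕ, E < 2 ^ c2 := pow_unbounded_of_one_lt _ one_lt_two
  have hC0 : 0 < C := by linarith
  have hE0 : 0 < E := by linarith
  have hl0 : 0 < lam := by linarith
  refine ⟨q + (c1 + c2) * A, 3 * C + E ^ (1 + j0) * x0, by nlinarith [mul_nonneg (pow_nonneg hE0.le (1 + j0)) hx00],
    fun b n P P' P0 Wd a M0 ha hP hP' h0 h1 hw hM' hPM hMt => ?_⟩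
  obtain ⟨q', hq'⟩ : ∃ q', q' = q + (c1 + c2) * A := ⟨_, rfl⟩
  rw [← hq'] at hM' hPM
  have ha0 : 0 < a := by linarith
  have haa : a ≤ a ^ 2 := by nlinarith
  have p1 : (0 : ℝ) < 2 ^ (q * n) := by positivity
  have p2 : (0 : ℝ) < 2 ^ (q' * n) := by positivity
  -- powers
  have hCn : (C ^ A) ^ n / 2 ^ (q' * n) ≤ 1 / 2 ^ (q * n) := by
    rw [div_le_div_iff₀ p2 p1, one_mul]
    calc (C ^ A) ^ n * 2 ^ (q * n) ≤ ((2 ^ c1) ^ A) ^ n * 2 ^ (q * n) := by gcongr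
      _ = (2 : ℝ) ^ ((c1 * A + q) * n) := by
          rw [← pow_mul, ← pow_mul, ← pow_add]
          congr 1
          ring
      _ ≤ 2 ^ (q' * n) := by
          refine pow_le_pow_right₀ (by norm_num) (Nat.mul_le_mul_right _ ?_)
          rw [hq']
          nlinarith
  have hEn : (E ^ A) ^ n / 2 ^ (q' * n) ≤ 1 / 2 ^ (q * n) := by
    rw [div_le_div_iff₀ p2 p1, one_mul]
    calc (E ^ A) ^ n * 2 ^ (q * n) ≤ ((2 ^ c2) ^ A) ^ n * 2 ^ (q * n) := by gcongr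
      _ = (2 : ℝ) ^ ((c2 * A + q) * n) := by
          rw [← pow_mul, ← pow_mul, ← pow_add]
          congr 1
          ring
      _ ≤ 2 ^ (q' * n) := by
          refine pow_le_pow_right₀ (by norm_num) (Nat.mul_le_mul_right _ ?_)
          rw [hq']
          nlinarith
  by_cases hbj : A * n + 1 + j0 ≤ b
  · have key := htip b (A * n + 1) P P' P0 Wd (a / 2 ^ (q * n)) _ _ (by omega) hbj hP hP' h0 h1 (by positivity) hw hM' hMt
    refine key.trans ?_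
    rw [← mul_assoc, ← mul_assoc, ← ENNReal.ofReal_mul (by positivity), ← ENNReal.ofReal_mul (by positivity), ← add_mul,
      ← ENNReal.ofReal_add (by positivity) (by positivity)]
    refine mul_le_mul_left (ENNReal.ofReal_le_ofReal ?_) _
    have t1 : (lam ^ (A * n + 1))⁻¹ ≤ a / 2 ^ (q * n) := by
      have h2 : (2 : ℝ) ^ (q * n) ≤ lam ^ (A * n + 1) := by
        calc (2 : ℝ) ^ (q * n) = (2 ^ q) ^ n := pow_mul _ _ _
          _ ≤ (lam ^ A) ^ n := pow_le_pow_left₀ (by positivity) hA.le _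
          _ = lam ^ (A * n) := (pow_mul _ _ _).symm
          _ ≤ lam ^ (A * n + 1) := pow_le_pow_right₀ hlam.le (by omega)
      calc (lam ^ (A * n + 1))⁻¹ ≤ (2 ^ (q * n))⁻¹ := inv_anti₀ p1 h2
        _ = 1 / 2 ^ (q * n) := (one_div _).symm
        _ ≤ a / 2 ^ (q * n) := by gcongr
    have t2 : C ^ (A * n + 1) * (a / 2 ^ (q' * n)) ≤ C * (a ^ 2 / 2 ^ (q * n)) := by
      calc C ^ (A * n + 1) * (a / 2 ^ (q' * n)) = C * a * ((C ^ A) ^ n / 2 ^ (q' * n)) := by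
            rw [pow_succ, pow_mul]
            ring
        _ ≤ C * a * (1 / 2 ^ (q * n)) := mul_le_mul_of_nonneg_left hCn (by positivity)
        _ = C * (a / 2 ^ (q * n)) := by ring
        _ ≤ C * (a ^ 2 / 2 ^ (q * n)) := by gcongr
    have t3 : C * ((lam ^ (A * n + 1))⁻¹ + a / 2 ^ (q * n)) * a ≤ 2 * C * (a ^ 2 / 2 ^ (q * n)) := by
      calc C * ((lam ^ (A * n + 1))⁻¹ + a / 2 ^ (q * n)) * a ≤ C * (a / 2 ^ (q * n) + a / 2 ^ (q * n)) * a := by gcongr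
        _ = 2 * C * (a ^ 2 / 2 ^ (q * n)) := by ring
    have t4 : 0 ≤ E ^ (1 + j0) * x0 * (a ^ 2 / 2 ^ (q * n)) := by positivity
    calc C * ((lam ^ (A * n + 1))⁻¹ + a / 2 ^ (q * n)) * a + C ^ (A * n + 1) * (a / 2 ^ (q' * n))
        ≤ 2 * C * (a ^ 2 / 2 ^ (q * n)) + C * (a ^ 2 / 2 ^ (q * n)) := add_le_add t3 t2
      _ ≤ 2 * C * (a ^ 2 / 2 ^ (q * n)) + C * (a ^ 2 / 2 ^ (q * n)) + E ^ (1 + j0) * x0 * (a ^ 2 / 2 ^ (q * n)) := by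
          linarith
      _ = _ := by ring
  · have h2 : Xb b ≤ ENNReal.ofReal (E ^ (A * n + (1 + j0)) * x0) := by
      have h3 := hXE 0 b
      rw [Nat.zero_add, hX0, ← ENNReal.ofReal_mul (by positivity)] at h3
      refine h3.trans (ENNReal.ofReal_le_ofReal ?_)
      exact mul_le_mul_of_nonneg_right (pow_le_pow_right₀ hE (by omega)) hx00
    refine (mul_le_mul' ((gf_mono Set.inter_subset_left).trans hPM) h2).trans ?_
    rw [mul_right_comm, ← ENNReal.ofReal_mul (by positivity)]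
    refine mul_le_mul_left (ENNReal.ofReal_le_ofReal ?_) _
    have t4 : 0 ≤ 3 * C * (a ^ 2 / 2 ^ (q * n)) := by positivity
    have hs : 0 ≤ E ^ (1 + j0) * x0 := by positivity
    calc a / 2 ^ (q' * n) * (E ^ (A * n + (1 + j0)) * x0) = E ^ (1 + j0) * x0 * a * ((E ^ A) ^ n / 2 ^ (q' * n)) := by
          rw [pow_add E (A * n), pow_mul]
          ring
      _ ≤ E ^ (1 + j0) * x0 * a * (1 / 2 ^ (q * n)) := mul_le_mul_of_nonneg_left hEn (by positivity)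
      _ = E ^ (1 + j0) * x0 * (a / 2 ^ (q * n)) := by ring
      _ ≤ E ^ (1 + j0) * x0 * (a ^ 2 / 2 ^ (q * n)) := by gcongr
      _ ≤ 3 * C * (a ^ 2 / 2 ^ (q * n)) + E ^ (1 + j0) * x0 * (a ^ 2 / 2 ^ (q * n)) := by linarith
      _ = _ := by ring

end NPR

end HexObs
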