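import Pool.Agent.NPR.Step
import Pool.Agent.NPR.StepA

/-!
# NPR, E1: one block of a chain (helper14, number of the cuts: helper10)
-/

set_option autoImplicit false

namespace HexObs

namespace NPR

open Finset TS SDN TIW NTA TIP

/-- **E1** -/
theorem stepG {κ : ℝ} (hκ : 0 < κ) (C : ℕ) : StepG κ C :=
  stepG_of ⟨0, fun k b0 L _ _ u _ hul => nx_card hκ ((St.s3_le3 L u).trans hul.le)⟩

end NPR

end HexObs
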