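import Pool.Agent.NPR.Wd
import Pool.Agent.NPR.Defs2
import Pool.Agent.NT.Dict

/-!
# NPR, row P1c: the additive functional of the words (helper34)

* `zw u j` : the vertices of the word `u` in the plane;
* `Vm R u` : the mean over the scales `x` in `[R, 2 R]` of the least number of consecutive pieces of diameter at most `x`;
* `af_Vm` : an additive functional of the scale `⌊R⌋`; `Vm_rev` : its invariance under reversal, up to 1.
-/

set_option autoImplicit false

open Set Filter Topology MeasureTheory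

namespace Pool.Agent.NPR

open HexObs hiding pos curve
open HexObs.TIW HexObs.TS HexObs.SDN HexObs.NPR
open NTF (JJ JJ_norm JJ_sub JJ_neg JJ_add)

/-! ### the plane -/

lemma JJ_le_hn (v : Pt) : ‖JJ v‖ ≤ (hn v : ℝ) := by
  have h1 := nrm_le_hn v
  have h2 : ((nrm v : ℤ) : ℝ) ≤ (hn v : ℝ) ^ 2 := by exact_mod_cast h1
  have h3 : (0 : ℝ) ≤ hn v := by exact_mod_cast hn_nonneg v
  rw [← JJ_norm] at h2
  exact (sq_le_sq₀ (norm_nonneg _) h3).1 h2

lemma ip_le_JJ (v : Pt) {d : Pt} (hd : d ∈ dirs) : ((ip v d : ℤ) : ℝ) ≤ 2 * ‖JJ v‖ := by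
  have h0 : nrm d = 1 := mem_dirs.1 hd
  have h1 : ip v d ^ 2 ≤ 4 * nrm v * nrm d := by
    have h2 : 4 * nrm v * nrm d - ip v d ^ 2 = 3 * (v.1 * d.2 - v.2 * d.1) ^ 2 := by
      unfold nrm ip
      ring
    have h3 : 0 ≤ (v.1 * d.2 - v.2 * d.1) ^ 2 := sq_nonneg _
    linarith
  rw [h0, mul_one] at h1
  have h2 : ((ip v d : ℤ) : ℝ) ^ 2 ≤ 4 * ((nrm v : ℤ) : ℝ) := by exact_mod_cast h1
  rw [← JJ_norm] at h2
  refine le_of_sq_le_sq ?_ (by positivity)
  calc ((ip v d : ℤ) : ℝ) ^ 2 ≤ 4 * ‖JJ v‖ ^ 2 := h2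
    _ = (2 * ‖JJ v‖) ^ 2 := by ring

lemma JJ_rot {u : Pt} (hu : nrm u = 1) (p : Pt) : ‖JJ (mulE u p)‖ = ‖JJ p‖ := by
  have h : nrm (mulE u p) = nrm u * nrm p := by
    unfold nrm mulE
    ring
  have h2 : ‖JJ (mulE u p)‖ ^ 2 = ‖JJ p‖ ^ 2 := by
    rw [JJ_norm, JJ_norm, h, hu, one_mul]
  exact (sq_eq_sq₀ (norm_nonneg _) (norm_nonneg _)).1 h2

lemma JJ_dir {d : Pt} (hd : d ∈ dirs) : ‖JJ d‖ = 1 := by
  have h0 : nrm d = 1 := mem_dirs.1 hd
  have h2 : ‖JJ d‖ ^ 2 = 1 ^ 2 := by
    rw [JJ_norm, h0]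
    norm_num
  exact (sq_eq_sq₀ (norm_nonneg _) (by norm_num)).1 h2

/-- the vertices of a word in the plane -/
noncomputable def zw (u : List Bool) (j : ℕ) : ℂ := JJ (vx oo up u j)

lemma dist_zw (u : List Bool) (i j : ℕ) : dist (zw u i) (zw u j) = ‖JJ (vx oo up u i - vx oo up u j)‖ := by
  rw [dist_eq_norm, JJ_sub]
  rfl

lemma zw_step (u : List Bool) (j : ℕ) : dist (zw u j) (zw u (j + 1)) ≤ 1 := by
  rw [dist_comm, dist_zw]
  have h : vx oo up u (j + 1) - vx oo up u j = dx up u j := by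
    show vx oo up u j + dx up u j - vx oo up u j = dx up u j
    abel
  rw [h, JJ_dir (dx_mem upd' u j)]

lemma zw_zero (u : List Bool) : zw u 0 = 0 := by
  show JJ oo = 0
  apply Complex.ext
  · show ((0 : ℤ) : ℝ) / 2 + ((0 : ℤ) : ℝ) = 0
    norm_num
  · show -(Real.sqrt 3 / 2 * ((0 : ℤ) : ℝ)) = 0
    norm_num

lemma zw_left {u v : List Bool} {j : ℕ} (h : j ≤ u.length) : zw (u ++ v) j = zw u j := by
  unfold zw
  rw [vx_append (by omega)]

lemma zw_right (u v : List Bool) (p q : ℕ) :
    dist (zw (u ++ v) (u.length + p)) (zw (u ++ v) (u.length + q)) = dist (zw v p) (zw v q) := by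
  rw [dist_zw, dist_zw, vx_app, vx_app]
  have h : en u + mulE (rt u) (vx oo up v p) - (en u + mulE (rt u) (vx oo up v q)) =
      mulE (rt u) (vx oo up v p - vx oo up v q) := by
    ext
    · simp only [mulE, Prod.fst_add, Prod.fst_sub, Prod.snd_sub]
      ring
    · simp only [mulE, Prod.fst_sub, Prod.snd_sub, Prod.snd_add]
      ring
  rw [h, JJ_rot (nrm_rt u)]

lemma zw_take {t : List Bool} {k j : ℕ} (hk : k ≤ t.length) (hj : j ≤ k) : zw (t.take k) j = zw t j := by
  have h : (t.take k).length = k := by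
    rw [List.length_take, min_eq_left hk]
  conv_rhs => rw [← List.take_append_drop k t]
  rw [zw_left (by omega)]

/-- the reversed word -/
lemma zw_rev (u : List Bool) {p q : ℕ} (hp : p ≤ u.length) (hq : q ≤ u.length) :
    dist (zw (rev u) p) (zw (rev u) q) = dist (zw u (u.length + 1 - p)) (zw u (u.length + 1 - q)) := by
  obtain ⟨h1, h2⟩ := frame_dir (neg_mem_dirs (dx_mem upd' u u.length))
  have key : ∀ i, i ≤ u.length + 1 → tip oo up u + mulE (rotTo up (-(dx up u u.length))) (vx oo up (rev u) i) =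
      vx oo up u (u.length + 1 - i) := by
    intro i hi
    rw [← vx_frameN, ← h2]
    exact vx_rev oo up u i hi
  rw [dist_zw, dist_zw, ← key p (by omega), ← key q (by omega)]
  have h : tip oo up u + mulE (rotTo up (-(dx up u u.length))) (vx oo up (rev u) p) -
      (tip oo up u + mulE (rotTo up (-(dx up u u.length))) (vx oo up (rev u) q)) =
      mulE (rotTo up (-(dx up u u.length))) (vx oo up (rev u) p - vx oo up (rev u) q) := by
    ext
    · simp only [mulE, Prod.fst_add, Prod.fst_sub, Prod.snd_sub]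
      ring
    · simp only [mulE, Prod.fst_sub, Prod.snd_sub, Prod.snd_add]
      ring
  rw [h, JJ_rot (mem_dirs.1 h1)]

/-! ### the functional -/

lemma vz_int {z : ℕ → ℂ} {n : ℕ} (hz : ∀ i, dist (z i) (z (i + 1)) ≤ 1) {a b : ℝ} (ha : 1 ≤ a) (hab : a ≤ b) (c : ℕ)
    (hc : c ≤ n) : IntervalIntegrable (fun x => (Vz x z c n : ℝ)) volume a b := by
  refine AntitoneOn.intervalIntegrable ?_
  rw [uIcc_of_le hab]
  intro x hx y hy hxy
  show (Vz y z c n : ℝ) ≤ (Vz x z c n : ℝ)
  exact_mod_cast Vz_anti (ha.trans hx.1) hxy hc fun i _ _ => hz i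

/-- the mean over the scales of the number of pieces -/
noncomputable def Vm (R : ℝ) (u : List Bool) : ℝ := (∫ x in R..2 * R, (Vz x (zw u) 0 u.length : ℝ)) / R

lemma split_le {x : ℝ} (hx : 1 ≤ x) (u v : List Bool) :
    Vz x (zw (u ++ v)) 0 (u ++ v).length ≤ Vz x (zw u) 0 u.length + Vz x (zw v) 0 v.length ∧
    Vz x (zw u) 0 u.length + Vz x (zw v) 0 v.length ≤ Vz x (zw (u ++ v)) 0 (u ++ v).length + 1 := by
  have e1 : Vz x (zw (u ++ v)) 0 u.length = Vz x (zw u) 0 u.length := by
    have h := Vz_congr (x := x) (z := zw (u ++ v)) (z' := zw u) (a := 0) (b := u.length) (a' := 0) (Nat.zero_le _)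
      (fun p hp q hq => by
        rw [Nat.sub_zero] at hp hq
        rw [Nat.zero_add, Nat.zero_add, zw_left hp, zw_left hq])
    rwa [Nat.sub_zero, Nat.zero_add] at h
  have e2 : Vz x (zw (u ++ v)) u.length (u ++ v).length = Vz x (zw v) 0 v.length := by
    rw [List.length_append]
    have h := Vz_congr (x := x) (z := zw (u ++ v)) (z' := zw v) (a := u.length) (b := u.length + v.length) (a' := 0)
      (Nat.le_add_right _ _) (fun p hp q hq => by
        rw [Nat.zero_add, Nat.zero_add, zw_right])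
    rwa [Nat.add_sub_cancel_left, Nat.zero_add] at h
  have hl : u.length ≤ (u ++ v).length := by
    rw [List.length_append]
    omega
  rw [← e1, ← e2]
  exact ⟨Vz_add_le hx (Nat.zero_le _) hl fun i _ _ => zw_step _ i, Vz_add_ge hx (Nat.zero_le _) hl fun i _ _ => zw_step _ i⟩

section

variable {R : ℝ} (hR : 1 ≤ R)

include hR

lemma vm_int (u : List Bool) : IntervalIntegrable (fun x => (Vz x (zw u) 0 u.length : ℝ)) volume R (2 * R) :=
  vz_int (zw_step u) hR (by linarith) 0 (Nat.zero_le _)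

lemma vm_const (c : ℝ) : (∫ _ in R..2 * R, c) / R = c := by
  rw [intervalIntegral.integral_const, smul_eq_mul]
  have : R ≠ 0 := by linarith
  field_simp
  ring

/-- comparison of means -/
lemma mean_le {f g : ℝ → ℝ} (hf : IntervalIntegrable f volume R (2 * R)) (hg : IntervalIntegrable g volume R (2 * R))
    (h : ∀ x ∈ Icc R (2 * R), f x ≤ g x) : (∫ x in R..2 * R, f x) / R ≤ (∫ x in R..2 * R, g x) / R := by
  refine div_le_div_of_nonneg_right ?_ (by linarith)
  exact intervalIntegral.integral_mono_on (by linarith) hf hg h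

lemma Vm_one (u : List Bool) : 1 ≤ Vm R u := by
  have h := mean_le hR (f := fun _ => (1 : ℝ)) intervalIntegrable_const (vm_int hR u) fun x hx => by
    show (1 : ℝ) ≤ (Vz x (zw u) 0 u.length : ℝ)
    exact_mod_cast one_le_Vz (hR.trans hx.1) (Nat.zero_le _) fun i _ _ => zw_step u i
  rwa [vm_const hR] at h

theorem af_Vm {r : ℕ} (hr : (r : ℝ) ≤ R) (hr1 : R < r + 1) (h1 : 1 ≤ r) : AF r (Vm R) := by
  refine ⟨⟨fun u => zero_le_one.trans (Vm_one hR u), fun u v => ?_, fun u v => ?_⟩, Vm_one hR, fun u h => ?_, fun u h => ?_⟩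
  · have h := mean_le hR (vm_int hR (u ++ v)) ((vm_int hR u).add (vm_int hR v)) fun x hx => by
      show (Vz x (zw (u ++ v)) 0 (u ++ v).length : ℝ) ≤ (Vz x (zw u) 0 u.length : ℝ) + (Vz x (zw v) 0 v.length : ℝ)
      exact_mod_cast (split_le (hR.trans hx.1) u v).1
    rw [intervalIntegral.integral_add (vm_int hR u) (vm_int hR v), add_div] at h
    exact h
  · have h := mean_le hR ((vm_int hR u).add (vm_int hR v)) ((vm_int hR (u ++ v)).add intervalIntegrable_const) fun x hx => by
      show (Vz x (zw u) 0 u.length : ℝ) + (Vz x (zw v) 0 v.length : ℝ) ≤ (Vz x (zw (u ++ v)) 0 (u ++ v).length : ℝ) + 1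
      exact_mod_cast (split_le (hR.trans hx.1) u v).2
    rw [intervalIntegral.integral_add (vm_int hR u) (vm_int hR v), add_div,
      intervalIntegral.integral_add (vm_int hR (u ++ v)) intervalIntegrable_const, add_div, vm_const hR] at h
    exact h
  · have h' := mean_le hR (g := fun _ => (1 : ℝ)) (vm_int hR u) intervalIntegrable_const fun x hx => by
      show (Vz x (zw u) 0 u.length : ℝ) ≤ 1
      have : Vz x (zw u) 0 u.length ≤ 1 := by
        refine Vz_one (Nat.zero_le _) fun p q _ hp _ hq => ?_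
        rw [dist_zw]
        refine (JJ_le_hn _).trans (le_trans ?_ (hr.trans hx.1))
        exact_mod_cast h p q hp hq
      exact_mod_cast this
    rwa [vm_const hR] at h'
  · obtain ⟨i, hi, hi2⟩ := h
    have h' := mean_le hR (f := fun _ => (2 : ℝ)) intervalIntegrable_const (vm_int hR u) fun x hx => by
      show (2 : ℝ) ≤ (Vz x (zw u) 0 u.length : ℝ)
      have : 2 ≤ Vz x (zw u) 0 u.length := by
        refine Vz_two (hR.trans hx.1) (Nat.zero_le _) (fun i _ _ => zw_step u i)
          ⟨i, 0, Nat.zero_le _, hi, Nat.zero_le _, Nat.zero_le _, ?_⟩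
        rw [dist_zw]
        have e : vx oo up u i - vx oo up u 0 = vx oo up u i := by
          show vx oo up u i - (0 : Pt) = vx oo up u i
          rw [sub_zero]
        rw [e]
        have h3 : (hn (vx oo up u i) : ℝ) ≤ 2 * ‖JJ (vx oo up u i)‖ := by
          rcases le_total 0 (hn (vx oo up u i)) with h0 | h0
          · obtain ⟨d, hd, hd2⟩ : ∃ d ∈ dirs, hn (vx oo up u i) ≤ ip (vx oo up u i) d := by
              by_contra hcon
              push Not at hcon
              have h5 : hn (vx oo up u i) ≤ hn (vx oo up u i) - 1 := hn_le fun d hd => by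
                have := hcon d hd
                omega
              omega
            refine le_trans ?_ (ip_le_JJ _ hd)
            exact_mod_cast hd2
          · have : (hn (vx oo up u i) : ℝ) ≤ 0 := by exact_mod_cast h0
            have := norm_nonneg (JJ (vx oo up u i))
            linarith
        have h4 : (8 : ℝ) * r ≤ hn (vx oo up u i) := by exact_mod_cast hi2
        have h5 : (1 : ℝ) ≤ r := by exact_mod_cast h1
        have h6 := hx.2
        linarith
      exact_mod_cast this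
    rwa [vm_const hR] at h'

/-- reversal -/
theorem Vm_rev (u : List Bool) : |Vm R u - Vm R (rev u)| ≤ 1 := by
  rcases Nat.eq_zero_or_pos u.length with h0 | h0
  · have : u = [] := List.length_eq_zero_iff.1 h0
    rw [this]
    show |Vm R [] - Vm R []| ≤ 1
    rw [sub_self, abs_zero]
    norm_num
  -- the common part
  obtain ⟨n, hn⟩ : ∃ n, n = u.length := ⟨_, rfl⟩
  have hn1 : 1 ≤ n := by omega
  obtain ⟨m, hm⟩ : ∃ m : ℝ → ℝ, m = fun x => (Vz x (zw u) 1 n : ℝ) := ⟨_, rfl⟩
  have hmi : IntervalIntegrable m volume R (2 * R) := by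
    rw [hm]
    exact vz_int (zw_step u) hR (by linarith) 1 hn1
  have key : ∀ x ∈ Icc R (2 * R), m x ≤ (Vz x (zw u) 0 u.length : ℝ) ∧ (Vz x (zw u) 0 u.length : ℝ) ≤ m x + 1 ∧
      m x ≤ (Vz x (zw (rev u)) 0 (rev u).length : ℝ) ∧ (Vz x (zw (rev u)) 0 (rev u).length : ℝ) ≤ m x + 1 := by
    intro x hx
    have hx1 : 1 ≤ x := hR.trans hx.1
    have hstep : ∀ i, dist (zw u i) (zw u (i + 1)) ≤ 1 := zw_step u
    have a1 : Vz x (zw u) 0 1 ≤ 1 := Vz_one (Nat.zero_le _) fun p q _ hp _ hq => by
      have hp' : p = 0 ∨ p = 1 := by omega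
      have hq' : q = 0 ∨ q = 1 := by omega
      have h01 := hstep 0
      rw [Nat.zero_add] at h01
      rcases hp' with rfl | rfl <;> rcases hq' with rfl | rfl
      · rw [dist_self]
        linarith
      · linarith
      · rw [dist_comm]
        linarith
      · rw [dist_self]
        linarith
    have a2 : Vz x (zw u) n (n + 1) ≤ 1 := Vz_one (Nat.le_succ _) fun p q hp hp2 hq hq2 => by
      have hp' : p = n ∨ p = n + 1 := by omega
      have hq' : q = n ∨ q = n + 1 := by omega
      have h01 := hstep n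
      rcases hp' with rfl | rfl <;> rcases hq' with rfl | rfl
      · rw [dist_self]
        linarith
      · linarith
      · rw [dist_comm]
        linarith
      · rw [dist_self]
        linarith
    have b1 := Vz_add_le hx1 (Nat.zero_le 1) hn1 fun i _ _ => hstep i
    have b2 := Vz_add_ge hx1 (Nat.zero_le 1) hn1 fun i _ _ => hstep i
    have b3 : 1 ≤ Vz x (zw u) 0 1 := one_le_Vz hx1 (Nat.zero_le _) fun i _ _ => hstep i
    have hn2 : n ≤ n + 1 := by omega
    have b4 := Vz_add_le hx1 hn1 hn2 fun i _ _ => hstep i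
    have b5 := Vz_mono hx1 hn1 hn2 fun i _ _ => hstep i
    -- the reversed word
    have e1 : Vz x (zw (rev u)) 0 (rev u).length = Vz x (zw u) 1 (n + 1) := by
      rw [rev_length, ← hn]
      have h1 := Vz_rev (x := x) (z := zw (rev u)) (z' := fun j => zw u (1 + j)) (n := n) (fun p hp q hq => by
        rw [zw_rev u (by omega) (by omega), ← hn]
        have e3 : n + 1 - p = 1 + (n - p) := by omega
        have e4 : n + 1 - q = 1 + (n - q) := by omega
        rw [e3, e4])
      rw [h1]
      have h2 := Vz_congr (x := x) (z := fun j => zw u (1 + j)) (z' := zw u) (a := 0) (b := n) (a' := 1) (Nat.zero_le _)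
        (fun p hp q hq => by
          show dist (zw u (1 + (0 + p))) (zw u (1 + (0 + q))) = _
          rw [Nat.zero_add, Nat.zero_add])
      rw [h2, Nat.sub_zero, Nat.add_comm 1 n]
    have e2 : m x = (Vz x (zw u) 1 n : ℝ) := by rw [hm]
    rw [e1, e2, ← hn]
    have f1 : Vz x (zw u) 1 n ≤ Vz x (zw u) 0 n := by omega
    have f2 : Vz x (zw u) 0 n ≤ Vz x (zw u) 1 n + 1 := by omega
    have f4 : Vz x (zw u) 1 (n + 1) ≤ Vz x (zw u) 1 n + 1 := by omega
    exact ⟨by exact_mod_cast f1, by exact_mod_cast f2, by exact_mod_cast b5, by exact_mod_cast f4⟩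
  have c1 := mean_le hR hmi (vm_int hR u) fun x hx => (key x hx).1
  have c2 := mean_le hR (vm_int hR u) (hmi.add intervalIntegrable_const) fun x hx => (key x hx).2.1
  have c3 := mean_le hR hmi (vm_int hR (rev u)) fun x hx => (key x hx).2.2.1
  have c4 := mean_le hR (vm_int hR (rev u)) (hmi.add intervalIntegrable_const) fun x hx => (key x hx).2.2.2
  rw [intervalIntegral.integral_add hmi intervalIntegrable_const, add_div, vm_const hR] at c2 c4
  have d1 : (∫ x in R..2 * R, (Vz x (zw u) 0 u.length : ℝ)) / R = Vm R u := rfl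
  have d2 : (∫ x in R..2 * R, (Vz x (zw (rev u)) 0 (rev u).length : ℝ)) / R = Vm R (rev u) := rfl
  rw [d1] at c1 c2
  rw [d2] at c3 c4
  rw [abs_le]
  constructor <;> linarith

end

end Pool.Agent.NPR
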